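import Pool.Agent.MP_2339ce_nt.Q2.TKOk
import Pool.Agent.MP_2339ce_nt.Q2.G.F0

/-! Project Q2: generated data. -/

set_option autoImplicit false
set_option maxRecDepth 100000

noncomputable section

namespace Pool.Agent.MP_2339ce_nt.Q2.TB

theorem af0_0 : c0.Ok ∧ c8.Ok ∧ c23.Ok ∧ c41.Ok ∧ c95.Ok ∧ c106.Ok ∧ c108.Ok ∧ c117.Ok ∧ c121.Ok ∧ c133.Ok ∧ c137.Ok ∧ c140.Ok ∧ True := cmX_ok kf0_0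


theorem af0_1 : c149.Ok ∧ c160.Ok ∧ c164.Ok ∧ c174.Ok ∧ c176.Ok ∧ c188.Ok ∧ c194.Ok ∧ c198.Ok ∧ c204.Ok ∧ c207.Ok ∧ c230.Ok ∧ c234.Ok ∧ True := cmX_ok kf0_1


theorem af0_2 : c266.Ok ∧ c268.Ok ∧ c292.Ok ∧ c293.Ok ∧ c298.Ok ∧ c301.Ok ∧ c310.Ok ∧ c401.Ok ∧ c416.Ok ∧ c422.Ok ∧ c429.Ok ∧ c462.Ok ∧ True := cmX_ok kf0_2


theorem af0_3 : c481.Ok ∧ c565.Ok ∧ c573.Ok ∧ c584.Ok ∧ c597.Ok ∧ c606.Ok ∧ c608.Ok ∧ c610.Ok ∧ c615.Ok ∧ c620.Ok ∧ c632.Ok ∧ c637.Ok ∧ True := cmX_ok kf0_3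


theorem af0_4 : c656.Ok ∧ c658.Ok ∧ c690.Ok ∧ c697.Ok ∧ c705.Ok ∧ c716.Ok ∧ c720.Ok ∧ c727.Ok ∧ c731.Ok ∧ c793.Ok ∧ c844.Ok ∧ c845.Ok ∧ True := cmX_ok kf0_4


theorem af1_0 : c3.Ok ∧ c9.Ok ∧ c15.Ok ∧ c24.Ok ∧ c42.Ok ∧ c77.Ok ∧ c122.Ok ∧ c138.Ok ∧ c152.Ok ∧ c161.Ok ∧ c299.Ok ∧ c302.Ok ∧ True := cmX_ok kf1_0


theorem af1_1 : c311.Ok ∧ c351.Ok ∧ c402.Ok ∧ c417.Ok ∧ c423.Ok ∧ c430.Ok ∧ c463.Ok ∧ c482.Ok ∧ c499.Ok ∧ c517.Ok ∧ c535.Ok ∧ c544.Ok ∧ True := cmX_ok kf1_1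


theorem af1_2 : c550.Ok ∧ c558.Ok ∧ c574.Ok ∧ c585.Ok ∧ c591.Ok ∧ c609.Ok ∧ c616.Ok ∧ c621.Ok ∧ c633.Ok ∧ c638.Ok ∧ c691.Ok ∧ c698.Ok ∧ True := cmX_ok kf1_2


theorem af1_3 : c706.Ok ∧ c717.Ok ∧ c721.Ok ∧ True := cmX_ok kf1_3


theorem af2_0 : c683.Ok ∧ True := cmX_ok kf2_0


theorem af5_0 : c43.Ok ∧ c59.Ok ∧ c82.Ok ∧ c98.Ok ∧ c109.Ok ∧ c123.Ok ∧ c129.Ok ∧ c153.Ok ∧ c156.Ok ∧ c165.Ok ∧ c184.Ok ∧ c189.Ok ∧ True := cmX_ok kf5_0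


theorem af5_1 : c199.Ok ∧ c214.Ok ∧ c216.Ok ∧ c312.Ok ∧ c352.Ok ∧ c431.Ok ∧ c483.Ok ∧ c500.Ok ∧ c551.Ok ∧ c554.Ok ∧ c555.Ok ∧ c559.Ok ∧ True := cmX_ok kf5_1

theorem c214_ok : c214.Ok := af5_1.2.1
theorem c216_ok : c216.Ok := af5_1.2.2.1

theorem af5_2 : c561.Ok ∧ c586.Ok ∧ c592.Ok ∧ c611.Ok ∧ c613.Ok ∧ c614.Ok ∧ c622.Ok ∧ c625.Ok ∧ c639.Ok ∧ c651.Ok ∧ c669.Ok ∧ c678.Ok ∧ True := cmX_ok kf5_2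

theorem c669_ok : c669.Ok := af5_2.2.2.2.2.2.2.2.2.2.2.1

theorem af5_3 : c688.Ok ∧ c707.Ok ∧ c712.Ok ∧ True := cmX_ok kf5_3


theorem ar5_0 : c252.Ok ∧ c255.Ok ∧ c756.Ok ∧ c758.Ok ∧ True := rgAll_ok (L := r5_0) ⟨
  c214_ok, c216_ok, c669_ok, c669_ok, trivial⟩ kr5_0

theorem af6_0 : c25.Ok ∧ c44.Ok ∧ c71.Ok ∧ c78.Ok ∧ c83.Ok ∧ c99.Ok ∧ c110.Ok ∧ c124.Ok ∧ c139.Ok ∧ c141.Ok ∧ c143.Ok ∧ c144.Ok ∧ True := cmX_ok kf6_0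


theorem af6_1 : c146.Ok ∧ c154.Ok ∧ c170.Ok ∧ c177.Ok ∧ c179.Ok ∧ c185.Ok ∧ c190.Ok ∧ c200.Ok ∧ c202.Ok ∧ c208.Ok ∧ c212.Ok ∧ c215.Ok ∧ True := cmX_ok kf6_1

theorem c212_ok : c212.Ok := af6_1.2.2.2.2.2.2.2.2.2.2.1
theorem c215_ok : c215.Ok := af6_1.2.2.2.2.2.2.2.2.2.2.2.1

theorem af6_2 : c217.Ok ∧ c219.Ok ∧ c232.Ok ∧ c235.Ok ∧ c269.Ok ∧ c464.Ok ∧ c484.Ok ∧ c536.Ok ∧ c545.Ok ∧ c552.Ok ∧ c575.Ok ∧ c617.Ok ∧ True := cmX_ok kf6_2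

theorem c217_ok : c217.Ok := af6_2.1

theorem af6_3 : c623.Ok ∧ c640.Ok ∧ c652.Ok ∧ c659.Ok ∧ c663.Ok ∧ c664.Ok ∧ c665.Ok ∧ c667.Ok ∧ c668.Ok ∧ c670.Ok ∧ c674.Ok ∧ c679.Ok ∧ True := cmX_ok kf6_3

theorem c663_ok : c663.Ok := af6_3.2.2.2.2.1
theorem c664_ok : c664.Ok := af6_3.2.2.2.2.2.1
theorem c665_ok : c665.Ok := af6_3.2.2.2.2.2.2.1
theorem c667_ok : c667.Ok := af6_3.2.2.2.2.2.2.2.1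
theorem c668_ok : c668.Ok := af6_3.2.2.2.2.2.2.2.2.1
theorem c670_ok : c670.Ok := af6_3.2.2.2.2.2.2.2.2.2.1

theorem af6_4 : c684.Ok ∧ c689.Ok ∧ c699.Ok ∧ c708.Ok ∧ c713.Ok ∧ c722.Ok ∧ c724.Ok ∧ c732.Ok ∧ c733.Ok ∧ c765.Ok ∧ c767.Ok ∧ c769.Ok ∧ True := cmX_ok kf6_4

theorem c765_ok : c765.Ok := af6_4.2.2.2.2.2.2.2.2.2.1
theorem c767_ok : c767.Ok := af6_4.2.2.2.2.2.2.2.2.2.2.1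
theorem c769_ok : c769.Ok := af6_4.2.2.2.2.2.2.2.2.2.2.2.1

theorem af6_5 : c770.Ok ∧ c774.Ok ∧ c777.Ok ∧ c781.Ok ∧ c785.Ok ∧ c791.Ok ∧ c794.Ok ∧ True := cmX_ok kf6_5

theorem c770_ok : c770.Ok := af6_5.1

theorem ar6_0 : c246.Ok ∧ c248.Ok ∧ c250.Ok ∧ c253.Ok ∧ c254.Ok ∧ c736.Ok ∧ c737.Ok ∧ c738.Ok ∧ c739.Ok ∧ c740.Ok ∧ c741.Ok ∧ c742.Ok ∧ c743.Ok ∧ c744.Ok ∧ c746.Ok ∧ c748.Ok ∧ True := rgAll_ok (L := r6_0) ⟨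
  c212_ok, c212_ok, c212_ok, c215_ok, c217_ok, c663_ok, c663_ok, c664_ok, c664_ok, c664_ok,
  c664_ok, c665_ok, c665_ok, c665_ok, c665_ok, c667_ok, trivial⟩ kr6_0

theorem ar6_1 : c749.Ok ∧ c750.Ok ∧ c751.Ok ∧ c752.Ok ∧ c753.Ok ∧ c754.Ok ∧ c755.Ok ∧ c757.Ok ∧ c759.Ok ∧ c813.Ok ∧ c815.Ok ∧ c817.Ok ∧ c819.Ok ∧ c821.Ok ∧ c823.Ok ∧ c825.Ok ∧ True := rgAll_ok (L := r6_1) ⟨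
  c667_ok, c668_ok, c668_ok, c668_ok, c668_ok, c670_ok, c670_ok, c670_ok, c670_ok, c765_ok,
  c765_ok, c765_ok, c767_ok, c767_ok, c767_ok, c767_ok, trivial⟩ kr6_1

theorem ar6_2 : c827.Ok ∧ c828.Ok ∧ c829.Ok ∧ c830.Ok ∧ c831.Ok ∧ c832.Ok ∧ True := rgAll_ok (L := r6_2) ⟨
  c769_ok, c769_ok, c770_ok, c770_ok, c770_ok, c770_ok, trivial⟩ kr6_2

theorem af8_0 : c313.Ok ∧ c353.Ok ∧ True := cmX_ok kf8_0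


theorem af10_0 : c10.Ok ∧ c26.Ok ∧ c90.Ok ∧ c96.Ok ∧ c118.Ok ∧ c134.Ok ∧ c145.Ok ∧ c150.Ok ∧ c180.Ok ∧ c182.Ok ∧ c186.Ok ∧ c191.Ok ∧ True := cmX_ok kf10_0


theorem af10_1 : c195.Ok ∧ c201.Ok ∧ c220.Ok ∧ c223.Ok ∧ c225.Ok ∧ c227.Ok ∧ c228.Ok ∧ c231.Ok ∧ c451.Ok ∧ c465.Ok ∧ c518.Ok ∧ c546.Ok ∧ True := cmX_ok kf10_1


theorem af10_2 : c618.Ok ∧ c627.Ok ∧ c634.Ok ∧ c680.Ok ∧ c692.Ok ∧ c700.Ok ∧ c709.Ok ∧ c714.Ok ∧ c718.Ok ∧ c723.Ok ∧ c728.Ok ∧ c779.Ok ∧ True := cmX_ok kf10_2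


theorem af10_3 : c782.Ok ∧ c786.Ok ∧ c788.Ok ∧ c790.Ok ∧ True := cmX_ok kf10_3


theorem af14_0 : c661.Ok ∧ c671.Ok ∧ c762.Ok ∧ c771.Ok ∧ True := cmX_ok kf14_0

theorem c661_ok : c661.Ok := af14_0.1
theorem c762_ok : c762.Ok := af14_0.2.2.1

theorem ar14_0 : c734.Ok ∧ c806.Ok ∧ True := rgAll_ok (L := r14_0) ⟨
  c661_ok, c762_ok, trivial⟩ kr14_0


end Pool.Agent.MP_2339ce_nt.Q2.TB
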