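import Pool.Agent.MP_2339ce_nt.Q2.TKOk
import Pool.Agent.MP_2339ce_nt.Q2.G.F1

/-! Project Q2: generated data. -/

set_option autoImplicit false
set_option maxRecDepth 100000

noncomputable section

namespace Pool.Agent.MP_2339ce_nt.Q2.TB

theorem af21_0 : c91.Ok ∧ c100.Ok ∧ c119.Ok ∧ c162.Ok ∧ c166.Ok ∧ c576.Ok ∧ c598.Ok ∧ c628.Ok ∧ c641.Ok ∧ True := cmX_ok kf21_0


theorem af24_0 : c45.Ok ∧ c84.Ok ∧ c314.Ok ∧ c354.Ok ∧ c424.Ok ∧ c432.Ok ∧ c485.Ok ∧ c501.Ok ∧ c562.Ok ∧ c593.Ok ∧ True := cmX_ok kf24_0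


theorem af25_0 : c46.Ok ∧ c294.Ok ∧ c296.Ok ∧ c315.Ok ∧ c355.Ok ∧ c448.Ok ∧ c449.Ok ∧ c450.Ok ∧ c502.Ok ∧ c556.Ok ∧ c560.Ok ∧ c563.Ok ∧ True := cmX_ok kf25_0


theorem af25_1 : c594.Ok ∧ c626.Ok ∧ True := cmX_ok kf25_1


theorem af26_0 : c316.Ok ∧ c356.Ok ∧ c433.Ok ∧ True := cmX_ok kf26_0


theorem af27_0 : c18.Ok ∧ c60.Ok ∧ c357.Ok ∧ c434.Ok ∧ True := cmX_ok kf27_0


theorem af29_0 : c61.Ok ∧ c358.Ok ∧ True := cmX_ok kf29_0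


theorem af34_0 : c435.Ok ∧ True := cmX_ok kf34_0


theorem af35_0 : c62.Ok ∧ c359.Ok ∧ c436.Ok ∧ True := cmX_ok kf35_0


theorem af36_0 : c16.Ok ∧ c63.Ok ∧ c295.Ok ∧ c297.Ok ∧ c360.Ok ∧ c503.Ok ∧ c557.Ok ∧ c564.Ok ∧ c595.Ok ∧ True := cmX_ok kf36_0


theorem af37_0 : c361.Ok ∧ True := cmX_ok kf37_0


theorem af38_0 : c362.Ok ∧ True := cmX_ok kf38_0


theorem af41_0 : c317.Ok ∧ c363.Ok ∧ c504.Ok ∧ True := cmX_ok kf41_0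


theorem af42_0 : c11.Ok ∧ c19.Ok ∧ c27.Ok ∧ c66.Ok ∧ c72.Ok ∧ c92.Ok ∧ c101.Ok ∧ c112.Ok ∧ c135.Ok ∧ c403.Ok ∧ c452.Ok ∧ c466.Ok ∧ True := cmX_ok kf42_0


theorem af42_1 : c519.Ok ∧ c537.Ok ∧ c566.Ok ∧ c599.Ok ∧ c629.Ok ∧ c693.Ok ∧ c701.Ok ∧ True := cmX_ok kf42_1


theorem af43_0 : c147.Ok ∧ c157.Ok ∧ c172.Ok ∧ c203.Ok ∧ c404.Ok ∧ c520.Ok ∧ c567.Ok ∧ c600.Ok ∧ c630.Ok ∧ c654.Ok ∧ c675.Ok ∧ c685.Ok ∧ True := cmX_ok kf43_0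


theorem af43_1 : c702.Ok ∧ c710.Ok ∧ c778.Ok ∧ c787.Ok ∧ True := cmX_ok kf43_1


theorem af44_0 : c5.Ok ∧ c12.Ok ∧ c20.Ok ∧ c28.Ok ∧ c67.Ok ∧ c102.Ok ∧ c113.Ok ∧ c130.Ok ∧ c158.Ok ∧ c173.Ok ∧ c405.Ok ∧ c453.Ok ∧ True := cmX_ok kf44_0


theorem af44_1 : c521.Ok ∧ c568.Ok ∧ c577.Ok ∧ c601.Ok ∧ True := cmX_ok kf44_1


theorem af46_0 : c68.Ok ∧ c522.Ok ∧ True := cmX_ok kf46_0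


theorem af51_0 : c418.Ok ∧ True := cmX_ok kf51_0


theorem af54_0 : c6.Ok ∧ c21.Ok ∧ c29.Ok ∧ c69.Ok ∧ c73.Ok ∧ c114.Ok ∧ c131.Ok ∧ c318.Ok ∧ c406.Ok ∧ c425.Ok ∧ c454.Ok ∧ c523.Ok ∧ True := cmX_ok kf54_0


theorem af54_1 : c569.Ok ∧ c602.Ok ∧ True := cmX_ok kf54_1


theorem af57_0 : c93.Ok ∧ c103.Ok ∧ c115.Ok ∧ c167.Ok ∧ c407.Ok ∧ c455.Ok ∧ c467.Ok ∧ c486.Ok ∧ c524.Ok ∧ c538.Ok ∧ c570.Ok ∧ c587.Ok ∧ True := cmX_ok kf57_0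


theorem af57_1 : c624.Ok ∧ c642.Ok ∧ True := cmX_ok kf57_1


theorem af58_0 : c303.Ok ∧ c408.Ok ∧ c419.Ok ∧ True := cmX_ok kf58_0



end Pool.Agent.MP_2339ce_nt.Q2.TB
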