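import Pool.Agent.MP_2339ce_nt.Q2.TKOk
import Pool.Agent.MP_2339ce_nt.Q2.G.F2

/-! Project Q2: generated data. -/

set_option autoImplicit false
set_option maxRecDepth 100000

noncomputable section

namespace Pool.Agent.MP_2339ce_nt.Q2.TB

theorem af62_0 : c319.Ok ∧ True := cmX_ok kf62_0


theorem af65_0 : c47.Ok ∧ c64.Ok ∧ c320.Ok ∧ c364.Ok ∧ c426.Ok ∧ c437.Ok ∧ True := cmX_ok kf65_0


theorem af66_0 : c48.Ok ∧ True := cmX_ok kf66_0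


theorem af68_0 : c49.Ok ∧ c79.Ok ∧ c321.Ok ∧ True := cmX_ok kf68_0


theorem af69_0 : c85.Ok ∧ True := cmX_ok kf69_0


theorem af70_0 : c322.Ok ∧ c365.Ok ∧ c505.Ok ∧ True := cmX_ok kf70_0


theorem af71_0 : c438.Ok ∧ c506.Ok ∧ True := cmX_ok kf71_0


theorem af73_0 : c323.Ok ∧ c366.Ok ∧ c487.Ok ∧ c507.Ok ∧ True := cmX_ok kf73_0


theorem af74_0 : c86.Ok ∧ c367.Ok ∧ c409.Ok ∧ c468.Ok ∧ c488.Ok ∧ True := cmX_ok kf74_0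


theorem af77_0 : c324.Ok ∧ c368.Ok ∧ c439.Ok ∧ True := cmX_ok kf77_0


theorem af79_0 : c70.Ok ∧ True := cmX_ok kf79_0


theorem af82_0 : c369.Ok ∧ c440.Ok ∧ True := cmX_ok kf82_0


theorem af83_0 : c325.Ok ∧ c370.Ok ∧ True := cmX_ok kf83_0


theorem af84_0 : c304.Ok ∧ c326.Ok ∧ True := cmX_ok kf84_0


theorem af87_0 : c168.Ok ∧ True := cmX_ok kf87_0


theorem af89_0 : c1.Ok ∧ c13.Ok ∧ c30.Ok ∧ c410.Ok ∧ c469.Ok ∧ c539.Ok ∧ True := cmX_ok kf89_0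


theorem af90_0 : c327.Ok ∧ c371.Ok ∧ c489.Ok ∧ True := cmX_ok kf90_0


theorem af91_0 : c50.Ok ∧ c328.Ok ∧ c372.Ok ∧ c441.Ok ∧ c490.Ok ∧ c508.Ok ∧ c596.Ok ∧ True := cmX_ok kf91_0


theorem af92_0 : c31.Ok ∧ True := cmX_ok kf92_0


theorem af93_0 : c32.Ok ∧ c470.Ok ∧ c578.Ok ∧ True := cmX_ok kf93_0



end Pool.Agent.MP_2339ce_nt.Q2.TB
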