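import Pool.Agent.MP_2339ce_nt.Q2.TKOk
import Pool.Agent.MP_2339ce_nt.Q2.G.F3

/-! Project Q2: generated data. -/

set_option autoImplicit false
set_option maxRecDepth 100000

noncomputable section

namespace Pool.Agent.MP_2339ce_nt.Q2.TB

theorem af95_0 : c4.Ok ∧ c17.Ok ∧ c51.Ok ∧ c65.Ok ∧ c87.Ok ∧ c111.Ok ∧ c125.Ok ∧ c142.Ok ∧ c155.Ok ∧ c169.Ok ∧ c171.Ok ∧ c192.Ok ∧ True := cmX_ok kf95_0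


theorem af95_1 : c442.Ok ∧ c553.Ok ∧ c612.Ok ∧ c653.Ok ∧ c660.Ok ∧ True := cmX_ok kf95_1


theorem af96_0 : c329.Ok ∧ c427.Ok ∧ c491.Ok ∧ True := cmX_ok kf96_0


theorem af97_0 : c492.Ok ∧ c588.Ok ∧ c643.Ok ∧ True := cmX_ok kf97_0


theorem af98_0 : c52.Ok ∧ c330.Ok ∧ c373.Ok ∧ c509.Ok ∧ True := cmX_ok kf98_0


theorem af103_0 : c644.Ok ∧ True := cmX_ok kf103_0


theorem af105_0 : c645.Ok ∧ True := cmX_ok kf105_0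


theorem af106_0 : c646.Ok ∧ True := cmX_ok kf106_0


theorem af107_0 : c647.Ok ∧ True := cmX_ok kf107_0


theorem af109_0 : c648.Ok ∧ c711.Ok ∧ True := cmX_ok kf109_0


theorem af110_0 : c221.Ok ∧ c672.Ok ∧ c676.Ok ∧ c681.Ok ∧ c686.Ok ∧ c694.Ok ∧ c703.Ok ∧ c772.Ok ∧ c775.Ok ∧ c783.Ok ∧ True := cmX_ok kf110_0


theorem af112_0 : c7.Ok ∧ c74.Ok ∧ c94.Ok ∧ c104.Ok ∧ c116.Ok ∧ c132.Ok ∧ c148.Ok ∧ c159.Ok ∧ c193.Ok ∧ c196.Ok ∧ c205.Ok ∧ c456.Ok ∧ True := cmX_ok kf112_0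


theorem af112_1 : c471.Ok ∧ c525.Ok ∧ c571.Ok ∧ c603.Ok ∧ c631.Ok ∧ c655.Ok ∧ c695.Ok ∧ c715.Ok ∧ c729.Ok ∧ True := cmX_ok kf112_1


theorem af113_0 : c2.Ok ∧ c14.Ok ∧ c33.Ok ∧ c75.Ok ∧ c97.Ok ∧ c107.Ok ∧ c120.Ok ∧ c136.Ok ∧ c151.Ok ∧ c163.Ok ∧ c175.Ok ∧ c178.Ok ∧ True := cmX_ok kf113_0


theorem af113_1 : c181.Ok ∧ c183.Ok ∧ c187.Ok ∧ c197.Ok ∧ c206.Ok ∧ c209.Ok ∧ c210.Ok ∧ c211.Ok ∧ c213.Ok ∧ c218.Ok ∧ c222.Ok ∧ c224.Ok ∧ True := cmX_ok kf113_1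

theorem c209_ok : c209.Ok := af113_1.2.2.2.2.2.1
theorem c210_ok : c210.Ok := af113_1.2.2.2.2.2.2.1
theorem c211_ok : c211.Ok := af113_1.2.2.2.2.2.2.2.1
theorem c213_ok : c213.Ok := af113_1.2.2.2.2.2.2.2.2.1

theorem af113_2 : c226.Ok ∧ c229.Ok ∧ c233.Ok ∧ c256.Ok ∧ c257.Ok ∧ c258.Ok ∧ c259.Ok ∧ c260.Ok ∧ c261.Ok ∧ c262.Ok ∧ c263.Ok ∧ c264.Ok ∧ True := cmX_ok kf113_2

theorem c256_ok : c256.Ok := af113_2.2.2.2.1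
theorem c257_ok : c257.Ok := af113_2.2.2.2.2.1
theorem c258_ok : c258.Ok := af113_2.2.2.2.2.2.1
theorem c259_ok : c259.Ok := af113_2.2.2.2.2.2.2.1
theorem c260_ok : c260.Ok := af113_2.2.2.2.2.2.2.2.1
theorem c261_ok : c261.Ok := af113_2.2.2.2.2.2.2.2.2.1

theorem af113_3 : c265.Ok ∧ c267.Ok ∧ c305.Ok ∧ c411.Ok ∧ c420.Ok ∧ c457.Ok ∧ c472.Ok ∧ c526.Ok ∧ c540.Ok ∧ c572.Ok ∧ c579.Ok ∧ c604.Ok ∧ True := cmX_ok kf113_3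


theorem af113_4 : c607.Ok ∧ c619.Ok ∧ c635.Ok ∧ c657.Ok ∧ c662.Ok ∧ c666.Ok ∧ c673.Ok ∧ c677.Ok ∧ c682.Ok ∧ c687.Ok ∧ c696.Ok ∧ c704.Ok ∧ True := cmX_ok kf113_4

theorem c662_ok : c662.Ok := af113_4.2.2.2.2.1
theorem c666_ok : c666.Ok := af113_4.2.2.2.2.2.1

theorem af113_5 : c719.Ok ∧ c730.Ok ∧ c760.Ok ∧ c761.Ok ∧ c763.Ok ∧ c764.Ok ∧ c766.Ok ∧ c768.Ok ∧ c773.Ok ∧ c776.Ok ∧ c780.Ok ∧ c784.Ok ∧ True := cmX_ok kf113_5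

theorem c760_ok : c760.Ok := af113_5.2.2.1
theorem c761_ok : c761.Ok := af113_5.2.2.2.1
theorem c763_ok : c763.Ok := af113_5.2.2.2.2.1
theorem c764_ok : c764.Ok := af113_5.2.2.2.2.2.1
theorem c766_ok : c766.Ok := af113_5.2.2.2.2.2.2.1
theorem c768_ok : c768.Ok := af113_5.2.2.2.2.2.2.2.1

theorem af113_6 : c789.Ok ∧ c792.Ok ∧ c833.Ok ∧ c834.Ok ∧ c835.Ok ∧ c836.Ok ∧ c837.Ok ∧ c838.Ok ∧ c839.Ok ∧ c840.Ok ∧ c841.Ok ∧ c842.Ok ∧ True := cmX_ok kf113_6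

theorem c833_ok : c833.Ok := af113_6.2.2.1
theorem c834_ok : c834.Ok := af113_6.2.2.2.1
theorem c835_ok : c835.Ok := af113_6.2.2.2.2.1
theorem c836_ok : c836.Ok := af113_6.2.2.2.2.2.1
theorem c837_ok : c837.Ok := af113_6.2.2.2.2.2.2.1
theorem c838_ok : c838.Ok := af113_6.2.2.2.2.2.2.2.1

theorem af113_7 : c843.Ok ∧ True := cmX_ok kf113_7


theorem ar113_0 : c236.Ok ∧ c237.Ok ∧ c238.Ok ∧ c239.Ok ∧ c240.Ok ∧ c241.Ok ∧ c242.Ok ∧ c243.Ok ∧ c244.Ok ∧ c245.Ok ∧ c247.Ok ∧ c249.Ok ∧ c251.Ok ∧ c270.Ok ∧ c271.Ok ∧ c272.Ok ∧ True := rgAll_ok (L := r113_0) ⟨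
  c209_ok, c209_ok, c209_ok, c209_ok, c210_ok, c211_ok, c211_ok, c211_ok, c211_ok, c213_ok,
  c213_ok, c213_ok, c213_ok, c256_ok, c256_ok, c257_ok, trivial⟩ kr113_0

theorem ar113_1 : c273.Ok ∧ c274.Ok ∧ c275.Ok ∧ c276.Ok ∧ c277.Ok ∧ c278.Ok ∧ c279.Ok ∧ c280.Ok ∧ c281.Ok ∧ c282.Ok ∧ c283.Ok ∧ c284.Ok ∧ c285.Ok ∧ c286.Ok ∧ c287.Ok ∧ c288.Ok ∧ True := rgAll_ok (L := r113_1) ⟨
  c257_ok, c257_ok, c257_ok, c258_ok, c258_ok, c258_ok, c258_ok, c259_ok, c259_ok, c259_ok,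
  c259_ok, c260_ok, c260_ok, c260_ok, c260_ok, c261_ok, trivial⟩ kr113_1

theorem ar113_2 : c289.Ok ∧ c290.Ok ∧ c291.Ok ∧ c735.Ok ∧ c745.Ok ∧ c747.Ok ∧ c795.Ok ∧ c796.Ok ∧ c797.Ok ∧ c798.Ok ∧ c799.Ok ∧ c800.Ok ∧ c801.Ok ∧ c802.Ok ∧ c803.Ok ∧ c804.Ok ∧ True := rgAll_ok (L := r113_2) ⟨
  c261_ok, c261_ok, c261_ok, c662_ok, c666_ok, c666_ok, c760_ok, c760_ok, c760_ok, c760_ok,
  c761_ok, c761_ok, c761_ok, c761_ok, c763_ok, c763_ok, trivial⟩ kr113_2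

theorem ar113_3 : c805.Ok ∧ c807.Ok ∧ c808.Ok ∧ c809.Ok ∧ c810.Ok ∧ c811.Ok ∧ c812.Ok ∧ c814.Ok ∧ c816.Ok ∧ c818.Ok ∧ c820.Ok ∧ c822.Ok ∧ c824.Ok ∧ c826.Ok ∧ c846.Ok ∧ c847.Ok ∧ True := rgAll_ok (L := r113_3) ⟨
  c763_ok, c763_ok, c764_ok, c764_ok, c764_ok, c764_ok, c766_ok, c766_ok, c766_ok, c766_ok,
  c768_ok, c768_ok, c768_ok, c768_ok, c833_ok, c833_ok, trivial⟩ kr113_3

theorem ar113_4 : c848.Ok ∧ c849.Ok ∧ c850.Ok ∧ c851.Ok ∧ c852.Ok ∧ c853.Ok ∧ c854.Ok ∧ c855.Ok ∧ c856.Ok ∧ c857.Ok ∧ c858.Ok ∧ c859.Ok ∧ c860.Ok ∧ c861.Ok ∧ c862.Ok ∧ c863.Ok ∧ True := rgAll_ok (L := r113_4) ⟨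
  c833_ok, c833_ok, c834_ok, c834_ok, c834_ok, c834_ok, c835_ok, c835_ok, c835_ok, c835_ok,
  c836_ok, c836_ok, c836_ok, c836_ok, c837_ok, c837_ok, trivial⟩ kr113_4

theorem ar113_5 : c864.Ok ∧ c865.Ok ∧ c866.Ok ∧ c867.Ok ∧ c868.Ok ∧ c869.Ok ∧ True := rgAll_ok (L := r113_5) ⟨
  c837_ok, c837_ok, c838_ok, c838_ok, c838_ok, c838_ok, trivial⟩ kr113_5

theorem af114_0 : c374.Ok ∧ True := cmX_ok kf114_0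


theorem af115_0 : c34.Ok ∧ c126.Ok ∧ c473.Ok ∧ c541.Ok ∧ True := cmX_ok kf115_0


theorem af116_0 : c306.Ok ∧ True := cmX_ok kf116_0


theorem af123_0 : c493.Ok ∧ c510.Ok ∧ True := cmX_ok kf123_0


theorem af126_0 : c458.Ok ∧ c474.Ok ∧ c580.Ok ∧ True := cmX_ok kf126_0



end Pool.Agent.MP_2339ce_nt.Q2.TB
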