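import Pool.Agent.MP_2339ce_nt.Q2.TKOk
import Pool.Agent.MP_2339ce_nt.Q2.G.F4

/-! Project Q2: generated data. -/

set_option autoImplicit false
set_option maxRecDepth 100000

noncomputable section

namespace Pool.Agent.MP_2339ce_nt.Q2.TB

theorem af129_0 : c475.Ok ∧ c494.Ok ∧ c527.Ok ∧ c547.Ok ∧ c581.Ok ∧ c589.Ok ∧ c649.Ok ∧ True := cmX_ok kf129_0


theorem af130_0 : c53.Ok ∧ c127.Ok ∧ c476.Ok ∧ c495.Ok ∧ c528.Ok ∧ c548.Ok ∧ c582.Ok ∧ c590.Ok ∧ c636.Ok ∧ c650.Ok ∧ True := cmX_ok kf130_0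


theorem af131_0 : c375.Ok ∧ c511.Ok ∧ True := cmX_ok kf131_0


theorem af133_0 : c35.Ok ∧ c54.Ok ∧ c76.Ok ∧ c80.Ok ∧ c88.Ok ∧ c128.Ok ∧ c477.Ok ∧ c542.Ok ∧ c549.Ok ∧ True := cmX_ok kf133_0


theorem af134_0 : c459.Ok ∧ True := cmX_ok kf134_0


theorem af135_0 : c412.Ok ∧ True := cmX_ok kf135_0


theorem af136_0 : c36.Ok ∧ c81.Ok ∧ c413.Ok ∧ c529.Ok ∧ c725.Ok ∧ True := cmX_ok kf136_0


theorem af137_0 : c460.Ok ∧ c530.Ok ∧ True := cmX_ok kf137_0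


theorem af138_0 : c331.Ok ∧ c376.Ok ∧ c512.Ok ∧ True := cmX_ok kf138_0


theorem af140_0 : c332.Ok ∧ c377.Ok ∧ c496.Ok ∧ c513.Ok ∧ True := cmX_ok kf140_0


theorem af141_0 : c37.Ok ∧ c531.Ok ∧ c726.Ok ∧ True := cmX_ok kf141_0


theorem af142_0 : c22.Ok ∧ c38.Ok ∧ c414.Ok ∧ c461.Ok ∧ c532.Ok ∧ c605.Ok ∧ True := cmX_ok kf142_0


theorem af143_0 : c105.Ok ∧ True := cmX_ok kf143_0


theorem af144_0 : c478.Ok ∧ c543.Ok ∧ True := cmX_ok kf144_0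


theorem af145_0 : c533.Ok ∧ True := cmX_ok kf145_0


theorem af147_0 : c39.Ok ∧ True := cmX_ok kf147_0


theorem af150_0 : c55.Ok ∧ c333.Ok ∧ c378.Ok ∧ c443.Ok ∧ True := cmX_ok kf150_0


theorem af151_0 : c334.Ok ∧ c379.Ok ∧ True := cmX_ok kf151_0



end Pool.Agent.MP_2339ce_nt.Q2.TB
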