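import Pool.Agent.MP_2339ce_nt.Q2.TKOk
import Pool.Agent.MP_2339ce_nt.Q2.G.F5

/-! Project Q2: generated data. -/

set_option autoImplicit false
set_option maxRecDepth 100000

noncomputable section

namespace Pool.Agent.MP_2339ce_nt.Q2.TB

theorem af152_0 : c380.Ok ∧ True := cmX_ok kf152_0


theorem af154_0 : c56.Ok ∧ c335.Ok ∧ c428.Ok ∧ True := cmX_ok kf154_0


theorem af155_0 : c336.Ok ∧ True := cmX_ok kf155_0


theorem af157_0 : c381.Ok ∧ True := cmX_ok kf157_0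


theorem af158_0 : c382.Ok ∧ True := cmX_ok kf158_0


theorem af159_0 : c337.Ok ∧ c383.Ok ∧ True := cmX_ok kf159_0


theorem af160_0 : c338.Ok ∧ c384.Ok ∧ True := cmX_ok kf160_0


theorem af163_0 : c385.Ok ∧ True := cmX_ok kf163_0


theorem af165_0 : c386.Ok ∧ c444.Ok ∧ True := cmX_ok kf165_0


theorem af166_0 : c339.Ok ∧ c387.Ok ∧ True := cmX_ok kf166_0


theorem af168_0 : c307.Ok ∧ c479.Ok ∧ c497.Ok ∧ c583.Ok ∧ True := cmX_ok kf168_0


theorem af169_0 : c340.Ok ∧ c388.Ok ∧ True := cmX_ok kf169_0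


theorem af170_0 : c40.Ok ∧ c300.Ok ∧ c308.Ok ∧ c415.Ok ∧ c421.Ok ∧ c480.Ok ∧ c498.Ok ∧ True := cmX_ok kf170_0


theorem af173_0 : c445.Ok ∧ True := cmX_ok kf173_0


theorem af174_0 : c309.Ok ∧ c341.Ok ∧ True := cmX_ok kf174_0


theorem af176_0 : c342.Ok ∧ c389.Ok ∧ c514.Ok ∧ True := cmX_ok kf176_0


theorem af179_0 : c390.Ok ∧ True := cmX_ok kf179_0


theorem af181_0 : c57.Ok ∧ True := cmX_ok kf181_0


theorem af182_0 : c391.Ok ∧ c446.Ok ∧ c515.Ok ∧ True := cmX_ok kf182_0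


theorem af184_0 : c343.Ok ∧ c392.Ok ∧ True := cmX_ok kf184_0



end Pool.Agent.MP_2339ce_nt.Q2.TB
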