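import Pool.Agent.MP_2339ce_nt.Q2.TKOk
import Pool.Agent.MP_2339ce_nt.Q2.G.F6

/-! Project Q2: generated data. -/

set_option autoImplicit false
set_option maxRecDepth 100000

noncomputable section

namespace Pool.Agent.MP_2339ce_nt.Q2.TB

theorem af185_0 : c58.Ok ∧ c344.Ok ∧ True := cmX_ok kf185_0


theorem af190_0 : c89.Ok ∧ True := cmX_ok kf190_0


theorem af191_0 : c345.Ok ∧ c393.Ok ∧ True := cmX_ok kf191_0


theorem af193_0 : c394.Ok ∧ True := cmX_ok kf193_0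


theorem af194_0 : c395.Ok ∧ True := cmX_ok kf194_0


theorem af196_0 : c346.Ok ∧ c396.Ok ∧ True := cmX_ok kf196_0


theorem af199_0 : c534.Ok ∧ True := cmX_ok kf199_0


theorem af201_0 : c347.Ok ∧ c397.Ok ∧ c516.Ok ∧ True := cmX_ok kf201_0


theorem af204_0 : c348.Ok ∧ c398.Ok ∧ c447.Ok ∧ True := cmX_ok kf204_0


theorem af208_0 : c349.Ok ∧ c399.Ok ∧ True := cmX_ok kf208_0


theorem af213_0 : c350.Ok ∧ c400.Ok ∧ True := cmX_ok kf213_0



end Pool.Agent.MP_2339ce_nt.Q2.TB
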