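import Pool.Agent.MP_2339ce_nt.Q2.G.C0
import Pool.Agent.MP_2339ce_nt.Q2.G.C1
import Pool.Agent.MP_2339ce_nt.Q2.G.C2
import Pool.Agent.MP_2339ce_nt.Q2.G.C3
import Pool.Agent.MP_2339ce_nt.Q2.G.C4
import Pool.Agent.MP_2339ce_nt.Q2.G.C5
import Pool.Agent.MP_2339ce_nt.Q2.G.C6

/-! Project Q2: generated data. -/

set_option autoImplicit false
set_option maxRecDepth 100000

noncomputable section

namespace Pool.Agent.MP_2339ce_nt.Q2.TB

def CT : List (List (List CF)) := [
  [
  [c0, c8, c23, c41, c95, c106, c108, c117, c121, c133, c137, c140],
  [c149, c160, c164, c174, c176, c188, c194, c198, c204, c207, c230, c234],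
  [c266, c268, c292, c293, c298, c301, c310, c401, c416, c422, c429, c462],
  [c481, c565, c573, c584, c597, c606, c608, c610, c615, c620, c632, c637],
  [c656, c658, c690, c697, c705, c716, c720, c727, c731, c793, c844, c845],
  [c3, c9, c15, c24, c42, c77, c122, c138, c152, c161, c299, c302],
  [c311, c351, c402, c417, c423, c430, c463, c482, c499, c517, c535, c544],
  [c550, c558, c574, c585, c591, c609, c616, c621, c633, c638, c691, c698], [c706, c717, c721],
  [c683], [c43, c59, c82, c98, c109, c123, c129, c153, c156, c165, c184, c189],
  [c199, c214, c216, c312, c352, c431, c483, c500, c551, c554, c555, c559],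
  [c561, c586, c592, c611, c613, c614, c622, c625, c639, c651, c669, c678], [c688, c707, c712],
  [c252, c255, c756, c758], [c25, c44, c71, c78, c83, c99, c110, c124, c139, c141, c143, c144]],
  [
  [c146, c154, c170, c177, c179, c185, c190, c200, c202, c208, c212, c215],
  [c217, c219, c232, c235, c269, c464, c484, c536, c545, c552, c575, c617],
  [c623, c640, c652, c659, c663, c664, c665, c667, c668, c670, c674, c679],
  [c684, c689, c699, c708, c713, c722, c724, c732, c733, c765, c767, c769],
  [c770, c774, c777, c781, c785, c791, c794],
  [c246, c248, c250, c253, c254, c736, c737, c738, c739, c740, c741, c742, c743, c744, c746, c748],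
  [c749, c750, c751, c752, c753, c754, c755, c757, c759, c813, c815, c817, c819, c821, c823, c825],
  [c827, c828, c829, c830, c831, c832], [c313, c353],
  [c10, c26, c90, c96, c118, c134, c145, c150, c180, c182, c186, c191],
  [c195, c201, c220, c223, c225, c227, c228, c231, c451, c465, c518, c546],
  [c618, c627, c634, c680, c692, c700, c709, c714, c718, c723, c728, c779],
  [c782, c786, c788, c790], [c661, c671, c762, c771], [c734, c806],
  [c91, c100, c119, c162, c166, c576, c598, c628, c641]],
  [
  [c45, c84, c314, c354, c424, c432, c485, c501, c562, c593],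
  [c46, c294, c296, c315, c355, c448, c449, c450, c502, c556, c560, c563], [c594, c626],
  [c316, c356, c433], [c18, c60, c357, c434], [c61, c358], [c435], [c62, c359, c436],
  [c16, c63, c295, c297, c360, c503, c557, c564, c595], [c361], [c362], [c317, c363, c504],
  [c11, c19, c27, c66, c72, c92, c101, c112, c135, c403, c452, c466],
  [c519, c537, c566, c599, c629, c693, c701],
  [c147, c157, c172, c203, c404, c520, c567, c600, c630, c654, c675, c685],
  [c702, c710, c778, c787]],
  [
  [c5, c12, c20, c28, c67, c102, c113, c130, c158, c173, c405, c453], [c521, c568, c577, c601],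
  [c68, c522], [c418], [c6, c21, c29, c69, c73, c114, c131, c318, c406, c425, c454, c523],
  [c569, c602], [c93, c103, c115, c167, c407, c455, c467, c486, c524, c538, c570, c587],
  [c624, c642], [c303, c408, c419], [c319], [c47, c64, c320, c364, c426, c437], [c48],
  [c49, c79, c321], [c85], [c322, c365, c505], [c438, c506]],
  [
  [c323, c366, c487, c507], [c86, c367, c409, c468, c488], [c324, c368, c439], [c70],
  [c369, c440], [c325, c370], [c304, c326], [c168], [c1, c13, c30, c410, c469, c539],
  [c327, c371, c489], [c50, c328, c372, c441, c490, c508, c596], [c31], [c32, c470, c578],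
  [c4, c17, c51, c65, c87, c111, c125, c142, c155, c169, c171, c192],
  [c442, c553, c612, c653, c660], [c329, c427, c491]],
  [
  [c492, c588, c643], [c52, c330, c373, c509], [c644], [c645], [c646], [c647], [c648, c711],
  [c221, c672, c676, c681, c686, c694, c703, c772, c775, c783],
  [c7, c74, c94, c104, c116, c132, c148, c159, c193, c196, c205, c456],
  [c471, c525, c571, c603, c631, c655, c695, c715, c729],
  [c2, c14, c33, c75, c97, c107, c120, c136, c151, c163, c175, c178],
  [c181, c183, c187, c197, c206, c209, c210, c211, c213, c218, c222, c224],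
  [c226, c229, c233, c256, c257, c258, c259, c260, c261, c262, c263, c264],
  [c265, c267, c305, c411, c420, c457, c472, c526, c540, c572, c579, c604],
  [c607, c619, c635, c657, c662, c666, c673, c677, c682, c687, c696, c704],
  [c719, c730, c760, c761, c763, c764, c766, c768, c773, c776, c780, c784]],
  [
  [c789, c792, c833, c834, c835, c836, c837, c838, c839, c840, c841, c842], [c843],
  [c236, c237, c238, c239, c240, c241, c242, c243, c244, c245, c247, c249, c251, c270, c271, c272],
  [c273, c274, c275, c276, c277, c278, c279, c280, c281, c282, c283, c284, c285, c286, c287, c288],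
  [c289, c290, c291, c735, c745, c747, c795, c796, c797, c798, c799, c800, c801, c802, c803, c804],
  [c805, c807, c808, c809, c810, c811, c812, c814, c816, c818, c820, c822, c824, c826, c846, c847],
  [c848, c849, c850, c851, c852, c853, c854, c855, c856, c857, c858, c859, c860, c861, c862, c863],
  [c864, c865, c866, c867, c868, c869], [c374], [c34, c126, c473, c541], [c306], [c493, c510],
  [c458, c474, c580], [c475, c494, c527, c547, c581, c589, c649],
  [c53, c127, c476, c495, c528, c548, c582, c590, c636, c650], [c375, c511]],
  [
  [c35, c54, c76, c80, c88, c128, c477, c542, c549], [c459], [c412],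
  [c36, c81, c413, c529, c725], [c460, c530], [c331, c376, c512], [c332, c377, c496, c513],
  [c37, c531, c726], [c22, c38, c414, c461, c532, c605], [c105], [c478, c543], [c533], [c39],
  [c55, c333, c378, c443], [c334, c379], [c380]],
  [
  [c56, c335, c428], [c336], [c381], [c382], [c337, c383], [c338, c384], [c385], [c386, c444],
  [c339, c387], [c307, c479, c497, c583], [c340, c388],
  [c40, c300, c308, c415, c421, c480, c498], [c445], [c309, c341], [c342, c389, c514], [c390]],
  [
  [c57], [c391, c446, c515], [c343, c392], [c58, c344], [c89], [c345, c393], [c394], [c395],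
  [c346, c396], [c534], [c347, c397, c516], [c348, c398, c447], [c349, c399], [c350, c400]]]

end Pool.Agent.MP_2339ce_nt.Q2.TB
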