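import Pool.Agent.MP_2339ce_nt.Q2.HD

/-! Project Q2: generated data. -/

set_option autoImplicit false
set_option maxRecDepth 100000

noncomputable section

namespace Pool.Agent.MP_2339ce_nt.Q2.TB

def wg45 : List Wn := [
  ⟨[⟨0, -597, 0, -1, 1, 0, 0, 0, 0⟩], [⟨55, 23400, 2, 0, 52, 0, 102, 0, 0⟩, ⟨55, 23010, 2, 104, 48, 0, 2, 0, 0⟩], [⟨107, 6830, -162, 56, 52, 0, -102, 0, 0⟩]⟩,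
  ⟨[⟨0, -105, 0, -1, 1, 0, 0, 0, 0⟩, ⟨0, 108, 0, 1, -1, 0, 0, 0, 0⟩], [⟨7, 2520, 2, 0, 4, 0, 6, 0, 0⟩], [⟨11, 1410, -18, 8, 4, 0, -6, 0, 0⟩]⟩,
  ⟨[⟨0, -450, 0, -1, 1, 0, 0, 0, 0⟩], [⟨4, 630, 2, 1, 0, 0, 8, 0, 0⟩, ⟨6, 732, -5, 3, 2, 0, 0, 0, 0⟩], [⟨8, 830, -12, 5, 4, 0, -8, 0, 0⟩]⟩,
  ⟨[⟨0, -138, 0, -1, 1, 0, 0, 0, 0⟩, ⟨0, 150, 0, 1, -1, 0, 0, 0, 0⟩], [⟨38, 13050, 2, 0, 35, 0, 76, 0, 0⟩], [⟨76, 5730, -114, 38, 39, 0, -76, 0, 0⟩]⟩,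
  ⟨[⟨0, -76, 0, -1, 1, 0, 0, 0, 0⟩, ⟨0, 84, 0, 1, -1, 0, 0, 0, 0⟩], [⟨25, 8240, 2, 48, 22, 0, 2, 0, 0⟩], [⟨51, 4320, -76, 26, 26, 0, -50, 0, 0⟩]⟩,
  ⟨[⟨0, -126, 0, -1, 1, 0, 0, 0, 0⟩, ⟨0, 138, 0, 1, -1, 0, 0, 0, 0⟩], [⟨17, 6070, 2, 0, 14, 0, 30, 0, 0⟩], [⟨33, 2250, -50, 18, 16, 0, -30, 0, 0⟩]⟩,
  ⟨[⟨0, -900, 0, -1, 1, 0, 0, 0, 0⟩], [⟨38, 11810, 2, 1, 34, 0, 76, 0, 0⟩], [⟨76, 5730, -114, 39, 38, 0, -76, 0, 0⟩]⟩,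
  ⟨[⟨0, -150, 0, -1, 1, 0, 0, 0, 0⟩, ⟨0, 165, 0, 1, -1, 0, 0, 0, 0⟩], [⟨9, 2880, 2, 0, 6, 0, 14, 0, 0⟩], [⟨17, 2210, -26, 10, 8, 0, -14, 0, 0⟩]⟩,
  ⟨[⟨0, -1200, 0, -1, 1, 0, 0, 0, 0⟩], [⟨11, 3010, 2, 0, 8, 0, 20, 0, 0⟩], [⟨21, 1910, -32, 10, 12, 0, -20, 0, 0⟩, ⟨16, 2453, -15, 5, 10, 0, 0, 0, 0⟩]⟩,
  ⟨[⟨0, -150, 0, -1, 1, 0, 0, 0, 0⟩, ⟨0, 165, 0, 1, -1, 0, 0, 0, 0⟩], [⟨23, 7270, 2, 0, 20, 0, 46, 0, 0⟩], [⟨47, 4110, -70, 24, 24, 0, -46, 0, 0⟩]⟩,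
  ⟨[⟨0, -450, 0, -1, 1, 0, 0, 0, 0⟩], [⟨18, 4850, 2, 1, 14, 0, 36, 0, 0⟩], [⟨36, 3250, -54, 19, 18, 0, -36, 0, 0⟩]⟩,
  ⟨[], [⟨23, 10670, 2, 0, 0, 20, 0, 38, 0⟩, ⟨23, 9650, 2, 0, 40, 16, 0, 2, 0⟩], [⟨43, 2000, -66, 0, 24, 20, 0, -38, 0⟩]⟩,
  ⟨[⟨0, -200, 0, 0, -1, 1, 0, 0, 0⟩], [⟨23, 9360, 2, 0, 0, 20, 0, 30, 0⟩], [⟨39, 1400, -62, 0, 24, 16, 0, -30, 0⟩]⟩,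
  ⟨[⟨0, -108, 0, -1, 1, 0, 0, 0, 0⟩, ⟨0, 114, 0, 1, -1, 0, 0, 0, 0⟩], [⟨19, 7920, 2, 0, 16, 0, 26, 0, 0⟩], [⟨33, 1160, -52, 20, 14, 0, -26, 0, 0⟩, ⟨26, 4513, -25, 10, 15, 0, 0, 0, 0⟩]⟩,
  ⟨[⟨0, -530, 0, -1, 1, 0, 0, 0, 0⟩, ⟨0, 600, 0, 1, -1, 0, 0, 0, 0⟩], [⟨30, 8850, 2, 0, 27, 0, 60, 0, 0⟩], [⟨60, 5130, -90, 30, 31, 0, -60, 0, 0⟩]⟩,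
  ⟨[⟨0, -600, 0, -1, 1, 0, 0, 0, 0⟩], [⟨5, 730, 2, 0, 2, 0, 4, 0, 0⟩], [⟨7, 1380, -12, 4, 4, 0, -4, 0, 0⟩, ⟨6, 1050, -5, 2, 3, 0, 0, 0, 0⟩]⟩]

def wg46 : List Wn := [
  ⟨[⟨0, -220, 0, -1, 1, 0, 0, 0, 0⟩, ⟨0, 245, 0, 1, -1, 0, 0, 0, 0⟩], [⟨14, 4120, 2, 1, 10, 0, 28, 0, 0⟩], [⟨28, 2270, -42, 15, 14, 0, -28, 0, 0⟩]⟩,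
  ⟨[⟨0, -1200, 0, -1, 1, 0, 0, 0, 0⟩], [⟨30, 8510, 2, 1, 26, 0, 56, 0, 0⟩, ⟨44, 6871, -43, 16, 27, 0, 0, 0, 0⟩], [⟨58, 5210, -88, 31, 28, 0, -56, 0, 0⟩]⟩,
  ⟨[⟨0, -18, 0, -1, 1, 0, 0, 0, 0⟩, ⟨0, 27, 0, 1, -1, 0, 0, 0, 0⟩], [⟨29, 8000, 2, 56, 26, 0, 2, 0, 0⟩], [⟨59, 5990, -88, 30, 30, 0, -58, 0, 0⟩]⟩,
  ⟨[⟨0, -76, 0, -1, 1, 0, 0, 0, 0⟩, ⟨0, 84, 0, 1, -1, 0, 0, 0, 0⟩], [⟨3, 660, 2, 4, 0, 0, 2, 0, 0⟩], [⟨7, 880, -10, 4, 4, 0, -6, 0, 0⟩]⟩,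
  ⟨[⟨0, -750, 0, -1, 1, 0, 0, 0, 0⟩], [⟨7, 1490, 2, 0, 4, 0, 14, 0, 0⟩], [⟨15, 830, -22, 8, 8, 0, -14, 0, 0⟩]⟩,
  ⟨[⟨0, -300, 0, -1, 1, 0, 0, 0, 0⟩], [⟨4, 680, 2, 1, 0, 0, 8, 0, 0⟩, ⟨6, 760, -5, 3, 2, 0, 0, 0, 0⟩], [⟨8, 830, -12, 5, 4, 0, -8, 0, 0⟩]⟩,
  ⟨[⟨0, -900, 0, -1, 1, 0, 0, 0, 0⟩], [⟨25, 7190, 2, 0, 22, 0, 50, 0, 0⟩], [⟨51, 4520, -76, 26, 26, 0, -50, 0, 0⟩, ⟨38, 5842, -37, 13, 24, 0, 0, 0, 0⟩]⟩,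
  ⟨[⟨0, -270, 0, -1, 1, 0, 0, 0, 0⟩, ⟨0, 300, 0, 1, -1, 0, 0, 0, 0⟩], [⟨33, 10240, 2, 0, 30, 0, 62, 0, 0⟩], [⟨65, 5600, -98, 34, 32, 0, -62, 0, 0⟩]⟩,
  ⟨[⟨0, -201, 0, -1, 1, 0, 0, 0, 0⟩], [⟨5, 1090, 2, 0, 6, 0, 2, 0, 0⟩, ⟨5, 1870, 2, 6, 0, 0, 2, 0, 0⟩], [⟨9, 200, -14, 6, 4, 0, -6, 0, 0⟩]⟩,
  ⟨[], [⟨11, 4480, 2, 0, 0, 8, 0, 22, 0⟩, ⟨11, 3840, 2, 0, 20, 8, 0, 2, 0⟩], [⟨23, 2920, -34, 0, 12, 12, 0, -22, 0⟩]⟩,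
  ⟨[⟨0, -750, 0, -1, 1, 0, 0, 0, 0⟩], [⟨38, 11820, 2, 1, 34, 0, 76, 0, 0⟩], [⟨76, 5730, -114, 39, 38, 0, -76, 0, 0⟩]⟩,
  ⟨[], [⟨15, 4900, 2, 0, 0, 24, 0, 10, 0⟩, ⟨15, 6220, 2, 0, 24, 8, 0, 2, 0⟩], [⟨27, 1650, -42, 0, 16, 12, 0, -22, 0⟩]⟩,
  ⟨[⟨0, -1050, 0, -1, 1, 0, 0, 0, 0⟩], [⟨11, 3010, 2, 0, 8, 0, 20, 0, 0⟩], [⟨21, 1910, -32, 10, 12, 0, -20, 0, 0⟩, ⟨16, 2453, -15, 5, 10, 0, 0, 0, 0⟩]⟩,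
  ⟨[⟨0, -108, 0, -1, 1, 0, 0, 0, 0⟩, ⟨0, 114, 0, 1, -1, 0, 0, 0, 0⟩], [⟨10, 3410, 2, 0, 7, 0, 20, 0, 0⟩], [⟨20, 1410, -30, 10, 11, 0, -20, 0, 0⟩]⟩,
  ⟨[⟨0, -100, 0, 0, -1, 1, 0, 0, 0⟩, ⟨0, 150, 0, 0, 1, -1, 0, 0, 0⟩], [⟨25, 10310, 2, 0, 0, 22, 0, 34, 0⟩], [⟨43, 1700, -68, 0, 26, 18, 0, -34, 0⟩, ⟨34, 5858, -33, 0, 13, 20, 0, 0, 0⟩]⟩,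
  ⟨[⟨0, -300, 0, -1, 1, 0, 0, 0, 0⟩], [⟨18, 4970, 2, 1, 14, 0, 36, 0, 0⟩], [⟨36, 3250, -54, 19, 18, 0, -36, 0, 0⟩]⟩]

def wg47 : List Wn := [
  ⟨[⟨0, -300, 0, 0, -1, 1, 0, 0, 0⟩, ⟨0, 400, 0, 0, 1, -1, 0, 0, 0⟩], [⟨15, 4170, 2, 0, 0, 12, 0, 28, 0⟩], [⟨29, 2780, -44, 0, 14, 16, 0, -28, 0⟩, ⟨22, 3436, -21, 0, 7, 14, 0, 0, 0⟩]⟩,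
  ⟨[⟨0, -825, 0, -1, 1, 0, 0, 0, 0⟩, ⟨0, 900, 0, 1, -1, 0, 0, 0, 0⟩], [⟨15, 4050, 2, 0, 12, 0, 28, 0, 0⟩], [⟨29, 2780, -44, 14, 16, 0, -28, 0, 0⟩, ⟨22, 3405, -21, 7, 14, 0, 0, 0, 0⟩]⟩,
  ⟨[⟨0, -165, 0, -1, 1, 0, 0, 0, 0⟩, ⟨0, 180, 0, 1, -1, 0, 0, 0, 0⟩], [⟨17, 5950, 2, 0, 14, 0, 30, 0, 0⟩], [⟨33, 2270, -50, 18, 16, 0, -30, 0, 0⟩]⟩,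
  ⟨[⟨0, -99, 0, -1, 1, 0, 0, 0, 0⟩, ⟨0, 101, 0, 1, -1, 0, 0, 0, 0⟩], [⟨6, 1440, 2, 0, 3, 0, 8, 0, 0⟩], [⟨10, 1050, -16, 6, 5, 0, -8, 0, 0⟩, ⟨8, 1233, -7, 3, 4, 0, 0, 0, 0⟩]⟩,
  ⟨[⟨0, -450, 0, -1, 1, 0, 0, 0, 0⟩], [⟨5, 730, 2, 0, 2, 0, 4, 0, 0⟩], [⟨7, 1370, -12, 4, 4, 0, -4, 0, 0⟩, ⟨6, 1043, -5, 2, 3, 0, 0, 0, 0⟩]⟩,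
  ⟨[⟨0, -92, 0, -1, 1, 0, 0, 0, 0⟩, ⟨0, 99, 0, 1, -1, 0, 0, 0, 0⟩], [⟨37, 14610, 2, 0, 34, 0, 70, 0, 0⟩], [⟨73, 4850, -110, 38, 36, 0, -70, 0, 0⟩]⟩,
  ⟨[⟨0, -100, 0, 0, -1, 1, 0, 0, 0⟩, ⟨0, 150, 0, 0, 1, -1, 0, 0, 0⟩], [⟨31, 10610, 2, 0, 0, 28, 0, 62, 0⟩], [⟨63, 5570, -94, 0, 32, 32, 0, -62, 0⟩]⟩,
  ⟨[⟨0, -1050, 0, -1, 1, 0, 0, 0, 0⟩], [⟨30, 8510, 2, 1, 26, 0, 56, 0, 0⟩, ⟨44, 6871, -43, 16, 27, 0, 0, 0, 0⟩], [⟨58, 5210, -88, 31, 28, 0, -56, 0, 0⟩]⟩,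
  ⟨[], [⟨27, 9710, 2, 0, 0, 48, 0, 22, 0⟩, ⟨27, 11930, 2, 0, 48, 20, 0, 2, 0⟩], [⟨51, 2560, -78, 0, 28, 24, 0, -46, 0⟩]⟩,
  ⟨[⟨0, -597, 0, -1, 1, 0, 0, 0, 0⟩], [⟨63, 21770, 2, 0, 120, 0, 58, 0, 0⟩, ⟨63, 26700, 2, 120, 56, 0, 2, 0, 0⟩], [⟨123, 8010, -186, 64, 60, 0, -118, 0, 0⟩]⟩,
  ⟨[⟨0, -200, 0, -1, 1, 0, 0, 0, 0⟩, ⟨0, 220, 0, 1, -1, 0, 0, 0, 0⟩], [⟨9, 2140, 2, 0, 6, 0, 14, 0, 0⟩], [⟨17, 2050, -26, 10, 8, 0, -14, 0, 0⟩]⟩,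
  ⟨[⟨0, -133, 0, -1, 1, 0, 0, 0, 0⟩], [⟨7, 1010, 2, 0, 4, 0, 2, 0, 0⟩, ⟨7, 1470, 2, 6, -2, 0, 2, 0, 0⟩], [⟨9, 2040, -16, 8, 2, 0, -2, 0, 0⟩, ⟨8, 1310, -7, 4, 3, 0, 0, 0, 0⟩]⟩,
  ⟨[⟨0, -600, 0, -1, 1, 0, 0, 0, 0⟩], [⟨7, 1500, 2, 0, 4, 0, 14, 0, 0⟩], [⟨15, 830, -22, 8, 8, 0, -14, 0, 0⟩]⟩,
  ⟨[⟨0, -301, 0, -1, 1, 0, 0, 0, 0⟩], [⟨55, 23400, 2, 0, 52, 0, 102, 0, 0⟩, ⟨55, 23010, 2, 104, 48, 0, 2, 0, 0⟩], [⟨107, 6770, -162, 56, 52, 0, -102, 0, 0⟩]⟩,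
  ⟨[⟨0, -750, 0, -1, 1, 0, 0, 0, 0⟩], [⟨25, 7200, 2, 0, 22, 0, 50, 0, 0⟩], [⟨51, 4520, -76, 26, 26, 0, -50, 0, 0⟩, ⟨38, 5842, -37, 13, 24, 0, 0, 0, 0⟩]⟩,
  ⟨[⟨0, -103, 0, -1, 1, 0, 0, 0, 0⟩, ⟨0, 105, 0, 1, -1, 0, 0, 0, 0⟩], [⟨26, 8700, 2, 0, 23, 0, 52, 0, 0⟩], [⟨52, 4320, -78, 26, 27, 0, -52, 0, 0⟩]⟩]

def wg48 : List Wn := [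
  ⟨[⟨0, -270, 0, -1, 1, 0, 0, 0, 0⟩, ⟨0, 300, 0, 1, -1, 0, 0, 0, 0⟩], [⟨25, 7480, 2, 0, 22, 0, 50, 0, 0⟩, ⟨38, 6012, -37, 13, 24, 0, 0, 0, 0⟩], [⟨51, 4520, -76, 26, 26, 0, -50, 0, 0⟩]⟩,
  ⟨[⟨0, -50, 0, -1, 1, 0, 0, 0, 0⟩, ⟨0, 66, 0, 1, -1, 0, 0, 0, 0⟩], [⟨23, 7290, 2, 44, 20, 0, 2, 0, 0⟩], [⟨47, 4110, -70, 24, 24, 0, -46, 0, 0⟩]⟩,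
  ⟨[⟨0, -103, 0, -1, 1, 0, 0, 0, 0⟩, ⟨0, 105, 0, 1, -1, 0, 0, 0, 0⟩], [⟨10, 3150, 2, 0, 7, 0, 16, 0, 0⟩], [⟨18, 1400, -28, 10, 9, 0, -16, 0, 0⟩, ⟨14, 2258, -13, 5, 8, 0, 0, 0, 0⟩]⟩,
  ⟨[⟨0, -1050, 0, -1, 1, 0, 0, 0, 0⟩], [⟨3, 10, 2, 0, 0, 0, 4, 0, 0⟩, ⟨4, 443, -3, 2, 1, 0, 0, 0, 0⟩], [⟨5, 880, -8, 4, 2, 0, -4, 0, 0⟩]⟩,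
  ⟨[⟨0, -165, 0, -1, 1, 0, 0, 0, 0⟩, ⟨0, 180, 0, 1, -1, 0, 0, 0, 0⟩], [⟨5, 790, 2, 0, 2, 0, 4, 0, 0⟩], [⟨7, 1250, -12, 4, 4, 0, -4, 0, 0⟩, ⟨6, 1014, -5, 2, 3, 0, 0, 0, 0⟩]⟩,
  ⟨[], [⟨63, 24970, 2, 0, 60, 0, 126, 0, 0⟩, ⟨63, 24330, 2, 124, 60, 0, 2, 0, 0⟩], [⟨127, 10230, -190, 64, 64, 0, -126, 0, 0⟩]⟩,
  ⟨[⟨0, -150, 0, -1, 1, 0, 0, 0, 0⟩, ⟨0, 165, 0, 1, -1, 0, 0, 0, 0⟩], [⟨10, 3120, 2, 0, 7, 0, 16, 0, 0⟩], [⟨18, 1430, -28, 10, 9, 0, -16, 0, 0⟩, ⟨14, 2259, -13, 5, 8, 0, 0, 0, 0⟩]⟩,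
  ⟨[⟨0, -900, 0, -1, 1, 0, 0, 0, 0⟩], [⟨11, 3010, 2, 0, 8, 0, 20, 0, 0⟩], [⟨21, 1910, -32, 10, 12, 0, -20, 0, 0⟩, ⟨16, 2453, -15, 5, 10, 0, 0, 0, 0⟩]⟩,
  ⟨[⟨0, -400, 0, 0, -1, 1, 0, 0, 0⟩], [⟨13, 4260, 2, 0, 0, 10, 0, 18, 0⟩, ⟨18, 3001, -17, 0, 7, 10, 0, 0, 0⟩], [⟨23, 1700, -36, 0, 14, 10, 0, -18, 0⟩]⟩,
  ⟨[⟨0, -180, 0, -1, 1, 0, 0, 0, 0⟩, ⟨0, 200, 0, 1, -1, 0, 0, 0, 0⟩], [⟨9, 2180, 2, 0, 6, 0, 18, 0, 0⟩, ⟨14, 2163, -13, 5, 8, 0, 0, 0, 0⟩], [⟨19, 2140, -28, 10, 10, 0, -18, 0, 0⟩]⟩,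
  ⟨[⟨0, -1350, 0, -1, 1, 0, 0, 0, 0⟩], [⟨22, 6670, 2, 0, 19, 0, 40, 0, 0⟩], [⟨42, 3460, -64, 22, 21, 0, -40, 0, 0⟩, ⟨32, 5056, -31, 11, 20, 0, 0, 0, 0⟩]⟩,
  ⟨[⟨0, -180, 0, -1, 1, 0, 0, 0, 0⟩, ⟨0, 200, 0, 1, -1, 0, 0, 0, 0⟩], [⟨38, 12780, 2, 0, 35, 0, 76, 0, 0⟩], [⟨76, 5730, -114, 38, 39, 0, -76, 0, 0⟩]⟩,
  ⟨[⟨0, -105, 0, -1, 1, 0, 0, 0, 0⟩, ⟨0, 108, 0, 1, -1, 0, 0, 0, 0⟩], [⟨17, 6190, 2, 0, 14, 0, 30, 0, 0⟩], [⟨33, 2240, -50, 18, 16, 0, -30, 0, 0⟩]⟩,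
  ⟨[⟨0, -38, 0, -1, 1, 0, 0, 0, 0⟩, ⟨0, 50, 0, 1, -1, 0, 0, 0, 0⟩], [⟨39, 11810, 2, 76, 36, 0, 2, 0, 0⟩], [⟨79, 7420, -118, 40, 40, 0, -78, 0, 0⟩]⟩,
  ⟨[⟨0, -300, 0, -1, 1, 0, 0, 0, 0⟩], [⟨5, 750, 2, 0, 2, 0, 4, 0, 0⟩], [⟨7, 1330, -12, 4, 4, 0, -4, 0, 0⟩, ⟨6, 1023, -5, 2, 3, 0, 0, 0, 0⟩]⟩,
  ⟨[⟨0, -50, 0, -1, 1, 0, 0, 0, 0⟩, ⟨0, 66, 0, 1, -1, 0, 0, 0, 0⟩], [⟨3, 160, 2, 2, -2, 0, 2, 0, 0⟩, ⟨4, 608, -3, 3, 0, 0, 0, 0, 0⟩], [⟨5, 1040, -8, 4, 2, 0, -2, 0, 0⟩]⟩]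

def wg49 : List Wn := [
  ⟨[⟨0, -1350, 0, -1, 1, 0, 0, 0, 0⟩], [⟨12, 2840, 2, 1, 8, 0, 24, 0, 0⟩, ⟨18, 2600, -17, 7, 10, 0, 0, 0, 0⟩], [⟨24, 2340, -36, 13, 12, 0, -24, 0, 0⟩]⟩,
  ⟨[⟨0, 62, 0, 1, -1, 0, 0, 0, 0⟩], [⟨15, 5500, 2, 0, 12, 0, 26, 0, 0⟩, ⟨15, 5500, 2, 26, 10, 0, 2, 0, 0⟩], [⟨29, 2140, -44, 16, 14, 0, -26, 0, 0⟩]⟩,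
  ⟨[⟨0, -900, 0, -1, 1, 0, 0, 0, 0⟩], [⟨30, 8510, 2, 1, 26, 0, 56, 0, 0⟩, ⟨44, 6873, -43, 16, 27, 0, 0, 0, 0⟩], [⟨58, 5210, -88, 31, 28, 0, -56, 0, 0⟩]⟩,
  ⟨[⟨0, -200, 0, -1, 1, 0, 0, 0, 0⟩, ⟨0, 220, 0, 1, -1, 0, 0, 0, 0⟩], [⟨9, 1950, 2, 0, 6, 0, 14, 0, 0⟩], [⟨17, 1380, -26, 10, 8, 0, -14, 0, 0⟩]⟩,
  ⟨[⟨0, -1350, 0, -1, 1, 0, 0, 0, 0⟩], [⟨15, 4400, 2, 0, 12, 0, 26, 0, 0⟩], [⟨29, 2540, -44, 16, 14, 0, -26, 0, 0⟩, ⟨22, 3462, -21, 8, 13, 0, 0, 0, 0⟩]⟩,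
  ⟨[⟨0, -93, 0, -1, 1, 0, 0, 0, 0⟩], [⟨7, 1010, 2, 0, 4, 0, 2, 0, 0⟩, ⟨7, 1470, 2, 6, -2, 0, 2, 0, 0⟩], [⟨9, 1990, -16, 8, 2, 0, -2, 0, 0⟩, ⟨8, 1270, -7, 4, 3, 0, 0, 0, 0⟩]⟩,
  ⟨[⟨0, -450, 0, -1, 1, 0, 0, 0, 0⟩], [⟨7, 1510, 2, 0, 4, 0, 14, 0, 0⟩], [⟨15, 830, -22, 8, 8, 0, -14, 0, 0⟩]⟩,
  ⟨[⟨0, -600, 0, -1, 1, 0, 0, 0, 0⟩], [⟨25, 7220, 2, 0, 22, 0, 50, 0, 0⟩], [⟨51, 4520, -76, 26, 26, 0, -50, 0, 0⟩, ⟨38, 5842, -37, 13, 24, 0, 0, 0, 0⟩]⟩,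
  ⟨[⟨0, -150, 0, 0, -1, 1, 0, 0, 0⟩, ⟨0, 200, 0, 0, 1, -1, 0, 0, 0⟩], [⟨11, 4810, 2, 0, 0, 8, 0, 14, 0⟩], [⟨19, 1130, -30, 0, 12, 8, 0, -14, 0⟩]⟩,
  ⟨[⟨0, -600, 0, -1, 1, 0, 0, 0, 0⟩], [⟨10, 3010, 2, 0, 7, 0, 20, 0, 0⟩], [⟨20, 1410, -30, 10, 11, 0, -20, 0, 0⟩]⟩,
  ⟨[⟨0, -200, 0, 0, -1, 1, 0, 0, 0⟩], [⟨18, 5150, 2, 0, 1, 14, 0, 36, 0⟩], [⟨36, 3250, -54, 0, 19, 18, 0, -36, 0⟩]⟩,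
  ⟨[⟨0, -108, 0, -1, 1, 0, 0, 0, 0⟩, ⟨0, 114, 0, 1, -1, 0, 0, 0, 0⟩], [⟨10, 4070, 2, 0, 7, 0, 20, 0, 0⟩], [⟨20, 1590, -30, 10, 11, 0, -20, 0, 0⟩]⟩,
  ⟨[⟨0, -1200, 0, -1, 1, 0, 0, 0, 0⟩], [⟨22, 6670, 2, 0, 19, 0, 40, 0, 0⟩], [⟨42, 3460, -64, 22, 21, 0, -40, 0, 0⟩, ⟨32, 5056, -31, 11, 20, 0, 0, 0, 0⟩]⟩,
  ⟨[⟨0, -99, 0, -1, 1, 0, 0, 0, 0⟩, ⟨0, 101, 0, 1, -1, 0, 0, 0, 0⟩], [⟨13, 4420, 2, 0, 10, 0, 22, 0, 0⟩], [⟨25, 2020, -38, 14, 12, 0, -22, 0, 0⟩]⟩,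
  ⟨[⟨0, -200, 0, 0, -1, 1, 0, 0, 0⟩], [⟨5, 780, 2, 0, 0, 2, 0, 4, 0⟩], [⟨7, 1280, -12, 0, 4, 4, 0, -4, 0⟩, ⟨6, 996, -5, 0, 2, 3, 0, 0, 0⟩]⟩,
  ⟨[⟨0, -101, 0, -1, 1, 0, 0, 0, 0⟩, ⟨0, 103, 0, 1, -1, 0, 0, 0, 0⟩], [⟨15, 5690, 2, 0, 12, 0, 18, 0, 0⟩], [⟨25, 1320, -40, 16, 10, 0, -18, 0, 0⟩, ⟨20, 3496, -19, 8, 11, 0, 0, 0, 0⟩]⟩]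

def wg50 : List Wn := [
  ⟨[⟨0, -108, 0, -1, 1, 0, 0, 0, 0⟩, ⟨0, 114, 0, 1, -1, 0, 0, 0, 0⟩], [⟨35, 11540, 2, 0, 32, 0, 70, 0, 0⟩], [⟨71, 6210, -106, 36, 36, 0, -70, 0, 0⟩]⟩,
  ⟨[⟨0, -27, 0, -1, 1, 0, 0, 0, 0⟩, ⟨0, 38, 0, 1, -1, 0, 0, 0, 0⟩], [⟨11, 4480, 2, 18, 6, 0, 2, 0, 0⟩], [⟨21, 1260, -32, 12, 10, 0, -18, 0, 0⟩]⟩,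
  ⟨[⟨0, -1200, 0, -1, 1, 0, 0, 0, 0⟩], [⟨12, 2840, 2, 1, 8, 0, 24, 0, 0⟩, ⟨18, 2600, -17, 7, 10, 0, 0, 0, 0⟩], [⟨24, 2340, -36, 13, 12, 0, -24, 0, 0⟩]⟩,
  ⟨[⟨0, 10, 0, 1, -1, 0, 0, 0, 0⟩], [⟨7, 2000, 2, 10, 2, 0, 2, 0, 0⟩], [⟨13, 820, -20, 8, 6, 0, -10, 0, 0⟩]⟩,
  ⟨[⟨0, -750, 0, -1, 1, 0, 0, 0, 0⟩], [⟨30, 8520, 2, 1, 26, 0, 56, 0, 0⟩, ⟨44, 6877, -43, 16, 27, 0, 0, 0, 0⟩], [⟨58, 5210, -88, 31, 28, 0, -56, 0, 0⟩]⟩,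
  ⟨[⟨0, -200, 0, -1, 1, 0, 0, 0, 0⟩, ⟨0, 220, 0, 1, -1, 0, 0, 0, 0⟩], [⟨9, 2800, 2, 0, 6, 0, 14, 0, 0⟩], [⟨17, 2230, -26, 10, 8, 0, -14, 0, 0⟩]⟩,
  ⟨[⟨0, -1350, 0, -1, 1, 0, 0, 0, 0⟩], [⟨31, 8790, 2, 0, 28, 0, 60, 0, 0⟩], [⟨61, 5640, -92, 30, 32, 0, -60, 0, 0⟩, ⟨46, 7203, -45, 15, 30, 0, 0, 0, 0⟩]⟩,
  ⟨[⟨0, -1200, 0, -1, 1, 0, 0, 0, 0⟩], [⟨15, 4410, 2, 0, 12, 0, 26, 0, 0⟩], [⟨29, 2540, -44, 16, 14, 0, -26, 0, 0⟩, ⟨22, 3462, -21, 8, 13, 0, 0, 0, 0⟩]⟩,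
  ⟨[⟨0, -138, 0, -1, 1, 0, 0, 0, 0⟩, ⟨0, 150, 0, 1, -1, 0, 0, 0, 0⟩], [⟨10, 3920, 2, 0, 7, 0, 20, 0, 0⟩], [⟨20, 1590, -30, 10, 11, 0, -20, 0, 0⟩]⟩,
  ⟨[⟨0, -200, 0, -1, 1, 0, 0, 0, 0⟩, ⟨0, 220, 0, 1, -1, 0, 0, 0, 0⟩], [⟨23, 7080, 2, 0, 20, 0, 46, 0, 0⟩], [⟨47, 4110, -70, 24, 24, 0, -46, 0, 0⟩]⟩,
  ⟨[⟨0, -300, 0, -1, 1, 0, 0, 0, 0⟩], [⟨7, 1560, 2, 0, 4, 0, 14, 0, 0⟩], [⟨15, 830, -22, 8, 8, 0, -14, 0, 0⟩]⟩,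
  ⟨[⟨0, -114, 0, -1, 1, 0, 0, 0, 0⟩, ⟨0, 126, 0, 1, -1, 0, 0, 0, 0⟩], [⟨29, 10450, 2, 0, 26, 0, 54, 0, 0⟩], [⟨57, 4030, -86, 30, 28, 0, -54, 0, 0⟩]⟩,
  ⟨[⟨0, -23, 0, 0, -1, 1, 0, 0, 0⟩, ⟨0, 60, 0, 0, 1, -1, 0, 0, 0⟩], [⟨39, 13660, 2, 0, 74, 34, 0, 2, 0⟩], [⟨77, 5330, -116, 0, 40, 38, 0, -74, 0⟩]⟩,
  ⟨[⟨0, -93, 0, -1, 1, 0, 0, 0, 0⟩], [⟨5, 1090, 2, 0, 6, 0, 2, 0, 0⟩, ⟨5, 1870, 2, 6, 0, 0, 2, 0, 0⟩], [⟨9, 140, -14, 6, 4, 0, -6, 0, 0⟩]⟩,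
  ⟨[⟨0, -101, 0, -1, 1, 0, 0, 0, 0⟩, ⟨0, 103, 0, 1, -1, 0, 0, 0, 0⟩], [⟨7, 2140, 2, 0, 4, 0, 14, 0, 0⟩], [⟨15, 1490, -22, 8, 8, 0, -14, 0, 0⟩]⟩,
  ⟨[⟨0, -450, 0, -1, 1, 0, 0, 0, 0⟩], [⟨10, 3030, 2, 0, 7, 0, 20, 0, 0⟩], [⟨20, 1410, -30, 10, 11, 0, -20, 0, 0⟩]⟩]

def wg51 : List Wn := [
  ⟨[⟨0, -270, 0, -1, 1, 0, 0, 0, 0⟩, ⟨0, 300, 0, 1, -1, 0, 0, 0, 0⟩], [⟨26, 7980, 2, 0, 23, 0, 52, 0, 0⟩], [⟨52, 4320, -78, 26, 27, 0, -52, 0, 0⟩]⟩,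
  ⟨[⟨0, -138, 0, -1, 1, 0, 0, 0, 0⟩, ⟨0, 150, 0, 1, -1, 0, 0, 0, 0⟩], [⟨7, 1650, 2, 0, 4, 0, 12, 0, 0⟩], [⟨13, 1540, -20, 6, 8, 0, -12, 0, 0⟩, ⟨10, 1579, -9, 3, 6, 0, 0, 0, 0⟩]⟩,
  ⟨[⟨0, -1350, 0, -1, 1, 0, 0, 0, 0⟩], [⟨22, 6170, 2, 1, 18, 0, 42, 0, 0⟩, ⟨32, 4814, -31, 12, 19, 0, 0, 0, 0⟩], [⟨42, 3430, -64, 23, 20, 0, -42, 0, 0⟩]⟩,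
  ⟨[⟨0, -138, 0, -1, 1, 0, 0, 0, 0⟩, ⟨0, 150, 0, 1, -1, 0, 0, 0, 0⟩], [⟨35, 11280, 2, 0, 32, 0, 70, 0, 0⟩], [⟨71, 6210, -106, 36, 36, 0, -70, 0, 0⟩]⟩,
  ⟨[⟨0, -600, 0, -1, 1, 0, 0, 0, 0⟩], [⟨11, 3020, 2, 0, 8, 0, 20, 0, 0⟩], [⟨21, 1910, -32, 10, 12, 0, -20, 0, 0⟩, ⟨16, 2453, -15, 5, 10, 0, 0, 0, 0⟩]⟩,
  ⟨[⟨0, -200, 0, 0, -1, 1, 0, 0, 0⟩], [⟨13, 4430, 2, 0, 0, 10, 0, 18, 0⟩, ⟨18, 3086, -17, 0, 7, 10, 0, 0, 0⟩], [⟨23, 1610, -36, 0, 14, 10, 0, -18, 0⟩]⟩,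
  ⟨[⟨0, -101, 0, -1, 1, 0, 0, 0, 0⟩, ⟨0, 103, 0, 1, -1, 0, 0, 0, 0⟩], [⟨3, 320, 2, 0, 0, 0, 4, 0, 0⟩], [⟨5, 880, -8, 2, 4, 0, -4, 0, 0⟩, ⟨4, 595, -3, 1, 2, 0, 0, 0, 0⟩]⟩,
  ⟨[⟨0, -180, 0, -1, 1, 0, 0, 0, 0⟩, ⟨0, 200, 0, 1, -1, 0, 0, 0, 0⟩], [⟨10, 3190, 2, 0, 7, 0, 20, 0, 0⟩], [⟨20, 1410, -30, 10, 11, 0, -20, 0, 0⟩]⟩,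
  ⟨[⟨0, -150, 0, 0, -1, 1, 0, 0, 0⟩, ⟨0, 200, 0, 0, 1, -1, 0, 0, 0⟩], [⟨15, 5420, 2, 0, 0, 12, 0, 20, 0⟩], [⟨25, 1530, -40, 0, 14, 12, 0, -20, 0⟩, ⟨20, 3417, -19, 0, 7, 12, 0, 0, 0⟩]⟩,
  ⟨[⟨0, -93, 0, 0, -1, 1, 0, 0, 0⟩], [⟨33, 12990, 2, 0, 0, 30, 0, 62, 0⟩, ⟨33, 12160, 2, 0, 62, 28, 0, 2, 0⟩], [⟨65, 5510, -98, 0, 34, 32, 0, -62, 0⟩]⟩,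
  ⟨[⟨0, -93, 0, 0, -1, 1, 0, 0, 0⟩], [⟨11, 4880, 2, 0, 0, 8, 0, 6, 0⟩, ⟨11, 3680, 2, 0, 12, 0, 0, 2, 0⟩], [⟨15, 1670, -26, 0, 12, 4, 0, -6, 0⟩]⟩,
  ⟨[⟨0, -1350, 0, -1, 1, 0, 0, 0, 0⟩], [⟨16, 5030, 2, 0, 13, 0, 32, 0, 0⟩, ⟨24, 3640, -23, 8, 15, 0, 0, 0, 0⟩], [⟨32, 2240, -48, 16, 17, 0, -32, 0, 0⟩]⟩,
  ⟨[⟨0, -126, 0, -1, 1, 0, 0, 0, 0⟩, ⟨0, 138, 0, 1, -1, 0, 0, 0, 0⟩], [⟨5, 560, 2, 0, 2, 0, 4, 0, 0⟩, ⟨6, 854, -5, 3, 2, 0, 0, 0, 0⟩], [⟨7, 1140, -12, 6, 2, 0, -4, 0, 0⟩]⟩,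
  ⟨[⟨0, -600, 0, -1, 1, 0, 0, 0, 0⟩], [⟨30, 8540, 2, 1, 26, 0, 56, 0, 0⟩, ⟨44, 6888, -43, 16, 27, 0, 0, 0, 0⟩], [⟨58, 5200, -88, 31, 28, 0, -56, 0, 0⟩]⟩,
  ⟨[⟨0, -1050, 0, -1, 1, 0, 0, 0, 0⟩], [⟨15, 4410, 2, 0, 12, 0, 26, 0, 0⟩], [⟨29, 2540, -44, 16, 14, 0, -26, 0, 0⟩, ⟨22, 3462, -21, 8, 13, 0, 0, 0, 0⟩]⟩,
  ⟨[⟨0, -101, 0, -1, 1, 0, 0, 0, 0⟩, ⟨0, 103, 0, 1, -1, 0, 0, 0, 0⟩], [⟨38, 13510, 2, 0, 35, 0, 76, 0, 0⟩], [⟨76, 5730, -114, 38, 39, 0, -76, 0, 0⟩]⟩]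

def wg52 : List Wn := [
  ⟨[⟨0, -1350, 0, -1, 1, 0, 0, 0, 0⟩], [⟨7, 1670, 2, 0, 4, 0, 14, 0, 0⟩], [⟨15, 1490, -22, 8, 8, 0, -14, 0, 0⟩]⟩,
  ⟨[⟨0, -93, 0, -1, 1, 0, 0, 0, 0⟩], [⟨17, 4220, 2, 0, 32, 0, 16, 0, 0⟩, ⟨17, 6160, 2, 32, 14, 0, 2, 0, 0⟩, ⟨26, 4610, -25, 9, 16, 0, 0, 0, 0⟩], [⟨35, 3660, -52, 18, 18, 0, -34, 0, 0⟩]⟩,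
  ⟨[⟨0, -300, 0, -1, 1, 0, 0, 0, 0⟩], [⟨25, 7420, 2, 0, 22, 0, 50, 0, 0⟩], [⟨51, 4520, -76, 26, 26, 0, -50, 0, 0⟩, ⟨38, 5842, -37, 13, 24, 0, 0, 0, 0⟩]⟩,
  ⟨[⟨0, -114, 0, -1, 1, 0, 0, 0, 0⟩, ⟨0, 126, 0, 1, -1, 0, 0, 0, 0⟩], [⟨21, 6220, 2, 0, 18, 0, 42, 0, 0⟩, ⟨32, 5282, -31, 11, 20, 0, 0, 0, 0⟩], [⟨43, 4330, -64, 22, 22, 0, -42, 0, 0⟩]⟩,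
  ⟨[⟨0, -23, 0, 0, -1, 1, 0, 0, 0⟩, ⟨0, 60, 0, 0, 1, -1, 0, 0, 0⟩], [⟨31, 9800, 2, 0, 60, 28, 0, 2, 0⟩], [⟨63, 5570, -94, 0, 32, 32, 0, -62, 0⟩]⟩,
  ⟨[⟨0, -300, 0, -1, 1, 0, 0, 0, 0⟩], [⟨10, 3090, 2, 0, 7, 0, 20, 0, 0⟩], [⟨20, 1410, -30, 10, 11, 0, -20, 0, 0⟩]⟩,
  ⟨[⟨0, -23, 0, 0, -1, 1, 0, 0, 0⟩, ⟨0, 60, 0, 0, 1, -1, 0, 0, 0⟩], [⟨9, 3080, 2, 0, 16, 6, 0, 2, 0⟩], [⟨19, 2120, -28, 0, 10, 10, 0, -18, 0⟩]⟩,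
  ⟨[⟨0, -600, 0, -1, 1, 0, 0, 0, 0⟩], [⟨3, 20, 2, 0, 0, 0, 4, 0, 0⟩, ⟨4, 448, -3, 2, 1, 0, 0, 0, 0⟩], [⟨5, 880, -8, 4, 2, 0, -4, 0, 0⟩]⟩,
  ⟨[⟨0, -201, 0, -1, 1, 0, 0, 0, 0⟩], [⟨9, 2640, 2, 0, 6, 0, 18, 0, 0⟩, ⟨9, 3510, 2, 16, 6, 0, 2, 0, 0⟩, ⟨14, 2270, -13, 5, 8, 0, 0, 0, 0⟩], [⟨19, 2120, -28, 10, 10, 0, -18, 0, 0⟩]⟩,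
  ⟨[⟨0, -450, 0, -1, 1, 0, 0, 0, 0⟩], [⟨11, 3040, 2, 0, 8, 0, 20, 0, 0⟩], [⟨21, 1910, -32, 10, 12, 0, -20, 0, 0⟩, ⟨16, 2453, -15, 5, 10, 0, 0, 0, 0⟩]⟩,
  ⟨[⟨0, 10, 0, 1, -1, 0, 0, 0, 0⟩], [⟨17, 4500, 2, 32, 14, 0, 2, 0, 0⟩], [⟨35, 3490, -52, 18, 18, 0, -34, 0, 0⟩]⟩,
  ⟨[], [⟨33, 12990, 2, 0, 0, 30, 0, 62, 0⟩, ⟨33, 12160, 2, 0, 62, 28, 0, 2, 0⟩], [⟨65, 5440, -98, 0, 34, 32, 0, -62, 0⟩]⟩,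
  ⟨[⟨0, -150, 0, -1, 1, 0, 0, 0, 0⟩, ⟨0, 165, 0, 1, -1, 0, 0, 0, 0⟩], [⟨29, 10230, 2, 0, 26, 0, 54, 0, 0⟩], [⟨57, 4050, -86, 30, 28, 0, -54, 0, 0⟩]⟩,
  ⟨[⟨0, -101, 0, -1, 1, 0, 0, 0, 0⟩, ⟨0, 103, 0, 1, -1, 0, 0, 0, 0⟩], [⟨11, 3430, 2, 0, 8, 0, 20, 0, 0⟩], [⟨21, 1910, -32, 10, 12, 0, -20, 0, 0⟩, ⟨16, 2657, -15, 5, 10, 0, 0, 0, 0⟩]⟩,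
  ⟨[⟨0, -1200, 0, -1, 1, 0, 0, 0, 0⟩], [⟨16, 5030, 2, 0, 13, 0, 32, 0, 0⟩, ⟨24, 3640, -23, 8, 15, 0, 0, 0, 0⟩], [⟨32, 2240, -48, 16, 17, 0, -32, 0, 0⟩]⟩,
  ⟨[⟨0, -108, 0, -1, 1, 0, 0, 0, 0⟩, ⟨0, 114, 0, 1, -1, 0, 0, 0, 0⟩], [⟨7, 1720, 2, 0, 4, 0, 12, 0, 0⟩], [⟨13, 1540, -20, 6, 8, 0, -12, 0, 0⟩, ⟨10, 1612, -9, 3, 6, 0, 0, 0, 0⟩]⟩]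

def wg53 : List Wn := [
  ⟨[⟨0, 10, 0, 1, -1, 0, 0, 0, 0⟩], [⟨7, 2660, 2, 10, 2, 0, 2, 0, 0⟩], [⟨13, 1010, -20, 8, 6, 0, -10, 0, 0⟩]⟩,
  ⟨[⟨0, -76, 0, -1, 1, 0, 0, 0, 0⟩, ⟨0, 84, 0, 1, -1, 0, 0, 0, 0⟩], [⟨4, 1540, 2, 6, 1, 0, 2, 0, 0⟩], [⟨8, 820, -12, 4, 5, 0, -8, 0, 0⟩]⟩,
  ⟨[⟨0, -200, 0, -1, 1, 0, 0, 0, 0⟩, ⟨0, 220, 0, 1, -1, 0, 0, 0, 0⟩], [⟨10, 3060, 2, 0, 7, 0, 16, 0, 0⟩], [⟨18, 1460, -28, 10, 9, 0, -16, 0, 0⟩, ⟨14, 2243, -13, 5, 8, 0, 0, 0, 0⟩]⟩,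
  ⟨[⟨0, -900, 0, -1, 1, 0, 0, 0, 0⟩], [⟨15, 4410, 2, 0, 12, 0, 26, 0, 0⟩], [⟨29, 2540, -44, 16, 14, 0, -26, 0, 0⟩, ⟨22, 3462, -21, 8, 13, 0, 0, 0, 0⟩]⟩,
  ⟨[⟨0, -1200, 0, -1, 1, 0, 0, 0, 0⟩], [⟨7, 1670, 2, 0, 4, 0, 14, 0, 0⟩], [⟨15, 1490, -22, 8, 8, 0, -14, 0, 0⟩]⟩,
  ⟨[], [⟨17, 4220, 2, 0, 32, 0, 16, 0, 0⟩, ⟨17, 6160, 2, 32, 14, 0, 2, 0, 0⟩, ⟨26, 4610, -25, 9, 16, 0, 0, 0, 0⟩], [⟨35, 3660, -52, 18, 18, 0, -34, 0, 0⟩]⟩,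
  ⟨[⟨0, -597, 0, -1, 1, 0, 0, 0, 0⟩], [⟨47, 21220, 2, 0, 44, 0, 86, 0, 0⟩, ⟨47, 20190, 2, 88, 40, 0, 2, 0, 0⟩], [⟨91, 5060, -138, 48, 44, 0, -86, 0, 0⟩]⟩,
  ⟨[⟨0, -126, 0, -1, 1, 0, 0, 0, 0⟩, ⟨0, 138, 0, 1, -1, 0, 0, 0, 0⟩], [⟨18, 5740, 2, 1, 14, 0, 32, 0, 0⟩, ⟨26, 4265, -25, 10, 15, 0, 0, 0, 0⟩], [⟨34, 2770, -52, 19, 16, 0, -32, 0, 0⟩]⟩,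
  ⟨[⟨0, -1350, 0, -1, 1, 0, 0, 0, 0⟩], [⟨10, 3670, 2, 0, 7, 0, 20, 0, 0⟩], [⟨20, 1590, -30, 10, 11, 0, -20, 0, 0⟩]⟩,
  ⟨[⟨0, -220, 0, -1, 1, 0, 0, 0, 0⟩, ⟨0, 245, 0, 1, -1, 0, 0, 0, 0⟩], [⟨17, 5820, 2, 0, 14, 0, 30, 0, 0⟩], [⟨33, 2290, -50, 18, 16, 0, -30, 0, 0⟩]⟩,
  ⟨[⟨0, -103, 0, -1, 1, 0, 0, 0, 0⟩, ⟨0, 105, 0, 1, -1, 0, 0, 0, 0⟩], [⟨23, 7630, 2, 0, 20, 0, 46, 0, 0⟩], [⟨47, 4110, -70, 24, 24, 0, -46, 0, 0⟩]⟩,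
  ⟨[⟨0, -300, 0, -1, 1, 0, 0, 0, 0⟩], [⟨11, 3100, 2, 0, 8, 0, 20, 0, 0⟩], [⟨21, 1910, -32, 10, 12, 0, -20, 0, 0⟩, ⟨16, 2453, -15, 5, 10, 0, 0, 0, 0⟩]⟩,
  ⟨[⟨0, -399, 0, 0, -1, 1, 0, 0, 0⟩], [⟨51, 21380, 2, 0, 0, 48, 0, 94, 0⟩, ⟨51, 20350, 2, 0, 96, 44, 0, 2, 0⟩], [⟨99, 7090, -150, 0, 52, 48, 0, -94, 0⟩]⟩,
  ⟨[], [⟨71, 26990, 2, 0, 68, 0, 142, 0, 0⟩, ⟨71, 26350, 2, 140, 68, 0, 2, 0, 0⟩], [⟨143, 12610, -214, 72, 72, 0, -142, 0, 0⟩]⟩,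
  ⟨[⟨0, -114, 0, -1, 1, 0, 0, 0, 0⟩, ⟨0, 126, 0, 1, -1, 0, 0, 0, 0⟩], [⟨19, 5580, 2, 0, 16, 0, 36, 0, 0⟩], [⟨37, 3760, -56, 18, 20, 0, -36, 0, 0⟩, ⟨28, 4633, -27, 9, 18, 0, 0, 0, 0⟩]⟩,
  ⟨[⟨0, -1350, 0, -1, 1, 0, 0, 0, 0⟩], [⟨19, 5170, 2, 0, 16, 0, 38, 0, 0⟩], [⟨39, 3690, -58, 20, 20, 0, -38, 0, 0⟩]⟩]

def wg54 : List Wn := [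
  ⟨[⟨0, -180, 0, -1, 1, 0, 0, 0, 0⟩, ⟨0, 200, 0, 1, -1, 0, 0, 0, 0⟩], [⟨10, 3850, 2, 0, 7, 0, 20, 0, 0⟩], [⟨20, 1590, -30, 10, 11, 0, -20, 0, 0⟩]⟩,
  ⟨[⟨0, -597, 0, -1, 1, 0, 0, 0, 0⟩], [⟨65, 26800, 2, 0, 62, 0, 126, 0, 0⟩, ⟨65, 25960, 2, 126, 60, 0, 2, 0, 0⟩], [⟨129, 9460, -194, 66, 64, 0, -126, 0, 0⟩]⟩,
  ⟨[⟨0, -300, 0, 0, -1, 1, 0, 0, 0⟩, ⟨0, 400, 0, 0, 1, -1, 0, 0, 0⟩], [⟨23, 7780, 2, 0, 0, 20, 0, 42, 0⟩], [⟨45, 3140, -68, 0, 24, 22, 0, -42, 0⟩, ⟨34, 5398, -33, 0, 12, 21, 0, 0, 0⟩]⟩,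
  ⟨[⟨0, -1050, 0, -1, 1, 0, 0, 0, 0⟩], [⟨16, 5030, 2, 0, 13, 0, 32, 0, 0⟩, ⟨24, 3640, -23, 8, 15, 0, 0, 0, 0⟩], [⟨32, 2240, -48, 16, 17, 0, -32, 0, 0⟩]⟩,
  ⟨[⟨0, -150, 0, -1, 1, 0, 0, 0, 0⟩, ⟨0, 165, 0, 1, -1, 0, 0, 0, 0⟩], [⟨21, 6050, 2, 0, 18, 0, 42, 0, 0⟩, ⟨32, 5200, -31, 11, 20, 0, 0, 0, 0⟩], [⟨43, 4330, -64, 22, 22, 0, -42, 0, 0⟩]⟩,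
  ⟨[⟨0, -180, 0, -1, 1, 0, 0, 0, 0⟩, ⟨0, 200, 0, 1, -1, 0, 0, 0, 0⟩], [⟨7, 1600, 2, 0, 4, 0, 12, 0, 0⟩], [⟨13, 1540, -20, 6, 8, 0, -12, 0, 0⟩, ⟨10, 1555, -9, 3, 6, 0, 0, 0, 0⟩]⟩,
  ⟨[⟨0, -126, 0, -1, 1, 0, 0, 0, 0⟩, ⟨0, 138, 0, 1, -1, 0, 0, 0, 0⟩], [⟨5, 1440, 2, 0, 2, 0, 6, 0, 0⟩], [⟨9, 830, -14, 6, 4, 0, -6, 0, 0⟩]⟩,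
  ⟨[⟨0, -180, 0, -1, 1, 0, 0, 0, 0⟩, ⟨0, 200, 0, 1, -1, 0, 0, 0, 0⟩], [⟨35, 11020, 2, 0, 32, 0, 70, 0, 0⟩], [⟨71, 6210, -106, 36, 36, 0, -70, 0, 0⟩]⟩,
  ⟨[⟨0, -220, 0, -1, 1, 0, 0, 0, 0⟩, ⟨0, 245, 0, 1, -1, 0, 0, 0, 0⟩], [⟨5, 770, 2, 0, 2, 0, 4, 0, 0⟩], [⟨7, 1290, -12, 4, 4, 0, -4, 0, 0⟩, ⟨6, 1021, -5, 2, 3, 0, 0, 0, 0⟩]⟩,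
  ⟨[⟨0, -1050, 0, -1, 1, 0, 0, 0, 0⟩], [⟨7, 1670, 2, 0, 4, 0, 14, 0, 0⟩], [⟨15, 1490, -22, 8, 8, 0, -14, 0, 0⟩]⟩,
  ⟨[⟨0, -300, 0, 0, -1, 1, 0, 0, 0⟩, ⟨0, 400, 0, 0, 1, -1, 0, 0, 0⟩], [⟨5, 660, 2, 0, 0, 2, 0, 10, 0⟩], [⟨11, 1610, -16, 0, 6, 6, 0, -10, 0⟩, ⟨8, 1118, -7, 0, 3, 4, 0, 0, 0⟩]⟩,
  ⟨[⟨0, -245, 0, -1, 1, 0, 0, 0, 0⟩, ⟨0, 270, 0, 1, -1, 0, 0, 0, 0⟩], [⟨9, 2100, 2, 0, 6, 0, 18, 0, 0⟩, ⟨14, 2126, -13, 5, 8, 0, 0, 0, 0⟩], [⟨19, 2140, -28, 10, 10, 0, -18, 0, 0⟩]⟩,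
  ⟨[⟨0, -399, 0, -1, 1, 0, 0, 0, 0⟩], [⟨47, 21220, 2, 0, 44, 0, 86, 0, 0⟩, ⟨47, 20190, 2, 88, 40, 0, 2, 0, 0⟩], [⟨91, 5040, -138, 48, 44, 0, -86, 0, 0⟩]⟩,
  ⟨[⟨0, -530, 0, -1, 1, 0, 0, 0, 0⟩, ⟨0, 600, 0, 1, -1, 0, 0, 0, 0⟩], [⟨3, 10, 2, 0, 0, 0, 2, 0, 0⟩, ⟨4, 601, -3, 2, 1, 0, 0, 0, 0⟩], [⟨5, 1190, -8, 4, 2, 0, -2, 0, 0⟩]⟩,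
  ⟨[⟨0, -245, 0, -1, 1, 0, 0, 0, 0⟩, ⟨0, 270, 0, 1, -1, 0, 0, 0, 0⟩], [⟨38, 12490, 2, 0, 35, 0, 76, 0, 0⟩], [⟨76, 5730, -114, 38, 39, 0, -76, 0, 0⟩]⟩,
  ⟨[⟨0, -101, 0, -1, 1, 0, 0, 0, 0⟩, ⟨0, 103, 0, 1, -1, 0, 0, 0, 0⟩], [⟨8, 1620, 2, 0, 5, 0, 16, 0, 0⟩, ⟨12, 1658, -11, 4, 7, 0, 0, 0, 0⟩], [⟨16, 1690, -24, 8, 9, 0, -16, 0, 0⟩]⟩]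

def wg55 : List Wn := [
  ⟨[⟨0, -114, 0, -1, 1, 0, 0, 0, 0⟩, ⟨0, 126, 0, 1, -1, 0, 0, 0, 0⟩], [⟨22, 7470, 2, 0, 19, 0, 44, 0, 0⟩], [⟨44, 3360, -66, 22, 23, 0, -44, 0, 0⟩]⟩,
  ⟨[⟨0, -18, 0, -1, 1, 0, 0, 0, 0⟩, ⟨0, 27, 0, 1, -1, 0, 0, 0, 0⟩], [⟨27, 8250, 2, 52, 24, 0, 2, 0, 0⟩], [⟨55, 4760, -82, 28, 28, 0, -54, 0, 0⟩]⟩,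
  ⟨[⟨0, -1200, 0, -1, 1, 0, 0, 0, 0⟩], [⟨10, 3670, 2, 0, 7, 0, 20, 0, 0⟩], [⟨20, 1590, -30, 10, 11, 0, -20, 0, 0⟩]⟩,
  ⟨[⟨0, -825, 0, -1, 1, 0, 0, 0, 0⟩, ⟨0, 900, 0, 1, -1, 0, 0, 0, 0⟩], [⟨11, 3590, 2, 0, 8, 0, 18, 0, 0⟩], [⟨21, 1450, -32, 12, 10, 0, -18, 0, 0⟩, ⟨16, 2512, -15, 6, 9, 0, 0, 0, 0⟩]⟩,
  ⟨[⟨0, -18, 0, -1, 1, 0, 0, 0, 0⟩, ⟨0, 27, 0, 1, -1, 0, 0, 0, 0⟩], [⟨4, 1620, 2, 6, 1, 0, 2, 0, 0⟩], [⟨8, 820, -12, 4, 5, 0, -8, 0, 0⟩]⟩,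
  ⟨[⟨0, -101, 0, -1, 1, 0, 0, 0, 0⟩, ⟨0, 103, 0, 1, -1, 0, 0, 0, 0⟩], [⟨11, 3040, 2, 0, 8, 0, 10, 0, 0⟩], [⟨17, 1890, -28, 12, 6, 0, -10, 0, 0⟩, ⟨14, 2455, -13, 6, 7, 0, 0, 0, 0⟩]⟩,
  ⟨[⟨0, -300, 0, -1, 1, 0, 0, 0, 0⟩], [⟨3, 70, 2, 0, 0, 0, 4, 0, 0⟩, ⟨4, 475, -3, 2, 1, 0, 0, 0, 0⟩], [⟨5, 880, -8, 4, 2, 0, -4, 0, 0⟩]⟩,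
  ⟨[⟨0, -133, 0, -1, 1, 0, 0, 0, 0⟩], [⟨9, 2640, 2, 0, 6, 0, 18, 0, 0⟩, ⟨9, 3510, 2, 16, 6, 0, 2, 0, 0⟩, ⟨14, 2400, -13, 5, 8, 0, 0, 0, 0⟩], [⟨19, 2120, -28, 10, 10, 0, -18, 0, 0⟩]⟩,
  ⟨[⟨0, -126, 0, -1, 1, 0, 0, 0, 0⟩, ⟨0, 138, 0, 1, -1, 0, 0, 0, 0⟩], [⟨15, 4870, 2, 0, 12, 0, 26, 0, 0⟩], [⟨29, 2440, -44, 16, 14, 0, -26, 0, 0⟩, ⟨22, 3626, -21, 8, 13, 0, 0, 0, 0⟩]⟩,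
  ⟨[⟨0, -1200, 0, -1, 1, 0, 0, 0, 0⟩], [⟨19, 5170, 2, 0, 16, 0, 38, 0, 0⟩], [⟨39, 3690, -58, 20, 20, 0, -38, 0, 0⟩]⟩,
  ⟨[⟨0, -126, 0, -1, 1, 0, 0, 0, 0⟩, ⟨0, 138, 0, 1, -1, 0, 0, 0, 0⟩], [⟨7, 740, 2, 0, 4, 0, 2, 0, 0⟩], [⟨9, 2050, -16, 8, 2, 0, -2, 0, 0⟩, ⟨8, 1382, -7, 4, 3, 0, 0, 0, 0⟩]⟩,
  ⟨[⟨0, -900, 0, -1, 1, 0, 0, 0, 0⟩], [⟨16, 5030, 2, 0, 13, 0, 32, 0, 0⟩, ⟨24, 3641, -23, 8, 15, 0, 0, 0, 0⟩], [⟨32, 2240, -48, 16, 17, 0, -32, 0, 0⟩]⟩,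
  ⟨[⟨0, -165, 0, -1, 1, 0, 0, 0, 0⟩, ⟨0, 180, 0, 1, -1, 0, 0, 0, 0⟩], [⟨18, 5600, 2, 1, 14, 0, 32, 0, 0⟩, ⟨26, 4202, -25, 10, 15, 0, 0, 0, 0⟩], [⟨34, 2780, -52, 19, 16, 0, -32, 0, 0⟩]⟩,
  ⟨[⟨0, -138, 0, -1, 1, 0, 0, 0, 0⟩, ⟨0, 150, 0, 1, -1, 0, 0, 0, 0⟩], [⟨10, 2860, 2, 1, 6, 0, 18, 0, 0⟩, ⟨14, 2174, -13, 6, 7, 0, 0, 0, 0⟩], [⟨18, 1470, -28, 11, 8, 0, -18, 0, 0⟩]⟩,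
  ⟨[⟨0, -900, 0, -1, 1, 0, 0, 0, 0⟩], [⟨7, 1670, 2, 0, 4, 0, 14, 0, 0⟩], [⟨15, 1490, -22, 8, 8, 0, -14, 0, 0⟩]⟩,
  ⟨[⟨0, -84, 0, -1, 1, 0, 0, 0, 0⟩, ⟨0, 92, 0, 1, -1, 0, 0, 0, 0⟩], [⟨31, 12160, 2, 0, 28, 0, 62, 0, 0⟩], [⟨63, 5570, -94, 32, 32, 0, -62, 0, 0⟩]⟩]

def wg56 : List Wn := [
  ⟨[⟨0, -245, 0, -1, 1, 0, 0, 0, 0⟩, ⟨0, 270, 0, 1, -1, 0, 0, 0, 0⟩], [⟨9, 2100, 2, 0, 6, 0, 18, 0, 0⟩], [⟨19, 2140, -28, 10, 10, 0, -18, 0, 0⟩, ⟨14, 2105, -13, 5, 8, 0, 0, 0, 0⟩]⟩,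
  ⟨[⟨0, -301, 0, -1, 1, 0, 0, 0, 0⟩], [⟨47, 21220, 2, 0, 44, 0, 86, 0, 0⟩, ⟨47, 20190, 2, 88, 40, 0, 2, 0, 0⟩], [⟨91, 5010, -138, 48, 44, 0, -86, 0, 0⟩]⟩,
  ⟨[⟨0, -1050, 0, -1, 1, 0, 0, 0, 0⟩], [⟨10, 3670, 2, 0, 7, 0, 20, 0, 0⟩], [⟨20, 1590, -30, 10, 11, 0, -20, 0, 0⟩]⟩,
  ⟨[⟨0, -220, 0, -1, 1, 0, 0, 0, 0⟩, ⟨0, 245, 0, 1, -1, 0, 0, 0, 0⟩], [⟨18, 5600, 2, 0, 15, 0, 32, 0, 0⟩], [⟨34, 2830, -52, 18, 17, 0, -32, 0, 0⟩, ⟨26, 4184, -25, 9, 16, 0, 0, 0, 0⟩]⟩,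
  ⟨[⟨0, -270, 0, -1, 1, 0, 0, 0, 0⟩, ⟨0, 300, 0, 1, -1, 0, 0, 0, 0⟩], [⟨26, 7820, 2, 1, 22, 0, 52, 0, 0⟩], [⟨52, 4320, -78, 27, 26, 0, -52, 0, 0⟩]⟩,
  ⟨[], [⟨31, 13500, 2, 0, 28, 0, 54, 0, 0⟩, ⟨31, 10220, 2, 24, 56, 0, 2, 0, 0⟩], [⟨59, 3580, -90, 32, 28, 0, -54, 0, 0⟩]⟩,
  ⟨[⟨0, -100, 0, 0, -1, 1, 0, 0, 0⟩, ⟨0, 150, 0, 0, 1, -1, 0, 0, 0⟩], [⟨19, 7960, 2, 0, 0, 16, 0, 26, 0⟩], [⟨33, 1140, -52, 0, 20, 14, 0, -26, 0⟩, ⟨26, 4423, -25, 0, 10, 15, 0, 0, 0⟩]⟩,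
  ⟨[⟨0, -165, 0, -1, 1, 0, 0, 0, 0⟩, ⟨0, 180, 0, 1, -1, 0, 0, 0, 0⟩], [⟨5, 1380, 2, 0, 2, 0, 6, 0, 0⟩], [⟨9, 850, -14, 6, 4, 0, -6, 0, 0⟩]⟩,
  ⟨[⟨0, -150, 0, -1, 1, 0, 0, 0, 0⟩, ⟨0, 165, 0, 1, -1, 0, 0, 0, 0⟩], [⟨10, 3010, 2, 1, 6, 0, 16, 0, 0⟩, ⟨14, 2216, -13, 6, 7, 0, 0, 0, 0⟩], [⟨18, 1400, -28, 11, 8, 0, -16, 0, 0⟩]⟩,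
  ⟨[⟨0, -93, 0, -1, 1, 0, 0, 0, 0⟩], [⟨9, 2640, 2, 0, 6, 0, 18, 0, 0⟩, ⟨9, 3510, 2, 16, 6, 0, 2, 0, 0⟩, ⟨14, 2400, -13, 5, 8, 0, 0, 0, 0⟩], [⟨19, 2120, -28, 10, 10, 0, -18, 0, 0⟩]⟩,
  ⟨[⟨0, -201, 0, 0, -1, 1, 0, 0, 0⟩], [⟨51, 21380, 2, 0, 0, 48, 0, 94, 0⟩, ⟨51, 20350, 2, 0, 96, 44, 0, 2, 0⟩], [⟨99, 6990, -150, 0, 52, 48, 0, -94, 0⟩]⟩,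
  ⟨[⟨0, -270, 0, -1, 1, 0, 0, 0, 0⟩, ⟨0, 300, 0, 1, -1, 0, 0, 0, 0⟩], [⟨9, 2740, 2, 0, 6, 0, 14, 0, 0⟩], [⟨17, 2260, -26, 10, 8, 0, -14, 0, 0⟩]⟩,
  ⟨[⟨0, -1050, 0, -1, 1, 0, 0, 0, 0⟩], [⟨19, 5170, 2, 0, 16, 0, 38, 0, 0⟩], [⟨39, 3690, -58, 20, 20, 0, -38, 0, 0⟩]⟩,
  ⟨[⟨0, -301, 0, -1, 1, 0, 0, 0, 0⟩], [⟨65, 26800, 2, 0, 62, 0, 126, 0, 0⟩, ⟨65, 25960, 2, 126, 60, 0, 2, 0, 0⟩], [⟨129, 9430, -194, 66, 64, 0, -126, 0, 0⟩]⟩,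
  ⟨[⟨0, -270, 0, -1, 1, 0, 0, 0, 0⟩, ⟨0, 300, 0, 1, -1, 0, 0, 0, 0⟩], [⟨23, 6910, 2, 0, 20, 0, 46, 0, 0⟩], [⟨47, 4110, -70, 24, 24, 0, -46, 0, 0⟩]⟩,
  ⟨[⟨0, -750, 0, -1, 1, 0, 0, 0, 0⟩], [⟨16, 5030, 2, 0, 13, 0, 32, 0, 0⟩, ⟨24, 3643, -23, 8, 15, 0, 0, 0, 0⟩], [⟨32, 2240, -48, 16, 17, 0, -32, 0, 0⟩]⟩]

def wg57 : List Wn := [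
  ⟨[⟨0, -150, 0, -1, 1, 0, 0, 0, 0⟩, ⟨0, 165, 0, 1, -1, 0, 0, 0, 0⟩], [⟨22, 7300, 2, 0, 19, 0, 44, 0, 0⟩], [⟨44, 3360, -66, 22, 23, 0, -44, 0, 0⟩]⟩,
  ⟨[⟨0, -200, 0, 0, -1, 1, 0, 0, 0⟩], [⟨30, 9080, 2, 0, 1, 26, 0, 56, 0⟩, ⟨44, 7157, -43, 0, 16, 27, 0, 0, 0⟩], [⟨58, 5150, -88, 0, 31, 28, 0, -56, 0⟩]⟩,
  ⟨[⟨0, -38, 0, -1, 1, 0, 0, 0, 0⟩, ⟨0, 50, 0, 1, -1, 0, 0, 0, 0⟩], [⟨37, 12510, 2, 72, 34, 0, 2, 0, 0⟩], [⟨75, 5730, -112, 38, 38, 0, -74, 0, 0⟩]⟩,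
  ⟨[⟨0, -93, 0, 0, -1, 1, 0, 0, 0⟩], [⟨5, 1590, 2, 0, 0, 2, 0, 4, 0⟩, ⟨5, 440, 2, 0, 6, -2, 0, 2, 0⟩], [⟨7, 1190, -12, 0, 4, 4, 0, -4, 0⟩, ⟨6, 950, -5, 0, 2, 3, 0, 0, 0⟩]⟩,
  ⟨[⟨0, -1350, 0, -1, 1, 0, 0, 0, 0⟩], [⟨6, 1290, 2, 0, 3, 0, 12, 0, 0⟩], [⟨12, 370, -18, 6, 7, 0, -12, 0, 0⟩]⟩,
  ⟨[⟨0, -108, 0, -1, 1, 0, 0, 0, 0⟩, ⟨0, 114, 0, 1, -1, 0, 0, 0, 0⟩], [⟨41, 14440, 2, 0, 38, 0, 78, 0, 0⟩], [⟨81, 6220, -122, 42, 40, 0, -78, 0, 0⟩]⟩,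
  ⟨[⟨0, -165, 0, -1, 1, 0, 0, 0, 0⟩, ⟨0, 180, 0, 1, -1, 0, 0, 0, 0⟩], [⟨15, 4760, 2, 0, 12, 0, 26, 0, 0⟩], [⟨29, 2460, -44, 16, 14, 0, -26, 0, 0⟩, ⟨22, 3583, -21, 8, 13, 0, 0, 0, 0⟩]⟩,
  ⟨[⟨0, -245, 0, -1, 1, 0, 0, 0, 0⟩, ⟨0, 270, 0, 1, -1, 0, 0, 0, 0⟩], [⟨10, 3120, 2, 0, 7, 0, 20, 0, 0⟩], [⟨20, 1410, -30, 10, 11, 0, -20, 0, 0⟩]⟩,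
  ⟨[⟨0, -400, 0, 0, -1, 1, 0, 0, 0⟩, ⟨0, 500, 0, 0, 1, -1, 0, 0, 0⟩], [⟨15, 5160, 2, 0, 0, 12, 0, 20, 0⟩], [⟨25, 1670, -40, 0, 14, 12, 0, -20, 0⟩, ⟨20, 3394, -19, 0, 7, 12, 0, 0, 0⟩]⟩,
  ⟨[⟨0, -201, 0, -1, 1, 0, 0, 0, 0⟩], [⟨47, 21220, 2, 0, 44, 0, 86, 0, 0⟩, ⟨47, 20190, 2, 88, 40, 0, 2, 0, 0⟩], [⟨91, 4950, -138, 48, 44, 0, -86, 0, 0⟩]⟩,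
  ⟨[⟨0, -200, 0, -1, 1, 0, 0, 0, 0⟩, ⟨0, 220, 0, 1, -1, 0, 0, 0, 0⟩], [⟨29, 10000, 2, 0, 26, 0, 54, 0, 0⟩], [⟨57, 4070, -86, 30, 28, 0, -54, 0, 0⟩]⟩,
  ⟨[⟨0, -93, 0, 0, -1, 1, 0, 0, 0⟩], [⟨11, 3900, 2, 0, 0, 16, 0, 6, 0⟩, ⟨11, 4930, 2, 0, 16, 4, 0, 2, 0⟩], [⟨19, 880, -30, 0, 12, 8, 0, -14, 0⟩]⟩,
  ⟨[⟨0, -900, 0, -1, 1, 0, 0, 0, 0⟩], [⟨10, 3670, 2, 0, 7, 0, 20, 0, 0⟩], [⟨20, 1590, -30, 10, 11, 0, -20, 0, 0⟩]⟩,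
  ⟨[⟨0, -114, 0, -1, 1, 0, 0, 0, 0⟩, ⟨0, 126, 0, 1, -1, 0, 0, 0, 0⟩], [⟨35, 12660, 2, 0, 32, 0, 62, 0, 0⟩], [⟨67, 4730, -102, 36, 32, 0, -62, 0, 0⟩]⟩,
  ⟨[⟨0, -600, 0, -1, 1, 0, 0, 0, 0⟩], [⟨22, 6200, 2, 1, 18, 0, 42, 0, 0⟩, ⟨32, 4828, -31, 12, 19, 0, 0, 0, 0⟩], [⟨42, 3430, -64, 23, 20, 0, -42, 0, 0⟩]⟩,
  ⟨[], [⟨15, 6140, 2, 0, 0, 12, 0, 22, 0⟩, ⟨15, 5760, 2, 0, 24, 8, 0, 2, 0⟩], [⟨27, 1650, -42, 0, 16, 12, 0, -22, 0⟩]⟩]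

def wg58 : List Wn := [
  ⟨[⟨0, -1350, 0, -1, 1, 0, 0, 0, 0⟩], [⟨39, 10940, 2, 0, 36, 0, 78, 0, 0⟩], [⟨79, 7420, -118, 40, 40, 0, -78, 0, 0⟩]⟩,
  ⟨[⟨0, -165, 0, -1, 1, 0, 0, 0, 0⟩, ⟨0, 180, 0, 1, -1, 0, 0, 0, 0⟩], [⟨5, 1200, 2, 0, 2, 0, 6, 0, 0⟩], [⟨9, 180, -14, 6, 4, 0, -6, 0, 0⟩]⟩,
  ⟨[], [⟨9, 2640, 2, 0, 6, 0, 18, 0, 0⟩, ⟨9, 3510, 2, 16, 6, 0, 2, 0, 0⟩, ⟨14, 2400, -13, 5, 8, 0, 0, 0, 0⟩], [⟨19, 2120, -28, 10, 10, 0, -18, 0, 0⟩]⟩,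
  ⟨[⟨0, -159, 0, 0, -1, 1, 0, 0, 0⟩], [⟨51, 21380, 2, 0, 0, 48, 0, 94, 0⟩, ⟨51, 20350, 2, 0, 96, 44, 0, 2, 0⟩], [⟨99, 6960, -150, 0, 52, 48, 0, -94, 0⟩]⟩,
  ⟨[⟨0, -900, 0, -1, 1, 0, 0, 0, 0⟩], [⟨19, 5170, 2, 0, 16, 0, 38, 0, 0⟩], [⟨39, 3690, -58, 20, 20, 0, -38, 0, 0⟩]⟩,
  ⟨[⟨0, -138, 0, -1, 1, 0, 0, 0, 0⟩, ⟨0, 150, 0, 1, -1, 0, 0, 0, 0⟩], [⟨41, 14160, 2, 0, 38, 0, 78, 0, 0⟩], [⟨81, 6230, -122, 42, 40, 0, -78, 0, 0⟩]⟩,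
  ⟨[⟨0, -201, 0, -1, 1, 0, 0, 0, 0⟩], [⟨65, 26800, 2, 0, 62, 0, 126, 0, 0⟩, ⟨65, 25960, 2, 126, 60, 0, 2, 0, 0⟩], [⟨129, 9400, -194, 66, 64, 0, -126, 0, 0⟩]⟩,
  ⟨[⟨0, -150, 0, 0, -1, 1, 0, 0, 0⟩, ⟨0, 200, 0, 0, 1, -1, 0, 0, 0⟩], [⟨15, 5240, 2, 0, 0, 12, 0, 22, 0⟩], [⟨27, 1870, -42, 0, 16, 12, 0, -22, 0⟩]⟩,
  ⟨[⟨0, -597, 0, -1, 1, 0, 0, 0, 0⟩], [⟨21, 7060, 2, 0, 18, 0, 42, 0, 0⟩, ⟨21, 7260, 2, 40, 18, 0, 2, 0, 0⟩, ⟨32, 4940, -31, 11, 20, 0, 0, 0, 0⟩], [⟨43, 4130, -64, 22, 22, 0, -42, 0, 0⟩]⟩,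
  ⟨[⟨0, -600, 0, -1, 1, 0, 0, 0, 0⟩], [⟨16, 5040, 2, 0, 13, 0, 32, 0, 0⟩, ⟨24, 3648, -23, 8, 15, 0, 0, 0, 0⟩], [⟨32, 2240, -48, 16, 17, 0, -32, 0, 0⟩]⟩,
  ⟨[], [⟨11, 5100, 2, 0, 8, 0, 16, 0, 0⟩, ⟨11, 3800, 2, 18, 4, 0, 2, 0, 0⟩, ⟨15, 2590, -14, 14, 7, 0, -7, 0, 0⟩], [⟨19, 1120, -30, 10, 10, 0, -16, 0, 0⟩]⟩,
  ⟨[⟨0, -10, 0, -1, 1, 0, 0, 0, 0⟩, ⟨0, 18, 0, 1, -1, 0, 0, 0, 0⟩], [⟨42, 13390, 2, 82, 39, 0, 2, 0, 0⟩], [⟨84, 6590, -126, 42, 43, 0, -84, 0, 0⟩]⟩,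
  ⟨[⟨0, -159, 0, 0, -1, 1, 0, 0, 0⟩], [⟨69, 27230, 2, 0, 0, 66, 0, 134, 0⟩, ⟨69, 26390, 2, 0, 134, 64, 0, 2, 0⟩], [⟨137, 11150, -206, 0, 70, 68, 0, -134, 0⟩]⟩,
  ⟨[⟨0, -105, 0, -1, 1, 0, 0, 0, 0⟩, ⟨0, 108, 0, 1, -1, 0, 0, 0, 0⟩], [⟨15, 4920, 2, 0, 12, 0, 26, 0, 0⟩], [⟨29, 2420, -44, 16, 14, 0, -26, 0, 0⟩, ⟨22, 3647, -21, 8, 13, 0, 0, 0, 0⟩]⟩,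
  ⟨[⟨0, -597, 0, -1, 1, 0, 0, 0, 0⟩], [⟨63, 26630, 2, 0, 60, 0, 118, 0, 0⟩, ⟨63, 26230, 2, 120, 56, 0, 2, 0, 0⟩], [⟨123, 8010, -186, 64, 60, 0, -118, 0, 0⟩]⟩,
  ⟨[⟨0, -38, 0, -1, 1, 0, 0, 0, 0⟩, ⟨0, 50, 0, 1, -1, 0, 0, 0, 0⟩], [⟨38, 12800, 2, 74, 35, 0, 2, 0, 0⟩], [⟨76, 5730, -114, 38, 39, 0, -76, 0, 0⟩]⟩]

def wg59 : List Wn := [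
  ⟨[⟨0, -300, 0, -1, 1, 0, 0, 0, 0⟩], [⟨15, 4540, 2, 0, 12, 0, 26, 0, 0⟩], [⟨29, 2500, -44, 16, 14, 0, -26, 0, 0⟩, ⟨22, 3445, -21, 8, 13, 0, 0, 0, 0⟩]⟩,
  ⟨[], [⟨41, 11570, 2, 0, 80, 0, 40, 0, 0⟩, ⟨41, 15320, 2, 80, 38, 0, 2, 0, 0⟩, ⟨62, 11230, -61, 21, 40, 0, 0, 0, 0⟩], [⟨83, 7720, -124, 42, 42, 0, -82, 0, 0⟩]⟩,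
  ⟨[⟨0, -600, 0, -1, 1, 0, 0, 0, 0⟩], [⟨7, 1680, 2, 0, 4, 0, 14, 0, 0⟩], [⟨15, 1490, -22, 8, 8, 0, -14, 0, 0⟩]⟩,
  ⟨[⟨0, -159, 0, -1, 1, 0, 0, 0, 0⟩], [⟨47, 21220, 2, 0, 44, 0, 86, 0, 0⟩, ⟨47, 20190, 2, 88, 40, 0, 2, 0, 0⟩], [⟨91, 4910, -138, 48, 44, 0, -86, 0, 0⟩]⟩,
  ⟨[], [⟨11, 3900, 2, 0, 0, 16, 0, 6, 0⟩, ⟨11, 4930, 2, 0, 16, 4, 0, 2, 0⟩], [⟨19, 730, -30, 0, 12, 8, 0, -14, 0⟩]⟩,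
  ⟨[⟨0, -750, 0, -1, 1, 0, 0, 0, 0⟩], [⟨10, 3670, 2, 0, 7, 0, 20, 0, 0⟩], [⟨20, 1590, -30, 10, 11, 0, -20, 0, 0⟩]⟩,
  ⟨[⟨0, -1200, 0, -1, 1, 0, 0, 0, 0⟩], [⟨39, 10940, 2, 0, 36, 0, 78, 0, 0⟩], [⟨79, 7420, -118, 40, 40, 0, -78, 0, 0⟩]⟩,
  ⟨[⟨0, -23, 0, 0, -1, 1, 0, 0, 0⟩, ⟨0, 60, 0, 0, 1, -1, 0, 0, 0⟩], [⟨37, 13200, 2, 0, 70, 32, 0, 2, 0⟩], [⟨73, 4800, -110, 0, 38, 36, 0, -70, 0⟩]⟩,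
  ⟨[⟨0, -165, 0, -1, 1, 0, 0, 0, 0⟩, ⟨0, 180, 0, 1, -1, 0, 0, 0, 0⟩], [⟨5, 2050, 2, 0, 2, 0, 6, 0, 0⟩], [⟨9, 1030, -14, 6, 4, 0, -6, 0, 0⟩]⟩,
  ⟨[⟨0, -76, 0, -1, 1, 0, 0, 0, 0⟩, ⟨0, 84, 0, 1, -1, 0, 0, 0, 0⟩], [⟨23, 7430, 2, 44, 20, 0, 2, 0, 0⟩], [⟨47, 4110, -70, 24, 24, 0, -46, 0, 0⟩]⟩,
  ⟨[⟨0, -133, 0, 0, -1, 1, 0, 0, 0⟩], [⟨51, 21380, 2, 0, 0, 48, 0, 94, 0⟩, ⟨51, 20350, 2, 0, 96, 44, 0, 2, 0⟩], [⟨99, 6930, -150, 0, 52, 48, 0, -94, 0⟩]⟩,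
  ⟨[⟨0, -800, 0, 0, -1, 1, 0, 0, 0⟩], [⟨19, 5180, 2, 0, 0, 16, 0, 38, 0⟩], [⟨39, 3690, -58, 0, 20, 20, 0, -38, 0⟩]⟩,
  ⟨[⟨0, -270, 0, -1, 1, 0, 0, 0, 0⟩, ⟨0, 300, 0, 1, -1, 0, 0, 0, 0⟩], [⟨10, 3000, 2, 0, 7, 0, 16, 0, 0⟩], [⟨18, 1490, -28, 10, 9, 0, -16, 0, 0⟩, ⟨14, 2230, -13, 5, 8, 0, 0, 0, 0⟩]⟩,
  ⟨[⟨0, -750, 0, -1, 1, 0, 0, 0, 0⟩], [⟨19, 5180, 2, 0, 16, 0, 38, 0, 0⟩], [⟨39, 3690, -58, 20, 20, 0, -38, 0, 0⟩]⟩,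
  ⟨[⟨0, -450, 0, -1, 1, 0, 0, 0, 0⟩], [⟨16, 5070, 2, 0, 13, 0, 32, 0, 0⟩, ⟨24, 3664, -23, 8, 15, 0, 0, 0, 0⟩], [⟨32, 2240, -48, 16, 17, 0, -32, 0, 0⟩]⟩,
  ⟨[⟨0, -1350, 0, -1, 1, 0, 0, 0, 0⟩], [⟨9, 1790, 2, 0, 6, 0, 14, 0, 0⟩], [⟨17, 1450, -26, 10, 8, 0, -14, 0, 0⟩]⟩]

def wg60 : List Wn := [
  ⟨[⟨0, -93, 0, 0, -1, 1, 0, 0, 0⟩], [⟨13, 2720, 2, 0, 0, 12, 0, 2, 0⟩, ⟨13, 2790, 2, 0, 14, -2, 0, 2, 0⟩], [⟨15, 2580, -28, 0, 12, 4, 0, -4, 0⟩, ⟨14, 2620, -13, 0, 6, 7, 0, 0, 0⟩]⟩,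
  ⟨[⟨0, -23, 0, 0, -1, 1, 0, 0, 0⟩, ⟨0, 60, 0, 0, 1, -1, 0, 0, 0⟩], [⟨3, 340, 2, 0, 4, -2, 0, 2, 0⟩], [⟨5, 880, -8, 0, 2, 4, 0, -4, 0⟩, ⟨4, 502, -3, 0, 3, 1, 0, -1, 0⟩]⟩,
  ⟨[⟨0, -126, 0, -1, 1, 0, 0, 0, 0⟩, ⟨0, 138, 0, 1, -1, 0, 0, 0, 0⟩], [⟨6, 1470, 2, 0, 3, 0, 8, 0, 0⟩], [⟨10, 1070, -16, 6, 5, 0, -8, 0, 0⟩, ⟨8, 1257, -7, 3, 4, 0, 0, 0, 0⟩]⟩,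
  ⟨[⟨0, -450, 0, -1, 1, 0, 0, 0, 0⟩], [⟨7, 1700, 2, 0, 4, 0, 14, 0, 0⟩], [⟨15, 1490, -22, 8, 8, 0, -14, 0, 0⟩]⟩,
  ⟨[⟨0, -245, 0, -1, 1, 0, 0, 0, 0⟩, ⟨0, 270, 0, 1, -1, 0, 0, 0, 0⟩], [⟨10, 3790, 2, 0, 7, 0, 20, 0, 0⟩], [⟨20, 1590, -30, 10, 11, 0, -20, 0, 0⟩]⟩,
  ⟨[⟨0, -133, 0, -1, 1, 0, 0, 0, 0⟩], [⟨47, 21220, 2, 0, 44, 0, 86, 0, 0⟩, ⟨47, 20190, 2, 88, 40, 0, 2, 0, 0⟩], [⟨91, 4880, -138, 48, 44, 0, -86, 0, 0⟩]⟩,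
  ⟨[⟨0, -114, 0, -1, 1, 0, 0, 0, 0⟩, ⟨0, 126, 0, 1, -1, 0, 0, 0, 0⟩], [⟨7, 2120, 2, 0, 4, 0, 10, 0, 0⟩], [⟨13, 1110, -20, 8, 6, 0, -10, 0, 0⟩, ⟨10, 1588, -9, 4, 5, 0, 0, 0, 0⟩]⟩,
  ⟨[⟨0, -114, 0, -1, 1, 0, 0, 0, 0⟩, ⟨0, 126, 0, 1, -1, 0, 0, 0, 0⟩], [⟨22, 7370, 2, 1, 18, 0, 44, 0, 0⟩], [⟨44, 3360, -66, 23, 22, 0, -44, 0, 0⟩]⟩,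
  ⟨[⟨0, -600, 0, -1, 1, 0, 0, 0, 0⟩], [⟨10, 3680, 2, 0, 7, 0, 20, 0, 0⟩], [⟨20, 1590, -30, 10, 11, 0, -20, 0, 0⟩]⟩,
  ⟨[⟨0, -300, 0, -1, 1, 0, 0, 0, 0⟩], [⟨22, 6400, 2, 1, 18, 0, 42, 0, 0⟩, ⟨32, 4929, -31, 12, 19, 0, 0, 0, 0⟩], [⟨42, 3430, -64, 23, 20, 0, -42, 0, 0⟩]⟩,
  ⟨[⟨0, -1050, 0, -1, 1, 0, 0, 0, 0⟩], [⟨39, 10950, 2, 0, 36, 0, 78, 0, 0⟩], [⟨79, 7420, -118, 40, 40, 0, -78, 0, 0⟩]⟩,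
  ⟨[⟨0, -245, 0, -1, 1, 0, 0, 0, 0⟩, ⟨0, 270, 0, 1, -1, 0, 0, 0, 0⟩], [⟨7, 1550, 2, 0, 4, 0, 12, 0, 0⟩], [⟨13, 1540, -20, 6, 8, 0, -12, 0, 0⟩, ⟨10, 1534, -9, 3, 6, 0, 0, 0, 0⟩]⟩,
  ⟨[⟨0, -245, 0, -1, 1, 0, 0, 0, 0⟩, ⟨0, 270, 0, 1, -1, 0, 0, 0, 0⟩], [⟨35, 10740, 2, 0, 32, 0, 70, 0, 0⟩], [⟨71, 6210, -106, 36, 36, 0, -70, 0, 0⟩]⟩,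
  ⟨[⟨0, -93, 0, 0, -1, 1, 0, 0, 0⟩], [⟨25, 7190, 2, 0, 0, 48, 0, 24, 0⟩, ⟨25, 9740, 2, 0, 48, 22, 0, 2, 0⟩, ⟨38, 6810, -37, 0, 13, 24, 0, 0, 0⟩], [⟨51, 4490, -76, 0, 26, 26, 0, -50, 0⟩]⟩,
  ⟨[⟨0, -101, 0, -1, 1, 0, 0, 0, 0⟩, ⟨0, 103, 0, 1, -1, 0, 0, 0, 0⟩], [⟨3, 720, 2, 0, 0, 0, 6, 0, 0⟩], [⟨7, 880, -10, 4, 4, 0, -6, 0, 0⟩]⟩,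
  ⟨[⟨0, -114, 0, -1, 1, 0, 0, 0, 0⟩, ⟨0, 126, 0, 1, -1, 0, 0, 0, 0⟩], [⟨19, 5860, 2, 0, 16, 0, 38, 0, 0⟩], [⟨39, 3690, -58, 20, 20, 0, -38, 0, 0⟩]⟩]

def wg61 : List Wn := [
  ⟨[⟨0, -600, 0, 0, -1, 1, 0, 0, 0⟩], [⟨19, 5190, 2, 0, 0, 16, 0, 38, 0⟩], [⟨39, 3690, -58, 0, 20, 20, 0, -38, 0⟩]⟩,
  ⟨[⟨0, -23, 0, 0, -1, 1, 0, 0, 0⟩, ⟨0, 60, 0, 0, 1, -1, 0, 0, 0⟩], [⟨29, 8380, 2, 0, 56, 26, 0, 2, 0⟩], [⟨59, 5990, -88, 0, 30, 30, 0, -58, 0⟩]⟩,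
  ⟨[⟨0, -600, 0, -1, 1, 0, 0, 0, 0⟩], [⟨19, 5190, 2, 0, 16, 0, 38, 0, 0⟩], [⟨39, 3690, -58, 20, 20, 0, -38, 0, 0⟩]⟩,
  ⟨[⟨0, -103, 0, -1, 1, 0, 0, 0, 0⟩, ⟨0, 105, 0, 1, -1, 0, 0, 0, 0⟩], [⟨29, 10560, 2, 0, 26, 0, 54, 0, 0⟩], [⟨57, 4020, -86, 30, 28, 0, -54, 0, 0⟩]⟩,
  ⟨[⟨0, -100, 0, 0, -1, 1, 0, 0, 0⟩, ⟨0, 150, 0, 0, 1, -1, 0, 0, 0⟩], [⟨33, 11300, 2, 0, 0, 30, 0, 62, 0⟩], [⟨65, 5520, -98, 0, 34, 32, 0, -62, 0⟩]⟩,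
  ⟨[⟨0, -600, 0, 0, -1, 1, 0, 0, 0⟩], [⟨27, 9710, 2, 0, 0, 24, 0, 46, 0⟩], [⟨51, 2940, -78, 0, 28, 24, 0, -46, 0⟩]⟩,
  ⟨[⟨0, -300, 0, -1, 1, 0, 0, 0, 0⟩], [⟨16, 5160, 2, 0, 13, 0, 32, 0, 0⟩, ⟨24, 3708, -23, 8, 15, 0, 0, 0, 0⟩], [⟨32, 2240, -48, 16, 17, 0, -32, 0, 0⟩]⟩,
  ⟨[⟨0, 10, 0, 1, -1, 0, 0, 0, 0⟩], [⟨15, 4320, 2, 28, 12, 0, 2, 0, 0⟩], [⟨31, 2710, -46, 16, 16, 0, -30, 0, 0⟩]⟩,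
  ⟨[⟨0, -1200, 0, -1, 1, 0, 0, 0, 0⟩], [⟨9, 1790, 2, 0, 6, 0, 14, 0, 0⟩], [⟨17, 1450, -26, 10, 8, 0, -14, 0, 0⟩]⟩,
  ⟨[], [⟨19, 5720, 2, 0, 34, 0, 16, 0, 0⟩, ⟨19, 7590, 2, 34, 14, 0, 2, 0, 0⟩, ⟨28, 5140, -27, 10, 17, 0, 0, 0, 0⟩], [⟨37, 2890, -56, 20, 18, 0, -34, 0, 0⟩]⟩,
  ⟨[⟨0, -103, 0, -1, 1, 0, 0, 0, 0⟩, ⟨0, 105, 0, 1, -1, 0, 0, 0, 0⟩], [⟨19, 5660, 2, 0, 16, 0, 36, 0, 0⟩], [⟨37, 3760, -56, 18, 20, 0, -36, 0, 0⟩, ⟨28, 4689, -27, 9, 18, 0, 0, 0, 0⟩]⟩,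
  ⟨[⟨0, -200, 0, 0, -1, 1, 0, 0, 0⟩], [⟨15, 4680, 2, 0, 0, 12, 0, 26, 0⟩], [⟨29, 2470, -44, 0, 16, 14, 0, -26, 0⟩, ⟨22, 3430, -21, 0, 8, 13, 0, 0, 0⟩]⟩,
  ⟨[⟨0, -300, 0, -1, 1, 0, 0, 0, 0⟩], [⟨7, 1740, 2, 0, 4, 0, 14, 0, 0⟩], [⟨15, 1490, -22, 8, 8, 0, -14, 0, 0⟩]⟩,
  ⟨[⟨0, -105, 0, -1, 1, 0, 0, 0, 0⟩, ⟨0, 108, 0, 1, -1, 0, 0, 0, 0⟩], [⟨7, 760, 2, 0, 4, 0, 2, 0, 0⟩], [⟨9, 2020, -16, 8, 2, 0, -2, 0, 0⟩, ⟨8, 1384, -7, 4, 3, 0, 0, 0, 0⟩]⟩,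
  ⟨[⟨0, -180, 0, -1, 1, 0, 0, 0, 0⟩, ⟨0, 200, 0, 1, -1, 0, 0, 0, 0⟩], [⟨41, 13860, 2, 0, 38, 0, 78, 0, 0⟩], [⟨81, 6250, -122, 42, 40, 0, -78, 0, 0⟩]⟩,
  ⟨[⟨0, -108, 0, -1, 1, 0, 0, 0, 0⟩, ⟨0, 114, 0, 1, -1, 0, 0, 0, 0⟩], [⟨34, 12450, 2, 0, 31, 0, 68, 0, 0⟩], [⟨68, 4550, -102, 34, 35, 0, -68, 0, 0⟩]⟩]

def wg62 : List Wn := [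
  ⟨[⟨0, -93, 0, -1, 1, 0, 0, 0, 0⟩], [⟨47, 21220, 2, 0, 44, 0, 86, 0, 0⟩, ⟨47, 20190, 2, 88, 40, 0, 2, 0, 0⟩], [⟨91, 4830, -138, 48, 44, 0, -86, 0, 0⟩]⟩,
  ⟨[⟨0, -66, 0, -1, 1, 0, 0, 0, 0⟩, ⟨0, 76, 0, 1, -1, 0, 0, 0, 0⟩], [⟨13, 4130, 2, 22, 8, 0, 2, 0, 0⟩], [⟨25, 1990, -38, 14, 12, 0, -22, 0, 0⟩]⟩,
  ⟨[⟨0, -93, 0, -1, 1, 0, 0, 0, 0⟩], [⟨5, 1940, 2, 0, 6, 0, 2, 0, 0⟩, ⟨5, 2720, 2, 6, 0, 0, 2, 0, 0⟩], [⟨9, 990, -14, 6, 4, 0, -6, 0, 0⟩]⟩,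
  ⟨[⟨0, -450, 0, -1, 1, 0, 0, 0, 0⟩], [⟨10, 3700, 2, 0, 7, 0, 20, 0, 0⟩], [⟨20, 1590, -30, 10, 11, 0, -20, 0, 0⟩]⟩,
  ⟨[⟨0, -600, 0, -1, 1, 0, 0, 0, 0⟩], [⟨6, 1280, 2, 0, 3, 0, 10, 0, 0⟩], [⟨10, 1090, -16, 4, 7, 0, -10, 0, 0⟩, ⟨8, 1179, -7, 2, 5, 0, 0, 0, 0⟩]⟩,
  ⟨[⟨0, -220, 0, -1, 1, 0, 0, 0, 0⟩, ⟨0, 245, 0, 1, -1, 0, 0, 0, 0⟩], [⟨18, 5450, 2, 1, 14, 0, 32, 0, 0⟩, ⟨26, 4141, -25, 10, 15, 0, 0, 0, 0⟩], [⟨34, 2810, -52, 19, 16, 0, -32, 0, 0⟩]⟩,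
  ⟨[⟨0, -50, 0, -1, 1, 0, 0, 0, 0⟩, ⟨0, 66, 0, 1, -1, 0, 0, 0, 0⟩], [⟨9, 2790, 2, 14, 4, 0, 2, 0, 0⟩], [⟨17, 2140, -26, 10, 8, 0, -14, 0, 0⟩]⟩,
  ⟨[⟨0, -200, 0, -1, 1, 0, 0, 0, 0⟩, ⟨0, 220, 0, 1, -1, 0, 0, 0, 0⟩], [⟨22, 7140, 2, 0, 19, 0, 44, 0, 0⟩], [⟨44, 3360, -66, 22, 23, 0, -44, 0, 0⟩]⟩,
  ⟨[⟨0, -900, 0, -1, 1, 0, 0, 0, 0⟩], [⟨39, 10950, 2, 0, 36, 0, 78, 0, 0⟩], [⟨79, 7420, -118, 40, 40, 0, -78, 0, 0⟩]⟩,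
  ⟨[⟨0, -165, 0, -1, 1, 0, 0, 0, 0⟩, ⟨0, 180, 0, 1, -1, 0, 0, 0, 0⟩], [⟨6, 1460, 2, 0, 3, 0, 8, 0, 0⟩], [⟨10, 1100, -16, 6, 5, 0, -8, 0, 0⟩, ⟨8, 1267, -7, 3, 4, 0, 0, 0, 0⟩]⟩,
  ⟨[], [⟨25, 7190, 2, 0, 0, 48, 0, 24, 0⟩, ⟨25, 9740, 2, 0, 48, 22, 0, 2, 0⟩, ⟨38, 6810, -37, 0, 13, 24, 0, 0, 0⟩], [⟨51, 4490, -76, 0, 26, 26, 0, -50, 0⟩]⟩,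
  ⟨[⟨0, -101, 0, -1, 1, 0, 0, 0, 0⟩, ⟨0, 103, 0, 1, -1, 0, 0, 0, 0⟩], [⟨3, 530, 2, 0, 0, 0, 6, 0, 0⟩], [⟨7, 210, -10, 4, 4, 0, -6, 0, 0⟩]⟩,
  ⟨[⟨0, -500, 0, 0, -1, 1, 0, 0, 0⟩], [⟨19, 5220, 2, 0, 0, 16, 0, 38, 0⟩], [⟨39, 3690, -58, 0, 20, 20, 0, -38, 0⟩]⟩,
  ⟨[⟨0, -150, 0, 0, -1, 1, 0, 0, 0⟩, ⟨0, 200, 0, 0, 1, -1, 0, 0, 0⟩], [⟨39, 11990, 2, 0, 0, 36, 0, 78, 0⟩], [⟨79, 7420, -118, 0, 40, 40, 0, -78, 0⟩]⟩,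
  ⟨[⟨0, -450, 0, -1, 1, 0, 0, 0, 0⟩], [⟨19, 5230, 2, 0, 16, 0, 38, 0, 0⟩], [⟨39, 3690, -58, 20, 20, 0, -38, 0, 0⟩]⟩,
  ⟨[⟨0, -597, 0, -1, 1, 0, 0, 0, 0⟩], [⟨25, 10180, 2, 0, 22, 0, 48, 0, 0⟩, ⟨25, 9310, 2, 48, 20, 0, 2, 0, 0⟩, ⟨37, 6640, -36, 36, 0, 0, 0, 0, 0⟩], [⟨49, 3800, -74, 24, 26, 0, -48, 0, 0⟩]⟩]

def wg63 : List Wn := [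
  ⟨[⟨0, -138, 0, -1, 1, 0, 0, 0, 0⟩, ⟨0, 150, 0, 1, -1, 0, 0, 0, 0⟩], [⟨34, 12220, 2, 0, 31, 0, 68, 0, 0⟩], [⟨68, 4550, -102, 34, 35, 0, -68, 0, 0⟩]⟩,
  ⟨[⟨0, -500, 0, 0, -1, 1, 0, 0, 0⟩], [⟨27, 9740, 2, 0, 0, 24, 0, 46, 0⟩], [⟨51, 2930, -78, 0, 28, 24, 0, -46, 0⟩]⟩,
  ⟨[⟨0, -750, 0, -1, 1, 0, 0, 0, 0⟩, ⟨0, 825, 0, 1, -1, 0, 0, 0, 0⟩], [⟨3, 10, 2, 0, 0, 0, 2, 0, 0⟩], [⟨5, 1190, -8, 4, 2, 0, -2, 0, 0⟩, ⟨4, 596, -3, 2, 1, 0, 0, 0, 0⟩]⟩,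
  ⟨[⟨0, -150, 0, -1, 1, 0, 0, 0, 0⟩, ⟨0, 165, 0, 1, -1, 0, 0, 0, 0⟩], [⟨7, 2090, 2, 0, 4, 0, 10, 0, 0⟩], [⟨13, 1130, -20, 8, 6, 0, -10, 0, 0⟩, ⟨10, 1594, -9, 4, 5, 0, 0, 0, 0⟩]⟩,
  ⟨[⟨0, -1350, 0, -1, 1, 0, 0, 0, 0⟩], [⟨16, 5030, 2, 0, 13, 0, 32, 0, 0⟩], [⟨32, 2240, -48, 16, 17, 0, -32, 0, 0⟩, ⟨24, 3624, -23, 8, 15, 0, 0, 0, 0⟩]⟩,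
  ⟨[⟨0, -126, 0, -1, 1, 0, 0, 0, 0⟩, ⟨0, 138, 0, 1, -1, 0, 0, 0, 0⟩], [⟨13, 4260, 2, 0, 10, 0, 22, 0, 0⟩], [⟨25, 2040, -38, 14, 12, 0, -22, 0, 0⟩]⟩,
  ⟨[⟨0, -1050, 0, -1, 1, 0, 0, 0, 0⟩], [⟨9, 1790, 2, 0, 6, 0, 14, 0, 0⟩], [⟨17, 1450, -26, 10, 8, 0, -14, 0, 0⟩]⟩,
  ⟨[⟨0, -220, 0, -1, 1, 0, 0, 0, 0⟩, ⟨0, 245, 0, 1, -1, 0, 0, 0, 0⟩], [⟨5, 1330, 2, 0, 2, 0, 6, 0, 0⟩], [⟨9, 870, -14, 6, 4, 0, -6, 0, 0⟩]⟩,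
  ⟨[⟨0, -1350, 0, -1, 1, 0, 0, 0, 0⟩], [⟨7, 2340, 2, 0, 4, 0, 14, 0, 0⟩], [⟨15, 1680, -22, 8, 8, 0, -14, 0, 0⟩]⟩,
  ⟨[⟨0, -150, 0, -1, 1, 0, 0, 0, 0⟩, ⟨0, 165, 0, 1, -1, 0, 0, 0, 0⟩], [⟨19, 5690, 2, 0, 16, 0, 38, 0, 0⟩], [⟨39, 3690, -58, 20, 20, 0, -38, 0, 0⟩]⟩,
  ⟨[], [⟨35, 13560, 2, 0, 0, 32, 0, 70, 0⟩, ⟨35, 12930, 2, 0, 68, 32, 0, 2, 0⟩], [⟨71, 6210, -106, 0, 36, 36, 0, -70, 0⟩]⟩,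
  ⟨[⟨0, -300, 0, -1, 1, 0, 0, 0, 0⟩], [⟨10, 3750, 2, 0, 7, 0, 20, 0, 0⟩], [⟨20, 1590, -30, 10, 11, 0, -20, 0, 0⟩]⟩,
  ⟨[⟨0, -200, 0, 0, -1, 1, 0, 0, 0⟩], [⟨22, 6640, 2, 0, 1, 18, 0, 42, 0⟩, ⟨32, 5045, -31, 0, 12, 19, 0, 0, 0⟩], [⟨42, 3430, -64, 0, 23, 20, 0, -42, 0⟩]⟩,
  ⟨[⟨0, -138, 0, -1, 1, 0, 0, 0, 0⟩, ⟨0, 150, 0, 1, -1, 0, 0, 0, 0⟩], [⟨7, 1920, 2, 0, 4, 0, 14, 0, 0⟩], [⟨15, 1490, -22, 8, 8, 0, -14, 0, 0⟩]⟩,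
  ⟨[⟨0, -105, 0, -1, 1, 0, 0, 0, 0⟩, ⟨0, 108, 0, 1, -1, 0, 0, 0, 0⟩], [⟨5, 1490, 2, 0, 2, 0, 6, 0, 0⟩], [⟨9, 810, -14, 6, 4, 0, -6, 0, 0⟩]⟩,
  ⟨[⟨0, -750, 0, -1, 1, 0, 0, 0, 0⟩], [⟨39, 10960, 2, 0, 36, 0, 78, 0, 0⟩], [⟨79, 7420, -118, 40, 40, 0, -78, 0, 0⟩]⟩]

def wg64 : List Wn := [
  ⟨[], [⟨3, 1100, 2, 0, 4, 0, 2, 0, 0⟩, ⟨3, 1940, 2, 4, 0, 0, 2, 0, 0⟩], [⟨7, 1060, -10, 4, 4, 0, -6, 0, 0⟩]⟩,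
  ⟨[⟨0, -108, 0, -1, 1, 0, 0, 0, 0⟩, ⟨0, 114, 0, 1, -1, 0, 0, 0, 0⟩], [⟨15, 5670, 2, 0, 12, 0, 18, 0, 0⟩], [⟨25, 1340, -40, 16, 10, 0, -18, 0, 0⟩, ⟨20, 3486, -19, 8, 11, 0, 0, 0, 0⟩]⟩,
  ⟨[⟨0, -400, 0, 0, -1, 1, 0, 0, 0⟩], [⟨19, 5260, 2, 0, 0, 16, 0, 38, 0⟩], [⟨39, 3690, -58, 0, 20, 20, 0, -38, 0⟩]⟩,
  ⟨[⟨0, -18, 0, -1, 1, 0, 0, 0, 0⟩, ⟨0, 27, 0, 1, -1, 0, 0, 0, 0⟩], [⟨25, 7710, 2, 48, 22, 0, 2, 0, 0⟩], [⟨51, 4320, -76, 26, 26, 0, -50, 0, 0⟩]⟩,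
  ⟨[⟨0, -300, 0, -1, 1, 0, 0, 0, 0⟩], [⟨19, 5350, 2, 0, 16, 0, 38, 0, 0⟩], [⟨39, 3690, -58, 20, 20, 0, -38, 0, 0⟩]⟩,
  ⟨[⟨0, -201, 0, -1, 1, 0, 0, 0, 0⟩], [⟨7, 1640, 2, 0, 8, 0, 2, 0, 0⟩, ⟨7, 2390, 2, 8, 0, 0, 2, 0, 0⟩], [⟨11, 1310, -18, 8, 4, 0, -6, 0, 0⟩]⟩,
  ⟨[⟨0, -138, 0, -1, 1, 0, 0, 0, 0⟩, ⟨0, 150, 0, 1, -1, 0, 0, 0, 0⟩], [⟨3, 280, 2, 0, 0, 0, 4, 0, 0⟩], [⟨5, 880, -8, 2, 4, 0, -4, 0, 0⟩, ⟨4, 573, -3, 1, 2, 0, 0, 0, 0⟩]⟩,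
  ⟨[⟨0, -400, 0, 0, -1, 1, 0, 0, 0⟩], [⟨27, 9800, 2, 0, 0, 24, 0, 46, 0⟩], [⟨51, 2910, -78, 0, 28, 24, 0, -46, 0⟩]⟩,
  ⟨[⟨0, -270, 0, -1, 1, 0, 0, 0, 0⟩, ⟨0, 300, 0, 1, -1, 0, 0, 0, 0⟩], [⟨29, 9790, 2, 0, 26, 0, 54, 0, 0⟩], [⟨57, 4100, -86, 30, 28, 0, -54, 0, 0⟩]⟩,
  ⟨[⟨0, -114, 0, -1, 1, 0, 0, 0, 0⟩, ⟨0, 126, 0, 1, -1, 0, 0, 0, 0⟩], [⟨18, 5740, 2, 0, 15, 0, 34, 0, 0⟩], [⟨34, 2860, -52, 16, 19, 0, -34, 0, 0⟩, ⟨26, 4268, -25, 8, 17, 0, 0, 0, 0⟩]⟩,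
  ⟨[⟨0, -900, 0, -1, 1, 0, 0, 0, 0⟩], [⟨9, 1790, 2, 0, 6, 0, 14, 0, 0⟩], [⟨17, 1450, -26, 10, 8, 0, -14, 0, 0⟩]⟩,
  ⟨[⟨0, -138, 0, -1, 1, 0, 0, 0, 0⟩, ⟨0, 150, 0, 1, -1, 0, 0, 0, 0⟩], [⟨15, 5580, 2, 0, 12, 0, 18, 0, 0⟩], [⟨25, 1390, -40, 16, 10, 0, -18, 0, 0⟩, ⟨20, 3460, -19, 8, 11, 0, 0, 0, 0⟩]⟩,
  ⟨[⟨0, -220, 0, -1, 1, 0, 0, 0, 0⟩, ⟨0, 245, 0, 1, -1, 0, 0, 0, 0⟩], [⟨5, 1150, 2, 0, 2, 0, 6, 0, 0⟩], [⟨9, 210, -14, 6, 4, 0, -6, 0, 0⟩]⟩,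
  ⟨[⟨0, -825, 0, -1, 1, 0, 0, 0, 0⟩, ⟨0, 900, 0, 1, -1, 0, 0, 0, 0⟩], [⟨13, 3220, 2, 0, 10, 0, 26, 0, 0⟩], [⟨27, 2790, -40, 14, 14, 0, -26, 0, 0⟩, ⟨20, 2997, -19, 7, 12, 0, 0, 0, 0⟩]⟩,
  ⟨[⟨0, -1200, 0, -1, 1, 0, 0, 0, 0⟩], [⟨7, 2340, 2, 0, 4, 0, 14, 0, 0⟩], [⟨15, 1680, -22, 8, 8, 0, -14, 0, 0⟩]⟩,
  ⟨[⟨0, -1350, 0, -1, 1, 0, 0, 0, 0⟩], [⟨26, 7700, 2, 0, 23, 0, 52, 0, 0⟩], [⟨52, 4320, -78, 26, 27, 0, -52, 0, 0⟩]⟩]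

def wg65 : List Wn := [
  ⟨[⟨0, -1350, 0, -1, 1, 0, 0, 0, 0⟩], [⟨29, 9470, 2, 0, 26, 0, 54, 0, 0⟩], [⟨57, 4140, -86, 30, 28, 0, -54, 0, 0⟩]⟩,
  ⟨[⟨0, -300, 0, -1, 1, 0, 0, 0, 0⟩], [⟨6, 1300, 2, 0, 3, 0, 10, 0, 0⟩], [⟨10, 1090, -16, 4, 7, 0, -10, 0, 0⟩, ⟨8, 1179, -7, 2, 5, 0, 0, 0, 0⟩]⟩,
  ⟨[⟨0, -138, 0, -1, 1, 0, 0, 0, 0⟩, ⟨0, 150, 0, 1, -1, 0, 0, 0, 0⟩], [⟨7, 1730, 2, 0, 4, 0, 14, 0, 0⟩], [⟨15, 830, -22, 8, 8, 0, -14, 0, 0⟩]⟩,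
  ⟨[⟨0, -165, 0, -1, 1, 0, 0, 0, 0⟩, ⟨0, 180, 0, 1, -1, 0, 0, 0, 0⟩], [⟨13, 4160, 2, 0, 10, 0, 22, 0, 0⟩], [⟨25, 2060, -38, 14, 12, 0, -22, 0, 0⟩]⟩,
  ⟨[⟨0, -600, 0, 0, -1, 1, 0, 0, 0⟩], [⟨39, 10990, 2, 0, 0, 36, 0, 78, 0⟩], [⟨79, 7420, -118, 0, 40, 40, 0, -78, 0⟩]⟩,
  ⟨[⟨0, -18, 0, -1, 1, 0, 0, 0, 0⟩, ⟨0, 27, 0, 1, -1, 0, 0, 0, 0⟩], [⟨3, 80, 2, 2, -2, 0, 2, 0, 0⟩, ⟨4, 550, -3, 3, 0, 0, 0, 0, 0⟩], [⟨5, 1010, -8, 4, 2, 0, -2, 0, 0⟩]⟩,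
  ⟨[⟨0, -600, 0, -1, 1, 0, 0, 0, 0⟩], [⟨39, 10990, 2, 0, 36, 0, 78, 0, 0⟩], [⟨79, 7420, -118, 40, 40, 0, -78, 0, 0⟩]⟩,
  ⟨[⟨0, 10, 0, 1, -1, 0, 0, 0, 0⟩], [⟨11, 3670, 2, 18, 6, 0, 2, 0, 0⟩], [⟨21, 1050, -32, 12, 10, 0, -18, 0, 0⟩]⟩,
  ⟨[], [⟨3, 810, 2, 0, 0, 0, 6, 0, 0⟩, ⟨3, 810, 2, 4, 0, 0, 2, 0, 0⟩], [⟨7, 880, -10, 4, 4, 0, -6, 0, 0⟩]⟩,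
  ⟨[⟨0, -101, 0, -1, 1, 0, 0, 0, 0⟩, ⟨0, 103, 0, 1, -1, 0, 0, 0, 0⟩], [⟨41, 14560, 2, 0, 38, 0, 78, 0, 0⟩], [⟨81, 6210, -122, 42, 40, 0, -78, 0, 0⟩]⟩,
  ⟨[⟨0, -101, 0, -1, 1, 0, 0, 0, 0⟩, ⟨0, 103, 0, 1, -1, 0, 0, 0, 0⟩], [⟨4, 200, 2, 0, 1, 0, 8, 0, 0⟩, ⟨6, 520, -5, 2, 3, 0, 0, 0, 0⟩], [⟨8, 830, -12, 4, 5, 0, -8, 0, 0⟩]⟩,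
  ⟨[⟨0, -300, 0, 0, -1, 1, 0, 0, 0⟩], [⟨19, 5350, 2, 0, 0, 16, 0, 38, 0⟩], [⟨39, 3690, -58, 0, 20, 20, 0, -38, 0⟩]⟩,
  ⟨[], [⟨21, 8160, 2, 0, 18, 0, 38, 0, 0⟩, ⟨21, 7330, 2, 38, 16, 0, 2, 0, 0⟩], [⟨41, 3650, -62, 22, 20, 0, -38, 0, 0⟩]⟩,
  ⟨[⟨0, -103, 0, -1, 1, 0, 0, 0, 0⟩, ⟨0, 105, 0, 1, -1, 0, 0, 0, 0⟩], [⟨7, 2090, 2, 0, 4, 0, 10, 0, 0⟩], [⟨13, 1110, -20, 8, 6, 0, -10, 0, 0⟩, ⟨10, 1584, -9, 4, 5, 0, 0, 0, 0⟩]⟩,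
  ⟨[⟨0, -101, 0, -1, 1, 0, 0, 0, 0⟩, ⟨0, 103, 0, 1, -1, 0, 0, 0, 0⟩], [⟨11, 2940, 2, 0, 8, 0, 22, 0, 0⟩], [⟨23, 2730, -34, 12, 12, 0, -22, 0, 0⟩]⟩,
  ⟨[⟨0, -103, 0, -1, 1, 0, 0, 0, 0⟩, ⟨0, 105, 0, 1, -1, 0, 0, 0, 0⟩], [⟨22, 7630, 2, 0, 19, 0, 44, 0, 0⟩], [⟨44, 3360, -66, 22, 23, 0, -44, 0, 0⟩]⟩]

def wg66 : List Wn := [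
  ⟨[⟨0, -300, 0, 0, -1, 1, 0, 0, 0⟩], [⟨27, 9920, 2, 0, 0, 24, 0, 46, 0⟩], [⟨51, 2880, -78, 0, 28, 24, 0, -46, 0⟩]⟩,
  ⟨[⟨0, -597, 0, -1, 1, 0, 0, 0, 0⟩], [⟨71, 23530, 2, 0, 136, 0, 68, 0, 0⟩, ⟨71, 28130, 2, 138, 64, 0, 2, 0, 0⟩], [⟨139, 9920, -210, 70, 70, 0, -136, 0, 0⟩]⟩,
  ⟨[⟨0, -92, 0, -1, 1, 0, 0, 0, 0⟩, ⟨0, 99, 0, 1, -1, 0, 0, 0, 0⟩], [⟨31, 11180, 2, 0, 28, 0, 62, 0, 0⟩], [⟨63, 5570, -94, 32, 32, 0, -62, 0, 0⟩]⟩,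
  ⟨[⟨0, -108, 0, -1, 1, 0, 0, 0, 0⟩, ⟨0, 114, 0, 1, -1, 0, 0, 0, 0⟩], [⟨7, 2070, 2, 0, 4, 0, 14, 0, 0⟩], [⟨15, 1490, -22, 8, 8, 0, -14, 0, 0⟩]⟩,
  ⟨[⟨0, -126, 0, -1, 1, 0, 0, 0, 0⟩, ⟨0, 138, 0, 1, -1, 0, 0, 0, 0⟩], [⟨14, 4640, 2, 0, 11, 0, 24, 0, 0⟩], [⟨26, 1960, -40, 14, 13, 0, -24, 0, 0⟩, ⟨20, 3273, -19, 7, 12, 0, 0, 0, 0⟩]⟩,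
  ⟨[⟨0, -800, 0, 0, -1, 1, 0, 0, 0⟩], [⟨9, 1790, 2, 0, 0, 6, 0, 14, 0⟩], [⟨17, 1450, -26, 0, 10, 8, 0, -14, 0⟩]⟩,
  ⟨[⟨0, -750, 0, -1, 1, 0, 0, 0, 0⟩], [⟨9, 1790, 2, 0, 6, 0, 14, 0, 0⟩], [⟨17, 1450, -26, 10, 8, 0, -14, 0, 0⟩]⟩,
  ⟨[⟨0, -270, 0, -1, 1, 0, 0, 0, 0⟩, ⟨0, 300, 0, 1, -1, 0, 0, 0, 0⟩], [⟨21, 5730, 2, 0, 18, 0, 42, 0, 0⟩, ⟨32, 5037, -31, 11, 20, 0, 0, 0, 0⟩], [⟨43, 4330, -64, 22, 22, 0, -42, 0, 0⟩]⟩,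
  ⟨[⟨0, -1350, 0, -1, 1, 0, 0, 0, 0⟩], [⟨13, 3220, 2, 0, 10, 0, 24, 0, 0⟩], [⟨25, 2450, -38, 14, 12, 0, -24, 0, 0⟩]⟩,
  ⟨[⟨0, -220, 0, -1, 1, 0, 0, 0, 0⟩, ⟨0, 245, 0, 1, -1, 0, 0, 0, 0⟩], [⟨5, 1990, 2, 0, 2, 0, 6, 0, 0⟩], [⟨9, 1060, -14, 6, 4, 0, -6, 0, 0⟩]⟩,
  ⟨[⟨0, -1200, 0, 0, -1, 1, 0, 0, 0⟩], [⟨7, 2340, 2, 0, 0, 4, 0, 14, 0⟩], [⟨15, 1680, -22, 0, 8, 8, 0, -14, 0⟩]⟩,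
  ⟨[], [⟨9, 2670, 2, 0, 14, 0, 6, 0, 0⟩, ⟨9, 3750, 2, 14, 4, 0, 2, 0, 0⟩], [⟨17, 2100, -26, 10, 8, 0, -14, 0, 0⟩]⟩,
  ⟨[⟨0, -180, 0, -1, 1, 0, 0, 0, 0⟩, ⟨0, 200, 0, 1, -1, 0, 0, 0, 0⟩], [⟨3, 260, 2, 0, 0, 0, 4, 0, 0⟩], [⟨5, 880, -8, 2, 4, 0, -4, 0, 0⟩, ⟨4, 561, -3, 1, 2, 0, 0, 0, 0⟩]⟩,
  ⟨[⟨0, -1200, 0, -1, 1, 0, 0, 0, 0⟩], [⟨26, 7700, 2, 0, 23, 0, 52, 0, 0⟩], [⟨52, 4320, -78, 26, 27, 0, -52, 0, 0⟩]⟩,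
  ⟨[⟨0, -10, 0, -1, 1, 0, 0, 0, 0⟩, ⟨0, 18, 0, 1, -1, 0, 0, 0, 0⟩], [⟨39, 11290, 2, 76, 36, 0, 2, 0, 0⟩], [⟨79, 7420, -118, 40, 40, 0, -78, 0, 0⟩]⟩,
  ⟨[⟨0, -180, 0, -1, 1, 0, 0, 0, 0⟩, ⟨0, 200, 0, 1, -1, 0, 0, 0, 0⟩], [⟨34, 11980, 2, 0, 31, 0, 68, 0, 0⟩], [⟨68, 4550, -102, 34, 35, 0, -68, 0, 0⟩]⟩]

def wg67 : List Wn := [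
  ⟨[⟨0, -1200, 0, -1, 1, 0, 0, 0, 0⟩], [⟨29, 9470, 2, 0, 26, 0, 54, 0, 0⟩], [⟨57, 4140, -86, 30, 28, 0, -54, 0, 0⟩]⟩,
  ⟨[⟨0, -105, 0, -1, 1, 0, 0, 0, 0⟩, ⟨0, 108, 0, 1, -1, 0, 0, 0, 0⟩], [⟨13, 4370, 2, 0, 10, 0, 22, 0, 0⟩], [⟨25, 2020, -38, 14, 12, 0, -22, 0, 0⟩]⟩,
  ⟨[⟨0, -38, 0, -1, 1, 0, 0, 0, 0⟩, ⟨0, 50, 0, 1, -1, 0, 0, 0, 0⟩], [⟨35, 11040, 2, 68, 32, 0, 2, 0, 0⟩], [⟨71, 6210, -106, 36, 36, 0, -70, 0, 0⟩]⟩,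
  ⟨[⟨0, -138, 0, -1, 1, 0, 0, 0, 0⟩, ⟨0, 150, 0, 1, -1, 0, 0, 0, 0⟩], [⟨7, 2580, 2, 0, 4, 0, 14, 0, 0⟩], [⟨15, 1680, -22, 8, 8, 0, -14, 0, 0⟩]⟩,
  ⟨[⟨0, -159, 0, 0, -1, 1, 0, 0, 0⟩], [⟨9, 3950, 2, 0, 0, 6, 0, 14, 0⟩, ⟨9, 3110, 2, 0, 14, 4, 0, 2, 0⟩], [⟨17, 2210, -26, 0, 10, 8, 0, -14, 0⟩]⟩,
  ⟨[⟨0, -500, 0, 0, -1, 1, 0, 0, 0⟩], [⟨39, 11030, 2, 0, 0, 36, 0, 78, 0⟩], [⟨79, 7420, -118, 0, 40, 40, 0, -78, 0⟩]⟩,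
  ⟨[⟨0, -150, 0, -1, 1, 0, 0, 0, 0⟩, ⟨0, 165, 0, 1, -1, 0, 0, 0, 0⟩], [⟨18, 5630, 2, 0, 15, 0, 34, 0, 0⟩], [⟨34, 2860, -52, 16, 19, 0, -34, 0, 0⟩, ⟨26, 4213, -25, 8, 17, 0, 0, 0, 0⟩]⟩,
  ⟨[⟨0, -450, 0, -1, 1, 0, 0, 0, 0⟩], [⟨39, 11070, 2, 0, 36, 0, 78, 0, 0⟩], [⟨79, 7420, -118, 40, 40, 0, -78, 0, 0⟩]⟩,
  ⟨[⟨0, 10, 0, 1, -1, 0, 0, 0, 0⟩], [⟨11, 3490, 2, 18, 6, 0, 2, 0, 0⟩], [⟨21, 390, -32, 12, 10, 0, -18, 0, 0⟩]⟩,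
  ⟨[], [⟨3, 620, 2, 0, 0, 0, 6, 0, 0⟩, ⟨3, 620, 2, 4, 0, 0, 2, 0, 0⟩], [⟨7, 210, -10, 4, 4, 0, -6, 0, 0⟩]⟩,
  ⟨[⟨0, -900, 0, -1, 1, 0, 0, 0, 0⟩], [⟨25, 7950, 2, 0, 22, 0, 48, 0, 0⟩], [⟨49, 3630, -74, 24, 26, 0, -48, 0, 0⟩]⟩,
  ⟨[⟨0, -93, 0, 0, -1, 1, 0, 0, 0⟩], [⟨5, 2920, 2, 0, 0, 2, 0, 6, 0⟩, ⟨5, 2080, 2, 0, 6, 0, 0, 2, 0⟩], [⟨9, 990, -14, 0, 6, 4, 0, -6, 0⟩]⟩,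
  ⟨[⟨0, -200, 0, 0, -1, 1, 0, 0, 0⟩], [⟨19, 5540, 2, 0, 0, 16, 0, 38, 0⟩], [⟨39, 3690, -58, 0, 20, 20, 0, -38, 0⟩]⟩,
  ⟨[⟨0, -133, 0, -1, 1, 0, 0, 0, 0⟩], [⟨7, 1640, 2, 0, 8, 0, 2, 0, 0⟩, ⟨7, 2390, 2, 8, 0, 0, 2, 0, 0⟩], [⟨11, 1260, -18, 8, 4, 0, -6, 0, 0⟩]⟩,
  ⟨[⟨0, -23, 0, 0, -1, 1, 0, 0, 0⟩, ⟨0, 60, 0, 0, 1, -1, 0, 0, 0⟩], [⟨43, 15530, 2, 0, 80, 36, 0, 2, 0⟩], [⟨83, 5090, -126, 0, 44, 40, 0, -78, 0⟩]⟩,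
  ⟨[⟨0, -101, 0, -1, 1, 0, 0, 0, 0⟩, ⟨0, 103, 0, 1, -1, 0, 0, 0, 0⟩], [⟨11, 2760, 2, 0, 8, 0, 22, 0, 0⟩], [⟨23, 2070, -34, 12, 12, 0, -22, 0, 0⟩]⟩]

def wg68 : List Wn := [
  ⟨[⟨0, -200, 0, 0, -1, 1, 0, 0, 0⟩], [⟨27, 10160, 2, 0, 0, 24, 0, 46, 0⟩], [⟨51, 2830, -78, 0, 28, 24, 0, -46, 0⟩]⟩,
  ⟨[⟨0, -108, 0, -1, 1, 0, 0, 0, 0⟩, ⟨0, 114, 0, 1, -1, 0, 0, 0, 0⟩], [⟨7, 1890, 2, 0, 4, 0, 14, 0, 0⟩], [⟨15, 830, -22, 8, 8, 0, -14, 0, 0⟩]⟩,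
  ⟨[⟨0, -600, 0, -1, 1, 0, 0, 0, 0⟩], [⟨9, 1800, 2, 0, 6, 0, 14, 0, 0⟩], [⟨17, 1440, -26, 10, 8, 0, -14, 0, 0⟩]⟩,
  ⟨[], [⟨19, 8520, 2, 0, 16, 0, 30, 0, 0⟩, ⟨19, 6170, 2, 12, 32, 0, 2, 0, 0⟩], [⟨35, 1940, -54, 20, 16, 0, -30, 0, 0⟩]⟩,
  ⟨[⟨0, -180, 0, -1, 1, 0, 0, 0, 0⟩, ⟨0, 200, 0, 1, -1, 0, 0, 0, 0⟩], [⟨7, 1840, 2, 0, 4, 0, 14, 0, 0⟩], [⟨15, 1490, -22, 8, 8, 0, -14, 0, 0⟩]⟩,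
  ⟨[⟨0, -150, 0, 0, -1, 1, 0, 0, 0⟩, ⟨0, 200, 0, 0, 1, -1, 0, 0, 0⟩], [⟨13, 4530, 2, 0, 0, 10, 0, 18, 0⟩, ⟨18, 3078, -17, 0, 7, 10, 0, 0, 0⟩], [⟨23, 1570, -36, 0, 14, 10, 0, -18, 0⟩]⟩,
  ⟨[⟨0, -1200, 0, -1, 1, 0, 0, 0, 0⟩], [⟨13, 3220, 2, 0, 10, 0, 24, 0, 0⟩], [⟨25, 2450, -38, 14, 12, 0, -24, 0, 0⟩]⟩,
  ⟨[⟨0, -108, 0, -1, 1, 0, 0, 0, 0⟩, ⟨0, 114, 0, 1, -1, 0, 0, 0, 0⟩], [⟨3, 310, 2, 0, 0, 0, 4, 0, 0⟩], [⟨5, 880, -8, 2, 4, 0, -4, 0, 0⟩, ⟨4, 589, -3, 1, 2, 0, 0, 0, 0⟩]⟩,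
  ⟨[⟨0, -900, 0, -1, 1, 0, 0, 0, 0⟩], [⟨7, 2340, 2, 0, 4, 0, 14, 0, 0⟩], [⟨15, 1680, -22, 8, 8, 0, -14, 0, 0⟩]⟩,
  ⟨[⟨0, -597, 0, -1, 1, 0, 0, 0, 0⟩], [⟨55, 23870, 2, 0, 52, 0, 102, 0, 0⟩, ⟨55, 22840, 2, 104, 48, 0, 2, 0, 0⟩], [⟨107, 6830, -162, 56, 52, 0, -102, 0, 0⟩]⟩,
  ⟨[⟨0, -27, 0, -1, 1, 0, 0, 0, 0⟩, ⟨0, 38, 0, 1, -1, 0, 0, 0, 0⟩], [⟨17, 5660, 2, 30, 12, 0, 2, 0, 0⟩], [⟨33, 2180, -50, 18, 16, 0, -30, 0, 0⟩]⟩,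
  ⟨[⟨0, -1050, 0, -1, 1, 0, 0, 0, 0⟩], [⟨26, 7700, 2, 0, 23, 0, 52, 0, 0⟩], [⟨52, 4320, -78, 26, 27, 0, -52, 0, 0⟩]⟩,
  ⟨[⟨0, -1050, 0, -1, 1, 0, 0, 0, 0⟩], [⟨29, 9470, 2, 0, 26, 0, 54, 0, 0⟩], [⟨57, 4140, -86, 30, 28, 0, -54, 0, 0⟩]⟩,
  ⟨[⟨0, -200, 0, -1, 1, 0, 0, 0, 0⟩, ⟨0, 220, 0, 1, -1, 0, 0, 0, 0⟩], [⟨7, 2040, 2, 0, 4, 0, 10, 0, 0⟩], [⟨13, 1160, -20, 8, 6, 0, -10, 0, 0⟩, ⟨10, 1584, -9, 4, 5, 0, 0, 0, 0⟩]⟩,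
  ⟨[⟨0, -159, 0, 0, -1, 1, 0, 0, 0⟩], [⟨39, 14550, 2, 0, 0, 72, 0, 34, 0⟩, ⟨39, 17670, 2, 0, 72, 32, 0, 2, 0⟩], [⟨75, 3660, -114, 0, 40, 36, 0, -70, 0⟩]⟩,
  ⟨[], [⟨31, 13500, 2, 0, 28, 0, 54, 0, 0⟩, ⟨31, 12470, 2, 56, 24, 0, 2, 0, 0⟩], [⟨59, 3580, -90, 32, 28, 0, -54, 0, 0⟩]⟩]

def wg69 : List Wn := [
  ⟨[⟨0, -138, 0, -1, 1, 0, 0, 0, 0⟩, ⟨0, 150, 0, 1, -1, 0, 0, 0, 0⟩], [⟨8, 1950, 2, 0, 5, 0, 16, 0, 0⟩, ⟨12, 1824, -11, 4, 7, 0, 0, 0, 0⟩], [⟨16, 1690, -24, 8, 9, 0, -16, 0, 0⟩]⟩,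
  ⟨[⟨0, -165, 0, -1, 1, 0, 0, 0, 0⟩, ⟨0, 180, 0, 1, -1, 0, 0, 0, 0⟩], [⟨14, 4550, 2, 0, 11, 0, 24, 0, 0⟩], [⟨26, 1980, -40, 14, 13, 0, -24, 0, 0⟩, ⟨20, 3243, -19, 7, 12, 0, 0, 0, 0⟩]⟩,
  ⟨[⟨0, -400, 0, 0, -1, 1, 0, 0, 0⟩], [⟨39, 11130, 2, 0, 0, 36, 0, 78, 0⟩], [⟨79, 7420, -118, 0, 40, 40, 0, -78, 0⟩]⟩,
  ⟨[⟨0, -200, 0, -1, 1, 0, 0, 0, 0⟩, ⟨0, 220, 0, 1, -1, 0, 0, 0, 0⟩], [⟨22, 7010, 2, 1, 18, 0, 44, 0, 0⟩], [⟨44, 3360, -66, 23, 22, 0, -44, 0, 0⟩]⟩,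
  ⟨[⟨0, -300, 0, -1, 1, 0, 0, 0, 0⟩], [⟨39, 11310, 2, 0, 36, 0, 78, 0, 0⟩], [⟨79, 7420, -118, 40, 40, 0, -78, 0, 0⟩]⟩,
  ⟨[⟨0, 10, 0, 1, -1, 0, 0, 0, 0⟩], [⟨11, 4340, 2, 18, 6, 0, 2, 0, 0⟩], [⟨21, 1240, -32, 12, 10, 0, -18, 0, 0⟩]⟩,
  ⟨[], [⟨3, 1470, 2, 0, 0, 0, 6, 0, 0⟩, ⟨3, 1470, 2, 4, 0, 0, 2, 0, 0⟩], [⟨7, 1060, -10, 4, 4, 0, -6, 0, 0⟩]⟩,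
  ⟨[⟨0, -99, 0, -1, 1, 0, 0, 0, 0⟩, ⟨0, 101, 0, 1, -1, 0, 0, 0, 0⟩], [⟨15, 5570, 2, 0, 12, 0, 20, 0, 0⟩], [⟨25, 1460, -40, 14, 12, 0, -20, 0, 0⟩, ⟨20, 3502, -19, 7, 12, 0, 0, 0, 0⟩]⟩,
  ⟨[⟨0, -108, 0, -1, 1, 0, 0, 0, 0⟩, ⟨0, 114, 0, 1, -1, 0, 0, 0, 0⟩], [⟨31, 10140, 2, 0, 28, 0, 62, 0, 0⟩], [⟨63, 5570, -94, 32, 32, 0, -62, 0, 0⟩]⟩,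
  ⟨[⟨0, -165, 0, -1, 1, 0, 0, 0, 0⟩, ⟨0, 180, 0, 1, -1, 0, 0, 0, 0⟩], [⟨6, 1400, 2, 1, 2, 0, 8, 0, 0⟩, ⟨8, 1222, -7, 4, 3, 0, 0, 0, 0⟩], [⟨10, 1040, -16, 7, 4, 0, -8, 0, 0⟩]⟩,
  ⟨[], [⟨5, 2920, 2, 0, 0, 2, 0, 6, 0⟩, ⟨5, 2080, 2, 0, 6, 0, 0, 2, 0⟩], [⟨9, 910, -14, 0, 6, 4, 0, -6, 0⟩]⟩,
  ⟨[⟨0, -180, 0, -1, 1, 0, 0, 0, 0⟩, ⟨0, 200, 0, 1, -1, 0, 0, 0, 0⟩], [⟨15, 5480, 2, 0, 12, 0, 18, 0, 0⟩], [⟨25, 1440, -40, 16, 10, 0, -18, 0, 0⟩, ⟨20, 3435, -19, 8, 11, 0, 0, 0, 0⟩]⟩,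
  ⟨[⟨0, -597, 0, -1, 1, 0, 0, 0, 0⟩], [⟨73, 28750, 2, 0, 70, 0, 142, 0, 0⟩, ⟨73, 27910, 2, 142, 68, 0, 2, 0, 0⟩], [⟨145, 11920, -218, 74, 72, 0, -142, 0, 0⟩]⟩,
  ⟨[⟨0, -270, 0, -1, 1, 0, 0, 0, 0⟩, ⟨0, 300, 0, 1, -1, 0, 0, 0, 0⟩], [⟨10, 2840, 2, 1, 6, 0, 16, 0, 0⟩, ⟨14, 2148, -13, 6, 7, 0, 0, 0, 0⟩], [⟨18, 1440, -28, 11, 8, 0, -16, 0, 0⟩]⟩,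
  ⟨[⟨0, -93, 0, -1, 1, 0, 0, 0, 0⟩], [⟨7, 1640, 2, 0, 8, 0, 2, 0, 0⟩, ⟨7, 2390, 2, 8, 0, 0, 2, 0, 0⟩], [⟨11, 1210, -18, 8, 4, 0, -6, 0, 0⟩]⟩,
  ⟨[⟨0, -200, 0, -1, 1, 0, 0, 0, 0⟩, ⟨0, 220, 0, 1, -1, 0, 0, 0, 0⟩], [⟨19, 5540, 2, 0, 16, 0, 38, 0, 0⟩], [⟨39, 3690, -58, 20, 20, 0, -38, 0, 0⟩]⟩]

def wg70 : List Wn := [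
  ⟨[⟨0, -93, 0, 0, -1, 1, 0, 0, 0⟩], [⟨17, 7460, 2, 0, 0, 14, 0, 30, 0⟩, ⟨17, 6620, 2, 0, 30, 12, 0, 2, 0⟩], [⟨33, 2230, -50, 0, 18, 16, 0, -30, 0⟩]⟩,
  ⟨[⟨0, -245, 0, -1, 1, 0, 0, 0, 0⟩, ⟨0, 270, 0, 1, -1, 0, 0, 0, 0⟩], [⟨41, 13540, 2, 0, 38, 0, 78, 0, 0⟩], [⟨81, 6280, -122, 42, 40, 0, -78, 0, 0⟩]⟩,
  ⟨[⟨0, -114, 0, -1, 1, 0, 0, 0, 0⟩, ⟨0, 126, 0, 1, -1, 0, 0, 0, 0⟩], [⟨25, 9240, 2, 0, 22, 0, 46, 0, 0⟩], [⟨49, 3210, -74, 26, 24, 0, -46, 0, 0⟩]⟩,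
  ⟨[⟨0, -23, 0, 0, -1, 1, 0, 0, 0⟩, ⟨0, 60, 0, 0, 1, -1, 0, 0, 0⟩], [⟨35, 13120, 2, 0, 66, 30, 0, 2, 0⟩], [⟨69, 3870, -104, 0, 36, 34, 0, -66, 0⟩]⟩,
  ⟨[⟨0, -450, 0, -1, 1, 0, 0, 0, 0⟩], [⟨9, 1810, 2, 0, 6, 0, 14, 0, 0⟩], [⟨17, 1440, -26, 10, 8, 0, -14, 0, 0⟩]⟩,
  ⟨[⟨0, -270, 0, -1, 1, 0, 0, 0, 0⟩, ⟨0, 300, 0, 1, -1, 0, 0, 0, 0⟩], [⟨22, 7000, 2, 0, 19, 0, 44, 0, 0⟩], [⟨44, 3360, -66, 22, 23, 0, -44, 0, 0⟩]⟩,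
  ⟨[⟨0, -138, 0, -1, 1, 0, 0, 0, 0⟩, ⟨0, 150, 0, 1, -1, 0, 0, 0, 0⟩], [⟨31, 9910, 2, 0, 28, 0, 62, 0, 0⟩], [⟨63, 5570, -94, 32, 32, 0, -62, 0, 0⟩]⟩,
  ⟨[⟨0, 10, 0, 1, -1, 0, 0, 0, 0⟩], [⟨21, 5870, 2, 38, 16, 0, 2, 0, 0⟩], [⟨41, 3650, -62, 22, 20, 0, -38, 0, 0⟩]⟩,
  ⟨[⟨0, -103, 0, -1, 1, 0, 0, 0, 0⟩, ⟨0, 105, 0, 1, -1, 0, 0, 0, 0⟩], [⟨19, 6020, 2, 0, 16, 0, 38, 0, 0⟩], [⟨39, 3690, -58, 20, 20, 0, -38, 0, 0⟩]⟩,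
  ⟨[⟨0, -100, 0, 0, -1, 1, 0, 0, 0⟩, ⟨0, 150, 0, 0, 1, -1, 0, 0, 0⟩], [⟨9, 3100, 2, 0, 0, 6, 0, 18, 0⟩, ⟨14, 2236, -13, 0, 5, 8, 0, 0, 0⟩], [⟨19, 2120, -28, 0, 10, 10, 0, -18, 0⟩]⟩,
  ⟨[⟨0, -800, 0, 0, -1, 1, 0, 0, 0⟩], [⟨7, 2340, 2, 0, 0, 4, 0, 14, 0⟩], [⟨15, 1680, -22, 0, 8, 8, 0, -14, 0⟩]⟩,
  ⟨[⟨0, -750, 0, -1, 1, 0, 0, 0, 0⟩], [⟨7, 2340, 2, 0, 4, 0, 14, 0, 0⟩], [⟨15, 1680, -22, 8, 8, 0, -14, 0, 0⟩]⟩,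
  ⟨[⟨0, -245, 0, -1, 1, 0, 0, 0, 0⟩, ⟨0, 270, 0, 1, -1, 0, 0, 0, 0⟩], [⟨10, 2990, 2, 1, 6, 0, 20, 0, 0⟩], [⟨20, 1410, -30, 11, 10, 0, -20, 0, 0⟩]⟩,
  ⟨[⟨0, -900, 0, -1, 1, 0, 0, 0, 0⟩], [⟨26, 7700, 2, 0, 23, 0, 52, 0, 0⟩], [⟨52, 4320, -78, 26, 27, 0, -52, 0, 0⟩]⟩,
  ⟨[⟨0, -200, 0, 0, -1, 1, 0, 0, 0⟩, ⟨0, 300, 0, 0, 1, -1, 0, 0, 0⟩], [⟨23, 7170, 2, 0, 0, 20, 0, 44, 0⟩], [⟨45, 3870, -68, 0, 22, 24, 0, -44, 0⟩, ⟨34, 5404, -33, 0, 11, 22, 0, 0, 0⟩]⟩,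
  ⟨[⟨0, -201, 0, -1, 1, 0, 0, 0, 0⟩], [⟨5, 1790, 2, 0, 2, 0, 6, 0, 0⟩, ⟨5, 1590, 2, 6, 0, 0, 2, 0, 0⟩], [⟨9, 860, -14, 6, 4, 0, -6, 0, 0⟩]⟩]

def wg71 : List Wn := [
  ⟨[⟨0, -108, 0, -1, 1, 0, 0, 0, 0⟩, ⟨0, 114, 0, 1, -1, 0, 0, 0, 0⟩], [⟨11, 3380, 2, 0, 8, 0, 20, 0, 0⟩], [⟨21, 1910, -32, 10, 12, 0, -20, 0, 0⟩, ⟨16, 2627, -15, 5, 10, 0, 0, 0, 0⟩]⟩,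
  ⟨[⟨0, -500, 0, 0, -1, 1, 0, 0, 0⟩, ⟨0, 600, 0, 0, 1, -1, 0, 0, 0⟩], [⟨3, 10, 2, 0, 0, 0, 0, 2, 0⟩], [⟨5, 1180, -8, 0, 4, 2, 0, -2, 0⟩, ⟨4, 590, -3, 0, 2, 1, 0, 0, 0⟩]⟩,
  ⟨[⟨0, -900, 0, -1, 1, 0, 0, 0, 0⟩], [⟨29, 9470, 2, 0, 26, 0, 54, 0, 0⟩], [⟨57, 4140, -86, 30, 28, 0, -54, 0, 0⟩]⟩,
  ⟨[⟨0, -93, 0, 0, -1, 1, 0, 0, 0⟩], [⟨9, 3950, 2, 0, 0, 6, 0, 14, 0⟩, ⟨9, 3110, 2, 0, 14, 4, 0, 2, 0⟩], [⟨17, 2180, -26, 0, 10, 8, 0, -14, 0⟩]⟩,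
  ⟨[⟨0, -300, 0, 0, -1, 1, 0, 0, 0⟩], [⟨39, 11310, 2, 0, 0, 36, 0, 78, 0⟩], [⟨79, 7420, -118, 0, 40, 40, 0, -78, 0⟩]⟩,
  ⟨[⟨0, -105, 0, -1, 1, 0, 0, 0, 0⟩, ⟨0, 108, 0, 1, -1, 0, 0, 0, 0⟩], [⟨6, 1450, 2, 0, 3, 0, 8, 0, 0⟩], [⟨10, 1050, -16, 6, 5, 0, -8, 0, 0⟩, ⟨8, 1242, -7, 3, 4, 0, 0, 0, 0⟩]⟩,
  ⟨[⟨0, -114, 0, -1, 1, 0, 0, 0, 0⟩, ⟨0, 126, 0, 1, -1, 0, 0, 0, 0⟩], [⟨6, 1400, 2, 0, 3, 0, 10, 0, 0⟩], [⟨10, 1090, -16, 4, 7, 0, -10, 0, 0⟩, ⟨8, 1232, -7, 2, 5, 0, 0, 0, 0⟩]⟩,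
  ⟨[⟨0, -101, 0, -1, 1, 0, 0, 0, 0⟩, ⟨0, 103, 0, 1, -1, 0, 0, 0, 0⟩], [⟨34, 12650, 2, 0, 31, 0, 68, 0, 0⟩], [⟨68, 4550, -102, 34, 35, 0, -68, 0, 0⟩]⟩,
  ⟨[], [⟨17, 7460, 2, 0, 0, 14, 0, 30, 0⟩, ⟨17, 6620, 2, 0, 30, 12, 0, 2, 0⟩], [⟨33, 2150, -50, 0, 18, 16, 0, -30, 0⟩]⟩,
  ⟨[⟨0, -138, 0, -1, 1, 0, 0, 0, 0⟩, ⟨0, 150, 0, 1, -1, 0, 0, 0, 0⟩], [⟨11, 3290, 2, 0, 8, 0, 20, 0, 0⟩], [⟨21, 1910, -32, 10, 12, 0, -20, 0, 0⟩, ⟨16, 2583, -15, 5, 10, 0, 0, 0, 0⟩]⟩,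
  ⟨[⟨0, -108, 0, -1, 1, 0, 0, 0, 0⟩, ⟨0, 114, 0, 1, -1, 0, 0, 0, 0⟩], [⟨8, 1900, 2, 0, 5, 0, 16, 0, 0⟩, ⟨12, 1798, -11, 4, 7, 0, 0, 0, 0⟩], [⟨16, 1690, -24, 8, 9, 0, -16, 0, 0⟩]⟩,
  ⟨[⟨0, -114, 0, -1, 1, 0, 0, 0, 0⟩, ⟨0, 126, 0, 1, -1, 0, 0, 0, 0⟩], [⟨17, 4810, 2, 0, 14, 0, 34, 0, 0⟩, ⟨26, 4260, -25, 9, 16, 0, 0, 0, 0⟩], [⟨35, 3690, -52, 18, 18, 0, -34, 0, 0⟩]⟩,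
  ⟨[⟨0, -23, 0, 0, -1, 1, 0, 0, 0⟩, ⟨0, 60, 0, 0, 1, -1, 0, 0, 0⟩], [⟨27, 8600, 2, 0, 52, 24, 0, 2, 0⟩], [⟨55, 4760, -82, 0, 28, 28, 0, -54, 0⟩]⟩,
  ⟨[⟨0, -180, 0, -1, 1, 0, 0, 0, 0⟩, ⟨0, 200, 0, 1, -1, 0, 0, 0, 0⟩], [⟨7, 2500, 2, 0, 4, 0, 14, 0, 0⟩], [⟨15, 1680, -22, 8, 8, 0, -14, 0, 0⟩]⟩,
  ⟨[⟨0, -900, 0, -1, 1, 0, 0, 0, 0⟩], [⟨13, 3220, 2, 0, 10, 0, 24, 0, 0⟩], [⟨25, 2450, -38, 14, 12, 0, -24, 0, 0⟩]⟩,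
  ⟨[⟨0, -600, 0, -1, 1, 0, 0, 0, 0⟩], [⟨7, 2350, 2, 0, 4, 0, 14, 0, 0⟩], [⟨15, 1680, -22, 8, 8, 0, -14, 0, 0⟩]⟩]

def wg72 : List Wn := [
  ⟨[⟨0, -750, 0, -1, 1, 0, 0, 0, 0⟩], [⟨26, 7710, 2, 0, 23, 0, 52, 0, 0⟩], [⟨52, 4320, -78, 26, 27, 0, -52, 0, 0⟩]⟩,
  ⟨[⟨0, -150, 0, -1, 1, 0, 0, 0, 0⟩, ⟨0, 165, 0, 1, -1, 0, 0, 0, 0⟩], [⟨25, 9040, 2, 0, 22, 0, 46, 0, 0⟩], [⟨49, 3230, -74, 26, 24, 0, -46, 0, 0⟩]⟩,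
  ⟨[⟨0, -750, 0, -1, 1, 0, 0, 0, 0⟩], [⟨29, 9480, 2, 0, 26, 0, 54, 0, 0⟩], [⟨57, 4130, -86, 30, 28, 0, -54, 0, 0⟩]⟩,
  ⟨[⟨0, -60, 0, 0, -1, 1, 0, 0, 0⟩, ⟨0, 100, 0, 0, 1, -1, 0, 0, 0⟩], [⟨5, 1650, 2, 0, 8, 2, 0, 2, 0⟩, ⟨8, 1085, -7, 0, 7, 4, 0, -4, 0⟩], [⟨11, 1600, -16, 0, 6, 6, 0, -10, 0⟩]⟩,
  ⟨[], [⟨9, 3950, 2, 0, 0, 6, 0, 14, 0⟩, ⟨9, 3110, 2, 0, 14, 4, 0, 2, 0⟩], [⟨17, 2100, -26, 0, 10, 8, 0, -14, 0⟩]⟩,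
  ⟨[⟨0, -200, 0, 0, -1, 1, 0, 0, 0⟩], [⟨39, 11680, 2, 0, 0, 36, 0, 78, 0⟩], [⟨79, 7420, -118, 0, 40, 40, 0, -78, 0⟩]⟩,
  ⟨[⟨0, -76, 0, -1, 1, 0, 0, 0, 0⟩, ⟨0, 84, 0, 1, -1, 0, 0, 0, 0⟩], [⟨9, 2320, 2, 14, 4, 0, 2, 0, 0⟩], [⟨17, 1980, -26, 10, 8, 0, -14, 0, 0⟩]⟩,
  ⟨[⟨0, -93, 0, -1, 1, 0, 0, 0, 0⟩], [⟨13, 3220, 2, 0, 24, 0, 12, 0, 0⟩, ⟨13, 4860, 2, 24, 10, 0, 2, 0, 0⟩, ⟨20, 3500, -19, 7, 12, 0, 0, 0, 0⟩], [⟨27, 2760, -40, 14, 14, 0, -26, 0, 0⟩]⟩,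
  ⟨[⟨0, -23, 0, 0, -1, 1, 0, 0, 0⟩, ⟨0, 60, 0, 0, 1, -1, 0, 0, 0⟩], [⟨8, 2800, 2, 0, 14, 5, 0, 2, 0⟩], [⟨16, 1680, -24, 0, 8, 9, 0, -16, 0⟩]⟩,
  ⟨[], [⟨27, 10600, 2, 0, 24, 0, 54, 0, 0⟩, ⟨27, 9970, 2, 52, 24, 0, 2, 0, 0⟩], [⟨55, 4760, -82, 28, 28, 0, -54, 0, 0⟩]⟩,
  ⟨[], [⟨5, 2050, 2, 0, 2, 0, 8, 0, 0⟩, ⟨5, 920, 2, 8, 0, 0, 2, 0, 0⟩, ⟨7, 1030, -6, 6, 3, 0, -3, 0, 0⟩], [⟨9, 1110, -14, 4, 6, 0, -8, 0, 0⟩]⟩,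
  ⟨[⟨0, -1350, 0, -1, 1, 0, 0, 0, 0⟩], [⟨9, 1970, 2, 0, 6, 0, 14, 0, 0⟩], [⟨17, 2110, -26, 10, 8, 0, -14, 0, 0⟩]⟩,
  ⟨[⟨0, -180, 0, -1, 1, 0, 0, 0, 0⟩, ⟨0, 200, 0, 1, -1, 0, 0, 0, 0⟩], [⟨8, 1910, 2, 0, 5, 0, 16, 0, 0⟩, ⟨12, 1804, -11, 4, 7, 0, 0, 0, 0⟩], [⟨16, 1690, -24, 8, 9, 0, -16, 0, 0⟩]⟩,
  ⟨[⟨0, -220, 0, -1, 1, 0, 0, 0, 0⟩, ⟨0, 245, 0, 1, -1, 0, 0, 0, 0⟩], [⟨13, 4060, 2, 0, 10, 0, 22, 0, 0⟩], [⟨25, 2080, -38, 14, 12, 0, -22, 0, 0⟩]⟩,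
  ⟨[⟨0, -200, 0, -1, 1, 0, 0, 0, 0⟩, ⟨0, 220, 0, 1, -1, 0, 0, 0, 0⟩], [⟨18, 5510, 2, 0, 15, 0, 34, 0, 0⟩], [⟨34, 2860, -52, 16, 19, 0, -34, 0, 0⟩, ⟨26, 4156, -25, 8, 17, 0, 0, 0, 0⟩]⟩,
  ⟨[⟨0, -900, 0, -1, 1, 0, 0, 0, 0⟩], [⟨29, 7430, 2, 0, 26, 0, 58, 0, 0⟩, ⟨44, 6821, -43, 15, 28, 0, 0, 0, 0⟩], [⟨59, 6190, -88, 30, 30, 0, -58, 0, 0⟩]⟩]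

def wg73 : List Wn := [
  ⟨[⟨0, -1050, 0, -1, 1, 0, 0, 0, 0⟩], [⟨6, 1470, 2, 0, 3, 0, 12, 0, 0⟩], [⟨12, 1040, -18, 6, 7, 0, -12, 0, 0⟩]⟩,
  ⟨[⟨0, -500, 0, 0, -1, 1, 0, 0, 0⟩], [⟨7, 2360, 2, 0, 0, 4, 0, 14, 0⟩], [⟨15, 1680, -22, 0, 8, 8, 0, -14, 0⟩]⟩,
  ⟨[⟨0, -450, 0, -1, 1, 0, 0, 0, 0⟩], [⟨7, 2360, 2, 0, 4, 0, 14, 0, 0⟩], [⟨15, 1680, -22, 8, 8, 0, -14, 0, 0⟩]⟩,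
  ⟨[⟨0, -201, 0, -1, 1, 0, 0, 0, 0⟩], [⟨55, 23870, 2, 0, 52, 0, 102, 0, 0⟩, ⟨55, 22840, 2, 104, 48, 0, 2, 0, 0⟩], [⟨107, 6710, -162, 56, 52, 0, -102, 0, 0⟩]⟩,
  ⟨[⟨0, -114, 0, -1, 1, 0, 0, 0, 0⟩, ⟨0, 126, 0, 1, -1, 0, 0, 0, 0⟩], [⟨15, 4520, 2, 0, 12, 0, 28, 0, 0⟩], [⟨29, 2780, -44, 14, 16, 0, -28, 0, 0⟩, ⟨22, 3621, -21, 7, 14, 0, 0, 0, 0⟩]⟩,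
  ⟨[⟨0, -600, 0, -1, 1, 0, 0, 0, 0⟩], [⟨26, 7730, 2, 0, 23, 0, 52, 0, 0⟩], [⟨52, 4320, -78, 26, 27, 0, -52, 0, 0⟩]⟩,
  ⟨[⟨0, -300, 0, 0, -1, 1, 0, 0, 0⟩, ⟨0, 400, 0, 0, 1, -1, 0, 0, 0⟩], [⟨19, 5900, 2, 0, 0, 16, 0, 34, 0⟩], [⟨37, 3090, -56, 0, 20, 18, 0, -34, 0⟩, ⟨28, 4439, -27, 0, 10, 17, 0, 0, 0⟩]⟩,
  ⟨[⟨0, -825, 0, -1, 1, 0, 0, 0, 0⟩, ⟨0, 900, 0, 1, -1, 0, 0, 0, 0⟩], [⟨19, 5730, 2, 0, 16, 0, 34, 0, 0⟩], [⟨37, 3120, -56, 20, 18, 0, -34, 0, 0⟩, ⟨28, 4413, -27, 10, 17, 0, 0, 0, 0⟩]⟩,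
  ⟨[⟨0, -600, 0, 0, -1, 1, 0, 0, 0⟩], [⟨29, 9500, 2, 0, 0, 26, 0, 54, 0⟩], [⟨57, 4130, -86, 0, 30, 28, 0, -54, 0⟩]⟩,
  ⟨[⟨0, -600, 0, -1, 1, 0, 0, 0, 0⟩], [⟨29, 9500, 2, 0, 26, 0, 54, 0, 0⟩], [⟨57, 4130, -86, 30, 28, 0, -54, 0, 0⟩]⟩,
  ⟨[⟨0, -150, 0, -1, 1, 0, 0, 0, 0⟩, ⟨0, 165, 0, 1, -1, 0, 0, 0, 0⟩], [⟨17, 4680, 2, 0, 14, 0, 34, 0, 0⟩, ⟨26, 4195, -25, 9, 16, 0, 0, 0, 0⟩], [⟨35, 3690, -52, 18, 18, 0, -34, 0, 0⟩]⟩,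
  ⟨[⟨0, -84, 0, -1, 1, 0, 0, 0, 0⟩, ⟨0, 92, 0, 1, -1, 0, 0, 0, 0⟩], [⟨29, 10580, 2, 0, 26, 0, 58, 0, 0⟩], [⟨59, 5990, -88, 30, 30, 0, -58, 0, 0⟩]⟩,
  ⟨[⟨0, -93, 0, 0, -1, 1, 0, 0, 0⟩], [⟨7, 2250, 2, 0, 0, 4, 0, 4, 0⟩, ⟨7, 950, 2, 0, 8, -2, 0, 2, 0⟩], [⟨9, 1420, -16, 0, 6, 4, 0, -4, 0⟩, ⟨8, 1360, -7, 0, 3, 4, 0, 0, 0⟩]⟩,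
  ⟨[⟨0, -159, 0, 0, -1, 1, 0, 0, 0⟩], [⟨59, 26560, 2, 0, 0, 56, 0, 110, 0⟩, ⟨59, 25530, 2, 0, 112, 52, 0, 2, 0⟩], [⟨115, 6190, -174, 0, 60, 56, 0, -110, 0⟩]⟩,
  ⟨[⟨0, -100, 0, 0, -1, 1, 0, 0, 0⟩, ⟨0, 150, 0, 0, 1, -1, 0, 0, 0⟩], [⟨27, 8820, 2, 0, 0, 24, 0, 52, 0⟩], [⟨53, 4830, -80, 0, 26, 28, 0, -52, 0⟩, ⟨40, 6595, -39, 0, 13, 26, 0, 0, 0⟩]⟩,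
  ⟨[⟨0, -180, 0, -1, 1, 0, 0, 0, 0⟩, ⟨0, 200, 0, 1, -1, 0, 0, 0, 0⟩], [⟨31, 9670, 2, 0, 28, 0, 62, 0, 0⟩], [⟨63, 5570, -94, 32, 32, 0, -62, 0, 0⟩]⟩]

def wg74 : List Wn := [
  ⟨[⟨0, -101, 0, -1, 1, 0, 0, 0, 0⟩, ⟨0, 103, 0, 1, -1, 0, 0, 0, 0⟩], [⟨4, 1180, 2, 1, 0, 0, 8, 0, 0⟩], [⟨8, 830, -12, 5, 4, 0, -8, 0, 0⟩, ⟨6, 996, -5, 3, 2, 0, 0, 0, 0⟩]⟩,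
  ⟨[], [⟨13, 3220, 2, 0, 24, 0, 12, 0, 0⟩, ⟨13, 4860, 2, 24, 10, 0, 2, 0, 0⟩, ⟨20, 3500, -19, 7, 12, 0, 0, 0, 0⟩], [⟨27, 2760, -40, 14, 14, 0, -26, 0, 0⟩]⟩,
  ⟨[⟨0, -245, 0, -1, 1, 0, 0, 0, 0⟩, ⟨0, 270, 0, 1, -1, 0, 0, 0, 0⟩], [⟨3, 240, 2, 0, 0, 0, 4, 0, 0⟩], [⟨5, 880, -8, 2, 4, 0, -4, 0, 0⟩, ⟨4, 551, -3, 1, 2, 0, 0, 0, 0⟩]⟩,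
  ⟨[⟨0, -18, 0, -1, 1, 0, 0, 0, 0⟩, ⟨0, 27, 0, 1, -1, 0, 0, 0, 0⟩], [⟨9, 1930, 2, 14, 4, 0, 2, 0, 0⟩], [⟨17, 1930, -26, 10, 8, 0, -14, 0, 0⟩]⟩,
  ⟨[⟨0, -245, 0, -1, 1, 0, 0, 0, 0⟩, ⟨0, 270, 0, 1, -1, 0, 0, 0, 0⟩], [⟨34, 11720, 2, 0, 31, 0, 68, 0, 0⟩], [⟨68, 4550, -102, 34, 35, 0, -68, 0, 0⟩]⟩,
  ⟨[⟨0, -114, 0, -1, 1, 0, 0, 0, 0⟩, ⟨0, 126, 0, 1, -1, 0, 0, 0, 0⟩], [⟨18, 5550, 2, 0, 15, 0, 36, 0, 0⟩], [⟨36, 3250, -54, 18, 19, 0, -36, 0, 0⟩]⟩,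
  ⟨[⟨0, -18, 0, -1, 1, 0, 0, 0, 0⟩, ⟨0, 27, 0, 1, -1, 0, 0, 0, 0⟩], [⟨23, 6940, 2, 44, 20, 0, 2, 0, 0⟩], [⟨47, 4110, -70, 24, 24, 0, -46, 0, 0⟩]⟩,
  ⟨[⟨0, -1200, 0, -1, 1, 0, 0, 0, 0⟩], [⟨9, 1970, 2, 0, 6, 0, 14, 0, 0⟩], [⟨17, 2110, -26, 10, 8, 0, -14, 0, 0⟩]⟩,
  ⟨[⟨0, -159, 0, 0, -1, 1, 0, 0, 0⟩], [⟨77, 31990, 2, 0, 0, 74, 0, 150, 0⟩, ⟨77, 31150, 2, 0, 150, 72, 0, 2, 0⟩], [⟨153, 10800, -230, 0, 78, 76, 0, -150, 0⟩]⟩,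
  ⟨[⟨0, -50, 0, -1, 1, 0, 0, 0, 0⟩, ⟨0, 66, 0, 1, -1, 0, 0, 0, 0⟩], [⟨19, 5710, 2, 36, 16, 0, 2, 0, 0⟩], [⟨39, 3690, -58, 20, 20, 0, -38, 0, 0⟩]⟩,
  ⟨[⟨0, -750, 0, -1, 1, 0, 0, 0, 0⟩], [⟨29, 7430, 2, 0, 26, 0, 58, 0, 0⟩, ⟨44, 6824, -43, 15, 28, 0, 0, 0, 0⟩], [⟨59, 6190, -88, 30, 30, 0, -58, 0, 0⟩]⟩,
  ⟨[⟨0, -600, 0, -1, 1, 0, 0, 0, 0⟩], [⟨13, 3240, 2, 0, 10, 0, 24, 0, 0⟩], [⟨25, 2450, -38, 14, 12, 0, -24, 0, 0⟩]⟩,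
  ⟨[⟨0, -900, 0, -1, 1, 0, 0, 0, 0⟩], [⟨6, 1470, 2, 0, 3, 0, 12, 0, 0⟩], [⟨12, 1040, -18, 6, 7, 0, -12, 0, 0⟩]⟩,
  ⟨[⟨0, -300, 0, -1, 1, 0, 0, 0, 0⟩], [⟨7, 2410, 2, 0, 4, 0, 14, 0, 0⟩], [⟨15, 1680, -22, 8, 8, 0, -14, 0, 0⟩]⟩,
  ⟨[⟨0, -450, 0, -1, 1, 0, 0, 0, 0⟩], [⟨26, 7780, 2, 0, 23, 0, 52, 0, 0⟩], [⟨52, 4320, -78, 26, 27, 0, -52, 0, 0⟩]⟩,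
  ⟨[⟨0, -500, 0, 0, -1, 1, 0, 0, 0⟩], [⟨29, 9530, 2, 0, 0, 26, 0, 54, 0⟩], [⟨57, 4130, -86, 0, 30, 28, 0, -54, 0⟩]⟩]

def wg75 : List Wn := [
  ⟨[⟨0, -93, 0, -1, 1, 0, 0, 0, 0⟩], [⟨5, 1790, 2, 0, 2, 0, 6, 0, 0⟩, ⟨5, 1590, 2, 6, 0, 0, 2, 0, 0⟩], [⟨9, 810, -14, 6, 4, 0, -6, 0, 0⟩]⟩,
  ⟨[⟨0, -597, 0, -1, 1, 0, 0, 0, 0⟩], [⟨19, 8120, 2, 0, 16, 0, 32, 0, 0⟩, ⟨19, 7040, 2, 34, 12, 0, 2, 0, 0⟩, ⟨27, 4840, -26, 26, 0, 0, 0, 0, 0⟩], [⟨35, 2520, -54, 18, 18, 0, -32, 0, 0⟩]⟩,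
  ⟨[⟨0, -450, 0, -1, 1, 0, 0, 0, 0⟩], [⟨29, 9560, 2, 0, 26, 0, 54, 0, 0⟩], [⟨57, 4120, -86, 30, 28, 0, -54, 0, 0⟩]⟩,
  ⟨[⟨0, -180, 0, -1, 1, 0, 0, 0, 0⟩, ⟨0, 200, 0, 1, -1, 0, 0, 0, 0⟩], [⟨11, 3220, 2, 0, 8, 0, 20, 0, 0⟩], [⟨21, 1910, -32, 10, 12, 0, -20, 0, 0⟩, ⟨16, 2545, -15, 5, 10, 0, 0, 0, 0⟩]⟩,
  ⟨[⟨0, -165, 0, -1, 1, 0, 0, 0, 0⟩, ⟨0, 180, 0, 1, -1, 0, 0, 0, 0⟩], [⟨14, 4430, 2, 1, 10, 0, 24, 0, 0⟩, ⟨20, 3201, -19, 8, 11, 0, 0, 0, 0⟩], [⟨26, 1960, -40, 15, 12, 0, -24, 0, 0⟩]⟩,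
  ⟨[⟨0, -1350, 0, -1, 1, 0, 0, 0, 0⟩], [⟨22, 6570, 2, 1, 18, 0, 44, 0, 0⟩], [⟨44, 3360, -66, 23, 22, 0, -44, 0, 0⟩]⟩,
  ⟨[], [⟨3, 1270, 2, 0, 0, 0, 6, 0, 0⟩, ⟨3, 640, 2, 4, 0, 0, 2, 0, 0⟩], [⟨7, 880, -10, 4, 4, 0, -6, 0, 0⟩]⟩,
  ⟨[⟨0, -100, 0, 0, -1, 1, 0, 0, 0⟩, ⟨0, 150, 0, 0, 1, -1, 0, 0, 0⟩], [⟨35, 12860, 2, 0, 0, 32, 0, 62, 0⟩], [⟨67, 4720, -102, 0, 36, 32, 0, -62, 0⟩]⟩,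
  ⟨[⟨0, -245, 0, -1, 1, 0, 0, 0, 0⟩, ⟨0, 270, 0, 1, -1, 0, 0, 0, 0⟩], [⟨7, 1780, 2, 0, 4, 0, 14, 0, 0⟩], [⟨15, 1490, -22, 8, 8, 0, -14, 0, 0⟩]⟩,
  ⟨[⟨0, -76, 0, -1, 1, 0, 0, 0, 0⟩, ⟨0, 84, 0, 1, -1, 0, 0, 0, 0⟩], [⟨9, 2980, 2, 14, 4, 0, 2, 0, 0⟩], [⟨17, 2160, -26, 10, 8, 0, -14, 0, 0⟩]⟩,
  ⟨[⟨0, -103, 0, -1, 1, 0, 0, 0, 0⟩, ⟨0, 105, 0, 1, -1, 0, 0, 0, 0⟩], [⟨15, 4590, 2, 0, 12, 0, 28, 0, 0⟩], [⟨29, 2780, -44, 14, 16, 0, -28, 0, 0⟩, ⟨22, 3670, -21, 7, 14, 0, 0, 0, 0⟩]⟩,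
  ⟨[⟨0, -150, 0, -1, 1, 0, 0, 0, 0⟩, ⟨0, 165, 0, 1, -1, 0, 0, 0, 0⟩], [⟨15, 4410, 2, 0, 12, 0, 28, 0, 0⟩], [⟨29, 2780, -44, 14, 16, 0, -28, 0, 0⟩, ⟨22, 3568, -21, 7, 14, 0, 0, 0, 0⟩]⟩,
  ⟨[⟨0, -150, 0, 0, -1, 1, 0, 0, 0⟩, ⟨0, 200, 0, 0, 1, -1, 0, 0, 0⟩], [⟨9, 2220, 2, 0, 0, 6, 0, 18, 0⟩, ⟨14, 2187, -13, 0, 5, 8, 0, 0, 0⟩], [⟨19, 2140, -28, 0, 10, 10, 0, -18, 0⟩]⟩,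
  ⟨[⟨0, -270, 0, -1, 1, 0, 0, 0, 0⟩, ⟨0, 300, 0, 1, -1, 0, 0, 0, 0⟩], [⟨7, 1990, 2, 0, 4, 0, 10, 0, 0⟩], [⟨13, 1180, -20, 8, 6, 0, -10, 0, 0⟩, ⟨10, 1571, -9, 4, 5, 0, 0, 0, 0⟩]⟩,
  ⟨[⟨0, -1350, 0, -1, 1, 0, 0, 0, 0⟩], [⟨19, 5720, 2, 0, 16, 0, 34, 0, 0⟩, ⟨28, 4431, -27, 10, 17, 0, 0, 0, 0⟩], [⟨37, 3120, -56, 20, 18, 0, -34, 0, 0⟩]⟩,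
  ⟨[⟨0, -220, 0, -1, 1, 0, 0, 0, 0⟩, ⟨0, 245, 0, 1, -1, 0, 0, 0, 0⟩], [⟨14, 4460, 2, 0, 11, 0, 24, 0, 0⟩], [⟨26, 2010, -40, 14, 13, 0, -24, 0, 0⟩, ⟨20, 3210, -19, 7, 12, 0, 0, 0, 0⟩]⟩]

def wg76 : List Wn := [
  ⟨[⟨0, -126, 0, -1, 1, 0, 0, 0, 0⟩, ⟨0, 138, 0, 1, -1, 0, 0, 0, 0⟩], [⟨43, 14610, 2, 0, 40, 0, 86, 0, 0⟩], [⟨87, 7030, -130, 44, 44, 0, -86, 0, 0⟩]⟩,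
  ⟨[⟨0, -101, 0, -1, 1, 0, 0, 0, 0⟩, ⟨0, 103, 0, 1, -1, 0, 0, 0, 0⟩], [⟨31, 10340, 2, 0, 28, 0, 62, 0, 0⟩], [⟨63, 5570, -94, 32, 32, 0, -62, 0, 0⟩]⟩,
  ⟨[⟨0, -126, 0, -1, 1, 0, 0, 0, 0⟩, ⟨0, 138, 0, 1, -1, 0, 0, 0, 0⟩], [⟨5, 710, 2, 0, 2, 0, 2, 0, 0⟩], [⟨7, 1260, -12, 6, 2, 0, -2, 0, 0⟩, ⟨6, 973, -5, 3, 2, 0, 0, 0, 0⟩]⟩,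
  ⟨[⟨0, -600, 0, 0, -1, 1, 0, 0, 0⟩], [⟨29, 7450, 2, 0, 0, 26, 0, 58, 0⟩, ⟨44, 6835, -43, 0, 15, 28, 0, 0, 0⟩], [⟨59, 6190, -88, 0, 30, 30, 0, -58, 0⟩]⟩,
  ⟨[⟨0, -108, 0, -1, 1, 0, 0, 0, 0⟩, ⟨0, 114, 0, 1, -1, 0, 0, 0, 0⟩], [⟨11, 3030, 2, 0, 8, 0, 10, 0, 0⟩], [⟨17, 1900, -28, 12, 6, 0, -10, 0, 0⟩, ⟨14, 2450, -13, 6, 7, 0, 0, 0, 0⟩]⟩,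
  ⟨[⟨0, -450, 0, -1, 1, 0, 0, 0, 0⟩], [⟨13, 3270, 2, 0, 10, 0, 24, 0, 0⟩], [⟨25, 2450, -38, 14, 12, 0, -24, 0, 0⟩]⟩,
  ⟨[⟨0, -220, 0, -1, 1, 0, 0, 0, 0⟩, ⟨0, 245, 0, 1, -1, 0, 0, 0, 0⟩], [⟨6, 1310, 2, 1, 2, 0, 8, 0, 0⟩, ⟨8, 1187, -7, 4, 3, 0, 0, 0, 0⟩], [⟨10, 1050, -16, 7, 4, 0, -8, 0, 0⟩]⟩,
  ⟨[⟨0, -300, 0, 0, -1, 1, 0, 0, 0⟩], [⟨7, 2410, 2, 0, 0, 4, 0, 14, 0⟩], [⟨15, 1680, -22, 0, 8, 8, 0, -14, 0⟩]⟩,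
  ⟨[⟨0, -93, 0, 0, -1, 1, 0, 0, 0⟩], [⟨9, 3440, 2, 0, 0, 6, 0, 10, 0⟩, ⟨9, 3950, 2, 0, 12, 2, 0, 2, 0⟩, ⟨12, 2320, -11, 0, 5, 6, 0, 0, 0⟩], [⟨15, 950, -24, 0, 10, 6, 0, -10, 0⟩]⟩,
  ⟨[⟨0, -300, 0, -1, 1, 0, 0, 0, 0⟩], [⟨26, 7930, 2, 0, 23, 0, 52, 0, 0⟩], [⟨52, 4320, -78, 26, 27, 0, -52, 0, 0⟩]⟩,
  ⟨[⟨0, -270, 0, -1, 1, 0, 0, 0, 0⟩, ⟨0, 300, 0, 1, -1, 0, 0, 0, 0⟩], [⟨19, 5400, 2, 0, 16, 0, 38, 0, 0⟩], [⟨39, 3690, -58, 20, 20, 0, -38, 0, 0⟩]⟩,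
  ⟨[⟨0, -400, 0, 0, -1, 1, 0, 0, 0⟩], [⟨29, 9600, 2, 0, 0, 26, 0, 54, 0⟩], [⟨57, 4120, -86, 0, 30, 28, 0, -54, 0⟩]⟩,
  ⟨[], [⟨5, 1790, 2, 0, 2, 0, 6, 0, 0⟩, ⟨5, 1590, 2, 6, 0, 0, 2, 0, 0⟩], [⟨9, 730, -14, 6, 4, 0, -6, 0, 0⟩]⟩,
  ⟨[⟨0, -300, 0, -1, 1, 0, 0, 0, 0⟩], [⟨29, 9730, 2, 0, 26, 0, 54, 0, 0⟩], [⟨57, 4100, -86, 30, 28, 0, -54, 0, 0⟩]⟩,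
  ⟨[⟨0, -103, 0, -1, 1, 0, 0, 0, 0⟩, ⟨0, 105, 0, 1, -1, 0, 0, 0, 0⟩], [⟨17, 4740, 2, 0, 14, 0, 34, 0, 0⟩, ⟨26, 4223, -25, 9, 16, 0, 0, 0, 0⟩], [⟨35, 3690, -52, 18, 18, 0, -34, 0, 0⟩]⟩,
  ⟨[⟨0, -1200, 0, -1, 1, 0, 0, 0, 0⟩], [⟨22, 6570, 2, 1, 18, 0, 44, 0, 0⟩], [⟨44, 3360, -66, 23, 22, 0, -44, 0, 0⟩]⟩]

def wg77 : List Wn := [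
  ⟨[⟨0, -150, 0, -1, 1, 0, 0, 0, 0⟩, ⟨0, 165, 0, 1, -1, 0, 0, 0, 0⟩], [⟨18, 5410, 2, 0, 15, 0, 36, 0, 0⟩], [⟨36, 3250, -54, 18, 19, 0, -36, 0, 0⟩]⟩,
  ⟨[⟨0, -245, 0, -1, 1, 0, 0, 0, 0⟩, ⟨0, 270, 0, 1, -1, 0, 0, 0, 0⟩], [⟨7, 1590, 2, 0, 4, 0, 14, 0, 0⟩], [⟨15, 830, -22, 8, 8, 0, -14, 0, 0⟩]⟩,
  ⟨[⟨0, -138, 0, -1, 1, 0, 0, 0, 0⟩, ⟨0, 150, 0, 1, -1, 0, 0, 0, 0⟩], [⟨11, 2970, 2, 0, 8, 0, 10, 0, 0⟩], [⟨17, 1940, -28, 12, 6, 0, -10, 0, 0⟩, ⟨14, 2439, -13, 6, 7, 0, 0, 0, 0⟩]⟩,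
  ⟨[⟨0, -38, 0, -1, 1, 0, 0, 0, 0⟩, ⟨0, 50, 0, 1, -1, 0, 0, 0, 0⟩], [⟨33, 10800, 2, 64, 30, 0, 2, 0, 0⟩], [⟨67, 5440, -100, 34, 34, 0, -66, 0, 0⟩]⟩,
  ⟨[⟨0, -108, 0, -1, 1, 0, 0, 0, 0⟩, ⟨0, 114, 0, 1, -1, 0, 0, 0, 0⟩], [⟨37, 13750, 2, 0, 34, 0, 70, 0, 0⟩], [⟨73, 4860, -110, 38, 36, 0, -70, 0, 0⟩]⟩,
  ⟨[⟨0, -500, 0, 0, -1, 1, 0, 0, 0⟩, ⟨0, 600, 0, 0, 1, -1, 0, 0, 0⟩], [⟨23, 6810, 2, 0, 0, 20, 0, 44, 0⟩], [⟨45, 3870, -68, 0, 22, 24, 0, -44, 0⟩, ⟨34, 5316, -33, 0, 11, 22, 0, 0, 0⟩]⟩,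
  ⟨[⟨0, -200, 0, -1, 1, 0, 0, 0, 0⟩, ⟨0, 220, 0, 1, -1, 0, 0, 0, 0⟩], [⟨25, 8850, 2, 0, 22, 0, 46, 0, 0⟩], [⟨49, 3250, -74, 26, 24, 0, -46, 0, 0⟩]⟩,
  ⟨[⟨0, -900, 0, -1, 1, 0, 0, 0, 0⟩], [⟨9, 1970, 2, 0, 6, 0, 14, 0, 0⟩], [⟨17, 2110, -26, 10, 8, 0, -14, 0, 0⟩]⟩,
  ⟨[⟨0, -23, 0, 0, -1, 1, 0, 0, 0⟩, ⟨0, 60, 0, 0, 1, -1, 0, 0, 0⟩], [⟨41, 14820, 2, 0, 76, 34, 0, 2, 0⟩], [⟨79, 4800, -120, 0, 42, 38, 0, -74, 0⟩]⟩,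
  ⟨[⟨0, -500, 0, 0, -1, 1, 0, 0, 0⟩], [⟨29, 7490, 2, 0, 0, 26, 0, 58, 0⟩, ⟨44, 6852, -43, 0, 15, 28, 0, 0, 0⟩], [⟨59, 6190, -88, 0, 30, 30, 0, -58, 0⟩]⟩,
  ⟨[⟨0, -600, 0, -1, 1, 0, 0, 0, 0⟩, ⟨0, 675, 0, 1, -1, 0, 0, 0, 0⟩], [⟨18, 5360, 2, 0, 15, 0, 32, 0, 0⟩], [⟨34, 2890, -52, 18, 17, 0, -32, 0, 0⟩, ⟨26, 4112, -25, 9, 16, 0, 0, 0, 0⟩]⟩,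
  ⟨[⟨0, -200, 0, 0, -1, 1, 0, 0, 0⟩], [⟨7, 2480, 2, 0, 0, 4, 0, 14, 0⟩], [⟨15, 1680, -22, 0, 8, 8, 0, -14, 0⟩]⟩,
  ⟨[⟨0, -150, 0, 0, -1, 1, 0, 0, 0⟩, ⟨0, 200, 0, 0, 1, -1, 0, 0, 0⟩], [⟨19, 7760, 2, 0, 0, 16, 0, 26, 0⟩], [⟨33, 1220, -52, 0, 20, 14, 0, -26, 0⟩, ⟨26, 4412, -25, 0, 10, 15, 0, 0, 0⟩]⟩,
  ⟨[⟨0, -100, 0, 0, -1, 1, 0, 0, 0⟩, ⟨0, 150, 0, 0, 1, -1, 0, 0, 0⟩], [⟨21, 7750, 2, 0, 0, 18, 0, 26, 0⟩], [⟨35, 2190, -56, 0, 22, 14, 0, -26, 0⟩, ⟨28, 4849, -27, 0, 11, 16, 0, 0, 0⟩]⟩,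
  ⟨[⟨0, -138, 0, -1, 1, 0, 0, 0, 0⟩, ⟨0, 150, 0, 1, -1, 0, 0, 0, 0⟩], [⟨37, 13500, 2, 0, 34, 0, 70, 0, 0⟩], [⟨73, 4880, -110, 38, 36, 0, -70, 0, 0⟩]⟩,
  ⟨[⟨0, -300, 0, 0, -1, 1, 0, 0, 0⟩], [⟨29, 9730, 2, 0, 0, 26, 0, 54, 0⟩], [⟨57, 4100, -86, 0, 30, 28, 0, -54, 0⟩]⟩]

def wg78 : List Wn := [
  ⟨[⟨0, -159, 0, 0, -1, 1, 0, 0, 0⟩], [⟨15, 6600, 2, 0, 0, 12, 0, 22, 0⟩, ⟨15, 5590, 2, 0, 24, 8, 0, 2, 0⟩], [⟨27, 1880, -42, 0, 16, 12, 0, -22, 0⟩]⟩,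
  ⟨[], [⟨3, 1940, 2, 0, 0, 0, 6, 0, 0⟩, ⟨3, 1300, 2, 4, 0, 0, 2, 0, 0⟩], [⟨7, 1060, -10, 4, 4, 0, -6, 0, 0⟩]⟩,
  ⟨[⟨0, -165, 0, -1, 1, 0, 0, 0, 0⟩, ⟨0, 180, 0, 1, -1, 0, 0, 0, 0⟩], [⟨43, 14280, 2, 0, 40, 0, 86, 0, 0⟩], [⟨87, 7030, -130, 44, 44, 0, -86, 0, 0⟩]⟩,
  ⟨[⟨0, -165, 0, -1, 1, 0, 0, 0, 0⟩, ⟨0, 180, 0, 1, -1, 0, 0, 0, 0⟩], [⟨5, 690, 2, 0, 2, 0, 2, 0, 0⟩], [⟨7, 1290, -12, 6, 2, 0, -2, 0, 0⟩, ⟨6, 980, -5, 3, 2, 0, 0, 0, 0⟩]⟩,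
  ⟨[⟨0, -200, 0, -1, 1, 0, 0, 0, 0⟩, ⟨0, 220, 0, 1, -1, 0, 0, 0, 0⟩], [⟨6, 1330, 2, 0, 3, 0, 10, 0, 0⟩], [⟨10, 1090, -16, 4, 7, 0, -10, 0, 0⟩, ⟨8, 1204, -7, 2, 5, 0, 0, 0, 0⟩]⟩,
  ⟨[⟨0, -138, 0, -1, 1, 0, 0, 0, 0⟩, ⟨0, 150, 0, 1, -1, 0, 0, 0, 0⟩], [⟨4, 730, 2, 0, 1, 0, 8, 0, 0⟩, ⟨6, 784, -5, 2, 3, 0, 0, 0, 0⟩], [⟨8, 830, -12, 4, 5, 0, -8, 0, 0⟩]⟩,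
  ⟨[⟨0, -1350, 0, -1, 1, 0, 0, 0, 0⟩], [⟨24, 8560, 2, 1, 20, 0, 40, 0, 0⟩, ⟨34, 5419, -33, 13, 20, 0, 0, 0, 0⟩], [⟨44, 2260, -68, 25, 20, 0, -40, 0, 0⟩]⟩,
  ⟨[⟨0, -200, 0, -1, 1, 0, 0, 0, 0⟩, ⟨0, 220, 0, 1, -1, 0, 0, 0, 0⟩], [⟨17, 4550, 2, 0, 14, 0, 34, 0, 0⟩, ⟨26, 4127, -25, 9, 16, 0, 0, 0, 0⟩], [⟨35, 3690, -52, 18, 18, 0, -34, 0, 0⟩]⟩,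
  ⟨[⟨0, -23, 0, 0, -1, 1, 0, 0, 0⟩, ⟨0, 60, 0, 0, 1, -1, 0, 0, 0⟩], [⟨4, 1650, 2, 0, 6, 1, 0, 2, 0⟩], [⟨8, 820, -12, 0, 4, 5, 0, -8, 0⟩]⟩,
  ⟨[⟨0, -400, 0, 0, -1, 1, 0, 0, 0⟩], [⟨29, 7560, 2, 0, 0, 26, 0, 58, 0⟩, ⟨44, 6887, -43, 0, 15, 28, 0, 0, 0⟩], [⟨59, 6190, -88, 0, 30, 30, 0, -58, 0⟩]⟩,
  ⟨[⟨0, -1350, 0, -1, 1, 0, 0, 0, 0⟩], [⟨14, 4070, 2, 1, 10, 0, 24, 0, 0⟩, ⟨20, 3054, -19, 8, 11, 0, 0, 0, 0⟩], [⟨26, 2030, -40, 15, 12, 0, -24, 0, 0⟩]⟩,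
  ⟨[⟨0, -23, 0, 0, -1, 1, 0, 0, 0⟩, ⟨0, 60, 0, 0, 1, -1, 0, 0, 0⟩], [⟨33, 10530, 2, 0, 62, 28, 0, 2, 0⟩], [⟨65, 5460, -98, 0, 34, 32, 0, -62, 0⟩]⟩,
  ⟨[⟨0, -450, 0, -1, 1, 0, 0, 0, 0⟩], [⟨6, 1490, 2, 0, 3, 0, 12, 0, 0⟩], [⟨12, 1040, -18, 6, 7, 0, -12, 0, 0⟩]⟩,
  ⟨[⟨0, -108, 0, -1, 1, 0, 0, 0, 0⟩, ⟨0, 114, 0, 1, -1, 0, 0, 0, 0⟩], [⟨3, 700, 2, 0, 0, 0, 6, 0, 0⟩], [⟨7, 880, -10, 4, 4, 0, -6, 0, 0⟩]⟩,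
  ⟨[⟨0, -1350, 0, -1, 1, 0, 0, 0, 0⟩], [⟨42, 12850, 2, 1, 38, 0, 84, 0, 0⟩], [⟨84, 6590, -126, 43, 42, 0, -84, 0, 0⟩]⟩,
  ⟨[⟨0, -200, 0, 0, -1, 1, 0, 0, 0⟩], [⟨29, 10000, 2, 0, 0, 26, 0, 54, 0⟩], [⟨57, 4070, -86, 0, 30, 28, 0, -54, 0⟩]⟩]

def wg79 : List Wn := [
  ⟨[⟨0, -103, 0, -1, 1, 0, 0, 0, 0⟩, ⟨0, 105, 0, 1, -1, 0, 0, 0, 0⟩], [⟨18, 5710, 2, 0, 15, 0, 36, 0, 0⟩], [⟨36, 3250, -54, 18, 19, 0, -36, 0, 0⟩]⟩,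
  ⟨[⟨0, -900, 0, -1, 1, 0, 0, 0, 0⟩], [⟨22, 6580, 2, 1, 18, 0, 44, 0, 0⟩], [⟨44, 3360, -66, 23, 22, 0, -44, 0, 0⟩]⟩,
  ⟨[⟨0, -105, 0, -1, 1, 0, 0, 0, 0⟩, ⟨0, 108, 0, 1, -1, 0, 0, 0, 0⟩], [⟨43, 14850, 2, 0, 40, 0, 86, 0, 0⟩], [⟨87, 7030, -130, 44, 44, 0, -86, 0, 0⟩]⟩,
  ⟨[⟨0, -27, 0, -1, 1, 0, 0, 0, 0⟩, ⟨0, 38, 0, 1, -1, 0, 0, 0, 0⟩], [⟨15, 4690, 2, 26, 10, 0, 2, 0, 0⟩], [⟨29, 2160, -44, 16, 14, 0, -26, 0, 0⟩]⟩,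
  ⟨[⟨0, -245, 0, -1, 1, 0, 0, 0, 0⟩, ⟨0, 270, 0, 1, -1, 0, 0, 0, 0⟩], [⟨8, 1860, 2, 0, 5, 0, 16, 0, 0⟩, ⟨12, 1779, -11, 4, 7, 0, 0, 0, 0⟩], [⟨16, 1690, -24, 8, 9, 0, -16, 0, 0⟩]⟩,
  ⟨[⟨0, -270, 0, -1, 1, 0, 0, 0, 0⟩, ⟨0, 300, 0, 1, -1, 0, 0, 0, 0⟩], [⟨18, 5400, 2, 0, 15, 0, 34, 0, 0⟩], [⟨34, 2860, -52, 16, 19, 0, -34, 0, 0⟩, ⟨26, 4105, -25, 8, 17, 0, 0, 0, 0⟩]⟩,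
  ⟨[⟨0, -100, 0, 0, -1, 1, 0, 0, 0⟩, ⟨0, 150, 0, 0, 1, -1, 0, 0, 0⟩], [⟨27, 9330, 2, 0, 0, 24, 0, 54, 0⟩], [⟨55, 4760, -82, 0, 28, 28, 0, -54, 0⟩]⟩,
  ⟨[⟨0, -50, 0, -1, 1, 0, 0, 0, 0⟩, ⟨0, 66, 0, 1, -1, 0, 0, 0, 0⟩], [⟨7, 2120, 2, 10, 2, 0, 2, 0, 0⟩], [⟨13, 870, -20, 8, 6, 0, -10, 0, 0⟩]⟩,
  ⟨[⟨0, -600, 0, -1, 1, 0, 0, 0, 0⟩], [⟨9, 1980, 2, 0, 6, 0, 14, 0, 0⟩], [⟨17, 2110, -26, 10, 8, 0, -14, 0, 0⟩]⟩,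
  ⟨[], [⟨19, 8520, 2, 0, 16, 0, 30, 0, 0⟩, ⟨19, 7500, 2, 32, 12, 0, 2, 0, 0⟩], [⟨35, 1940, -54, 20, 16, 0, -30, 0, 0⟩]⟩,
  ⟨[⟨0, -1350, 0, -1, 1, 0, 0, 0, 0⟩], [⟨29, 7420, 2, 0, 26, 0, 58, 0, 0⟩], [⟨59, 6190, -88, 30, 30, 0, -58, 0, 0⟩, ⟨44, 6791, -43, 15, 28, 0, 0, 0, 0⟩]⟩,
  ⟨[⟨0, -1200, 0, -1, 1, 0, 0, 0, 0⟩], [⟨14, 4070, 2, 1, 10, 0, 24, 0, 0⟩, ⟨20, 3054, -19, 8, 11, 0, 0, 0, 0⟩], [⟨26, 2030, -40, 15, 12, 0, -24, 0, 0⟩]⟩,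
  ⟨[], [⟨15, 5200, 2, 0, 22, 0, 8, 0, 0⟩, ⟨15, 6360, 2, 22, 6, 0, 2, 0, 0⟩, ⟨20, 3930, -19, 8, 11, 0, 0, 0, 0⟩], [⟨25, 1050, -40, 16, 10, 0, -18, 0, 0⟩]⟩,
  ⟨[⟨0, -300, 0, -1, 1, 0, 0, 0, 0⟩], [⟨6, 1510, 2, 0, 3, 0, 12, 0, 0⟩], [⟨12, 1040, -18, 6, 7, 0, -12, 0, 0⟩]⟩,
  ⟨[⟨0, -245, 0, -1, 1, 0, 0, 0, 0⟩, ⟨0, 270, 0, 1, -1, 0, 0, 0, 0⟩], [⟨31, 9420, 2, 0, 28, 0, 62, 0, 0⟩], [⟨63, 5570, -94, 32, 32, 0, -62, 0, 0⟩]⟩,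
  ⟨[⟨0, -108, 0, -1, 1, 0, 0, 0, 0⟩, ⟨0, 114, 0, 1, -1, 0, 0, 0, 0⟩], [⟨3, 510, 2, 0, 0, 0, 6, 0, 0⟩], [⟨7, 210, -10, 4, 4, 0, -6, 0, 0⟩]⟩]

def wg80 : List Wn := [
  ⟨[⟨0, -103, 0, -1, 1, 0, 0, 0, 0⟩, ⟨0, 105, 0, 1, -1, 0, 0, 0, 0⟩], [⟨11, 3940, 2, 0, 8, 0, 18, 0, 0⟩], [⟨21, 1330, -32, 12, 10, 0, -18, 0, 0⟩, ⟨16, 2615, -15, 6, 9, 0, 0, 0, 0⟩]⟩,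
  ⟨[⟨0, -1200, 0, -1, 1, 0, 0, 0, 0⟩], [⟨42, 12850, 2, 1, 38, 0, 84, 0, 0⟩], [⟨84, 6590, -126, 43, 42, 0, -84, 0, 0⟩]⟩,
  ⟨[⟨0, -200, 0, 0, -1, 1, 0, 0, 0⟩, ⟨0, 300, 0, 0, 1, -1, 0, 0, 0⟩], [⟨10, 3060, 2, 0, 0, 7, 0, 16, 0⟩], [⟨18, 1460, -28, 0, 10, 9, 0, -16, 0⟩, ⟨14, 2216, -13, 0, 5, 8, 0, 0, 0⟩]⟩,
  ⟨[⟨0, -180, 0, -1, 1, 0, 0, 0, 0⟩, ⟨0, 200, 0, 1, -1, 0, 0, 0, 0⟩], [⟨4, 760, 2, 0, 1, 0, 8, 0, 0⟩, ⟨6, 799, -5, 2, 3, 0, 0, 0, 0⟩], [⟨8, 830, -12, 4, 5, 0, -8, 0, 0⟩]⟩,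
  ⟨[⟨0, -103, 0, -1, 1, 0, 0, 0, 0⟩, ⟨0, 105, 0, 1, -1, 0, 0, 0, 0⟩], [⟨25, 9340, 2, 0, 22, 0, 46, 0, 0⟩], [⟨49, 3200, -74, 26, 24, 0, -46, 0, 0⟩]⟩,
  ⟨[⟨0, -200, 0, -1, 1, 0, 0, 0, 0⟩, ⟨0, 220, 0, 1, -1, 0, 0, 0, 0⟩], [⟨15, 4300, 2, 0, 12, 0, 28, 0, 0⟩], [⟨29, 2780, -44, 14, 16, 0, -28, 0, 0⟩, ⟨22, 3516, -21, 7, 14, 0, 0, 0, 0⟩]⟩,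
  ⟨[⟨0, -750, 0, -1, 1, 0, 0, 0, 0⟩, ⟨0, 825, 0, 1, -1, 0, 0, 0, 0⟩], [⟨10, 2910, 2, 0, 7, 0, 16, 0, 0⟩], [⟨18, 1540, -28, 10, 9, 0, -16, 0, 0⟩, ⟨14, 2219, -13, 5, 8, 0, 0, 0, 0⟩]⟩,
  ⟨[⟨0, -93, 0, 0, -1, 1, 0, 0, 0⟩], [⟨15, 6600, 2, 0, 0, 12, 0, 22, 0⟩, ⟨15, 5590, 2, 0, 24, 8, 0, 2, 0⟩], [⟨27, 1800, -42, 0, 16, 12, 0, -22, 0⟩]⟩,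
  ⟨[⟨0, -114, 0, -1, 1, 0, 0, 0, 0⟩, ⟨0, 126, 0, 1, -1, 0, 0, 0, 0⟩], [⟨13, 3820, 2, 0, 10, 0, 24, 0, 0⟩], [⟨25, 2450, -38, 12, 14, 0, -24, 0, 0⟩]⟩,
  ⟨[⟨0, 99, 0, 0, 1, -1, 0, 0, 0⟩], [⟨5, 970, 2, 0, 0, 2, 0, 10, 0⟩, ⟨5, 1830, 2, 0, 8, 2, 0, 2, 0⟩], [⟨11, 1600, -16, 0, 6, 6, 0, -10, 0⟩]⟩,
  ⟨[⟨0, -114, 0, -1, 1, 0, 0, 0, 0⟩, ⟨0, 126, 0, 1, -1, 0, 0, 0, 0⟩], [⟨5, 690, 2, 0, 2, 0, 10, 0, 0⟩, ⟨8, 1154, -7, 3, 4, 0, 0, 0, 0⟩], [⟨11, 1610, -16, 6, 6, 0, -10, 0, 0⟩]⟩,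
  ⟨[⟨0, -114, 0, -1, 1, 0, 0, 0, 0⟩, ⟨0, 126, 0, 1, -1, 0, 0, 0, 0⟩], [⟨11, 3950, 2, 0, 8, 0, 18, 0, 0⟩], [⟨21, 1340, -32, 12, 10, 0, -18, 0, 0⟩, ⟨16, 2615, -15, 6, 9, 0, 0, 0, 0⟩]⟩,
  ⟨[⟨0, -180, 0, -1, 1, 0, 0, 0, 0⟩, ⟨0, 200, 0, 1, -1, 0, 0, 0, 0⟩], [⟨37, 13220, 2, 0, 34, 0, 70, 0, 0⟩], [⟨73, 4900, -110, 38, 36, 0, -70, 0, 0⟩]⟩,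
  ⟨[⟨0, -108, 0, -1, 1, 0, 0, 0, 0⟩, ⟨0, 114, 0, 1, -1, 0, 0, 0, 0⟩], [⟨30, 9830, 2, 0, 27, 0, 60, 0, 0⟩], [⟨60, 5130, -90, 30, 31, 0, -60, 0, 0⟩]⟩,
  ⟨[⟨0, -159, 0, 0, -1, 1, 0, 0, 0⟩], [⟨65, 22780, 2, 0, 0, 122, 0, 58, 0⟩, ⟨65, 27640, 2, 0, 122, 56, 0, 2, 0⟩], [⟨125, 7700, -190, 0, 66, 60, 0, -118, 0⟩]⟩,
  ⟨[⟨0, -245, 0, -1, 1, 0, 0, 0, 0⟩, ⟨0, 270, 0, 1, -1, 0, 0, 0, 0⟩], [⟨11, 3140, 2, 0, 8, 0, 20, 0, 0⟩], [⟨21, 1910, -32, 10, 12, 0, -20, 0, 0⟩, ⟨16, 2509, -15, 5, 10, 0, 0, 0, 0⟩]⟩]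

def wg81 : List Wn := [
  ⟨[⟨0, -600, 0, -1, 0, 1, 0, 0, 0⟩], [⟨3, 10, 2, 0, 0, 0, 0, 0, 2⟩, ⟨4, 604, -3, 2, 0, 1, 0, 0, 0⟩], [⟨5, 1190, -8, 4, 0, 2, 0, 0, -2⟩]⟩,
  ⟨[⟨0, -220, 0, -1, 1, 0, 0, 0, 0⟩, ⟨0, 245, 0, 1, -1, 0, 0, 0, 0⟩], [⟨14, 4310, 2, 1, 10, 0, 24, 0, 0⟩, ⟨20, 3155, -19, 8, 11, 0, 0, 0, 0⟩], [⟨26, 1980, -40, 15, 12, 0, -24, 0, 0⟩]⟩,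
  ⟨[⟨0, -200, 0, -1, 1, 0, 0, 0, 0⟩, ⟨0, 220, 0, 1, -1, 0, 0, 0, 0⟩], [⟨18, 5280, 2, 0, 15, 0, 36, 0, 0⟩], [⟨36, 3250, -54, 18, 19, 0, -36, 0, 0⟩]⟩,
  ⟨[⟨0, -200, 0, 0, -1, 1, 0, 0, 0⟩], [⟨29, 7970, 2, 0, 0, 26, 0, 58, 0⟩, ⟨44, 7095, -43, 0, 15, 28, 0, 0, 0⟩], [⟨59, 6190, -88, 0, 30, 30, 0, -58, 0⟩]⟩,
  ⟨[⟨0, -1050, 0, -1, 1, 0, 0, 0, 0⟩], [⟨14, 4070, 2, 1, 10, 0, 24, 0, 0⟩, ⟨20, 3055, -19, 8, 11, 0, 0, 0, 0⟩], [⟨26, 2030, -40, 15, 12, 0, -24, 0, 0⟩]⟩,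
  ⟨[⟨0, -150, 0, 0, -1, 1, 0, 0, 0⟩, ⟨0, 200, 0, 0, 1, -1, 0, 0, 0⟩], [⟨7, 1630, 2, 0, 0, 4, 0, 12, 0⟩], [⟨13, 1540, -20, 0, 6, 8, 0, -12, 0⟩, ⟨10, 1555, -9, 0, 3, 6, 0, 0, 0⟩]⟩,
  ⟨[⟨0, -1350, 0, -1, 1, 0, 0, 0, 0⟩], [⟨6, 2140, 2, 0, 3, 0, 12, 0, 0⟩], [⟨12, 1220, -18, 6, 7, 0, -12, 0, 0⟩]⟩,
  ⟨[⟨0, -150, 0, -1, 1, 0, 0, 0, 0⟩, ⟨0, 165, 0, 1, -1, 0, 0, 0, 0⟩], [⟨5, 730, 2, 0, 2, 0, 10, 0, 0⟩, ⟨8, 1175, -7, 3, 4, 0, 0, 0, 0⟩], [⟨11, 1610, -16, 6, 6, 0, -10, 0, 0⟩]⟩,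
  ⟨[⟨0, -150, 0, 0, -1, 1, 0, 0, 0⟩, ⟨0, 200, 0, 0, 1, -1, 0, 0, 0⟩], [⟨35, 11200, 2, 0, 0, 32, 0, 70, 0⟩], [⟨71, 6210, -106, 0, 36, 36, 0, -70, 0⟩]⟩,
  ⟨[⟨0, -300, 0, 0, -1, 1, 0, 0, 0⟩, ⟨0, 400, 0, 0, 1, -1, 0, 0, 0⟩], [⟨5, 750, 2, 0, 0, 2, 0, 4, 0⟩], [⟨7, 1330, -12, 0, 4, 4, 0, -4, 0⟩, ⟨6, 1029, -5, 0, 2, 3, 0, 0, 0⟩]⟩,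
  ⟨[⟨0, -201, 0, -1, 1, 0, 0, 0, 0⟩], [⟨5, 1600, 2, 0, 2, 0, 6, 0, 0⟩, ⟨5, 1400, 2, 6, 0, 0, 2, 0, 0⟩], [⟨9, 200, -14, 6, 4, 0, -6, 0, 0⟩]⟩,
  ⟨[⟨0, -530, 0, -1, 1, 0, 0, 0, 0⟩, ⟨0, 600, 0, 1, -1, 0, 0, 0, 0⟩], [⟨19, 5000, 2, 0, 16, 0, 36, 0, 0⟩], [⟨37, 3760, -56, 18, 20, 0, -36, 0, 0⟩, ⟨28, 4364, -27, 9, 18, 0, 0, 0, 0⟩]⟩,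
  ⟨[⟨0, -138, 0, -1, 1, 0, 0, 0, 0⟩, ⟨0, 150, 0, 1, -1, 0, 0, 0, 0⟩], [⟨30, 9620, 2, 0, 27, 0, 60, 0, 0⟩], [⟨60, 5130, -90, 30, 31, 0, -60, 0, 0⟩]⟩,
  ⟨[⟨0, -600, 0, -1, 1, 0, 0, 0, 0⟩], [⟨22, 6600, 2, 1, 18, 0, 44, 0, 0⟩], [⟨44, 3360, -66, 23, 22, 0, -44, 0, 0⟩]⟩,
  ⟨[], [⟨15, 6600, 2, 0, 0, 12, 0, 22, 0⟩, ⟨15, 5590, 2, 0, 24, 8, 0, 2, 0⟩], [⟨27, 1650, -42, 0, 16, 12, 0, -22, 0⟩]⟩,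
  ⟨[⟨0, -114, 0, -1, 1, 0, 0, 0, 0⟩, ⟨0, 126, 0, 1, -1, 0, 0, 0, 0⟩], [⟨5, 690, 2, 0, 2, 0, 10, 0, 0⟩], [⟨11, 1610, -16, 6, 6, 0, -10, 0, 0⟩, ⟨8, 1057, -7, 3, 4, 0, 0, 0, 0⟩]⟩]

def wg82 : List Wn := [
  ⟨[⟨0, -103, 0, -1, 1, 0, 0, 0, 0⟩, ⟨0, 105, 0, 1, -1, 0, 0, 0, 0⟩], [⟨15, 4960, 2, 0, 12, 0, 30, 0, 0⟩], [⟨31, 2710, -46, 16, 16, 0, -30, 0, 0⟩]⟩,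
  ⟨[⟨0, -50, 0, -1, 1, 0, 0, 0, 0⟩, ⟨0, 66, 0, 1, -1, 0, 0, 0, 0⟩], [⟨7, 2780, 2, 10, 2, 0, 2, 0, 0⟩], [⟨13, 1050, -20, 8, 6, 0, -10, 0, 0⟩]⟩,
  ⟨[⟨0, -150, 0, -1, 1, 0, 0, 0, 0⟩, ⟨0, 165, 0, 1, -1, 0, 0, 0, 0⟩], [⟨15, 4660, 2, 0, 12, 0, 30, 0, 0⟩], [⟨31, 2710, -46, 16, 16, 0, -30, 0, 0⟩]⟩,
  ⟨[⟨0, -470, 0, -1, 1, 0, 0, 0, 0⟩, ⟨0, 530, 0, 1, -1, 0, 0, 0, 0⟩], [⟨41, 13100, 2, 0, 38, 0, 78, 0, 0⟩], [⟨81, 6320, -122, 42, 40, 0, -78, 0, 0⟩]⟩,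
  ⟨[⟨0, -1350, 0, -1, 1, 0, 0, 0, 0⟩], [⟨34, 10990, 2, 1, 30, 0, 64, 0, 0⟩, ⟨50, 7824, -49, 18, 31, 0, 0, 0, 0⟩], [⟨66, 4630, -100, 35, 32, 0, -64, 0, 0⟩]⟩,
  ⟨[⟨0, -400, 0, 0, -1, 1, 0, 0, 0⟩], [⟨9, 2010, 2, 0, 0, 6, 0, 14, 0⟩], [⟨17, 2100, -26, 0, 10, 8, 0, -14, 0⟩]⟩,
  ⟨[⟨0, -103, 0, -1, 1, 0, 0, 0, 0⟩, ⟨0, 105, 0, 1, -1, 0, 0, 0, 0⟩], [⟨14, 4600, 2, 0, 11, 0, 26, 0, 0⟩], [⟨26, 2030, -40, 12, 15, 0, -26, 0, 0⟩, ⟨20, 3297, -19, 6, 13, 0, 0, 0, 0⟩]⟩,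
  ⟨[], [⟨27, 12310, 2, 0, 0, 24, 0, 46, 0⟩, ⟨27, 11290, 2, 0, 48, 20, 0, 2, 0⟩], [⟨51, 2560, -78, 0, 28, 24, 0, -46, 0⟩]⟩,
  ⟨[⟨0, -900, 0, -1, 1, 0, 0, 0, 0⟩], [⟨14, 4070, 2, 1, 10, 0, 24, 0, 0⟩, ⟨20, 3055, -19, 8, 11, 0, 0, 0, 0⟩], [⟨26, 2030, -40, 15, 12, 0, -24, 0, 0⟩]⟩,
  ⟨[⟨0, -597, 0, -1, 1, 0, 0, 0, 0⟩], [⟨63, 27090, 2, 0, 60, 0, 118, 0, 0⟩, ⟨63, 26070, 2, 120, 56, 0, 2, 0, 0⟩], [⟨123, 8010, -186, 64, 60, 0, -118, 0, 0⟩]⟩,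
  ⟨[⟨0, -1200, 0, -1, 1, 0, 0, 0, 0⟩], [⟨6, 2140, 2, 0, 3, 0, 12, 0, 0⟩], [⟨12, 1220, -18, 6, 7, 0, -12, 0, 0⟩]⟩,
  ⟨[⟨0, -150, 0, -1, 1, 0, 0, 0, 0⟩, ⟨0, 165, 0, 1, -1, 0, 0, 0, 0⟩], [⟨5, 730, 2, 0, 2, 0, 10, 0, 0⟩], [⟨11, 1610, -16, 6, 6, 0, -10, 0, 0⟩, ⟨8, 1148, -7, 3, 4, 0, 0, 0, 0⟩]⟩,
  ⟨[⟨0, -108, 0, -1, 1, 0, 0, 0, 0⟩, ⟨0, 114, 0, 1, -1, 0, 0, 0, 0⟩], [⟨4, 550, 2, 0, 1, 0, 8, 0, 0⟩, ⟨6, 694, -5, 2, 3, 0, 0, 0, 0⟩], [⟨8, 830, -12, 4, 5, 0, -8, 0, 0⟩]⟩,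
  ⟨[⟨0, -18, 0, -1, 1, 0, 0, 0, 0⟩, ⟨0, 27, 0, 1, -1, 0, 0, 0, 0⟩], [⟨21, 5960, 2, 40, 18, 0, 2, 0, 0⟩], [⟨43, 4130, -64, 22, 22, 0, -42, 0, 0⟩]⟩,
  ⟨[⟨0, -23, 0, 0, -1, 1, 0, 0, 0⟩, ⟨0, 60, 0, 0, 1, -1, 0, 0, 0⟩], [⟨26, 8320, 2, 0, 50, 23, 0, 2, 0⟩], [⟨52, 4320, -78, 0, 26, 27, 0, -52, 0⟩]⟩,
  ⟨[⟨0, -84, 0, -1, 1, 0, 0, 0, 0⟩, ⟨0, 92, 0, 1, -1, 0, 0, 0, 0⟩], [⟨10, 4620, 2, 0, 7, 0, 20, 0, 0⟩], [⟨20, 1590, -30, 10, 11, 0, -20, 0, 0⟩]⟩]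

def wg83 : List Wn := [
  ⟨[⟨0, -150, 0, -1, 1, 0, 0, 0, 0⟩, ⟨0, 165, 0, 1, -1, 0, 0, 0, 0⟩], [⟨11, 3880, 2, 0, 8, 0, 18, 0, 0⟩], [⟨21, 1360, -32, 12, 10, 0, -18, 0, 0⟩, ⟨16, 2598, -15, 6, 9, 0, 0, 0, 0⟩]⟩,
  ⟨[⟨0, -108, 0, -1, 1, 0, 0, 0, 0⟩, ⟨0, 114, 0, 1, -1, 0, 0, 0, 0⟩], [⟨11, 2840, 2, 0, 8, 0, 22, 0, 0⟩], [⟨23, 2730, -34, 12, 12, 0, -22, 0, 0⟩]⟩,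
  ⟨[], [⟨11, 4570, 2, 0, 0, 16, 0, 6, 0⟩, ⟨11, 5600, 2, 0, 16, 4, 0, 2, 0⟩], [⟨19, 920, -30, 0, 12, 8, 0, -14, 0⟩]⟩,
  ⟨[⟨0, -270, 0, -1, 1, 0, 0, 0, 0⟩, ⟨0, 300, 0, 1, -1, 0, 0, 0, 0⟩], [⟨25, 8670, 2, 0, 22, 0, 46, 0, 0⟩], [⟨49, 3280, -74, 26, 24, 0, -46, 0, 0⟩]⟩,
  ⟨[⟨0, -60, 0, 0, -1, 1, 0, 0, 0⟩, ⟨0, 100, 0, 0, 1, -1, 0, 0, 0⟩], [⟨6, 1460, 2, 0, 7, 4, 0, 2, 0⟩], [⟨10, 1090, -16, 0, 7, 4, 0, -10, 0⟩, ⟨8, 1169, -7, 0, 7, 4, 0, -4, 0⟩]⟩,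
  ⟨[⟨0, -450, 0, -1, 1, 0, 0, 0, 0⟩], [⟨22, 6650, 2, 1, 18, 0, 44, 0, 0⟩], [⟨44, 3360, -66, 23, 22, 0, -44, 0, 0⟩]⟩,
  ⟨[⟨0, -114, 0, -1, 1, 0, 0, 0, 0⟩, ⟨0, 126, 0, 1, -1, 0, 0, 0, 0⟩], [⟨14, 4540, 2, 0, 11, 0, 26, 0, 0⟩], [⟨26, 2030, -40, 12, 15, 0, -26, 0, 0⟩, ⟨20, 3256, -19, 6, 13, 0, 0, 0, 0⟩]⟩,
  ⟨[⟨0, -300, 0, 0, -1, 1, 0, 0, 0⟩, ⟨0, 400, 0, 0, 1, -1, 0, 0, 0⟩], [⟨18, 5490, 2, 0, 0, 15, 0, 32, 0⟩], [⟨34, 2850, -52, 0, 18, 17, 0, -32, 0⟩, ⟨26, 4126, -25, 0, 9, 16, 0, 0, 0⟩]⟩,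
  ⟨[⟨0, -825, 0, -1, 1, 0, 0, 0, 0⟩, ⟨0, 900, 0, 1, -1, 0, 0, 0, 0⟩], [⟨18, 5350, 2, 0, 15, 0, 32, 0, 0⟩], [⟨34, 2890, -52, 18, 17, 0, -32, 0, 0⟩, ⟨26, 4109, -25, 9, 16, 0, 0, 0, 0⟩]⟩,
  ⟨[⟨0, -92, 0, -1, 1, 0, 0, 0, 0⟩, ⟨0, 99, 0, 1, -1, 0, 0, 0, 0⟩], [⟨33, 11770, 2, 0, 30, 0, 62, 0, 0⟩], [⟨65, 5510, -98, 34, 32, 0, -62, 0, 0⟩]⟩,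
  ⟨[], [⟨29, 12290, 2, 0, 26, 0, 54, 0, 0⟩, ⟨29, 11450, 2, 54, 24, 0, 2, 0, 0⟩], [⟨57, 3940, -86, 30, 28, 0, -54, 0, 0⟩]⟩,
  ⟨[⟨0, -200, 0, 0, -1, 1, 0, 0, 0⟩], [⟨27, 10450, 2, 0, 0, 24, 0, 38, 0⟩], [⟨47, 2310, -74, 0, 28, 20, 0, -38, 0⟩]⟩,
  ⟨[⟨0, -138, 0, -1, 1, 0, 0, 0, 0⟩, ⟨0, 150, 0, 1, -1, 0, 0, 0, 0⟩], [⟨11, 2670, 2, 0, 8, 0, 22, 0, 0⟩], [⟨23, 2730, -34, 12, 12, 0, -22, 0, 0⟩]⟩,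
  ⟨[⟨0, -1350, 0, -1, 1, 0, 0, 0, 0⟩], [⟨9, 2630, 2, 0, 6, 0, 14, 0, 0⟩], [⟨17, 2300, -26, 10, 8, 0, -14, 0, 0⟩]⟩,
  ⟨[⟨0, -220, 0, -1, 1, 0, 0, 0, 0⟩, ⟨0, 245, 0, 1, -1, 0, 0, 0, 0⟩], [⟨43, 13940, 2, 0, 40, 0, 86, 0, 0⟩], [⟨87, 7030, -130, 44, 44, 0, -86, 0, 0⟩]⟩,
  ⟨[⟨0, -750, 0, -1, 1, 0, 0, 0, 0⟩], [⟨14, 4080, 2, 1, 10, 0, 24, 0, 0⟩, ⟨20, 3057, -19, 8, 11, 0, 0, 0, 0⟩], [⟨26, 2030, -40, 15, 12, 0, -24, 0, 0⟩]⟩]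

def wg84 : List Wn := [
  ⟨[⟨0, -1050, 0, -1, 1, 0, 0, 0, 0⟩], [⟨6, 2140, 2, 0, 3, 0, 12, 0, 0⟩], [⟨12, 1220, -18, 6, 7, 0, -12, 0, 0⟩]⟩,
  ⟨[⟨0, -1350, 0, -1, 1, 0, 0, 0, 0⟩], [⟨15, 4040, 2, 0, 12, 0, 28, 0, 0⟩], [⟨29, 2780, -44, 14, 16, 0, -28, 0, 0⟩, ⟨22, 3404, -21, 7, 14, 0, 0, 0, 0⟩]⟩,
  ⟨[⟨0, -76, 0, -1, 1, 0, 0, 0, 0⟩, ⟨0, 84, 0, 1, -1, 0, 0, 0, 0⟩], [⟨19, 5830, 2, 36, 16, 0, 2, 0, 0⟩], [⟨39, 3690, -58, 20, 20, 0, -38, 0, 0⟩]⟩,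
  ⟨[⟨0, -101, 0, -1, 1, 0, 0, 0, 0⟩, ⟨0, 103, 0, 1, -1, 0, 0, 0, 0⟩], [⟨37, 13870, 2, 0, 34, 0, 70, 0, 0⟩], [⟨73, 4860, -110, 38, 36, 0, -70, 0, 0⟩]⟩,
  ⟨[⟨0, -101, 0, -1, 1, 0, 0, 0, 0⟩, ⟨0, 103, 0, 1, -1, 0, 0, 0, 0⟩], [⟨30, 10020, 2, 0, 27, 0, 60, 0, 0⟩], [⟨60, 5130, -90, 30, 31, 0, -60, 0, 0⟩]⟩,
  ⟨[⟨0, -300, 0, -1, 1, 0, 0, 0, 0⟩], [⟨22, 6790, 2, 1, 18, 0, 44, 0, 0⟩], [⟨44, 3360, -66, 23, 22, 0, -44, 0, 0⟩]⟩,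
  ⟨[⟨0, -270, 0, -1, 1, 0, 0, 0, 0⟩, ⟨0, 300, 0, 1, -1, 0, 0, 0, 0⟩], [⟨17, 4420, 2, 0, 14, 0, 34, 0, 0⟩, ⟨26, 4063, -25, 9, 16, 0, 0, 0, 0⟩], [⟨35, 3690, -52, 18, 18, 0, -34, 0, 0⟩]⟩,
  ⟨[⟨0, -10, 0, -1, 1, 0, 0, 0, 0⟩, ⟨0, 18, 0, 1, -1, 0, 0, 0, 0⟩], [⟨35, 10560, 2, 68, 32, 0, 2, 0, 0⟩], [⟨71, 6210, -106, 36, 36, 0, -70, 0, 0⟩]⟩,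
  ⟨[⟨0, -138, 0, -1, 1, 0, 0, 0, 0⟩, ⟨0, 150, 0, 1, -1, 0, 0, 0, 0⟩], [⟨11, 2480, 2, 0, 8, 0, 22, 0, 0⟩], [⟨23, 2070, -34, 12, 12, 0, -22, 0, 0⟩]⟩,
  ⟨[⟨0, -180, 0, -1, 1, 0, 0, 0, 0⟩, ⟨0, 200, 0, 1, -1, 0, 0, 0, 0⟩], [⟨30, 9410, 2, 0, 27, 0, 60, 0, 0⟩], [⟨60, 5130, -90, 30, 31, 0, -60, 0, 0⟩]⟩,
  ⟨[⟨0, -200, 0, 0, -1, 1, 0, 0, 0⟩], [⟨9, 2140, 2, 0, 0, 6, 0, 14, 0⟩], [⟨17, 2050, -26, 0, 10, 8, 0, -14, 0⟩]⟩,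
  ⟨[⟨0, -38, 0, -1, 1, 0, 0, 0, 0⟩, ⟨0, 50, 0, 1, -1, 0, 0, 0, 0⟩], [⟨31, 9690, 2, 60, 28, 0, 2, 0, 0⟩], [⟨63, 5570, -94, 32, 32, 0, -62, 0, 0⟩]⟩,
  ⟨[⟨0, -1200, 0, -1, 1, 0, 0, 0, 0⟩], [⟨9, 2630, 2, 0, 6, 0, 14, 0, 0⟩], [⟨17, 2300, -26, 10, 8, 0, -14, 0, 0⟩]⟩,
  ⟨[⟨0, -100, 0, 0, -1, 1, 0, 0, 0⟩, ⟨0, 150, 0, 0, 1, -1, 0, 0, 0⟩], [⟨15, 5700, 2, 0, 0, 12, 0, 18, 0⟩], [⟨25, 1320, -40, 0, 16, 10, 0, -18, 0⟩, ⟨20, 3416, -19, 0, 8, 11, 0, 0, 0⟩]⟩,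
  ⟨[⟨0, -150, 0, -1, 1, 0, 0, 0, 0⟩, ⟨0, 165, 0, 1, -1, 0, 0, 0, 0⟩], [⟨14, 4450, 2, 0, 11, 0, 26, 0, 0⟩], [⟨26, 2030, -40, 12, 15, 0, -26, 0, 0⟩, ⟨20, 3215, -19, 6, 13, 0, 0, 0, 0⟩]⟩,
  ⟨[⟨0, -597, 0, -1, 1, 0, 0, 0, 0⟩], [⟨45, 13550, 2, 0, 88, 0, 44, 0, 0⟩, ⟨45, 17610, 2, 88, 42, 0, 2, 0, 0⟩, ⟨68, 10690, -67, 23, 44, 0, 0, 0, 0⟩], [⟨91, 7630, -136, 46, 46, 0, -90, 0, 0⟩]⟩]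

def wg85 : List Wn := [
  ⟨[⟨0, -101, 0, -1, 1, 0, 0, 0, 0⟩, ⟨0, 103, 0, 1, -1, 0, 0, 0, 0⟩], [⟨9, 2370, 2, 0, 6, 0, 14, 0, 0⟩], [⟨17, 2000, -26, 10, 8, 0, -14, 0, 0⟩]⟩,
  ⟨[⟨0, -600, 0, -1, 1, 0, 0, 0, 0⟩], [⟨14, 4090, 2, 1, 10, 0, 24, 0, 0⟩, ⟨20, 3063, -19, 8, 11, 0, 0, 0, 0⟩], [⟨26, 2020, -40, 15, 12, 0, -24, 0, 0⟩]⟩,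
  ⟨[⟨0, -301, 0, -1, 1, 0, 0, 0, 0⟩], [⟨63, 27090, 2, 0, 60, 0, 118, 0, 0⟩, ⟨63, 26070, 2, 120, 56, 0, 2, 0, 0⟩], [⟨123, 7950, -186, 64, 60, 0, -118, 0, 0⟩]⟩,
  ⟨[⟨0, -900, 0, -1, 1, 0, 0, 0, 0⟩], [⟨6, 2140, 2, 0, 3, 0, 12, 0, 0⟩], [⟨12, 1220, -18, 6, 7, 0, -12, 0, 0⟩]⟩,
  ⟨[⟨0, -1200, 0, -1, 1, 0, 0, 0, 0⟩], [⟨15, 4040, 2, 0, 12, 0, 28, 0, 0⟩], [⟨29, 2780, -44, 14, 16, 0, -28, 0, 0⟩, ⟨22, 3404, -21, 7, 14, 0, 0, 0, 0⟩]⟩,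
  ⟨[⟨0, -92, 0, -1, 1, 0, 0, 0, 0⟩, ⟨0, 99, 0, 1, -1, 0, 0, 0, 0⟩], [⟨30, 10830, 2, 0, 27, 0, 60, 0, 0⟩], [⟨60, 5130, -90, 30, 31, 0, -60, 0, 0⟩]⟩,
  ⟨[⟨0, -23, 0, 0, -1, 1, 0, 0, 0⟩, ⟨0, 60, 0, 0, 1, -1, 0, 0, 0⟩], [⟨39, 15140, 2, 0, 72, 32, 0, 2, 0⟩], [⟨75, 3480, -114, 0, 40, 36, 0, -70, 0⟩]⟩,
  ⟨[⟨0, -400, 0, 0, -1, 1, 0, 0, 0⟩], [⟨17, 6470, 2, 0, 0, 14, 0, 26, 0⟩, ⟨24, 3971, -23, 0, 9, 14, 0, 0, 0⟩], [⟨31, 1420, -48, 0, 18, 14, 0, -26, 0⟩]⟩,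
  ⟨[⟨0, -1350, 0, -1, 1, 0, 0, 0, 0⟩], [⟨26, 8430, 2, 0, 23, 0, 48, 0, 0⟩], [⟨50, 3600, -76, 26, 25, 0, -48, 0, 0⟩, ⟨38, 6004, -37, 13, 24, 0, 0, 0, 0⟩]⟩,
  ⟨[⟨0, -114, 0, -1, 1, 0, 0, 0, 0⟩, ⟨0, 126, 0, 1, -1, 0, 0, 0, 0⟩], [⟨6, 2390, 2, 0, 3, 0, 12, 0, 0⟩], [⟨12, 1220, -18, 6, 7, 0, -12, 0, 0⟩]⟩,
  ⟨[⟨0, -200, 0, -1, 1, 0, 0, 0, 0⟩, ⟨0, 220, 0, 1, -1, 0, 0, 0, 0⟩], [⟨5, 710, 2, 0, 2, 0, 10, 0, 0⟩, ⟨8, 1163, -7, 3, 4, 0, 0, 0, 0⟩], [⟨11, 1610, -16, 6, 6, 0, -10, 0, 0⟩]⟩,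
  ⟨[⟨0, -500, 0, 0, -1, 1, 0, 0, 0⟩, ⟨0, 600, 0, 0, 1, -1, 0, 0, 0⟩], [⟨10, 2930, 2, 0, 0, 7, 0, 16, 0⟩], [⟨18, 1530, -28, 0, 10, 9, 0, -16, 0⟩, ⟨14, 2218, -13, 0, 5, 8, 0, 0, 0⟩]⟩,
  ⟨[⟨0, -245, 0, -1, 1, 0, 0, 0, 0⟩, ⟨0, 270, 0, 1, -1, 0, 0, 0, 0⟩], [⟨4, 750, 2, 0, 1, 0, 8, 0, 0⟩, ⟨6, 795, -5, 2, 3, 0, 0, 0, 0⟩], [⟨8, 830, -12, 4, 5, 0, -8, 0, 0⟩]⟩,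
  ⟨[⟨0, -270, 0, -1, 1, 0, 0, 0, 0⟩, ⟨0, 300, 0, 1, -1, 0, 0, 0, 0⟩], [⟨15, 4200, 2, 0, 12, 0, 28, 0, 0⟩], [⟨29, 2780, -44, 14, 16, 0, -28, 0, 0⟩, ⟨22, 3468, -21, 7, 14, 0, 0, 0, 0⟩]⟩,
  ⟨[⟨0, -1050, 0, -1, 1, 0, 0, 0, 0⟩], [⟨7, 610, 2, 0, 4, 0, 2, 0, 0⟩, ⟨8, 1403, -7, 4, 3, 0, 0, 0, 0⟩], [⟨9, 2190, -16, 8, 2, 0, -2, 0, 0⟩]⟩,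
  ⟨[⟨0, -1200, 0, 0, -1, 1, 0, 0, 0⟩], [⟨9, 2630, 2, 0, 0, 6, 0, 14, 0⟩], [⟨17, 2300, -26, 0, 10, 8, 0, -14, 0⟩]⟩]

def wg86 : List Wn := [
  ⟨[⟨0, -1050, 0, -1, 1, 0, 0, 0, 0⟩], [⟨9, 2640, 2, 0, 6, 0, 14, 0, 0⟩], [⟨17, 2300, -26, 10, 8, 0, -14, 0, 0⟩]⟩,
  ⟨[⟨0, -1350, 0, -1, 1, 0, 0, 0, 0⟩], [⟨19, 5720, 2, 0, 16, 0, 34, 0, 0⟩], [⟨37, 3120, -56, 20, 18, 0, -34, 0, 0⟩, ⟨28, 4412, -27, 10, 17, 0, 0, 0, 0⟩]⟩,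
  ⟨[⟨0, -200, 0, -1, 1, 0, 0, 0, 0⟩, ⟨0, 220, 0, 1, -1, 0, 0, 0, 0⟩], [⟨18, 5150, 2, 1, 14, 0, 36, 0, 0⟩], [⟨36, 3250, -54, 19, 18, 0, -36, 0, 0⟩]⟩,
  ⟨[⟨0, -101, 0, -1, 1, 0, 0, 0, 0⟩, ⟨0, 103, 0, 1, -1, 0, 0, 0, 0⟩], [⟨9, 2190, 2, 0, 6, 0, 14, 0, 0⟩], [⟨17, 1330, -26, 10, 8, 0, -14, 0, 0⟩]⟩,
  ⟨[⟨0, -450, 0, -1, 1, 0, 0, 0, 0⟩], [⟨14, 4120, 2, 1, 10, 0, 24, 0, 0⟩, ⟨20, 3079, -19, 8, 11, 0, 0, 0, 0⟩], [⟨26, 2020, -40, 15, 12, 0, -24, 0, 0⟩]⟩,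
  ⟨[⟨0, -108, 0, -1, 1, 0, 0, 0, 0⟩, ⟨0, 114, 0, 1, -1, 0, 0, 0, 0⟩], [⟨27, 8910, 2, 0, 24, 0, 54, 0, 0⟩], [⟨55, 4760, -82, 28, 28, 0, -54, 0, 0⟩]⟩,
  ⟨[⟨0, -597, 0, -1, 1, 0, 0, 0, 0⟩], [⟨21, 7610, 2, 0, 18, 0, 40, 0, 0⟩, ⟨21, 6740, 2, 40, 16, 0, 2, 0, 0⟩, ⟨31, 5530, -30, 30, 0, 0, 0, 0, 0⟩], [⟨41, 4170, -62, 20, 22, 0, -40, 0, 0⟩]⟩,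
  ⟨[⟨0, -750, 0, -1, 1, 0, 0, 0, 0⟩], [⟨6, 2140, 2, 0, 3, 0, 12, 0, 0⟩], [⟨12, 1220, -18, 6, 7, 0, -12, 0, 0⟩]⟩,
  ⟨[⟨0, -150, 0, -1, 1, 0, 0, 0, 0⟩, ⟨0, 165, 0, 1, -1, 0, 0, 0, 0⟩], [⟨6, 2270, 2, 0, 3, 0, 12, 0, 0⟩], [⟨12, 1220, -18, 6, 7, 0, -12, 0, 0⟩]⟩,
  ⟨[⟨0, -1050, 0, -1, 1, 0, 0, 0, 0⟩], [⟨15, 4040, 2, 0, 12, 0, 28, 0, 0⟩], [⟨29, 2780, -44, 14, 16, 0, -28, 0, 0⟩, ⟨22, 3404, -21, 7, 14, 0, 0, 0, 0⟩]⟩,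
  ⟨[⟨0, -180, 0, -1, 1, 0, 0, 0, 0⟩, ⟨0, 200, 0, 1, -1, 0, 0, 0, 0⟩], [⟨4, 850, 2, 1, 0, 0, 8, 0, 0⟩, ⟨6, 842, -5, 3, 2, 0, 0, 0, 0⟩], [⟨8, 830, -12, 5, 4, 0, -8, 0, 0⟩]⟩,
  ⟨[⟨0, -126, 0, -1, 1, 0, 0, 0, 0⟩, ⟨0, 138, 0, 1, -1, 0, 0, 0, 0⟩], [⟨42, 14310, 2, 0, 39, 0, 84, 0, 0⟩], [⟨84, 6590, -126, 42, 43, 0, -84, 0, 0⟩]⟩,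
  ⟨[⟨0, -200, 0, -1, 1, 0, 0, 0, 0⟩, ⟨0, 220, 0, 1, -1, 0, 0, 0, 0⟩], [⟨15, 4540, 2, 0, 12, 0, 30, 0, 0⟩], [⟨31, 2710, -46, 16, 16, 0, -30, 0, 0⟩]⟩,
  ⟨[], [⟨5, 1600, 2, 0, 2, 0, 6, 0, 0⟩, ⟨5, 1400, 2, 6, 0, 0, 2, 0, 0⟩], [⟨9, 60, -14, 6, 4, 0, -6, 0, 0⟩]⟩,
  ⟨[⟨0, -245, 0, -1, 1, 0, 0, 0, 0⟩, ⟨0, 270, 0, 1, -1, 0, 0, 0, 0⟩], [⟨37, 12930, 2, 0, 34, 0, 70, 0, 0⟩], [⟨73, 4920, -110, 38, 36, 0, -70, 0, 0⟩]⟩,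
  ⟨[⟨0, -114, 0, -1, 1, 0, 0, 0, 0⟩, ⟨0, 126, 0, 1, -1, 0, 0, 0, 0⟩], [⟨21, 6660, 2, 0, 18, 0, 38, 0, 0⟩], [⟨41, 3740, -62, 22, 20, 0, -38, 0, 0⟩]⟩]

def wg87 : List Wn := [
  ⟨[⟨0, -23, 0, 0, -1, 1, 0, 0, 0⟩, ⟨0, 60, 0, 0, 1, -1, 0, 0, 0⟩], [⟨31, 10500, 2, 0, 58, 26, 0, 2, 0⟩], [⟨61, 4480, -92, 0, 32, 30, 0, -58, 0⟩]⟩,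
  ⟨[⟨0, -180, 0, -1, 1, 0, 0, 0, 0⟩, ⟨0, 200, 0, 1, -1, 0, 0, 0, 0⟩], [⟨11, 2580, 2, 0, 8, 0, 22, 0, 0⟩], [⟨23, 2730, -34, 12, 12, 0, -22, 0, 0⟩]⟩,
  ⟨[⟨0, -300, 0, 0, -1, 1, 0, 0, 0⟩], [⟨17, 6550, 2, 0, 0, 14, 0, 26, 0⟩, ⟨24, 4008, -23, 0, 9, 14, 0, 0, 0⟩], [⟨31, 1390, -48, 0, 18, 14, 0, -26, 0⟩]⟩,
  ⟨[⟨0, -159, 0, 0, -1, 1, 0, 0, 0⟩], [⟨67, 28240, 2, 0, 0, 64, 0, 126, 0⟩, ⟨67, 27210, 2, 0, 128, 60, 0, 2, 0⟩], [⟨131, 8920, -198, 0, 68, 64, 0, -126, 0⟩]⟩,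
  ⟨[⟨0, -1200, 0, -1, 1, 0, 0, 0, 0⟩], [⟨26, 8430, 2, 0, 23, 0, 48, 0, 0⟩], [⟨50, 3600, -76, 26, 25, 0, -48, 0, 0⟩, ⟨38, 6004, -37, 13, 24, 0, 0, 0, 0⟩]⟩,
  ⟨[⟨0, -270, 0, -1, 1, 0, 0, 0, 0⟩, ⟨0, 300, 0, 1, -1, 0, 0, 0, 0⟩], [⟨18, 5160, 2, 0, 15, 0, 36, 0, 0⟩], [⟨36, 3250, -54, 18, 19, 0, -36, 0, 0⟩]⟩,
  ⟨[⟨0, -101, 0, -1, 1, 0, 0, 0, 0⟩, ⟨0, 103, 0, 1, -1, 0, 0, 0, 0⟩], [⟨27, 9100, 2, 0, 24, 0, 54, 0, 0⟩], [⟨55, 4760, -82, 28, 28, 0, -54, 0, 0⟩]⟩,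
  ⟨[⟨0, -138, 0, -1, 1, 0, 0, 0, 0⟩, ⟨0, 150, 0, 1, -1, 0, 0, 0, 0⟩], [⟨27, 8700, 2, 0, 24, 0, 54, 0, 0⟩], [⟨55, 4760, -82, 28, 28, 0, -54, 0, 0⟩]⟩,
  ⟨[⟨0, 10, 0, 1, -1, 0, 0, 0, 0⟩], [⟨17, 5450, 2, 30, 12, 0, 2, 0, 0⟩], [⟨33, 2150, -50, 18, 16, 0, -30, 0, 0⟩]⟩,
  ⟨[⟨0, -200, 0, -1, 1, 0, 0, 0, 0⟩, ⟨0, 220, 0, 1, -1, 0, 0, 0, 0⟩], [⟨5, 710, 2, 0, 2, 0, 10, 0, 0⟩], [⟨11, 1610, -16, 6, 6, 0, -10, 0, 0⟩, ⟨8, 1147, -7, 3, 4, 0, 0, 0, 0⟩]⟩,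
  ⟨[⟨0, -84, 0, -1, 1, 0, 0, 0, 0⟩, ⟨0, 92, 0, 1, -1, 0, 0, 0, 0⟩], [⟨27, 10650, 2, 0, 24, 0, 54, 0, 0⟩], [⟨55, 4760, -82, 28, 28, 0, -54, 0, 0⟩]⟩,
  ⟨[⟨0, -245, 0, -1, 1, 0, 0, 0, 0⟩, ⟨0, 270, 0, 1, -1, 0, 0, 0, 0⟩], [⟨4, 750, 2, 0, 1, 0, 8, 0, 0⟩], [⟨8, 830, -12, 4, 5, 0, -8, 0, 0⟩, ⟨6, 786, -5, 2, 3, 0, 0, 0, 0⟩]⟩,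
  ⟨[⟨0, -200, 0, -1, 1, 0, 0, 0, 0⟩, ⟨0, 220, 0, 1, -1, 0, 0, 0, 0⟩], [⟨11, 3790, 2, 0, 8, 0, 18, 0, 0⟩], [⟨21, 1390, -32, 12, 10, 0, -18, 0, 0⟩, ⟨16, 2568, -15, 6, 9, 0, 0, 0, 0⟩]⟩,
  ⟨[⟨0, -200, 0, 0, -1, 1, 0, 0, 0⟩, ⟨0, 300, 0, 0, 1, -1, 0, 0, 0⟩], [⟨19, 5300, 2, 0, 0, 16, 0, 36, 0⟩], [⟨37, 3760, -56, 0, 18, 20, 0, -36, 0⟩, ⟨28, 4436, -27, 0, 9, 18, 0, 0, 0⟩]⟩,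
  ⟨[⟨0, -27, 0, -1, 1, 0, 0, 0, 0⟩, ⟨0, 38, 0, 1, -1, 0, 0, 0, 0⟩], [⟨5, 1120, 2, 6, 0, 0, 2, 0, 0⟩], [⟨9, 90, -14, 6, 4, 0, -6, 0, 0⟩]⟩,
  ⟨[⟨0, -750, 0, -1, 1, 0, 0, 0, 0⟩], [⟨34, 11010, 2, 1, 30, 0, 64, 0, 0⟩, ⟨50, 7831, -49, 18, 31, 0, 0, 0, 0⟩], [⟨66, 4620, -100, 35, 32, 0, -64, 0, 0⟩]⟩]

def wg88 : List Wn := [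
  ⟨[⟨0, -750, 0, -1, 1, 0, 0, 0, 0⟩, ⟨0, 825, 0, 1, -1, 0, 0, 0, 0⟩], [⟨19, 4980, 2, 0, 16, 0, 36, 0, 0⟩], [⟨37, 3760, -56, 18, 20, 0, -36, 0, 0⟩, ⟨28, 4356, -27, 9, 18, 0, 0, 0, 0⟩]⟩,
  ⟨[⟨0, -103, 0, -1, 1, 0, 0, 0, 0⟩, ⟨0, 105, 0, 1, -1, 0, 0, 0, 0⟩], [⟨13, 3540, 2, 0, 10, 0, 26, 0, 0⟩, ⟨20, 3172, -19, 7, 12, 0, 0, 0, 0⟩], [⟨27, 2790, -40, 14, 14, 0, -26, 0, 0⟩]⟩,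
  ⟨[⟨0, -900, 0, -1, 1, 0, 0, 0, 0⟩], [⟨9, 2640, 2, 0, 6, 0, 14, 0, 0⟩], [⟨17, 2300, -26, 10, 8, 0, -14, 0, 0⟩]⟩,
  ⟨[⟨0, -1200, 0, -1, 1, 0, 0, 0, 0⟩], [⟨19, 5720, 2, 0, 16, 0, 34, 0, 0⟩], [⟨37, 3120, -56, 20, 18, 0, -34, 0, 0⟩, ⟨28, 4412, -27, 10, 17, 0, 0, 0, 0⟩]⟩,
  ⟨[⟨0, -23, 0, 0, -1, 1, 0, 0, 0⟩, ⟨0, 60, 0, 0, 1, -1, 0, 0, 0⟩], [⟨3, 180, 2, 0, 2, -2, 0, 2, 0⟩, ⟨4, 615, -3, 0, 3, 0, 0, 0, 0⟩], [⟨5, 1020, -8, 0, 4, 2, 0, -2, 0⟩]⟩,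
  ⟨[⟨0, -200, 0, 0, -1, 1, 0, 0, 0⟩], [⟨23, 8150, 2, 0, 0, 20, 0, 40, 0⟩], [⟨43, 2800, -66, 0, 22, 22, 0, -40, 0⟩]⟩,
  ⟨[⟨0, -300, 0, -1, 1, 0, 0, 0, 0⟩], [⟨14, 4210, 2, 1, 10, 0, 24, 0, 0⟩, ⟨20, 3124, -19, 8, 11, 0, 0, 0, 0⟩], [⟨26, 2000, -40, 15, 12, 0, -24, 0, 0⟩]⟩,
  ⟨[⟨0, -600, 0, -1, 1, 0, 0, 0, 0⟩], [⟨6, 2140, 2, 0, 3, 0, 12, 0, 0⟩], [⟨12, 1220, -18, 6, 7, 0, -12, 0, 0⟩]⟩,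
  ⟨[⟨0, -900, 0, -1, 1, 0, 0, 0, 0⟩], [⟨15, 4050, 2, 0, 12, 0, 28, 0, 0⟩], [⟨29, 2780, -44, 14, 16, 0, -28, 0, 0⟩, ⟨22, 3404, -21, 7, 14, 0, 0, 0, 0⟩]⟩,
  ⟨[⟨0, -1350, 0, -1, 1, 0, 0, 0, 0⟩], [⟨26, 7930, 2, 1, 22, 0, 50, 0, 0⟩, ⟨38, 5766, -37, 14, 23, 0, 0, 0, 0⟩], [⟨50, 3580, -76, 27, 24, 0, -50, 0, 0⟩]⟩,
  ⟨[⟨0, 10, 0, 1, -1, 0, 0, 0, 0⟩], [⟨6, 1310, 2, 9, 4, 0, 2, 0, 0⟩, ⟨9, 1275, -8, 8, 5, 0, -5, 0, 0⟩], [⟨12, 1240, -18, 7, 6, 0, -12, 0, 0⟩]⟩,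
  ⟨[⟨0, -150, 0, 0, -1, 1, 0, 0, 0⟩, ⟨0, 200, 0, 0, 1, -1, 0, 0, 0⟩], [⟨41, 14060, 2, 0, 0, 38, 0, 78, 0⟩], [⟨81, 6240, -122, 0, 42, 40, 0, -78, 0⟩]⟩,
  ⟨[⟨0, -180, 0, -1, 1, 0, 0, 0, 0⟩, ⟨0, 200, 0, 1, -1, 0, 0, 0, 0⟩], [⟨11, 2390, 2, 0, 8, 0, 22, 0, 0⟩], [⟨23, 2070, -34, 12, 12, 0, -22, 0, 0⟩]⟩,
  ⟨[⟨0, -200, 0, 0, -1, 1, 0, 0, 0⟩], [⟨17, 6700, 2, 0, 0, 14, 0, 26, 0⟩, ⟨24, 4083, -23, 0, 9, 14, 0, 0, 0⟩], [⟨31, 1330, -48, 0, 18, 14, 0, -26, 0⟩]⟩,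
  ⟨[⟨0, -114, 0, -1, 1, 0, 0, 0, 0⟩, ⟨0, 126, 0, 1, -1, 0, 0, 0, 0⟩], [⟨13, 3670, 2, 0, 10, 0, 26, 0, 0⟩, ⟨20, 3238, -19, 7, 12, 0, 0, 0, 0⟩], [⟨27, 2790, -40, 14, 14, 0, -26, 0, 0⟩]⟩,
  ⟨[⟨0, -245, 0, -1, 1, 0, 0, 0, 0⟩, ⟨0, 270, 0, 1, -1, 0, 0, 0, 0⟩], [⟨8, 1740, 2, 1, 4, 0, 16, 0, 0⟩, ⟨12, 1718, -11, 5, 6, 0, 0, 0, 0⟩], [⟨16, 1690, -24, 9, 8, 0, -16, 0, 0⟩]⟩]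

def wg89 : List Wn := [
  ⟨[], [⟨47, 13240, 2, 0, 0, 92, 0, 46, 0⟩, ⟨47, 17420, 2, 0, 92, 44, 0, 2, 0⟩], [⟨95, 8960, -142, 0, 48, 48, 0, -94, 0⟩]⟩,
  ⟨[⟨0, -1350, 0, -1, 1, 0, 0, 0, 0⟩], [⟨20, 5280, 2, 0, 17, 0, 40, 0, 0⟩, ⟨30, 4593, -29, 10, 19, 0, 0, 0, 0⟩], [⟨40, 3890, -60, 20, 21, 0, -40, 0, 0⟩]⟩,
  ⟨[⟨0, -200, 0, -1, 1, 0, 0, 0, 0⟩, ⟨0, 220, 0, 1, -1, 0, 0, 0, 0⟩], [⟨6, 1560, 2, 0, 3, 0, 12, 0, 0⟩], [⟨12, 1040, -18, 6, 7, 0, -12, 0, 0⟩]⟩,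
  ⟨[⟨0, -27, 0, -1, 1, 0, 0, 0, 0⟩, ⟨0, 38, 0, 1, -1, 0, 0, 0, 0⟩], [⟨13, 3910, 2, 22, 8, 0, 2, 0, 0⟩], [⟨25, 1960, -38, 14, 12, 0, -22, 0, 0⟩]⟩,
  ⟨[⟨0, -165, 0, -1, 1, 0, 0, 0, 0⟩, ⟨0, 180, 0, 1, -1, 0, 0, 0, 0⟩], [⟨42, 14010, 2, 0, 39, 0, 84, 0, 0⟩], [⟨84, 6590, -126, 42, 43, 0, -84, 0, 0⟩]⟩,
  ⟨[⟨0, -750, 0, -1, 1, 0, 0, 0, 0⟩], [⟨7, 610, 2, 0, 4, 0, 2, 0, 0⟩, ⟨8, 1404, -7, 4, 3, 0, 0, 0, 0⟩], [⟨9, 2190, -16, 8, 2, 0, -2, 0, 0⟩]⟩,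
  ⟨[⟨0, -150, 0, -1, 1, 0, 0, 0, 0⟩, ⟨0, 165, 0, 1, -1, 0, 0, 0, 0⟩], [⟨21, 6500, 2, 0, 18, 0, 38, 0, 0⟩], [⟨41, 3760, -62, 22, 20, 0, -38, 0, 0⟩]⟩,
  ⟨[⟨0, -750, 0, -1, 1, 0, 0, 0, 0⟩], [⟨9, 2640, 2, 0, 6, 0, 14, 0, 0⟩], [⟨17, 2300, -26, 10, 8, 0, -14, 0, 0⟩]⟩,
  ⟨[⟨0, -93, 0, 0, -1, 1, 0, 0, 0⟩], [⟨21, 5480, 2, 0, 0, 40, 0, 20, 0⟩, ⟨21, 7730, 2, 0, 40, 18, 0, 2, 0⟩, ⟨32, 5710, -31, 0, 11, 20, 0, 0, 0⟩], [⟨43, 4300, -64, 0, 22, 22, 0, -42, 0⟩]⟩,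
  ⟨[⟨0, -103, 0, -1, 1, 0, 0, 0, 0⟩, ⟨0, 105, 0, 1, -1, 0, 0, 0, 0⟩], [⟨5, 380, 2, 0, 2, 0, 10, 0, 0⟩, ⟨8, 1000, -7, 3, 4, 0, 0, 0, 0⟩], [⟨11, 1610, -16, 6, 6, 0, -10, 0, 0⟩]⟩,
  ⟨[⟨0, -450, 0, -1, 1, 0, 0, 0, 0⟩], [⟨6, 2150, 2, 0, 3, 0, 12, 0, 0⟩], [⟨12, 1220, -18, 6, 7, 0, -12, 0, 0⟩]⟩,
  ⟨[⟨0, -750, 0, -1, 1, 0, 0, 0, 0⟩], [⟨15, 4050, 2, 0, 12, 0, 28, 0, 0⟩], [⟨29, 2780, -44, 14, 16, 0, -28, 0, 0⟩, ⟨22, 3404, -21, 7, 14, 0, 0, 0, 0⟩]⟩,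
  ⟨[⟨0, -1200, 0, -1, 1, 0, 0, 0, 0⟩], [⟨26, 7930, 2, 1, 22, 0, 50, 0, 0⟩, ⟨38, 5766, -37, 14, 23, 0, 0, 0, 0⟩], [⟨50, 3580, -76, 27, 24, 0, -50, 0, 0⟩]⟩,
  ⟨[⟨0, -900, 0, -1, 1, 0, 0, 0, 0⟩], [⟨26, 8430, 2, 0, 23, 0, 48, 0, 0⟩], [⟨50, 3600, -76, 26, 25, 0, -48, 0, 0⟩, ⟨38, 6004, -37, 13, 24, 0, 0, 0, 0⟩]⟩,
  ⟨[⟨0, -200, 0, -1, 1, 0, 0, 0, 0⟩, ⟨0, 220, 0, 1, -1, 0, 0, 0, 0⟩], [⟨14, 4360, 2, 0, 11, 0, 26, 0, 0⟩], [⟨26, 2030, -40, 12, 15, 0, -26, 0, 0⟩, ⟨20, 3174, -19, 6, 13, 0, 0, 0, 0⟩]⟩,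
  ⟨[⟨0, -1200, 0, -1, 1, 0, 0, 0, 0⟩], [⟨20, 5280, 2, 0, 17, 0, 40, 0, 0⟩, ⟨30, 4593, -29, 10, 19, 0, 0, 0, 0⟩], [⟨40, 3890, -60, 20, 21, 0, -40, 0, 0⟩]⟩]

def wg90 : List Wn := [
  ⟨[⟨0, -133, 0, -1, 1, 0, 0, 0, 0⟩], [⟨7, 2300, 2, 0, 8, 0, 2, 0, 0⟩, ⟨7, 3050, 2, 8, 0, 0, 2, 0, 0⟩], [⟨11, 1440, -18, 8, 4, 0, -6, 0, 0⟩]⟩,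
  ⟨[⟨0, -105, 0, -1, 1, 0, 0, 0, 0⟩, ⟨0, 108, 0, 1, -1, 0, 0, 0, 0⟩], [⟨42, 14540, 2, 0, 39, 0, 84, 0, 0⟩], [⟨84, 6590, -126, 42, 43, 0, -84, 0, 0⟩]⟩,
  ⟨[⟨0, -103, 0, -1, 1, 0, 0, 0, 0⟩, ⟨0, 105, 0, 1, -1, 0, 0, 0, 0⟩], [⟨14, 4640, 2, 0, 11, 0, 28, 0, 0⟩], [⟨28, 2270, -42, 14, 15, 0, -28, 0, 0⟩]⟩,
  ⟨[⟨0, -600, 0, -1, 1, 0, 0, 0, 0⟩], [⟨9, 2640, 2, 0, 6, 0, 14, 0, 0⟩], [⟨17, 2290, -26, 10, 8, 0, -14, 0, 0⟩]⟩,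
  ⟨[⟨0, -150, 0, -1, 1, 0, 0, 0, 0⟩, ⟨0, 165, 0, 1, -1, 0, 0, 0, 0⟩], [⟨13, 3580, 2, 0, 10, 0, 26, 0, 0⟩, ⟨20, 3191, -19, 7, 12, 0, 0, 0, 0⟩], [⟨27, 2790, -40, 14, 14, 0, -26, 0, 0⟩]⟩,
  ⟨[], [⟨21, 5480, 2, 0, 0, 40, 0, 20, 0⟩, ⟨21, 7730, 2, 0, 40, 18, 0, 2, 0⟩, ⟨32, 5710, -31, 0, 11, 20, 0, 0, 0⟩], [⟨43, 4300, -64, 0, 22, 22, 0, -42, 0⟩]⟩,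
  ⟨[⟨0, -103, 0, -1, 1, 0, 0, 0, 0⟩, ⟨0, 105, 0, 1, -1, 0, 0, 0, 0⟩], [⟨5, 380, 2, 0, 2, 0, 10, 0, 0⟩], [⟨11, 1610, -16, 6, 6, 0, -10, 0, 0⟩, ⟨8, 855, -7, 3, 4, 0, 0, 0, 0⟩]⟩,
  ⟨[⟨0, -200, 0, 0, -1, 1, 0, 0, 0⟩], [⟨14, 4350, 2, 0, 1, 10, 0, 24, 0⟩, ⟨20, 3194, -19, 0, 8, 11, 0, 0, 0⟩], [⟨26, 1970, -40, 0, 15, 12, 0, -24, 0⟩]⟩,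
  ⟨[⟨0, -600, 0, 0, -1, 1, 0, 0, 0⟩], [⟨15, 4060, 2, 0, 0, 12, 0, 28, 0⟩], [⟨29, 2780, -44, 0, 14, 16, 0, -28, 0⟩, ⟨22, 3404, -21, 0, 7, 14, 0, 0, 0⟩]⟩,
  ⟨[⟨0, -300, 0, -1, 1, 0, 0, 0, 0⟩], [⟨6, 2180, 2, 0, 3, 0, 12, 0, 0⟩], [⟨12, 1220, -18, 6, 7, 0, -12, 0, 0⟩]⟩,
  ⟨[⟨0, -600, 0, -1, 1, 0, 0, 0, 0⟩], [⟨15, 4060, 2, 0, 12, 0, 28, 0, 0⟩], [⟨29, 2780, -44, 14, 16, 0, -28, 0, 0⟩, ⟨22, 3404, -21, 7, 14, 0, 0, 0, 0⟩]⟩,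
  ⟨[⟨0, -180, 0, -1, 1, 0, 0, 0, 0⟩, ⟨0, 200, 0, 1, -1, 0, 0, 0, 0⟩], [⟨27, 8490, 2, 0, 24, 0, 54, 0, 0⟩], [⟨55, 4760, -82, 28, 28, 0, -54, 0, 0⟩]⟩,
  ⟨[⟨0, -1200, 0, 0, -1, 1, 0, 0, 0⟩], [⟨7, 1610, 2, 0, 0, 4, 0, 6, 0⟩], [⟨11, 1410, -18, 0, 8, 4, 0, -6, 0⟩]⟩,
  ⟨[⟨0, -245, 0, -1, 1, 0, 0, 0, 0⟩, ⟨0, 270, 0, 1, -1, 0, 0, 0, 0⟩], [⟨30, 9180, 2, 0, 27, 0, 60, 0, 0⟩], [⟨60, 5130, -90, 30, 31, 0, -60, 0, 0⟩]⟩,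
  ⟨[⟨0, -114, 0, -1, 1, 0, 0, 0, 0⟩, ⟨0, 126, 0, 1, -1, 0, 0, 0, 0⟩], [⟨14, 4500, 2, 0, 11, 0, 28, 0, 0⟩], [⟨28, 2270, -42, 14, 15, 0, -28, 0, 0⟩]⟩,
  ⟨[⟨0, -1350, 0, -1, 1, 0, 0, 0, 0⟩], [⟨23, 6640, 2, 0, 20, 0, 46, 0, 0⟩], [⟨47, 4110, -70, 24, 24, 0, -46, 0, 0⟩]⟩]

def wg91 : List Wn := [
  ⟨[⟨0, -18, 0, -1, 1, 0, 0, 0, 0⟩, ⟨0, 27, 0, 1, -1, 0, 0, 0, 0⟩], [⟨19, 5420, 2, 36, 16, 0, 2, 0, 0⟩], [⟨39, 3690, -58, 20, 20, 0, -38, 0, 0⟩]⟩,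
  ⟨[⟨0, -23, 0, 0, -1, 1, 0, 0, 0⟩, ⟨0, 60, 0, 0, 1, -1, 0, 0, 0⟩], [⟨23, 7250, 2, 0, 44, 20, 0, 2, 0⟩], [⟨47, 4110, -70, 0, 24, 24, 0, -46, 0⟩]⟩,
  ⟨[], [⟨37, 11480, 2, 0, 72, 0, 36, 0, 0⟩, ⟨37, 14940, 2, 72, 34, 0, 2, 0, 0⟩, ⟨56, 10120, -55, 19, 36, 0, 0, 0, 0⟩], [⟨75, 5900, -112, 38, 38, 0, -74, 0, 0⟩]⟩,
  ⟨[], [⟨5, 920, 2, 0, 2, 0, 4, 0, 0⟩, ⟨5, 1270, 2, -2, 6, 0, 2, 0, 0⟩, ⟨6, 1070, -5, 3, 2, 0, 0, 0, 0⟩], [⟨7, 1060, -12, 6, 2, 0, -4, 0, 0⟩]⟩,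
  ⟨[], [⟨31, 9020, 2, 0, 0, 60, 0, 30, 0⟩, ⟨31, 12000, 2, 0, 60, 28, 0, 2, 0⟩], [⟨63, 5570, -94, 0, 32, 32, 0, -62, 0⟩]⟩,
  ⟨[⟨0, -200, 0, -1, 1, 0, 0, 0, 0⟩, ⟨0, 220, 0, 1, -1, 0, 0, 0, 0⟩], [⟨6, 2220, 2, 0, 3, 0, 12, 0, 0⟩], [⟨12, 1220, -18, 6, 7, 0, -12, 0, 0⟩]⟩,
  ⟨[⟨0, -1350, 0, -1, 1, 0, 0, 0, 0⟩], [⟨31, 10560, 2, 0, 28, 0, 54, 0, 0⟩], [⟨59, 3970, -90, 32, 28, 0, -54, 0, 0⟩]⟩,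
  ⟨[⟨0, -93, 0, 0, -1, 1, 0, 0, 0⟩], [⟨13, 2210, 2, 0, 0, 12, 0, 0, 0⟩, ⟨13, 2870, 2, 0, 12, -2, 0, 2, 0⟩, ⟨14, 2720, -13, 0, 7, 6, 0, 0, 0⟩], [⟨15, 2750, -28, 0, 14, 2, 0, -2, 0⟩]⟩,
  ⟨[⟨0, -138, 0, -1, 1, 0, 0, 0, 0⟩, ⟨0, 150, 0, 1, -1, 0, 0, 0, 0⟩], [⟨3, 20, 2, 0, 0, 0, 2, 0, 0⟩], [⟨5, 1100, -8, 4, 2, 0, -2, 0, 0⟩, ⟨4, 544, -3, 2, 1, 0, 0, 0, 0⟩]⟩,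
  ⟨[⟨0, -500, 0, 0, -1, 1, 0, 0, 0⟩], [⟨7, 620, 2, 0, 0, 4, 0, 2, 0⟩, ⟨8, 1407, -7, 0, 4, 3, 0, 0, 0⟩], [⟨9, 2180, -16, 0, 8, 2, 0, -2, 0⟩]⟩,
  ⟨[⟨0, -500, 0, 0, -1, 1, 0, 0, 0⟩], [⟨9, 2660, 2, 0, 0, 6, 0, 14, 0⟩], [⟨17, 2290, -26, 0, 10, 8, 0, -14, 0⟩]⟩,
  ⟨[⟨0, -450, 0, -1, 1, 0, 0, 0, 0⟩], [⟨9, 2660, 2, 0, 6, 0, 14, 0, 0⟩], [⟨17, 2290, -26, 10, 8, 0, -14, 0, 0⟩]⟩,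
  ⟨[⟨0, -450, 0, -1, 1, 0, 0, 0, 0⟩], [⟨15, 4090, 2, 0, 12, 0, 28, 0, 0⟩], [⟨29, 2780, -44, 14, 16, 0, -28, 0, 0⟩, ⟨22, 3404, -21, 7, 14, 0, 0, 0, 0⟩]⟩,
  ⟨[⟨0, -1350, 0, -1, 1, 0, 0, 0, 0⟩], [⟨11, 2140, 2, 0, 8, 0, 22, 0, 0⟩], [⟨23, 2070, -34, 12, 12, 0, -22, 0, 0⟩]⟩,
  ⟨[⟨0, -1200, 0, -1, 1, 0, 0, 0, 0⟩], [⟨23, 6640, 2, 0, 20, 0, 46, 0, 0⟩], [⟨47, 4110, -70, 24, 24, 0, -46, 0, 0⟩]⟩,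
  ⟨[⟨0, -84, 0, -1, 1, 0, 0, 0, 0⟩, ⟨0, 92, 0, 1, -1, 0, 0, 0, 0⟩], [⟨7, 1830, 2, 0, 4, 0, 12, 0, 0⟩], [⟨13, 670, -20, 8, 6, 0, -12, 0, 0⟩]⟩]

def wg92 : List Wn := [
  ⟨[⟨0, -270, 0, -1, 1, 0, 0, 0, 0⟩, ⟨0, 300, 0, 1, -1, 0, 0, 0, 0⟩], [⟨18, 5010, 2, 1, 14, 0, 36, 0, 0⟩], [⟨36, 3250, -54, 19, 18, 0, -36, 0, 0⟩]⟩,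
  ⟨[⟨0, -126, 0, -1, 1, 0, 0, 0, 0⟩, ⟨0, 138, 0, 1, -1, 0, 0, 0, 0⟩], [⟨39, 12190, 2, 0, 36, 0, 78, 0, 0⟩], [⟨79, 7420, -118, 40, 40, 0, -78, 0, 0⟩]⟩,
  ⟨[], [⟨47, 17420, 2, 0, 0, 44, 0, 94, 0⟩, ⟨47, 16780, 2, 0, 92, 44, 0, 2, 0⟩], [⟨95, 8960, -142, 0, 48, 48, 0, -94, 0⟩]⟩,
  ⟨[⟨0, -900, 0, -1, 1, 0, 0, 0, 0⟩], [⟨20, 5280, 2, 0, 17, 0, 40, 0, 0⟩, ⟨30, 4594, -29, 10, 19, 0, 0, 0, 0⟩], [⟨40, 3890, -60, 20, 21, 0, -40, 0, 0⟩]⟩,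
  ⟨[], [⟨7, 2300, 2, 0, 8, 0, 2, 0, 0⟩, ⟨7, 3050, 2, 8, 0, 0, 2, 0, 0⟩], [⟨11, 1250, -18, 8, 4, 0, -6, 0, 0⟩]⟩,
  ⟨[⟨0, -245, 0, -1, 1, 0, 0, 0, 0⟩, ⟨0, 270, 0, 1, -1, 0, 0, 0, 0⟩], [⟨4, 730, 2, 1, 0, 0, 8, 0, 0⟩, ⟨6, 784, -5, 3, 2, 0, 0, 0, 0⟩], [⟨8, 830, -12, 5, 4, 0, -8, 0, 0⟩]⟩,
  ⟨[⟨0, -270, 0, -1, 1, 0, 0, 0, 0⟩, ⟨0, 300, 0, 1, -1, 0, 0, 0, 0⟩], [⟨15, 4420, 2, 0, 12, 0, 30, 0, 0⟩], [⟨31, 2710, -46, 16, 16, 0, -30, 0, 0⟩]⟩,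
  ⟨[⟨0, -100, 0, 0, -1, 1, 0, 0, 0⟩, ⟨0, 150, 0, 0, 1, -1, 0, 0, 0⟩], [⟨11, 3460, 2, 0, 0, 8, 0, 20, 0⟩], [⟨21, 1910, -32, 0, 10, 12, 0, -20, 0⟩, ⟨16, 2583, -15, 0, 5, 10, 0, 0, 0⟩]⟩,
  ⟨[⟨0, -100, 0, 0, -1, 1, 0, 0, 0⟩, ⟨0, 150, 0, 0, 1, -1, 0, 0, 0⟩], [⟨25, 8590, 2, 0, 0, 22, 0, 50, 0⟩, ⟨38, 6347, -37, 0, 13, 24, 0, 0, 0⟩], [⟨51, 4320, -76, 0, 26, 26, 0, -50, 0⟩]⟩,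
  ⟨[⟨0, -400, 0, 0, -1, 1, 0, 0, 0⟩], [⟨9, 2680, 2, 0, 0, 6, 0, 14, 0⟩], [⟨17, 2280, -26, 0, 10, 8, 0, -14, 0⟩]⟩,
  ⟨[⟨0, -300, 0, -1, 1, 0, 0, 0, 0⟩], [⟨9, 2720, 2, 0, 6, 0, 14, 0, 0⟩], [⟨17, 2260, -26, 10, 8, 0, -14, 0, 0⟩]⟩,
  ⟨[⟨0, -150, 0, -1, 1, 0, 0, 0, 0⟩, ⟨0, 165, 0, 1, -1, 0, 0, 0, 0⟩], [⟨14, 4380, 2, 0, 11, 0, 28, 0, 0⟩], [⟨28, 2270, -42, 14, 15, 0, -28, 0, 0⟩]⟩,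
  ⟨[⟨0, -200, 0, 0, -1, 1, 0, 0, 0⟩], [⟨6, 2220, 2, 0, 0, 3, 0, 12, 0⟩], [⟨12, 1220, -18, 0, 6, 7, 0, -12, 0⟩]⟩,
  ⟨[⟨0, -300, 0, -1, 1, 0, 0, 0, 0⟩], [⟨15, 4170, 2, 0, 12, 0, 28, 0, 0⟩], [⟨29, 2780, -44, 14, 16, 0, -28, 0, 0⟩, ⟨22, 3404, -21, 7, 14, 0, 0, 0, 0⟩]⟩,
  ⟨[⟨0, 62, 0, 1, -1, 0, 0, 0, 0⟩], [⟨35, 14080, 2, 0, 32, 0, 58, 0, 0⟩, ⟨35, 11200, 2, 26, 62, 0, 2, 0, 0⟩], [⟨65, 4090, -100, 36, 30, 0, -58, 0, 0⟩]⟩,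
  ⟨[⟨0, -270, 0, -1, 1, 0, 0, 0, 0⟩, ⟨0, 300, 0, 1, -1, 0, 0, 0, 0⟩], [⟨5, 670, 2, 0, 2, 0, 10, 0, 0⟩], [⟨11, 1610, -16, 6, 6, 0, -10, 0, 0⟩, ⟨8, 1131, -7, 3, 4, 0, 0, 0, 0⟩]⟩]

def wg93 : List Wn := [
  ⟨[⟨0, -38, 0, -1, 1, 0, 0, 0, 0⟩, ⟨0, 50, 0, 1, -1, 0, 0, 0, 0⟩], [⟨29, 8270, 2, 56, 26, 0, 2, 0, 0⟩], [⟨59, 5990, -88, 30, 30, 0, -58, 0, 0⟩]⟩,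
  ⟨[⟨0, -180, 0, -1, 1, 0, 0, 0, 0⟩, ⟨0, 200, 0, 1, -1, 0, 0, 0, 0⟩], [⟨3, 20, 2, 0, 0, 0, 2, 0, 0⟩, ⟨4, 575, -3, 2, 1, 0, 0, 0, 0⟩], [⟨5, 1120, -8, 4, 2, 0, -2, 0, 0⟩]⟩,
  ⟨[⟨0, -750, 0, -1, 1, 0, 0, 0, 0⟩], [⟨26, 7940, 2, 1, 22, 0, 50, 0, 0⟩, ⟨38, 5772, -37, 14, 23, 0, 0, 0, 0⟩], [⟨50, 3580, -76, 27, 24, 0, -50, 0, 0⟩]⟩,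
  ⟨[⟨0, -800, 0, 0, -1, 1, 0, 0, 0⟩], [⟨7, 1610, 2, 0, 0, 4, 0, 6, 0⟩], [⟨11, 1410, -18, 0, 8, 4, 0, -6, 0⟩]⟩,
  ⟨[⟨0, -108, 0, -1, 1, 0, 0, 0, 0⟩, ⟨0, 114, 0, 1, -1, 0, 0, 0, 0⟩], [⟨33, 11050, 2, 0, 30, 0, 62, 0, 0⟩], [⟨65, 5530, -98, 34, 32, 0, -62, 0, 0⟩]⟩,
  ⟨[⟨0, -38, 0, -1, 1, 0, 0, 0, 0⟩, ⟨0, 50, 0, 1, -1, 0, 0, 0, 0⟩], [⟨8, 2780, 2, 14, 5, 0, 2, 0, 0⟩], [⟨16, 1680, -24, 8, 9, 0, -16, 0, 0⟩]⟩,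
  ⟨[], [⟨11, 4840, 2, 0, 0, 8, 0, 14, 0⟩, ⟨11, 4470, 2, 0, 16, 4, 0, 2, 0⟩], [⟨19, 730, -30, 0, 12, 8, 0, -14, 0⟩]⟩,
  ⟨[⟨0, -270, 0, -1, 1, 0, 0, 0, 0⟩, ⟨0, 300, 0, 1, -1, 0, 0, 0, 0⟩], [⟨11, 3710, 2, 0, 8, 0, 18, 0, 0⟩], [⟨21, 1410, -32, 12, 10, 0, -18, 0, 0⟩, ⟨16, 2542, -15, 6, 9, 0, 0, 0, 0⟩]⟩,
  ⟨[⟨0, -93, 0, 0, -1, 1, 0, 0, 0⟩], [⟨49, 18550, 2, 0, 0, 46, 0, 94, 0⟩, ⟨49, 18350, 2, 0, 94, 44, 0, 2, 0⟩], [⟨97, 8300, -146, 0, 50, 48, 0, -94, 0⟩]⟩,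
  ⟨[], [⟨7, 3520, 2, 0, 0, 4, 0, 14, 0⟩, ⟨7, 2880, 2, 0, 12, 4, 0, 2, 0⟩], [⟨15, 1680, -22, 0, 8, 8, 0, -14, 0⟩]⟩,
  ⟨[⟨0, -200, 0, -1, 1, 0, 0, 0, 0⟩, ⟨0, 220, 0, 1, -1, 0, 0, 0, 0⟩], [⟨21, 6330, 2, 0, 18, 0, 38, 0, 0⟩], [⟨41, 3790, -62, 22, 20, 0, -38, 0, 0⟩]⟩,
  ⟨[⟨0, -1050, 0, -1, 1, 0, 0, 0, 0⟩], [⟨23, 6640, 2, 0, 20, 0, 46, 0, 0⟩], [⟨47, 4110, -70, 24, 24, 0, -46, 0, 0⟩]⟩,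
  ⟨[⟨0, -201, 0, -1, 1, 0, 0, 0, 0⟩], [⟨7, 2400, 2, 0, 4, 0, 10, 0, 0⟩, ⟨7, 3070, 2, 10, 2, 0, 2, 0, 0⟩], [⟨13, 1140, -20, 8, 6, 0, -10, 0, 0⟩, ⟨10, 1520, -9, 4, 5, 0, 0, 0, 0⟩]⟩,
  ⟨[⟨0, -23, 0, 0, -1, 1, 0, 0, 0⟩, ⟨0, 60, 0, 0, 1, -1, 0, 0, 0⟩], [⟨37, 13940, 2, 0, 68, 30, 0, 2, 0⟩], [⟨71, 3680, -108, 0, 38, 34, 0, -66, 0⟩]⟩,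
  ⟨[⟨0, -750, 0, -1, 1, 0, 0, 0, 0⟩, ⟨0, 825, 0, 1, -1, 0, 0, 0, 0⟩], [⟨7, 1910, 2, 0, 4, 0, 10, 0, 0⟩], [⟨13, 1220, -20, 8, 6, 0, -10, 0, 0⟩, ⟨10, 1559, -9, 4, 5, 0, 0, 0, 0⟩]⟩,
  ⟨[⟨0, -150, 0, 0, -1, 1, 0, 0, 0⟩, ⟨0, 200, 0, 0, 1, -1, 0, 0, 0⟩], [⟨15, 5550, 2, 0, 0, 12, 0, 18, 0⟩], [⟨25, 1400, -40, 0, 16, 10, 0, -18, 0⟩, ⟨20, 3416, -19, 0, 8, 11, 0, 0, 0⟩]⟩]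


end Pool.Agent.MP_2339ce_nt.Q2.TB
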