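import Pool.Agent.MP_2339ce_nt.Q2.HD

/-! Project Q2: generated data. -/

set_option autoImplicit false
set_option maxRecDepth 100000

noncomputable section

namespace Pool.Agent.MP_2339ce_nt.Q2.TB

def wg94 : List Wn := [
  ⟨[⟨0, -50, 0, -1, 1, 0, 0, 0, 0⟩, ⟨0, 66, 0, 1, -1, 0, 0, 0, 0⟩], [⟨21, 6350, 2, 38, 16, 0, 2, 0, 0⟩], [⟨41, 3700, -62, 22, 20, 0, -38, 0, 0⟩]⟩,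
  ⟨[⟨0, -138, 0, -1, 1, 0, 0, 0, 0⟩, ⟨0, 150, 0, 1, -1, 0, 0, 0, 0⟩], [⟨33, 10820, 2, 0, 30, 0, 62, 0, 0⟩], [⟨65, 5540, -98, 34, 32, 0, -62, 0, 0⟩]⟩,
  ⟨[⟨0, -84, 0, -1, 1, 0, 0, 0, 0⟩, ⟨0, 92, 0, 1, -1, 0, 0, 0, 0⟩], [⟨3, 350, 2, 0, 0, 0, 4, 0, 0⟩], [⟨5, 880, -8, 2, 4, 0, -4, 0, 0⟩, ⟨4, 603, -3, 1, 2, 0, 0, 0, 0⟩]⟩,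
  ⟨[⟨0, -300, 0, 0, -1, 1, 0, 0, 0⟩], [⟨9, 2720, 2, 0, 0, 6, 0, 14, 0⟩], [⟨17, 2260, -26, 0, 10, 8, 0, -14, 0⟩]⟩,
  ⟨[], [⟨45, 13550, 2, 0, 88, 0, 44, 0, 0⟩, ⟨45, 17610, 2, 88, 42, 0, 2, 0, 0⟩, ⟨68, 12330, -67, 23, 44, 0, 0, 0, 0⟩], [⟨91, 7630, -136, 46, 46, 0, -90, 0, 0⟩]⟩,
  ⟨[⟨0, -103, 0, -1, 1, 0, 0, 0, 0⟩, ⟨0, 105, 0, 1, -1, 0, 0, 0, 0⟩], [⟨6, 2470, 2, 0, 3, 0, 12, 0, 0⟩], [⟨12, 1220, -18, 6, 7, 0, -12, 0, 0⟩]⟩,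
  ⟨[⟨0, -201, 0, -1, 1, 0, 0, 0, 0⟩], [⟨5, 920, 2, 0, 2, 0, 2, 0, 0⟩, ⟨5, 1470, 2, 4, -2, 0, 2, 0, 0⟩, ⟨6, 1050, -5, 3, 2, 0, 0, 0, 0⟩], [⟨7, 1300, -12, 6, 2, 0, -2, 0, 0⟩]⟩,
  ⟨[⟨0, -165, 0, -1, 1, 0, 0, 0, 0⟩, ⟨0, 180, 0, 1, -1, 0, 0, 0, 0⟩], [⟨39, 11890, 2, 0, 36, 0, 78, 0, 0⟩], [⟨79, 7420, -118, 40, 40, 0, -78, 0, 0⟩]⟩,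
  ⟨[⟨0, -18, 0, -1, 1, 0, 0, 0, 0⟩, ⟨0, 27, 0, 1, -1, 0, 0, 0, 0⟩], [⟨7, 2720, 2, 10, 2, 0, 2, 0, 0⟩], [⟨13, 1020, -20, 8, 6, 0, -10, 0, 0⟩]⟩,
  ⟨[⟨0, -108, 0, -1, 1, 0, 0, 0, 0⟩, ⟨0, 114, 0, 1, -1, 0, 0, 0, 0⟩], [⟨3, 10, 2, 0, 0, 0, 2, 0, 0⟩], [⟨5, 1080, -8, 4, 2, 0, -2, 0, 0⟩, ⟨4, 537, -3, 2, 1, 0, 0, 0, 0⟩]⟩,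
  ⟨[⟨0, -180, 0, -1, 1, 0, 0, 0, 0⟩, ⟨0, 200, 0, 1, -1, 0, 0, 0, 0⟩], [⟨3, 20, 2, 0, 0, 0, 2, 0, 0⟩], [⟨5, 1120, -8, 4, 2, 0, -2, 0, 0⟩, ⟨4, 554, -3, 2, 1, 0, 0, 0, 0⟩]⟩,
  ⟨[⟨0, -600, 0, -1, 1, 0, 0, 0, 0⟩], [⟨26, 7960, 2, 1, 22, 0, 50, 0, 0⟩, ⟨38, 5783, -37, 14, 23, 0, 0, 0, 0⟩], [⟨50, 3580, -76, 27, 24, 0, -50, 0, 0⟩]⟩,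
  ⟨[⟨0, -1350, 0, -1, 1, 0, 0, 0, 0⟩], [⟨43, 13240, 2, 0, 40, 0, 86, 0, 0⟩], [⟨87, 7030, -130, 44, 44, 0, -86, 0, 0⟩]⟩,
  ⟨[⟨0, -133, 0, -1, 1, 0, 0, 0, 0⟩], [⟨5, 2450, 2, 0, 2, 0, 6, 0, 0⟩, ⟨5, 2250, 2, 6, 0, 0, 2, 0, 0⟩], [⟨9, 1020, -14, 6, 4, 0, -6, 0, 0⟩]⟩,
  ⟨[⟨0, -100, 0, 0, -1, 1, 0, 0, 0⟩, ⟨0, 150, 0, 0, 1, -1, 0, 0, 0⟩], [⟨29, 10730, 2, 0, 0, 26, 0, 54, 0⟩], [⟨57, 4020, -86, 0, 30, 28, 0, -54, 0⟩]⟩,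
  ⟨[⟨0, -220, 0, -1, 1, 0, 0, 0, 0⟩, ⟨0, 245, 0, 1, -1, 0, 0, 0, 0⟩], [⟨42, 13690, 2, 0, 39, 0, 84, 0, 0⟩], [⟨84, 6590, -126, 42, 43, 0, -84, 0, 0⟩]⟩]

def wg95 : List Wn := [
  ⟨[⟨0, -900, 0, -1, 1, 0, 0, 0, 0⟩], [⟨23, 6650, 2, 0, 20, 0, 46, 0, 0⟩], [⟨47, 4110, -70, 24, 24, 0, -46, 0, 0⟩]⟩,
  ⟨[⟨0, -200, 0, -1, 1, 0, 0, 0, 0⟩, ⟨0, 220, 0, 1, -1, 0, 0, 0, 0⟩], [⟨13, 3470, 2, 0, 10, 0, 26, 0, 0⟩, ⟨20, 3138, -19, 7, 12, 0, 0, 0, 0⟩], [⟨27, 2790, -40, 14, 14, 0, -26, 0, 0⟩]⟩,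
  ⟨[⟨0, -99, 0, -1, 1, 0, 0, 0, 0⟩, ⟨0, 101, 0, 1, -1, 0, 0, 0, 0⟩], [⟨9, 2680, 2, 0, 6, 0, 18, 0, 0⟩, ⟨14, 1960, -13, 5, 8, 0, 0, 0, 0⟩], [⟨19, 2120, -28, 10, 10, 0, -18, 0, 0⟩]⟩,
  ⟨[⟨0, -23, 0, 0, -1, 1, 0, 0, 0⟩, ⟨0, 60, 0, 0, 1, -1, 0, 0, 0⟩], [⟨29, 10030, 2, 0, 54, 24, 0, 2, 0⟩], [⟨57, 3960, -86, 0, 30, 28, 0, -54, 0⟩]⟩,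
  ⟨[], [⟨31, 12000, 2, 0, 0, 28, 0, 62, 0⟩, ⟨31, 11360, 2, 0, 60, 28, 0, 2, 0⟩], [⟨63, 5570, -94, 0, 32, 32, 0, -62, 0⟩]⟩,
  ⟨[⟨0, -200, 0, 0, -1, 1, 0, 0, 0⟩], [⟨7, 690, 2, 0, 0, 4, 0, 2, 0⟩, ⟨8, 1444, -7, 0, 4, 3, 0, 0, 0⟩], [⟨9, 2110, -16, 0, 8, 2, 0, -2, 0⟩]⟩,
  ⟨[⟨0, -101, 0, -1, 1, 0, 0, 0, 0⟩, ⟨0, 103, 0, 1, -1, 0, 0, 0, 0⟩], [⟨26, 8780, 2, 0, 23, 0, 52, 0, 0⟩], [⟨52, 4320, -78, 26, 27, 0, -52, 0, 0⟩]⟩,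
  ⟨[⟨0, -200, 0, 0, -1, 1, 0, 0, 0⟩], [⟨9, 2800, 2, 0, 0, 6, 0, 14, 0⟩], [⟨17, 2230, -26, 0, 10, 8, 0, -14, 0⟩]⟩,
  ⟨[⟨0, -93, 0, 0, -1, 1, 0, 0, 0⟩], [⟨7, 3400, 2, 0, 0, 4, 0, 6, 0⟩, ⟨7, 2420, 2, 0, 8, 0, 0, 2, 0⟩], [⟨11, 1400, -18, 0, 8, 4, 0, -6, 0⟩]⟩,
  ⟨[⟨0, -105, 0, -1, 1, 0, 0, 0, 0⟩, ⟨0, 108, 0, 1, -1, 0, 0, 0, 0⟩], [⟨39, 12420, 2, 0, 36, 0, 78, 0, 0⟩], [⟨79, 7420, -118, 40, 40, 0, -78, 0, 0⟩]⟩,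
  ⟨[⟨0, -597, 0, -1, 1, 0, 0, 0, 0⟩], [⟨71, 30420, 2, 0, 68, 0, 134, 0, 0⟩, ⟨71, 29390, 2, 136, 64, 0, 2, 0, 0⟩], [⟨139, 9090, -210, 72, 68, 0, -134, 0, 0⟩]⟩,
  ⟨[⟨0, -150, 0, -1, 1, 0, 0, 0, 0⟩, ⟨0, 165, 0, 1, -1, 0, 0, 0, 0⟩], [⟨14, 4230, 2, 1, 10, 0, 26, 0, 0⟩, ⟨20, 3136, -19, 8, 11, 0, 0, 0, 0⟩], [⟨26, 2030, -40, 15, 12, 0, -26, 0, 0⟩]⟩,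
  ⟨[⟨0, -1200, 0, -1, 1, 0, 0, 0, 0⟩], [⟨13, 3880, 2, 1, 9, 0, 26, 0, 0⟩], [⟨25, 2450, -38, 13, 13, 0, -26, 0, 0⟩]⟩,
  ⟨[⟨0, -270, 0, -1, 1, 0, 0, 0, 0⟩, ⟨0, 300, 0, 1, -1, 0, 0, 0, 0⟩], [⟨14, 4280, 2, 0, 11, 0, 26, 0, 0⟩], [⟨26, 2030, -40, 12, 15, 0, -26, 0, 0⟩, ⟨20, 3136, -19, 6, 13, 0, 0, 0, 0⟩]⟩,
  ⟨[⟨0, -200, 0, 0, -1, 1, 0, 0, 0⟩], [⟨15, 4300, 2, 0, 0, 12, 0, 28, 0⟩], [⟨29, 2780, -44, 0, 14, 16, 0, -28, 0⟩, ⟨22, 3404, -21, 0, 7, 14, 0, 0, 0⟩]⟩,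
  ⟨[⟨0, -450, 0, -1, 1, 0, 0, 0, 0⟩], [⟨26, 8020, 2, 1, 22, 0, 50, 0, 0⟩, ⟨38, 5813, -37, 14, 23, 0, 0, 0, 0⟩], [⟨50, 3580, -76, 27, 24, 0, -50, 0, 0⟩]⟩]

def wg96 : List Wn := [
  ⟨[⟨0, -1200, 0, -1, 1, 0, 0, 0, 0⟩], [⟨43, 13240, 2, 0, 40, 0, 86, 0, 0⟩], [⟨87, 7030, -130, 44, 44, 0, -86, 0, 0⟩]⟩,
  ⟨[⟨0, -900, 0, -1, 1, 0, 0, 0, 0⟩], [⟨11, 2140, 2, 0, 8, 0, 22, 0, 0⟩], [⟨23, 2070, -34, 12, 12, 0, -22, 0, 0⟩]⟩,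
  ⟨[⟨0, -93, 0, -1, 1, 0, 0, 0, 0⟩], [⟨5, 2450, 2, 0, 2, 0, 6, 0, 0⟩, ⟨5, 2250, 2, 6, 0, 0, 2, 0, 0⟩], [⟨9, 990, -14, 6, 4, 0, -6, 0, 0⟩]⟩,
  ⟨[⟨0, -76, 0, -1, 1, 0, 0, 0, 0⟩, ⟨0, 84, 0, 1, -1, 0, 0, 0, 0⟩], [⟨17, 5000, 2, 32, 14, 0, 2, 0, 0⟩], [⟨35, 3490, -52, 18, 18, 0, -34, 0, 0⟩]⟩,
  ⟨[⟨0, -10, 0, -1, 1, 0, 0, 0, 0⟩, ⟨0, 18, 0, 1, -1, 0, 0, 0, 0⟩], [⟨10, 2900, 2, 17, 8, 0, 2, 0, 0⟩, ⟨15, 2258, -14, 14, 9, 0, -9, 0, 0⟩], [⟨20, 1610, -30, 11, 10, 0, -20, 0, 0⟩]⟩,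
  ⟨[⟨0, -114, 0, -1, 1, 0, 0, 0, 0⟩, ⟨0, 126, 0, 1, -1, 0, 0, 0, 0⟩], [⟨14, 4360, 2, 1, 10, 0, 28, 0, 0⟩], [⟨28, 2270, -42, 15, 14, 0, -28, 0, 0⟩]⟩,
  ⟨[⟨0, -750, 0, -1, 1, 0, 0, 0, 0⟩], [⟨23, 6650, 2, 0, 20, 0, 46, 0, 0⟩], [⟨47, 4110, -70, 24, 24, 0, -46, 0, 0⟩]⟩,
  ⟨[⟨0, -133, 0, -1, 1, 0, 0, 0, 0⟩], [⟨7, 2400, 2, 0, 4, 0, 10, 0, 0⟩, ⟨7, 3070, 2, 10, 2, 0, 2, 0, 0⟩], [⟨13, 1110, -20, 8, 6, 0, -10, 0, 0⟩, ⟨10, 1470, -9, 4, 5, 0, 0, 0, 0⟩]⟩,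
  ⟨[⟨0, -99, 0, -1, 1, 0, 0, 0, 0⟩, ⟨0, 101, 0, 1, -1, 0, 0, 0, 0⟩], [⟨10, 3540, 2, 0, 7, 0, 20, 0, 0⟩], [⟨20, 1410, -30, 10, 11, 0, -20, 0, 0⟩]⟩,
  ⟨[⟨0, -245, 0, -1, 1, 0, 0, 0, 0⟩, ⟨0, 270, 0, 1, -1, 0, 0, 0, 0⟩], [⟨27, 8280, 2, 0, 24, 0, 54, 0, 0⟩], [⟨55, 4760, -82, 28, 28, 0, -54, 0, 0⟩]⟩,
  ⟨[⟨0, -600, 0, 0, -1, 1, 0, 0, 0⟩], [⟨19, 7320, 2, 0, 0, 16, 0, 26, 0⟩, ⟨26, 4392, -25, 0, 10, 15, 0, 0, 0⟩], [⟨33, 1430, -52, 0, 20, 14, 0, -26, 0⟩]⟩,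
  ⟨[⟨0, -103, 0, -1, 1, 0, 0, 0, 0⟩, ⟨0, 105, 0, 1, -1, 0, 0, 0, 0⟩], [⟨21, 6760, 2, 0, 18, 0, 38, 0, 0⟩], [⟨41, 3740, -62, 22, 20, 0, -38, 0, 0⟩]⟩,
  ⟨[⟨0, -99, 0, -1, 1, 0, 0, 0, 0⟩, ⟨0, 101, 0, 1, -1, 0, 0, 0, 0⟩], [⟨7, 1760, 2, 0, 4, 0, 12, 0, 0⟩], [⟨13, 1540, -20, 6, 8, 0, -12, 0, 0⟩, ⟨10, 1637, -9, 3, 6, 0, 0, 0, 0⟩]⟩,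
  ⟨[], [⟨7, 3400, 2, 0, 0, 4, 0, 6, 0⟩, ⟨7, 2420, 2, 0, 8, 0, 0, 2, 0⟩], [⟨11, 1250, -18, 0, 8, 4, 0, -6, 0⟩]⟩,
  ⟨[⟨0, -245, 0, -1, 1, 0, 0, 0, 0⟩, ⟨0, 270, 0, 1, -1, 0, 0, 0, 0⟩], [⟨12, 3160, 2, 0, 9, 0, 24, 0, 0⟩, ⟨18, 2759, -17, 6, 11, 0, 0, 0, 0⟩], [⟨24, 2340, -36, 12, 13, 0, -24, 0, 0⟩]⟩,
  ⟨[⟨0, -133, 0, -1, 1, 0, 0, 0, 0⟩], [⟨5, 920, 2, 0, 2, 0, 2, 0, 0⟩, ⟨5, 1470, 2, 4, -2, 0, 2, 0, 0⟩, ⟨6, 1080, -5, 3, 2, 0, 0, 0, 0⟩], [⟨7, 1250, -12, 6, 2, 0, -2, 0, 0⟩]⟩]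

def wg97 : List Wn := [
  ⟨[⟨0, -750, 0, -1, 1, 0, 0, 0, 0⟩, ⟨0, 825, 0, 1, -1, 0, 0, 0, 0⟩], [⟨18, 5240, 2, 0, 15, 0, 34, 0, 0⟩], [⟨34, 2860, -52, 16, 19, 0, -34, 0, 0⟩, ⟨26, 4038, -25, 8, 17, 0, 0, 0, 0⟩]⟩,
  ⟨[⟨0, -1350, 0, -1, 1, 0, 0, 0, 0⟩], [⟨8, 1770, 2, 0, 5, 0, 16, 0, 0⟩, ⟨12, 1734, -11, 4, 7, 0, 0, 0, 0⟩], [⟨16, 1690, -24, 8, 9, 0, -16, 0, 0⟩]⟩,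
  ⟨[⟨0, -597, 0, -1, 1, 0, 0, 0, 0⟩], [⟨49, 18300, 2, 0, 46, 0, 96, 0, 0⟩, ⟨49, 17430, 2, 96, 44, 0, 2, 0, 0⟩, ⟨73, 13320, -72, 72, 0, 0, 0, 0, 0⟩], [⟨97, 8910, -146, 48, 50, 0, -96, 0, 0⟩]⟩,
  ⟨[⟨0, -138, 0, -1, 1, 0, 0, 0, 0⟩, ⟨0, 150, 0, 1, -1, 0, 0, 0, 0⟩], [⟨23, 7390, 2, 0, 20, 0, 44, 0, 0⟩], [⟨45, 3870, -68, 22, 24, 0, -44, 0, 0⟩, ⟨34, 5592, -33, 11, 22, 0, 0, 0, 0⟩]⟩,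
  ⟨[⟨0, -270, 0, -1, 1, 0, 0, 0, 0⟩, ⟨0, 300, 0, 1, -1, 0, 0, 0, 0⟩], [⟨6, 2190, 2, 0, 3, 0, 12, 0, 0⟩], [⟨12, 1220, -18, 6, 7, 0, -12, 0, 0⟩]⟩,
  ⟨[⟨0, -165, 0, -1, 1, 0, 0, 0, 0⟩, ⟨0, 180, 0, 1, -1, 0, 0, 0, 0⟩], [⟨10, 2970, 2, 0, 7, 0, 18, 0, 0⟩], [⟨18, 1470, -28, 8, 11, 0, -18, 0, 0⟩, ⟨14, 2208, -13, 4, 9, 0, 0, 0, 0⟩]⟩,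
  ⟨[⟨0, -300, 0, 0, -1, 1, 0, 0, 0⟩, ⟨0, 400, 0, 0, 1, -1, 0, 0, 0⟩], [⟨19, 7100, 2, 0, 0, 16, 0, 28, 0⟩], [⟨33, 1690, -52, 0, 18, 16, 0, -28, 0⟩, ⟨26, 4350, -25, 0, 9, 16, 0, 0, 0⟩]⟩,
  ⟨[⟨0, -1050, 0, -1, 1, 0, 0, 0, 0⟩], [⟨43, 13240, 2, 0, 40, 0, 86, 0, 0⟩], [⟨87, 7030, -130, 44, 44, 0, -86, 0, 0⟩]⟩,
  ⟨[⟨0, -400, 0, 0, -1, 1, 0, 0, 0⟩, ⟨0, 500, 0, 0, 1, -1, 0, 0, 0⟩], [⟨31, 8930, 2, 0, 0, 28, 0, 60, 0⟩], [⟨61, 5640, -92, 0, 30, 32, 0, -60, 0⟩, ⟨46, 7237, -45, 0, 15, 30, 0, 0, 0⟩]⟩,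
  ⟨[⟨0, -114, 0, -1, 1, 0, 0, 0, 0⟩, ⟨0, 126, 0, 1, -1, 0, 0, 0, 0⟩], [⟨7, 2500, 2, 0, 4, 0, 6, 0, 0⟩], [⟨11, 1420, -18, 8, 4, 0, -6, 0, 0⟩]⟩,
  ⟨[⟨0, -750, 0, -1, 1, 0, 0, 0, 0⟩], [⟨11, 2150, 2, 0, 8, 0, 22, 0, 0⟩], [⟨23, 2070, -34, 12, 12, 0, -22, 0, 0⟩]⟩,
  ⟨[], [⟨5, 2450, 2, 0, 2, 0, 6, 0, 0⟩, ⟨5, 2250, 2, 6, 0, 0, 2, 0, 0⟩], [⟨9, 910, -14, 6, 4, 0, -6, 0, 0⟩]⟩,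
  ⟨[⟨0, -180, 0, -1, 1, 0, 0, 0, 0⟩, ⟨0, 200, 0, 1, -1, 0, 0, 0, 0⟩], [⟨33, 10570, 2, 0, 30, 0, 62, 0, 0⟩], [⟨65, 5560, -98, 34, 32, 0, -62, 0, 0⟩]⟩,
  ⟨[⟨0, -1350, 0, -1, 1, 0, 0, 0, 0⟩], [⟨13, 3850, 2, 0, 10, 0, 22, 0, 0⟩], [⟨25, 2140, -38, 14, 12, 0, -22, 0, 0⟩]⟩,
  ⟨[⟨0, -108, 0, -1, 1, 0, 0, 0, 0⟩, ⟨0, 114, 0, 1, -1, 0, 0, 0, 0⟩], [⟨26, 8600, 2, 0, 23, 0, 52, 0, 0⟩], [⟨52, 4320, -78, 26, 27, 0, -52, 0, 0⟩]⟩,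
  ⟨[⟨0, -600, 0, 0, -1, 1, 0, 0, 0⟩], [⟨23, 6670, 2, 0, 0, 20, 0, 46, 0⟩], [⟨47, 4110, -70, 0, 24, 24, 0, -46, 0⟩]⟩]

def wg98 : List Wn := [
  ⟨[⟨0, -600, 0, -1, 1, 0, 0, 0, 0⟩], [⟨23, 6670, 2, 0, 20, 0, 46, 0, 0⟩], [⟨47, 4110, -70, 24, 24, 0, -46, 0, 0⟩]⟩,
  ⟨[⟨0, -92, 0, -1, 1, 0, 0, 0, 0⟩, ⟨0, 99, 0, 1, -1, 0, 0, 0, 0⟩], [⟨3, 330, 2, 0, 0, 0, 4, 0, 0⟩], [⟨5, 880, -8, 2, 4, 0, -4, 0, 0⟩, ⟨4, 598, -3, 1, 2, 0, 0, 0, 0⟩]⟩,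
  ⟨[⟨0, -200, 0, -1, 1, 0, 0, 0, 0⟩, ⟨0, 220, 0, 1, -1, 0, 0, 0, 0⟩], [⟨14, 4280, 2, 0, 11, 0, 28, 0, 0⟩], [⟨28, 2270, -42, 14, 15, 0, -28, 0, 0⟩]⟩,
  ⟨[⟨0, -530, 0, -1, 1, 0, 0, 0, 0⟩, ⟨0, 600, 0, 1, -1, 0, 0, 0, 0⟩], [⟨17, 4250, 2, 0, 14, 0, 34, 0, 0⟩], [⟨35, 3690, -52, 18, 18, 0, -34, 0, 0⟩, ⟨26, 3954, -25, 9, 16, 0, 0, 0, 0⟩]⟩,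
  ⟨[⟨0, -600, 0, 0, -1, 1, 0, 0, 0⟩], [⟨31, 10590, 2, 0, 0, 28, 0, 54, 0⟩], [⟨59, 3960, -90, 0, 32, 28, 0, -54, 0⟩]⟩,
  ⟨[⟨0, -99, 0, -1, 1, 0, 0, 0, 0⟩, ⟨0, 101, 0, 1, -1, 0, 0, 0, 0⟩], [⟨10, 3360, 2, 0, 7, 0, 20, 0, 0⟩], [⟨20, 740, -30, 10, 11, 0, -20, 0, 0⟩]⟩,
  ⟨[], [⟨55, 22480, 2, 0, 0, 52, 0, 110, 0⟩, ⟨55, 21840, 2, 0, 108, 52, 0, 2, 0⟩], [⟨111, 8310, -166, 0, 56, 56, 0, -110, 0⟩]⟩,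
  ⟨[⟨0, -150, 0, 0, -1, 1, 0, 0, 0⟩, ⟨0, 200, 0, 0, 1, -1, 0, 0, 0⟩], [⟨31, 9830, 2, 0, 0, 28, 0, 62, 0⟩], [⟨63, 5570, -94, 0, 32, 32, 0, -62, 0⟩]⟩,
  ⟨[⟨0, -530, 0, -1, 1, 0, 0, 0, 0⟩, ⟨0, 600, 0, 1, -1, 0, 0, 0, 0⟩], [⟨15, 4070, 2, 0, 12, 0, 28, 0, 0⟩], [⟨29, 2780, -44, 14, 16, 0, -28, 0, 0⟩, ⟨22, 3412, -21, 7, 14, 0, 0, 0, 0⟩]⟩,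
  ⟨[⟨0, -200, 0, 0, -1, 1, 0, 0, 0⟩], [⟨19, 6070, 2, 0, 0, 16, 0, 34, 0⟩], [⟨37, 3060, -56, 0, 20, 18, 0, -34, 0⟩, ⟨28, 4380, -27, 0, 10, 17, 0, 0, 0⟩]⟩,
  ⟨[⟨0, -138, 0, -1, 1, 0, 0, 0, 0⟩, ⟨0, 150, 0, 1, -1, 0, 0, 0, 0⟩], [⟨26, 8410, 2, 0, 23, 0, 52, 0, 0⟩], [⟨52, 4320, -78, 26, 27, 0, -52, 0, 0⟩]⟩,
  ⟨[⟨0, -84, 0, -1, 1, 0, 0, 0, 0⟩, ⟨0, 92, 0, 1, -1, 0, 0, 0, 0⟩], [⟨11, 3720, 2, 0, 8, 0, 20, 0, 0⟩], [⟨21, 1910, -32, 10, 12, 0, -20, 0, 0⟩, ⟨16, 2716, -15, 5, 10, 0, 0, 0, 0⟩]⟩,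
  ⟨[⟨0, -93, 0, -1, 1, 0, 0, 0, 0⟩], [⟨5, 920, 2, 0, 2, 0, 2, 0, 0⟩, ⟨5, 1470, 2, 4, -2, 0, 2, 0, 0⟩, ⟨6, 1110, -5, 3, 2, 0, 0, 0, 0⟩], [⟨7, 1210, -12, 6, 2, 0, -2, 0, 0⟩]⟩,
  ⟨[⟨0, -101, 0, -1, 1, 0, 0, 0, 0⟩, ⟨0, 103, 0, 1, -1, 0, 0, 0, 0⟩], [⟨23, 7700, 2, 0, 20, 0, 46, 0, 0⟩], [⟨47, 4110, -70, 24, 24, 0, -46, 0, 0⟩]⟩,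
  ⟨[⟨0, -1200, 0, -1, 1, 0, 0, 0, 0⟩], [⟨8, 1770, 2, 0, 5, 0, 16, 0, 0⟩, ⟨12, 1734, -11, 4, 7, 0, 0, 0, 0⟩], [⟨16, 1690, -24, 8, 9, 0, -16, 0, 0⟩]⟩,
  ⟨[⟨0, -900, 0, -1, 1, 0, 0, 0, 0⟩], [⟨43, 13250, 2, 0, 40, 0, 86, 0, 0⟩], [⟨87, 7030, -130, 44, 44, 0, -86, 0, 0⟩]⟩]

def wg99 : List Wn := [
  ⟨[⟨0, -1350, 0, -1, 1, 0, 0, 0, 0⟩], [⟨29, 8790, 2, 0, 26, 0, 56, 0, 0⟩], [⟨57, 4700, -86, 28, 30, 0, -56, 0, 0⟩]⟩,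
  ⟨[⟨0, -1200, 0, -1, 1, 0, 0, 0, 0⟩], [⟨13, 3850, 2, 0, 10, 0, 22, 0, 0⟩], [⟨25, 2140, -38, 14, 12, 0, -22, 0, 0⟩]⟩,
  ⟨[⟨0, -1350, 0, -1, 1, 0, 0, 0, 0⟩], [⟨10, 2430, 2, 1, 6, 0, 18, 0, 0⟩, ⟨14, 1960, -13, 6, 7, 0, 0, 0, 0⟩], [⟨18, 1470, -28, 11, 8, 0, -18, 0, 0⟩]⟩,
  ⟨[⟨0, -500, 0, 0, -1, 1, 0, 0, 0⟩], [⟨23, 6700, 2, 0, 0, 20, 0, 46, 0⟩], [⟨47, 4110, -70, 0, 24, 24, 0, -46, 0⟩]⟩,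
  ⟨[⟨0, -450, 0, -1, 1, 0, 0, 0, 0⟩], [⟨23, 6720, 2, 0, 20, 0, 46, 0, 0⟩], [⟨47, 4110, -70, 24, 24, 0, -46, 0, 0⟩]⟩,
  ⟨[⟨0, -500, 0, 0, -1, 1, 0, 0, 0⟩], [⟨31, 10630, 2, 0, 0, 28, 0, 54, 0⟩], [⟨59, 3960, -90, 0, 32, 28, 0, -54, 0⟩]⟩,
  ⟨[⟨0, -99, 0, -1, 1, 0, 0, 0, 0⟩, ⟨0, 101, 0, 1, -1, 0, 0, 0, 0⟩], [⟨10, 4210, 2, 0, 7, 0, 20, 0, 0⟩], [⟨20, 1590, -30, 10, 11, 0, -20, 0, 0⟩]⟩,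
  ⟨[⟨0, -201, 0, -1, 1, 0, 0, 0, 0⟩], [⟨5, 970, 2, 0, 2, 0, 10, 0, 0⟩, ⟨5, 1830, 2, 8, 2, 0, 2, 0, 0⟩, ⟨8, 1240, -7, 3, 4, 0, 0, 0, 0⟩], [⟨11, 1600, -16, 6, 6, 0, -10, 0, 0⟩]⟩,
  ⟨[], [⟨11, 4380, 2, 0, 8, 0, 20, 0, 0⟩, ⟨11, 3520, 2, 20, 6, 0, 2, 0, 0⟩], [⟨21, 1910, -32, 10, 12, 0, -20, 0, 0⟩, ⟨16, 2450, -15, 5, 10, 0, 0, 0, 0⟩]⟩,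
  ⟨[⟨0, -270, 0, -1, 1, 0, 0, 0, 0⟩, ⟨0, 300, 0, 1, -1, 0, 0, 0, 0⟩], [⟨21, 6180, 2, 0, 18, 0, 38, 0, 0⟩], [⟨41, 3810, -62, 22, 20, 0, -38, 0, 0⟩]⟩,
  ⟨[], [⟨5, 920, 2, 0, 2, 0, 2, 0, 0⟩, ⟨5, 1470, 2, 4, -2, 0, 2, 0, 0⟩, ⟨6, 1170, -5, 3, 2, 0, 0, 0, 0⟩], [⟨7, 1060, -12, 6, 2, 0, -2, 0, 0⟩]⟩,
  ⟨[⟨0, -500, 0, 0, -1, 1, 0, 0, 0⟩, ⟨0, 600, 0, 0, 1, -1, 0, 0, 0⟩], [⟨7, 1920, 2, 0, 0, 4, 0, 10, 0⟩], [⟨13, 1210, -20, 0, 8, 6, 0, -10, 0⟩, ⟨10, 1559, -9, 0, 4, 5, 0, 0, 0⟩]⟩,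
  ⟨[⟨0, -1350, 0, -1, 1, 0, 0, 0, 0⟩], [⟨13, 3220, 2, 0, 10, 0, 26, 0, 0⟩, ⟨20, 3010, -19, 7, 12, 0, 0, 0, 0⟩], [⟨27, 2790, -40, 14, 14, 0, -26, 0, 0⟩]⟩,
  ⟨[⟨0, -300, 0, 0, -1, 1, 0, 0, 0⟩, ⟨0, 400, 0, 0, 1, -1, 0, 0, 0⟩], [⟨14, 4380, 2, 0, 0, 11, 0, 24, 0⟩], [⟨26, 2030, -40, 0, 14, 13, 0, -24, 0⟩, ⟨20, 3170, -19, 0, 7, 12, 0, 0, 0⟩]⟩,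
  ⟨[⟨0, -825, 0, -1, 1, 0, 0, 0, 0⟩, ⟨0, 900, 0, 1, -1, 0, 0, 0, 0⟩], [⟨14, 4270, 2, 0, 11, 0, 24, 0, 0⟩], [⟨26, 2070, -40, 14, 13, 0, -24, 0, 0⟩, ⟨20, 3163, -19, 7, 12, 0, 0, 0, 0⟩]⟩,
  ⟨[⟨0, -50, 0, -1, 1, 0, 0, 0, 0⟩, ⟨0, 66, 0, 1, -1, 0, 0, 0, 0⟩], [⟨11, 3930, 2, 18, 6, 0, 2, 0, 0⟩], [⟨21, 1100, -32, 12, 10, 0, -18, 0, 0⟩]⟩]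

def wg100 : List Wn := [
  ⟨[⟨0, -1050, 0, -1, 1, 0, 0, 0, 0⟩], [⟨8, 1770, 2, 0, 5, 0, 16, 0, 0⟩, ⟨12, 1734, -11, 4, 7, 0, 0, 0, 0⟩], [⟨16, 1690, -24, 8, 9, 0, -16, 0, 0⟩]⟩,
  ⟨[⟨0, -92, 0, -1, 1, 0, 0, 0, 0⟩, ⟨0, 99, 0, 1, -1, 0, 0, 0, 0⟩], [⟨7, 2270, 2, 0, 4, 0, 14, 0, 0⟩], [⟨15, 1490, -22, 8, 8, 0, -14, 0, 0⟩]⟩,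
  ⟨[⟨0, -750, 0, -1, 1, 0, 0, 0, 0⟩], [⟨43, 13260, 2, 0, 40, 0, 86, 0, 0⟩], [⟨87, 7030, -130, 44, 44, 0, -86, 0, 0⟩]⟩,
  ⟨[⟨0, -159, 0, 0, -1, 1, 0, 0, 0⟩], [⟨75, 30880, 2, 0, 0, 72, 0, 142, 0⟩, ⟨75, 29850, 2, 0, 144, 68, 0, 2, 0⟩], [⟨147, 10690, -222, 0, 76, 72, 0, -142, 0⟩]⟩,
  ⟨[⟨0, -1200, 0, -1, 1, 0, 0, 0, 0⟩], [⟨29, 8790, 2, 0, 26, 0, 56, 0, 0⟩], [⟨57, 4700, -86, 28, 30, 0, -56, 0, 0⟩]⟩,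
  ⟨[⟨0, -1050, 0, -1, 1, 0, 0, 0, 0⟩], [⟨13, 3850, 2, 0, 10, 0, 22, 0, 0⟩], [⟨25, 2140, -38, 14, 12, 0, -22, 0, 0⟩]⟩,
  ⟨[⟨0, -1200, 0, -1, 1, 0, 0, 0, 0⟩], [⟨10, 2440, 2, 1, 6, 0, 18, 0, 0⟩, ⟨14, 1960, -13, 6, 7, 0, 0, 0, 0⟩], [⟨18, 1470, -28, 11, 8, 0, -18, 0, 0⟩]⟩,
  ⟨[⟨0, -92, 0, -1, 1, 0, 0, 0, 0⟩, ⟨0, 99, 0, 1, -1, 0, 0, 0, 0⟩], [⟨27, 9810, 2, 0, 24, 0, 54, 0, 0⟩], [⟨55, 4760, -82, 28, 28, 0, -54, 0, 0⟩]⟩,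
  ⟨[⟨0, -400, 0, 0, -1, 1, 0, 0, 0⟩], [⟨23, 6750, 2, 0, 0, 20, 0, 46, 0⟩], [⟨47, 4110, -70, 0, 24, 24, 0, -46, 0⟩]⟩,
  ⟨[⟨0, -300, 0, -1, 1, 0, 0, 0, 0⟩], [⟨23, 6860, 2, 0, 20, 0, 46, 0, 0⟩], [⟨47, 4110, -70, 24, 24, 0, -46, 0, 0⟩]⟩,
  ⟨[⟨0, -200, 0, -1, 1, 0, 0, 0, 0⟩, ⟨0, 220, 0, 1, -1, 0, 0, 0, 0⟩], [⟨14, 4100, 2, 1, 10, 0, 26, 0, 0⟩, ⟨20, 3069, -19, 8, 11, 0, 0, 0, 0⟩], [⟨26, 2030, -40, 15, 12, 0, -26, 0, 0⟩]⟩,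
  ⟨[⟨0, -108, 0, -1, 1, 0, 0, 0, 0⟩, ⟨0, 114, 0, 1, -1, 0, 0, 0, 0⟩], [⟨9, 2330, 2, 0, 6, 0, 14, 0, 0⟩], [⟨17, 2000, -26, 10, 8, 0, -14, 0, 0⟩]⟩,
  ⟨[⟨0, -220, 0, -1, 1, 0, 0, 0, 0⟩, ⟨0, 245, 0, 1, -1, 0, 0, 0, 0⟩], [⟨39, 11580, 2, 0, 36, 0, 78, 0, 0⟩], [⟨79, 7420, -118, 40, 40, 0, -78, 0, 0⟩]⟩,
  ⟨[⟨0, -400, 0, 0, -1, 1, 0, 0, 0⟩], [⟨31, 10700, 2, 0, 0, 28, 0, 54, 0⟩], [⟨59, 3940, -90, 0, 32, 28, 0, -54, 0⟩]⟩,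
  ⟨[⟨0, -159, 0, -1, 1, 0, 0, 0, 0⟩], [⟨5, 970, 2, 0, 2, 0, 10, 0, 0⟩, ⟨5, 1830, 2, 8, 2, 0, 2, 0, 0⟩, ⟨8, 1290, -7, 3, 4, 0, 0, 0, 0⟩], [⟨11, 1600, -16, 6, 6, 0, -10, 0, 0⟩]⟩,
  ⟨[⟨0, -101, 0, -1, 1, 0, 0, 0, 0⟩, ⟨0, 103, 0, 1, -1, 0, 0, 0, 0⟩], [⟨33, 11150, 2, 0, 30, 0, 62, 0, 0⟩], [⟨65, 5520, -98, 34, 32, 0, -62, 0, 0⟩]⟩]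

def wg101 : List Wn := [
  ⟨[⟨0, -245, 0, -1, 1, 0, 0, 0, 0⟩, ⟨0, 270, 0, 1, -1, 0, 0, 0, 0⟩], [⟨3, 10, 2, 0, 0, 0, 2, 0, 0⟩], [⟨5, 1150, -8, 4, 2, 0, -2, 0, 0⟩, ⟨4, 568, -3, 2, 1, 0, 0, 0, 0⟩]⟩,
  ⟨[⟨0, -200, 0, 0, -1, 1, 0, 0, 0⟩], [⟨11, 3450, 2, 0, 0, 8, 0, 12, 0⟩], [⟨17, 1460, -28, 0, 10, 8, 0, -12, 0⟩, ⟨14, 2381, -13, 0, 5, 8, 0, 0, 0⟩]⟩,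
  ⟨[⟨0, -84, 0, -1, 1, 0, 0, 0, 0⟩, ⟨0, 92, 0, 1, -1, 0, 0, 0, 0⟩], [⟨25, 9930, 2, 0, 22, 0, 50, 0, 0⟩], [⟨51, 4320, -76, 26, 26, 0, -50, 0, 0⟩]⟩,
  ⟨[⟨0, -1350, 0, -1, 1, 0, 0, 0, 0⟩], [⟨30, 8790, 2, 0, 27, 0, 60, 0, 0⟩], [⟨60, 5130, -90, 30, 31, 0, -60, 0, 0⟩]⟩,
  ⟨[⟨0, -1200, 0, -1, 1, 0, 0, 0, 0⟩], [⟨13, 3220, 2, 0, 10, 0, 26, 0, 0⟩, ⟨20, 3010, -19, 7, 12, 0, 0, 0, 0⟩], [⟨27, 2790, -40, 14, 14, 0, -26, 0, 0⟩]⟩,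
  ⟨[⟨0, -270, 0, -1, 1, 0, 0, 0, 0⟩, ⟨0, 300, 0, 1, -1, 0, 0, 0, 0⟩], [⟨13, 3380, 2, 0, 10, 0, 26, 0, 0⟩, ⟨20, 3089, -19, 7, 12, 0, 0, 0, 0⟩], [⟨27, 2790, -40, 14, 14, 0, -26, 0, 0⟩]⟩,
  ⟨[⟨0, -138, 0, -1, 1, 0, 0, 0, 0⟩, ⟨0, 150, 0, 1, -1, 0, 0, 0, 0⟩], [⟨9, 2240, 2, 0, 6, 0, 14, 0, 0⟩], [⟨17, 2020, -26, 10, 8, 0, -14, 0, 0⟩]⟩,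
  ⟨[⟨0, -1350, 0, -1, 1, 0, 0, 0, 0⟩], [⟨33, 9870, 2, 0, 30, 0, 62, 0, 0⟩], [⟨65, 5640, -98, 34, 32, 0, -62, 0, 0⟩]⟩,
  ⟨[⟨0, -900, 0, -1, 1, 0, 0, 0, 0⟩], [⟨8, 1770, 2, 0, 5, 0, 16, 0, 0⟩, ⟨12, 1734, -11, 4, 7, 0, 0, 0, 0⟩], [⟨16, 1690, -24, 8, 9, 0, -16, 0, 0⟩]⟩,
  ⟨[⟨0, -105, 0, -1, 1, 0, 0, 0, 0⟩, ⟨0, 108, 0, 1, -1, 0, 0, 0, 0⟩], [⟨10, 3090, 2, 0, 7, 0, 18, 0, 0⟩], [⟨18, 1470, -28, 8, 11, 0, -18, 0, 0⟩, ⟨14, 2269, -13, 4, 9, 0, 0, 0, 0⟩]⟩,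
  ⟨[⟨0, -600, 0, 0, -1, 1, 0, 0, 0⟩], [⟨43, 13290, 2, 0, 0, 40, 0, 86, 0⟩], [⟨87, 7030, -130, 0, 44, 44, 0, -86, 0⟩]⟩,
  ⟨[⟨0, -1200, 0, 0, -1, 1, 0, 0, 0⟩], [⟨7, 2270, 2, 0, 0, 4, 0, 6, 0⟩], [⟨11, 1600, -18, 0, 8, 4, 0, -6, 0⟩]⟩,
  ⟨[], [⟨23, 9040, 2, 0, 20, 0, 46, 0, 0⟩, ⟨23, 6670, 2, 20, 44, 0, 2, 0, 0⟩], [⟨47, 4110, -70, 24, 24, 0, -46, 0, 0⟩]⟩,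
  ⟨[⟨0, -600, 0, -1, 1, 0, 0, 0, 0⟩], [⟨43, 13290, 2, 0, 40, 0, 86, 0, 0⟩], [⟨87, 7030, -130, 44, 44, 0, -86, 0, 0⟩]⟩,
  ⟨[⟨0, -900, 0, -1, 1, 0, 0, 0, 0⟩], [⟨13, 3860, 2, 0, 10, 0, 22, 0, 0⟩], [⟨25, 2140, -38, 14, 12, 0, -22, 0, 0⟩]⟩,
  ⟨[⟨0, -10, 0, -1, 1, 0, 0, 0, 0⟩, ⟨0, 18, 0, 1, -1, 0, 0, 0, 0⟩], [⟨31, 9270, 2, 60, 28, 0, 2, 0, 0⟩], [⟨63, 5570, -94, 32, 32, 0, -62, 0, 0⟩]⟩]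

def wg102 : List Wn := [
  ⟨[⟨0, -300, 0, 0, -1, 1, 0, 0, 0⟩], [⟨23, 6860, 2, 0, 0, 20, 0, 46, 0⟩], [⟨47, 4110, -70, 0, 24, 24, 0, -46, 0⟩]⟩,
  ⟨[⟨0, -180, 0, -1, 1, 0, 0, 0, 0⟩, ⟨0, 200, 0, 1, -1, 0, 0, 0, 0⟩], [⟨26, 8230, 2, 0, 23, 0, 52, 0, 0⟩], [⟨52, 4320, -78, 26, 27, 0, -52, 0, 0⟩]⟩,
  ⟨[⟨0, -38, 0, -1, 1, 0, 0, 0, 0⟩, ⟨0, 50, 0, 1, -1, 0, 0, 0, 0⟩], [⟨27, 8500, 2, 52, 24, 0, 2, 0, 0⟩], [⟨55, 4760, -82, 28, 28, 0, -54, 0, 0⟩]⟩,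
  ⟨[⟨0, -1350, 0, -1, 1, 0, 0, 0, 0⟩], [⟨3, 220, 2, 0, 0, 0, 6, 0, 0⟩], [⟨7, 210, -10, 4, 4, 0, -6, 0, 0⟩]⟩,
  ⟨[⟨0, -84, 0, -1, 1, 0, 0, 0, 0⟩, ⟨0, 92, 0, 1, -1, 0, 0, 0, 0⟩], [⟨8, 3270, 2, 0, 5, 0, 16, 0, 0⟩], [⟨16, 1680, -24, 8, 9, 0, -16, 0, 0⟩]⟩,
  ⟨[⟨0, -100, 0, 0, -1, 1, 0, 0, 0⟩, ⟨0, 150, 0, 0, 1, -1, 0, 0, 0⟩], [⟨11, 3060, 2, 0, 0, 8, 0, 10, 0⟩], [⟨17, 1880, -28, 0, 12, 6, 0, -10, 0⟩, ⟨14, 2399, -13, 0, 6, 7, 0, 0, 0⟩]⟩,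
  ⟨[⟨0, -300, 0, 0, -1, 1, 0, 0, 0⟩], [⟨31, 10830, 2, 0, 0, 28, 0, 54, 0⟩], [⟨59, 3910, -90, 0, 32, 28, 0, -54, 0⟩]⟩,
  ⟨[⟨0, -133, 0, -1, 1, 0, 0, 0, 0⟩], [⟨5, 970, 2, 0, 2, 0, 10, 0, 0⟩, ⟨5, 1830, 2, 8, 2, 0, 2, 0, 0⟩, ⟨8, 1300, -7, 3, 4, 0, 0, 0, 0⟩], [⟨11, 1600, -16, 6, 6, 0, -10, 0, 0⟩]⟩,
  ⟨[⟨0, -200, 0, 0, -1, 1, 0, 0, 0⟩], [⟨19, 7620, 2, 0, 0, 16, 0, 26, 0⟩, ⟨26, 4541, -25, 0, 10, 15, 0, 0, 0⟩], [⟨33, 1280, -52, 0, 20, 14, 0, -26, 0⟩]⟩,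
  ⟨[⟨0, -103, 0, -1, 1, 0, 0, 0, 0⟩, ⟨0, 105, 0, 1, -1, 0, 0, 0, 0⟩], [⟨7, 2530, 2, 0, 4, 0, 6, 0, 0⟩], [⟨11, 1410, -18, 8, 4, 0, -6, 0, 0⟩]⟩,
  ⟨[], [⟨11, 5970, 2, 0, 8, 0, 14, 0, 0⟩, ⟨11, 4960, 2, 16, 4, 0, 2, 0, 0⟩], [⟨19, 920, -30, 12, 8, 0, -14, 0, 0⟩]⟩,
  ⟨[⟨0, -23, 0, 0, -1, 1, 0, 0, 0⟩, ⟨0, 60, 0, 0, 1, -1, 0, 0, 0⟩], [⟨35, 12020, 2, 0, 64, 28, 0, 2, 0⟩], [⟨67, 4600, -102, 0, 36, 32, 0, -62, 0⟩]⟩,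
  ⟨[⟨0, -1350, 0, -1, 1, 0, 0, 0, 0⟩], [⟨17, 5230, 2, 0, 14, 0, 32, 0, 0⟩], [⟨33, 2350, -50, 18, 16, 0, -32, 0, 0⟩]⟩,
  ⟨[⟨0, -1200, 0, -1, 1, 0, 0, 0, 0⟩], [⟨30, 8790, 2, 0, 27, 0, 60, 0, 0⟩], [⟨60, 5130, -90, 30, 31, 0, -60, 0, 0⟩]⟩,
  ⟨[⟨0, -1050, 0, -1, 1, 0, 0, 0, 0⟩], [⟨13, 3220, 2, 0, 10, 0, 26, 0, 0⟩, ⟨20, 3011, -19, 7, 12, 0, 0, 0, 0⟩], [⟨27, 2790, -40, 14, 14, 0, -26, 0, 0⟩]⟩,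
  ⟨[⟨0, -50, 0, -1, 1, 0, 0, 0, 0⟩, ⟨0, 66, 0, 1, -1, 0, 0, 0, 0⟩], [⟨11, 4590, 2, 18, 6, 0, 2, 0, 0⟩], [⟨21, 1280, -32, 12, 10, 0, -18, 0, 0⟩]⟩]

def wg103 : List Wn := [
  ⟨[⟨0, -1200, 0, -1, 1, 0, 0, 0, 0⟩], [⟨33, 9870, 2, 0, 30, 0, 62, 0, 0⟩], [⟨65, 5640, -98, 34, 32, 0, -62, 0, 0⟩]⟩,
  ⟨[⟨0, -750, 0, -1, 1, 0, 0, 0, 0⟩], [⟨8, 1770, 2, 0, 5, 0, 16, 0, 0⟩, ⟨12, 1735, -11, 4, 7, 0, 0, 0, 0⟩], [⟨16, 1690, -24, 8, 9, 0, -16, 0, 0⟩]⟩,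
  ⟨[⟨0, -597, 0, -1, 1, 0, 0, 0, 0⟩], [⟨57, 22830, 2, 0, 54, 0, 112, 0, 0⟩, ⟨57, 21960, 2, 112, 52, 0, 2, 0, 0⟩, ⟨85, 15550, -84, 84, 0, 0, 0, 0, 0⟩], [⟨113, 8790, -170, 56, 58, 0, -112, 0, 0⟩]⟩,
  ⟨[⟨0, -500, 0, 0, -1, 1, 0, 0, 0⟩], [⟨43, 13340, 2, 0, 0, 40, 0, 86, 0⟩], [⟨87, 7030, -130, 0, 44, 44, 0, -86, 0⟩]⟩,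
  ⟨[⟨0, -1000, 0, 0, -1, 1, 0, 0, 0⟩], [⟨7, 2270, 2, 0, 0, 4, 0, 6, 0⟩], [⟨11, 1600, -18, 0, 8, 4, 0, -6, 0⟩]⟩,
  ⟨[], [⟨23, 9040, 2, 0, 20, 0, 46, 0, 0⟩, ⟨23, 8410, 2, 44, 20, 0, 2, 0, 0⟩], [⟨47, 4110, -70, 24, 24, 0, -46, 0, 0⟩]⟩,
  ⟨[⟨0, -450, 0, -1, 1, 0, 0, 0, 0⟩], [⟨43, 13380, 2, 0, 40, 0, 86, 0, 0⟩], [⟨87, 7030, -130, 44, 44, 0, -86, 0, 0⟩]⟩,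
  ⟨[⟨0, -1350, 0, -1, 1, 0, 0, 0, 0⟩], [⟨11, 2330, 2, 0, 8, 0, 22, 0, 0⟩], [⟨23, 2730, -34, 12, 12, 0, -22, 0, 0⟩]⟩,
  ⟨[⟨0, -750, 0, -1, 1, 0, 0, 0, 0⟩], [⟨13, 3860, 2, 0, 10, 0, 22, 0, 0⟩], [⟨25, 2130, -38, 14, 12, 0, -22, 0, 0⟩]⟩,
  ⟨[⟨0, -900, 0, -1, 1, 0, 0, 0, 0⟩], [⟨10, 2440, 2, 1, 6, 0, 18, 0, 0⟩, ⟨14, 1961, -13, 6, 7, 0, 0, 0, 0⟩], [⟨18, 1470, -28, 11, 8, 0, -18, 0, 0⟩]⟩,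
  ⟨[⟨0, -200, 0, 0, -1, 1, 0, 0, 0⟩], [⟨23, 7080, 2, 0, 0, 20, 0, 46, 0⟩], [⟨47, 4110, -70, 0, 24, 24, 0, -46, 0⟩]⟩,
  ⟨[⟨0, -1200, 0, -1, 1, 0, 0, 0, 0⟩], [⟨3, 220, 2, 0, 0, 0, 6, 0, 0⟩], [⟨7, 210, -10, 4, 4, 0, -6, 0, 0⟩]⟩,
  ⟨[⟨0, -38, 0, -1, 1, 0, 0, 0, 0⟩, ⟨0, 50, 0, 1, -1, 0, 0, 0, 0⟩], [⟨4, 1630, 2, 6, 1, 0, 2, 0, 0⟩], [⟨8, 820, -12, 4, 5, 0, -8, 0, 0⟩]⟩,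
  ⟨[⟨0, -200, 0, 0, -1, 1, 0, 0, 0⟩], [⟨31, 11120, 2, 0, 0, 28, 0, 54, 0⟩], [⟨59, 3850, -90, 0, 32, 28, 0, -54, 0⟩]⟩,
  ⟨[⟨0, -93, 0, -1, 1, 0, 0, 0, 0⟩], [⟨5, 970, 2, 0, 2, 0, 10, 0, 0⟩, ⟨5, 1830, 2, 8, 2, 0, 2, 0, 0⟩, ⟨8, 1300, -7, 3, 4, 0, 0, 0, 0⟩], [⟨11, 1600, -16, 6, 6, 0, -10, 0, 0⟩]⟩,
  ⟨[⟨0, -108, 0, -1, 1, 0, 0, 0, 0⟩, ⟨0, 114, 0, 1, -1, 0, 0, 0, 0⟩], [⟨23, 7520, 2, 0, 20, 0, 46, 0, 0⟩], [⟨47, 4110, -70, 24, 24, 0, -46, 0, 0⟩]⟩]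

def wg104 : List Wn := [
  ⟨[⟨0, -101, 0, -1, 1, 0, 0, 0, 0⟩, ⟨0, 103, 0, 1, -1, 0, 0, 0, 0⟩], [⟨19, 5690, 2, 0, 16, 0, 36, 0, 0⟩], [⟨37, 3760, -56, 18, 20, 0, -36, 0, 0⟩, ⟨28, 4700, -27, 9, 18, 0, 0, 0, 0⟩]⟩,
  ⟨[⟨0, -500, 0, 0, -1, 1, 0, 0, 0⟩, ⟨0, 600, 0, 0, 1, -1, 0, 0, 0⟩], [⟨18, 5270, 2, 0, 0, 15, 0, 34, 0⟩], [⟨34, 2860, -52, 0, 16, 19, 0, -34, 0⟩, ⟨26, 4045, -25, 0, 8, 17, 0, 0, 0⟩]⟩,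
  ⟨[], [⟨7, 2270, 2, 0, 4, 0, 6, 0, 0⟩, ⟨7, 1920, 2, 8, 0, 0, 2, 0, 0⟩], [⟨11, 1060, -18, 8, 4, 0, -6, 0, 0⟩]⟩,
  ⟨[⟨0, -126, 0, -1, 1, 0, 0, 0, 0⟩, ⟨0, 138, 0, 1, -1, 0, 0, 0, 0⟩], [⟨9, 2260, 2, 0, 6, 0, 18, 0, 0⟩, ⟨14, 2204, -13, 5, 8, 0, 0, 0, 0⟩], [⟨19, 2140, -28, 10, 10, 0, -18, 0, 0⟩]⟩,
  ⟨[⟨0, -1350, 0, -1, 1, 0, 0, 0, 0⟩], [⟨7, 1910, 2, 0, 4, 0, 10, 0, 0⟩, ⟨10, 1567, -9, 4, 5, 0, 0, 0, 0⟩], [⟨13, 1220, -20, 8, 6, 0, -10, 0, 0⟩]⟩,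
  ⟨[], [⟨63, 24970, 2, 0, 0, 60, 0, 126, 0⟩, ⟨63, 24330, 2, 0, 124, 60, 0, 2, 0⟩], [⟨127, 10230, -190, 0, 64, 64, 0, -126, 0⟩]⟩,
  ⟨[⟨0, -23, 0, 0, -1, 1, 0, 0, 0⟩, ⟨0, 60, 0, 0, 1, -1, 0, 0, 0⟩], [⟨22, 7280, 2, 0, 42, 19, 0, 2, 0⟩], [⟨44, 3360, -66, 0, 22, 23, 0, -44, 0⟩]⟩,
  ⟨[⟨0, -126, 0, -1, 1, 0, 0, 0, 0⟩, ⟨0, 138, 0, 1, -1, 0, 0, 0, 0⟩], [⟨38, 13140, 2, 0, 35, 0, 76, 0, 0⟩], [⟨76, 5730, -114, 38, 39, 0, -76, 0, 0⟩]⟩,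
  ⟨[⟨0, -1350, 0, -1, 1, 0, 0, 0, 0⟩], [⟨33, 9870, 2, 0, 30, 0, 66, 0, 0⟩, ⟨50, 7771, -49, 17, 32, 0, 0, 0, 0⟩], [⟨67, 5640, -100, 34, 34, 0, -66, 0, 0⟩]⟩,
  ⟨[⟨0, -245, 0, -1, 1, 0, 0, 0, 0⟩, ⟨0, 270, 0, 1, -1, 0, 0, 0, 0⟩], [⟨33, 10310, 2, 0, 30, 0, 62, 0, 0⟩], [⟨65, 5590, -98, 34, 32, 0, -62, 0, 0⟩]⟩,
  ⟨[⟨0, -1200, 0, -1, 1, 0, 0, 0, 0⟩], [⟨17, 5230, 2, 0, 14, 0, 32, 0, 0⟩], [⟨33, 2350, -50, 18, 16, 0, -32, 0, 0⟩]⟩,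
  ⟨[⟨0, -114, 0, -1, 1, 0, 0, 0, 0⟩, ⟨0, 126, 0, 1, -1, 0, 0, 0, 0⟩], [⟨17, 6130, 2, 0, 14, 0, 30, 0, 0⟩], [⟨33, 2240, -50, 18, 16, 0, -30, 0, 0⟩]⟩,
  ⟨[⟨0, -23, 0, 0, -1, 1, 0, 0, 0⟩, ⟨0, 60, 0, 0, 1, -1, 0, 0, 0⟩], [⟨27, 8950, 2, 0, 50, 22, 0, 2, 0⟩], [⟨53, 4030, -80, 0, 28, 26, 0, -50, 0⟩]⟩,
  ⟨[⟨0, -50, 0, -1, 1, 0, 0, 0, 0⟩, ⟨0, 66, 0, 1, -1, 0, 0, 0, 0⟩], [⟨6, 2280, 2, 10, 3, 0, 2, 0, 0⟩], [⟨12, 1220, -18, 6, 7, 0, -12, 0, 0⟩]⟩,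
  ⟨[⟨0, -1050, 0, -1, 1, 0, 0, 0, 0⟩], [⟨30, 8790, 2, 0, 27, 0, 60, 0, 0⟩], [⟨60, 5130, -90, 30, 31, 0, -60, 0, 0⟩]⟩,
  ⟨[⟨0, -900, 0, -1, 1, 0, 0, 0, 0⟩], [⟨13, 3220, 2, 0, 10, 0, 26, 0, 0⟩, ⟨20, 3011, -19, 7, 12, 0, 0, 0, 0⟩], [⟨27, 2790, -40, 14, 14, 0, -26, 0, 0⟩]⟩]

def wg105 : List Wn := [
  ⟨[⟨0, -270, 0, -1, 1, 0, 0, 0, 0⟩, ⟨0, 300, 0, 1, -1, 0, 0, 0, 0⟩], [⟨14, 4190, 2, 0, 11, 0, 28, 0, 0⟩], [⟨28, 2270, -42, 14, 15, 0, -28, 0, 0⟩]⟩,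
  ⟨[⟨0, -138, 0, -1, 1, 0, 0, 0, 0⟩, ⟨0, 150, 0, 1, -1, 0, 0, 0, 0⟩], [⟨9, 2900, 2, 0, 6, 0, 14, 0, 0⟩], [⟨17, 2200, -26, 10, 8, 0, -14, 0, 0⟩]⟩,
  ⟨[⟨0, -1050, 0, -1, 1, 0, 0, 0, 0⟩], [⟨33, 9870, 2, 0, 30, 0, 62, 0, 0⟩], [⟨65, 5640, -98, 34, 32, 0, -62, 0, 0⟩]⟩,
  ⟨[⟨0, -600, 0, -1, 1, 0, 0, 0, 0⟩], [⟨8, 1780, 2, 0, 5, 0, 16, 0, 0⟩, ⟨12, 1738, -11, 4, 7, 0, 0, 0, 0⟩], [⟨16, 1690, -24, 8, 9, 0, -16, 0, 0⟩]⟩,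
  ⟨[⟨0, -138, 0, -1, 1, 0, 0, 0, 0⟩, ⟨0, 150, 0, 1, -1, 0, 0, 0, 0⟩], [⟨23, 7320, 2, 0, 20, 0, 46, 0, 0⟩], [⟨47, 4110, -70, 24, 24, 0, -46, 0, 0⟩]⟩,
  ⟨[⟨0, 10, 0, 1, -1, 0, 0, 0, 0⟩], [⟨13, 3750, 2, 22, 8, 0, 2, 0, 0⟩], [⟨25, 1940, -38, 14, 12, 0, -22, 0, 0⟩]⟩,
  ⟨[⟨0, -400, 0, 0, -1, 1, 0, 0, 0⟩], [⟨43, 13440, 2, 0, 0, 40, 0, 86, 0⟩], [⟨87, 7030, -130, 0, 44, 44, 0, -86, 0⟩]⟩,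
  ⟨[⟨0, -800, 0, 0, -1, 1, 0, 0, 0⟩], [⟨7, 2270, 2, 0, 0, 4, 0, 6, 0⟩], [⟨11, 1590, -18, 0, 8, 4, 0, -6, 0⟩]⟩,
  ⟨[⟨0, -300, 0, -1, 1, 0, 0, 0, 0⟩], [⟨43, 13640, 2, 0, 40, 0, 86, 0, 0⟩], [⟨87, 7030, -130, 44, 44, 0, -86, 0, 0⟩]⟩,
  ⟨[⟨0, -1200, 0, -1, 1, 0, 0, 0, 0⟩], [⟨11, 2330, 2, 0, 8, 0, 22, 0, 0⟩], [⟨23, 2730, -34, 12, 12, 0, -22, 0, 0⟩]⟩,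
  ⟨[⟨0, -600, 0, 0, -1, 1, 0, 0, 0⟩], [⟨13, 3870, 2, 0, 0, 10, 0, 22, 0⟩], [⟨25, 2130, -38, 0, 14, 12, 0, -22, 0⟩]⟩,
  ⟨[⟨0, -600, 0, -1, 1, 0, 0, 0, 0⟩], [⟨13, 3870, 2, 0, 10, 0, 22, 0, 0⟩], [⟨25, 2130, -38, 14, 12, 0, -22, 0, 0⟩]⟩,
  ⟨[⟨0, -750, 0, -1, 1, 0, 0, 0, 0⟩, ⟨0, 825, 0, 1, -1, 0, 0, 0, 0⟩], [⟨15, 4050, 2, 0, 12, 0, 28, 0, 0⟩], [⟨29, 2780, -44, 14, 16, 0, -28, 0, 0⟩, ⟨22, 3406, -21, 7, 14, 0, 0, 0, 0⟩]⟩,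
  ⟨[⟨0, -597, 0, -1, 1, 0, 0, 0, 0⟩], [⟨17, 7060, 2, 0, 14, 0, 32, 0, 0⟩, ⟨17, 6180, 2, 32, 12, 0, 2, 0, 0⟩, ⟨25, 4410, -24, 24, 0, 0, 0, 0, 0⟩], [⟨33, 2520, -50, 16, 18, 0, -32, 0, 0⟩]⟩,
  ⟨[⟨0, -1050, 0, -1, 1, 0, 0, 0, 0⟩], [⟨3, 220, 2, 0, 0, 0, 6, 0, 0⟩], [⟨7, 210, -10, 4, 4, 0, -6, 0, 0⟩]⟩,
  ⟨[], [⟨5, 970, 2, 0, 2, 0, 10, 0, 0⟩, ⟨5, 1830, 2, 8, 2, 0, 2, 0, 0⟩, ⟨8, 1300, -7, 3, 4, 0, 0, 0, 0⟩], [⟨11, 1600, -16, 6, 6, 0, -10, 0, 0⟩]⟩]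

def wg106 : List Wn := [
  ⟨[⟨0, -92, 0, -1, 1, 0, 0, 0, 0⟩, ⟨0, 99, 0, 1, -1, 0, 0, 0, 0⟩], [⟨11, 3540, 2, 0, 8, 0, 20, 0, 0⟩], [⟨21, 1910, -32, 10, 12, 0, -20, 0, 0⟩, ⟨16, 2672, -15, 5, 10, 0, 0, 0, 0⟩]⟩,
  ⟨[⟨0, -180, 0, -1, 1, 0, 0, 0, 0⟩, ⟨0, 200, 0, 1, -1, 0, 0, 0, 0⟩], [⟨9, 2160, 2, 0, 6, 0, 14, 0, 0⟩], [⟨17, 2040, -26, 10, 8, 0, -14, 0, 0⟩]⟩,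
  ⟨[⟨0, -1200, 0, -1, 1, 0, 0, 0, 0⟩], [⟨7, 1910, 2, 0, 4, 0, 10, 0, 0⟩, ⟨10, 1567, -9, 4, 5, 0, 0, 0, 0⟩], [⟨13, 1220, -20, 8, 6, 0, -10, 0, 0⟩]⟩,
  ⟨[⟨0, -84, 0, -1, 1, 0, 0, 0, 0⟩, ⟨0, 92, 0, 1, -1, 0, 0, 0, 0⟩], [⟨3, 620, 2, 0, 0, 0, 6, 0, 0⟩], [⟨7, 210, -10, 4, 4, 0, -6, 0, 0⟩]⟩,
  ⟨[⟨0, 99, 0, 1, -1, 0, 0, 0, 0⟩], [⟨21, 7060, 2, 0, 18, 0, 42, 0, 0⟩, ⟨21, 5680, 2, 18, 40, 0, 2, 0, 0⟩], [⟨43, 4130, -64, 22, 22, 0, -42, 0, 0⟩]⟩,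
  ⟨[⟨0, -1200, 0, -1, 1, 0, 0, 0, 0⟩], [⟨33, 9870, 2, 0, 30, 0, 66, 0, 0⟩, ⟨50, 7771, -49, 17, 32, 0, 0, 0, 0⟩], [⟨67, 5640, -100, 34, 34, 0, -66, 0, 0⟩]⟩,
  ⟨[⟨0, -150, 0, 0, -1, 1, 0, 0, 0⟩, ⟨0, 200, 0, 0, 1, -1, 0, 0, 0⟩], [⟨37, 13410, 2, 0, 0, 34, 0, 70, 0⟩], [⟨73, 4890, -110, 0, 38, 36, 0, -70, 0⟩]⟩,
  ⟨[⟨0, -900, 0, -1, 1, 0, 0, 0, 0⟩], [⟨30, 8800, 2, 0, 27, 0, 60, 0, 0⟩], [⟨60, 5130, -90, 30, 31, 0, -60, 0, 0⟩]⟩,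
  ⟨[⟨0, -750, 0, -1, 1, 0, 0, 0, 0⟩], [⟨13, 3230, 2, 0, 10, 0, 26, 0, 0⟩, ⟨20, 3013, -19, 7, 12, 0, 0, 0, 0⟩], [⟨27, 2790, -40, 14, 14, 0, -26, 0, 0⟩]⟩,
  ⟨[⟨0, -900, 0, -1, 1, 0, 0, 0, 0⟩], [⟨33, 9870, 2, 0, 30, 0, 62, 0, 0⟩], [⟨65, 5640, -98, 34, 32, 0, -62, 0, 0⟩]⟩,
  ⟨[⟨0, -450, 0, -1, 1, 0, 0, 0, 0⟩], [⟨8, 1790, 2, 0, 5, 0, 16, 0, 0⟩, ⟨12, 1745, -11, 4, 7, 0, 0, 0, 0⟩], [⟨16, 1690, -24, 8, 9, 0, -16, 0, 0⟩]⟩,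
  ⟨[⟨0, -300, 0, 0, -1, 1, 0, 0, 0⟩], [⟨43, 13640, 2, 0, 0, 40, 0, 86, 0⟩], [⟨87, 7030, -130, 0, 44, 44, 0, -86, 0⟩]⟩,
  ⟨[⟨0, -600, 0, 0, -1, 1, 0, 0, 0⟩], [⟨7, 2280, 2, 0, 0, 4, 0, 6, 0⟩], [⟨11, 1590, -18, 0, 8, 4, 0, -6, 0⟩]⟩,
  ⟨[⟨0, -165, 0, -1, 1, 0, 0, 0, 0⟩, ⟨0, 180, 0, 1, -1, 0, 0, 0, 0⟩], [⟨9, 2200, 2, 0, 6, 0, 18, 0, 0⟩, ⟨14, 2174, -13, 5, 8, 0, 0, 0, 0⟩], [⟨19, 2140, -28, 10, 10, 0, -18, 0, 0⟩]⟩,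
  ⟨[⟨0, -600, 0, -1, 1, 0, 0, 0, 0⟩], [⟨7, 2280, 2, 0, 4, 0, 6, 0, 0⟩], [⟨11, 1590, -18, 8, 4, 0, -6, 0, 0⟩]⟩,
  ⟨[⟨0, -1050, 0, -1, 1, 0, 0, 0, 0⟩], [⟨11, 2330, 2, 0, 8, 0, 22, 0, 0⟩], [⟨23, 2730, -34, 12, 12, 0, -22, 0, 0⟩]⟩]

def wg107 : List Wn := [
  ⟨[⟨0, -500, 0, 0, -1, 1, 0, 0, 0⟩], [⟨13, 3880, 2, 0, 0, 10, 0, 22, 0⟩], [⟨25, 2130, -38, 0, 14, 12, 0, -22, 0⟩]⟩,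
  ⟨[⟨0, -101, 0, -1, 1, 0, 0, 0, 0⟩, ⟨0, 103, 0, 1, -1, 0, 0, 0, 0⟩], [⟨7, 2090, 2, 0, 4, 0, 10, 0, 0⟩], [⟨13, 1110, -20, 8, 6, 0, -10, 0, 0⟩, ⟨10, 1579, -9, 4, 5, 0, 0, 0, 0⟩]⟩,
  ⟨[⟨0, -450, 0, -1, 1, 0, 0, 0, 0⟩], [⟨13, 3900, 2, 0, 10, 0, 22, 0, 0⟩], [⟨25, 2120, -38, 14, 12, 0, -22, 0, 0⟩]⟩,
  ⟨[⟨0, -165, 0, -1, 1, 0, 0, 0, 0⟩, ⟨0, 180, 0, 1, -1, 0, 0, 0, 0⟩], [⟨38, 12870, 2, 0, 35, 0, 76, 0, 0⟩], [⟨76, 5730, -114, 38, 39, 0, -76, 0, 0⟩]⟩,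
  ⟨[⟨0, -600, 0, -1, 1, 0, 0, 0, 0⟩], [⟨10, 2450, 2, 1, 6, 0, 18, 0, 0⟩, ⟨14, 1967, -13, 6, 7, 0, 0, 0, 0⟩], [⟨18, 1470, -28, 11, 8, 0, -18, 0, 0⟩]⟩,
  ⟨[⟨0, -150, 0, -1, 1, 0, 0, 0, 0⟩, ⟨0, 165, 0, 1, -1, 0, 0, 0, 0⟩], [⟨17, 5990, 2, 0, 14, 0, 30, 0, 0⟩], [⟨33, 2260, -50, 18, 16, 0, -30, 0, 0⟩]⟩,
  ⟨[⟨0, -530, 0, -1, 1, 0, 0, 0, 0⟩, ⟨0, 600, 0, 1, -1, 0, 0, 0, 0⟩], [⟨11, 3610, 2, 0, 8, 0, 18, 0, 0⟩], [⟨21, 1440, -32, 12, 10, 0, -18, 0, 0⟩, ⟨16, 2514, -15, 6, 9, 0, 0, 0, 0⟩]⟩,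
  ⟨[⟨0, -399, 0, -1, 1, 0, 0, 0, 0⟩], [⟨17, 7060, 2, 0, 14, 0, 32, 0, 0⟩, ⟨17, 6180, 2, 32, 12, 0, 2, 0, 0⟩, ⟨25, 4520, -24, 24, 0, 0, 0, 0, 0⟩], [⟨33, 2520, -50, 16, 18, 0, -32, 0, 0⟩]⟩,
  ⟨[⟨0, -900, 0, -1, 1, 0, 0, 0, 0⟩], [⟨3, 220, 2, 0, 0, 0, 6, 0, 0⟩], [⟨7, 210, -10, 4, 4, 0, -6, 0, 0⟩]⟩,
  ⟨[⟨0, -1050, 0, -1, 1, 0, 0, 0, 0⟩], [⟨7, 1910, 2, 0, 4, 0, 10, 0, 0⟩, ⟨10, 1568, -9, 4, 5, 0, 0, 0, 0⟩], [⟨13, 1220, -20, 8, 6, 0, -10, 0, 0⟩]⟩,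
  ⟨[⟨0, -159, 0, 0, -1, 1, 0, 0, 0⟩], [⟨47, 17110, 2, 0, 0, 88, 0, 42, 0⟩, ⟨47, 20830, 2, 0, 88, 40, 0, 2, 0⟩], [⟨91, 4910, -138, 0, 48, 44, 0, -86, 0⟩]⟩,
  ⟨[⟨0, 99, 0, 1, -1, 0, 0, 0, 0⟩], [⟨21, 7060, 2, 0, 18, 0, 42, 0, 0⟩, ⟨21, 7260, 2, 40, 18, 0, 2, 0, 0⟩], [⟨43, 4130, -64, 22, 22, 0, -42, 0, 0⟩]⟩,
  ⟨[⟨0, -900, 0, -1, 1, 0, 0, 0, 0⟩], [⟨17, 5230, 2, 0, 14, 0, 32, 0, 0⟩], [⟨33, 2350, -50, 18, 16, 0, -32, 0, 0⟩]⟩,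
  ⟨[⟨0, -50, 0, -1, 1, 0, 0, 0, 0⟩, ⟨0, 66, 0, 1, -1, 0, 0, 0, 0⟩], [⟨19, 6270, 2, 34, 14, 0, 2, 0, 0⟩], [⟨37, 2770, -56, 20, 18, 0, -34, 0, 0⟩]⟩,
  ⟨[⟨0, -150, 0, 0, -1, 1, 0, 0, 0⟩, ⟨0, 200, 0, 0, 1, -1, 0, 0, 0⟩], [⟨29, 8210, 2, 0, 0, 26, 0, 58, 0⟩, ⟨44, 7211, -43, 0, 15, 28, 0, 0, 0⟩], [⟨59, 6190, -88, 0, 30, 30, 0, -58, 0⟩]⟩,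
  ⟨[⟨0, -750, 0, -1, 1, 0, 0, 0, 0⟩], [⟨30, 8800, 2, 0, 27, 0, 60, 0, 0⟩], [⟨60, 5130, -90, 30, 31, 0, -60, 0, 0⟩]⟩]

def wg108 : List Wn := [
  ⟨[⟨0, -600, 0, -1, 1, 0, 0, 0, 0⟩], [⟨13, 3240, 2, 0, 10, 0, 26, 0, 0⟩, ⟨20, 3018, -19, 7, 12, 0, 0, 0, 0⟩], [⟨27, 2790, -40, 14, 14, 0, -26, 0, 0⟩]⟩,
  ⟨[⟨0, -150, 0, -1, 1, 0, 0, 0, 0⟩, ⟨0, 165, 0, 1, -1, 0, 0, 0, 0⟩], [⟨5, 800, 2, 0, 2, 0, 4, 0, 0⟩], [⟨7, 1240, -12, 4, 4, 0, -4, 0, 0⟩, ⟨6, 1011, -5, 2, 3, 0, 0, 0, 0⟩]⟩,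
  ⟨[⟨0, -138, 0, -1, 1, 0, 0, 0, 0⟩, ⟨0, 150, 0, 1, -1, 0, 0, 0, 0⟩], [⟨10, 3130, 2, 0, 7, 0, 16, 0, 0⟩], [⟨18, 1430, -28, 10, 9, 0, -16, 0, 0⟩, ⟨14, 2264, -13, 5, 8, 0, 0, 0, 0⟩]⟩,
  ⟨[⟨0, -750, 0, -1, 1, 0, 0, 0, 0⟩], [⟨33, 9880, 2, 0, 30, 0, 62, 0, 0⟩], [⟨65, 5640, -98, 34, 32, 0, -62, 0, 0⟩]⟩,
  ⟨[⟨0, -100, 0, 0, -1, 1, 0, 0, 0⟩, ⟨0, 150, 0, 0, 1, -1, 0, 0, 0⟩], [⟨23, 7890, 2, 0, 0, 20, 0, 46, 0⟩], [⟨47, 4110, -70, 0, 24, 24, 0, -46, 0⟩]⟩,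
  ⟨[⟨0, -300, 0, -1, 1, 0, 0, 0, 0⟩], [⟨8, 1830, 2, 0, 5, 0, 16, 0, 0⟩, ⟨12, 1765, -11, 4, 7, 0, 0, 0, 0⟩], [⟨16, 1690, -24, 8, 9, 0, -16, 0, 0⟩]⟩,
  ⟨[⟨0, -270, 0, -1, 1, 0, 0, 0, 0⟩, ⟨0, 300, 0, 1, -1, 0, 0, 0, 0⟩], [⟨6, 1220, 2, 1, 2, 0, 12, 0, 0⟩], [⟨12, 370, -18, 7, 6, 0, -12, 0, 0⟩]⟩,
  ⟨[⟨0, -159, 0, 0, -1, 1, 0, 0, 0⟩], [⟨65, 21290, 2, 0, 0, 126, 0, 62, 0⟩, ⟨65, 26600, 2, 0, 126, 60, 0, 2, 0⟩], [⟨129, 9380, -194, 0, 66, 64, 0, -126, 0⟩]⟩,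
  ⟨[⟨0, -92, 0, -1, 1, 0, 0, 0, 0⟩, ⟨0, 99, 0, 1, -1, 0, 0, 0, 0⟩], [⟨8, 2940, 2, 0, 5, 0, 16, 0, 0⟩, ⟨12, 1280, -11, 4, 7, 0, 0, 0, 0⟩], [⟨16, 1680, -24, 8, 9, 0, -16, 0, 0⟩]⟩,
  ⟨[⟨0, -200, 0, 0, -1, 1, 0, 0, 0⟩], [⟨43, 14050, 2, 0, 0, 40, 0, 86, 0⟩], [⟨87, 7030, -130, 0, 44, 44, 0, -86, 0⟩]⟩,
  ⟨[⟨0, -500, 0, 0, -1, 1, 0, 0, 0⟩], [⟨7, 2290, 2, 0, 0, 4, 0, 6, 0⟩], [⟨11, 1580, -18, 0, 8, 4, 0, -6, 0⟩]⟩,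
  ⟨[⟨0, -105, 0, -1, 1, 0, 0, 0, 0⟩, ⟨0, 108, 0, 1, -1, 0, 0, 0, 0⟩], [⟨38, 13360, 2, 0, 35, 0, 76, 0, 0⟩], [⟨76, 5730, -114, 38, 39, 0, -76, 0, 0⟩]⟩,
  ⟨[⟨0, -900, 0, -1, 1, 0, 0, 0, 0⟩], [⟨11, 2330, 2, 0, 8, 0, 22, 0, 0⟩], [⟨23, 2730, -34, 12, 12, 0, -22, 0, 0⟩]⟩,
  ⟨[⟨0, 10, 0, 1, -1, 0, 0, 0, 0⟩], [⟨5, 1160, 2, 6, 0, 0, 2, 0, 0⟩], [⟨9, 730, -14, 6, 4, 0, -6, 0, 0⟩]⟩,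
  ⟨[⟨0, -400, 0, 0, -1, 1, 0, 0, 0⟩], [⟨13, 3910, 2, 0, 0, 10, 0, 22, 0⟩], [⟨25, 2120, -38, 0, 14, 12, 0, -22, 0⟩]⟩,
  ⟨[⟨0, -300, 0, -1, 1, 0, 0, 0, 0⟩], [⟨13, 3970, 2, 0, 10, 0, 22, 0, 0⟩], [⟨25, 2100, -38, 14, 12, 0, -22, 0, 0⟩]⟩]

def wg109 : List Wn := [
  ⟨[⟨0, -101, 0, -1, 1, 0, 0, 0, 0⟩, ⟨0, 103, 0, 1, -1, 0, 0, 0, 0⟩], [⟨22, 7700, 2, 0, 19, 0, 44, 0, 0⟩], [⟨44, 3360, -66, 22, 23, 0, -44, 0, 0⟩]⟩,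
  ⟨[⟨0, -597, 0, 0, -1, 1, 0, 0, 0⟩], [⟨49, 19020, 2, 0, 0, 46, 0, 94, 0⟩, ⟨49, 18180, 2, 0, 94, 44, 0, 2, 0⟩], [⟨97, 8420, -146, 0, 50, 48, 0, -94, 0⟩]⟩,
  ⟨[⟨0, -93, 0, 0, -1, 1, 0, 0, 0⟩], [⟨17, 4220, 2, 0, 0, 32, 0, 16, 0⟩, ⟨17, 6160, 2, 0, 32, 14, 0, 2, 0⟩, ⟨26, 4610, -25, 0, 9, 16, 0, 0, 0⟩], [⟨35, 3660, -52, 0, 18, 18, 0, -34, 0⟩]⟩,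
  ⟨[⟨8, -4591, -32, 12, -12, 0, -24, 0, 0⟩, ⟨8, -4591, -32, 4, -12, 0, -16, 0, 0⟩, ⟨10, -6551, -40, 14, -12, 0, -32, 0, 0⟩, ⟨10, -6551, -40, 6, -12, 0, -24, 0, 0⟩], [⟨11, 5190, 2, 0, 16, 0, 6, 0, 0⟩, ⟨11, 5190, 2, 4, 16, 0, 2, 0, 0⟩], []⟩,
  ⟨[⟨0, -597, 0, -1, 1, 0, 0, 0, 0⟩], [⟨13, 3220, 2, 0, 24, 0, 12, 0, 0⟩, ⟨13, 4860, 2, 24, 10, 0, 2, 0, 0⟩], [⟨27, 2760, -40, 14, 14, 0, -26, 0, 0⟩, ⟨20, 2990, -19, 7, 12, 0, 0, 0, 0⟩]⟩,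
  ⟨[⟨0, -180, 0, -1, 1, 0, 0, 0, 0⟩, ⟨0, 200, 0, 1, -1, 0, 0, 0, 0⟩], [⟨9, 2830, 2, 0, 6, 0, 14, 0, 0⟩], [⟨17, 2230, -26, 10, 8, 0, -14, 0, 0⟩]⟩,
  ⟨[⟨0, -200, 0, -1, 0, 1, 0, 0, 0⟩], [⟨6, 1440, 2, 0, 0, 3, 0, 0, 8⟩], [⟨10, 1120, -16, 6, 0, 5, 0, 0, -8⟩, ⟨8, 1238, -7, 3, 0, 4, 0, 0, 0⟩]⟩,
  ⟨[⟨0, -900, 0, -1, 1, 0, 0, 0, 0⟩], [⟨7, 1910, 2, 0, 4, 0, 10, 0, 0⟩, ⟨10, 1568, -9, 4, 5, 0, 0, 0, 0⟩], [⟨13, 1220, -20, 8, 6, 0, -10, 0, 0⟩]⟩,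
  ⟨[⟨0, -180, 0, -1, 1, 0, 0, 0, 0⟩, ⟨0, 200, 0, 1, -1, 0, 0, 0, 0⟩], [⟨23, 7150, 2, 0, 20, 0, 46, 0, 0⟩], [⟨47, 4110, -70, 24, 24, 0, -46, 0, 0⟩]⟩,
  ⟨[⟨0, -1350, 0, -1, 1, 0, 0, 0, 0⟩], [⟨16, 4840, 2, 1, 12, 0, 32, 0, 0⟩, ⟨24, 3549, -23, 9, 14, 0, 0, 0, 0⟩], [⟨32, 2240, -48, 17, 16, 0, -32, 0, 0⟩]⟩,
  ⟨[⟨0, -1350, 0, -1, 1, 0, 0, 0, 0⟩], [⟨19, 4970, 2, 0, 16, 0, 36, 0, 0⟩, ⟨28, 4373, -27, 9, 18, 0, 0, 0, 0⟩], [⟨37, 3760, -56, 18, 20, 0, -36, 0, 0⟩]⟩,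
  ⟨[⟨0, -245, 0, -1, 1, 0, 0, 0, 0⟩, ⟨0, 270, 0, 1, -1, 0, 0, 0, 0⟩], [⟨26, 8030, 2, 0, 23, 0, 52, 0, 0⟩], [⟨52, 4320, -78, 26, 27, 0, -52, 0, 0⟩]⟩,
  ⟨[⟨0, -1350, 0, -1, 1, 0, 0, 0, 0⟩], [⟨23, 6960, 2, 0, 20, 0, 42, 0, 0⟩], [⟨43, 3540, -66, 20, 24, 0, -42, 0, 0⟩]⟩,
  ⟨[⟨0, -18, 0, -1, 1, 0, 0, 0, 0⟩, ⟨0, 27, 0, 1, -1, 0, 0, 0, 0⟩], [⟨15, 4440, 2, 28, 12, 0, 2, 0, 0⟩], [⟨31, 2710, -46, 16, 16, 0, -30, 0, 0⟩]⟩,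
  ⟨[⟨0, -500, 0, 0, -1, 1, 0, 0, 0⟩], [⟨13, 3250, 2, 0, 0, 10, 0, 26, 0⟩, ⟨20, 3026, -19, 0, 7, 12, 0, 0, 0⟩], [⟨27, 2790, -40, 0, 14, 14, 0, -26, 0⟩]⟩,
  ⟨[⟨0, -597, 0, -1, 1, 0, 0, 0, 0⟩], [⟨45, 18270, 2, 0, 42, 0, 86, 0, 0⟩, ⟨45, 17440, 2, 86, 40, 0, 2, 0, 0⟩], [⟨89, 6960, -134, 46, 44, 0, -86, 0, 0⟩]⟩]

def wg110 : List Wn := [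
  ⟨[⟨0, -600, 0, -1, 1, 0, 0, 0, 0⟩], [⟨30, 8830, 2, 0, 27, 0, 60, 0, 0⟩], [⟨60, 5130, -90, 30, 31, 0, -60, 0, 0⟩]⟩,
  ⟨[⟨0, -450, 0, -1, 1, 0, 0, 0, 0⟩], [⟨13, 3260, 2, 0, 10, 0, 26, 0, 0⟩, ⟨20, 3033, -19, 7, 12, 0, 0, 0, 0⟩], [⟨27, 2790, -40, 14, 14, 0, -26, 0, 0⟩]⟩,
  ⟨[⟨0, -600, 0, 0, -1, 1, 0, 0, 0⟩], [⟨33, 9910, 2, 0, 0, 30, 0, 62, 0⟩], [⟨65, 5630, -98, 0, 34, 32, 0, -62, 0⟩]⟩,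
  ⟨[⟨0, -600, 0, -1, 1, 0, 0, 0, 0⟩], [⟨33, 9910, 2, 0, 30, 0, 62, 0, 0⟩], [⟨65, 5630, -98, 34, 32, 0, -62, 0, 0⟩]⟩,
  ⟨[⟨0, -99, 0, -1, 1, 0, 0, 0, 0⟩, ⟨0, 101, 0, 1, -1, 0, 0, 0, 0⟩], [⟨3, 320, 2, 0, 0, 0, 4, 0, 0⟩], [⟨5, 880, -8, 2, 4, 0, -4, 0, 0⟩, ⟨4, 596, -3, 1, 2, 0, 0, 0, 0⟩]⟩,
  ⟨[⟨0, -400, 0, 0, -1, 1, 0, 0, 0⟩], [⟨7, 2300, 2, 0, 0, 4, 0, 6, 0⟩], [⟨11, 1570, -18, 0, 8, 4, 0, -6, 0⟩]⟩,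
  ⟨[⟨0, -165, 0, -1, 1, 0, 0, 0, 0⟩, ⟨0, 180, 0, 1, -1, 0, 0, 0, 0⟩], [⟨10, 3210, 2, 0, 7, 0, 20, 0, 0⟩], [⟨20, 1410, -30, 10, 11, 0, -20, 0, 0⟩]⟩,
  ⟨[⟨0, -597, 0, -1, 1, 0, 0, 0, 0⟩], [⟨65, 26400, 2, 0, 62, 0, 128, 0, 0⟩, ⟨65, 25530, 2, 128, 60, 0, 2, 0, 0⟩, ⟨97, 17770, -96, 96, 0, 0, 0, 0, 0⟩], [⟨129, 9630, -194, 64, 66, 0, -128, 0, 0⟩]⟩,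
  ⟨[⟨0, -750, 0, -1, 1, 0, 0, 0, 0⟩], [⟨11, 2330, 2, 0, 8, 0, 22, 0, 0⟩], [⟨23, 2730, -34, 12, 12, 0, -22, 0, 0⟩]⟩,
  ⟨[⟨0, 10, 0, 1, -1, 0, 0, 0, 0⟩], [⟨5, 970, 2, 6, 0, 0, 2, 0, 0⟩], [⟨9, 60, -14, 6, 4, 0, -6, 0, 0⟩]⟩,
  ⟨[⟨0, -300, 0, 0, -1, 1, 0, 0, 0⟩], [⟨13, 3970, 2, 0, 0, 10, 0, 22, 0⟩], [⟨25, 2100, -38, 0, 14, 12, 0, -22, 0⟩]⟩,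
  ⟨[⟨0, -399, 0, 0, -1, 1, 0, 0, 0⟩], [⟨49, 19020, 2, 0, 0, 46, 0, 94, 0⟩, ⟨49, 18180, 2, 0, 94, 44, 0, 2, 0⟩], [⟨97, 8410, -146, 0, 50, 48, 0, -94, 0⟩]⟩,
  ⟨[], [⟨17, 4220, 2, 0, 0, 32, 0, 16, 0⟩, ⟨17, 6160, 2, 0, 32, 14, 0, 2, 0⟩, ⟨26, 4610, -25, 0, 9, 16, 0, 0, 0⟩], [⟨35, 3660, -52, 0, 18, 18, 0, -34, 0⟩]⟩,
  ⟨[⟨0, -92, 0, -1, 1, 0, 0, 0, 0⟩, ⟨0, 99, 0, 1, -1, 0, 0, 0, 0⟩], [⟨3, 580, 2, 0, 0, 0, 6, 0, 0⟩], [⟨7, 210, -10, 4, 4, 0, -6, 0, 0⟩]⟩,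
  ⟨[⟨0, -105, 0, -1, 1, 0, 0, 0, 0⟩, ⟨0, 108, 0, 1, -1, 0, 0, 0, 0⟩], [⟨19, 7930, 2, 0, 16, 0, 26, 0, 0⟩], [⟨33, 1150, -52, 20, 14, 0, -26, 0, 0⟩, ⟨26, 4523, -25, 10, 15, 0, 0, 0, 0⟩]⟩,
  ⟨[⟨0, -600, 0, -1, 1, 0, 0, 0, 0⟩], [⟨3, 230, 2, 0, 0, 0, 6, 0, 0⟩], [⟨7, 210, -10, 4, 4, 0, -6, 0, 0⟩]⟩]

def wg111 : List Wn := [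
  ⟨[⟨0, 51, 0, 1, -1, 0, 0, 0, 0⟩], [⟨7, 2400, 2, 0, 4, 0, 10, 0, 0⟩, ⟨7, 3070, 2, 10, 2, 0, 2, 0, 0⟩], [⟨13, 1010, -20, 8, 6, 0, -10, 0, 0⟩]⟩,
  ⟨[⟨12, -5741, -44, 16, -16, 0, -36, 0, 0⟩, ⟨12, -5741, -44, 4, -16, 0, -24, 0, 0⟩, ⟨14, -7771, -52, 18, -16, 0, -44, 0, 0⟩, ⟨14, -7771, -52, 6, -16, 0, -32, 0, 0⟩], [⟨15, 6820, 2, 0, 24, 0, 10, 0, 0⟩, ⟨15, 6820, 2, 8, 24, 0, 2, 0, 0⟩], []⟩,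
  ⟨[⟨0, -100, 0, 0, -1, 1, 0, 0, 0⟩, ⟨0, 150, 0, 0, 1, -1, 0, 0, 0⟩], [⟨43, 15420, 2, 0, 0, 40, 0, 86, 0⟩], [⟨87, 7030, -130, 0, 44, 44, 0, -86, 0⟩]⟩,
  ⟨[⟨0, -1350, 0, -1, 1, 0, 0, 0, 0⟩], [⟨5, 1060, 2, 0, 2, 0, 6, 0, 0⟩], [⟨9, 260, -14, 6, 4, 0, -6, 0, 0⟩]⟩,
  ⟨[⟨0, -126, 0, -1, 1, 0, 0, 0, 0⟩, ⟨0, 138, 0, 1, -1, 0, 0, 0, 0⟩], [⟨10, 3950, 2, 0, 7, 0, 20, 0, 0⟩], [⟨20, 1590, -30, 10, 11, 0, -20, 0, 0⟩]⟩,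
  ⟨[⟨0, -750, 0, -1, 1, 0, 0, 0, 0⟩], [⟨7, 1910, 2, 0, 4, 0, 10, 0, 0⟩, ⟨10, 1569, -9, 4, 5, 0, 0, 0, 0⟩], [⟨13, 1220, -20, 8, 6, 0, -10, 0, 0⟩]⟩,
  ⟨[], [⟨71, 26990, 2, 0, 0, 68, 0, 142, 0⟩, ⟨71, 26350, 2, 0, 140, 68, 0, 2, 0⟩], [⟨143, 12610, -214, 0, 72, 72, 0, -142, 0⟩]⟩,
  ⟨[⟨0, -1200, 0, -1, 1, 0, 0, 0, 0⟩], [⟨16, 4840, 2, 1, 12, 0, 32, 0, 0⟩, ⟨24, 3549, -23, 9, 14, 0, 0, 0, 0⟩], [⟨32, 2240, -48, 17, 16, 0, -32, 0, 0⟩]⟩,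
  ⟨[⟨0, -600, 0, -1, 1, 0, 0, 0, 0⟩], [⟨17, 5250, 2, 0, 14, 0, 32, 0, 0⟩], [⟨33, 2350, -50, 18, 16, 0, -32, 0, 0⟩]⟩,
  ⟨[⟨0, -126, 0, -1, 1, 0, 0, 0, 0⟩, ⟨0, 138, 0, 1, -1, 0, 0, 0, 0⟩], [⟨7, 1670, 2, 0, 4, 0, 12, 0, 0⟩], [⟨13, 1540, -20, 6, 8, 0, -12, 0, 0⟩, ⟨10, 1587, -9, 3, 6, 0, 0, 0, 0⟩]⟩,
  ⟨[⟨0, -150, 0, 0, -1, 1, 0, 0, 0⟩, ⟨0, 200, 0, 0, 1, -1, 0, 0, 0⟩], [⟨30, 9550, 2, 0, 0, 27, 0, 60, 0⟩], [⟨60, 5130, -90, 0, 30, 31, 0, -60, 0⟩]⟩,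
  ⟨[⟨0, -400, 0, 0, -1, 1, 0, 0, 0⟩], [⟨13, 3280, 2, 0, 0, 10, 0, 26, 0⟩, ⟨20, 3042, -19, 0, 7, 12, 0, 0, 0⟩], [⟨27, 2790, -40, 0, 14, 14, 0, -26, 0⟩]⟩,
  ⟨[⟨0, -100, 0, 0, -1, 1, 0, 0, 0⟩, ⟨0, 150, 0, 0, 1, -1, 0, 0, 0⟩], [⟨31, 11760, 2, 0, 0, 28, 0, 54, 0⟩], [⟨59, 3750, -90, 0, 32, 28, 0, -54, 0⟩]⟩,
  ⟨[⟨0, -399, 0, -1, 1, 0, 0, 0, 0⟩], [⟨45, 18270, 2, 0, 42, 0, 86, 0, 0⟩, ⟨45, 17440, 2, 86, 40, 0, 2, 0, 0⟩], [⟨89, 6950, -134, 46, 44, 0, -86, 0, 0⟩]⟩,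
  ⟨[⟨0, -450, 0, -1, 1, 0, 0, 0, 0⟩], [⟨30, 8890, 2, 0, 27, 0, 60, 0, 0⟩], [⟨60, 5130, -90, 30, 31, 0, -60, 0, 0⟩]⟩,
  ⟨[⟨0, -300, 0, -1, 1, 0, 0, 0, 0⟩], [⟨13, 3350, 2, 0, 10, 0, 26, 0, 0⟩, ⟨20, 3074, -19, 7, 12, 0, 0, 0, 0⟩], [⟨27, 2790, -40, 14, 14, 0, -26, 0, 0⟩]⟩]

def wg112 : List Wn := [
  ⟨[], [⟨25, 10900, 2, 0, 22, 0, 46, 0, 0⟩, ⟨25, 10070, 2, 46, 20, 0, 2, 0, 0⟩], [⟨49, 3120, -74, 26, 24, 0, -46, 0, 0⟩]⟩,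
  ⟨[⟨0, -500, 0, 0, -1, 1, 0, 0, 0⟩], [⟨33, 9940, 2, 0, 0, 30, 0, 62, 0⟩], [⟨65, 5630, -98, 0, 34, 32, 0, -62, 0⟩]⟩,
  ⟨[⟨0, -450, 0, -1, 1, 0, 0, 0, 0⟩], [⟨33, 9970, 2, 0, 30, 0, 62, 0, 0⟩], [⟨65, 5620, -98, 34, 32, 0, -62, 0, 0⟩]⟩,
  ⟨[⟨0, -105, 0, -1, 1, 0, 0, 0, 0⟩, ⟨0, 108, 0, 1, -1, 0, 0, 0, 0⟩], [⟨9, 2150, 2, 0, 6, 0, 18, 0, 0⟩, ⟨14, 2147, -13, 5, 8, 0, 0, 0, 0⟩], [⟨19, 2140, -28, 10, 10, 0, -18, 0, 0⟩]⟩,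
  ⟨[⟨0, -1350, 0, -1, 1, 0, 0, 0, 0⟩], [⟨26, 7510, 2, 1, 22, 0, 52, 0, 0⟩], [⟨52, 4320, -78, 27, 26, 0, -52, 0, 0⟩]⟩,
  ⟨[⟨0, -300, 0, 0, -1, 1, 0, 0, 0⟩], [⟨7, 2330, 2, 0, 0, 4, 0, 6, 0⟩], [⟨11, 1550, -18, 0, 8, 4, 0, -6, 0⟩]⟩,
  ⟨[⟨0, -600, 0, -1, 1, 0, 0, 0, 0⟩], [⟨11, 2340, 2, 0, 8, 0, 22, 0, 0⟩], [⟨23, 2730, -34, 12, 12, 0, -22, 0, 0⟩]⟩,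
  ⟨[⟨0, -200, 0, 0, -1, 1, 0, 0, 0⟩], [⟨13, 4090, 2, 0, 0, 10, 0, 22, 0⟩], [⟨25, 2070, -38, 0, 14, 12, 0, -22, 0⟩]⟩,
  ⟨[⟨0, -450, 0, -1, 1, 0, 0, 0, 0⟩], [⟨3, 230, 2, 0, 0, 0, 6, 0, 0⟩], [⟨7, 210, -10, 4, 4, 0, -6, 0, 0⟩]⟩,
  ⟨[⟨0, -1050, 0, -1, 1, 0, 0, 0, 0⟩], [⟨26, 8320, 2, 0, 23, 0, 50, 0, 0⟩], [⟨50, 3580, -76, 24, 27, 0, -50, 0, 0⟩, ⟨38, 5936, -37, 12, 25, 0, 0, 0, 0⟩]⟩,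
  ⟨[⟨16, -6951, -56, 20, -20, 0, -48, 0, 0⟩, ⟨16, -6951, -56, 4, -20, 0, -32, 0, 0⟩, ⟨18, -9041, -64, 22, -20, 0, -56, 0, 0⟩, ⟨18, -9041, -64, 6, -20, 0, -40, 0, 0⟩], [⟨19, 8450, 2, 0, 32, 0, 14, 0, 0⟩, ⟨19, 8450, 2, 12, 32, 0, 2, 0, 0⟩], []⟩,
  ⟨[⟨0, -101, 0, -1, 1, 0, 0, 0, 0⟩, ⟨0, 103, 0, 1, -1, 0, 0, 0, 0⟩], [⟨19, 6080, 2, 0, 16, 0, 38, 0, 0⟩], [⟨39, 3690, -58, 20, 20, 0, -38, 0, 0⟩]⟩,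
  ⟨[⟨0, -1200, 0, -1, 1, 0, 0, 0, 0⟩], [⟨5, 1060, 2, 0, 2, 0, 6, 0, 0⟩], [⟨9, 260, -14, 6, 4, 0, -6, 0, 0⟩]⟩,
  ⟨[⟨0, -180, 0, -1, 1, 0, 0, 0, 0⟩, ⟨0, 200, 0, 1, -1, 0, 0, 0, 0⟩], [⟨10, 3080, 2, 0, 7, 0, 16, 0, 0⟩], [⟨18, 1450, -28, 10, 9, 0, -16, 0, 0⟩, ⟨14, 2248, -13, 5, 8, 0, 0, 0, 0⟩]⟩,
  ⟨[⟨0, -600, 0, -1, 1, 0, 0, 0, 0⟩], [⟨7, 1910, 2, 0, 4, 0, 10, 0, 0⟩, ⟨10, 1571, -9, 4, 5, 0, 0, 0, 0⟩], [⟨13, 1220, -20, 8, 6, 0, -10, 0, 0⟩]⟩,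
  ⟨[⟨0, -38, 0, -1, 1, 0, 0, 0, 0⟩, ⟨0, 50, 0, 1, -1, 0, 0, 0, 0⟩], [⟨25, 7950, 2, 48, 22, 0, 2, 0, 0⟩], [⟨51, 4320, -76, 26, 26, 0, -50, 0, 0⟩]⟩]

def wg113 : List Wn := [
  ⟨[⟨0, -1350, 0, -1, 1, 0, 0, 0, 0⟩], [⟨3, 10, 2, 0, 0, 0, 2, 0, 0⟩, ⟨4, 602, -3, 2, 1, 0, 0, 0, 0⟩], [⟨5, 1190, -8, 4, 2, 0, -2, 0, 0⟩]⟩,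
  ⟨[⟨0, -84, 0, -1, 1, 0, 0, 0, 0⟩, ⟨0, 92, 0, 1, -1, 0, 0, 0, 0⟩], [⟨4, 1670, 2, 0, 1, 0, 8, 0, 0⟩], [⟨8, 820, -12, 4, 5, 0, -8, 0, 0⟩]⟩,
  ⟨[⟨0, -108, 0, -1, 1, 0, 0, 0, 0⟩, ⟨0, 114, 0, 1, -1, 0, 0, 0, 0⟩], [⟨29, 10500, 2, 0, 26, 0, 54, 0, 0⟩], [⟨57, 4020, -86, 30, 28, 0, -54, 0, 0⟩]⟩,
  ⟨[⟨0, -99, 0, -1, 1, 0, 0, 0, 0⟩, ⟨0, 101, 0, 1, -1, 0, 0, 0, 0⟩], [⟨7, 2170, 2, 0, 4, 0, 14, 0, 0⟩], [⟨15, 1490, -22, 8, 8, 0, -14, 0, 0⟩]⟩,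
  ⟨[⟨0, -101, 0, -1, 1, 0, 0, 0, 0⟩, ⟨0, 103, 0, 1, -1, 0, 0, 0, 0⟩], [⟨18, 5840, 2, 0, 15, 0, 34, 0, 0⟩], [⟨34, 2860, -52, 16, 19, 0, -34, 0, 0⟩, ⟨26, 4326, -25, 8, 17, 0, 0, 0, 0⟩]⟩,
  ⟨[⟨0, -500, 0, 0, -1, 1, 0, 0, 0⟩, ⟨0, 600, 0, 0, 1, -1, 0, 0, 0⟩], [⟨15, 4080, 2, 0, 0, 12, 0, 28, 0⟩], [⟨29, 2780, -44, 0, 14, 16, 0, -28, 0⟩, ⟨22, 3412, -21, 0, 7, 14, 0, 0, 0⟩]⟩,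
  ⟨[⟨0, -84, 0, -1, 1, 0, 0, 0, 0⟩, ⟨0, 92, 0, 1, -1, 0, 0, 0, 0⟩], [⟨11, 4700, 2, 0, 8, 0, 20, 0, 0⟩], [⟨21, 1900, -32, 12, 10, 0, -20, 0, 0⟩]⟩,
  ⟨[⟨0, -200, 0, -1, 1, 0, 0, 0, 0⟩, ⟨0, 220, 0, 1, -1, 0, 0, 0, 0⟩], [⟨17, 5860, 2, 0, 14, 0, 30, 0, 0⟩], [⟨33, 2290, -50, 18, 16, 0, -30, 0, 0⟩]⟩,
  ⟨[⟨0, -10, 0, -1, 1, 0, 0, 0, 0⟩, ⟨0, 18, 0, 1, -1, 0, 0, 0, 0⟩], [⟨3, 220, 2, 2, 0, 0, 2, 0, 0⟩], [⟨5, 680, -8, 4, 2, 0, -4, 0, 0⟩]⟩,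
  ⟨[⟨0, -300, 0, 0, -1, 1, 0, 0, 0⟩], [⟨13, 3350, 2, 0, 0, 10, 0, 26, 0⟩, ⟨20, 3074, -19, 0, 7, 12, 0, 0, 0⟩], [⟨27, 2790, -40, 0, 14, 14, 0, -26, 0⟩]⟩,
  ⟨[], [⟨75, 23520, 2, 0, 144, 0, 74, 0, 0⟩, ⟨75, 29170, 2, 148, 68, 0, 2, 0, 0⟩], [⟨147, 11750, -222, 72, 76, 0, -146, 0, 0⟩]⟩,
  ⟨[⟨0, -301, 0, -1, 1, 0, 0, 0, 0⟩], [⟨45, 18270, 2, 0, 42, 0, 86, 0, 0⟩, ⟨45, 17440, 2, 86, 40, 0, 2, 0, 0⟩], [⟨89, 6930, -134, 46, 44, 0, -86, 0, 0⟩]⟩,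
  ⟨[⟨0, -300, 0, -1, 1, 0, 0, 0, 0⟩], [⟨30, 9060, 2, 0, 27, 0, 60, 0, 0⟩], [⟨60, 5130, -90, 30, 31, 0, -60, 0, 0⟩]⟩,
  ⟨[⟨0, -1350, 0, -1, 1, 0, 0, 0, 0⟩], [⟨13, 3220, 2, 0, 10, 0, 26, 0, 0⟩], [⟨27, 2790, -40, 14, 14, 0, -26, 0, 0⟩, ⟨20, 2996, -19, 7, 12, 0, 0, 0, 0⟩]⟩,
  ⟨[⟨0, -23, 0, 0, -1, 1, 0, 0, 0⟩, ⟨0, 60, 0, 0, 1, -1, 0, 0, 0⟩], [⟨33, 12150, 2, 0, 60, 26, 0, 2, 0⟩], [⟨63, 3460, -96, 0, 34, 30, 0, -58, 0⟩]⟩,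
  ⟨[⟨0, -400, 0, 0, -1, 1, 0, 0, 0⟩], [⟨33, 10020, 2, 0, 0, 30, 0, 62, 0⟩], [⟨65, 5620, -98, 0, 34, 32, 0, -62, 0⟩]⟩]

def wg114 : List Wn := [
  ⟨[⟨0, -60, 0, 0, -1, 1, 0, 0, 0⟩, ⟨0, 100, 0, 0, 1, -1, 0, 0, 0⟩], [⟨7, 1440, 2, 0, 6, -2, 0, 2, 0⟩], [⟨9, 1940, -16, 0, 8, 2, 0, -2, 0⟩, ⟨8, 1516, -7, 0, 7, 0, 0, 0, 0⟩]⟩,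
  ⟨[⟨0, -300, 0, -1, 1, 0, 0, 0, 0⟩], [⟨33, 10170, 2, 0, 30, 0, 62, 0, 0⟩], [⟨65, 5600, -98, 34, 32, 0, -62, 0, 0⟩]⟩,
  ⟨[], [⟨9, 3280, 2, 0, 6, 0, 14, 0, 0⟩, ⟨9, 1840, 2, 4, 14, 0, 2, 0, 0⟩], [⟨17, 1910, -26, 10, 8, 0, -14, 0, 0⟩]⟩,
  ⟨[⟨0, -1200, 0, -1, 1, 0, 0, 0, 0⟩], [⟨26, 7510, 2, 1, 22, 0, 52, 0, 0⟩], [⟨52, 4320, -78, 27, 26, 0, -52, 0, 0⟩]⟩,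
  ⟨[⟨0, -200, 0, 0, -1, 1, 0, 0, 0⟩], [⟨7, 2390, 2, 0, 0, 4, 0, 6, 0⟩], [⟨11, 1500, -18, 0, 8, 4, 0, -6, 0⟩]⟩,
  ⟨[⟨0, -76, 0, -1, 1, 0, 0, 0, 0⟩, ⟨0, 84, 0, 1, -1, 0, 0, 0, 0⟩], [⟨11, 4580, 2, 18, 6, 0, 2, 0, 0⟩], [⟨21, 1300, -32, 12, 10, 0, -18, 0, 0⟩]⟩,
  ⟨[⟨0, -165, 0, -1, 1, 0, 0, 0, 0⟩, ⟨0, 180, 0, 1, -1, 0, 0, 0, 0⟩], [⟨10, 3870, 2, 0, 7, 0, 20, 0, 0⟩], [⟨20, 1590, -30, 10, 11, 0, -20, 0, 0⟩]⟩,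
  ⟨[⟨0, -200, 0, 0, -1, 1, 0, 0, 0⟩, ⟨0, 300, 0, 0, 1, -1, 0, 0, 0⟩], [⟨23, 8000, 2, 0, 0, 20, 0, 42, 0⟩], [⟨45, 3110, -68, 0, 24, 22, 0, -42, 0⟩, ⟨34, 5435, -33, 0, 12, 21, 0, 0, 0⟩]⟩,
  ⟨[⟨0, -138, 0, -1, 1, 0, 0, 0, 0⟩, ⟨0, 150, 0, 1, -1, 0, 0, 0, 0⟩], [⟨29, 10300, 2, 0, 26, 0, 54, 0, 0⟩], [⟨57, 4040, -86, 30, 28, 0, -54, 0, 0⟩]⟩,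
  ⟨[⟨0, -103, 0, -1, 1, 0, 0, 0, 0⟩, ⟨0, 105, 0, 1, -1, 0, 0, 0, 0⟩], [⟨17, 6210, 2, 0, 14, 0, 30, 0, 0⟩], [⟨33, 2240, -50, 18, 16, 0, -30, 0, 0⟩]⟩,
  ⟨[⟨0, -201, 0, 0, -1, 1, 0, 0, 0⟩], [⟨49, 19020, 2, 0, 0, 46, 0, 94, 0⟩, ⟨49, 18180, 2, 0, 94, 44, 0, 2, 0⟩], [⟨97, 8360, -146, 0, 50, 48, 0, -94, 0⟩]⟩,
  ⟨[⟨0, -300, 0, -1, 1, 0, 0, 0, 0⟩], [⟨3, 270, 2, 0, 0, 0, 6, 0, 0⟩], [⟨7, 210, -10, 4, 4, 0, -6, 0, 0⟩]⟩,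
  ⟨[⟨0, -165, 0, -1, 1, 0, 0, 0, 0⟩, ⟨0, 180, 0, 1, -1, 0, 0, 0, 0⟩], [⟨7, 1610, 2, 0, 4, 0, 12, 0, 0⟩], [⟨13, 1540, -20, 6, 8, 0, -12, 0, 0⟩, ⟨10, 1563, -9, 3, 6, 0, 0, 0, 0⟩]⟩,
  ⟨[⟨20, -8191, -68, 24, -24, 0, -60, 0, 0⟩, ⟨20, -8191, -68, 4, -24, 0, -40, 0, 0⟩, ⟨22, -10331, -76, 26, -24, 0, -68, 0, 0⟩, ⟨22, -10331, -76, 6, -24, 0, -48, 0, 0⟩], [⟨23, 10080, 2, 0, 40, 0, 18, 0, 0⟩, ⟨23, 10080, 2, 16, 40, 0, 2, 0, 0⟩], []⟩,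
  ⟨[⟨0, -18, 0, -1, 1, 0, 0, 0, 0⟩, ⟨0, 27, 0, 1, -1, 0, 0, 0, 0⟩], [⟨11, 3580, 2, 18, 6, 0, 2, 0, 0⟩], [⟨21, 400, -32, 12, 10, 0, -18, 0, 0⟩]⟩,
  ⟨[⟨0, -165, 0, -1, 1, 0, 0, 0, 0⟩, ⟨0, 180, 0, 1, -1, 0, 0, 0, 0⟩], [⟨35, 11110, 2, 0, 32, 0, 70, 0, 0⟩], [⟨71, 6210, -106, 36, 36, 0, -70, 0, 0⟩]⟩]

def wg115 : List Wn := [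
  ⟨[⟨0, -200, 0, -1, 1, 0, 0, 0, 0⟩, ⟨0, 220, 0, 1, -1, 0, 0, 0, 0⟩], [⟨5, 780, 2, 0, 2, 0, 4, 0, 0⟩], [⟨7, 1280, -12, 4, 4, 0, -4, 0, 0⟩, ⟨6, 1018, -5, 2, 3, 0, 0, 0, 0⟩]⟩,
  ⟨[⟨0, -450, 0, -1, 1, 0, 0, 0, 0⟩], [⟨7, 1930, 2, 0, 4, 0, 10, 0, 0⟩, ⟨10, 1579, -9, 4, 5, 0, 0, 0, 0⟩], [⟨13, 1210, -20, 8, 6, 0, -10, 0, 0⟩]⟩,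
  ⟨[⟨0, -93, 0, 0, -1, 1, 0, 0, 0⟩], [⟨9, 2640, 2, 0, 0, 6, 0, 18, 0⟩, ⟨9, 3510, 2, 0, 16, 6, 0, 2, 0⟩, ⟨14, 2400, -13, 0, 5, 8, 0, 0, 0⟩], [⟨19, 2120, -28, 0, 10, 10, 0, -18, 0⟩]⟩,
  ⟨[⟨0, -1200, 0, -1, 1, 0, 0, 0, 0⟩], [⟨3, 10, 2, 0, 0, 0, 2, 0, 0⟩, ⟨4, 602, -3, 2, 1, 0, 0, 0, 0⟩], [⟨5, 1190, -8, 4, 2, 0, -2, 0, 0⟩]⟩,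
  ⟨[⟨0, -220, 0, -1, 1, 0, 0, 0, 0⟩, ⟨0, 245, 0, 1, -1, 0, 0, 0, 0⟩], [⟨9, 2130, 2, 0, 6, 0, 18, 0, 0⟩, ⟨14, 2138, -13, 5, 8, 0, 0, 0, 0⟩], [⟨19, 2140, -28, 10, 10, 0, -18, 0, 0⟩]⟩,
  ⟨[⟨0, -300, 0, -1, 1, 0, 0, 0, 0⟩], [⟨17, 5400, 2, 0, 14, 0, 32, 0, 0⟩], [⟨33, 2350, -50, 18, 16, 0, -32, 0, 0⟩]⟩,
  ⟨[⟨0, -220, 0, -1, 1, 0, 0, 0, 0⟩, ⟨0, 245, 0, 1, -1, 0, 0, 0, 0⟩], [⟨38, 12590, 2, 0, 35, 0, 76, 0, 0⟩], [⟨76, 5730, -114, 38, 39, 0, -76, 0, 0⟩]⟩,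
  ⟨[⟨0, -750, 0, -1, 1, 0, 0, 0, 0⟩, ⟨0, 825, 0, 1, -1, 0, 0, 0, 0⟩], [⟨11, 3590, 2, 0, 8, 0, 18, 0, 0⟩], [⟨21, 1450, -32, 12, 10, 0, -18, 0, 0⟩, ⟨16, 2512, -15, 6, 9, 0, 0, 0, 0⟩]⟩,
  ⟨[⟨0, -200, 0, 0, -1, 1, 0, 0, 0⟩], [⟨13, 3470, 2, 0, 0, 10, 0, 26, 0⟩, ⟨20, 3138, -19, 0, 7, 12, 0, 0, 0⟩], [⟨27, 2790, -40, 0, 14, 14, 0, -26, 0⟩]⟩,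
  ⟨[⟨0, -201, 0, -1, 1, 0, 0, 0, 0⟩], [⟨45, 18270, 2, 0, 42, 0, 86, 0, 0⟩, ⟨45, 17440, 2, 86, 40, 0, 2, 0, 0⟩], [⟨89, 6900, -134, 46, 44, 0, -86, 0, 0⟩]⟩,
  ⟨[⟨0, -150, 0, 0, -1, 1, 0, 0, 0⟩, ⟨0, 200, 0, 0, 1, -1, 0, 0, 0⟩], [⟨43, 15920, 2, 0, 0, 40, 0, 78, 0⟩], [⟨83, 5270, -126, 0, 44, 40, 0, -78, 0⟩]⟩,
  ⟨[⟨0, -1200, 0, -1, 1, 0, 0, 0, 0⟩], [⟨13, 3220, 2, 0, 10, 0, 26, 0, 0⟩], [⟨27, 2790, -40, 14, 14, 0, -26, 0, 0⟩, ⟨20, 2996, -19, 7, 12, 0, 0, 0, 0⟩]⟩,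
  ⟨[⟨0, -300, 0, 0, -1, 1, 0, 0, 0⟩], [⟨33, 10170, 2, 0, 0, 30, 0, 62, 0⟩], [⟨65, 5600, -98, 0, 34, 32, 0, -62, 0⟩]⟩,
  ⟨[⟨0, -245, 0, -1, 1, 0, 0, 0, 0⟩, ⟨0, 270, 0, 1, -1, 0, 0, 0, 0⟩], [⟨9, 1910, 2, 0, 6, 0, 14, 0, 0⟩], [⟨17, 1400, -26, 10, 8, 0, -14, 0, 0⟩]⟩,
  ⟨[⟨0, -1050, 0, -1, 1, 0, 0, 0, 0⟩], [⟨26, 7510, 2, 1, 22, 0, 52, 0, 0⟩], [⟨52, 4320, -78, 27, 26, 0, -52, 0, 0⟩]⟩,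
  ⟨[⟨0, -300, 0, -1, 1, 0, 0, 0, 0⟩], [⟨11, 2440, 2, 0, 8, 0, 22, 0, 0⟩], [⟨23, 2730, -34, 12, 12, 0, -22, 0, 0⟩]⟩]

def wg116 : List Wn := [
  ⟨[⟨0, -159, 0, 0, -1, 1, 0, 0, 0⟩], [⟨49, 19020, 2, 0, 0, 46, 0, 94, 0⟩, ⟨49, 18180, 2, 0, 94, 44, 0, 2, 0⟩], [⟨97, 8340, -146, 0, 50, 48, 0, -94, 0⟩]⟩,
  ⟨[⟨0, -138, 0, -1, 1, 0, 0, 0, 0⟩, ⟨0, 150, 0, 1, -1, 0, 0, 0, 0⟩], [⟨21, 6100, 2, 0, 18, 0, 42, 0, 0⟩, ⟨32, 5225, -31, 11, 20, 0, 0, 0, 0⟩], [⟨43, 4330, -64, 22, 22, 0, -42, 0, 0⟩]⟩,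
  ⟨[⟨0, -200, 0, 0, -1, 1, 0, 0, 0⟩], [⟨3, 330, 2, 0, 0, 0, 0, 6, 0⟩], [⟨7, 210, -10, 0, 4, 4, 0, -6, 0⟩]⟩,
  ⟨[⟨0, -1350, 0, -1, 1, 0, 0, 0, 0⟩], [⟨3, 410, 2, 0, 0, 0, 6, 0, 0⟩], [⟨7, 880, -10, 4, 4, 0, -6, 0, 0⟩]⟩,
  ⟨[⟨0, -105, 0, -1, 1, 0, 0, 0, 0⟩, ⟨0, 108, 0, 1, -1, 0, 0, 0, 0⟩], [⟨35, 11590, 2, 0, 32, 0, 70, 0, 0⟩], [⟨71, 6210, -106, 36, 36, 0, -70, 0, 0⟩]⟩,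
  ⟨[⟨0, -1350, 0, -1, 1, 0, 0, 0, 0⟩], [⟨28, 9280, 2, 1, 24, 0, 48, 0, 0⟩, ⟨40, 6376, -39, 15, 24, 0, 0, 0, 0⟩], [⟨52, 3450, -80, 29, 24, 0, -48, 0, 0⟩]⟩,
  ⟨[⟨0, -114, 0, -1, 1, 0, 0, 0, 0⟩, ⟨0, 126, 0, 1, -1, 0, 0, 0, 0⟩], [⟨5, 1470, 2, 0, 2, 0, 6, 0, 0⟩], [⟨9, 820, -14, 6, 4, 0, -6, 0, 0⟩]⟩,
  ⟨[⟨24, -9451, -80, 28, -28, 0, -72, 0, 0⟩, ⟨24, -9451, -80, 4, -28, 0, -48, 0, 0⟩, ⟨26, -11631, -88, 30, -28, 0, -80, 0, 0⟩, ⟨26, -11631, -88, 6, -28, 0, -56, 0, 0⟩], [⟨27, 11710, 2, 0, 48, 0, 22, 0, 0⟩, ⟨27, 11710, 2, 20, 48, 0, 2, 0, 0⟩], []⟩,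
  ⟨[⟨0, -18, 0, -1, 1, 0, 0, 0, 0⟩, ⟨0, 27, 0, 1, -1, 0, 0, 0, 0⟩], [⟨11, 4430, 2, 18, 6, 0, 2, 0, 0⟩], [⟨21, 1250, -32, 12, 10, 0, -18, 0, 0⟩]⟩,
  ⟨[⟨0, -900, 0, -1, 1, 0, 0, 0, 0⟩], [⟨5, 1060, 2, 0, 2, 0, 6, 0, 0⟩], [⟨9, 260, -14, 6, 4, 0, -6, 0, 0⟩]⟩,
  ⟨[], [⟨9, 2640, 2, 0, 0, 6, 0, 18, 0⟩, ⟨9, 3510, 2, 0, 16, 6, 0, 2, 0⟩, ⟨14, 2400, -13, 0, 5, 8, 0, 0, 0⟩], [⟨19, 2120, -28, 0, 10, 10, 0, -18, 0⟩]⟩,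
  ⟨[⟨0, -1050, 0, -1, 1, 0, 0, 0, 0⟩], [⟨3, 10, 2, 0, 0, 0, 2, 0, 0⟩, ⟨4, 602, -3, 2, 1, 0, 0, 0, 0⟩], [⟨5, 1190, -8, 4, 2, 0, -2, 0, 0⟩]⟩,
  ⟨[⟨0, -220, 0, -1, 1, 0, 0, 0, 0⟩, ⟨0, 245, 0, 1, -1, 0, 0, 0, 0⟩], [⟨9, 2130, 2, 0, 6, 0, 18, 0, 0⟩], [⟨19, 2140, -28, 10, 10, 0, -18, 0, 0⟩, ⟨14, 2115, -13, 5, 8, 0, 0, 0, 0⟩]⟩,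
  ⟨[⟨0, -1350, 0, -1, 1, 0, 0, 0, 0⟩], [⟨18, 5150, 2, 1, 14, 0, 32, 0, 0⟩, ⟨26, 4009, -25, 10, 15, 0, 0, 0, 0⟩], [⟨34, 2860, -52, 19, 16, 0, -32, 0, 0⟩]⟩,
  ⟨[⟨0, -99, 0, -1, 1, 0, 0, 0, 0⟩, ⟨0, 101, 0, 1, -1, 0, 0, 0, 0⟩], [⟨7, 2830, 2, 0, 4, 0, 14, 0, 0⟩], [⟨15, 1680, -22, 8, 8, 0, -14, 0, 0⟩]⟩,
  ⟨[⟨0, -245, 0, -1, 1, 0, 0, 0, 0⟩, ⟨0, 270, 0, 1, -1, 0, 0, 0, 0⟩], [⟨26, 7890, 2, 1, 22, 0, 52, 0, 0⟩], [⟨52, 4320, -78, 27, 26, 0, -52, 0, 0⟩]⟩]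

def wg117 : List Wn := [
  ⟨[⟨0, -159, 0, -1, 1, 0, 0, 0, 0⟩], [⟨45, 18270, 2, 0, 42, 0, 86, 0, 0⟩, ⟨45, 17440, 2, 86, 40, 0, 2, 0, 0⟩], [⟨89, 6880, -134, 46, 44, 0, -86, 0, 0⟩]⟩,
  ⟨[⟨0, -1050, 0, -1, 1, 0, 0, 0, 0⟩], [⟨13, 3220, 2, 0, 10, 0, 26, 0, 0⟩], [⟨27, 2790, -40, 14, 14, 0, -26, 0, 0⟩, ⟨20, 2996, -19, 7, 12, 0, 0, 0, 0⟩]⟩,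
  ⟨[⟨0, -200, 0, 0, -1, 1, 0, 0, 0⟩], [⟨33, 10480, 2, 0, 0, 30, 0, 62, 0⟩], [⟨65, 5570, -98, 0, 34, 32, 0, -62, 0⟩]⟩,
  ⟨[⟨0, -114, 0, -1, 1, 0, 0, 0, 0⟩, ⟨0, 126, 0, 1, -1, 0, 0, 0, 0⟩], [⟨15, 4910, 2, 0, 12, 0, 26, 0, 0⟩], [⟨29, 2430, -44, 16, 14, 0, -26, 0, 0⟩, ⟨22, 3634, -21, 8, 13, 0, 0, 0, 0⟩]⟩,
  ⟨[⟨0, -108, 0, -1, 1, 0, 0, 0, 0⟩, ⟨0, 114, 0, 1, -1, 0, 0, 0, 0⟩], [⟨19, 5620, 2, 0, 16, 0, 36, 0, 0⟩], [⟨37, 3760, -56, 18, 20, 0, -36, 0, 0⟩, ⟨28, 4659, -27, 9, 18, 0, 0, 0, 0⟩]⟩,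
  ⟨[⟨0, -23, 0, 0, -1, 1, 0, 0, 0⟩, ⟨0, 60, 0, 0, 1, -1, 0, 0, 0⟩], [⟨25, 8840, 2, 0, 46, 20, 0, 2, 0⟩], [⟨49, 3140, -74, 0, 26, 24, 0, -46, 0⟩]⟩,
  ⟨[⟨0, -245, 0, -1, 1, 0, 0, 0, 0⟩, ⟨0, 270, 0, 1, -1, 0, 0, 0, 0⟩], [⟨9, 2760, 2, 0, 6, 0, 14, 0, 0⟩], [⟨17, 2250, -26, 10, 8, 0, -14, 0, 0⟩]⟩,
  ⟨[⟨0, -900, 0, -1, 1, 0, 0, 0, 0⟩], [⟨26, 7510, 2, 1, 22, 0, 52, 0, 0⟩], [⟨52, 4320, -78, 27, 26, 0, -52, 0, 0⟩]⟩,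
  ⟨[⟨0, -245, 0, -1, 1, 0, 0, 0, 0⟩, ⟨0, 270, 0, 1, -1, 0, 0, 0, 0⟩], [⟨23, 6970, 2, 0, 20, 0, 46, 0, 0⟩], [⟨47, 4110, -70, 24, 24, 0, -46, 0, 0⟩]⟩,
  ⟨[⟨0, -114, 0, -1, 1, 0, 0, 0, 0⟩, ⟨0, 126, 0, 1, -1, 0, 0, 0, 0⟩], [⟨7, 760, 2, 0, 4, 0, 2, 0, 0⟩], [⟨9, 2030, -16, 8, 2, 0, -2, 0, 0⟩, ⟨8, 1380, -7, 4, 3, 0, 0, 0, 0⟩]⟩,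
  ⟨[⟨0, -1350, 0, -1, 1, 0, 0, 0, 0⟩], [⟨11, 2990, 2, 0, 8, 0, 22, 0, 0⟩], [⟨23, 2920, -34, 12, 12, 0, -22, 0, 0⟩]⟩,
  ⟨[⟨0, -597, 0, -1, 1, 0, 0, 0, 0⟩], [⟨73, 27710, 2, 0, 70, 0, 144, 0, 0⟩, ⟨73, 26840, 2, 144, 68, 0, 2, 0, 0⟩, ⟨109, 20000, -108, 108, 0, 0, 0, 0, 0⟩], [⟨145, 12720, -218, 72, 74, 0, -144, 0, 0⟩]⟩,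
  ⟨[⟨0, -93, 0, 0, -1, 1, 0, 0, 0⟩], [⟨11, 5500, 2, 0, 0, 8, 0, 14, 0⟩, ⟨11, 5130, 2, 0, 16, 4, 0, 2, 0⟩], [⟨19, 1070, -30, 0, 12, 8, 0, -14, 0⟩]⟩,
  ⟨[⟨0, -133, 0, 0, -1, 1, 0, 0, 0⟩], [⟨49, 19020, 2, 0, 0, 46, 0, 94, 0⟩, ⟨49, 18180, 2, 0, 94, 44, 0, 2, 0⟩], [⟨97, 8330, -146, 0, 50, 48, 0, -94, 0⟩]⟩,
  ⟨[⟨0, -597, 0, -1, 1, 0, 0, 0, 0⟩], [⟨41, 15840, 2, 0, 38, 0, 80, 0, 0⟩, ⟨41, 14970, 2, 80, 36, 0, 2, 0, 0⟩, ⟨61, 11100, -60, 60, 0, 0, 0, 0, 0⟩], [⟨81, 6960, -122, 40, 42, 0, -80, 0, 0⟩]⟩,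
  ⟨[⟨0, -92, 0, -1, 1, 0, 0, 0, 0⟩, ⟨0, 99, 0, 1, -1, 0, 0, 0, 0⟩], [⟨4, 1430, 2, 0, 1, 0, 8, 0, 0⟩], [⟨8, 820, -12, 4, 5, 0, -8, 0, 0⟩]⟩]

def wg118 : List Wn := [
  ⟨[⟨0, -1200, 0, -1, 1, 0, 0, 0, 0⟩], [⟨3, 410, 2, 0, 0, 0, 6, 0, 0⟩], [⟨7, 880, -10, 4, 4, 0, -6, 0, 0⟩]⟩,
  ⟨[⟨28, -10731, -92, 32, -32, 0, -84, 0, 0⟩, ⟨28, -10731, -92, 4, -32, 0, -56, 0, 0⟩, ⟨30, -12941, -100, 34, -32, 0, -92, 0, 0⟩, ⟨30, -12941, -100, 6, -32, 0, -64, 0, 0⟩], [⟨31, 13340, 2, 0, 56, 0, 26, 0, 0⟩, ⟨31, 13340, 2, 24, 56, 0, 2, 0, 0⟩], []⟩,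
  ⟨[⟨0, -750, 0, -1, 1, 0, 0, 0, 0⟩], [⟨5, 1060, 2, 0, 2, 0, 6, 0, 0⟩], [⟨9, 260, -14, 6, 4, 0, -6, 0, 0⟩]⟩,
  ⟨[], [⟨7, 2090, 2, 0, 4, 0, 6, 0, 0⟩, ⟨7, 1740, 2, 8, 0, 0, 2, 0, 0⟩], [⟨11, 400, -18, 8, 4, 0, -6, 0, 0⟩]⟩,
  ⟨[⟨0, -1350, 0, -1, 1, 0, 0, 0, 0⟩], [⟨7, 1910, 2, 0, 4, 0, 10, 0, 0⟩], [⟨13, 1220, -20, 8, 6, 0, -10, 0, 0⟩, ⟨10, 1559, -9, 4, 5, 0, 0, 0, 0⟩]⟩,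
  ⟨[⟨0, -138, 0, -1, 1, 0, 0, 0, 0⟩, ⟨0, 150, 0, 1, -1, 0, 0, 0, 0⟩], [⟨19, 5480, 2, 0, 16, 0, 36, 0, 0⟩], [⟨37, 3760, -56, 18, 20, 0, -36, 0, 0⟩, ⟨28, 4590, -27, 9, 18, 0, 0, 0, 0⟩]⟩,
  ⟨[⟨0, -900, 0, -1, 1, 0, 0, 0, 0⟩], [⟨3, 10, 2, 0, 0, 0, 2, 0, 0⟩, ⟨4, 602, -3, 2, 1, 0, 0, 0, 0⟩], [⟨5, 1190, -8, 4, 2, 0, -2, 0, 0⟩]⟩,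
  ⟨[⟨0, -300, 0, 0, -1, 1, 0, 0, 0⟩, ⟨0, 400, 0, 0, 1, -1, 0, 0, 0⟩], [⟨15, 5210, 2, 0, 0, 12, 0, 20, 0⟩], [⟨25, 1640, -40, 0, 14, 12, 0, -20, 0⟩, ⟨20, 3391, -19, 0, 7, 12, 0, 0, 0⟩]⟩,
  ⟨[⟨0, -1200, 0, -1, 1, 0, 0, 0, 0⟩], [⟨18, 5150, 2, 1, 14, 0, 32, 0, 0⟩, ⟨26, 4009, -25, 10, 15, 0, 0, 0, 0⟩], [⟨34, 2860, -52, 19, 16, 0, -32, 0, 0⟩]⟩,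
  ⟨[⟨0, -180, 0, -1, 1, 0, 0, 0, 0⟩, ⟨0, 200, 0, 1, -1, 0, 0, 0, 0⟩], [⟨29, 10080, 2, 0, 26, 0, 54, 0, 0⟩], [⟨57, 4060, -86, 30, 28, 0, -54, 0, 0⟩]⟩,
  ⟨[⟨0, -108, 0, -1, 1, 0, 0, 0, 0⟩, ⟨0, 114, 0, 1, -1, 0, 0, 0, 0⟩], [⟨22, 7530, 2, 0, 19, 0, 44, 0, 0⟩], [⟨44, 3360, -66, 22, 23, 0, -44, 0, 0⟩]⟩,
  ⟨[⟨0, -23, 0, 0, -1, 1, 0, 0, 0⟩, ⟨0, 60, 0, 0, 1, -1, 0, 0, 0⟩], [⟨19, 5670, 2, 0, 36, 16, 0, 2, 0⟩], [⟨39, 3690, -58, 0, 20, 20, 0, -38, 0⟩]⟩,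
  ⟨[⟨0, -133, 0, -1, 1, 0, 0, 0, 0⟩], [⟨45, 18270, 2, 0, 42, 0, 86, 0, 0⟩, ⟨45, 17440, 2, 86, 40, 0, 2, 0, 0⟩], [⟨89, 6870, -134, 46, 44, 0, -86, 0, 0⟩]⟩,
  ⟨[⟨0, -900, 0, -1, 1, 0, 0, 0, 0⟩], [⟨13, 3220, 2, 0, 10, 0, 26, 0, 0⟩], [⟨27, 2790, -40, 14, 14, 0, -26, 0, 0⟩, ⟨20, 2996, -19, 7, 12, 0, 0, 0, 0⟩]⟩,
  ⟨[⟨0, -150, 0, -1, 1, 0, 0, 0, 0⟩, ⟨0, 165, 0, 1, -1, 0, 0, 0, 0⟩], [⟨5, 1400, 2, 0, 2, 0, 6, 0, 0⟩], [⟨9, 840, -14, 6, 4, 0, -6, 0, 0⟩]⟩,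
  ⟨[⟨0, -105, 0, -1, 1, 0, 0, 0, 0⟩, ⟨0, 108, 0, 1, -1, 0, 0, 0, 0⟩], [⟨10, 4110, 2, 0, 7, 0, 20, 0, 0⟩], [⟨20, 1590, -30, 10, 11, 0, -20, 0, 0⟩]⟩]

def wg119 : List Wn := [
  ⟨[⟨0, -101, 0, -1, 1, 0, 0, 0, 0⟩, ⟨0, 103, 0, 1, -1, 0, 0, 0, 0⟩], [⟨15, 4620, 2, 0, 12, 0, 28, 0, 0⟩], [⟨29, 2780, -44, 14, 16, 0, -28, 0, 0⟩, ⟨22, 3679, -21, 7, 14, 0, 0, 0, 0⟩]⟩,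
  ⟨[⟨0, -84, 0, -1, 1, 0, 0, 0, 0⟩, ⟨0, 92, 0, 1, -1, 0, 0, 0, 0⟩], [⟨23, 8980, 2, 0, 20, 0, 46, 0, 0⟩], [⟨47, 4110, -70, 24, 24, 0, -46, 0, 0⟩]⟩,
  ⟨[⟨0, 10, 0, 1, -1, 0, 0, 0, 0⟩], [⟨43, 13450, 2, 84, 40, 0, 2, 0, 0⟩], [⟨87, 7030, -130, 44, 44, 0, -86, 0, 0⟩]⟩,
  ⟨[⟨0, -150, 0, 0, -1, 1, 0, 0, 0⟩, ⟨0, 200, 0, 0, 1, -1, 0, 0, 0⟩], [⟨27, 8630, 2, 0, 0, 24, 0, 54, 0⟩], [⟨55, 4760, -82, 0, 28, 28, 0, -54, 0⟩]⟩,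
  ⟨[⟨0, -1200, 0, -1, 1, 0, 0, 0, 0⟩], [⟨11, 2990, 2, 0, 8, 0, 22, 0, 0⟩], [⟨23, 2920, -34, 12, 12, 0, -22, 0, 0⟩]⟩,
  ⟨[⟨0, -18, 0, -1, 1, 0, 0, 0, 0⟩, ⟨0, 27, 0, 1, -1, 0, 0, 0, 0⟩], [⟨13, 3590, 2, 24, 10, 0, 2, 0, 0⟩], [⟨27, 2590, -40, 14, 14, 0, -26, 0, 0⟩]⟩,
  ⟨[⟨0, -99, 0, -1, 1, 0, 0, 0, 0⟩, ⟨0, 101, 0, 1, -1, 0, 0, 0, 0⟩], [⟨11, 3450, 2, 0, 8, 0, 20, 0, 0⟩], [⟨21, 1910, -32, 10, 12, 0, -20, 0, 0⟩, ⟨16, 2665, -15, 5, 10, 0, 0, 0, 0⟩]⟩,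
  ⟨[⟨0, -597, 0, -1, 1, 0, 0, 0, 0⟩], [⟨51, 16960, 2, 0, 96, 0, 46, 0, 0⟩, ⟨51, 20990, 2, 96, 44, 0, 2, 0, 0⟩], [⟨99, 7110, -150, 52, 48, 0, -94, 0, 0⟩]⟩,
  ⟨[⟨0, -93, 0, 0, -1, 1, 0, 0, 0⟩], [⟨49, 19020, 2, 0, 0, 46, 0, 94, 0⟩, ⟨49, 18180, 2, 0, 94, 44, 0, 2, 0⟩], [⟨97, 8300, -146, 0, 50, 48, 0, -94, 0⟩]⟩,
  ⟨[⟨0, -138, 0, -1, 1, 0, 0, 0, 0⟩, ⟨0, 150, 0, 1, -1, 0, 0, 0, 0⟩], [⟨22, 7350, 2, 0, 19, 0, 44, 0, 0⟩], [⟨44, 3360, -66, 22, 23, 0, -44, 0, 0⟩]⟩,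
  ⟨[⟨0, -1050, 0, -1, 1, 0, 0, 0, 0⟩], [⟨3, 410, 2, 0, 0, 0, 6, 0, 0⟩], [⟨7, 880, -10, 4, 4, 0, -6, 0, 0⟩]⟩,
  ⟨[⟨32, -12011, -104, 36, -36, 0, -96, 0, 0⟩, ⟨32, -12011, -104, 4, -36, 0, -64, 0, 0⟩, ⟨34, -14261, -112, 38, -36, 0, -104, 0, 0⟩, ⟨34, -14261, -112, 6, -36, 0, -72, 0, 0⟩], [⟨35, 14970, 2, 0, 64, 0, 30, 0, 0⟩, ⟨35, 14970, 2, 28, 64, 0, 2, 0, 0⟩], []⟩,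
  ⟨[⟨0, -600, 0, -1, 1, 0, 0, 0, 0⟩], [⟨5, 1060, 2, 0, 2, 0, 6, 0, 0⟩], [⟨9, 260, -14, 6, 4, 0, -6, 0, 0⟩]⟩,
  ⟨[⟨0, -92, 0, -1, 1, 0, 0, 0, 0⟩, ⟨0, 99, 0, 1, -1, 0, 0, 0, 0⟩], [⟨26, 9460, 2, 0, 23, 0, 52, 0, 0⟩], [⟨52, 4320, -78, 26, 27, 0, -52, 0, 0⟩]⟩,
  ⟨[⟨0, -1200, 0, -1, 1, 0, 0, 0, 0⟩], [⟨7, 1910, 2, 0, 4, 0, 10, 0, 0⟩], [⟨13, 1220, -20, 8, 6, 0, -10, 0, 0⟩, ⟨10, 1559, -9, 4, 5, 0, 0, 0, 0⟩]⟩,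
  ⟨[⟨0, -750, 0, -1, 1, 0, 0, 0, 0⟩], [⟨3, 10, 2, 0, 0, 0, 2, 0, 0⟩, ⟨4, 602, -3, 2, 1, 0, 0, 0, 0⟩], [⟨5, 1190, -8, 4, 2, 0, -2, 0, 0⟩]⟩]

def wg120 : List Wn := [
  ⟨[], [⟨13, 4950, 2, 0, 0, 10, 0, 24, 0⟩, ⟨13, 4320, 2, 0, 22, 10, 0, 2, 0⟩], [⟨25, 2450, -38, 0, 14, 12, 0, -24, 0⟩]⟩,
  ⟨[⟨0, -200, 0, 0, -1, 1, 0, 0, 0⟩], [⟨33, 10490, 2, 0, 0, 30, 0, 66, 0⟩, ⟨50, 8084, -49, 0, 17, 32, 0, 0, 0⟩], [⟨67, 5640, -100, 0, 34, 34, 0, -66, 0⟩]⟩,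
  ⟨[⟨0, -1350, 0, -1, 1, 0, 0, 0, 0⟩], [⟨9, 1990, 2, 0, 6, 0, 16, 0, 0⟩], [⟨17, 1130, -26, 8, 10, 0, -16, 0, 0⟩]⟩,
  ⟨[⟨0, -101, 0, -1, 1, 0, 0, 0, 0⟩, ⟨0, 103, 0, 1, -1, 0, 0, 0, 0⟩], [⟨17, 4670, 2, 0, 14, 0, 34, 0, 0⟩, ⟨26, 4188, -25, 9, 16, 0, 0, 0, 0⟩], [⟨35, 3690, -52, 18, 18, 0, -34, 0, 0⟩]⟩,
  ⟨[⟨0, -180, 0, -1, 1, 0, 0, 0, 0⟩, ⟨0, 200, 0, 1, -1, 0, 0, 0, 0⟩], [⟨21, 5950, 2, 0, 18, 0, 42, 0, 0⟩, ⟨32, 5146, -31, 11, 20, 0, 0, 0, 0⟩], [⟨43, 4330, -64, 22, 22, 0, -42, 0, 0⟩]⟩,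
  ⟨[⟨0, -10, 0, -1, 1, 0, 0, 0, 0⟩, ⟨0, 18, 0, 1, -1, 0, 0, 0, 0⟩], [⟨3, 260, 2, 4, 0, 0, 2, 0, 0⟩], [⟨7, 210, -10, 4, 4, 0, -6, 0, 0⟩]⟩,
  ⟨[⟨0, -93, 0, -1, 1, 0, 0, 0, 0⟩], [⟨45, 18270, 2, 0, 42, 0, 86, 0, 0⟩, ⟨45, 17440, 2, 86, 40, 0, 2, 0, 0⟩], [⟨89, 6840, -134, 46, 44, 0, -86, 0, 0⟩]⟩,
  ⟨[⟨0, -750, 0, -1, 1, 0, 0, 0, 0⟩], [⟨13, 3230, 2, 0, 10, 0, 26, 0, 0⟩], [⟨27, 2790, -40, 14, 14, 0, -26, 0, 0⟩, ⟨20, 2996, -19, 7, 12, 0, 0, 0, 0⟩]⟩,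
  ⟨[⟨0, -92, 0, -1, 1, 0, 0, 0, 0⟩, ⟨0, 99, 0, 1, -1, 0, 0, 0, 0⟩], [⟨29, 11110, 2, 0, 26, 0, 54, 0, 0⟩], [⟨57, 4010, -86, 30, 28, 0, -54, 0, 0⟩]⟩,
  ⟨[⟨0, -245, 0, -1, 1, 0, 0, 0, 0⟩, ⟨0, 270, 0, 1, -1, 0, 0, 0, 0⟩], [⟨10, 3020, 2, 0, 7, 0, 16, 0, 0⟩], [⟨18, 1480, -28, 10, 9, 0, -16, 0, 0⟩, ⟨14, 2234, -13, 5, 8, 0, 0, 0, 0⟩]⟩,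
  ⟨[⟨0, -600, 0, -1, 1, 0, 0, 0, 0⟩], [⟨26, 7540, 2, 1, 22, 0, 52, 0, 0⟩], [⟨52, 4320, -78, 27, 26, 0, -52, 0, 0⟩]⟩,
  ⟨[⟨0, -126, 0, -1, 1, 0, 0, 0, 0⟩, ⟨0, 138, 0, 1, -1, 0, 0, 0, 0⟩], [⟨41, 14270, 2, 0, 38, 0, 78, 0, 0⟩], [⟨81, 6230, -122, 42, 40, 0, -78, 0, 0⟩]⟩,
  ⟨[⟨0, -101, 0, -1, 1, 0, 0, 0, 0⟩, ⟨0, 103, 0, 1, -1, 0, 0, 0, 0⟩], [⟨29, 10600, 2, 0, 26, 0, 54, 0, 0⟩], [⟨57, 4020, -86, 30, 28, 0, -54, 0, 0⟩]⟩,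
  ⟨[⟨0, -1050, 0, -1, 1, 0, 0, 0, 0⟩], [⟨11, 2990, 2, 0, 8, 0, 22, 0, 0⟩], [⟨23, 2920, -34, 12, 12, 0, -22, 0, 0⟩]⟩,
  ⟨[], [⟨49, 19020, 2, 0, 0, 46, 0, 94, 0⟩, ⟨49, 18180, 2, 0, 94, 44, 0, 2, 0⟩], [⟨97, 8230, -146, 0, 50, 48, 0, -94, 0⟩]⟩,
  ⟨[⟨0, -270, 0, -1, 1, 0, 0, 0, 0⟩, ⟨0, 300, 0, 1, -1, 0, 0, 0, 0⟩], [⟨17, 5740, 2, 0, 14, 0, 30, 0, 0⟩], [⟨33, 2310, -50, 18, 16, 0, -30, 0, 0⟩]⟩]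

def wg121 : List Wn := [
  ⟨[⟨36, -13311, -116, 40, -40, 0, -108, 0, 0⟩, ⟨36, -13311, -116, 4, -40, 0, -72, 0, 0⟩, ⟨38, -15581, -124, 42, -40, 0, -116, 0, 0⟩, ⟨38, -15581, -124, 6, -40, 0, -80, 0, 0⟩], [⟨39, 16600, 2, 0, 72, 0, 34, 0, 0⟩, ⟨39, 16600, 2, 32, 72, 0, 2, 0, 0⟩], []⟩,
  ⟨[⟨0, -1350, 0, -1, 1, 0, 0, 0, 0⟩], [⟨38, 12640, 2, 1, 34, 0, 72, 0, 0⟩, ⟨56, 8777, -55, 20, 35, 0, 0, 0, 0⟩], [⟨74, 4880, -112, 39, 36, 0, -72, 0, 0⟩]⟩,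
  ⟨[⟨0, -1050, 0, -1, 1, 0, 0, 0, 0⟩], [⟨7, 1910, 2, 0, 4, 0, 10, 0, 0⟩], [⟨13, 1220, -20, 8, 6, 0, -10, 0, 0⟩, ⟨10, 1559, -9, 4, 5, 0, 0, 0, 0⟩]⟩,
  ⟨[⟨0, -600, 0, -1, 1, 0, 0, 0, 0⟩], [⟨3, 10, 2, 0, 0, 0, 2, 0, 0⟩, ⟨4, 604, -3, 2, 1, 0, 0, 0, 0⟩], [⟨5, 1190, -8, 4, 2, 0, -2, 0, 0⟩]⟩,
  ⟨[⟨0, -220, 0, -1, 1, 0, 0, 0, 0⟩, ⟨0, 245, 0, 1, -1, 0, 0, 0, 0⟩], [⟨10, 3810, 2, 0, 7, 0, 20, 0, 0⟩], [⟨20, 1590, -30, 10, 11, 0, -20, 0, 0⟩]⟩,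
  ⟨[⟨0, -200, 0, -1, 1, 0, 0, 0, 0⟩, ⟨0, -200, 0, 0, -1, 1, 0, 0, 0⟩], [⟨6, 785, -5, 1, 2, 2, 0, 0, 0⟩], [⟨9, 1237, -12, 2, 4, 4, -4, -6, -4⟩]⟩,
  ⟨[⟨0, -900, 0, -1, 1, 0, 0, 0, 0⟩], [⟨18, 5150, 2, 1, 14, 0, 32, 0, 0⟩, ⟨26, 4011, -25, 10, 15, 0, 0, 0, 0⟩], [⟨34, 2860, -52, 19, 16, 0, -32, 0, 0⟩]⟩,
  ⟨[⟨0, -99, 0, -1, 1, 0, 0, 0, 0⟩, ⟨0, 101, 0, 1, -1, 0, 0, 0, 0⟩], [⟨8, 2320, 2, 0, 5, 0, 16, 0, 0⟩, ⟨12, 1553, -11, 4, 7, 0, 0, 0, 0⟩], [⟨16, 1680, -24, 8, 9, 0, -16, 0, 0⟩]⟩,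
  ⟨[⟨0, -1200, 0, -1, 1, 0, 0, 0, 0⟩], [⟨9, 1990, 2, 0, 6, 0, 16, 0, 0⟩], [⟨17, 1130, -26, 8, 10, 0, -16, 0, 0⟩]⟩,
  ⟨[], [⟨45, 18270, 2, 0, 42, 0, 86, 0, 0⟩, ⟨45, 17440, 2, 86, 40, 0, 2, 0, 0⟩], [⟨89, 6770, -134, 46, 44, 0, -86, 0, 0⟩]⟩,
  ⟨[⟨0, -600, 0, -1, 1, 0, 0, 0, 0⟩], [⟨13, 3240, 2, 0, 10, 0, 26, 0, 0⟩], [⟨27, 2790, -40, 14, 14, 0, -26, 0, 0⟩, ⟨20, 2996, -19, 7, 12, 0, 0, 0, 0⟩]⟩,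
  ⟨[⟨0, -220, 0, -1, 1, 0, 0, 0, 0⟩, ⟨0, 245, 0, 1, -1, 0, 0, 0, 0⟩], [⟨7, 1570, 2, 0, 4, 0, 12, 0, 0⟩], [⟨13, 1540, -20, 6, 8, 0, -12, 0, 0⟩, ⟨10, 1541, -9, 3, 6, 0, 0, 0, 0⟩]⟩,
  ⟨[⟨0, -220, 0, -1, 1, 0, 0, 0, 0⟩, ⟨0, 245, 0, 1, -1, 0, 0, 0, 0⟩], [⟨35, 10830, 2, 0, 32, 0, 70, 0, 0⟩], [⟨71, 6210, -106, 36, 36, 0, -70, 0, 0⟩]⟩,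
  ⟨[⟨0, -99, 0, -1, 1, 0, 0, 0, 0⟩, ⟨0, 101, 0, 1, -1, 0, 0, 0, 0⟩], [⟨3, 730, 2, 0, 0, 0, 6, 0, 0⟩], [⟨7, 880, -10, 4, 4, 0, -6, 0, 0⟩]⟩,
  ⟨[⟨0, -450, 0, -1, 1, 0, 0, 0, 0⟩], [⟨26, 7600, 2, 1, 22, 0, 52, 0, 0⟩], [⟨52, 4320, -78, 27, 26, 0, -52, 0, 0⟩]⟩,
  ⟨[⟨0, -900, 0, -1, 1, 0, 0, 0, 0⟩], [⟨11, 2990, 2, 0, 8, 0, 22, 0, 0⟩], [⟨23, 2920, -34, 12, 12, 0, -22, 0, 0⟩]⟩]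

def wg122 : List Wn := [
  ⟨[⟨0, -500, 0, 0, -1, 1, 0, 0, 0⟩, ⟨0, 600, 0, 0, 1, -1, 0, 0, 0⟩], [⟨5, 620, 2, 0, 0, 2, 0, 10, 0⟩], [⟨11, 1610, -16, 0, 6, 6, 0, -10, 0⟩, ⟨8, 1108, -7, 0, 3, 4, 0, 0, 0⟩]⟩,
  ⟨[⟨0, -105, 0, -1, 1, 0, 0, 0, 0⟩, ⟨0, 108, 0, 1, -1, 0, 0, 0, 0⟩], [⟨7, 1730, 2, 0, 4, 0, 12, 0, 0⟩], [⟨13, 1540, -20, 6, 8, 0, -12, 0, 0⟩, ⟨10, 1622, -9, 3, 6, 0, 0, 0, 0⟩]⟩,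
  ⟨[⟨0, -750, 0, -1, 1, 0, 0, 0, 0⟩], [⟨3, 410, 2, 0, 0, 0, 6, 0, 0⟩], [⟨7, 880, -10, 4, 4, 0, -6, 0, 0⟩]⟩,
  ⟨[⟨0, -93, 0, 0, -1, 1, 0, 0, 0⟩], [⟨37, 15860, 2, 0, 0, 34, 0, 70, 0⟩, ⟨37, 15020, 2, 0, 70, 32, 0, 2, 0⟩], [⟨73, 4850, -110, 0, 38, 36, 0, -70, 0⟩]⟩,
  ⟨[⟨0, -114, 0, -1, 1, 0, 0, 0, 0⟩, ⟨0, 126, 0, 1, -1, 0, 0, 0, 0⟩], [⟨6, 1470, 2, 0, 3, 0, 8, 0, 0⟩], [⟨10, 1060, -16, 6, 5, 0, -8, 0, 0⟩, ⟨8, 1248, -7, 3, 4, 0, 0, 0, 0⟩]⟩,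
  ⟨[⟨40, -14611, -128, 44, -44, 0, -120, 0, 0⟩, ⟨40, -14611, -128, 4, -44, 0, -80, 0, 0⟩, ⟨42, -16911, -136, 46, -44, 0, -128, 0, 0⟩, ⟨42, -16911, -136, 6, -44, 0, -88, 0, 0⟩], [⟨43, 18230, 2, 0, 80, 0, 38, 0, 0⟩, ⟨43, 18230, 2, 36, 80, 0, 2, 0, 0⟩], []⟩,
  ⟨[⟨0, -103, 0, -1, 1, 0, 0, 0, 0⟩, ⟨0, 105, 0, 1, -1, 0, 0, 0, 0⟩], [⟨15, 4920, 2, 0, 12, 0, 26, 0, 0⟩], [⟨29, 2420, -44, 16, 14, 0, -26, 0, 0⟩, ⟨22, 3643, -21, 8, 13, 0, 0, 0, 0⟩]⟩,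
  ⟨[⟨0, -1350, 0, -1, 1, 0, 0, 0, 0⟩], [⟨9, 2630, 2, 0, 6, 0, 16, 0, 0⟩], [⟨17, 1980, -26, 10, 8, 0, -16, 0, 0⟩]⟩,
  ⟨[⟨0, -300, 0, -1, 1, 0, 0, 0, 0⟩], [⟨5, 1110, 2, 0, 2, 0, 6, 0, 0⟩], [⟨9, 230, -14, 6, 4, 0, -6, 0, 0⟩]⟩,
  ⟨[⟨0, -1200, 0, -1, 1, 0, 0, 0, 0⟩], [⟨38, 12640, 2, 1, 34, 0, 72, 0, 0⟩, ⟨56, 8777, -55, 20, 35, 0, 0, 0, 0⟩], [⟨74, 4880, -112, 39, 36, 0, -72, 0, 0⟩]⟩,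
  ⟨[⟨0, -126, 0, -1, 1, 0, 0, 0, 0⟩, ⟨0, 138, 0, 1, -1, 0, 0, 0, 0⟩], [⟨10, 2970, 2, 1, 6, 0, 20, 0, 0⟩], [⟨20, 740, -30, 11, 10, 0, -20, 0, 0⟩]⟩,
  ⟨[⟨0, -900, 0, -1, 1, 0, 0, 0, 0⟩], [⟨7, 1910, 2, 0, 4, 0, 10, 0, 0⟩], [⟨13, 1220, -20, 8, 6, 0, -10, 0, 0⟩, ⟨10, 1559, -9, 4, 5, 0, 0, 0, 0⟩]⟩,
  ⟨[⟨0, -103, 0, -1, 1, 0, 0, 0, 0⟩, ⟨0, 105, 0, 1, -1, 0, 0, 0, 0⟩], [⟨7, 770, 2, 0, 4, 0, 2, 0, 0⟩], [⟨9, 2020, -16, 8, 2, 0, -2, 0, 0⟩, ⟨8, 1384, -7, 4, 3, 0, 0, 0, 0⟩]⟩,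
  ⟨[⟨0, -450, 0, -1, 1, 0, 0, 0, 0⟩], [⟨3, 20, 2, 0, 0, 0, 2, 0, 0⟩, ⟨4, 608, -3, 2, 1, 0, 0, 0, 0⟩], [⟨5, 1180, -8, 4, 2, 0, -2, 0, 0⟩]⟩,
  ⟨[⟨0, -165, 0, -1, 1, 0, 0, 0, 0⟩, ⟨0, 180, 0, 1, -1, 0, 0, 0, 0⟩], [⟨41, 13960, 2, 0, 38, 0, 78, 0, 0⟩], [⟨81, 6250, -122, 42, 40, 0, -78, 0, 0⟩]⟩,
  ⟨[⟨0, -93, 0, -1, 1, 0, 0, 0, 0⟩, ⟨0, -93, 0, 0, -1, 1, 0, 0, 0⟩], [⟨6, 953, -5, 1, 2, 2, 0, 0, 0⟩], [⟨9, 1237, -12, 2, 4, 4, -4, -6, -4⟩]⟩]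

def wg123 : List Wn := [
  ⟨[⟨0, -750, 0, -1, 1, 0, 0, 0, 0⟩], [⟨18, 5150, 2, 1, 14, 0, 32, 0, 0⟩, ⟨26, 4013, -25, 10, 15, 0, 0, 0, 0⟩], [⟨34, 2850, -52, 19, 16, 0, -32, 0, 0⟩]⟩,
  ⟨[⟨0, -1350, 0, -1, 1, 0, 0, 0, 0⟩], [⟨19, 4970, 2, 0, 16, 0, 36, 0, 0⟩], [⟨37, 3760, -56, 18, 20, 0, -36, 0, 0⟩, ⟨28, 4354, -27, 9, 18, 0, 0, 0, 0⟩]⟩,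
  ⟨[⟨0, -101, 0, -1, 1, 0, 0, 0, 0⟩, ⟨0, 103, 0, 1, -1, 0, 0, 0, 0⟩], [⟨18, 5760, 2, 0, 15, 0, 36, 0, 0⟩], [⟨36, 3250, -54, 18, 19, 0, -36, 0, 0⟩]⟩,
  ⟨[⟨0, -10, 0, -1, 1, 0, 0, 0, 0⟩, ⟨0, 18, 0, 1, -1, 0, 0, 0, 0⟩], [⟨27, 8140, 2, 52, 24, 0, 2, 0, 0⟩], [⟨55, 4760, -82, 28, 28, 0, -54, 0, 0⟩]⟩,
  ⟨[⟨0, -180, 0, -1, 1, 0, 0, 0, 0⟩, ⟨0, 200, 0, 1, -1, 0, 0, 0, 0⟩], [⟨22, 7200, 2, 0, 19, 0, 44, 0, 0⟩], [⟨44, 3360, -66, 22, 23, 0, -44, 0, 0⟩]⟩,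
  ⟨[⟨0, -38, 0, -1, 1, 0, 0, 0, 0⟩, ⟨0, 50, 0, 1, -1, 0, 0, 0, 0⟩], [⟨23, 7160, 2, 44, 20, 0, 2, 0, 0⟩], [⟨47, 4110, -70, 24, 24, 0, -46, 0, 0⟩]⟩,
  ⟨[⟨0, -450, 0, -1, 1, 0, 0, 0, 0⟩], [⟨13, 3260, 2, 0, 10, 0, 26, 0, 0⟩], [⟨27, 2790, -40, 14, 14, 0, -26, 0, 0⟩, ⟨20, 2996, -19, 7, 12, 0, 0, 0, 0⟩]⟩,
  ⟨[⟨0, -76, 0, -1, 1, 0, 0, 0, 0⟩, ⟨0, 84, 0, 1, -1, 0, 0, 0, 0⟩], [⟨6, 2370, 2, 10, 3, 0, 2, 0, 0⟩], [⟨12, 1220, -18, 6, 7, 0, -12, 0, 0⟩]⟩,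
  ⟨[⟨0, -10, 0, -1, 1, 0, 0, 0, 0⟩, ⟨0, 18, 0, 1, -1, 0, 0, 0, 0⟩], [⟨11, 2240, 2, 20, 8, 0, 2, 0, 0⟩], [⟨23, 2070, -34, 12, 12, 0, -22, 0, 0⟩]⟩,
  ⟨[⟨0, -99, 0, -1, 1, 0, 0, 0, 0⟩, ⟨0, 101, 0, 1, -1, 0, 0, 0, 0⟩], [⟨3, 540, 2, 0, 0, 0, 6, 0, 0⟩], [⟨7, 210, -10, 4, 4, 0, -6, 0, 0⟩]⟩,
  ⟨[⟨0, -597, 0, -1, 1, 0, 0, 0, 0⟩], [⟨51, 16820, 2, 0, 96, 0, 48, 0, 0⟩, ⟨51, 19910, 2, 98, 44, 0, 2, 0, 0⟩], [⟨99, 7130, -150, 50, 50, 0, -96, 0, 0⟩]⟩,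
  ⟨[⟨0, -300, 0, -1, 1, 0, 0, 0, 0⟩], [⟨26, 7770, 2, 1, 22, 0, 52, 0, 0⟩], [⟨52, 4320, -78, 27, 26, 0, -52, 0, 0⟩]⟩,
  ⟨[⟨0, -50, 0, -1, 1, 0, 0, 0, 0⟩, ⟨0, 66, 0, 1, -1, 0, 0, 0, 0⟩], [⟨17, 5840, 2, 30, 12, 0, 2, 0, 0⟩], [⟨33, 2200, -50, 18, 16, 0, -30, 0, 0⟩]⟩,
  ⟨[⟨0, -750, 0, -1, 1, 0, 0, 0, 0⟩], [⟨11, 3000, 2, 0, 8, 0, 22, 0, 0⟩], [⟨23, 2920, -34, 12, 12, 0, -22, 0, 0⟩]⟩,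
  ⟨[], [⟨5, 2070, 2, 0, 2, 0, 6, 0, 0⟩, ⟨5, 970, 2, 0, 6, 0, 2, 0, 0⟩], [⟨9, 60, -14, 6, 4, 0, -6, 0, 0⟩]⟩,
  ⟨[⟨0, -23, 0, 0, -1, 1, 0, 0, 0⟩, ⟨0, 60, 0, 0, 1, -1, 0, 0, 0⟩], [⟨31, 10990, 2, 0, 56, 24, 0, 2, 0⟩], [⟨59, 3630, -90, 0, 32, 28, 0, -54, 0⟩]⟩]

def wg124 : List Wn := [
  ⟨[⟨0, -675, 0, -1, 1, 0, 0, 0, 0⟩, ⟨0, 750, 0, 1, -1, 0, 0, 0, 0⟩], [⟨3, 10, 2, 0, 0, 0, 2, 0, 0⟩], [⟨5, 1190, -8, 4, 2, 0, -2, 0, 0⟩, ⟨4, 595, -3, 2, 1, 0, 0, 0, 0⟩]⟩,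
  ⟨[⟨0, -18, 0, -1, 1, 0, 0, 0, 0⟩, ⟨0, 27, 0, 1, -1, 0, 0, 0, 0⟩], [⟨6, 2190, 2, 10, 3, 0, 2, 0, 0⟩], [⟨12, 1220, -18, 6, 7, 0, -12, 0, 0⟩]⟩,
  ⟨[⟨0, -600, 0, -1, 1, 0, 0, 0, 0⟩], [⟨3, 410, 2, 0, 0, 0, 6, 0, 0⟩], [⟨7, 880, -10, 4, 4, 0, -6, 0, 0⟩]⟩,
  ⟨[⟨0, -270, 0, -1, 1, 0, 0, 0, 0⟩, ⟨0, 300, 0, 1, -1, 0, 0, 0, 0⟩], [⟨18, 5530, 2, 0, 15, 0, 32, 0, 0⟩], [⟨34, 2840, -52, 18, 17, 0, -32, 0, 0⟩, ⟨26, 4159, -25, 9, 16, 0, 0, 0, 0⟩]⟩,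
  ⟨[], [⟨37, 15860, 2, 0, 0, 34, 0, 70, 0⟩, ⟨37, 15020, 2, 0, 70, 32, 0, 2, 0⟩], [⟨73, 4770, -110, 0, 38, 36, 0, -70, 0⟩]⟩,
  ⟨[⟨44, -15921, -140, 48, -48, 0, -132, 0, 0⟩, ⟨44, -15921, -140, 4, -48, 0, -88, 0, 0⟩, ⟨46, -18241, -148, 50, -48, 0, -140, 0, 0⟩, ⟨46, -18241, -148, 6, -48, 0, -96, 0, 0⟩], [⟨47, 19860, 2, 0, 88, 0, 42, 0, 0⟩, ⟨47, 19860, 2, 40, 88, 0, 2, 0, 0⟩], []⟩,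
  ⟨[⟨0, -200, 0, -1, 1, 0, 0, 0, 0⟩, ⟨0, 220, 0, 1, -1, 0, 0, 0, 0⟩], [⟨5, 1350, 2, 0, 2, 0, 6, 0, 0⟩], [⟨9, 860, -14, 6, 4, 0, -6, 0, 0⟩]⟩,
  ⟨[⟨0, 99, 0, 1, -1, 0, 0, 0, 0⟩], [⟨19, 6290, 2, 0, 16, 0, 36, 0, 0⟩, ⟨19, 6490, 2, 34, 16, 0, 2, 0, 0⟩], [⟨37, 3560, -56, 20, 18, 0, -36, 0, 0⟩]⟩,
  ⟨[⟨0, -1350, 0, -1, 1, 0, 0, 0, 0⟩], [⟨5, 1240, 2, 0, 2, 0, 6, 0, 0⟩], [⟨9, 930, -14, 6, 4, 0, -6, 0, 0⟩]⟩,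
  ⟨[⟨0, -159, 0, 0, -1, 1, 0, 0, 0⟩], [⟨55, 19150, 2, 0, 0, 104, 0, 50, 0⟩, ⟨55, 23470, 2, 0, 104, 48, 0, 2, 0⟩], [⟨107, 6680, -162, 0, 56, 52, 0, -102, 0⟩]⟩,
  ⟨[⟨0, -105, 0, -1, 1, 0, 0, 0, 0⟩, ⟨0, 108, 0, 1, -1, 0, 0, 0, 0⟩], [⟨41, 14480, 2, 0, 38, 0, 78, 0, 0⟩], [⟨81, 6210, -122, 42, 40, 0, -78, 0, 0⟩]⟩,
  ⟨[⟨0, -750, 0, -1, 1, 0, 0, 0, 0⟩], [⟨7, 1910, 2, 0, 4, 0, 10, 0, 0⟩], [⟨13, 1220, -20, 8, 6, 0, -10, 0, 0⟩, ⟨10, 1558, -9, 4, 5, 0, 0, 0, 0⟩]⟩,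
  ⟨[⟨0, -101, 0, -1, 1, 0, 0, 0, 0⟩, ⟨0, 103, 0, 1, -1, 0, 0, 0, 0⟩], [⟨11, 3930, 2, 0, 8, 0, 18, 0, 0⟩], [⟨21, 1330, -32, 12, 10, 0, -18, 0, 0⟩, ⟨16, 2608, -15, 6, 9, 0, 0, 0, 0⟩]⟩,
  ⟨[⟨0, -300, 0, -1, 1, 0, 0, 0, 0⟩], [⟨3, 40, 2, 0, 0, 0, 2, 0, 0⟩, ⟨4, 619, -3, 2, 1, 0, 0, 0, 0⟩], [⟨5, 1160, -8, 4, 2, 0, -2, 0, 0⟩]⟩,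
  ⟨[⟨0, -84, 0, -1, 1, 0, 0, 0, 0⟩, ⟨0, 92, 0, 1, -1, 0, 0, 0, 0⟩], [⟨3, 20, 2, 0, 0, 0, 2, 0, 0⟩, ⟨4, 545, -3, 2, 1, 0, 0, 0, 0⟩], [⟨5, 1070, -8, 4, 2, 0, -2, 0, 0⟩]⟩,
  ⟨[⟨0, -200, 0, -1, 1, 0, 0, 0, 0⟩], [⟨6, 811, -5, 1, 2, 4, 0, -2, 0⟩], [⟨9, 1237, -12, 2, 4, 4, -4, -6, -4⟩]⟩]

def wg125 : List Wn := [
  ⟨[⟨0, -108, 0, -1, 1, 0, 0, 0, 0⟩, ⟨0, 114, 0, 1, -1, 0, 0, 0, 0⟩], [⟨7, 2110, 2, 0, 4, 0, 10, 0, 0⟩], [⟨13, 1110, -20, 8, 6, 0, -10, 0, 0⟩, ⟨10, 1587, -9, 4, 5, 0, 0, 0, 0⟩]⟩,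
  ⟨[⟨0, -600, 0, -1, 1, 0, 0, 0, 0⟩], [⟨18, 5170, 2, 1, 14, 0, 32, 0, 0⟩, ⟨26, 4020, -25, 10, 15, 0, 0, 0, 0⟩], [⟨34, 2850, -52, 19, 16, 0, -32, 0, 0⟩]⟩,
  ⟨[⟨0, -108, 0, -1, 1, 0, 0, 0, 0⟩, ⟨0, 114, 0, 1, -1, 0, 0, 0, 0⟩], [⟨22, 7370, 2, 1, 18, 0, 44, 0, 0⟩], [⟨44, 3360, -66, 23, 22, 0, -44, 0, 0⟩]⟩,
  ⟨[⟨0, -900, 0, -1, 1, 0, 0, 0, 0⟩], [⟨9, 1990, 2, 0, 6, 0, 16, 0, 0⟩], [⟨17, 1130, -26, 8, 10, 0, -16, 0, 0⟩]⟩,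
  ⟨[⟨0, -1200, 0, -1, 1, 0, 0, 0, 0⟩], [⟨19, 4970, 2, 0, 16, 0, 36, 0, 0⟩], [⟨37, 3760, -56, 18, 20, 0, -36, 0, 0⟩, ⟨28, 4354, -27, 9, 18, 0, 0, 0, 0⟩]⟩,
  ⟨[⟨0, -103, 0, -1, 1, 0, 0, 0, 0⟩, ⟨0, 105, 0, 1, -1, 0, 0, 0, 0⟩], [⟨5, 1500, 2, 0, 2, 0, 6, 0, 0⟩], [⟨9, 810, -14, 6, 4, 0, -6, 0, 0⟩]⟩,
  ⟨[⟨0, -530, 0, -1, 1, 0, 0, 0, 0⟩, ⟨0, 600, 0, 1, -1, 0, 0, 0, 0⟩], [⟨22, 6510, 2, 1, 18, 0, 40, 0, 0⟩, ⟨32, 4983, -31, 12, 19, 0, 0, 0, 0⟩], [⟨42, 3430, -64, 23, 20, 0, -40, 0, 0⟩]⟩,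
  ⟨[⟨0, -300, 0, -1, 1, 0, 0, 0, 0⟩], [⟨13, 3350, 2, 0, 10, 0, 26, 0, 0⟩], [⟨27, 2790, -40, 14, 14, 0, -26, 0, 0⟩, ⟨20, 2996, -19, 7, 12, 0, 0, 0, 0⟩]⟩,
  ⟨[⟨0, -99, 0, -1, 1, 0, 0, 0, 0⟩, ⟨0, 101, 0, 1, -1, 0, 0, 0, 0⟩], [⟨11, 3050, 2, 0, 8, 0, 10, 0, 0⟩], [⟨17, 1880, -28, 12, 6, 0, -10, 0, 0⟩, ⟨14, 2455, -13, 6, 7, 0, 0, 0, 0⟩]⟩,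
  ⟨[⟨0, -150, 0, -1, 1, 0, 0, 0, 0⟩, ⟨0, 165, 0, 1, -1, 0, 0, 0, 0⟩], [⟨6, 1460, 2, 0, 3, 0, 8, 0, 0⟩], [⟨10, 1090, -16, 6, 5, 0, -8, 0, 0⟩, ⟨8, 1264, -7, 3, 4, 0, 0, 0, 0⟩]⟩,
  ⟨[⟨0, -108, 0, -1, 1, 0, 0, 0, 0⟩, ⟨0, 114, 0, 1, -1, 0, 0, 0, 0⟩], [⟨19, 5920, 2, 0, 16, 0, 38, 0, 0⟩], [⟨39, 3690, -58, 20, 20, 0, -38, 0, 0⟩]⟩,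
  ⟨[⟨0, -1050, 0, -1, 1, 0, 0, 0, 0⟩, ⟨0, 1200, 0, 1, -1, 0, 0, 0, 0⟩], [⟨14, 4160, 2, 0, 11, 0, 26, 0, 0⟩], [⟨26, 2030, -40, 12, 15, 0, -26, 0, 0⟩, ⟨20, 3086, -19, 6, 13, 0, 0, 0, 0⟩]⟩,
  ⟨[⟨0, -200, 0, -1, 1, 0, 0, 0, 0⟩, ⟨0, 220, 0, 1, -1, 0, 0, 0, 0⟩], [⟨15, 4680, 2, 0, 12, 0, 26, 0, 0⟩], [⟨29, 2470, -44, 16, 14, 0, -26, 0, 0⟩, ⟨22, 3551, -21, 8, 13, 0, 0, 0, 0⟩]⟩,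
  ⟨[⟨0, -600, 0, -1, 1, 0, 0, 0, 0⟩], [⟨11, 3000, 2, 0, 8, 0, 22, 0, 0⟩], [⟨23, 2920, -34, 12, 12, 0, -22, 0, 0⟩]⟩,
  ⟨[], [⟨11, 5770, 2, 0, 8, 0, 16, 0, 0⟩, ⟨11, 4960, 2, 16, 6, 0, 2, 0, 0⟩], [⟨19, 1120, -30, 12, 8, 0, -16, 0, 0⟩]⟩,
  ⟨[⟨0, -126, 0, -1, 1, 0, 0, 0, 0⟩, ⟨0, 138, 0, 1, -1, 0, 0, 0, 0⟩], [⟨34, 12300, 2, 0, 31, 0, 68, 0, 0⟩], [⟨68, 4550, -102, 34, 35, 0, -68, 0, 0⟩]⟩]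

def wg126 : List Wn := [
  ⟨[⟨0, -1350, 0, -1, 1, 0, 0, 0, 0⟩], [⟨10, 2650, 2, 1, 6, 0, 20, 0, 0⟩], [⟨20, 740, -30, 11, 10, 0, -20, 0, 0⟩]⟩,
  ⟨[⟨0, -138, 0, -1, 1, 0, 0, 0, 0⟩, ⟨0, 150, 0, 1, -1, 0, 0, 0, 0⟩], [⟨7, 2100, 2, 0, 4, 0, 10, 0, 0⟩], [⟨13, 1130, -20, 8, 6, 0, -10, 0, 0⟩, ⟨10, 1597, -9, 4, 5, 0, 0, 0, 0⟩]⟩,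
  ⟨[⟨0, -245, 0, -1, 1, 0, 0, 0, 0⟩, ⟨0, 270, 0, 1, -1, 0, 0, 0, 0⟩], [⟨29, 9860, 2, 0, 26, 0, 54, 0, 0⟩], [⟨57, 4090, -86, 30, 28, 0, -54, 0, 0⟩]⟩,
  ⟨[⟨0, -114, 0, -1, 1, 0, 0, 0, 0⟩, ⟨0, 126, 0, 1, -1, 0, 0, 0, 0⟩], [⟨13, 4310, 2, 0, 10, 0, 22, 0, 0⟩], [⟨25, 2030, -38, 14, 12, 0, -22, 0, 0⟩]⟩,
  ⟨[⟨0, -450, 0, -1, 1, 0, 0, 0, 0⟩], [⟨3, 420, 2, 0, 0, 0, 6, 0, 0⟩], [⟨7, 880, -10, 4, 4, 0, -6, 0, 0⟩]⟩,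
  ⟨[⟨48, -17231, -152, 52, -52, 0, -144, 0, 0⟩, ⟨48, -17231, -152, 4, -52, 0, -96, 0, 0⟩, ⟨50, -19571, -160, 54, -52, 0, -152, 0, 0⟩, ⟨50, -19571, -160, 6, -52, 0, -104, 0, 0⟩], [⟨51, 21490, 2, 0, 96, 0, 46, 0, 0⟩, ⟨51, 21490, 2, 44, 96, 0, 2, 0, 0⟩], []⟩,
  ⟨[⟨0, -1200, 0, 0, -1, 1, 0, 0, 0⟩], [⟨5, 1240, 2, 0, 0, 2, 0, 6, 0⟩], [⟨9, 930, -14, 0, 6, 4, 0, -6, 0⟩]⟩,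
  ⟨[⟨0, -200, 0, -1, 1, 0, 0, 0, 0⟩, ⟨0, 220, 0, 1, -1, 0, 0, 0, 0⟩], [⟨5, 1160, 2, 0, 2, 0, 6, 0, 0⟩], [⟨9, 200, -14, 6, 4, 0, -6, 0, 0⟩]⟩,
  ⟨[⟨0, -1200, 0, -1, 1, 0, 0, 0, 0⟩], [⟨5, 1240, 2, 0, 2, 0, 6, 0, 0⟩], [⟨9, 930, -14, 6, 4, 0, -6, 0, 0⟩]⟩,
  ⟨[⟨0, -600, 0, 0, -1, 1, 0, 0, 0⟩], [⟨7, 1910, 2, 0, 0, 4, 0, 10, 0⟩], [⟨13, 1220, -20, 0, 8, 6, 0, -10, 0⟩, ⟨10, 1557, -9, 0, 4, 5, 0, 0, 0⟩]⟩,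
  ⟨[⟨0, -750, 0, -1, 1, 0, 0, 0, 0⟩, ⟨0, 825, 0, 1, -1, 0, 0, 0, 0⟩], [⟨13, 3230, 2, 0, 10, 0, 26, 0, 0⟩], [⟨27, 2790, -40, 14, 14, 0, -26, 0, 0⟩, ⟨20, 2998, -19, 7, 12, 0, 0, 0, 0⟩]⟩,
  ⟨[⟨0, -600, 0, -1, 1, 0, 0, 0, 0⟩], [⟨7, 1910, 2, 0, 4, 0, 10, 0, 0⟩], [⟨13, 1220, -20, 8, 6, 0, -10, 0, 0⟩, ⟨10, 1557, -9, 4, 5, 0, 0, 0, 0⟩]⟩,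
  ⟨[⟨0, -138, 0, -1, 1, 0, 0, 0, 0⟩, ⟨0, 150, 0, 1, -1, 0, 0, 0, 0⟩], [⟨19, 5740, 2, 0, 16, 0, 38, 0, 0⟩], [⟨39, 3690, -58, 20, 20, 0, -38, 0, 0⟩]⟩,
  ⟨[⟨0, -1350, 0, -1, 1, 0, 0, 0, 0⟩], [⟨23, 7570, 2, 0, 20, 0, 42, 0, 0⟩], [⟨45, 3180, -68, 24, 22, 0, -42, 0, 0⟩, ⟨34, 5362, -33, 12, 21, 0, 0, 0, 0⟩]⟩,
  ⟨[⟨0, -1200, 0, 0, -1, 1, 0, 0, 0⟩], [⟨3, 10, 2, 0, 0, 0, 0, 2, 0⟩], [⟨5, 1190, -8, 0, 4, 2, 0, -2, 0⟩, ⟨4, 597, -3, 0, 2, 1, 0, 0, 0⟩]⟩,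
  ⟨[⟨0, -1350, 0, -1, 1, 0, 0, 0, 0⟩], [⟨3, 10, 2, 0, 0, 0, 2, 0, 0⟩], [⟨5, 1190, -8, 4, 2, 0, -2, 0, 0⟩, ⟨4, 597, -3, 2, 1, 0, 0, 0, 0⟩]⟩]

def wg127 : List Wn := [
  ⟨[], [⟨3, 870, 2, 6, 0, 0, 2, 4, 2⟩, ⟨3, 870, 2, 0, 6, 0, 2, 2, 4⟩, ⟨6, 623, -5, 2, 2, 1, 0, 0, 0⟩], [⟨9, 1206, -12, 4, 4, 2, -6, -4, -4⟩]⟩,
  ⟨[⟨0, -450, 0, -1, 1, 0, 0, 0, 0⟩], [⟨18, 5210, 2, 1, 14, 0, 32, 0, 0⟩, ⟨26, 4040, -25, 10, 15, 0, 0, 0, 0⟩], [⟨34, 2850, -52, 19, 16, 0, -32, 0, 0⟩]⟩,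
  ⟨[], [⟨33, 9870, 2, 0, 64, 0, 32, 0, 0⟩, ⟨33, 13020, 2, 64, 30, 0, 2, 0, 0⟩, ⟨50, 9020, -49, 17, 32, 0, 0, 0, 0⟩], [⟨67, 5610, -100, 34, 34, 0, -66, 0, 0⟩]⟩,
  ⟨[⟨0, -1050, 0, -1, 1, 0, 0, 0, 0⟩], [⟨19, 4970, 2, 0, 16, 0, 36, 0, 0⟩], [⟨37, 3760, -56, 18, 20, 0, -36, 0, 0⟩, ⟨28, 4354, -27, 9, 18, 0, 0, 0, 0⟩]⟩,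
  ⟨[⟨0, -597, 0, -1, 1, 0, 0, 0, 0⟩], [⟨53, 22480, 2, 0, 50, 0, 102, 0, 0⟩, ⟨53, 21650, 2, 102, 48, 0, 2, 0, 0⟩], [⟨105, 7160, -158, 54, 52, 0, -102, 0, 0⟩]⟩,
  ⟨[⟨0, -38, 0, -1, 1, 0, 0, 0, 0⟩, ⟨0, 50, 0, 1, -1, 0, 0, 0, 0⟩], [⟨9, 2020, 2, 14, 4, 0, 2, 0, 0⟩], [⟨17, 1950, -26, 10, 8, 0, -14, 0, 0⟩]⟩,
  ⟨[⟨0, -126, 0, -1, 1, 0, 0, 0, 0⟩, ⟨0, 138, 0, 1, -1, 0, 0, 0, 0⟩], [⟨7, 1960, 2, 0, 4, 0, 14, 0, 0⟩], [⟨15, 1490, -22, 8, 8, 0, -14, 0, 0⟩]⟩,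
  ⟨[⟨0, -10, 0, -1, 1, 0, 0, 0, 0⟩, ⟨0, 18, 0, 1, -1, 0, 0, 0, 0⟩], [⟨4, 1610, 2, 6, 1, 0, 2, 0, 0⟩], [⟨8, 820, -12, 4, 5, 0, -8, 0, 0⟩]⟩,
  ⟨[], [⟨13, 5470, 2, 0, 10, 0, 22, 0, 0⟩, ⟨13, 3710, 2, 8, 22, 0, 2, 0, 0⟩], [⟨25, 1940, -38, 14, 12, 0, -22, 0, 0⟩]⟩,
  ⟨[⟨0, -101, 0, -1, 1, 0, 0, 0, 0⟩, ⟨0, 103, 0, 1, -1, 0, 0, 0, 0⟩], [⟨15, 5000, 2, 0, 12, 0, 30, 0, 0⟩], [⟨31, 2710, -46, 16, 16, 0, -30, 0, 0⟩]⟩,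
  ⟨[⟨0, -500, 0, 0, -1, 1, 0, 0, 0⟩], [⟨11, 3020, 2, 0, 0, 8, 0, 22, 0⟩], [⟨23, 2920, -34, 0, 12, 12, 0, -22, 0⟩]⟩,
  ⟨[⟨0, -126, 0, -1, 1, 0, 0, 0, 0⟩, ⟨0, 138, 0, 1, -1, 0, 0, 0, 0⟩], [⟨3, 290, 2, 0, 0, 0, 4, 0, 0⟩], [⟨5, 880, -8, 2, 4, 0, -4, 0, 0⟩, ⟨4, 578, -3, 1, 2, 0, 0, 0, 0⟩]⟩,
  ⟨[⟨0, -450, 0, -1, 1, 0, 0, 0, 0⟩], [⟨11, 3030, 2, 0, 8, 0, 22, 0, 0⟩], [⟨23, 2920, -34, 12, 12, 0, -22, 0, 0⟩]⟩,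
  ⟨[⟨0, -1200, 0, -1, 1, 0, 0, 0, 0⟩], [⟨10, 2650, 2, 1, 6, 0, 20, 0, 0⟩], [⟨20, 740, -30, 11, 10, 0, -20, 0, 0⟩]⟩,
  ⟨[⟨0, -201, 0, -1, 1, 0, 0, 0, 0⟩], [⟨7, 1010, 2, 0, 4, 0, 2, 0, 0⟩, ⟨7, 1470, 2, 6, -2, 0, 2, 0, 0⟩, ⟨8, 1450, -7, 4, 3, 0, 0, 0, 0⟩], [⟨9, 2100, -16, 8, 2, 0, -2, 0, 0⟩]⟩,
  ⟨[⟨0, -150, 0, 0, -1, 1, 0, 0, 0⟩, ⟨0, 200, 0, 0, 1, -1, 0, 0, 0⟩], [⟨33, 10740, 2, 0, 0, 30, 0, 62, 0⟩], [⟨65, 5550, -98, 0, 34, 32, 0, -62, 0⟩]⟩]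

def wg128 : List Wn := [
  ⟨[⟨0, -101, 0, -1, 1, 0, 0, 0, 0⟩, ⟨0, 103, 0, 1, -1, 0, 0, 0, 0⟩], [⟨14, 4620, 2, 0, 11, 0, 26, 0, 0⟩], [⟨26, 2030, -40, 12, 15, 0, -26, 0, 0⟩, ⟨20, 3304, -19, 6, 13, 0, 0, 0, 0⟩]⟩,
  ⟨[⟨0, -300, 0, -1, 1, 0, 0, 0, 0⟩], [⟨3, 450, 2, 0, 0, 0, 6, 0, 0⟩], [⟨7, 880, -10, 4, 4, 0, -6, 0, 0⟩]⟩,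
  ⟨[⟨0, -245, 0, -1, 1, 0, 0, 0, 0⟩, ⟨0, 270, 0, 1, -1, 0, 0, 0, 0⟩], [⟨21, 5780, 2, 0, 18, 0, 42, 0, 0⟩, ⟨32, 5061, -31, 11, 20, 0, 0, 0, 0⟩], [⟨43, 4330, -64, 22, 22, 0, -42, 0, 0⟩]⟩,
  ⟨[], [⟨43, 17150, 2, 0, 40, 0, 86, 0, 0⟩, ⟨43, 16510, 2, 84, 40, 0, 2, 0, 0⟩], [⟨87, 7030, -130, 44, 44, 0, -86, 0, 0⟩]⟩,
  ⟨[⟨52, -18541, -164, 56, -56, 0, -156, 0, 0⟩, ⟨52, -18541, -164, 4, -56, 0, -104, 0, 0⟩, ⟨54, -20911, -172, 58, -56, 0, -164, 0, 0⟩, ⟨54, -20911, -172, 6, -56, 0, -112, 0, 0⟩], [⟨55, 23120, 2, 0, 104, 0, 50, 0, 0⟩, ⟨55, 23120, 2, 48, 104, 0, 2, 0, 0⟩], []⟩,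
  ⟨[⟨0, -200, 0, -1, 1, 0, 0, 0, 0⟩, ⟨0, 220, 0, 1, -1, 0, 0, 0, 0⟩], [⟨5, 2010, 2, 0, 2, 0, 6, 0, 0⟩], [⟨9, 1050, -14, 6, 4, 0, -6, 0, 0⟩]⟩,
  ⟨[⟨0, -1050, 0, -1, 1, 0, 0, 0, 0⟩], [⟨5, 1240, 2, 0, 2, 0, 6, 0, 0⟩], [⟨9, 930, -14, 6, 4, 0, -6, 0, 0⟩]⟩,
  ⟨[⟨0, -1350, 0, -1, 1, 0, 0, 0, 0⟩], [⟨15, 4870, 2, 0, 12, 0, 22, 0, 0⟩], [⟨27, 2030, -42, 16, 12, 0, -22, 0, 0⟩]⟩,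
  ⟨[⟨0, -500, 0, 0, -1, 1, 0, 0, 0⟩], [⟨7, 1920, 2, 0, 0, 4, 0, 10, 0⟩], [⟨13, 1210, -20, 0, 8, 6, 0, -10, 0⟩, ⟨10, 1555, -9, 0, 4, 5, 0, 0, 0⟩]⟩,
  ⟨[⟨0, -450, 0, -1, 1, 0, 0, 0, 0⟩], [⟨7, 1930, 2, 0, 4, 0, 10, 0, 0⟩], [⟨13, 1210, -20, 8, 6, 0, -10, 0, 0⟩, ⟨10, 1553, -9, 4, 5, 0, 0, 0, 0⟩]⟩,
  ⟨[⟨0, -1000, 0, 0, -1, 1, 0, 0, 0⟩], [⟨3, 10, 2, 0, 0, 0, 0, 2, 0⟩], [⟨5, 1190, -8, 0, 4, 2, 0, -2, 0⟩, ⟨4, 597, -3, 0, 2, 1, 0, 0, 0⟩]⟩,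
  ⟨[⟨0, -1200, 0, -1, 1, 0, 0, 0, 0⟩], [⟨3, 10, 2, 0, 0, 0, 2, 0, 0⟩], [⟨5, 1190, -8, 4, 2, 0, -2, 0, 0⟩, ⟨4, 597, -3, 2, 1, 0, 0, 0, 0⟩]⟩,
  ⟨[⟨0, -99, 0, -1, 1, 0, 0, 0, 0⟩, ⟨0, 101, 0, 1, -1, 0, 0, 0, 0⟩], [⟨30, 10140, 2, 0, 27, 0, 60, 0, 0⟩], [⟨60, 5130, -90, 30, 31, 0, -60, 0, 0⟩]⟩,
  ⟨[⟨0, -300, 0, -1, 1, 0, 0, 0, 0⟩], [⟨18, 5320, 2, 1, 14, 0, 32, 0, 0⟩, ⟨26, 4097, -25, 10, 15, 0, 0, 0, 0⟩], [⟨34, 2830, -52, 19, 16, 0, -32, 0, 0⟩]⟩,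
  ⟨[⟨0, -165, 0, -1, 1, 0, 0, 0, 0⟩, ⟨0, 180, 0, 1, -1, 0, 0, 0, 0⟩], [⟨34, 12050, 2, 0, 31, 0, 68, 0, 0⟩], [⟨68, 4550, -102, 34, 35, 0, -68, 0, 0⟩]⟩,
  ⟨[⟨0, -103, 0, -1, 1, 0, 0, 0, 0⟩, ⟨0, 105, 0, 1, -1, 0, 0, 0, 0⟩], [⟨13, 4380, 2, 0, 10, 0, 22, 0, 0⟩], [⟨25, 2020, -38, 14, 12, 0, -22, 0, 0⟩]⟩]

def wg129 : List Wn := [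
  ⟨[⟨0, -900, 0, -1, 1, 0, 0, 0, 0⟩], [⟨19, 4970, 2, 0, 16, 0, 36, 0, 0⟩], [⟨37, 3760, -56, 18, 20, 0, -36, 0, 0⟩, ⟨28, 4354, -27, 9, 18, 0, 0, 0, 0⟩]⟩,
  ⟨[⟨0, -399, 0, -1, 1, 0, 0, 0, 0⟩], [⟨53, 22480, 2, 0, 50, 0, 102, 0, 0⟩, ⟨53, 21650, 2, 102, 48, 0, 2, 0, 0⟩], [⟨105, 7150, -158, 54, 52, 0, -102, 0, 0⟩]⟩,
  ⟨[⟨0, -150, 0, -1, 1, 0, 0, 0, 0⟩, ⟨0, 165, 0, 1, -1, 0, 0, 0, 0⟩], [⟨13, 4200, 2, 0, 10, 0, 22, 0, 0⟩], [⟨25, 2050, -38, 14, 12, 0, -22, 0, 0⟩]⟩,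
  ⟨[⟨0, -200, 0, 0, -1, 1, 0, 0, 0⟩], [⟨13, 3470, 2, 0, 0, 10, 0, 26, 0⟩], [⟨27, 2790, -40, 0, 14, 14, 0, -26, 0⟩, ⟨20, 2996, -19, 0, 7, 12, 0, 0, 0⟩]⟩,
  ⟨[⟨0, -1350, 0, -1, 1, 0, 0, 0, 0⟩], [⟨30, 8200, 2, 1, 26, 0, 58, 0, 0⟩, ⟨44, 6719, -43, 16, 27, 0, 0, 0, 0⟩], [⟨58, 5210, -88, 31, 28, 0, -58, 0, 0⟩]⟩,
  ⟨[⟨0, 99, 0, 1, -1, 0, 0, 0, 0⟩], [⟨17, 5500, 2, 0, 14, 0, 34, 0, 0⟩, ⟨17, 4420, 2, 14, 32, 0, 2, 0, 0⟩], [⟨35, 3490, -52, 18, 18, 0, -34, 0, 0⟩]⟩,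
  ⟨[⟨0, -200, 0, 0, -1, 1, 0, 0, 0⟩], [⟨21, 7030, 2, 0, 0, 18, 0, 34, 0⟩, ⟨30, 5078, -29, 0, 11, 18, 0, 0, 0⟩], [⟨39, 2990, -60, 0, 22, 18, 0, -34, 0⟩]⟩,
  ⟨[⟨0, -300, 0, -1, 1, 0, 0, 0, 0⟩], [⟨11, 3100, 2, 0, 8, 0, 22, 0, 0⟩], [⟨23, 2920, -34, 12, 12, 0, -22, 0, 0⟩]⟩,
  ⟨[⟨0, -159, 0, -1, 1, 0, 0, 0, 0⟩], [⟨7, 1010, 2, 0, 4, 0, 2, 0, 0⟩, ⟨7, 1470, 2, 6, -2, 0, 2, 0, 0⟩, ⟨8, 1470, -7, 4, 3, 0, 0, 0, 0⟩], [⟨9, 2060, -16, 8, 2, 0, -2, 0, 0⟩]⟩,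
  ⟨[⟨0, -60, 0, 0, -1, 1, 0, 0, 0⟩, ⟨0, 100, 0, 0, 1, -1, 0, 0, 0⟩], [⟨5, 1180, 2, 0, 4, -2, 0, 2, 0⟩, ⟨6, 1210, -5, 0, 5, 0, 0, 0, 0⟩], [⟨7, 1180, -12, 0, 6, 2, 0, -2, 0⟩]⟩,
  ⟨[⟨0, -93, 0, 0, -1, 1, 0, 0, 0⟩], [⟨19, 6520, 2, 0, 0, 32, 0, 14, 0⟩, ⟨19, 8130, 2, 0, 32, 12, 0, 2, 0⟩], [⟨35, 2090, -54, 0, 20, 16, 0, -30, 0⟩]⟩,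
  ⟨[⟨0, -1350, 0, -1, 1, 0, 0, 0, 0⟩], [⟨24, 7550, 2, 0, 21, 0, 48, 0, 0⟩, ⟨36, 5546, -35, 12, 23, 0, 0, 0, 0⟩], [⟨48, 3520, -72, 24, 25, 0, -48, 0, 0⟩]⟩,
  ⟨[⟨0, -23, 0, 0, -1, 1, 0, 0, 0⟩, ⟨0, 60, 0, 0, 1, -1, 0, 0, 0⟩], [⟨23, 8180, 2, 0, 42, 18, 0, 2, 0⟩], [⟨45, 2800, -68, 0, 24, 22, 0, -42, 0⟩]⟩,
  ⟨[⟨0, -92, 0, -1, 1, 0, 0, 0, 0⟩, ⟨0, 99, 0, 1, -1, 0, 0, 0, 0⟩], [⟨3, 10, 2, 0, 0, 0, 2, 0, 0⟩, ⟨4, 547, -3, 2, 1, 0, 0, 0, 0⟩], [⟨5, 1070, -8, 4, 2, 0, -2, 0, 0⟩]⟩,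
  ⟨[⟨0, -1350, 0, -1, 1, 0, 0, 0, 0⟩], [⟨3, 1070, 2, 0, 0, 0, 6, 0, 0⟩], [⟨7, 1060, -10, 4, 4, 0, -6, 0, 0⟩]⟩,
  ⟨[⟨0, -165, 0, -1, 1, 0, 0, 0, 0⟩, ⟨0, 180, 0, 1, -1, 0, 0, 0, 0⟩], [⟨7, 1860, 2, 0, 4, 0, 14, 0, 0⟩], [⟨15, 1490, -22, 8, 8, 0, -14, 0, 0⟩]⟩]

def wg130 : List Wn := [
  ⟨[⟨0, -150, 0, 0, -1, 1, 0, 0, 0⟩, ⟨0, 200, 0, 0, 1, -1, 0, 0, 0⟩], [⟨25, 7870, 2, 0, 0, 22, 0, 50, 0⟩, ⟨38, 6206, -37, 0, 13, 24, 0, 0, 0⟩], [⟨51, 4520, -76, 0, 26, 26, 0, -50, 0⟩]⟩,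
  ⟨[⟨56, -19861, -176, 60, -60, 0, -168, 0, 0⟩, ⟨56, -19861, -176, 4, -60, 0, -112, 0, 0⟩, ⟨58, -22241, -184, 62, -60, 0, -176, 0, 0⟩, ⟨58, -22241, -184, 6, -60, 0, -120, 0, 0⟩], [⟨59, 24750, 2, 0, 112, 0, 54, 0, 0⟩, ⟨59, 24750, 2, 52, 112, 0, 2, 0, 0⟩], []⟩,
  ⟨[], [⟨5, 920, 2, 0, 2, 0, 4, 0, 0⟩, ⟨5, 1670, 2, 4, 0, 0, 2, 0, 0⟩, ⟨6, 1070, -5, 3, 2, 0, 0, 0, 0⟩], [⟨7, 1060, -12, 6, 2, 0, -4, 0, 0⟩]⟩,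
  ⟨[], [⟨51, 15490, 2, 0, 100, 0, 50, 0, 0⟩, ⟨51, 19970, 2, 100, 48, 0, 2, 0, 0⟩], [⟨103, 8610, -154, 52, 52, 0, -102, 0, 0⟩]⟩,
  ⟨[⟨0, -800, 0, 0, -1, 1, 0, 0, 0⟩], [⟨5, 1240, 2, 0, 0, 2, 0, 6, 0⟩], [⟨9, 930, -14, 0, 6, 4, 0, -6, 0⟩]⟩,
  ⟨[], [⟨19, 7270, 2, 0, 16, 0, 38, 0, 0⟩, ⟨19, 5200, 2, 16, 36, 0, 2, 0, 0⟩], [⟨39, 3690, -58, 20, 20, 0, -38, 0, 0⟩]⟩,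
  ⟨[⟨0, -900, 0, -1, 1, 0, 0, 0, 0⟩], [⟨5, 1240, 2, 0, 2, 0, 6, 0, 0⟩], [⟨9, 930, -14, 6, 4, 0, -6, 0, 0⟩]⟩,
  ⟨[⟨0, -1200, 0, -1, 1, 0, 0, 0, 0⟩], [⟨15, 4870, 2, 0, 12, 0, 22, 0, 0⟩], [⟨27, 2030, -42, 16, 12, 0, -22, 0, 0⟩]⟩,
  ⟨[⟨0, -23, 0, 0, -1, 1, 0, 0, 0⟩, ⟨0, 60, 0, 0, 1, -1, 0, 0, 0⟩], [⟨7, 2800, 2, 0, 10, 2, 0, 2, 0⟩], [⟨13, 1030, -20, 0, 8, 6, 0, -10, 0⟩]⟩,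
  ⟨[⟨0, -300, 0, -1, 1, 0, 0, 0, 0⟩], [⟨7, 1970, 2, 0, 4, 0, 10, 0, 0⟩], [⟨13, 1190, -20, 8, 6, 0, -10, 0, 0⟩, ⟨10, 1542, -9, 4, 5, 0, 0, 0, 0⟩]⟩,
  ⟨[⟨0, -800, 0, 0, -1, 1, 0, 0, 0⟩], [⟨3, 10, 2, 0, 0, 0, 0, 2, 0⟩], [⟨5, 1190, -8, 0, 4, 2, 0, -2, 0⟩, ⟨4, 596, -3, 0, 2, 1, 0, 0, 0⟩]⟩,
  ⟨[⟨0, -1050, 0, -1, 1, 0, 0, 0, 0⟩], [⟨3, 10, 2, 0, 0, 0, 2, 0, 0⟩], [⟨5, 1190, -8, 4, 2, 0, -2, 0, 0⟩, ⟨4, 597, -3, 2, 1, 0, 0, 0, 0⟩]⟩,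
  ⟨[⟨0, -165, 0, -1, 1, 0, 0, 0, 0⟩, ⟨0, 180, 0, 1, -1, 0, 0, 0, 0⟩], [⟨3, 270, 2, 0, 0, 0, 4, 0, 0⟩], [⟨5, 880, -8, 2, 4, 0, -4, 0, 0⟩, ⟨4, 565, -3, 1, 2, 0, 0, 0, 0⟩]⟩,
  ⟨[⟨0, -105, 0, -1, 1, 0, 0, 0, 0⟩, ⟨0, 108, 0, 1, -1, 0, 0, 0, 0⟩], [⟨34, 12500, 2, 0, 31, 0, 68, 0, 0⟩], [⟨68, 4550, -102, 34, 35, 0, -68, 0, 0⟩]⟩,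
  ⟨[⟨0, -750, 0, -1, 1, 0, 0, 0, 0⟩], [⟨19, 4980, 2, 0, 16, 0, 36, 0, 0⟩], [⟨37, 3760, -56, 18, 20, 0, -36, 0, 0⟩, ⟨28, 4354, -27, 9, 18, 0, 0, 0, 0⟩]⟩,
  ⟨[⟨0, -180, 0, -1, 1, 0, 0, 0, 0⟩, ⟨0, 200, 0, 1, -1, 0, 0, 0, 0⟩], [⟨7, 2060, 2, 0, 4, 0, 10, 0, 0⟩], [⟨13, 1150, -20, 8, 6, 0, -10, 0, 0⟩, ⟨10, 1587, -9, 4, 5, 0, 0, 0, 0⟩]⟩]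

def wg131 : List Wn := [
  ⟨[⟨0, -301, 0, -1, 1, 0, 0, 0, 0⟩], [⟨53, 22480, 2, 0, 50, 0, 102, 0, 0⟩, ⟨53, 21650, 2, 102, 48, 0, 2, 0, 0⟩], [⟨105, 7130, -158, 54, 52, 0, -102, 0, 0⟩]⟩,
  ⟨[⟨0, -126, 0, -1, 1, 0, 0, 0, 0⟩, ⟨0, 138, 0, 1, -1, 0, 0, 0, 0⟩], [⟨7, 2620, 2, 0, 4, 0, 14, 0, 0⟩], [⟨15, 1680, -22, 8, 8, 0, -14, 0, 0⟩]⟩,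
  ⟨[⟨0, -180, 0, -1, 1, 0, 0, 0, 0⟩, ⟨0, 200, 0, 1, -1, 0, 0, 0, 0⟩], [⟨22, 7080, 2, 1, 18, 0, 44, 0, 0⟩], [⟨44, 3360, -66, 23, 22, 0, -44, 0, 0⟩]⟩,
  ⟨[⟨0, -138, 0, -1, 1, 0, 0, 0, 0⟩, ⟨0, 150, 0, 1, -1, 0, 0, 0, 0⟩], [⟨18, 5660, 2, 0, 15, 0, 34, 0, 0⟩], [⟨34, 2860, -52, 16, 19, 0, -34, 0, 0⟩, ⟨26, 4232, -25, 8, 17, 0, 0, 0, 0⟩]⟩,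
  ⟨[⟨0, -1200, 0, -1, 1, 0, 0, 0, 0⟩], [⟨30, 8200, 2, 1, 26, 0, 58, 0, 0⟩, ⟨44, 6719, -43, 16, 27, 0, 0, 0, 0⟩], [⟨58, 5210, -88, 31, 28, 0, -58, 0, 0⟩]⟩,
  ⟨[⟨0, -165, 0, -1, 1, 0, 0, 0, 0⟩, ⟨0, 180, 0, 1, -1, 0, 0, 0, 0⟩], [⟨15, 5510, 2, 0, 12, 0, 18, 0, 0⟩], [⟨25, 1420, -40, 16, 10, 0, -18, 0, 0⟩, ⟨20, 3445, -19, 8, 11, 0, 0, 0, 0⟩]⟩,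
  ⟨[⟨0, -900, 0, -1, 1, 0, 0, 0, 0⟩, ⟨0, 1050, 0, 1, -1, 0, 0, 0, 0⟩], [⟨26, 8320, 2, 0, 23, 0, 50, 0, 0⟩], [⟨50, 3580, -76, 24, 27, 0, -50, 0, 0⟩, ⟨38, 5937, -37, 12, 25, 0, 0, 0, 0⟩]⟩,
  ⟨[⟨0, -99, 0, -1, 1, 0, 0, 0, 0⟩, ⟨0, 101, 0, 1, -1, 0, 0, 0, 0⟩], [⟨4, 900, 2, 0, 1, 0, 8, 0, 0⟩, ⟨6, 406, -5, 2, 3, 0, 0, 0, 0⟩], [⟨8, 820, -12, 4, 5, 0, -8, 0, 0⟩]⟩,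
  ⟨[⟨0, -245, 0, -1, 1, 0, 0, 0, 0⟩, ⟨0, 270, 0, 1, -1, 0, 0, 0, 0⟩], [⟨10, 2860, 2, 1, 6, 0, 16, 0, 0⟩, ⟨14, 2157, -13, 6, 7, 0, 0, 0, 0⟩], [⟨18, 1440, -28, 11, 8, 0, -16, 0, 0⟩]⟩,
  ⟨[⟨0, 99, 0, 1, -1, 0, 0, 0, 0⟩], [⟨17, 5500, 2, 0, 14, 0, 34, 0, 0⟩, ⟨17, 5700, 2, 32, 14, 0, 2, 0, 0⟩], [⟨35, 3490, -52, 18, 18, 0, -34, 0, 0⟩]⟩,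
  ⟨[⟨0, -300, 0, 0, -1, 1, 0, 0, 0⟩], [⟨11, 3100, 2, 0, 0, 8, 0, 22, 0⟩], [⟨23, 2920, -34, 0, 12, 12, 0, -22, 0⟩]⟩,
  ⟨[⟨0, -180, 0, -1, 1, 0, 0, 0, 0⟩, ⟨0, 200, 0, 1, -1, 0, 0, 0, 0⟩], [⟨19, 5590, 2, 0, 16, 0, 38, 0, 0⟩], [⟨39, 3690, -58, 20, 20, 0, -38, 0, 0⟩]⟩,
  ⟨[⟨0, -220, 0, -1, 1, 0, 0, 0, 0⟩, ⟨0, 245, 0, 1, -1, 0, 0, 0, 0⟩], [⟨41, 13640, 2, 0, 38, 0, 78, 0, 0⟩], [⟨81, 6270, -122, 42, 40, 0, -78, 0, 0⟩]⟩,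
  ⟨[⟨0, -133, 0, -1, 1, 0, 0, 0, 0⟩], [⟨7, 1010, 2, 0, 4, 0, 2, 0, 0⟩, ⟨7, 1470, 2, 6, -2, 0, 2, 0, 0⟩, ⟨8, 1480, -7, 4, 3, 0, 0, 0, 0⟩], [⟨9, 2040, -16, 8, 2, 0, -2, 0, 0⟩]⟩,
  ⟨[], [⟨19, 6520, 2, 0, 0, 32, 0, 14, 0⟩, ⟨19, 8130, 2, 0, 32, 12, 0, 2, 0⟩], [⟨35, 1940, -54, 0, 20, 16, 0, -30, 0⟩]⟩,
  ⟨[⟨0, -1200, 0, -1, 1, 0, 0, 0, 0⟩], [⟨24, 7550, 2, 0, 21, 0, 48, 0, 0⟩, ⟨36, 5546, -35, 12, 23, 0, 0, 0, 0⟩], [⟨48, 3520, -72, 24, 25, 0, -48, 0, 0⟩]⟩]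

def wg132 : List Wn := [
  ⟨[⟨0, -1200, 0, 0, -1, 1, 0, 0, 0⟩], [⟨3, 1070, 2, 0, 0, 0, 0, 6, 0⟩], [⟨7, 1060, -10, 0, 4, 4, 0, -6, 0⟩]⟩,
  ⟨[], [⟨23, 7570, 2, 0, 42, 0, 20, 0, 0⟩, ⟨23, 9740, 2, 42, 18, 0, 2, 0, 0⟩, ⟨34, 6240, -33, 12, 21, 0, 0, 0, 0⟩], [⟨45, 2950, -68, 24, 22, 0, -42, 0, 0⟩]⟩,
  ⟨[⟨0, -1200, 0, -1, 1, 0, 0, 0, 0⟩], [⟨3, 1070, 2, 0, 0, 0, 6, 0, 0⟩], [⟨7, 1060, -10, 4, 4, 0, -6, 0, 0⟩]⟩,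
  ⟨[⟨0, -245, 0, -1, 1, 0, 0, 0, 0⟩, ⟨0, 270, 0, 1, -1, 0, 0, 0, 0⟩], [⟨22, 7040, 2, 0, 19, 0, 44, 0, 0⟩], [⟨44, 3360, -66, 22, 23, 0, -44, 0, 0⟩]⟩,
  ⟨[⟨60, -21181, -188, 64, -64, 0, -180, 0, 0⟩, ⟨60, -21181, -188, 4, -64, 0, -120, 0, 0⟩, ⟨62, -23581, -196, 66, -64, 0, -188, 0, 0⟩, ⟨62, -23581, -196, 6, -64, 0, -128, 0, 0⟩], [⟨63, 26380, 2, 0, 120, 0, 58, 0, 0⟩, ⟨63, 26380, 2, 56, 120, 0, 2, 0, 0⟩], []⟩,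
  ⟨[], [⟨51, 19510, 2, 0, 48, 0, 102, 0, 0⟩, ⟨51, 19510, 2, 100, 48, 0, 2, 0, 0⟩], [⟨103, 8610, -154, 52, 52, 0, -102, 0, 0⟩]⟩,
  ⟨[⟨0, -200, 0, -1, 1, 0, 0, 0, 0⟩, ⟨0, 220, 0, 1, -1, 0, 0, 0, 0⟩], [⟨6, 1440, 2, 0, 3, 0, 8, 0, 0⟩], [⟨10, 1120, -16, 6, 5, 0, -8, 0, 0⟩, ⟨8, 1270, -7, 3, 4, 0, 0, 0, 0⟩]⟩,
  ⟨[], [⟨19, 7270, 2, 0, 16, 0, 38, 0, 0⟩, ⟨19, 6630, 2, 36, 16, 0, 2, 0, 0⟩], [⟨39, 3690, -58, 20, 20, 0, -38, 0, 0⟩]⟩,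
  ⟨[⟨0, -750, 0, -1, 1, 0, 0, 0, 0⟩], [⟨5, 1240, 2, 0, 2, 0, 6, 0, 0⟩], [⟨9, 930, -14, 6, 4, 0, -6, 0, 0⟩]⟩,
  ⟨[⟨0, -600, 0, 0, -1, 1, 0, 0, 0⟩], [⟨3, 10, 2, 0, 0, 0, 0, 2, 0⟩], [⟨5, 1190, -8, 0, 4, 2, 0, -2, 0⟩, ⟨4, 592, -3, 0, 2, 1, 0, 0, 0⟩]⟩,
  ⟨[⟨0, -900, 0, -1, 1, 0, 0, 0, 0⟩], [⟨3, 10, 2, 0, 0, 0, 2, 0, 0⟩], [⟨5, 1190, -8, 4, 2, 0, -2, 0, 0⟩, ⟨4, 596, -3, 2, 1, 0, 0, 0, 0⟩]⟩,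
  ⟨[⟨0, -93, 0, 0, -1, 1, 0, 0, 0⟩], [⟨13, 3220, 2, 0, 0, 24, 0, 12, 0⟩, ⟨13, 4860, 2, 0, 24, 10, 0, 2, 0⟩, ⟨20, 3500, -19, 0, 7, 12, 0, 0, 0⟩], [⟨27, 2760, -40, 0, 14, 14, 0, -26, 0⟩]⟩,
  ⟨[⟨0, -200, 0, 0, -1, 1, 0, 0, 0⟩], [⟨18, 5500, 2, 0, 1, 14, 0, 32, 0⟩, ⟨26, 4186, -25, 0, 10, 15, 0, 0, 0⟩], [⟨34, 2800, -52, 0, 19, 16, 0, -32, 0⟩]⟩,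
  ⟨[⟨0, -150, 0, 0, -1, 1, 0, 0, 0⟩, ⟨0, 200, 0, 0, 1, -1, 0, 0, 0⟩], [⟨23, 7340, 2, 0, 0, 20, 0, 44, 0⟩], [⟨45, 3870, -68, 0, 22, 24, 0, -44, 0⟩, ⟨34, 5507, -33, 0, 11, 22, 0, 0, 0⟩]⟩,
  ⟨[⟨0, -600, 0, 0, -1, 1, 0, 0, 0⟩], [⟨19, 4990, 2, 0, 0, 16, 0, 36, 0⟩], [⟨37, 3760, -56, 0, 18, 20, 0, -36, 0⟩, ⟨28, 4354, -27, 0, 9, 18, 0, 0, 0⟩]⟩,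
  ⟨[⟨0, -300, 0, -1, 1, 0, 0, 0, 0⟩], [⟨9, 2060, 2, 0, 6, 0, 16, 0, 0⟩], [⟨17, 1130, -26, 8, 10, 0, -16, 0, 0⟩]⟩]

def wg133 : List Wn := [
  ⟨[⟨0, -600, 0, -1, 1, 0, 0, 0, 0⟩], [⟨19, 4990, 2, 0, 16, 0, 36, 0, 0⟩], [⟨37, 3760, -56, 18, 20, 0, -36, 0, 0⟩, ⟨28, 4354, -27, 9, 18, 0, 0, 0, 0⟩]⟩,
  ⟨[⟨0, -201, 0, -1, 1, 0, 0, 0, 0⟩], [⟨53, 22480, 2, 0, 50, 0, 102, 0, 0⟩, ⟨53, 21650, 2, 102, 48, 0, 2, 0, 0⟩], [⟨105, 7100, -158, 54, 52, 0, -102, 0, 0⟩]⟩,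
  ⟨[⟨0, -92, 0, -1, 1, 0, 0, 0, 0⟩, ⟨0, 99, 0, 1, -1, 0, 0, 0, 0⟩], [⟨23, 8280, 2, 0, 20, 0, 46, 0, 0⟩], [⟨47, 4110, -70, 24, 24, 0, -46, 0, 0⟩]⟩,
  ⟨[⟨0, -126, 0, -1, 1, 0, 0, 0, 0⟩, ⟨0, 138, 0, 1, -1, 0, 0, 0, 0⟩], [⟨8, 1960, 2, 0, 5, 0, 16, 0, 0⟩, ⟨12, 1828, -11, 4, 7, 0, 0, 0, 0⟩], [⟨16, 1690, -24, 8, 9, 0, -16, 0, 0⟩]⟩,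
  ⟨[⟨0, -150, 0, -1, 1, 0, 0, 0, 0⟩, ⟨0, 165, 0, 1, -1, 0, 0, 0, 0⟩], [⟨14, 4580, 2, 0, 11, 0, 24, 0, 0⟩], [⟨26, 1970, -40, 14, 13, 0, -24, 0, 0⟩, ⟨20, 3253, -19, 7, 12, 0, 0, 0, 0⟩]⟩,
  ⟨[⟨0, -103, 0, -1, 1, 0, 0, 0, 0⟩, ⟨0, 105, 0, 1, -1, 0, 0, 0, 0⟩], [⟨6, 1450, 2, 0, 3, 0, 8, 0, 0⟩], [⟨10, 1050, -16, 6, 5, 0, -8, 0, 0⟩, ⟨8, 1240, -7, 3, 4, 0, 0, 0, 0⟩]⟩,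
  ⟨[], [⟨27, 10600, 2, 0, 0, 24, 0, 54, 0⟩, ⟨27, 9970, 2, 0, 52, 24, 0, 2, 0⟩], [⟨55, 4760, -82, 0, 28, 28, 0, -54, 0⟩]⟩,
  ⟨[⟨0, -105, 0, -1, 1, 0, 0, 0, 0⟩, ⟨0, 108, 0, 1, -1, 0, 0, 0, 0⟩], [⟨15, 5680, 2, 0, 12, 0, 18, 0, 0⟩], [⟨25, 1330, -40, 16, 10, 0, -18, 0, 0⟩, ⟨20, 3493, -19, 8, 11, 0, 0, 0, 0⟩]⟩,
  ⟨[⟨0, -375, 0, -1, 1, 0, 0, 0, 0⟩, ⟨0, 420, 0, 1, -1, 0, 0, 0, 0⟩], [⟨18, 5430, 2, 0, 15, 0, 32, 0, 0⟩], [⟨34, 2870, -52, 18, 17, 0, -32, 0, 0⟩, ⟨26, 4129, -25, 9, 16, 0, 0, 0, 0⟩]⟩,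
  ⟨[⟨0, -150, 0, -1, 1, 0, 0, 0, 0⟩, ⟨0, 165, 0, 1, -1, 0, 0, 0, 0⟩], [⟨6, 1430, 2, 1, 2, 0, 8, 0, 0⟩, ⟨8, 1239, -7, 4, 3, 0, 0, 0, 0⟩], [⟨10, 1030, -16, 7, 4, 0, -8, 0, 0⟩]⟩,
  ⟨[⟨0, -270, 0, -1, 1, 0, 0, 0, 0⟩, ⟨0, 300, 0, 1, -1, 0, 0, 0, 0⟩], [⟨5, 1300, 2, 0, 2, 0, 6, 0, 0⟩], [⟨9, 890, -14, 6, 4, 0, -6, 0, 0⟩]⟩,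
  ⟨[⟨0, -200, 0, 0, -1, 1, 0, 0, 0⟩], [⟨11, 3210, 2, 0, 0, 8, 0, 22, 0⟩], [⟨23, 2920, -34, 0, 12, 12, 0, -22, 0⟩]⟩,
  ⟨[⟨0, -1350, 0, -1, 1, 0, 0, 0, 0⟩], [⟨27, 7900, 2, 0, 24, 0, 54, 0, 0⟩], [⟨55, 4760, -82, 28, 28, 0, -54, 0, 0⟩]⟩,
  ⟨[⟨0, -159, 0, 0, -1, 1, 0, 0, 0⟩], [⟨57, 23470, 2, 0, 0, 54, 0, 110, 0⟩, ⟨57, 22640, 2, 0, 110, 52, 0, 2, 0⟩], [⟨113, 8300, -170, 0, 58, 56, 0, -110, 0⟩]⟩,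
  ⟨[⟨0, -597, 0, -1, 1, 0, 0, 0, 0⟩], [⟨51, 20920, 2, 0, 48, 0, 94, 0, 0⟩, ⟨51, 20520, 2, 96, 44, 0, 2, 0, 0⟩], [⟨99, 7110, -150, 52, 48, 0, -94, 0, 0⟩]⟩,
  ⟨[⟨0, -300, 0, 0, -1, 1, 0, 0, 0⟩], [⟨11, 3960, 2, 0, 0, 8, 0, 14, 0⟩], [⟨19, 1040, -30, 0, 12, 8, 0, -14, 0⟩]⟩]

def wg134 : List Wn := [
  ⟨[⟨0, -165, 0, -1, 1, 0, 0, 0, 0⟩, ⟨0, 180, 0, 1, -1, 0, 0, 0, 0⟩], [⟨7, 2520, 2, 0, 4, 0, 14, 0, 0⟩], [⟨15, 1680, -22, 8, 8, 0, -14, 0, 0⟩]⟩,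
  ⟨[⟨0, -150, 0, 0, -1, 1, 0, 0, 0⟩, ⟨0, 200, 0, 0, 1, -1, 0, 0, 0⟩], [⟨26, 8350, 2, 0, 0, 23, 0, 52, 0⟩], [⟨52, 4320, -78, 0, 26, 27, 0, -52, 0⟩]⟩,
  ⟨[⟨64, -22511, -200, 68, -68, 0, -192, 0, 0⟩, ⟨64, -22511, -200, 4, -68, 0, -128, 0, 0⟩, ⟨66, -24921, -208, 70, -68, 0, -200, 0, 0⟩, ⟨66, -24921, -208, 6, -68, 0, -136, 0, 0⟩], [⟨67, 28010, 2, 0, 128, 0, 62, 0, 0⟩, ⟨67, 28010, 2, 60, 128, 0, 2, 0, 0⟩], []⟩,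
  ⟨[⟨0, -101, 0, -1, 1, 0, 0, 0, 0⟩, ⟨0, 103, 0, 1, -1, 0, 0, 0, 0⟩], [⟨5, 270, 2, 0, 2, 0, 10, 0, 0⟩, ⟨8, 946, -7, 3, 4, 0, 0, 0, 0⟩], [⟨11, 1610, -16, 6, 6, 0, -10, 0, 0⟩]⟩,
  ⟨[⟨0, -126, 0, -1, 1, 0, 0, 0, 0⟩, ⟨0, 138, 0, 1, -1, 0, 0, 0, 0⟩], [⟨31, 9990, 2, 0, 28, 0, 62, 0, 0⟩], [⟨63, 5570, -94, 32, 32, 0, -62, 0, 0⟩]⟩,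
  ⟨[⟨0, -600, 0, -1, 1, 0, 0, 0, 0⟩], [⟨5, 1250, 2, 0, 2, 0, 6, 0, 0⟩], [⟨9, 920, -14, 6, 4, 0, -6, 0, 0⟩]⟩,
  ⟨[⟨0, -900, 0, -1, 1, 0, 0, 0, 0⟩], [⟨15, 4870, 2, 0, 12, 0, 22, 0, 0⟩], [⟨27, 2030, -42, 16, 12, 0, -22, 0, 0⟩]⟩,
  ⟨[⟨0, -200, 0, 0, -1, 1, 0, 0, 0⟩], [⟨7, 2040, 2, 0, 0, 4, 0, 10, 0⟩], [⟨13, 1160, -20, 0, 8, 6, 0, -10, 0⟩, ⟨10, 1526, -9, 0, 4, 5, 0, 0, 0⟩]⟩,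
  ⟨[⟨0, -750, 0, -1, 1, 0, 0, 0, 0⟩], [⟨3, 10, 2, 0, 0, 0, 2, 0, 0⟩], [⟨5, 1190, -8, 4, 2, 0, -2, 0, 0⟩, ⟨4, 595, -3, 2, 1, 0, 0, 0, 0⟩]⟩,
  ⟨[], [⟨13, 3220, 2, 0, 0, 24, 0, 12, 0⟩, ⟨13, 4860, 2, 0, 24, 10, 0, 2, 0⟩, ⟨20, 3500, -19, 0, 7, 12, 0, 0, 0⟩], [⟨27, 2760, -40, 0, 14, 14, 0, -26, 0⟩]⟩,
  ⟨[⟨0, -270, 0, -1, 1, 0, 0, 0, 0⟩, ⟨0, 300, 0, 1, -1, 0, 0, 0, 0⟩], [⟨15, 4570, 2, 0, 12, 0, 26, 0, 0⟩], [⟨29, 2500, -44, 16, 14, 0, -26, 0, 0⟩, ⟨22, 3511, -21, 8, 13, 0, 0, 0, 0⟩]⟩,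
  ⟨[⟨0, -1350, 0, -1, 1, 0, 0, 0, 0⟩], [⟨9, 2170, 2, 0, 6, 0, 16, 0, 0⟩], [⟨17, 1800, -26, 8, 10, 0, -16, 0, 0⟩]⟩,
  ⟨[⟨0, -450, 0, -1, 1, 0, 0, 0, 0⟩], [⟨19, 5030, 2, 0, 16, 0, 36, 0, 0⟩], [⟨37, 3760, -56, 18, 20, 0, -36, 0, 0⟩, ⟨28, 4354, -27, 9, 18, 0, 0, 0, 0⟩]⟩,
  ⟨[⟨0, -201, 0, -1, 1, 0, 0, 0, 0⟩], [⟨13, 5470, 2, 0, 10, 0, 22, 0, 0⟩, ⟨13, 4630, 2, 22, 8, 0, 2, 0, 0⟩], [⟨25, 2070, -38, 14, 12, 0, -22, 0, 0⟩]⟩,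
  ⟨[⟨0, -270, 0, -1, 1, 0, 0, 0, 0⟩, ⟨0, 300, 0, 1, -1, 0, 0, 0, 0⟩], [⟨5, 1120, 2, 0, 2, 0, 6, 0, 0⟩], [⟨9, 220, -14, 6, 4, 0, -6, 0, 0⟩]⟩,
  ⟨[⟨0, -10, 0, -1, 1, 0, 0, 0, 0⟩, ⟨0, 18, 0, 1, -1, 0, 0, 0, 0⟩], [⟨25, 7610, 2, 48, 22, 0, 2, 0, 0⟩], [⟨51, 4320, -76, 26, 26, 0, -50, 0, 0⟩]⟩]

def wg135 : List Wn := [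
  ⟨[⟨0, -1200, 0, -1, 1, 0, 0, 0, 0⟩], [⟨27, 7900, 2, 0, 24, 0, 54, 0, 0⟩], [⟨55, 4760, -82, 28, 28, 0, -54, 0, 0⟩]⟩,
  ⟨[⟨0, -108, 0, -1, 1, 0, 0, 0, 0⟩, ⟨0, 114, 0, 1, -1, 0, 0, 0, 0⟩], [⟨25, 9280, 2, 0, 22, 0, 46, 0, 0⟩], [⟨49, 3200, -74, 26, 24, 0, -46, 0, 0⟩]⟩,
  ⟨[⟨0, -600, 0, -1, 1, 0, 0, 0, 0⟩], [⟨10, 2660, 2, 1, 6, 0, 20, 0, 0⟩], [⟨20, 740, -30, 11, 10, 0, -20, 0, 0⟩]⟩,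
  ⟨[⟨0, -200, 0, 0, -1, 1, 0, 0, 0⟩], [⟨11, 4060, 2, 0, 0, 8, 0, 14, 0⟩], [⟨19, 990, -30, 0, 12, 8, 0, -14, 0⟩]⟩,
  ⟨[], [⟨7, 1010, 2, 0, 4, 0, 2, 0, 0⟩, ⟨7, 1470, 2, 6, -2, 0, 2, 0, 0⟩, ⟨8, 1610, -7, 4, 3, 0, 0, 0, 0⟩], [⟨9, 1780, -16, 8, 2, 0, -2, 0, 0⟩]⟩,
  ⟨[⟨0, -126, 0, -1, 1, 0, 0, 0, 0⟩, ⟨0, 138, 0, 1, -1, 0, 0, 0, 0⟩], [⟨11, 3320, 2, 0, 8, 0, 20, 0, 0⟩], [⟨21, 1910, -32, 10, 12, 0, -20, 0, 0⟩, ⟨16, 2595, -15, 5, 10, 0, 0, 0, 0⟩]⟩,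
  ⟨[⟨0, -900, 0, -1, 1, 0, 0, 0, 0⟩], [⟨24, 7550, 2, 0, 21, 0, 48, 0, 0⟩, ⟨36, 5547, -35, 12, 23, 0, 0, 0, 0⟩], [⟨48, 3520, -72, 24, 25, 0, -48, 0, 0⟩]⟩,
  ⟨[⟨0, -800, 0, 0, -1, 1, 0, 0, 0⟩], [⟨3, 1070, 2, 0, 0, 0, 0, 6, 0⟩], [⟨7, 1060, -10, 0, 4, 4, 0, -6, 0⟩]⟩,
  ⟨[⟨0, -101, 0, -1, 1, 0, 0, 0, 0⟩, ⟨0, 103, 0, 1, -1, 0, 0, 0, 0⟩], [⟨13, 3460, 2, 0, 10, 0, 26, 0, 0⟩, ⟨20, 3130, -19, 7, 12, 0, 0, 0, 0⟩], [⟨27, 2790, -40, 14, 14, 0, -26, 0, 0⟩]⟩,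
  ⟨[⟨0, -900, 0, -1, 1, 0, 0, 0, 0⟩], [⟨3, 1070, 2, 0, 0, 0, 6, 0, 0⟩], [⟨7, 1060, -10, 4, 4, 0, -6, 0, 0⟩]⟩,
  ⟨[⟨0, -165, 0, -1, 1, 0, 0, 0, 0⟩, ⟨0, 180, 0, 1, -1, 0, 0, 0, 0⟩], [⟨8, 1920, 2, 0, 5, 0, 16, 0, 0⟩, ⟨12, 1811, -11, 4, 7, 0, 0, 0, 0⟩], [⟨16, 1690, -24, 8, 9, 0, -16, 0, 0⟩]⟩,
  ⟨[⟨0, -200, 0, -1, 1, 0, 0, 0, 0⟩, ⟨0, 220, 0, 1, -1, 0, 0, 0, 0⟩], [⟨13, 4090, 2, 0, 10, 0, 22, 0, 0⟩], [⟨25, 2070, -38, 14, 12, 0, -22, 0, 0⟩]⟩,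
  ⟨[⟨0, -180, 0, -1, 1, 0, 0, 0, 0⟩, ⟨0, 200, 0, 1, -1, 0, 0, 0, 0⟩], [⟨18, 5550, 2, 0, 15, 0, 34, 0, 0⟩], [⟨34, 2860, -52, 16, 19, 0, -34, 0, 0⟩, ⟨26, 4174, -25, 8, 17, 0, 0, 0, 0⟩]⟩,
  ⟨[⟨68, -23831, -212, 72, -72, 0, -204, 0, 0⟩, ⟨68, -23831, -212, 4, -72, 0, -136, 0, 0⟩, ⟨70, -26271, -220, 74, -72, 0, -212, 0, 0⟩, ⟨70, -26271, -220, 6, -72, 0, -144, 0, 0⟩], [⟨71, 29640, 2, 0, 136, 0, 66, 0, 0⟩, ⟨71, 29640, 2, 64, 136, 0, 2, 0, 0⟩], []⟩,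
  ⟨[⟨0, -101, 0, -1, 1, 0, 0, 0, 0⟩, ⟨0, 103, 0, 1, -1, 0, 0, 0, 0⟩], [⟨5, 270, 2, 0, 2, 0, 10, 0, 0⟩], [⟨11, 1610, -16, 6, 6, 0, -10, 0, 0⟩, ⟨8, 345, -7, 3, 4, 0, 0, 0, 0⟩]⟩,
  ⟨[], [⟨51, 19970, 2, 0, 48, 0, 102, 0, 0⟩, ⟨51, 19340, 2, 100, 48, 0, 2, 0, 0⟩], [⟨103, 8610, -154, 52, 52, 0, -102, 0, 0⟩]⟩]

def wg136 : List Wn := [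
  ⟨[⟨0, -23, 0, 0, -1, 1, 0, 0, 0⟩, ⟨0, 60, 0, 0, 1, -1, 0, 0, 0⟩], [⟨29, 11160, 2, 0, 52, 22, 0, 2, 0⟩], [⟨55, 2460, -84, 0, 30, 26, 0, -50, 0⟩]⟩,
  ⟨[⟨0, -450, 0, -1, 1, 0, 0, 0, 0⟩], [⟨5, 1260, 2, 0, 2, 0, 6, 0, 0⟩], [⟨9, 920, -14, 6, 4, 0, -6, 0, 0⟩]⟩,
  ⟨[⟨0, -600, 0, -1, 1, 0, 0, 0, 0⟩], [⟨3, 10, 2, 0, 0, 0, 2, 0, 0⟩], [⟨5, 1190, -8, 4, 2, 0, -2, 0, 0⟩, ⟨4, 592, -3, 2, 1, 0, 0, 0, 0⟩]⟩,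
  ⟨[⟨0, -101, 0, -1, 1, 0, 0, 0, 0⟩, ⟨0, 103, 0, 1, -1, 0, 0, 0, 0⟩], [⟨25, 9370, 2, 0, 22, 0, 46, 0, 0⟩], [⟨49, 3200, -74, 26, 24, 0, -46, 0, 0⟩]⟩,
  ⟨[⟨0, -750, 0, -1, 1, 0, 0, 0, 0⟩, ⟨0, 825, 0, 1, -1, 0, 0, 0, 0⟩], [⟨19, 5730, 2, 0, 16, 0, 34, 0, 0⟩], [⟨37, 3120, -56, 20, 18, 0, -34, 0, 0⟩, ⟨28, 4414, -27, 10, 17, 0, 0, 0, 0⟩]⟩,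
  ⟨[⟨0, -597, 0, -1, 1, 0, 0, 0, 0⟩], [⟨13, 4750, 2, 0, 10, 0, 24, 0, 0⟩, ⟨13, 3860, 2, 24, 8, 0, 2, 0, 0⟩, ⟨19, 3290, -18, 18, 0, 0, 0, 0, 0⟩], [⟨25, 2620, -38, 12, 14, 0, -24, 0, 0⟩]⟩,
  ⟨[⟨0, -138, 0, -1, 1, 0, 0, 0, 0⟩, ⟨0, 150, 0, 1, -1, 0, 0, 0, 0⟩], [⟨25, 9100, 2, 0, 22, 0, 46, 0, 0⟩], [⟨49, 3220, -74, 26, 24, 0, -46, 0, 0⟩]⟩,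
  ⟨[⟨0, -1200, 0, -1, 1, 0, 0, 0, 0⟩], [⟨9, 2170, 2, 0, 6, 0, 16, 0, 0⟩], [⟨17, 1800, -26, 8, 10, 0, -16, 0, 0⟩]⟩,
  ⟨[⟨0, -300, 0, -1, 1, 0, 0, 0, 0⟩], [⟨19, 5140, 2, 0, 16, 0, 36, 0, 0⟩], [⟨37, 3760, -56, 18, 20, 0, -36, 0, 0⟩, ⟨28, 4354, -27, 9, 18, 0, 0, 0, 0⟩]⟩,
  ⟨[⟨0, -133, 0, -1, 1, 0, 0, 0, 0⟩], [⟨53, 22480, 2, 0, 50, 0, 102, 0, 0⟩, ⟨53, 21650, 2, 102, 48, 0, 2, 0, 0⟩], [⟨105, 7070, -158, 54, 52, 0, -102, 0, 0⟩]⟩,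
  ⟨[⟨0, -165, 0, -1, 1, 0, 0, 0, 0⟩, ⟨0, 180, 0, 1, -1, 0, 0, 0, 0⟩], [⟨31, 9750, 2, 0, 28, 0, 62, 0, 0⟩], [⟨63, 5570, -94, 32, 32, 0, -62, 0, 0⟩]⟩,
  ⟨[⟨0, -270, 0, -1, 1, 0, 0, 0, 0⟩, ⟨0, 300, 0, 1, -1, 0, 0, 0, 0⟩], [⟨5, 1970, 2, 0, 2, 0, 6, 0, 0⟩], [⟨9, 1070, -14, 6, 4, 0, -6, 0, 0⟩]⟩,
  ⟨[⟨0, -597, 0, -1, 1, 0, 0, 0, 0⟩], [⟨59, 21540, 2, 0, 112, 0, 54, 0, 0⟩, ⟨59, 26160, 2, 112, 52, 0, 2, 0, 0⟩], [⟨115, 6340, -174, 60, 56, 0, -110, 0, 0⟩]⟩,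
  ⟨[⟨0, -1050, 0, -1, 1, 0, 0, 0, 0⟩], [⟨27, 7900, 2, 0, 24, 0, 54, 0, 0⟩], [⟨55, 4760, -82, 28, 28, 0, -54, 0, 0⟩]⟩,
  ⟨[⟨0, -23, 0, 0, -1, 1, 0, 0, 0⟩, ⟨0, 60, 0, 0, 1, -1, 0, 0, 0⟩], [⟨17, 4870, 2, 0, 32, 14, 0, 2, 0⟩], [⟨35, 3490, -52, 0, 18, 18, 0, -34, 0⟩]⟩,
  ⟨[⟨0, -220, 0, -1, 1, 0, 0, 0, 0⟩, ⟨0, 245, 0, 1, -1, 0, 0, 0, 0⟩], [⟨3, 240, 2, 0, 0, 0, 4, 0, 0⟩], [⟨5, 880, -8, 2, 4, 0, -4, 0, 0⟩, ⟨4, 554, -3, 1, 2, 0, 0, 0, 0⟩]⟩]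

def wg137 : List Wn := [
  ⟨[⟨0, -450, 0, -1, 1, 0, 0, 0, 0⟩], [⟨10, 2690, 2, 1, 6, 0, 20, 0, 0⟩], [⟨20, 740, -30, 11, 10, 0, -20, 0, 0⟩]⟩,
  ⟨[⟨0, -220, 0, -1, 1, 0, 0, 0, 0⟩, ⟨0, 245, 0, 1, -1, 0, 0, 0, 0⟩], [⟨34, 11800, 2, 0, 31, 0, 68, 0, 0⟩], [⟨68, 4550, -102, 34, 35, 0, -68, 0, 0⟩]⟩,
  ⟨[⟨0, -750, 0, -1, 1, 0, 0, 0, 0⟩], [⟨24, 7560, 2, 0, 21, 0, 48, 0, 0⟩, ⟨36, 5550, -35, 12, 23, 0, 0, 0, 0⟩], [⟨48, 3520, -72, 24, 25, 0, -48, 0, 0⟩]⟩,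
  ⟨[⟨0, -108, 0, -1, 1, 0, 0, 0, 0⟩, ⟨0, 114, 0, 1, -1, 0, 0, 0, 0⟩], [⟨17, 4820, 2, 0, 14, 0, 34, 0, 0⟩, ⟨26, 4265, -25, 9, 16, 0, 0, 0, 0⟩], [⟨35, 3690, -52, 18, 18, 0, -34, 0, 0⟩]⟩,
  ⟨[⟨0, -750, 0, -1, 1, 0, 0, 0, 0⟩], [⟨3, 1070, 2, 0, 0, 0, 6, 0, 0⟩], [⟨7, 1060, -10, 4, 4, 0, -6, 0, 0⟩]⟩,
  ⟨[⟨0, -50, 0, -1, 1, 0, 0, 0, 0⟩, ⟨0, 66, 0, 1, -1, 0, 0, 0, 0⟩], [⟨15, 4850, 2, 26, 10, 0, 2, 0, 0⟩], [⟨29, 2180, -44, 16, 14, 0, -26, 0, 0⟩]⟩,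
  ⟨[⟨72, -25161, -224, 76, -76, 0, -216, 0, 0⟩, ⟨72, -25161, -224, 4, -76, 0, -144, 0, 0⟩, ⟨74, -27611, -232, 78, -76, 0, -224, 0, 0⟩, ⟨74, -27611, -232, 6, -76, 0, -152, 0, 0⟩], [⟨75, 31270, 2, 0, 144, 0, 70, 0, 0⟩, ⟨75, 31270, 2, 68, 144, 0, 2, 0, 0⟩], []⟩,
  ⟨[⟨0, -150, 0, 0, -1, 1, 0, 0, 0⟩, ⟨0, 200, 0, 0, 1, -1, 0, 0, 0⟩], [⟨39, 15530, 2, 0, 0, 36, 0, 70, 0⟩], [⟨75, 3650, -114, 0, 40, 36, 0, -70, 0⟩]⟩,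
  ⟨[⟨0, -600, 0, 0, -1, 1, 0, 0, 0⟩], [⟨15, 4890, 2, 0, 0, 12, 0, 22, 0⟩], [⟨27, 2020, -42, 0, 16, 12, 0, -22, 0⟩]⟩,
  ⟨[], [⟨3, 1090, 2, 0, 0, 0, 0, 6, 0⟩, ⟨3, 450, 2, 0, 4, 0, 0, 2, 0⟩], [⟨7, 210, -10, 0, 4, 4, 0, -6, 0⟩]⟩,
  ⟨[⟨0, -1350, 0, -1, 1, 0, 0, 0, 0⟩], [⟨10, 2710, 2, 1, 6, 0, 16, 0, 0⟩, ⟨14, 2097, -13, 6, 7, 0, 0, 0, 0⟩], [⟨18, 1470, -28, 11, 8, 0, -16, 0, 0⟩]⟩,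
  ⟨[⟨0, -300, 0, -1, 1, 0, 0, 0, 0⟩], [⟨5, 1290, 2, 0, 2, 0, 6, 0, 0⟩], [⟨9, 890, -14, 6, 4, 0, -6, 0, 0⟩]⟩,
  ⟨[⟨0, -600, 0, -1, 1, 0, 0, 0, 0⟩], [⟨15, 4890, 2, 0, 12, 0, 22, 0, 0⟩], [⟨27, 2020, -42, 16, 12, 0, -22, 0, 0⟩]⟩,
  ⟨[⟨0, -165, 0, -1, 1, 0, 0, 0, 0⟩, ⟨0, 180, 0, 1, -1, 0, 0, 0, 0⟩], [⟨3, -100, 2, 0, 0, 0, 4, 0, 0⟩, ⟨4, 390, -3, 2, 1, 0, 0, 0, 0⟩], [⟨5, 880, -8, 4, 2, 0, -4, 0, 0⟩]⟩,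
  ⟨[⟨0, -1350, 0, -1, 1, 0, 0, 0, 0⟩], [⟨17, 4220, 2, 1, 13, 0, 34, 0, 0⟩], [⟨33, 3170, -50, 17, 17, 0, -34, 0, 0⟩]⟩,
  ⟨[⟨0, -60, 0, 0, -1, 1, 0, 0, 0⟩, ⟨0, 100, 0, 0, 1, -1, 0, 0, 0⟩], [⟨9, 2870, 2, 0, 10, -2, 0, 2, 0⟩], [⟨11, 1620, -20, 0, 8, 4, 0, -4, 0⟩, ⟨10, 1963, -9, 0, 9, 1, 0, -1, 0⟩]⟩]

def wg138 : List Wn := [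
  ⟨[⟨0, -399, 0, -1, 1, 0, 0, 0, 0⟩], [⟨13, 4750, 2, 0, 10, 0, 24, 0, 0⟩, ⟨13, 3860, 2, 24, 8, 0, 2, 0, 0⟩, ⟨19, 3370, -18, 18, 0, 0, 0, 0, 0⟩], [⟨25, 2620, -38, 12, 14, 0, -24, 0, 0⟩]⟩,
  ⟨[⟨0, -93, 0, -1, 1, 0, 0, 0, 0⟩], [⟨53, 22480, 2, 0, 50, 0, 102, 0, 0⟩, ⟨53, 21650, 2, 102, 48, 0, 2, 0, 0⟩], [⟨105, 7040, -158, 54, 52, 0, -102, 0, 0⟩]⟩,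
  ⟨[⟨0, -165, 0, -1, 1, 0, 0, 0, 0⟩, ⟨0, 180, 0, 1, -1, 0, 0, 0, 0⟩], [⟨11, 3240, 2, 0, 8, 0, 20, 0, 0⟩], [⟨21, 1910, -32, 10, 12, 0, -20, 0, 0⟩, ⟨16, 2558, -15, 5, 10, 0, 0, 0, 0⟩]⟩,
  ⟨[⟨0, -138, 0, -1, 1, 0, 0, 0, 0⟩, ⟨0, 150, 0, 1, -1, 0, 0, 0, 0⟩], [⟨17, 4720, 2, 0, 14, 0, 34, 0, 0⟩, ⟨26, 4216, -25, 9, 16, 0, 0, 0, 0⟩], [⟨35, 3690, -52, 18, 18, 0, -34, 0, 0⟩]⟩,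
  ⟨[⟨0, -133, 0, -1, 1, 0, 0, 0, 0⟩], [⟨13, 5470, 2, 0, 10, 0, 22, 0, 0⟩, ⟨13, 4630, 2, 22, 8, 0, 2, 0, 0⟩], [⟨25, 2040, -38, 14, 12, 0, -22, 0, 0⟩]⟩,
  ⟨[⟨0, -220, 0, -1, 1, 0, 0, 0, 0⟩, ⟨0, 245, 0, 1, -1, 0, 0, 0, 0⟩], [⟨7, 1800, 2, 0, 4, 0, 14, 0, 0⟩], [⟨15, 1490, -22, 8, 8, 0, -14, 0, 0⟩]⟩,
  ⟨[⟨0, -105, 0, -1, 1, 0, 0, 0, 0⟩, ⟨0, 108, 0, 1, -1, 0, 0, 0, 0⟩], [⟨31, 10190, 2, 0, 28, 0, 62, 0, 0⟩], [⟨63, 5570, -94, 32, 32, 0, -62, 0, 0⟩]⟩,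
  ⟨[⟨0, -99, 0, -1, 1, 0, 0, 0, 0⟩, ⟨0, 101, 0, 1, -1, 0, 0, 0, 0⟩], [⟨27, 9200, 2, 0, 24, 0, 54, 0, 0⟩], [⟨55, 4760, -82, 28, 28, 0, -54, 0, 0⟩]⟩,
  ⟨[⟨0, -201, 0, -1, 1, 0, 0, 0, 0⟩], [⟨7, 1350, 2, 0, 6, 0, 2, 0, 0⟩, ⟨7, 1590, 2, 8, -2, 0, 2, 0, 0⟩], [⟨9, 1580, -16, 6, 4, 0, -4, 0, 0⟩, ⟨8, 1440, -7, 3, 4, 0, 0, 0, 0⟩]⟩,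
  ⟨[⟨0, -126, 0, -1, 1, 0, 0, 0, 0⟩, ⟨0, 138, 0, 1, -1, 0, 0, 0, 0⟩], [⟨3, 640, 2, 0, 0, 0, 6, 0, 0⟩], [⟨7, 880, -10, 4, 4, 0, -6, 0, 0⟩]⟩,
  ⟨[⟨0, -900, 0, -1, 1, 0, 0, 0, 0⟩], [⟨27, 7900, 2, 0, 24, 0, 54, 0, 0⟩], [⟨55, 4760, -82, 28, 28, 0, -54, 0, 0⟩]⟩,
  ⟨[⟨0, -1350, 0, -1, 1, 0, 0, 0, 0⟩], [⟨13, 3420, 2, 0, 10, 0, 24, 0, 0⟩], [⟨25, 2450, -38, 12, 14, 0, -24, 0, 0⟩]⟩,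
  ⟨[⟨0, -300, 0, -1, 1, 0, 0, 0, 0⟩], [⟨10, 2760, 2, 1, 6, 0, 20, 0, 0⟩], [⟨20, 740, -30, 11, 10, 0, -20, 0, 0⟩]⟩,
  ⟨[⟨0, -105, 0, -1, 1, 0, 0, 0, 0⟩, ⟨0, 108, 0, 1, -1, 0, 0, 0, 0⟩], [⟨7, 2100, 2, 0, 4, 0, 14, 0, 0⟩], [⟨15, 1490, -22, 8, 8, 0, -14, 0, 0⟩]⟩,
  ⟨[⟨0, -600, 0, -1, 1, 0, 0, 0, 0⟩], [⟨24, 7570, 2, 0, 21, 0, 48, 0, 0⟩, ⟨36, 5559, -35, 12, 23, 0, 0, 0, 0⟩], [⟨48, 3520, -72, 24, 25, 0, -48, 0, 0⟩]⟩,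
  ⟨[⟨0, -101, 0, -1, 1, 0, 0, 0, 0⟩, ⟨0, 103, 0, 1, -1, 0, 0, 0, 0⟩], [⟨14, 4690, 2, 0, 11, 0, 28, 0, 0⟩], [⟨28, 2270, -42, 14, 15, 0, -28, 0, 0⟩]⟩]

def wg139 : List Wn := [
  ⟨[⟨0, -245, 0, -1, 1, 0, 0, 0, 0⟩, ⟨0, 270, 0, 1, -1, 0, 0, 0, 0⟩], [⟨7, 2000, 2, 0, 4, 0, 10, 0, 0⟩], [⟨13, 1170, -20, 8, 6, 0, -10, 0, 0⟩, ⟨10, 1575, -9, 4, 5, 0, 0, 0, 0⟩]⟩,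
  ⟨[⟨0, -600, 0, -1, 1, 0, 0, 0, 0⟩], [⟨3, 1080, 2, 0, 0, 0, 6, 0, 0⟩], [⟨7, 1060, -10, 4, 4, 0, -6, 0, 0⟩]⟩,
  ⟨[⟨0, -200, 0, -1, 1, 0, 0, 0, 0⟩, ⟨0, 220, 0, 1, -1, 0, 0, 0, 0⟩], [⟨14, 4490, 2, 0, 11, 0, 24, 0, 0⟩], [⟨26, 2000, -40, 14, 13, 0, -24, 0, 0⟩, ⟨20, 3221, -19, 7, 12, 0, 0, 0, 0⟩]⟩,
  ⟨[⟨76, -26491, -236, 80, -80, 0, -228, 0, 0⟩, ⟨76, -26491, -236, 4, -80, 0, -152, 0, 0⟩, ⟨78, -28951, -244, 82, -80, 0, -236, 0, 0⟩, ⟨78, -28951, -244, 6, -80, 0, -160, 0, 0⟩], [⟨79, 32900, 2, 0, 152, 0, 74, 0, 0⟩, ⟨79, 32900, 2, 72, 152, 0, 2, 0, 0⟩], []⟩,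
  ⟨[⟨0, -200, 0, 0, -1, 1, 0, 0, 0⟩], [⟨5, 1350, 2, 0, 0, 2, 0, 6, 0⟩], [⟨9, 860, -14, 0, 6, 4, 0, -6, 0⟩]⟩,
  ⟨[⟨0, -500, 0, 0, -1, 1, 0, 0, 0⟩], [⟨15, 4900, 2, 0, 0, 12, 0, 22, 0⟩], [⟨27, 2010, -42, 0, 16, 12, 0, -22, 0⟩]⟩,
  ⟨[], [⟨3, 1940, 2, 0, 0, 0, 0, 6, 0⟩, ⟨3, 1300, 2, 0, 4, 0, 0, 2, 0⟩], [⟨7, 1060, -10, 0, 4, 4, 0, -6, 0⟩]⟩,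
  ⟨[⟨0, -1200, 0, -1, 1, 0, 0, 0, 0⟩], [⟨10, 2710, 2, 1, 6, 0, 16, 0, 0⟩, ⟨14, 2098, -13, 6, 7, 0, 0, 0, 0⟩], [⟨18, 1470, -28, 11, 8, 0, -16, 0, 0⟩]⟩,
  ⟨[⟨0, -200, 0, -1, 1, 0, 0, 0, 0⟩, ⟨0, 220, 0, 1, -1, 0, 0, 0, 0⟩], [⟨6, 1330, 2, 1, 2, 0, 8, 0, 0⟩, ⟨8, 1197, -7, 4, 3, 0, 0, 0, 0⟩], [⟨10, 1050, -16, 7, 4, 0, -8, 0, 0⟩]⟩,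
  ⟨[], [⟨59, 23620, 2, 0, 56, 0, 118, 0, 0⟩, ⟨59, 23620, 2, 116, 56, 0, 2, 0, 0⟩], [⟨119, 8910, -178, 60, 60, 0, -118, 0, 0⟩]⟩,
  ⟨[⟨0, -1350, 0, -1, 1, 0, 0, 0, 0⟩], [⟨5, 1910, 2, 0, 2, 0, 6, 0, 0⟩], [⟨9, 1110, -14, 6, 4, 0, -6, 0, 0⟩]⟩,
  ⟨[⟨0, -159, 0, 0, -1, 1, 0, 0, 0⟩], [⟨55, 23400, 2, 0, 0, 52, 0, 102, 0⟩, ⟨55, 23010, 2, 0, 104, 48, 0, 2, 0⟩], [⟨107, 6680, -162, 0, 56, 52, 0, -102, 0⟩]⟩,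
  ⟨[⟨0, -108, 0, -1, 1, 0, 0, 0, 0⟩, ⟨0, 114, 0, 1, -1, 0, 0, 0, 0⟩], [⟨15, 4560, 2, 0, 12, 0, 28, 0, 0⟩], [⟨29, 2780, -44, 14, 16, 0, -28, 0, 0⟩, ⟨22, 3643, -21, 7, 14, 0, 0, 0, 0⟩]⟩,
  ⟨[⟨0, -300, 0, -1, 1, 0, 0, 0, 0⟩], [⟨3, 40, 2, 0, 0, 0, 2, 0, 0⟩], [⟨5, 1160, -8, 4, 2, 0, -2, 0, 0⟩, ⟨4, 560, -3, 2, 1, 0, 0, 0, 0⟩]⟩,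
  ⟨[⟨0, -245, 0, -1, 1, 0, 0, 0, 0⟩, ⟨0, 270, 0, 1, -1, 0, 0, 0, 0⟩], [⟨19, 5440, 2, 0, 16, 0, 38, 0, 0⟩], [⟨39, 3690, -58, 20, 20, 0, -38, 0, 0⟩]⟩,
  ⟨[⟨0, -1200, 0, -1, 1, 0, 0, 0, 0⟩], [⟨17, 4220, 2, 1, 13, 0, 34, 0, 0⟩], [⟨33, 3170, -50, 17, 17, 0, -34, 0, 0⟩]⟩]

def wg140 : List Wn := [
  ⟨[⟨0, -105, 0, -1, 1, 0, 0, 0, 0⟩, ⟨0, 108, 0, 1, -1, 0, 0, 0, 0⟩], [⟨11, 3400, 2, 0, 8, 0, 20, 0, 0⟩], [⟨21, 1910, -32, 10, 12, 0, -20, 0, 0⟩, ⟨16, 2641, -15, 5, 10, 0, 0, 0, 0⟩]⟩,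
  ⟨[⟨0, -200, 0, 0, -1, 1, 0, 0, 0⟩], [⟨19, 5300, 2, 0, 0, 16, 0, 36, 0⟩], [⟨37, 3760, -56, 0, 18, 20, 0, -36, 0⟩, ⟨28, 4354, -27, 0, 9, 18, 0, 0, 0⟩]⟩,
  ⟨[⟨0, -133, 0, -1, 1, 0, 0, 0, 0⟩], [⟨5, 1390, 2, 0, 2, 0, 8, 0, 0⟩, ⟨5, 920, 2, 8, 0, 0, 2, 0, 0⟩], [⟨9, 930, -14, 4, 6, 0, -8, 0, 0⟩]⟩,
  ⟨[⟨0, -150, 0, -1, 1, 0, 0, 0, 0⟩, ⟨0, 165, 0, 1, -1, 0, 0, 0, 0⟩], [⟨14, 4470, 2, 1, 10, 0, 24, 0, 0⟩, ⟨20, 3218, -19, 8, 11, 0, 0, 0, 0⟩], [⟨26, 1950, -40, 15, 12, 0, -24, 0, 0⟩]⟩,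
  ⟨[⟨0, -93, 0, -1, 1, 0, 0, 0, 0⟩], [⟨13, 5470, 2, 0, 10, 0, 22, 0, 0⟩, ⟨13, 4630, 2, 22, 8, 0, 2, 0, 0⟩], [⟨25, 2010, -38, 14, 12, 0, -22, 0, 0⟩]⟩,
  ⟨[⟨0, -220, 0, -1, 1, 0, 0, 0, 0⟩, ⟨0, 245, 0, 1, -1, 0, 0, 0, 0⟩], [⟨7, 1610, 2, 0, 4, 0, 14, 0, 0⟩], [⟨15, 830, -22, 8, 8, 0, -14, 0, 0⟩]⟩,
  ⟨[⟨0, -84, 0, -1, 1, 0, 0, 0, 0⟩, ⟨0, 92, 0, 1, -1, 0, 0, 0, 0⟩], [⟨9, 2370, 2, 0, 6, 0, 14, 0, 0⟩], [⟨17, 1320, -26, 10, 8, 0, -14, 0, 0⟩]⟩,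
  ⟨[⟨0, -126, 0, -1, 1, 0, 0, 0, 0⟩, ⟨0, 138, 0, 1, -1, 0, 0, 0, 0⟩], [⟨3, 460, 2, 0, 0, 0, 6, 0, 0⟩], [⟨7, 210, -10, 4, 4, 0, -6, 0, 0⟩]⟩,
  ⟨[⟨0, -750, 0, -1, 1, 0, 0, 0, 0⟩], [⟨27, 7910, 2, 0, 24, 0, 54, 0, 0⟩], [⟨55, 4760, -82, 28, 28, 0, -54, 0, 0⟩]⟩,
  ⟨[⟨0, -138, 0, -1, 1, 0, 0, 0, 0⟩, ⟨0, 150, 0, 1, -1, 0, 0, 0, 0⟩], [⟨15, 4440, 2, 0, 12, 0, 28, 0, 0⟩], [⟨29, 2780, -44, 14, 16, 0, -28, 0, 0⟩, ⟨22, 3587, -21, 7, 14, 0, 0, 0, 0⟩]⟩,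
  ⟨[⟨0, -1200, 0, -1, 1, 0, 0, 0, 0⟩], [⟨13, 3420, 2, 0, 10, 0, 24, 0, 0⟩], [⟨25, 2450, -38, 12, 14, 0, -24, 0, 0⟩]⟩,
  ⟨[⟨0, -1350, 0, -1, 1, 0, 0, 0, 0⟩], [⟨10, 2840, 2, 1, 6, 0, 20, 0, 0⟩], [⟨20, 1410, -30, 11, 10, 0, -20, 0, 0⟩]⟩,
  ⟨[⟨0, -400, 0, 0, -1, 1, 0, 0, 0⟩, ⟨0, 500, 0, 0, 1, -1, 0, 0, 0⟩], [⟨23, 6860, 2, 0, 0, 20, 0, 44, 0⟩], [⟨45, 3870, -68, 0, 22, 24, 0, -44, 0⟩, ⟨34, 5329, -33, 0, 11, 22, 0, 0, 0⟩]⟩,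
  ⟨[⟨0, -180, 0, -1, 1, 0, 0, 0, 0⟩, ⟨0, 200, 0, 1, -1, 0, 0, 0, 0⟩], [⟨25, 8920, 2, 0, 22, 0, 46, 0, 0⟩], [⟨49, 3240, -74, 26, 24, 0, -46, 0, 0⟩]⟩,
  ⟨[⟨0, -108, 0, -1, 1, 0, 0, 0, 0⟩, ⟨0, 114, 0, 1, -1, 0, 0, 0, 0⟩], [⟨18, 5610, 2, 0, 15, 0, 36, 0, 0⟩], [⟨36, 3250, -54, 18, 19, 0, -36, 0, 0⟩]⟩,
  ⟨[⟨0, -450, 0, -1, 1, 0, 0, 0, 0⟩], [⟨3, 1080, 2, 0, 0, 0, 6, 0, 0⟩], [⟨7, 1060, -10, 4, 4, 0, -6, 0, 0⟩]⟩]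

def wg141 : List Wn := [
  ⟨[⟨0, -114, 0, -1, 1, 0, 0, 0, 0⟩, ⟨0, 126, 0, 1, -1, 0, 0, 0, 0⟩], [⟨43, 14730, 2, 0, 40, 0, 86, 0, 0⟩], [⟨87, 7030, -130, 44, 44, 0, -86, 0, 0⟩]⟩,
  ⟨[⟨0, -114, 0, -1, 1, 0, 0, 0, 0⟩, ⟨0, 126, 0, 1, -1, 0, 0, 0, 0⟩], [⟨5, 720, 2, 0, 2, 0, 2, 0, 0⟩], [⟨7, 1250, -12, 6, 2, 0, -2, 0, 0⟩, ⟨6, 970, -5, 3, 2, 0, 0, 0, 0⟩]⟩,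
  ⟨[⟨8, -4591, -32, 0, 12, -12, 0, -24, 0⟩, ⟨8, -4591, -32, 0, 4, -12, 0, -16, 0⟩, ⟨10, -6551, -40, 0, 14, -12, 0, -32, 0⟩, ⟨10, -6551, -40, 0, 6, -12, 0, -24, 0⟩], [⟨11, 5190, 2, 0, 0, 16, 0, 6, 0⟩, ⟨11, 5190, 2, 0, 4, 16, 0, 2, 0⟩], []⟩,
  ⟨[⟨0, -101, 0, -1, 1, 0, 0, 0, 0⟩, ⟨0, 103, 0, 1, -1, 0, 0, 0, 0⟩], [⟨6, 2490, 2, 0, 3, 0, 12, 0, 0⟩], [⟨12, 1220, -18, 6, 7, 0, -12, 0, 0⟩]⟩,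
  ⟨[⟨0, -1200, 0, 0, -1, 1, 0, 0, 0⟩], [⟨5, 1910, 2, 0, 0, 2, 0, 6, 0⟩], [⟨9, 1110, -14, 0, 6, 4, 0, -6, 0⟩]⟩,
  ⟨[⟨0, -400, 0, 0, -1, 1, 0, 0, 0⟩], [⟨15, 4930, 2, 0, 0, 12, 0, 22, 0⟩], [⟨27, 2000, -42, 0, 16, 12, 0, -22, 0⟩]⟩,
  ⟨[⟨0, -1050, 0, -1, 1, 0, 0, 0, 0⟩], [⟨10, 2710, 2, 1, 6, 0, 16, 0, 0⟩, ⟨14, 2098, -13, 6, 7, 0, 0, 0, 0⟩], [⟨18, 1470, -28, 11, 8, 0, -16, 0, 0⟩]⟩,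
  ⟨[⟨0, -66, 0, -1, 1, 0, 0, 0, 0⟩, ⟨0, 76, 0, 1, -1, 0, 0, 0, 0⟩], [⟨3, 50, 2, 2, 0, 0, 2, 0, 0⟩], [⟨5, 680, -8, 4, 2, 0, -4, 0, 0⟩]⟩,
  ⟨[⟨0, -1200, 0, -1, 1, 0, 0, 0, 0⟩], [⟨5, 1910, 2, 0, 2, 0, 6, 0, 0⟩], [⟨9, 1110, -14, 6, 4, 0, -6, 0, 0⟩]⟩,
  ⟨[⟨0, -105, 0, -1, 1, 0, 0, 0, 0⟩, ⟨0, 108, 0, 1, -1, 0, 0, 0, 0⟩], [⟨3, 320, 2, 0, 0, 0, 4, 0, 0⟩], [⟨5, 880, -8, 2, 4, 0, -4, 0, 0⟩, ⟨4, 592, -3, 1, 2, 0, 0, 0, 0⟩]⟩,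
  ⟨[⟨0, -18, 0, -1, 1, 0, 0, 0, 0⟩, ⟨0, 27, 0, 1, -1, 0, 0, 0, 0⟩], [⟨17, 5580, 2, 30, 12, 0, 2, 0, 0⟩], [⟨33, 2170, -50, 18, 16, 0, -30, 0, 0⟩]⟩,
  ⟨[⟨0, -150, 0, 0, -1, 1, 0, 0, 0⟩, ⟨0, 200, 0, 0, 1, -1, 0, 0, 0⟩], [⟨9, 2880, 2, 0, 0, 6, 0, 14, 0⟩], [⟨17, 2210, -26, 0, 10, 8, 0, -14, 0⟩]⟩,
  ⟨[⟨0, 10, 0, 1, -1, 0, 0, 0, 0⟩], [⟨39, 11140, 2, 76, 36, 0, 2, 0, 0⟩], [⟨79, 7420, -118, 40, 40, 0, -78, 0, 0⟩]⟩,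
  ⟨[⟨0, -201, 0, -1, 1, 0, 0, 0, 0⟩], [⟨13, 4750, 2, 0, 10, 0, 24, 0, 0⟩, ⟨13, 3860, 2, 24, 8, 0, 2, 0, 0⟩, ⟨19, 3720, -18, 18, 0, 0, 0, 0, 0⟩], [⟨25, 2620, -38, 12, 14, 0, -24, 0, 0⟩]⟩,
  ⟨[⟨0, -201, 0, -1, 1, 0, 0, 0, 0⟩], [⟨7, 1590, 2, 0, 4, 0, 4, 0, 0⟩, ⟨7, 2250, 2, 6, 0, 0, 2, 0, 0⟩, ⟨8, 1260, -7, 4, 3, 0, 0, 0, 0⟩], [⟨9, 1350, -16, 8, 2, 0, -4, 0, 0⟩]⟩,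
  ⟨[⟨0, -138, 0, -1, 1, 0, 0, 0, 0⟩, ⟨0, 150, 0, 1, -1, 0, 0, 0, 0⟩], [⟨18, 5450, 2, 0, 15, 0, 36, 0, 0⟩], [⟨36, 3250, -54, 18, 19, 0, -36, 0, 0⟩]⟩]

def wg142 : List Wn := [
  ⟨[⟨0, 73, 0, 1, -1, 0, 0, 0, 0⟩], [⟨19, 7120, 2, 0, 16, 0, 34, 0, 0⟩, ⟨19, 7120, 2, 34, 14, 0, 2, 0, 0⟩], [⟨37, 2720, -56, 20, 18, 0, -34, 0, 0⟩]⟩,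
  ⟨[], [⟨13, 5470, 2, 0, 10, 0, 22, 0, 0⟩, ⟨13, 4630, 2, 22, 8, 0, 2, 0, 0⟩], [⟨25, 1940, -38, 14, 12, 0, -22, 0, 0⟩]⟩,
  ⟨[⟨0, -1350, 0, -1, 1, 0, 0, 0, 0⟩], [⟨14, 4040, 2, 0, 11, 0, 28, 0, 0⟩], [⟨28, 2270, -42, 14, 15, 0, -28, 0, 0⟩]⟩,
  ⟨[⟨0, -220, 0, -1, 1, 0, 0, 0, 0⟩, ⟨0, 245, 0, 1, -1, 0, 0, 0, 0⟩], [⟨7, 2460, 2, 0, 4, 0, 14, 0, 0⟩], [⟨15, 1680, -22, 8, 8, 0, -14, 0, 0⟩]⟩,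
  ⟨[⟨0, -597, 0, -1, 1, 0, 0, 0, 0⟩], [⟨59, 20830, 2, 0, 112, 0, 56, 0, 0⟩, ⟨59, 24530, 2, 114, 52, 0, 2, 0, 0⟩], [⟨115, 6920, -174, 58, 58, 0, -112, 0, 0⟩]⟩,
  ⟨[⟨0, -126, 0, -1, 1, 0, 0, 0, 0⟩, ⟨0, 138, 0, 1, -1, 0, 0, 0, 0⟩], [⟨11, 2990, 2, 0, 8, 0, 10, 0, 0⟩], [⟨17, 1930, -28, 12, 6, 0, -10, 0, 0⟩, ⟨14, 2441, -13, 6, 7, 0, 0, 0, 0⟩]⟩,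
  ⟨[⟨0, -1350, 0, -1, 1, 0, 0, 0, 0⟩], [⟨17, 5540, 2, 0, 14, 0, 30, 0, 0⟩], [⟨33, 2350, -50, 18, 16, 0, -30, 0, 0⟩]⟩,
  ⟨[], [⟨9, 3950, 2, 0, 6, 0, 14, 0, 0⟩, ⟨9, 2500, 2, 4, 14, 0, 2, 0, 0⟩], [⟨17, 2100, -26, 10, 8, 0, -14, 0, 0⟩]⟩,
  ⟨[⟨0, -84, 0, -1, 1, 0, 0, 0, 0⟩, ⟨0, 92, 0, 1, -1, 0, 0, 0, 0⟩], [⟨9, 3220, 2, 0, 6, 0, 14, 0, 0⟩], [⟨17, 2170, -26, 10, 8, 0, -14, 0, 0⟩]⟩,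
  ⟨[⟨0, -180, 0, -1, 1, 0, 0, 0, 0⟩, ⟨0, 200, 0, 1, -1, 0, 0, 0, 0⟩], [⟨6, 1340, 2, 0, 3, 0, 10, 0, 0⟩], [⟨10, 1090, -16, 4, 7, 0, -10, 0, 0⟩, ⟨8, 1208, -7, 2, 5, 0, 0, 0, 0⟩]⟩,
  ⟨[⟨0, -133, 0, -1, 1, 0, 0, 0, 0⟩], [⟨7, 1350, 2, 0, 6, 0, 2, 0, 0⟩, ⟨7, 1590, 2, 8, -2, 0, 2, 0, 0⟩], [⟨9, 1490, -16, 6, 4, 0, -4, 0, 0⟩, ⟨8, 1400, -7, 3, 4, 0, 0, 0, 0⟩]⟩,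
  ⟨[⟨0, -600, 0, 0, -1, 1, 0, 0, 0⟩], [⟨27, 7930, 2, 0, 0, 24, 0, 54, 0⟩], [⟨55, 4760, -82, 0, 28, 28, 0, -54, 0⟩]⟩,
  ⟨[⟨0, -600, 0, -1, 1, 0, 0, 0, 0⟩], [⟨27, 7930, 2, 0, 24, 0, 54, 0, 0⟩], [⟨55, 4760, -82, 28, 28, 0, -54, 0, 0⟩]⟩,
  ⟨[⟨0, -1200, 0, -1, 1, 0, 0, 0, 0⟩], [⟨10, 2840, 2, 1, 6, 0, 20, 0, 0⟩], [⟨20, 1410, -30, 11, 10, 0, -20, 0, 0⟩]⟩,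
  ⟨[⟨0, -201, 0, -1, 1, 0, 0, 0, 0⟩], [⟨7, 610, 2, 0, 6, 0, 0, 0, 0⟩, ⟨7, 1270, 2, 6, -2, 0, 2, 0, 0⟩], [⟨9, 2080, -16, 8, 2, 0, -2, 0, 0⟩, ⟨8, 1350, -7, 4, 3, 0, 0, 0, 0⟩]⟩,
  ⟨[⟨0, -600, 0, 0, -1, 1, 0, 0, 0⟩], [⟨35, 11530, 2, 0, 0, 32, 0, 62, 0⟩], [⟨67, 4930, -102, 0, 36, 32, 0, -62, 0⟩]⟩]


end Pool.Agent.MP_2339ce_nt.Q2.TB
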