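import Pool.Agent.MP_2339ce_nt.Q2.HD

/-! Project Q2: generated data. -/

set_option autoImplicit false
set_option maxRecDepth 100000

noncomputable section

namespace Pool.Agent.MP_2339ce_nt.Q2.TB

def wg143 : List Wn := [
  ⟨[⟨0, -300, 0, -1, 1, 0, 0, 0, 0⟩], [⟨24, 7760, 2, 0, 21, 0, 48, 0, 0⟩, ⟨36, 5650, -35, 12, 23, 0, 0, 0, 0⟩], [⟨48, 3520, -72, 24, 25, 0, -48, 0, 0⟩]⟩,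
  ⟨[⟨0, -300, 0, 0, -1, 1, 0, 0, 0⟩], [⟨3, 1120, 2, 0, 0, 0, 0, 6, 0⟩], [⟨7, 1060, -10, 0, 4, 4, 0, -6, 0⟩]⟩,
  ⟨[⟨0, -300, 0, -1, 1, 0, 0, 0, 0⟩], [⟨3, 1120, 2, 0, 0, 0, 6, 0, 0⟩], [⟨7, 1060, -10, 4, 4, 0, -6, 0, 0⟩]⟩,
  ⟨[⟨0, -180, 0, -1, 1, 0, 0, 0, 0⟩, ⟨0, 200, 0, 1, -1, 0, 0, 0, 0⟩], [⟨17, 4600, 2, 0, 14, 0, 34, 0, 0⟩, ⟨26, 4151, -25, 9, 16, 0, 0, 0, 0⟩], [⟨35, 3690, -52, 18, 18, 0, -34, 0, 0⟩]⟩,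
  ⟨[⟨12, -5741, -44, 0, 16, -16, 0, -36, 0⟩, ⟨12, -5741, -44, 0, 4, -16, 0, -24, 0⟩, ⟨14, -7771, -52, 0, 18, -16, 0, -44, 0⟩, ⟨14, -7771, -52, 0, 6, -16, 0, -32, 0⟩], [⟨15, 6820, 2, 0, 0, 24, 0, 10, 0⟩, ⟨15, 6820, 2, 0, 8, 24, 0, 2, 0⟩], []⟩,
  ⟨[⟨0, -105, 0, -1, 1, 0, 0, 0, 0⟩, ⟨0, 108, 0, 1, -1, 0, 0, 0, 0⟩], [⟨11, 3040, 2, 0, 8, 0, 10, 0, 0⟩], [⟨17, 1890, -28, 12, 6, 0, -10, 0, 0⟩, ⟨14, 2454, -13, 6, 7, 0, 0, 0, 0⟩]⟩,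
  ⟨[⟨0, -1000, 0, 0, -1, 1, 0, 0, 0⟩], [⟨5, 1910, 2, 0, 0, 2, 0, 6, 0⟩], [⟨9, 1110, -14, 0, 6, 4, 0, -6, 0⟩]⟩,
  ⟨[⟨0, -300, 0, 0, -1, 1, 0, 0, 0⟩], [⟨15, 5000, 2, 0, 0, 12, 0, 22, 0⟩], [⟨27, 1970, -42, 0, 16, 12, 0, -22, 0⟩]⟩,
  ⟨[⟨0, -900, 0, -1, 1, 0, 0, 0, 0⟩], [⟨10, 2710, 2, 1, 6, 0, 16, 0, 0⟩, ⟨14, 2098, -13, 6, 7, 0, 0, 0, 0⟩], [⟨18, 1470, -28, 11, 8, 0, -16, 0, 0⟩]⟩,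
  ⟨[], [⟨59, 24080, 2, 0, 56, 0, 118, 0, 0⟩, ⟨59, 23450, 2, 116, 56, 0, 2, 0, 0⟩], [⟨119, 8910, -178, 60, 60, 0, -118, 0, 0⟩]⟩,
  ⟨[⟨0, -1050, 0, -1, 1, 0, 0, 0, 0⟩], [⟨5, 1910, 2, 0, 2, 0, 6, 0, 0⟩], [⟨9, 1110, -14, 6, 4, 0, -6, 0, 0⟩]⟩,
  ⟨[⟨0, -200, 0, 0, -1, 1, 0, 0, 0⟩], [⟨23, 8000, 2, 0, 0, 20, 0, 42, 0⟩], [⟨45, 3110, -68, 0, 24, 22, 0, -42, 0⟩, ⟨34, 5330, -33, 0, 12, 21, 0, 0, 0⟩]⟩,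
  ⟨[⟨0, -597, 0, 0, -1, 1, 0, 0, 0⟩], [⟨47, 21220, 2, 0, 0, 44, 0, 86, 0⟩, ⟨47, 20190, 2, 0, 88, 40, 0, 2, 0⟩], [⟨91, 5060, -138, 0, 48, 44, 0, -86, 0⟩]⟩,
  ⟨[⟨0, -126, 0, -1, 1, 0, 0, 0, 0⟩, ⟨0, 138, 0, 1, -1, 0, 0, 0, 0⟩], [⟨37, 13590, 2, 0, 34, 0, 70, 0, 0⟩], [⟨73, 4870, -110, 38, 36, 0, -70, 0, 0⟩]⟩,
  ⟨[⟨0, -900, 0, -1, 1, 0, 0, 0, 0⟩], [⟨17, 4220, 2, 1, 13, 0, 34, 0, 0⟩], [⟨33, 3170, -50, 17, 17, 0, -34, 0, 0⟩]⟩,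
  ⟨[⟨0, -66, 0, -1, 1, 0, 0, 0, 0⟩, ⟨0, 76, 0, 1, -1, 0, 0, 0, 0⟩], [⟨25, 8180, 2, 48, 22, 0, 2, 0, 0⟩], [⟨51, 4320, -76, 26, 26, 0, -50, 0, 0⟩]⟩]

def wg144 : List Wn := [
  ⟨[⟨0, -600, 0, -1, 1, 0, 0, 0, 0⟩], [⟨9, 2180, 2, 0, 6, 0, 16, 0, 0⟩], [⟨17, 1800, -26, 8, 10, 0, -16, 0, 0⟩]⟩,
  ⟨[⟨0, -1200, 0, -1, 1, 0, 0, 0, 0⟩], [⟨14, 4040, 2, 0, 11, 0, 28, 0, 0⟩], [⟨28, 2270, -42, 14, 15, 0, -28, 0, 0⟩]⟩,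
  ⟨[⟨0, -220, 0, -1, 1, 0, 0, 0, 0⟩, ⟨0, 245, 0, 1, -1, 0, 0, 0, 0⟩], [⟨8, 1880, 2, 0, 5, 0, 16, 0, 0⟩, ⟨12, 1787, -11, 4, 7, 0, 0, 0, 0⟩], [⟨16, 1690, -24, 8, 9, 0, -16, 0, 0⟩]⟩,
  ⟨[⟨0, -270, 0, -1, 1, 0, 0, 0, 0⟩, ⟨0, 300, 0, 1, -1, 0, 0, 0, 0⟩], [⟨13, 4000, 2, 0, 10, 0, 22, 0, 0⟩], [⟨25, 2090, -38, 14, 12, 0, -22, 0, 0⟩]⟩,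
  ⟨[⟨0, -150, 0, -1, 1, 0, 0, 0, 0⟩, ⟨0, 165, 0, 1, -1, 0, 0, 0, 0⟩], [⟨43, 14400, 2, 0, 40, 0, 86, 0, 0⟩], [⟨87, 7030, -130, 44, 44, 0, -86, 0, 0⟩]⟩,
  ⟨[⟨0, -245, 0, -1, 1, 0, 0, 0, 0⟩, ⟨0, 270, 0, 1, -1, 0, 0, 0, 0⟩], [⟨18, 5440, 2, 0, 15, 0, 34, 0, 0⟩], [⟨34, 2860, -52, 16, 19, 0, -34, 0, 0⟩, ⟨26, 4121, -25, 8, 17, 0, 0, 0, 0⟩]⟩,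
  ⟨[⟨0, -150, 0, -1, 1, 0, 0, 0, 0⟩, ⟨0, 165, 0, 1, -1, 0, 0, 0, 0⟩], [⟨5, 700, 2, 0, 2, 0, 2, 0, 0⟩], [⟨7, 1280, -12, 6, 2, 0, -2, 0, 0⟩, ⟨6, 977, -5, 3, 2, 0, 0, 0, 0⟩]⟩,
  ⟨[⟨0, -1200, 0, -1, 1, 0, 0, 0, 0⟩], [⟨17, 5540, 2, 0, 14, 0, 30, 0, 0⟩], [⟨33, 2350, -50, 18, 16, 0, -30, 0, 0⟩]⟩,
  ⟨[⟨0, -159, 0, 0, -1, 1, 0, 0, 0⟩], [⟨43, 14840, 2, 0, 0, 80, 0, 38, 0⟩, ⟨43, 18260, 2, 0, 80, 36, 0, 2, 0⟩], [⟨83, 5280, -126, 0, 44, 40, 0, -78, 0⟩]⟩,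
  ⟨[⟨0, -93, 0, -1, 1, 0, 0, 0, 0⟩], [⟨7, 1350, 2, 0, 6, 0, 2, 0, 0⟩, ⟨7, 1590, 2, 8, -2, 0, 2, 0, 0⟩], [⟨9, 1420, -16, 6, 4, 0, -4, 0, 0⟩, ⟨8, 1360, -7, 3, 4, 0, 0, 0, 0⟩]⟩,
  ⟨[⟨0, -500, 0, 0, -1, 1, 0, 0, 0⟩], [⟨27, 7960, 2, 0, 0, 24, 0, 54, 0⟩], [⟨55, 4760, -82, 0, 28, 28, 0, -54, 0⟩]⟩,
  ⟨[⟨0, -126, 0, -1, 1, 0, 0, 0, 0⟩, ⟨0, 138, 0, 1, -1, 0, 0, 0, 0⟩], [⟨4, 710, 2, 0, 1, 0, 8, 0, 0⟩, ⟨6, 772, -5, 2, 3, 0, 0, 0, 0⟩], [⟨8, 830, -12, 4, 5, 0, -8, 0, 0⟩]⟩,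
  ⟨[], [⟨35, 14730, 2, 0, 32, 0, 62, 0, 0⟩, ⟨35, 13710, 2, 64, 28, 0, 2, 0, 0⟩], [⟨67, 4550, -102, 36, 32, 0, -62, 0, 0⟩]⟩,
  ⟨[⟨0, -450, 0, -1, 1, 0, 0, 0, 0⟩], [⟨27, 7990, 2, 0, 24, 0, 54, 0, 0⟩], [⟨55, 4760, -82, 28, 28, 0, -54, 0, 0⟩]⟩,
  ⟨[⟨0, -60, 0, 0, -1, 1, 0, 0, 0⟩, ⟨0, 100, 0, 0, 1, -1, 0, 0, 0⟩], [⟨13, 4740, 2, 0, 22, 8, 0, 2, 0⟩], [⟨25, 1990, -38, 0, 14, 12, 0, -22, 0⟩]⟩,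
  ⟨[⟨0, -1050, 0, -1, 1, 0, 0, 0, 0⟩], [⟨10, 2840, 2, 1, 6, 0, 20, 0, 0⟩], [⟨20, 1410, -30, 11, 10, 0, -20, 0, 0⟩]⟩]

def wg145 : List Wn := [
  ⟨[⟨0, -500, 0, 0, -1, 1, 0, 0, 0⟩, ⟨0, 600, 0, 0, 1, -1, 0, 0, 0⟩], [⟨19, 5760, 2, 0, 0, 16, 0, 34, 0⟩], [⟨37, 3110, -56, 0, 20, 18, 0, -34, 0⟩, ⟨28, 4419, -27, 0, 10, 17, 0, 0, 0⟩]⟩,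
  ⟨[⟨0, -500, 0, 0, -1, 1, 0, 0, 0⟩], [⟨11, 4560, 2, 0, 0, 8, 0, 14, 0⟩], [⟨19, 1270, -30, 0, 12, 8, 0, -14, 0⟩]⟩,
  ⟨[⟨0, -1050, 0, -1, 1, 0, 0, 0, 0⟩, ⟨0, 1200, 0, 1, -1, 0, 0, 0, 0⟩], [⟨19, 5720, 2, 0, 16, 0, 34, 0, 0⟩], [⟨37, 3120, -56, 20, 18, 0, -34, 0, 0⟩, ⟨28, 4413, -27, 10, 17, 0, 0, 0, 0⟩]⟩,
  ⟨[⟨0, -500, 0, 0, -1, 1, 0, 0, 0⟩], [⟨35, 11570, 2, 0, 0, 32, 0, 62, 0⟩], [⟨67, 4930, -102, 0, 36, 32, 0, -62, 0⟩]⟩,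
  ⟨[⟨0, -105, 0, -1, 1, 0, 0, 0, 0⟩, ⟨0, 108, 0, 1, -1, 0, 0, 0, 0⟩], [⟨8, 1810, 2, 0, 5, 0, 16, 0, 0⟩, ⟨12, 1754, -11, 4, 7, 0, 0, 0, 0⟩], [⟨16, 1690, -24, 8, 9, 0, -16, 0, 0⟩]⟩,
  ⟨[⟨0, -200, 0, 0, -1, 1, 0, 0, 0⟩], [⟨3, 1180, 2, 0, 0, 0, 0, 6, 0⟩], [⟨7, 1060, -10, 0, 4, 4, 0, -6, 0⟩]⟩,
  ⟨[⟨0, -400, 0, 0, -1, 1, 0, 0, 0⟩], [⟨23, 8320, 2, 0, 0, 20, 0, 34, 0⟩, ⟨32, 5393, -31, 0, 12, 19, 0, 0, 0⟩], [⟨41, 2400, -64, 0, 24, 18, 0, -34, 0⟩]⟩,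
  ⟨[⟨0, -180, 0, -1, 1, 0, 0, 0, 0⟩, ⟨0, 200, 0, 1, -1, 0, 0, 0, 0⟩], [⟨17, 4600, 2, 0, 14, 0, 34, 0, 0⟩], [⟨35, 3690, -52, 18, 18, 0, -34, 0, 0⟩, ⟨26, 4109, -25, 9, 16, 0, 0, 0, 0⟩]⟩,
  ⟨[⟨16, -6951, -56, 0, 20, -20, 0, -48, 0⟩, ⟨16, -6951, -56, 0, 4, -20, 0, -32, 0⟩, ⟨18, -9041, -64, 0, 22, -20, 0, -56, 0⟩, ⟨18, -9041, -64, 0, 6, -20, 0, -40, 0⟩], [⟨19, 8450, 2, 0, 0, 32, 0, 14, 0⟩, ⟨19, 8450, 2, 0, 12, 32, 0, 2, 0⟩], []⟩,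
  ⟨[⟨0, -800, 0, 0, -1, 1, 0, 0, 0⟩], [⟨5, 1910, 2, 0, 0, 2, 0, 6, 0⟩], [⟨9, 1110, -14, 0, 6, 4, 0, -6, 0⟩]⟩,
  ⟨[⟨0, -200, 0, 0, -1, 1, 0, 0, 0⟩], [⟨15, 5130, 2, 0, 0, 12, 0, 22, 0⟩], [⟨27, 1910, -42, 0, 16, 12, 0, -22, 0⟩]⟩,
  ⟨[⟨0, -750, 0, -1, 1, 0, 0, 0, 0⟩], [⟨10, 2720, 2, 1, 6, 0, 16, 0, 0⟩, ⟨14, 2100, -13, 6, 7, 0, 0, 0, 0⟩], [⟨18, 1470, -28, 11, 8, 0, -16, 0, 0⟩]⟩,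
  ⟨[⟨0, -66, 0, -1, 1, 0, 0, 0, 0⟩, ⟨0, 76, 0, 1, -1, 0, 0, 0, 0⟩], [⟨3, 710, 2, 2, 0, 0, 2, 0, 0⟩], [⟨5, 860, -8, 4, 2, 0, -4, 0, 0⟩]⟩,
  ⟨[⟨0, -900, 0, -1, 1, 0, 0, 0, 0⟩], [⟨5, 1910, 2, 0, 2, 0, 6, 0, 0⟩], [⟨9, 1110, -14, 6, 4, 0, -6, 0, 0⟩]⟩,
  ⟨[⟨0, -165, 0, -1, 1, 0, 0, 0, 0⟩, ⟨0, 180, 0, 1, -1, 0, 0, 0, 0⟩], [⟨11, 2920, 2, 0, 8, 0, 10, 0, 0⟩], [⟨17, 1980, -28, 12, 6, 0, -10, 0, 0⟩, ⟨14, 2433, -13, 6, 7, 0, 0, 0, 0⟩]⟩,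
  ⟨[], [⟨67, 19970, 2, 0, 132, 0, 66, 0, 0⟩, ⟨67, 25660, 2, 132, 64, 0, 2, 0, 0⟩], [⟨135, 11740, -202, 68, 68, 0, -134, 0, 0⟩]⟩]

def wg146 : List Wn := [
  ⟨[⟨0, -220, 0, -1, 1, 0, 0, 0, 0⟩, ⟨0, 245, 0, 1, -1, 0, 0, 0, 0⟩], [⟨31, 9510, 2, 0, 28, 0, 62, 0, 0⟩], [⟨63, 5570, -94, 32, 32, 0, -62, 0, 0⟩]⟩,
  ⟨[⟨0, -23, 0, 0, -1, 1, 0, 0, 0⟩, ⟨0, 60, 0, 0, 1, -1, 0, 0, 0⟩], [⟨21, 6310, 2, 0, 38, 16, 0, 2, 0⟩], [⟨41, 3670, -62, 0, 22, 20, 0, -38, 0⟩]⟩,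
  ⟨[⟨0, -399, 0, 0, -1, 1, 0, 0, 0⟩], [⟨47, 21220, 2, 0, 0, 44, 0, 86, 0⟩, ⟨47, 20190, 2, 0, 88, 40, 0, 2, 0⟩], [⟨91, 5040, -138, 0, 48, 44, 0, -86, 0⟩]⟩,
  ⟨[⟨0, -150, 0, 0, -1, 1, 0, 0, 0⟩, ⟨0, 200, 0, 0, 1, -1, 0, 0, 0⟩], [⟨10, 3120, 2, 0, 0, 7, 0, 16, 0⟩], [⟨18, 1430, -28, 0, 10, 9, 0, -16, 0⟩, ⟨14, 2238, -13, 0, 5, 8, 0, 0, 0⟩]⟩,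
  ⟨[⟨0, -180, 0, -1, 1, 0, 0, 0, 0⟩, ⟨0, 200, 0, 1, -1, 0, 0, 0, 0⟩], [⟨15, 4340, 2, 0, 12, 0, 28, 0, 0⟩], [⟨29, 2780, -44, 14, 16, 0, -28, 0, 0⟩, ⟨22, 3532, -21, 7, 14, 0, 0, 0, 0⟩]⟩,
  ⟨[⟨0, -597, 0, -1, 1, 0, 0, 0, 0⟩], [⟨61, 25860, 2, 0, 58, 0, 118, 0, 0⟩, ⟨61, 25020, 2, 118, 56, 0, 2, 0, 0⟩], [⟨121, 8190, -182, 62, 60, 0, -118, 0, 0⟩]⟩,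
  ⟨[⟨0, -1350, 0, -1, 1, 0, 0, 0, 0⟩], [⟨17, 4220, 2, 0, 14, 0, 34, 0, 0⟩, ⟨26, 3962, -25, 9, 16, 0, 0, 0, 0⟩], [⟨35, 3690, -52, 18, 18, 0, -34, 0, 0⟩]⟩,
  ⟨[⟨0, -450, 0, -1, 1, 0, 0, 0, 0⟩], [⟨9, 2200, 2, 0, 6, 0, 16, 0, 0⟩], [⟨17, 1800, -26, 8, 10, 0, -16, 0, 0⟩]⟩,
  ⟨[⟨0, -92, 0, -1, 1, 0, 0, 0, 0⟩, ⟨0, 99, 0, 1, -1, 0, 0, 0, 0⟩], [⟨9, 2450, 2, 0, 6, 0, 14, 0, 0⟩], [⟨17, 1990, -26, 10, 8, 0, -14, 0, 0⟩]⟩,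
  ⟨[⟨0, -133, 0, -1, 1, 0, 0, 0, 0⟩], [⟨7, 1590, 2, 0, 4, 0, 4, 0, 0⟩, ⟨7, 2250, 2, 6, 0, 0, 2, 0, 0⟩, ⟨8, 1320, -7, 4, 3, 0, 0, 0, 0⟩], [⟨9, 1320, -16, 8, 2, 0, -4, 0, 0⟩]⟩,
  ⟨[⟨0, -1350, 0, -1, 1, 0, 0, 0, 0⟩], [⟨22, 6900, 2, 1, 18, 0, 36, 0, 0⟩], [⟨40, 2960, -62, 23, 18, 0, -36, 0, 0⟩]⟩,
  ⟨[⟨0, -200, 0, 0, -1, 1, 0, 0, 0⟩], [⟨30, 8810, 2, 0, 1, 26, 0, 58, 0⟩, ⟨44, 7024, -43, 0, 16, 27, 0, 0, 0⟩], [⟨58, 5210, -88, 0, 31, 28, 0, -58, 0⟩]⟩,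
  ⟨[⟨0, -1050, 0, -1, 1, 0, 0, 0, 0⟩], [⟨14, 4040, 2, 0, 11, 0, 28, 0, 0⟩], [⟨28, 2270, -42, 14, 15, 0, -28, 0, 0⟩]⟩,
  ⟨[⟨0, -1050, 0, -1, 1, 0, 0, 0, 0⟩], [⟨17, 5540, 2, 0, 14, 0, 30, 0, 0⟩], [⟨33, 2350, -50, 18, 16, 0, -30, 0, 0⟩]⟩,
  ⟨[⟨0, -400, 0, 0, -1, 1, 0, 0, 0⟩], [⟨27, 8030, 2, 0, 0, 24, 0, 54, 0⟩], [⟨55, 4760, -82, 0, 28, 28, 0, -54, 0⟩]⟩,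
  ⟨[⟨0, -300, 0, -1, 1, 0, 0, 0, 0⟩], [⟨27, 8160, 2, 0, 24, 0, 54, 0, 0⟩], [⟨55, 4760, -82, 28, 28, 0, -54, 0, 0⟩]⟩]

def wg147 : List Wn := [
  ⟨[⟨0, -165, 0, -1, 1, 0, 0, 0, 0⟩, ⟨0, 180, 0, 1, -1, 0, 0, 0, 0⟩], [⟨37, 13310, 2, 0, 34, 0, 70, 0, 0⟩], [⟨73, 4890, -110, 38, 36, 0, -70, 0, 0⟩]⟩,
  ⟨[⟨0, -900, 0, -1, 1, 0, 0, 0, 0⟩], [⟨10, 2840, 2, 1, 6, 0, 20, 0, 0⟩], [⟨20, 1410, -30, 11, 10, 0, -20, 0, 0⟩]⟩,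
  ⟨[⟨0, -400, 0, 0, -1, 1, 0, 0, 0⟩], [⟨11, 4580, 2, 0, 0, 8, 0, 14, 0⟩], [⟨19, 1260, -30, 0, 12, 8, 0, -14, 0⟩]⟩,
  ⟨[⟨0, -133, 0, -1, 1, 0, 0, 0, 0⟩], [⟨7, 610, 2, 0, 6, 0, 0, 0, 0⟩, ⟨7, 1270, 2, 6, -2, 0, 2, 0, 0⟩], [⟨9, 2020, -16, 8, 2, 0, -2, 0, 0⟩, ⟨8, 1310, -7, 4, 3, 0, 0, 0, 0⟩]⟩,
  ⟨[⟨0, -200, 0, 0, -1, 1, 0, 0, 0⟩], [⟨24, 7970, 2, 0, 0, 21, 0, 48, 0⟩, ⟨36, 5756, -35, 0, 12, 23, 0, 0, 0⟩], [⟨48, 3520, -72, 0, 24, 25, 0, -48, 0⟩]⟩,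
  ⟨[⟨0, -400, 0, 0, -1, 1, 0, 0, 0⟩], [⟨35, 11650, 2, 0, 0, 32, 0, 62, 0⟩], [⟨67, 4910, -102, 0, 36, 32, 0, -62, 0⟩]⟩,
  ⟨[], [⟨19, 8050, 2, 0, 0, 16, 0, 30, 0⟩, ⟨19, 7670, 2, 0, 32, 12, 0, 2, 0⟩], [⟨35, 1940, -54, 0, 20, 16, 0, -30, 0⟩]⟩,
  ⟨[⟨0, -10, 0, -1, 1, 0, 0, 0, 0⟩, ⟨0, 18, 0, 1, -1, 0, 0, 0, 0⟩], [⟨23, 6850, 2, 44, 20, 0, 2, 0, 0⟩], [⟨47, 4110, -70, 24, 24, 0, -46, 0, 0⟩]⟩,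
  ⟨[⟨0, -220, 0, -1, 1, 0, 0, 0, 0⟩, ⟨0, 245, 0, 1, -1, 0, 0, 0, 0⟩], [⟨11, 3160, 2, 0, 8, 0, 20, 0, 0⟩], [⟨21, 1910, -32, 10, 12, 0, -20, 0, 0⟩, ⟨16, 2520, -15, 5, 10, 0, 0, 0, 0⟩]⟩,
  ⟨[⟨0, -200, 0, -1, 1, 0, 0, 0, 0⟩, ⟨0, 220, 0, 1, -1, 0, 0, 0, 0⟩], [⟨14, 4350, 2, 1, 10, 0, 24, 0, 0⟩, ⟨20, 3169, -19, 8, 11, 0, 0, 0, 0⟩], [⟨26, 1970, -40, 15, 12, 0, -24, 0, 0⟩]⟩,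
  ⟨[⟨0, -180, 0, -1, 1, 0, 0, 0, 0⟩, ⟨0, 200, 0, 1, -1, 0, 0, 0, 0⟩], [⟨18, 5330, 2, 0, 15, 0, 36, 0, 0⟩], [⟨36, 3250, -54, 18, 19, 0, -36, 0, 0⟩]⟩,
  ⟨[⟨20, -8191, -68, 0, 24, -24, 0, -60, 0⟩, ⟨20, -8191, -68, 0, 4, -24, 0, -40, 0⟩, ⟨22, -10331, -76, 0, 26, -24, 0, -68, 0⟩, ⟨22, -10331, -76, 0, 6, -24, 0, -48, 0⟩], [⟨23, 10080, 2, 0, 0, 40, 0, 18, 0⟩, ⟨23, 10080, 2, 0, 16, 40, 0, 2, 0⟩], []⟩,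
  ⟨[⟨0, -38, 0, -1, 1, 0, 0, 0, 0⟩, ⟨0, 50, 0, 1, -1, 0, 0, 0, 0⟩], [⟨19, 5600, 2, 36, 16, 0, 2, 0, 0⟩], [⟨39, 3690, -58, 20, 20, 0, -38, 0, 0⟩]⟩,
  ⟨[⟨0, -600, 0, 0, -1, 1, 0, 0, 0⟩], [⟨5, 1910, 2, 0, 0, 2, 0, 6, 0⟩], [⟨9, 1110, -14, 0, 6, 4, 0, -6, 0⟩]⟩,
  ⟨[⟨0, -600, 0, -1, 1, 0, 0, 0, 0⟩], [⟨10, 2720, 2, 1, 6, 0, 16, 0, 0⟩, ⟨14, 2104, -13, 6, 7, 0, 0, 0, 0⟩], [⟨18, 1470, -28, 11, 8, 0, -16, 0, 0⟩]⟩,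
  ⟨[⟨0, -750, 0, -1, 1, 0, 0, 0, 0⟩], [⟨5, 1910, 2, 0, 2, 0, 6, 0, 0⟩], [⟨9, 1110, -14, 6, 4, 0, -6, 0, 0⟩]⟩]

def wg148 : List Wn := [
  ⟨[⟨0, -597, 0, -1, 1, 0, 0, 0, 0⟩], [⟨23, 9810, 2, 0, 20, 0, 40, 0, 0⟩, ⟨23, 8730, 2, 42, 16, 0, 2, 0, 0⟩, ⟨33, 5960, -32, 32, 0, 0, 0, 0, 0⟩], [⟨43, 3040, -66, 22, 22, 0, -40, 0, 0⟩]⟩,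
  ⟨[⟨0, -165, 0, -1, 1, 0, 0, 0, 0⟩, ⟨0, 180, 0, 1, -1, 0, 0, 0, 0⟩], [⟨4, 760, 2, 0, 1, 0, 8, 0, 0⟩, ⟨6, 796, -5, 2, 3, 0, 0, 0, 0⟩], [⟨8, 830, -12, 4, 5, 0, -8, 0, 0⟩]⟩,
  ⟨[⟨0, -84, 0, -1, 1, 0, 0, 0, 0⟩, ⟨0, 92, 0, 1, -1, 0, 0, 0, 0⟩], [⟨19, 7100, 2, 0, 16, 0, 38, 0, 0⟩], [⟨39, 3690, -58, 20, 20, 0, -38, 0, 0⟩]⟩,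
  ⟨[⟨0, -1350, 0, -1, 1, 0, 0, 0, 0⟩], [⟨34, 11280, 2, 0, 31, 0, 68, 0, 0⟩], [⟨68, 4550, -102, 34, 35, 0, -68, 0, 0⟩]⟩,
  ⟨[⟨0, -1200, 0, -1, 1, 0, 0, 0, 0⟩], [⟨17, 4220, 2, 0, 14, 0, 34, 0, 0⟩, ⟨26, 3962, -25, 9, 16, 0, 0, 0, 0⟩], [⟨35, 3690, -52, 18, 18, 0, -34, 0, 0⟩]⟩,
  ⟨[⟨0, -23, 0, 0, -1, 1, 0, 0, 0⟩, ⟨0, 60, 0, 0, 1, -1, 0, 0, 0⟩], [⟨27, 10010, 2, 0, 48, 20, 0, 2, 0⟩], [⟨51, 2600, -78, 0, 28, 24, 0, -46, 0⟩]⟩,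
  ⟨[⟨0, -92, 0, -1, 1, 0, 0, 0, 0⟩, ⟨0, 99, 0, 1, -1, 0, 0, 0, 0⟩], [⟨9, 2270, 2, 0, 6, 0, 14, 0, 0⟩], [⟨17, 1330, -26, 10, 8, 0, -14, 0, 0⟩]⟩,
  ⟨[⟨0, -93, 0, -1, 1, 0, 0, 0, 0⟩], [⟨7, 1590, 2, 0, 4, 0, 4, 0, 0⟩, ⟨7, 2250, 2, 6, 0, 0, 2, 0, 0⟩, ⟨8, 1390, -7, 4, 3, 0, 0, 0, 0⟩], [⟨9, 1290, -16, 8, 2, 0, -4, 0, 0⟩]⟩,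
  ⟨[⟨0, -1350, 0, -1, 1, 0, 0, 0, 0⟩], [⟨37, 12430, 2, 0, 34, 0, 70, 0, 0⟩], [⟨73, 4970, -110, 38, 36, 0, -70, 0, 0⟩]⟩,
  ⟨[⟨0, -900, 0, -1, 1, 0, 0, 0, 0⟩], [⟨14, 4040, 2, 0, 11, 0, 28, 0, 0⟩], [⟨28, 2270, -42, 14, 15, 0, -28, 0, 0⟩]⟩,
  ⟨[⟨0, -270, 0, -1, 1, 0, 0, 0, 0⟩, ⟨0, 300, 0, 1, -1, 0, 0, 0, 0⟩], [⟨14, 4400, 2, 0, 11, 0, 24, 0, 0⟩], [⟨26, 2020, -40, 14, 13, 0, -24, 0, 0⟩, ⟨20, 3193, -19, 7, 12, 0, 0, 0, 0⟩]⟩,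
  ⟨[⟨0, -900, 0, -1, 1, 0, 0, 0, 0⟩], [⟨17, 5550, 2, 0, 14, 0, 30, 0, 0⟩], [⟨33, 2350, -50, 18, 16, 0, -30, 0, 0⟩]⟩,
  ⟨[⟨0, -270, 0, -1, 1, 0, 0, 0, 0⟩, ⟨0, 300, 0, 1, -1, 0, 0, 0, 0⟩], [⟨6, 1260, 2, 1, 2, 0, 8, 0, 0⟩, ⟨8, 1169, -7, 4, 3, 0, 0, 0, 0⟩], [⟨10, 1070, -16, 7, 4, 0, -8, 0, 0⟩]⟩,
  ⟨[⟨0, -300, 0, 0, -1, 1, 0, 0, 0⟩], [⟨27, 8160, 2, 0, 0, 24, 0, 54, 0⟩], [⟨55, 4760, -82, 0, 28, 28, 0, -54, 0⟩]⟩,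
  ⟨[⟨0, -105, 0, -1, 1, 0, 0, 0, 0⟩, ⟨0, 108, 0, 1, -1, 0, 0, 0, 0⟩], [⟨37, 13790, 2, 0, 34, 0, 70, 0, 0⟩], [⟨73, 4860, -110, 38, 36, 0, -70, 0, 0⟩]⟩,
  ⟨[⟨0, -600, 0, -1, 1, 0, 0, 0, 0⟩], [⟨13, 3430, 2, 0, 10, 0, 24, 0, 0⟩], [⟨25, 2450, -38, 12, 14, 0, -24, 0, 0⟩]⟩]

def wg149 : List Wn := [
  ⟨[⟨0, -750, 0, -1, 1, 0, 0, 0, 0⟩], [⟨10, 2840, 2, 1, 6, 0, 20, 0, 0⟩], [⟨20, 1410, -30, 11, 10, 0, -20, 0, 0⟩]⟩,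
  ⟨[⟨0, -300, 0, 0, -1, 1, 0, 0, 0⟩], [⟨11, 4630, 2, 0, 0, 8, 0, 14, 0⟩], [⟨19, 1230, -30, 0, 12, 8, 0, -14, 0⟩]⟩,
  ⟨[⟨0, -159, 0, 0, -1, 1, 0, 0, 0⟩], [⟨17, 5500, 2, 0, 0, 14, 0, 34, 0⟩, ⟨17, 5700, 2, 0, 32, 14, 0, 2, 0⟩, ⟨26, 4490, -25, 0, 9, 16, 0, 0, 0⟩], [⟨35, 3490, -52, 0, 18, 18, 0, -34, 0⟩]⟩,
  ⟨[⟨0, -93, 0, -1, 1, 0, 0, 0, 0⟩], [⟨7, 610, 2, 0, 6, 0, 0, 0, 0⟩, ⟨7, 1270, 2, 6, -2, 0, 2, 0, 0⟩], [⟨9, 1970, -16, 8, 2, 0, -2, 0, 0⟩, ⟨8, 1270, -7, 4, 3, 0, 0, 0, 0⟩]⟩,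
  ⟨[⟨0, -300, 0, 0, -1, 1, 0, 0, 0⟩], [⟨35, 11810, 2, 0, 0, 32, 0, 62, 0⟩], [⟨67, 4880, -102, 0, 36, 32, 0, -62, 0⟩]⟩,
  ⟨[⟨24, -9451, -80, 0, 28, -28, 0, -72, 0⟩, ⟨24, -9451, -80, 0, 4, -28, 0, -48, 0⟩, ⟨26, -11631, -88, 0, 30, -28, 0, -80, 0⟩, ⟨26, -11631, -88, 0, 6, -28, 0, -56, 0⟩], [⟨27, 11710, 2, 0, 0, 48, 0, 22, 0⟩, ⟨27, 11710, 2, 0, 20, 48, 0, 2, 0⟩], []⟩,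
  ⟨[⟨0, -500, 0, 0, -1, 1, 0, 0, 0⟩], [⟨5, 1920, 2, 0, 0, 2, 0, 6, 0⟩], [⟨9, 1100, -14, 0, 6, 4, 0, -6, 0⟩]⟩,
  ⟨[⟨0, -450, 0, -1, 1, 0, 0, 0, 0⟩], [⟨10, 2750, 2, 1, 6, 0, 16, 0, 0⟩, ⟨14, 2116, -13, 6, 7, 0, 0, 0, 0⟩], [⟨18, 1460, -28, 11, 8, 0, -16, 0, 0⟩]⟩,
  ⟨[⟨0, -66, 0, -1, 1, 0, 0, 0, 0⟩, ⟨0, 76, 0, 1, -1, 0, 0, 0, 0⟩], [⟨3, 450, 2, 4, 0, 0, 2, 0, 0⟩], [⟨7, 210, -10, 4, 4, 0, -6, 0, 0⟩]⟩,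
  ⟨[⟨0, -600, 0, -1, 1, 0, 0, 0, 0⟩], [⟨5, 1910, 2, 0, 2, 0, 6, 0, 0⟩], [⟨9, 1110, -14, 6, 4, 0, -6, 0, 0⟩]⟩,
  ⟨[⟨0, -138, 0, -1, 1, 0, 0, 0, 0⟩, ⟨0, 150, 0, 1, -1, 0, 0, 0, 0⟩], [⟨5, 730, 2, 0, 2, 0, 10, 0, 0⟩, ⟨8, 1173, -7, 3, 4, 0, 0, 0, 0⟩], [⟨11, 1610, -16, 6, 6, 0, -10, 0, 0⟩]⟩,
  ⟨[⟨0, -76, 0, -1, 1, 0, 0, 0, 0⟩, ⟨0, 84, 0, 1, -1, 0, 0, 0, 0⟩], [⟨15, 4920, 2, 26, 10, 0, 2, 0, 0⟩], [⟨29, 2200, -44, 16, 14, 0, -26, 0, 0⟩]⟩,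
  ⟨[⟨0, -1350, 0, -1, 1, 0, 0, 0, 0⟩], [⟨21, 5480, 2, 0, 18, 0, 40, 0, 0⟩], [⟨41, 4000, -62, 22, 20, 0, -40, 0, 0⟩]⟩,
  ⟨[⟨0, -108, 0, -1, 1, 0, 0, 0, 0⟩, ⟨0, 114, 0, 1, -1, 0, 0, 0, 0⟩], [⟨15, 4870, 2, 0, 12, 0, 30, 0, 0⟩], [⟨31, 2710, -46, 16, 16, 0, -30, 0, 0⟩]⟩,
  ⟨[⟨0, -201, 0, 0, -1, 1, 0, 0, 0⟩], [⟨47, 21220, 2, 0, 0, 44, 0, 86, 0⟩, ⟨47, 20190, 2, 0, 88, 40, 0, 2, 0⟩], [⟨91, 4950, -138, 0, 48, 44, 0, -86, 0⟩]⟩,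
  ⟨[⟨0, -301, 0, -1, 1, 0, 0, 0, 0⟩], [⟨61, 25860, 2, 0, 58, 0, 118, 0, 0⟩, ⟨61, 25020, 2, 118, 56, 0, 2, 0, 0⟩], [⟨121, 8160, -182, 62, 60, 0, -118, 0, 0⟩]⟩]

def wg150 : List Wn := [
  ⟨[⟨0, -1200, 0, -1, 1, 0, 0, 0, 0⟩], [⟨34, 11280, 2, 0, 31, 0, 68, 0, 0⟩], [⟨68, 4550, -102, 34, 35, 0, -68, 0, 0⟩]⟩,
  ⟨[⟨0, -1050, 0, -1, 1, 0, 0, 0, 0⟩], [⟨17, 4220, 2, 0, 14, 0, 34, 0, 0⟩, ⟨26, 3962, -25, 9, 16, 0, 0, 0, 0⟩], [⟨35, 3690, -52, 18, 18, 0, -34, 0, 0⟩]⟩,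
  ⟨[⟨0, -126, 0, -1, 1, 0, 0, 0, 0⟩, ⟨0, 138, 0, 1, -1, 0, 0, 0, 0⟩], [⟨30, 9690, 2, 0, 27, 0, 60, 0, 0⟩], [⟨60, 5130, -90, 30, 31, 0, -60, 0, 0⟩]⟩,
  ⟨[⟨0, -1350, 0, -1, 1, 0, 0, 0, 0⟩], [⟨9, 2830, 2, 0, 6, 0, 16, 0, 0⟩], [⟨17, 1980, -26, 8, 10, 0, -16, 0, 0⟩]⟩,
  ⟨[⟨0, -300, 0, 0, -1, 1, 0, 0, 0⟩, ⟨0, 400, 0, 0, 1, -1, 0, 0, 0⟩], [⟨9, 2060, 2, 0, 0, 6, 0, 18, 0⟩], [⟨19, 2140, -28, 0, 10, 10, 0, -18, 0⟩, ⟨14, 2072, -13, 0, 5, 8, 0, 0, 0⟩]⟩,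
  ⟨[⟨0, -93, 0, 0, -1, 1, 0, 0, 0⟩], [⟨13, 2130, 2, 0, 0, 14, 0, 0, 0⟩, ⟨13, 3390, 2, 0, 12, 0, 0, 2, 0⟩, ⟨14, 2530, -13, 0, 7, 6, 0, 0, 0⟩], [⟨15, 2290, -28, 0, 14, 2, 0, -4, 0⟩]⟩,
  ⟨[], [⟨7, 1590, 2, 0, 4, 0, 4, 0, 0⟩, ⟨7, 2250, 2, 6, 0, 0, 2, 0, 0⟩, ⟨8, 1510, -7, 4, 3, 0, 0, 0, 0⟩], [⟨9, 1200, -16, 8, 2, 0, -4, 0, 0⟩]⟩,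
  ⟨[⟨0, -1200, 0, -1, 1, 0, 0, 0, 0⟩], [⟨37, 12430, 2, 0, 34, 0, 70, 0, 0⟩], [⟨73, 4970, -110, 38, 36, 0, -70, 0, 0⟩]⟩,
  ⟨[⟨0, -825, 0, -1, 1, 0, 0, 0, 0⟩, ⟨0, 900, 0, 1, -1, 0, 0, 0, 0⟩], [⟨9, 1970, 2, 0, 6, 0, 18, 0, 0⟩], [⟨19, 2140, -28, 10, 10, 0, -18, 0, 0⟩, ⟨14, 2050, -13, 5, 8, 0, 0, 0, 0⟩]⟩,
  ⟨[⟨0, -245, 0, -1, 1, 0, 0, 0, 0⟩, ⟨0, 270, 0, 1, -1, 0, 0, 0, 0⟩], [⟨25, 8720, 2, 0, 22, 0, 46, 0, 0⟩], [⟨49, 3270, -74, 26, 24, 0, -46, 0, 0⟩]⟩,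
  ⟨[⟨0, 99, 0, 1, -1, 0, 0, 0, 0⟩], [⟨15, 5060, 2, 0, 12, 0, 28, 0, 0⟩, ⟨15, 5260, 2, 26, 12, 0, 2, 0, 0⟩], [⟨29, 2580, -44, 16, 14, 0, -28, 0, 0⟩]⟩,
  ⟨[⟨0, -750, 0, -1, 1, 0, 0, 0, 0⟩], [⟨14, 4050, 2, 0, 11, 0, 28, 0, 0⟩], [⟨28, 2270, -42, 14, 15, 0, -28, 0, 0⟩]⟩,
  ⟨[⟨0, -200, 0, 0, -1, 1, 0, 0, 0⟩, ⟨0, 300, 0, 0, 1, -1, 0, 0, 0⟩], [⟨18, 5640, 2, 0, 0, 15, 0, 32, 0⟩], [⟨34, 2820, -52, 0, 18, 17, 0, -32, 0⟩, ⟨26, 4146, -25, 0, 9, 16, 0, 0, 0⟩]⟩,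
  ⟨[⟨0, -750, 0, -1, 1, 0, 0, 0, 0⟩, ⟨0, 825, 0, 1, -1, 0, 0, 0, 0⟩], [⟨18, 5350, 2, 0, 15, 0, 32, 0, 0⟩], [⟨34, 2890, -52, 18, 17, 0, -32, 0, 0⟩, ⟨26, 4110, -25, 9, 16, 0, 0, 0, 0⟩]⟩,
  ⟨[⟨0, -750, 0, -1, 1, 0, 0, 0, 0⟩], [⟨17, 5550, 2, 0, 14, 0, 30, 0, 0⟩], [⟨33, 2350, -50, 18, 16, 0, -30, 0, 0⟩]⟩,
  ⟨[⟨0, -201, 0, -1, 1, 0, 0, 0, 0⟩], [⟨9, 3280, 2, 0, 6, 0, 14, 0, 0⟩, ⟨9, 2450, 2, 14, 4, 0, 2, 0, 0⟩], [⟨17, 2050, -26, 10, 8, 0, -14, 0, 0⟩]⟩]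

def wg151 : List Wn := [
  ⟨[⟨0, -200, 0, 0, -1, 1, 0, 0, 0⟩], [⟨27, 8420, 2, 0, 0, 24, 0, 54, 0⟩], [⟨55, 4760, -82, 0, 28, 28, 0, -54, 0⟩]⟩,
  ⟨[⟨0, -99, 0, -1, 1, 0, 0, 0, 0⟩, ⟨0, 101, 0, 1, -1, 0, 0, 0, 0⟩], [⟨33, 11220, 2, 0, 30, 0, 62, 0, 0⟩], [⟨65, 5520, -98, 34, 32, 0, -62, 0, 0⟩]⟩,
  ⟨[⟨0, -400, 0, 0, -1, 1, 0, 0, 0⟩, ⟨0, 500, 0, 0, 1, -1, 0, 0, 0⟩], [⟨31, 9830, 2, 0, 0, 28, 0, 58, 0⟩], [⟨61, 4840, -92, 0, 32, 30, 0, -58, 0⟩, ⟨46, 7288, -45, 0, 16, 29, 0, 0, 0⟩]⟩,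
  ⟨[⟨0, -138, 0, -1, 1, 0, 0, 0, 0⟩, ⟨0, 150, 0, 1, -1, 0, 0, 0, 0⟩], [⟨15, 4690, 2, 0, 12, 0, 30, 0, 0⟩], [⟨31, 2710, -46, 16, 16, 0, -30, 0, 0⟩]⟩,
  ⟨[⟨0, -108, 0, -1, 1, 0, 0, 0, 0⟩, ⟨0, 114, 0, 1, -1, 0, 0, 0, 0⟩], [⟨11, 3960, 2, 0, 8, 0, 18, 0, 0⟩], [⟨21, 1340, -32, 12, 10, 0, -18, 0, 0⟩, ⟨16, 2619, -15, 6, 9, 0, 0, 0, 0⟩]⟩,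
  ⟨[⟨0, -600, 0, -1, 1, 0, 0, 0, 0⟩], [⟨10, 2850, 2, 1, 6, 0, 20, 0, 0⟩], [⟨20, 1410, -30, 11, 10, 0, -20, 0, 0⟩]⟩,
  ⟨[⟨0, -200, 0, 0, -1, 1, 0, 0, 0⟩], [⟨11, 4720, 2, 0, 0, 8, 0, 14, 0⟩], [⟨19, 1180, -30, 0, 12, 8, 0, -14, 0⟩]⟩,
  ⟨[⟨0, -200, 0, 0, -1, 1, 0, 0, 0⟩], [⟨35, 12130, 2, 0, 0, 32, 0, 62, 0⟩], [⟨67, 4820, -102, 0, 36, 32, 0, -62, 0⟩]⟩,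
  ⟨[⟨0, -10, 0, -1, 1, 0, 0, 0, 0⟩, ⟨0, 18, 0, 1, -1, 0, 0, 0, 0⟩], [⟨9, 1710, 2, 14, 4, 0, 2, 0, 0⟩], [⟨17, 1260, -26, 10, 8, 0, -14, 0, 0⟩]⟩,
  ⟨[⟨0, -180, 0, -1, 1, 0, 0, 0, 0⟩, ⟨0, 200, 0, 1, -1, 0, 0, 0, 0⟩], [⟨18, 5300, 2, 1, 14, 0, 34, 0, 0⟩, ⟨26, 4086, -25, 10, 15, 0, 0, 0, 0⟩], [⟨34, 2860, -52, 19, 16, 0, -34, 0, 0⟩]⟩,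
  ⟨[⟨28, -10731, -92, 0, 32, -32, 0, -84, 0⟩, ⟨28, -10731, -92, 0, 4, -32, 0, -56, 0⟩, ⟨30, -12941, -100, 0, 34, -32, 0, -92, 0⟩, ⟨30, -12941, -100, 0, 6, -32, 0, -64, 0⟩], [⟨31, 13340, 2, 0, 0, 56, 0, 26, 0⟩, ⟨31, 13340, 2, 0, 24, 56, 0, 2, 0⟩], []⟩,
  ⟨[⟨0, -200, 0, -1, 1, 0, 0, 0, 0⟩, ⟨0, 220, 0, 1, -1, 0, 0, 0, 0⟩], [⟨43, 14050, 2, 0, 40, 0, 86, 0, 0⟩], [⟨87, 7030, -130, 44, 44, 0, -86, 0, 0⟩]⟩,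
  ⟨[⟨0, -400, 0, 0, -1, 1, 0, 0, 0⟩], [⟨5, 1930, 2, 0, 0, 2, 0, 6, 0⟩], [⟨9, 1100, -14, 0, 6, 4, 0, -6, 0⟩]⟩,
  ⟨[⟨0, -300, 0, -1, 1, 0, 0, 0, 0⟩], [⟨10, 2810, 2, 1, 6, 0, 16, 0, 0⟩, ⟨14, 2149, -13, 6, 7, 0, 0, 0, 0⟩], [⟨18, 1450, -28, 11, 8, 0, -16, 0, 0⟩]⟩,
  ⟨[⟨0, -450, 0, -1, 1, 0, 0, 0, 0⟩], [⟨5, 1920, 2, 0, 2, 0, 6, 0, 0⟩], [⟨9, 1100, -14, 6, 4, 0, -6, 0, 0⟩]⟩,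
  ⟨[⟨0, -138, 0, -1, 1, 0, 0, 0, 0⟩, ⟨0, 150, 0, 1, -1, 0, 0, 0, 0⟩], [⟨5, 730, 2, 0, 2, 0, 10, 0, 0⟩], [⟨11, 1610, -16, 6, 6, 0, -10, 0, 0⟩, ⟨8, 1141, -7, 3, 4, 0, 0, 0, 0⟩]⟩]

def wg152 : List Wn := [
  ⟨[⟨0, -1200, 0, -1, 1, 0, 0, 0, 0⟩], [⟨21, 5480, 2, 0, 18, 0, 40, 0, 0⟩], [⟨41, 4000, -62, 22, 20, 0, -40, 0, 0⟩]⟩,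
  ⟨[], [⟨67, 25660, 2, 0, 64, 0, 134, 0, 0⟩, ⟨67, 25020, 2, 132, 64, 0, 2, 0, 0⟩], [⟨135, 11740, -202, 68, 68, 0, -134, 0, 0⟩]⟩,
  ⟨[⟨0, -159, 0, 0, -1, 1, 0, 0, 0⟩], [⟨47, 21220, 2, 0, 0, 44, 0, 86, 0⟩, ⟨47, 20190, 2, 0, 88, 40, 0, 2, 0⟩], [⟨91, 4910, -138, 0, 48, 44, 0, -86, 0⟩]⟩,
  ⟨[⟨0, -138, 0, -1, 1, 0, 0, 0, 0⟩, ⟨0, 150, 0, 1, -1, 0, 0, 0, 0⟩], [⟨11, 3900, 2, 0, 8, 0, 18, 0, 0⟩], [⟨21, 1360, -32, 12, 10, 0, -18, 0, 0⟩, ⟨16, 2608, -15, 6, 9, 0, 0, 0, 0⟩]⟩,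
  ⟨[⟨0, -201, 0, -1, 1, 0, 0, 0, 0⟩], [⟨61, 25860, 2, 0, 58, 0, 118, 0, 0⟩, ⟨61, 25020, 2, 118, 56, 0, 2, 0, 0⟩], [⟨121, 8130, -182, 62, 60, 0, -118, 0, 0⟩]⟩,
  ⟨[⟨0, -1050, 0, -1, 1, 0, 0, 0, 0⟩], [⟨34, 11280, 2, 0, 31, 0, 68, 0, 0⟩], [⟨68, 4550, -102, 34, 35, 0, -68, 0, 0⟩]⟩,
  ⟨[⟨0, -900, 0, -1, 1, 0, 0, 0, 0⟩], [⟨17, 4220, 2, 0, 14, 0, 34, 0, 0⟩, ⟨26, 3963, -25, 9, 16, 0, 0, 0, 0⟩], [⟨35, 3690, -52, 18, 18, 0, -34, 0, 0⟩]⟩,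
  ⟨[⟨0, -1200, 0, -1, 1, 0, 0, 0, 0⟩], [⟨9, 2830, 2, 0, 6, 0, 16, 0, 0⟩], [⟨17, 1980, -26, 8, 10, 0, -16, 0, 0⟩]⟩,
  ⟨[⟨0, -1050, 0, -1, 1, 0, 0, 0, 0⟩], [⟨37, 12440, 2, 0, 34, 0, 70, 0, 0⟩], [⟨73, 4970, -110, 38, 36, 0, -70, 0, 0⟩]⟩,
  ⟨[⟨0, -23, 0, 0, -1, 1, 0, 0, 0⟩, ⟨0, 60, 0, 0, 1, -1, 0, 0, 0⟩], [⟨5, 1610, 2, 0, 8, 2, 0, 2, 0⟩], [⟨11, 1600, -16, 0, 6, 6, 0, -10, 0⟩]⟩,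
  ⟨[⟨0, -150, 0, 0, -1, 1, 0, 0, 0⟩, ⟨0, 200, 0, 0, 1, -1, 0, 0, 0⟩], [⟨29, 10230, 2, 0, 0, 26, 0, 54, 0⟩], [⟨57, 4050, -86, 0, 30, 28, 0, -54, 0⟩]⟩,
  ⟨[⟨0, -600, 0, -1, 1, 0, 0, 0, 0⟩], [⟨14, 4060, 2, 0, 11, 0, 28, 0, 0⟩], [⟨28, 2270, -42, 14, 15, 0, -28, 0, 0⟩]⟩,
  ⟨[⟨0, -245, 0, -1, 1, 0, 0, 0, 0⟩, ⟨0, 270, 0, 1, -1, 0, 0, 0, 0⟩], [⟨17, 4460, 2, 0, 14, 0, 34, 0, 0⟩, ⟨26, 4082, -25, 9, 16, 0, 0, 0, 0⟩], [⟨35, 3690, -52, 18, 18, 0, -34, 0, 0⟩]⟩,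
  ⟨[⟨0, -600, 0, -1, 1, 0, 0, 0, 0⟩], [⟨17, 5560, 2, 0, 14, 0, 30, 0, 0⟩], [⟨33, 2350, -50, 18, 16, 0, -30, 0, 0⟩]⟩,
  ⟨[⟨0, -159, 0, 0, -1, 1, 0, 0, 0⟩], [⟨65, 26800, 2, 0, 0, 62, 0, 126, 0⟩, ⟨65, 25960, 2, 0, 126, 60, 0, 2, 0⟩], [⟨129, 9380, -194, 0, 66, 64, 0, -126, 0⟩]⟩,
  ⟨[⟨0, -597, 0, -1, 1, 0, 0, 0, 0⟩], [⟨59, 26090, 2, 0, 56, 0, 110, 0, 0⟩, ⟨59, 25700, 2, 112, 52, 0, 2, 0, 0⟩], [⟨115, 6340, -174, 60, 56, 0, -110, 0, 0⟩]⟩]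

def wg153 : List Wn := [
  ⟨[⟨0, -530, 0, -1, 1, 0, 0, 0, 0⟩, ⟨0, 600, 0, 1, -1, 0, 0, 0, 0⟩], [⟨5, 1070, 2, 0, 2, 0, 6, 0, 0⟩], [⟨9, 260, -14, 6, 4, 0, -6, 0, 0⟩]⟩,
  ⟨[⟨0, -93, 0, -1, 1, 0, 0, 0, 0⟩], [⟨5, 2250, 2, 0, 2, 0, 6, 0, 0⟩, ⟨5, 1420, 2, 6, 0, 0, 2, 0, 0⟩], [⟨9, 810, -14, 6, 4, 0, -6, 0, 0⟩]⟩,
  ⟨[⟨0, -300, 0, -1, 1, 0, 0, 0, 0⟩], [⟨13, 3530, 2, 0, 10, 0, 24, 0, 0⟩], [⟨25, 2450, -38, 12, 14, 0, -24, 0, 0⟩]⟩,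
  ⟨[⟨0, -450, 0, -1, 1, 0, 0, 0, 0⟩], [⟨10, 2870, 2, 1, 6, 0, 20, 0, 0⟩], [⟨20, 1410, -30, 11, 10, 0, -20, 0, 0⟩]⟩,
  ⟨[⟨0, -101, 0, -1, 1, 0, 0, 0, 0⟩, ⟨0, 103, 0, 1, -1, 0, 0, 0, 0⟩], [⟨21, 6790, 2, 0, 18, 0, 38, 0, 0⟩], [⟨41, 3730, -62, 22, 20, 0, -38, 0, 0⟩]⟩,
  ⟨[⟨0, -100, 0, 0, -1, 1, 0, 0, 0⟩, ⟨0, 150, 0, 0, 1, -1, 0, 0, 0⟩], [⟨7, 2160, 2, 0, 0, 4, 0, 10, 0⟩], [⟨13, 1100, -20, 0, 8, 6, 0, -10, 0⟩, ⟨10, 1498, -9, 0, 4, 5, 0, 0, 0⟩]⟩,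
  ⟨[⟨0, -99, 0, -1, 1, 0, 0, 0, 0⟩, ⟨0, 101, 0, 1, -1, 0, 0, 0, 0⟩], [⟨26, 8880, 2, 0, 23, 0, 52, 0, 0⟩], [⟨52, 4320, -78, 26, 27, 0, -52, 0, 0⟩]⟩,
  ⟨[⟨0, -126, 0, -1, 1, 0, 0, 0, 0⟩, ⟨0, 138, 0, 1, -1, 0, 0, 0, 0⟩], [⟨11, 2710, 2, 0, 8, 0, 22, 0, 0⟩], [⟨23, 2730, -34, 12, 12, 0, -22, 0, 0⟩]⟩,
  ⟨[⟨0, -165, 0, -1, 1, 0, 0, 0, 0⟩, ⟨0, 180, 0, 1, -1, 0, 0, 0, 0⟩], [⟨30, 9470, 2, 0, 27, 0, 60, 0, 0⟩], [⟨60, 5130, -90, 30, 31, 0, -60, 0, 0⟩]⟩,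
  ⟨[⟨32, -12011, -104, 0, 36, -36, 0, -96, 0⟩, ⟨32, -12011, -104, 0, 4, -36, 0, -64, 0⟩, ⟨34, -14261, -112, 0, 38, -36, 0, -104, 0⟩, ⟨34, -14261, -112, 0, 6, -36, 0, -72, 0⟩], [⟨35, 14970, 2, 0, 0, 64, 0, 30, 0⟩, ⟨35, 14970, 2, 0, 28, 64, 0, 2, 0⟩], []⟩,
  ⟨[⟨0, -300, 0, -1, 1, 0, 0, 0, 0⟩], [⟨5, 1950, 2, 0, 2, 0, 6, 0, 0⟩], [⟨9, 1080, -14, 6, 4, 0, -6, 0, 0⟩]⟩,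
  ⟨[⟨0, -133, 0, 0, -1, 1, 0, 0, 0⟩], [⟨47, 21220, 2, 0, 0, 44, 0, 86, 0⟩, ⟨47, 20190, 2, 0, 88, 40, 0, 2, 0⟩], [⟨91, 4880, -138, 0, 48, 44, 0, -86, 0⟩]⟩,
  ⟨[⟨0, -900, 0, -1, 1, 0, 0, 0, 0⟩], [⟨34, 11280, 2, 0, 31, 0, 68, 0, 0⟩], [⟨68, 4550, -102, 34, 35, 0, -68, 0, 0⟩]⟩,
  ⟨[⟨0, -750, 0, -1, 1, 0, 0, 0, 0⟩], [⟨17, 4220, 2, 0, 14, 0, 34, 0, 0⟩, ⟨26, 3965, -25, 9, 16, 0, 0, 0, 0⟩], [⟨35, 3690, -52, 18, 18, 0, -34, 0, 0⟩]⟩,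
  ⟨[⟨0, -900, 0, -1, 1, 0, 0, 0, 0⟩], [⟨37, 12440, 2, 0, 34, 0, 70, 0, 0⟩], [⟨73, 4970, -110, 38, 36, 0, -70, 0, 0⟩]⟩,
  ⟨[⟨0, -18, 0, -1, 1, 0, 0, 0, 0⟩, ⟨0, 27, 0, 1, -1, 0, 0, 0, 0⟩], [⟨15, 4620, 2, 26, 10, 0, 2, 0, 0⟩], [⟨29, 2150, -44, 16, 14, 0, -26, 0, 0⟩]⟩]

def wg154 : List Wn := [
  ⟨[⟨0, -108, 0, -1, 1, 0, 0, 0, 0⟩, ⟨0, 114, 0, 1, -1, 0, 0, 0, 0⟩], [⟨14, 4570, 2, 0, 11, 0, 26, 0, 0⟩], [⟨26, 2030, -40, 12, 15, 0, -26, 0, 0⟩, ⟨20, 3274, -19, 6, 13, 0, 0, 0, 0⟩]⟩,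
  ⟨[⟨0, -450, 0, -1, 1, 0, 0, 0, 0⟩], [⟨14, 4080, 2, 0, 11, 0, 28, 0, 0⟩], [⟨28, 2270, -42, 14, 15, 0, -28, 0, 0⟩]⟩,
  ⟨[⟨0, 10, 0, 1, -1, 0, 0, 0, 0⟩], [⟨37, 11870, 2, 72, 34, 0, 2, 0, 0⟩], [⟨75, 5730, -112, 38, 38, 0, -74, 0, 0⟩]⟩,
  ⟨[⟨0, -500, 0, 0, -1, 1, 0, 0, 0⟩], [⟨17, 5580, 2, 0, 0, 14, 0, 30, 0⟩], [⟨33, 2340, -50, 0, 18, 16, 0, -30, 0⟩]⟩,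
  ⟨[⟨0, -150, 0, 0, -1, 1, 0, 0, 0⟩, ⟨0, 200, 0, 0, 1, -1, 0, 0, 0⟩], [⟨21, 6050, 2, 0, 0, 18, 0, 42, 0⟩, ⟨32, 5200, -31, 0, 11, 20, 0, 0, 0⟩], [⟨43, 4330, -64, 0, 22, 22, 0, -42, 0⟩]⟩,
  ⟨[⟨0, -450, 0, -1, 1, 0, 0, 0, 0⟩], [⟨17, 5600, 2, 0, 14, 0, 30, 0, 0⟩], [⟨33, 2340, -50, 18, 16, 0, -30, 0, 0⟩]⟩,
  ⟨[⟨0, -180, 0, -1, 1, 0, 0, 0, 0⟩, ⟨0, 200, 0, 1, -1, 0, 0, 0, 0⟩], [⟨5, 720, 2, 0, 2, 0, 10, 0, 0⟩, ⟨8, 1169, -7, 3, 4, 0, 0, 0, 0⟩], [⟨11, 1610, -16, 6, 6, 0, -10, 0, 0⟩]⟩,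
  ⟨[⟨0, -201, 0, -1, 1, 0, 0, 0, 0⟩], [⟨7, 1790, 2, 0, 4, 0, 4, 0, 0⟩, ⟨7, 1120, 2, 8, -2, 0, 2, 0, 0⟩], [⟨9, 1580, -16, 6, 4, 0, -4, 0, 0⟩, ⟨8, 1440, -7, 3, 4, 0, 0, 0, 0⟩]⟩,
  ⟨[⟨0, -38, 0, -1, 1, 0, 0, 0, 0⟩, ⟨0, 50, 0, 1, -1, 0, 0, 0, 0⟩], [⟨7, 1920, 2, 10, 2, 0, 2, 0, 0⟩], [⟨13, 190, -20, 8, 6, 0, -10, 0, 0⟩]⟩,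
  ⟨[], [⟨5, 2250, 2, 0, 2, 0, 6, 0, 0⟩, ⟨5, 1420, 2, 6, 0, 0, 2, 0, 0⟩], [⟨9, 730, -14, 6, 4, 0, -6, 0, 0⟩]⟩,
  ⟨[⟨0, -101, 0, -1, 1, 0, 0, 0, 0⟩, ⟨0, 103, 0, 1, -1, 0, 0, 0, 0⟩], [⟨7, 2530, 2, 0, 4, 0, 6, 0, 0⟩], [⟨11, 1410, -18, 8, 4, 0, -6, 0, 0⟩]⟩,
  ⟨[⟨0, -400, 0, 0, -1, 1, 0, 0, 0⟩, ⟨0, 500, 0, 0, 1, -1, 0, 0, 0⟩], [⟨10, 2950, 2, 0, 0, 7, 0, 16, 0⟩], [⟨18, 1520, -28, 0, 10, 9, 0, -16, 0⟩, ⟨14, 2217, -13, 0, 5, 8, 0, 0, 0⟩]⟩,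
  ⟨[⟨0, -220, 0, -1, 1, 0, 0, 0, 0⟩, ⟨0, 245, 0, 1, -1, 0, 0, 0, 0⟩], [⟨4, 760, 2, 0, 1, 0, 8, 0, 0⟩, ⟨6, 797, -5, 2, 3, 0, 0, 0, 0⟩], [⟨8, 830, -12, 4, 5, 0, -8, 0, 0⟩]⟩,
  ⟨[⟨0, -300, 0, -1, 1, 0, 0, 0, 0⟩], [⟨10, 2940, 2, 1, 6, 0, 20, 0, 0⟩], [⟨20, 1410, -30, 11, 10, 0, -20, 0, 0⟩]⟩,
  ⟨[⟨0, -245, 0, -1, 1, 0, 0, 0, 0⟩, ⟨0, 270, 0, 1, -1, 0, 0, 0, 0⟩], [⟨15, 4230, 2, 0, 12, 0, 28, 0, 0⟩], [⟨29, 2780, -44, 14, 16, 0, -28, 0, 0⟩, ⟨22, 3483, -21, 7, 14, 0, 0, 0, 0⟩]⟩,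
  ⟨[⟨0, -105, 0, -1, 1, 0, 0, 0, 0⟩, ⟨0, 108, 0, 1, -1, 0, 0, 0, 0⟩], [⟨30, 9880, 2, 0, 27, 0, 60, 0, 0⟩], [⟨60, 5130, -90, 30, 31, 0, -60, 0, 0⟩]⟩]

def wg155 : List Wn := [
  ⟨[⟨0, -126, 0, -1, 1, 0, 0, 0, 0⟩, ⟨0, 138, 0, 1, -1, 0, 0, 0, 0⟩], [⟨11, 2520, 2, 0, 8, 0, 22, 0, 0⟩], [⟨23, 2070, -34, 12, 12, 0, -22, 0, 0⟩]⟩,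
  ⟨[⟨0, -138, 0, -1, 1, 0, 0, 0, 0⟩, ⟨0, 150, 0, 1, -1, 0, 0, 0, 0⟩], [⟨14, 4470, 2, 0, 11, 0, 26, 0, 0⟩], [⟨26, 2030, -40, 12, 15, 0, -26, 0, 0⟩, ⟨20, 3229, -19, 6, 13, 0, 0, 0, 0⟩]⟩,
  ⟨[⟨36, -13311, -116, 0, 40, -40, 0, -108, 0⟩, ⟨36, -13311, -116, 0, 4, -40, 0, -72, 0⟩, ⟨38, -15581, -124, 0, 42, -40, 0, -116, 0⟩, ⟨38, -15581, -124, 0, 6, -40, 0, -80, 0⟩], [⟨39, 16600, 2, 0, 0, 72, 0, 34, 0⟩, ⟨39, 16600, 2, 0, 32, 72, 0, 2, 0⟩], []⟩,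
  ⟨[⟨0, 99, 0, 1, -1, 0, 0, 0, 0⟩], [⟨13, 4190, 2, 0, 10, 0, 26, 0, 0⟩, ⟨13, 3420, 2, 10, 24, 0, 2, 0, 0⟩], [⟨27, 2590, -40, 14, 14, 0, -26, 0, 0⟩]⟩,
  ⟨[⟨0, -200, 0, 0, -1, 1, 0, 0, 0⟩], [⟨10, 2920, 2, 0, 1, 6, 0, 16, 0⟩, ⟨14, 2202, -13, 0, 6, 7, 0, 0, 0⟩], [⟨18, 1420, -28, 0, 11, 8, 0, -16, 0⟩]⟩,
  ⟨[⟨0, -200, 0, 0, -1, 1, 0, 0, 0⟩], [⟨5, 2010, 2, 0, 0, 2, 0, 6, 0⟩], [⟨9, 1050, -14, 0, 6, 4, 0, -6, 0⟩]⟩,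
  ⟨[⟨0, -159, 0, 0, -1, 1, 0, 0, 0⟩], [⟨9, 2670, 2, 0, 0, 14, 0, 6, 0⟩, ⟨9, 3750, 2, 0, 14, 4, 0, 2, 0⟩], [⟨17, 2210, -26, 0, 10, 8, 0, -14, 0⟩]⟩,
  ⟨[⟨0, -105, 0, -1, 1, 0, 0, 0, 0⟩, ⟨0, 108, 0, 1, -1, 0, 0, 0, 0⟩], [⟨3, 710, 2, 0, 0, 0, 6, 0, 0⟩], [⟨7, 880, -10, 4, 4, 0, -6, 0, 0⟩]⟩,
  ⟨[⟨0, -93, 0, 0, -1, 1, 0, 0, 0⟩], [⟨47, 21220, 2, 0, 0, 44, 0, 86, 0⟩, ⟨47, 20190, 2, 0, 88, 40, 0, 2, 0⟩], [⟨91, 4830, -138, 0, 48, 44, 0, -86, 0⟩]⟩,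
  ⟨[⟨0, -165, 0, -1, 1, 0, 0, 0, 0⟩, ⟨0, 180, 0, 1, -1, 0, 0, 0, 0⟩], [⟨4, 890, 2, 1, 0, 0, 8, 0, 0⟩, ⟨6, 863, -5, 3, 2, 0, 0, 0, 0⟩], [⟨8, 830, -12, 5, 4, 0, -8, 0, 0⟩]⟩,
  ⟨[⟨0, -180, 0, -1, 1, 0, 0, 0, 0⟩, ⟨0, 200, 0, 1, -1, 0, 0, 0, 0⟩], [⟨15, 4580, 2, 0, 12, 0, 30, 0, 0⟩], [⟨31, 2710, -46, 16, 16, 0, -30, 0, 0⟩]⟩,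
  ⟨[⟨0, -50, 0, -1, 1, 0, 0, 0, 0⟩, ⟨0, 66, 0, 1, -1, 0, 0, 0, 0⟩], [⟨13, 4060, 2, 22, 8, 0, 2, 0, 0⟩], [⟨25, 1980, -38, 14, 12, 0, -22, 0, 0⟩]⟩,
  ⟨[⟨0, -750, 0, -1, 1, 0, 0, 0, 0⟩], [⟨34, 11290, 2, 0, 31, 0, 68, 0, 0⟩], [⟨68, 4550, -102, 34, 35, 0, -68, 0, 0⟩]⟩,
  ⟨[⟨0, -600, 0, -1, 1, 0, 0, 0, 0⟩], [⟨17, 4240, 2, 0, 14, 0, 34, 0, 0⟩, ⟨26, 3972, -25, 9, 16, 0, 0, 0, 0⟩], [⟨35, 3690, -52, 18, 18, 0, -34, 0, 0⟩]⟩,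
  ⟨[⟨0, -220, 0, -1, 1, 0, 0, 0, 0⟩, ⟨0, 245, 0, 1, -1, 0, 0, 0, 0⟩], [⟨37, 13030, 2, 0, 34, 0, 70, 0, 0⟩], [⟨73, 4920, -110, 38, 36, 0, -70, 0, 0⟩]⟩,
  ⟨[⟨0, -93, 0, -1, 1, 0, 0, 0, 0⟩], [⟨5, 1200, 2, 0, 2, 0, 8, 0, 0⟩, ⟨5, 920, 2, 8, 0, 0, 2, 0, 0⟩], [⟨9, 260, -14, 4, 6, 0, -8, 0, 0⟩]⟩]

def wg156 : List Wn := [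
  ⟨[⟨0, -900, 0, -1, 1, 0, 0, 0, 0⟩], [⟨9, 2840, 2, 0, 6, 0, 16, 0, 0⟩], [⟨17, 1980, -26, 8, 10, 0, -16, 0, 0⟩]⟩,
  ⟨[⟨0, -750, 0, -1, 1, 0, 0, 0, 0⟩], [⟨37, 12450, 2, 0, 34, 0, 70, 0, 0⟩], [⟨73, 4970, -110, 38, 36, 0, -70, 0, 0⟩]⟩,
  ⟨[⟨0, -165, 0, -1, 1, 0, 0, 0, 0⟩, ⟨0, 180, 0, 1, -1, 0, 0, 0, 0⟩], [⟨11, 2600, 2, 0, 8, 0, 22, 0, 0⟩], [⟨23, 2730, -34, 12, 12, 0, -22, 0, 0⟩]⟩,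
  ⟨[], [⟨15, 6030, 2, 0, 12, 0, 30, 0, 0⟩, ⟨15, 4270, 2, 12, 28, 0, 2, 0, 0⟩], [⟨31, 2710, -46, 16, 16, 0, -30, 0, 0⟩]⟩,
  ⟨[⟨0, -300, 0, -1, 1, 0, 0, 0, 0⟩], [⟨14, 4160, 2, 0, 11, 0, 28, 0, 0⟩], [⟨28, 2270, -42, 14, 15, 0, -28, 0, 0⟩]⟩,
  ⟨[⟨0, -245, 0, -1, 1, 0, 0, 0, 0⟩, ⟨0, 270, 0, 1, -1, 0, 0, 0, 0⟩], [⟨18, 5200, 2, 0, 15, 0, 36, 0, 0⟩], [⟨36, 3250, -54, 18, 19, 0, -36, 0, 0⟩]⟩,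
  ⟨[⟨0, -400, 0, 0, -1, 1, 0, 0, 0⟩], [⟨17, 5620, 2, 0, 0, 14, 0, 30, 0⟩], [⟨33, 2330, -50, 0, 18, 16, 0, -30, 0⟩]⟩,
  ⟨[⟨0, -108, 0, -1, 1, 0, 0, 0, 0⟩, ⟨0, 114, 0, 1, -1, 0, 0, 0, 0⟩], [⟨5, 600, 2, 0, 2, 0, 10, 0, 0⟩, ⟨8, 1107, -7, 3, 4, 0, 0, 0, 0⟩], [⟨11, 1610, -16, 6, 6, 0, -10, 0, 0⟩]⟩,
  ⟨[⟨0, -300, 0, -1, 1, 0, 0, 0, 0⟩], [⟨17, 5700, 2, 0, 14, 0, 30, 0, 0⟩], [⟨33, 2320, -50, 18, 16, 0, -30, 0, 0⟩]⟩,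
  ⟨[⟨0, -180, 0, -1, 1, 0, 0, 0, 0⟩, ⟨0, 200, 0, 1, -1, 0, 0, 0, 0⟩], [⟨5, 720, 2, 0, 2, 0, 10, 0, 0⟩], [⟨11, 1610, -16, 6, 6, 0, -10, 0, 0⟩, ⟨8, 1150, -7, 3, 4, 0, 0, 0, 0⟩]⟩,
  ⟨[⟨0, -38, 0, -1, 1, 0, 0, 0, 0⟩, ⟨0, 50, 0, 1, -1, 0, 0, 0, 0⟩], [⟨7, 2770, 2, 10, 2, 0, 2, 0, 0⟩], [⟨13, 1040, -20, 8, 6, 0, -10, 0, 0⟩]⟩,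
  ⟨[⟨0, -500, 0, 0, -1, 1, 0, 0, 0⟩, ⟨0, 600, 0, 0, 1, -1, 0, 0, 0⟩], [⟨5, 730, 2, 0, 0, 2, 0, 4, 0⟩], [⟨7, 1380, -12, 0, 4, 4, 0, -4, 0⟩, ⟨6, 1048, -5, 0, 2, 3, 0, 0, 0⟩]⟩,
  ⟨[⟨0, -220, 0, -1, 1, 0, 0, 0, 0⟩, ⟨0, 245, 0, 1, -1, 0, 0, 0, 0⟩], [⟨4, 760, 2, 0, 1, 0, 8, 0, 0⟩], [⟨8, 830, -12, 4, 5, 0, -8, 0, 0⟩, ⟨6, 786, -5, 2, 3, 0, 0, 0, 0⟩]⟩,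
  ⟨[⟨0, -1350, 0, -1, 1, 0, 0, 0, 0⟩], [⟨10, 3500, 2, 1, 6, 0, 20, 0, 0⟩], [⟨20, 1590, -30, 11, 10, 0, -20, 0, 0⟩]⟩,
  ⟨[⟨0, -180, 0, -1, 1, 0, 0, 0, 0⟩, ⟨0, 200, 0, 1, -1, 0, 0, 0, 0⟩], [⟨11, 3820, 2, 0, 8, 0, 18, 0, 0⟩], [⟨21, 1380, -32, 12, 10, 0, -18, 0, 0⟩, ⟨16, 2577, -15, 6, 9, 0, 0, 0, 0⟩]⟩,
  ⟨[⟨0, -675, 0, -1, 1, 0, 0, 0, 0⟩, ⟨0, 750, 0, 1, -1, 0, 0, 0, 0⟩], [⟨19, 4980, 2, 0, 16, 0, 36, 0, 0⟩], [⟨37, 3760, -56, 18, 20, 0, -36, 0, 0⟩, ⟨28, 4358, -27, 9, 18, 0, 0, 0, 0⟩]⟩]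

def wg157 : List Wn := [
  ⟨[⟨40, -14611, -128, 0, 44, -44, 0, -120, 0⟩, ⟨40, -14611, -128, 0, 4, -44, 0, -80, 0⟩, ⟨42, -16911, -136, 0, 46, -44, 0, -128, 0⟩, ⟨42, -16911, -136, 0, 6, -44, 0, -88, 0⟩], [⟨43, 18230, 2, 0, 0, 80, 0, 38, 0⟩, ⟨43, 18230, 2, 0, 36, 80, 0, 2, 0⟩], []⟩,
  ⟨[⟨0, 99, 0, 1, -1, 0, 0, 0, 0⟩], [⟨13, 4190, 2, 0, 10, 0, 26, 0, 0⟩, ⟨13, 4390, 2, 24, 10, 0, 2, 0, 0⟩], [⟨27, 2590, -40, 14, 14, 0, -26, 0, 0⟩]⟩,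
  ⟨[⟨0, -1350, 0, -1, 1, 0, 0, 0, 0⟩], [⟨20, 5100, 2, 1, 16, 0, 40, 0, 0⟩, ⟨30, 4500, -29, 11, 18, 0, 0, 0, 0⟩], [⟨40, 3890, -60, 21, 20, 0, -40, 0, 0⟩]⟩,
  ⟨[⟨0, -66, 0, -1, 1, 0, 0, 0, 0⟩, ⟨0, 76, 0, 1, -1, 0, 0, 0, 0⟩], [⟨4, 1590, 2, 6, 1, 0, 2, 0, 0⟩], [⟨8, 820, -12, 4, 5, 0, -8, 0, 0⟩]⟩,
  ⟨[⟨0, -138, 0, -1, 1, 0, 0, 0, 0⟩, ⟨0, 150, 0, 1, -1, 0, 0, 0, 0⟩], [⟨6, 2300, 2, 0, 3, 0, 12, 0, 0⟩], [⟨12, 1220, -18, 6, 7, 0, -12, 0, 0⟩]⟩,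
  ⟨[⟨0, -105, 0, -1, 1, 0, 0, 0, 0⟩, ⟨0, 108, 0, 1, -1, 0, 0, 0, 0⟩], [⟨3, 520, 2, 0, 0, 0, 6, 0, 0⟩], [⟨7, 210, -10, 4, 4, 0, -6, 0, 0⟩]⟩,
  ⟨[], [⟨47, 21220, 2, 0, 0, 44, 0, 86, 0⟩, ⟨47, 20190, 2, 0, 88, 40, 0, 2, 0⟩], [⟨91, 4680, -138, 0, 48, 44, 0, -86, 0⟩]⟩,
  ⟨[⟨0, -1350, 0, -1, 1, 0, 0, 0, 0⟩], [⟨3, 210, 2, 0, 0, 0, 4, 0, 0⟩], [⟨5, 880, -8, 2, 4, 0, -4, 0, 0⟩, ⟨4, 538, -3, 1, 2, 0, 0, 0, 0⟩]⟩,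
  ⟨[⟨0, -114, 0, -1, 1, 0, 0, 0, 0⟩, ⟨0, 126, 0, 1, -1, 0, 0, 0, 0⟩], [⟨42, 14420, 2, 0, 39, 0, 84, 0, 0⟩], [⟨84, 6590, -126, 42, 43, 0, -84, 0, 0⟩]⟩,
  ⟨[⟨0, -180, 0, -1, 1, 0, 0, 0, 0⟩, ⟨0, 200, 0, 1, -1, 0, 0, 0, 0⟩], [⟨16, 5340, 2, 0, 13, 0, 32, 0, 0⟩, ⟨24, 3796, -23, 8, 15, 0, 0, 0, 0⟩], [⟨32, 2240, -48, 16, 17, 0, -32, 0, 0⟩]⟩,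
  ⟨[⟨0, -500, 0, 0, -1, 1, 0, 0, 0⟩], [⟨17, 4260, 2, 0, 0, 14, 0, 34, 0⟩, ⟨26, 3982, -25, 0, 9, 16, 0, 0, 0⟩], [⟨35, 3690, -52, 0, 18, 18, 0, -34, 0⟩]⟩,
  ⟨[⟨0, -600, 0, -1, 1, 0, 0, 0, 0⟩], [⟨34, 11310, 2, 0, 31, 0, 68, 0, 0⟩], [⟨68, 4550, -102, 34, 35, 0, -68, 0, 0⟩]⟩,
  ⟨[⟨0, -450, 0, -1, 1, 0, 0, 0, 0⟩], [⟨17, 4270, 2, 0, 14, 0, 34, 0, 0⟩, ⟨26, 3991, -25, 9, 16, 0, 0, 0, 0⟩], [⟨35, 3690, -52, 18, 18, 0, -34, 0, 0⟩]⟩,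
  ⟨[⟨0, -105, 0, -1, 1, 0, 0, 0, 0⟩, ⟨0, 108, 0, 1, -1, 0, 0, 0, 0⟩], [⟨11, 2880, 2, 0, 8, 0, 22, 0, 0⟩], [⟨23, 2730, -34, 12, 12, 0, -22, 0, 0⟩]⟩,
  ⟨[⟨0, -600, 0, 0, -1, 1, 0, 0, 0⟩], [⟨37, 12480, 2, 0, 0, 34, 0, 70, 0⟩], [⟨73, 4970, -110, 0, 38, 36, 0, -70, 0⟩]⟩,
  ⟨[⟨0, -600, 0, -1, 1, 0, 0, 0, 0⟩], [⟨37, 12480, 2, 0, 34, 0, 70, 0, 0⟩], [⟨73, 4970, -110, 38, 36, 0, -70, 0, 0⟩]⟩]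

def wg158 : List Wn := [
  ⟨[], [⟨15, 6030, 2, 0, 12, 0, 30, 0, 0⟩, ⟨15, 5400, 2, 28, 12, 0, 2, 0, 0⟩], [⟨31, 2710, -46, 16, 16, 0, -30, 0, 0⟩]⟩,
  ⟨[⟨0, -220, 0, -1, 1, 0, 0, 0, 0⟩, ⟨0, 245, 0, 1, -1, 0, 0, 0, 0⟩], [⟨8, 1760, 2, 1, 4, 0, 16, 0, 0⟩, ⟨12, 1731, -11, 5, 6, 0, 0, 0, 0⟩], [⟨16, 1690, -24, 9, 8, 0, -16, 0, 0⟩]⟩,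
  ⟨[⟨0, -200, 0, -1, 0, 1, 0, 0, 0⟩], [⟨8, 1790, 2, 1, 0, 4, 0, 0, 16⟩, ⟨12, 1744, -11, 5, 0, 6, 0, 0, 0⟩], [⟨16, 1690, -24, 9, 0, 8, 0, 0, -16⟩]⟩,
  ⟨[⟨0, -300, 0, 0, -1, 1, 0, 0, 0⟩], [⟨17, 5700, 2, 0, 0, 14, 0, 30, 0⟩], [⟨33, 2320, -50, 0, 18, 16, 0, -30, 0⟩]⟩,
  ⟨[⟨0, -150, 0, 0, -1, 1, 0, 0, 0⟩, ⟨0, 200, 0, 0, 1, -1, 0, 0, 0⟩], [⟨22, 7300, 2, 0, 0, 19, 0, 44, 0⟩], [⟨44, 3360, -66, 0, 22, 23, 0, -44, 0⟩]⟩,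
  ⟨[⟨0, -108, 0, -1, 1, 0, 0, 0, 0⟩, ⟨0, 114, 0, 1, -1, 0, 0, 0, 0⟩], [⟨5, 600, 2, 0, 2, 0, 10, 0, 0⟩], [⟨11, 1610, -16, 6, 6, 0, -10, 0, 0⟩, ⟨8, 997, -7, 3, 4, 0, 0, 0, 0⟩]⟩,
  ⟨[⟨0, -93, 0, 0, -1, 1, 0, 0, 0⟩], [⟨21, 8160, 2, 0, 0, 18, 0, 38, 0⟩, ⟨21, 7330, 2, 0, 38, 16, 0, 2, 0⟩], [⟨41, 3730, -62, 0, 22, 20, 0, -38, 0⟩]⟩,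
  ⟨[], [⟨9, 3280, 2, 0, 6, 0, 14, 0, 0⟩, ⟨9, 2450, 2, 14, 4, 0, 2, 0, 0⟩], [⟨17, 1910, -26, 10, 8, 0, -14, 0, 0⟩]⟩,
  ⟨[⟨0, -126, 0, -1, 1, 0, 0, 0, 0⟩, ⟨0, 138, 0, 1, -1, 0, 0, 0, 0⟩], [⟨27, 8770, 2, 0, 24, 0, 54, 0, 0⟩], [⟨55, 4760, -82, 28, 28, 0, -54, 0, 0⟩]⟩,
  ⟨[⟨0, -50, 0, -1, 1, 0, 0, 0, 0⟩, ⟨0, 66, 0, 1, -1, 0, 0, 0, 0⟩], [⟨41, 12910, 2, 80, 38, 0, 2, 0, 0⟩], [⟨83, 7550, -124, 42, 42, 0, -82, 0, 0⟩]⟩,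
  ⟨[⟨0, -133, 0, -1, 1, 0, 0, 0, 0⟩], [⟨7, 1790, 2, 0, 4, 0, 4, 0, 0⟩, ⟨7, 1120, 2, 8, -2, 0, 2, 0, 0⟩], [⟨9, 1490, -16, 6, 4, 0, -4, 0, 0⟩, ⟨8, 1400, -7, 3, 4, 0, 0, 0, 0⟩]⟩,
  ⟨[⟨0, -1200, 0, -1, 1, 0, 0, 0, 0⟩], [⟨10, 3500, 2, 1, 6, 0, 20, 0, 0⟩], [⟨20, 1590, -30, 11, 10, 0, -20, 0, 0⟩]⟩,
  ⟨[⟨44, -15921, -140, 0, 48, -48, 0, -132, 0⟩, ⟨44, -15921, -140, 0, 4, -48, 0, -88, 0⟩, ⟨46, -18241, -148, 0, 50, -48, 0, -140, 0⟩, ⟨46, -18241, -148, 0, 6, -48, 0, -96, 0⟩], [⟨47, 19860, 2, 0, 0, 88, 0, 42, 0⟩, ⟨47, 19860, 2, 0, 40, 88, 0, 2, 0⟩], []⟩,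
  ⟨[], [⟨75, 29260, 2, 0, 72, 0, 150, 0, 0⟩, ⟨75, 28620, 2, 148, 72, 0, 2, 0, 0⟩], [⟨151, 12550, -226, 76, 76, 0, -150, 0, 0⟩]⟩,
  ⟨[⟨0, -10, 0, -1, 1, 0, 0, 0, 0⟩, ⟨0, 18, 0, 1, -1, 0, 0, 0, 0⟩], [⟨21, 5870, 2, 40, 18, 0, 2, 0, 0⟩], [⟨43, 4130, -64, 22, 22, 0, -42, 0, 0⟩]⟩,
  ⟨[⟨0, -1200, 0, -1, 1, 0, 0, 0, 0⟩], [⟨3, 210, 2, 0, 0, 0, 4, 0, 0⟩], [⟨5, 880, -8, 2, 4, 0, -4, 0, 0⟩, ⟨4, 538, -3, 1, 2, 0, 0, 0, 0⟩]⟩]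

def wg159 : List Wn := [
  ⟨[⟨0, -597, 0, -1, 1, 0, 0, 0, 0⟩], [⟨37, 14820, 2, 0, 34, 0, 72, 0, 0⟩, ⟨37, 13950, 2, 72, 32, 0, 2, 0, 0⟩, ⟨55, 9980, -54, 54, 0, 0, 0, 0, 0⟩], [⟨73, 5780, -110, 36, 38, 0, -72, 0, 0⟩]⟩,
  ⟨[⟨0, -400, 0, 0, -1, 1, 0, 0, 0⟩], [⟨17, 4300, 2, 0, 0, 14, 0, 34, 0⟩, ⟨26, 4003, -25, 0, 9, 16, 0, 0, 0⟩], [⟨35, 3690, -52, 0, 18, 18, 0, -34, 0⟩]⟩,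
  ⟨[⟨0, -450, 0, -1, 1, 0, 0, 0, 0⟩], [⟨34, 11380, 2, 0, 31, 0, 68, 0, 0⟩], [⟨68, 4550, -102, 34, 35, 0, -68, 0, 0⟩]⟩,
  ⟨[⟨0, -108, 0, -1, 1, 0, 0, 0, 0⟩, ⟨0, 114, 0, 1, -1, 0, 0, 0, 0⟩], [⟨21, 6710, 2, 0, 18, 0, 38, 0, 0⟩], [⟨41, 3740, -62, 22, 20, 0, -38, 0, 0⟩]⟩,
  ⟨[⟨0, -600, 0, -1, 1, 0, 0, 0, 0⟩], [⟨9, 2840, 2, 0, 6, 0, 16, 0, 0⟩], [⟨17, 1980, -26, 8, 10, 0, -16, 0, 0⟩]⟩,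
  ⟨[⟨0, -500, 0, 0, -1, 1, 0, 0, 0⟩], [⟨37, 12520, 2, 0, 0, 34, 0, 70, 0⟩], [⟨73, 4960, -110, 0, 38, 36, 0, -70, 0⟩]⟩,
  ⟨[⟨0, -450, 0, -1, 1, 0, 0, 0, 0⟩], [⟨37, 12550, 2, 0, 34, 0, 70, 0, 0⟩], [⟨73, 4960, -110, 38, 36, 0, -70, 0, 0⟩]⟩,
  ⟨[⟨0, 62, 0, 1, -1, 0, 0, 0, 0⟩], [⟨11, 4380, 2, 0, 8, 0, 18, 0, 0⟩, ⟨11, 3620, 2, 6, 18, 0, 2, 0, 0⟩], [⟨21, 1050, -32, 12, 10, 0, -18, 0, 0⟩]⟩,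
  ⟨[⟨0, -200, 0, 0, -1, 1, 0, 0, 0⟩], [⟨14, 4280, 2, 0, 0, 11, 0, 28, 0⟩], [⟨28, 2270, -42, 0, 14, 15, 0, -28, 0⟩]⟩,
  ⟨[⟨0, -1350, 0, -1, 1, 0, 0, 0, 0⟩], [⟨30, 8600, 2, 1, 26, 0, 60, 0, 0⟩], [⟨60, 5130, -90, 31, 30, 0, -60, 0, 0⟩]⟩,
  ⟨[⟨0, -245, 0, -1, 1, 0, 0, 0, 0⟩, ⟨0, 270, 0, 1, -1, 0, 0, 0, 0⟩], [⟨18, 5140, 2, 1, 14, 0, 34, 0, 0⟩, ⟨26, 4004, -25, 10, 15, 0, 0, 0, 0⟩], [⟨34, 2860, -52, 19, 16, 0, -34, 0, 0⟩]⟩,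
  ⟨[⟨0, -180, 0, -1, 1, 0, 0, 0, 0⟩, ⟨0, 200, 0, 1, -1, 0, 0, 0, 0⟩], [⟨14, 4390, 2, 0, 11, 0, 26, 0, 0⟩], [⟨26, 2030, -40, 12, 15, 0, -26, 0, 0⟩, ⟨20, 3187, -19, 6, 13, 0, 0, 0, 0⟩]⟩,
  ⟨[⟨0, -200, 0, 0, -1, 1, 0, 0, 0⟩], [⟨17, 5860, 2, 0, 0, 14, 0, 30, 0⟩], [⟨33, 2290, -50, 0, 18, 16, 0, -30, 0⟩]⟩,
  ⟨[], [⟨21, 8160, 2, 0, 0, 18, 0, 38, 0⟩, ⟨21, 7330, 2, 0, 38, 16, 0, 2, 0⟩], [⟨41, 3650, -62, 0, 22, 20, 0, -38, 0⟩]⟩,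
  ⟨[⟨0, -66, 0, -1, 1, 0, 0, 0, 0⟩, ⟨0, 76, 0, 1, -1, 0, 0, 0, 0⟩], [⟨23, 7370, 2, 44, 20, 0, 2, 0, 0⟩], [⟨47, 4110, -70, 24, 24, 0, -46, 0, 0⟩]⟩,
  ⟨[⟨0, -270, 0, -1, 1, 0, 0, 0, 0⟩, ⟨0, 300, 0, 1, -1, 0, 0, 0, 0⟩], [⟨43, 13740, 2, 0, 40, 0, 86, 0, 0⟩], [⟨87, 7030, -130, 44, 44, 0, -86, 0, 0⟩]⟩]

def wg160 : List Wn := [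
  ⟨[⟨0, -1050, 0, -1, 1, 0, 0, 0, 0⟩], [⟨10, 3500, 2, 1, 6, 0, 20, 0, 0⟩], [⟨20, 1590, -30, 11, 10, 0, -20, 0, 0⟩]⟩,
  ⟨[⟨0, -150, 0, -1, 1, 0, 0, 0, 0⟩, ⟨0, 165, 0, 1, -1, 0, 0, 0, 0⟩], [⟨42, 14110, 2, 0, 39, 0, 84, 0, 0⟩], [⟨84, 6590, -126, 42, 43, 0, -84, 0, 0⟩]⟩,
  ⟨[⟨0, -18, 0, -1, 1, 0, 0, 0, 0⟩, ⟨0, 27, 0, 1, -1, 0, 0, 0, 0⟩], [⟨5, 1240, 2, 6, 0, 0, 2, 0, 0⟩], [⟨9, 750, -14, 6, 4, 0, -6, 0, 0⟩]⟩,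
  ⟨[⟨0, -138, 0, -1, 1, 0, 0, 0, 0⟩, ⟨0, 150, 0, 1, -1, 0, 0, 0, 0⟩], [⟨21, 6550, 2, 0, 18, 0, 38, 0, 0⟩], [⟨41, 3760, -62, 22, 20, 0, -38, 0, 0⟩]⟩,
  ⟨[⟨48, -17231, -152, 0, 52, -52, 0, -144, 0⟩, ⟨48, -17231, -152, 0, 4, -52, 0, -96, 0⟩, ⟨50, -19571, -160, 0, 54, -52, 0, -152, 0⟩, ⟨50, -19571, -160, 0, 6, -52, 0, -104, 0⟩], [⟨51, 21490, 2, 0, 0, 96, 0, 46, 0⟩, ⟨51, 21490, 2, 0, 44, 96, 0, 2, 0⟩], []⟩,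
  ⟨[⟨0, -23, 0, 0, -1, 1, 0, 0, 0⟩, ⟨0, 60, 0, 0, 1, -1, 0, 0, 0⟩], [⟨15, 4640, 2, 0, 28, 12, 0, 2, 0⟩], [⟨31, 2710, -46, 0, 16, 16, 0, -30, 0⟩]⟩,
  ⟨[⟨0, -105, 0, -1, 1, 0, 0, 0, 0⟩, ⟨0, 108, 0, 1, -1, 0, 0, 0, 0⟩], [⟨4, 430, 2, 0, 1, 0, 8, 0, 0⟩, ⟨6, 633, -5, 2, 3, 0, 0, 0, 0⟩], [⟨8, 830, -12, 4, 5, 0, -8, 0, 0⟩]⟩,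
  ⟨[⟨0, -165, 0, -1, 1, 0, 0, 0, 0⟩, ⟨0, 180, 0, 1, -1, 0, 0, 0, 0⟩], [⟨27, 8560, 2, 0, 24, 0, 54, 0, 0⟩], [⟨55, 4760, -82, 28, 28, 0, -54, 0, 0⟩]⟩,
  ⟨[⟨0, -1050, 0, -1, 1, 0, 0, 0, 0⟩], [⟨3, 210, 2, 0, 0, 0, 4, 0, 0⟩], [⟨5, 880, -8, 2, 4, 0, -4, 0, 0⟩, ⟨4, 538, -3, 1, 2, 0, 0, 0, 0⟩]⟩,
  ⟨[⟨0, -300, 0, 0, -1, 1, 0, 0, 0⟩], [⟨17, 4380, 2, 0, 0, 14, 0, 34, 0⟩, ⟨26, 4044, -25, 0, 9, 16, 0, 0, 0⟩], [⟨35, 3690, -52, 0, 18, 18, 0, -34, 0⟩]⟩,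
  ⟨[⟨0, -300, 0, -1, 1, 0, 0, 0, 0⟩], [⟨34, 11580, 2, 0, 31, 0, 68, 0, 0⟩], [⟨68, 4550, -102, 34, 35, 0, -68, 0, 0⟩]⟩,
  ⟨[⟨0, -38, 0, -1, 1, 0, 0, 0, 0⟩, ⟨0, 50, 0, 1, -1, 0, 0, 0, 0⟩], [⟨17, 4800, 2, 32, 14, 0, 2, 0, 0⟩], [⟨35, 3490, -52, 18, 18, 0, -34, 0, 0⟩]⟩,
  ⟨[⟨0, -1350, 0, -1, 1, 0, 0, 0, 0⟩], [⟨17, 4220, 2, 0, 14, 0, 34, 0, 0⟩], [⟨35, 3690, -52, 18, 18, 0, -34, 0, 0⟩, ⟨26, 3944, -25, 9, 16, 0, 0, 0, 0⟩]⟩,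
  ⟨[⟨0, -450, 0, -1, 1, 0, 0, 0, 0⟩], [⟨9, 2860, 2, 0, 6, 0, 16, 0, 0⟩], [⟨17, 1980, -26, 8, 10, 0, -16, 0, 0⟩]⟩,
  ⟨[⟨0, -400, 0, 0, -1, 1, 0, 0, 0⟩], [⟨37, 12600, 2, 0, 0, 34, 0, 70, 0⟩], [⟨73, 4960, -110, 0, 38, 36, 0, -70, 0⟩]⟩,
  ⟨[⟨0, -300, 0, -1, 1, 0, 0, 0, 0⟩], [⟨37, 12770, 2, 0, 34, 0, 70, 0, 0⟩], [⟨73, 4940, -110, 38, 36, 0, -70, 0, 0⟩]⟩]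

def wg161 : List Wn := [
  ⟨[⟨0, -165, 0, -1, 1, 0, 0, 0, 0⟩, ⟨0, 180, 0, 1, -1, 0, 0, 0, 0⟩], [⟨12, 3270, 2, 0, 9, 0, 24, 0, 0⟩, ⟨18, 2813, -17, 6, 11, 0, 0, 0, 0⟩], [⟨24, 2340, -36, 12, 13, 0, -24, 0, 0⟩]⟩,
  ⟨[⟨0, -220, 0, -1, 1, 0, 0, 0, 0⟩, ⟨0, 245, 0, 1, -1, 0, 0, 0, 0⟩], [⟨30, 9260, 2, 0, 27, 0, 60, 0, 0⟩], [⟨60, 5130, -90, 30, 31, 0, -60, 0, 0⟩]⟩,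
  ⟨[⟨0, -597, 0, -1, 1, 0, 0, 0, 0⟩], [⟨67, 22470, 2, 0, 128, 0, 64, 0, 0⟩, ⟨67, 26770, 2, 130, 60, 0, 2, 0, 0⟩], [⟨131, 9080, -198, 66, 66, 0, -128, 0, 0⟩]⟩,
  ⟨[⟨0, -108, 0, -1, 1, 0, 0, 0, 0⟩, ⟨0, 114, 0, 1, -1, 0, 0, 0, 0⟩], [⟨13, 3660, 2, 0, 10, 0, 26, 0, 0⟩, ⟨20, 3232, -19, 7, 12, 0, 0, 0, 0⟩], [⟨27, 2790, -40, 14, 14, 0, -26, 0, 0⟩]⟩,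
  ⟨[⟨0, -1200, 0, -1, 1, 0, 0, 0, 0⟩], [⟨30, 8600, 2, 1, 26, 0, 60, 0, 0⟩], [⟨60, 5130, -90, 31, 30, 0, -60, 0, 0⟩]⟩,
  ⟨[⟨0, -1350, 0, -1, 1, 0, 0, 0, 0⟩], [⟨6, 1140, 2, 1, 2, 0, 12, 0, 0⟩], [⟨12, 370, -18, 7, 6, 0, -12, 0, 0⟩]⟩,
  ⟨[⟨0, -530, 0, -1, 1, 0, 0, 0, 0⟩, ⟨0, 600, 0, 1, -1, 0, 0, 0, 0⟩], [⟨13, 3880, 2, 0, 10, 0, 22, 0, 0⟩], [⟨25, 2130, -38, 14, 12, 0, -22, 0, 0⟩]⟩,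
  ⟨[⟨0, -150, 0, 0, -1, 1, 0, 0, 0⟩, ⟨0, 200, 0, 0, 1, -1, 0, 0, 0⟩], [⟨35, 12400, 2, 0, 0, 32, 0, 62, 0⟩], [⟨67, 4780, -102, 0, 36, 32, 0, -62, 0⟩]⟩,
  ⟨[⟨0, -470, 0, -1, 1, 0, 0, 0, 0⟩, ⟨0, 530, 0, 1, -1, 0, 0, 0, 0⟩], [⟨18, 5280, 2, 0, 15, 0, 34, 0, 0⟩], [⟨34, 2860, -52, 16, 19, 0, -34, 0, 0⟩, ⟨26, 4050, -25, 8, 17, 0, 0, 0, 0⟩]⟩,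
  ⟨[⟨0, -180, 0, -1, 1, 0, 0, 0, 0⟩, ⟨0, 200, 0, 1, -1, 0, 0, 0, 0⟩], [⟨6, 2240, 2, 0, 3, 0, 12, 0, 0⟩], [⟨12, 1220, -18, 6, 7, 0, -12, 0, 0⟩]⟩,
  ⟨[⟨0, -1350, 0, -1, 1, 0, 0, 0, 0⟩], [⟨12, 3020, 2, 0, 9, 0, 24, 0, 0⟩, ⟨18, 2687, -17, 6, 11, 0, 0, 0, 0⟩], [⟨24, 2340, -36, 12, 13, 0, -24, 0, 0⟩]⟩,
  ⟨[⟨0, -201, 0, -1, 1, 0, 0, 0, 0⟩], [⟨5, 2070, 2, 0, 2, 0, 6, 0, 0⟩, ⟨5, 1230, 2, 6, 0, 0, 2, 0, 0⟩], [⟨9, 200, -14, 6, 4, 0, -6, 0, 0⟩]⟩,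
  ⟨[⟨0, -900, 0, -1, 1, 0, 0, 0, 0⟩], [⟨10, 3500, 2, 1, 6, 0, 20, 0, 0⟩], [⟨20, 1590, -30, 11, 10, 0, -20, 0, 0⟩]⟩,
  ⟨[⟨0, -138, 0, -1, 1, 0, 0, 0, 0⟩, ⟨0, 150, 0, 1, -1, 0, 0, 0, 0⟩], [⟨13, 3610, 2, 0, 10, 0, 26, 0, 0⟩, ⟨20, 3206, -19, 7, 12, 0, 0, 0, 0⟩], [⟨27, 2790, -40, 14, 14, 0, -26, 0, 0⟩]⟩,
  ⟨[⟨52, -18541, -164, 0, 56, -56, 0, -156, 0⟩, ⟨52, -18541, -164, 0, 4, -56, 0, -104, 0⟩, ⟨54, -20911, -172, 0, 58, -56, 0, -164, 0⟩, ⟨54, -20911, -172, 0, 6, -56, 0, -112, 0⟩], [⟨55, 23120, 2, 0, 0, 104, 0, 50, 0⟩, ⟨55, 23120, 2, 0, 48, 104, 0, 2, 0⟩], []⟩,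
  ⟨[⟨0, -105, 0, -1, 1, 0, 0, 0, 0⟩, ⟨0, 108, 0, 1, -1, 0, 0, 0, 0⟩], [⟨27, 8960, 2, 0, 24, 0, 54, 0, 0⟩], [⟨55, 4760, -82, 28, 28, 0, -54, 0, 0⟩]⟩]

def wg162 : List Wn := [
  ⟨[⟨0, -99, 0, -1, 1, 0, 0, 0, 0⟩, ⟨0, 101, 0, 1, -1, 0, 0, 0, 0⟩], [⟨23, 7780, 2, 0, 20, 0, 46, 0, 0⟩], [⟨47, 4110, -70, 24, 24, 0, -46, 0, 0⟩]⟩,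
  ⟨[⟨0, -92, 0, -1, 1, 0, 0, 0, 0⟩, ⟨0, 99, 0, 1, -1, 0, 0, 0, 0⟩], [⟨25, 9770, 2, 0, 22, 0, 46, 0, 0⟩], [⟨49, 3190, -74, 26, 24, 0, -46, 0, 0⟩]⟩,
  ⟨[⟨0, -900, 0, -1, 1, 0, 0, 0, 0⟩], [⟨3, 210, 2, 0, 0, 0, 4, 0, 0⟩], [⟨5, 880, -8, 2, 4, 0, -4, 0, 0⟩, ⟨4, 538, -3, 1, 2, 0, 0, 0, 0⟩]⟩,
  ⟨[⟨0, -200, 0, 0, -1, 1, 0, 0, 0⟩], [⟨17, 4550, 2, 0, 0, 14, 0, 34, 0⟩, ⟨26, 4127, -25, 0, 9, 16, 0, 0, 0⟩], [⟨35, 3690, -52, 0, 18, 18, 0, -34, 0⟩]⟩,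
  ⟨[⟨0, -1200, 0, -1, 1, 0, 0, 0, 0⟩], [⟨17, 4220, 2, 0, 14, 0, 34, 0, 0⟩], [⟨35, 3690, -52, 18, 18, 0, -34, 0, 0⟩, ⟨26, 3944, -25, 9, 16, 0, 0, 0, 0⟩]⟩,
  ⟨[⟨0, -201, 0, -1, 1, 0, 0, 0, 0⟩], [⟨5, 2050, 2, 0, 2, 0, 8, 0, 0⟩, ⟨5, 920, 2, 8, 0, 0, 2, 0, 0⟩], [⟨9, 1110, -14, 4, 6, 0, -8, 0, 0⟩]⟩,
  ⟨[⟨0, -300, 0, -1, 1, 0, 0, 0, 0⟩], [⟨9, 2910, 2, 0, 6, 0, 16, 0, 0⟩], [⟨17, 1980, -26, 8, 10, 0, -16, 0, 0⟩]⟩,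
  ⟨[], [⟨31, 13500, 2, 0, 0, 28, 0, 54, 0⟩, ⟨31, 12470, 2, 0, 56, 24, 0, 2, 0⟩], [⟨59, 3580, -90, 0, 32, 28, 0, -54, 0⟩]⟩,
  ⟨[⟨0, -300, 0, 0, -1, 1, 0, 0, 0⟩], [⟨37, 12770, 2, 0, 0, 34, 0, 70, 0⟩], [⟨73, 4940, -110, 0, 38, 36, 0, -70, 0⟩]⟩,
  ⟨[⟨0, -76, 0, -1, 1, 0, 0, 0, 0⟩, ⟨0, 84, 0, 1, -1, 0, 0, 0, 0⟩], [⟨13, 4230, 2, 22, 8, 0, 2, 0, 0⟩], [⟨25, 2000, -38, 14, 12, 0, -22, 0, 0⟩]⟩,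
  ⟨[⟨0, -100, 0, 0, -1, 1, 0, 0, 0⟩, ⟨0, 150, 0, 0, 1, -1, 0, 0, 0⟩], [⟨17, 5190, 2, 0, 0, 14, 0, 34, 0⟩, ⟨26, 4292, -25, 0, 9, 16, 0, 0, 0⟩], [⟨35, 3490, -52, 0, 18, 18, 0, -34, 0⟩]⟩,
  ⟨[⟨0, 62, 0, 1, -1, 0, 0, 0, 0⟩], [⟨11, 4380, 2, 0, 8, 0, 18, 0, 0⟩, ⟨11, 4280, 2, 6, 18, 0, 2, 0, 0⟩], [⟨21, 1240, -32, 12, 10, 0, -18, 0, 0⟩]⟩,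
  ⟨[⟨0, -23, 0, 0, -1, 1, 0, 0, 0⟩, ⟨0, 60, 0, 0, 1, -1, 0, 0, 0⟩], [⟨19, 6230, 2, 0, 34, 14, 0, 2, 0⟩], [⟨37, 2750, -56, 0, 20, 18, 0, -34, 0⟩]⟩,
  ⟨[⟨0, -1050, 0, -1, 1, 0, 0, 0, 0⟩], [⟨30, 8600, 2, 1, 26, 0, 60, 0, 0⟩], [⟨60, 5130, -90, 31, 30, 0, -60, 0, 0⟩]⟩,
  ⟨[⟨0, -245, 0, -1, 1, 0, 0, 0, 0⟩, ⟨0, 270, 0, 1, -1, 0, 0, 0, 0⟩], [⟨18, 5050, 2, 1, 14, 0, 36, 0, 0⟩], [⟨36, 3250, -54, 19, 18, 0, -36, 0, 0⟩]⟩,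
  ⟨[⟨0, -108, 0, -1, 1, 0, 0, 0, 0⟩, ⟨0, 114, 0, 1, -1, 0, 0, 0, 0⟩], [⟨6, 2430, 2, 0, 3, 0, 12, 0, 0⟩], [⟨12, 1220, -18, 6, 7, 0, -12, 0, 0⟩]⟩]

def wg163 : List Wn := [
  ⟨[⟨0, -93, 0, 0, -1, 1, 0, 0, 0⟩], [⟨7, 1640, 2, 0, 0, 8, 0, 2, 0⟩, ⟨7, 2390, 2, 0, 8, 0, 0, 2, 0⟩], [⟨11, 1210, -18, 0, 8, 4, 0, -6, 0⟩]⟩,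
  ⟨[⟨0, -100, 0, 0, -1, 1, 0, 0, 0⟩, ⟨0, 150, 0, 0, 1, -1, 0, 0, 0⟩], [⟨39, 12930, 2, 0, 0, 36, 0, 78, 0⟩], [⟨79, 7420, -118, 0, 40, 40, 0, -78, 0⟩]⟩,
  ⟨[⟨0, -126, 0, -1, 1, 0, 0, 0, 0⟩, ⟨0, 138, 0, 1, -1, 0, 0, 0, 0⟩], [⟨3, 20, 2, 0, 0, 0, 2, 0, 0⟩], [⟨5, 1090, -8, 4, 2, 0, -2, 0, 0⟩, ⟨4, 541, -3, 2, 1, 0, 0, 0, 0⟩]⟩,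
  ⟨[⟨0, -1200, 0, -1, 1, 0, 0, 0, 0⟩], [⟨12, 3020, 2, 0, 9, 0, 24, 0, 0⟩, ⟨18, 2687, -17, 6, 11, 0, 0, 0, 0⟩], [⟨24, 2340, -36, 12, 13, 0, -24, 0, 0⟩]⟩,
  ⟨[⟨0, -18, 0, -1, 1, 0, 0, 0, 0⟩, ⟨0, 27, 0, 1, -1, 0, 0, 0, 0⟩], [⟨13, 3850, 2, 22, 8, 0, 2, 0, 0⟩], [⟨25, 1950, -38, 14, 12, 0, -22, 0, 0⟩]⟩,
  ⟨[⟨0, -597, 0, -1, 1, 0, 0, 0, 0⟩], [⟨51, 21380, 2, 0, 48, 0, 94, 0, 0⟩, ⟨51, 20350, 2, 96, 44, 0, 2, 0, 0⟩], [⟨99, 7110, -150, 52, 48, 0, -94, 0, 0⟩]⟩,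
  ⟨[⟨0, -220, 0, -1, 1, 0, 0, 0, 0⟩, ⟨0, 245, 0, 1, -1, 0, 0, 0, 0⟩], [⟨4, 770, 2, 1, 0, 0, 8, 0, 0⟩, ⟨6, 801, -5, 3, 2, 0, 0, 0, 0⟩], [⟨8, 830, -12, 5, 4, 0, -8, 0, 0⟩]⟩,
  ⟨[⟨0, -245, 0, -1, 1, 0, 0, 0, 0⟩, ⟨0, 270, 0, 1, -1, 0, 0, 0, 0⟩], [⟨15, 4460, 2, 0, 12, 0, 30, 0, 0⟩], [⟨31, 2710, -46, 16, 16, 0, -30, 0, 0⟩]⟩,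
  ⟨[⟨0, 99, 0, 1, -1, 0, 0, 0, 0⟩], [⟨11, 3720, 2, 0, 8, 0, 20, 0, 0⟩, ⟨11, 3920, 2, 18, 8, 0, 2, 0, 0⟩], [⟨21, 1710, -32, 12, 10, 0, -20, 0, 0⟩]⟩,
  ⟨[], [⟨33, 12990, 2, 0, 30, 0, 62, 0, 0⟩, ⟨33, 12160, 2, 62, 28, 0, 2, 0, 0⟩], [⟨65, 5440, -98, 34, 32, 0, -62, 0, 0⟩]⟩,
  ⟨[⟨0, -92, 0, -1, 1, 0, 0, 0, 0⟩, ⟨0, 99, 0, 1, -1, 0, 0, 0, 0⟩], [⟨19, 6540, 2, 0, 16, 0, 38, 0, 0⟩], [⟨39, 3690, -58, 20, 20, 0, -38, 0, 0⟩]⟩,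
  ⟨[⟨0, -1350, 0, -1, 1, 0, 0, 0, 0⟩], [⟨22, 6470, 2, 1, 18, 0, 40, 0, 0⟩, ⟨32, 4963, -31, 12, 19, 0, 0, 0, 0⟩], [⟨42, 3430, -64, 23, 20, 0, -40, 0, 0⟩]⟩,
  ⟨[⟨0, -500, 0, 0, -1, 1, 0, 0, 0⟩], [⟨3, 210, 2, 0, 0, 0, 0, 4, 0⟩], [⟨5, 880, -8, 0, 2, 4, 0, -4, 0⟩, ⟨4, 538, -3, 0, 1, 2, 0, 0, 0⟩]⟩,
  ⟨[⟨0, -245, 0, -1, 1, 0, 0, 0, 0⟩, ⟨0, 270, 0, 1, -1, 0, 0, 0, 0⟩], [⟨5, 680, 2, 0, 2, 0, 10, 0, 0⟩], [⟨11, 1610, -16, 6, 6, 0, -10, 0, 0⟩, ⟨8, 1137, -7, 3, 4, 0, 0, 0, 0⟩]⟩,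
  ⟨[⟨0, -597, 0, -1, 1, 0, 0, 0, 0⟩], [⟨69, 27230, 2, 0, 66, 0, 134, 0, 0⟩, ⟨69, 26390, 2, 134, 64, 0, 2, 0, 0⟩], [⟨137, 11230, -206, 70, 68, 0, -134, 0, 0⟩]⟩,
  ⟨[⟨0, -750, 0, -1, 1, 0, 0, 0, 0⟩], [⟨3, 210, 2, 0, 0, 0, 4, 0, 0⟩], [⟨5, 880, -8, 2, 4, 0, -4, 0, 0⟩, ⟨4, 538, -3, 1, 2, 0, 0, 0, 0⟩]⟩]

def wg164 : List Wn := [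
  ⟨[⟨0, -1050, 0, -1, 1, 0, 0, 0, 0⟩], [⟨17, 4220, 2, 0, 14, 0, 34, 0, 0⟩], [⟨35, 3690, -52, 18, 18, 0, -34, 0, 0⟩, ⟨26, 3944, -25, 9, 16, 0, 0, 0, 0⟩]⟩,
  ⟨[⟨0, -159, 0, -1, 1, 0, 0, 0, 0⟩], [⟨5, 2050, 2, 0, 2, 0, 8, 0, 0⟩, ⟨5, 920, 2, 8, 0, 0, 2, 0, 0⟩], [⟨9, 1110, -14, 4, 6, 0, -8, 0, 0⟩]⟩,
  ⟨[⟨0, -200, 0, 0, -1, 1, 0, 0, 0⟩], [⟨37, 13120, 2, 0, 0, 34, 0, 70, 0⟩], [⟨73, 4910, -110, 0, 38, 36, 0, -70, 0⟩]⟩,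
  ⟨[⟨0, -245, 0, -1, 1, 0, 0, 0, 0⟩, ⟨0, 270, 0, 1, -1, 0, 0, 0, 0⟩], [⟨11, 3740, 2, 0, 8, 0, 18, 0, 0⟩], [⟨21, 1400, -32, 12, 10, 0, -18, 0, 0⟩, ⟨16, 2550, -15, 6, 9, 0, 0, 0, 0⟩]⟩,
  ⟨[⟨0, -400, 0, 0, -1, 1, 0, 0, 0⟩, ⟨0, 500, 0, 0, 1, -1, 0, 0, 0⟩], [⟨19, 5050, 2, 0, 0, 16, 0, 36, 0⟩], [⟨37, 3760, -56, 0, 18, 20, 0, -36, 0⟩, ⟨28, 4374, -27, 0, 9, 18, 0, 0, 0⟩]⟩,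
  ⟨[⟨0, -180, 0, -1, 1, 0, 0, 0, 0⟩, ⟨0, 200, 0, 1, -1, 0, 0, 0, 0⟩], [⟨21, 6390, 2, 0, 18, 0, 38, 0, 0⟩], [⟨41, 3780, -62, 22, 20, 0, -38, 0, 0⟩]⟩,
  ⟨[⟨0, -108, 0, -1, 1, 0, 0, 0, 0⟩, ⟨0, 114, 0, 1, -1, 0, 0, 0, 0⟩], [⟨14, 4560, 2, 0, 11, 0, 28, 0, 0⟩], [⟨28, 2270, -42, 14, 15, 0, -28, 0, 0⟩]⟩,
  ⟨[⟨0, -900, 0, -1, 1, 0, 0, 0, 0⟩], [⟨30, 8610, 2, 1, 26, 0, 60, 0, 0⟩], [⟨60, 5130, -90, 31, 30, 0, -60, 0, 0⟩]⟩,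
  ⟨[⟨0, -114, 0, -1, 1, 0, 0, 0, 0⟩, ⟨0, 126, 0, 1, -1, 0, 0, 0, 0⟩], [⟨39, 12300, 2, 0, 36, 0, 78, 0, 0⟩], [⟨79, 7420, -118, 40, 40, 0, -78, 0, 0⟩]⟩,
  ⟨[⟨0, -84, 0, -1, 1, 0, 0, 0, 0⟩, ⟨0, 92, 0, 1, -1, 0, 0, 0, 0⟩], [⟨17, 6120, 2, 0, 14, 0, 34, 0, 0⟩], [⟨35, 3490, -52, 18, 18, 0, -34, 0, 0⟩]⟩,
  ⟨[], [⟨7, 1640, 2, 0, 0, 8, 0, 2, 0⟩, ⟨7, 2390, 2, 0, 8, 0, 0, 2, 0⟩], [⟨11, 1060, -18, 0, 8, 4, 0, -6, 0⟩]⟩,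
  ⟨[⟨0, -1050, 0, -1, 1, 0, 0, 0, 0⟩], [⟨12, 3020, 2, 0, 9, 0, 24, 0, 0⟩, ⟨18, 2687, -17, 6, 11, 0, 0, 0, 0⟩], [⟨24, 2340, -36, 12, 13, 0, -24, 0, 0⟩]⟩,
  ⟨[⟨0, -133, 0, -1, 1, 0, 0, 0, 0⟩], [⟨5, 2070, 2, 0, 2, 0, 6, 0, 0⟩, ⟨5, 1230, 2, 6, 0, 0, 2, 0, 0⟩], [⟨9, 170, -14, 6, 4, 0, -6, 0, 0⟩]⟩,
  ⟨[⟨0, -399, 0, -1, 1, 0, 0, 0, 0⟩], [⟨51, 21380, 2, 0, 48, 0, 94, 0, 0⟩, ⟨51, 20350, 2, 96, 44, 0, 2, 0, 0⟩], [⟨99, 7090, -150, 52, 48, 0, -94, 0, 0⟩]⟩,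
  ⟨[⟨0, -245, 0, -1, 1, 0, 0, 0, 0⟩, ⟨0, 270, 0, 1, -1, 0, 0, 0, 0⟩], [⟨16, 5220, 2, 0, 13, 0, 32, 0, 0⟩, ⟨24, 3739, -23, 8, 15, 0, 0, 0, 0⟩], [⟨32, 2240, -48, 16, 17, 0, -32, 0, 0⟩]⟩,
  ⟨[⟨0, 10, 0, 1, -1, 0, 0, 0, 0⟩], [⟨35, 10430, 2, 68, 32, 0, 2, 0, 0⟩], [⟨71, 6210, -106, 36, 36, 0, -70, 0, 0⟩]⟩]

def wg165 : List Wn := [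
  ⟨[⟨0, -84, 0, -1, 1, 0, 0, 0, 0⟩, ⟨0, 92, 0, 1, -1, 0, 0, 0, 0⟩], [⟨7, 2050, 2, 0, 4, 0, 10, 0, 0⟩], [⟨13, 1090, -20, 8, 6, 0, -10, 0, 0⟩, ⟨10, 1408, -9, 4, 5, 0, 0, 0, 0⟩]⟩,
  ⟨[⟨0, -138, 0, -1, 1, 0, 0, 0, 0⟩, ⟨0, 150, 0, 1, -1, 0, 0, 0, 0⟩], [⟨14, 4400, 2, 0, 11, 0, 28, 0, 0⟩], [⟨28, 2270, -42, 14, 15, 0, -28, 0, 0⟩]⟩,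
  ⟨[⟨0, -1200, 0, -1, 1, 0, 0, 0, 0⟩], [⟨22, 6470, 2, 1, 18, 0, 40, 0, 0⟩, ⟨32, 4964, -31, 12, 19, 0, 0, 0, 0⟩], [⟨42, 3430, -64, 23, 20, 0, -40, 0, 0⟩]⟩,
  ⟨[⟨0, -245, 0, -1, 1, 0, 0, 0, 0⟩, ⟨0, 270, 0, 1, -1, 0, 0, 0, 0⟩], [⟨6, 1530, 2, 0, 3, 0, 12, 0, 0⟩], [⟨12, 1040, -18, 6, 7, 0, -12, 0, 0⟩]⟩,
  ⟨[⟨0, -165, 0, -1, 1, 0, 0, 0, 0⟩, ⟨0, 180, 0, 1, -1, 0, 0, 0, 0⟩], [⟨3, 20, 2, 0, 0, 0, 2, 0, 0⟩], [⟨5, 1110, -8, 4, 2, 0, -2, 0, 0⟩, ⟨4, 551, -3, 2, 1, 0, 0, 0, 0⟩]⟩,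
  ⟨[⟨0, -900, 0, -1, 1, 0, 0, 0, 0⟩], [⟨17, 4220, 2, 0, 14, 0, 34, 0, 0⟩], [⟨35, 3690, -52, 18, 18, 0, -34, 0, 0⟩, ⟨26, 3944, -25, 9, 16, 0, 0, 0, 0⟩]⟩,
  ⟨[⟨0, -200, 0, 0, -1, 1, 0, 0, 0⟩], [⟨9, 2980, 2, 0, 0, 6, 0, 16, 0⟩], [⟨17, 1980, -26, 0, 8, 10, 0, -16, 0⟩]⟩,
  ⟨[⟨0, -200, 0, -1, 1, 0, 0, 0, 0⟩, ⟨0, 220, 0, 1, -1, 0, 0, 0, 0⟩], [⟨42, 13790, 2, 0, 39, 0, 84, 0, 0⟩], [⟨84, 6590, -126, 42, 43, 0, -84, 0, 0⟩]⟩,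
  ⟨[⟨0, -180, 0, -1, 1, 0, 0, 0, 0⟩, ⟨0, 200, 0, 1, -1, 0, 0, 0, 0⟩], [⟨13, 3510, 2, 0, 10, 0, 26, 0, 0⟩, ⟨20, 3157, -19, 7, 12, 0, 0, 0, 0⟩], [⟨27, 2790, -40, 14, 14, 0, -26, 0, 0⟩]⟩,
  ⟨[⟨0, -1000, 0, 0, -1, 1, 0, 0, 0⟩], [⟨5, 610, 2, 0, 0, 2, 0, 2, 0⟩, ⟨6, 1002, -5, 0, 3, 2, 0, 0, 0⟩], [⟨7, 1390, -12, 0, 6, 2, 0, -2, 0⟩]⟩,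
  ⟨[⟨0, -900, 0, -1, 1, 0, 0, 0, 0⟩], [⟨12, 3020, 2, 0, 9, 0, 24, 0, 0⟩, ⟨18, 2688, -17, 6, 11, 0, 0, 0, 0⟩], [⟨24, 2340, -36, 12, 13, 0, -24, 0, 0⟩]⟩,
  ⟨[⟨0, -93, 0, -1, 1, 0, 0, 0, 0⟩], [⟨5, 2070, 2, 0, 2, 0, 6, 0, 0⟩, ⟨5, 1230, 2, 6, 0, 0, 2, 0, 0⟩], [⟨9, 140, -14, 6, 4, 0, -6, 0, 0⟩]⟩,
  ⟨[⟨0, -301, 0, -1, 1, 0, 0, 0, 0⟩], [⟨51, 21380, 2, 0, 48, 0, 94, 0, 0⟩, ⟨51, 20350, 2, 96, 44, 0, 2, 0, 0⟩], [⟨99, 7050, -150, 52, 48, 0, -94, 0, 0⟩]⟩,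
  ⟨[⟨0, -126, 0, -1, 1, 0, 0, 0, 0⟩, ⟨0, 138, 0, 1, -1, 0, 0, 0, 0⟩], [⟨33, 10900, 2, 0, 30, 0, 62, 0, 0⟩], [⟨65, 5540, -98, 34, 32, 0, -62, 0, 0⟩]⟩,
  ⟨[⟨0, -450, 0, -1, 1, 0, 0, 0, 0⟩], [⟨10, 3540, 2, 1, 6, 0, 20, 0, 0⟩], [⟨20, 1590, -30, 11, 10, 0, -20, 0, 0⟩]⟩,
  ⟨[⟨0, 99, 0, 1, -1, 0, 0, 0, 0⟩], [⟨11, 3720, 2, 0, 8, 0, 20, 0, 0⟩, ⟨11, 4580, 2, 18, 8, 0, 2, 0, 0⟩], [⟨21, 1900, -32, 12, 10, 0, -20, 0, 0⟩]⟩]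

def wg166 : List Wn := [
  ⟨[⟨64, -22511, -200, 0, 68, -68, 0, -192, 0⟩, ⟨64, -22511, -200, 0, 4, -68, 0, -128, 0⟩, ⟨66, -24921, -208, 0, 70, -68, 0, -200, 0⟩, ⟨66, -24921, -208, 0, 6, -68, 0, -136, 0⟩], [⟨67, 28010, 2, 0, 0, 128, 0, 62, 0⟩, ⟨67, 28010, 2, 0, 60, 128, 0, 2, 0⟩], []⟩,
  ⟨[⟨0, -1350, 0, -1, 1, 0, 0, 0, 0⟩], [⟨9, 1970, 2, 0, 6, 0, 18, 0, 0⟩, ⟨14, 2060, -13, 5, 8, 0, 0, 0, 0⟩], [⟨19, 2140, -28, 10, 10, 0, -18, 0, 0⟩]⟩,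
  ⟨[⟨0, -150, 0, -1, 1, 0, 0, 0, 0⟩, ⟨0, 165, 0, 1, -1, 0, 0, 0, 0⟩], [⟨39, 11990, 2, 0, 36, 0, 78, 0, 0⟩], [⟨79, 7420, -118, 40, 40, 0, -78, 0, 0⟩]⟩,
  ⟨[⟨0, -200, 0, 0, -1, 1, 0, 0, 0⟩], [⟨37, 12180, 2, 0, 0, 34, 0, 74, 0⟩, ⟨56, 9074, -55, 0, 19, 36, 0, 0, 0⟩], [⟨75, 5930, -112, 0, 38, 38, 0, -74, 0⟩]⟩,
  ⟨[⟨0, -245, 0, -1, 1, 0, 0, 0, 0⟩, ⟨0, 270, 0, 1, -1, 0, 0, 0, 0⟩], [⟨14, 4310, 2, 0, 11, 0, 26, 0, 0⟩], [⟨26, 2030, -40, 12, 15, 0, -26, 0, 0⟩, ⟨20, 3148, -19, 6, 13, 0, 0, 0, 0⟩]⟩,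
  ⟨[⟨0, -1050, 0, -1, 1, 0, 0, 0, 0⟩], [⟨22, 6470, 2, 1, 18, 0, 40, 0, 0⟩, ⟨32, 4964, -31, 12, 19, 0, 0, 0, 0⟩], [⟨42, 3430, -64, 23, 20, 0, -40, 0, 0⟩]⟩,
  ⟨[⟨0, -301, 0, -1, 1, 0, 0, 0, 0⟩], [⟨69, 27230, 2, 0, 66, 0, 134, 0, 0⟩, ⟨69, 26390, 2, 134, 64, 0, 2, 0, 0⟩], [⟨137, 11200, -206, 70, 68, 0, -134, 0, 0⟩]⟩,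
  ⟨[⟨0, -450, 0, -1, 1, 0, 0, 0, 0⟩], [⟨3, 210, 2, 0, 0, 0, 4, 0, 0⟩], [⟨5, 880, -8, 2, 4, 0, -4, 0, 0⟩, ⟨4, 538, -3, 1, 2, 0, 0, 0, 0⟩]⟩,
  ⟨[⟨0, -750, 0, -1, 1, 0, 0, 0, 0⟩], [⟨17, 4220, 2, 0, 14, 0, 34, 0, 0⟩], [⟨35, 3690, -52, 18, 18, 0, -34, 0, 0⟩, ⟨26, 3944, -25, 9, 16, 0, 0, 0, 0⟩]⟩,
  ⟨[⟨0, -101, 0, -1, 1, 0, 0, 0, 0⟩, ⟨0, 103, 0, 1, -1, 0, 0, 0, 0⟩], [⟨17, 6240, 2, 0, 14, 0, 30, 0, 0⟩], [⟨33, 2230, -50, 18, 16, 0, -30, 0, 0⟩]⟩,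
  ⟨[⟨0, -200, 0, -1, 0, 1, 0, 0, 0⟩], [⟨4, 820, 2, 1, 0, 0, 0, 0, 8⟩, ⟨6, 830, -5, 3, 0, 2, 0, 0, 0⟩], [⟨8, 830, -12, 5, 0, 4, 0, 0, -8⟩]⟩,
  ⟨[⟨0, 62, 0, 1, -1, 0, 0, 0, 0⟩], [⟨11, 4380, 2, 0, 8, 0, 18, 0, 0⟩, ⟨11, 5050, 2, 18, 6, 0, 2, 0, 0⟩], [⟨21, 1240, -32, 12, 10, 0, -18, 0, 0⟩]⟩,
  ⟨[⟨0, -600, 0, -1, 1, 0, 0, 0, 0⟩], [⟨30, 8640, 2, 1, 26, 0, 60, 0, 0⟩], [⟨60, 5130, -90, 31, 30, 0, -60, 0, 0⟩]⟩,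
  ⟨[⟨0, -23, 0, 0, -1, 1, 0, 0, 0⟩, ⟨0, 60, 0, 0, 1, -1, 0, 0, 0⟩], [⟨11, 4570, 2, 0, 18, 6, 0, 2, 0⟩], [⟨21, 1260, -32, 0, 12, 10, 0, -18, 0⟩]⟩,
  ⟨[⟨0, -800, 0, 0, -1, 1, 0, 0, 0⟩], [⟨5, 610, 2, 0, 0, 2, 0, 2, 0⟩, ⟨6, 1003, -5, 0, 3, 2, 0, 0, 0⟩], [⟨7, 1390, -12, 0, 6, 2, 0, -2, 0⟩]⟩,
  ⟨[⟨0, -220, 0, -1, 1, 0, 0, 0, 0⟩, ⟨0, 245, 0, 1, -1, 0, 0, 0, 0⟩], [⟨27, 8350, 2, 0, 24, 0, 54, 0, 0⟩], [⟨55, 4760, -82, 28, 28, 0, -54, 0, 0⟩]⟩]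

def wg167 : List Wn := [
  ⟨[⟨0, -750, 0, -1, 1, 0, 0, 0, 0⟩], [⟨12, 3020, 2, 0, 9, 0, 24, 0, 0⟩, ⟨18, 2689, -17, 6, 11, 0, 0, 0, 0⟩], [⟨24, 2340, -36, 12, 13, 0, -24, 0, 0⟩]⟩,
  ⟨[], [⟨5, 2070, 2, 0, 2, 0, 6, 0, 0⟩, ⟨5, 1230, 2, 6, 0, 0, 2, 0, 0⟩], [⟨9, 60, -14, 6, 4, 0, -6, 0, 0⟩]⟩,
  ⟨[], [⟨29, 7420, 2, 0, 56, 0, 28, 0, 0⟩, ⟨29, 10270, 2, 56, 26, 0, 2, 0, 0⟩, ⟨44, 7920, -43, 15, 28, 0, 0, 0, 0⟩], [⟨59, 6160, -88, 30, 30, 0, -58, 0, 0⟩]⟩,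
  ⟨[⟨0, -1350, 0, -1, 1, 0, 0, 0, 0⟩], [⟨14, 4270, 2, 0, 11, 0, 24, 0, 0⟩], [⟨26, 2070, -40, 14, 13, 0, -24, 0, 0⟩, ⟨20, 3162, -19, 7, 12, 0, 0, 0, 0⟩]⟩,
  ⟨[⟨0, -201, 0, -1, 1, 0, 0, 0, 0⟩], [⟨51, 21380, 2, 0, 48, 0, 94, 0, 0⟩, ⟨51, 20350, 2, 96, 44, 0, 2, 0, 0⟩], [⟨99, 6990, -150, 52, 48, 0, -94, 0, 0⟩]⟩,
  ⟨[], [⟨23, 6670, 2, 0, 0, 44, 0, 22, 0⟩, ⟨23, 9040, 2, 0, 44, 20, 0, 2, 0⟩], [⟨47, 4110, -70, 0, 24, 24, 0, -46, 0⟩]⟩,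
  ⟨[], [⟨11, 2360, 2, 0, 20, 0, 10, 0, 0⟩, ⟨11, 3810, 2, 20, 8, 0, 2, 0, 0⟩], [⟨23, 2730, -34, 12, 12, 0, -22, 0, 0⟩]⟩,
  ⟨[⟨0, -1350, 0, -1, 1, 0, 0, 0, 0⟩], [⟨42, 12750, 2, 1, 38, 0, 80, 0, 0⟩, ⟨62, 9730, -61, 22, 39, 0, 0, 0, 0⟩], [⟨82, 6670, -124, 43, 40, 0, -80, 0, 0⟩]⟩,
  ⟨[⟨0, -50, 0, -1, 1, 0, 0, 0, 0⟩, ⟨0, 66, 0, 1, -1, 0, 0, 0, 0⟩], [⟨39, 12030, 2, 76, 36, 0, 2, 0, 0⟩], [⟨79, 7420, -118, 40, 40, 0, -78, 0, 0⟩]⟩,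
  ⟨[⟨0, -220, 0, -1, 1, 0, 0, 0, 0⟩, ⟨0, 245, 0, 1, -1, 0, 0, 0, 0⟩], [⟨12, 3190, 2, 0, 9, 0, 24, 0, 0⟩, ⟨18, 2773, -17, 6, 11, 0, 0, 0, 0⟩], [⟨24, 2340, -36, 12, 13, 0, -24, 0, 0⟩]⟩,
  ⟨[⟨68, -23831, -212, 0, 72, -72, 0, -204, 0⟩, ⟨68, -23831, -212, 0, 4, -72, 0, -136, 0⟩, ⟨70, -26271, -220, 0, 74, -72, 0, -212, 0⟩, ⟨70, -26271, -220, 0, 6, -72, 0, -144, 0⟩], [⟨71, 29640, 2, 0, 0, 136, 0, 66, 0⟩, ⟨71, 29640, 2, 0, 64, 136, 0, 2, 0⟩], []⟩,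
  ⟨[⟨0, -1200, 0, -1, 1, 0, 0, 0, 0⟩], [⟨9, 1970, 2, 0, 6, 0, 18, 0, 0⟩, ⟨14, 2060, -13, 5, 8, 0, 0, 0, 0⟩], [⟨19, 2140, -28, 10, 10, 0, -18, 0, 0⟩]⟩,
  ⟨[⟨0, -159, 0, 0, -1, 1, 0, 0, 0⟩], [⟨55, 23870, 2, 0, 0, 52, 0, 102, 0⟩, ⟨55, 22840, 2, 0, 104, 48, 0, 2, 0⟩], [⟨107, 6680, -162, 0, 56, 52, 0, -102, 0⟩]⟩,
  ⟨[⟨0, -900, 0, -1, 1, 0, 0, 0, 0⟩], [⟨22, 6480, 2, 1, 18, 0, 40, 0, 0⟩, ⟨32, 4965, -31, 12, 19, 0, 0, 0, 0⟩], [⟨42, 3430, -64, 23, 20, 0, -40, 0, 0⟩]⟩,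
  ⟨[⟨0, -105, 0, -1, 1, 0, 0, 0, 0⟩, ⟨0, 108, 0, 1, -1, 0, 0, 0, 0⟩], [⟨4, 1160, 2, 1, 0, 0, 8, 0, 0⟩], [⟨8, 830, -12, 5, 4, 0, -8, 0, 0⟩, ⟨6, 980, -5, 3, 2, 0, 0, 0, 0⟩]⟩,
  ⟨[⟨0, -245, 0, -1, 1, 0, 0, 0, 0⟩, ⟨0, 270, 0, 1, -1, 0, 0, 0, 0⟩], [⟨6, 2200, 2, 0, 3, 0, 12, 0, 0⟩], [⟨12, 1220, -18, 6, 7, 0, -12, 0, 0⟩]⟩]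

def wg168 : List Wn := [
  ⟨[⟨0, -300, 0, -1, 1, 0, 0, 0, 0⟩], [⟨3, 230, 2, 0, 0, 0, 4, 0, 0⟩], [⟨5, 880, -8, 2, 4, 0, -4, 0, 0⟩, ⟨4, 538, -3, 1, 2, 0, 0, 0, 0⟩]⟩,
  ⟨[⟨0, -200, 0, 0, -1, 1, 0, 0, 0⟩, ⟨0, 300, 0, 0, 1, -1, 0, 0, 0⟩], [⟨19, 7250, 2, 0, 0, 16, 0, 28, 0⟩], [⟨33, 1630, -52, 0, 18, 16, 0, -28, 0⟩, ⟨26, 4355, -25, 0, 9, 16, 0, 0, 0⟩]⟩,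
  ⟨[⟨0, -600, 0, 0, -1, 1, 0, 0, 0⟩], [⟨17, 4240, 2, 0, 0, 14, 0, 34, 0⟩], [⟨35, 3690, -52, 0, 18, 18, 0, -34, 0⟩, ⟨26, 3944, -25, 0, 9, 16, 0, 0, 0⟩]⟩,
  ⟨[⟨0, -600, 0, -1, 1, 0, 0, 0, 0⟩], [⟨17, 4240, 2, 0, 14, 0, 34, 0, 0⟩], [⟨35, 3690, -52, 18, 18, 0, -34, 0, 0⟩, ⟨26, 3944, -25, 9, 16, 0, 0, 0, 0⟩]⟩,
  ⟨[⟨0, -165, 0, -1, 1, 0, 0, 0, 0⟩, ⟨0, 180, 0, 1, -1, 0, 0, 0, 0⟩], [⟨33, 10650, 2, 0, 30, 0, 62, 0, 0⟩], [⟨65, 5560, -98, 34, 32, 0, -62, 0, 0⟩]⟩,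
  ⟨[⟨0, -200, 0, 0, -1, 1, 0, 0, 0⟩, ⟨0, 300, 0, 0, 1, -1, 0, 0, 0⟩], [⟨11, 3450, 2, 0, 0, 8, 0, 12, 0⟩], [⟨17, 1460, -28, 0, 10, 8, 0, -12, 0⟩, ⟨14, 2416, -13, 0, 5, 8, 0, 0, 0⟩]⟩,
  ⟨[], [⟨39, 14550, 2, 0, 36, 0, 78, 0, 0⟩, ⟨39, 13920, 2, 76, 36, 0, 2, 0, 0⟩], [⟨79, 7420, -118, 40, 40, 0, -78, 0, 0⟩]⟩,
  ⟨[⟨0, -10, 0, -1, 1, 0, 0, 0, 0⟩, ⟨0, 18, 0, 1, -1, 0, 0, 0, 0⟩], [⟨19, 5340, 2, 36, 16, 0, 2, 0, 0⟩], [⟨39, 3690, -58, 20, 20, 0, -38, 0, 0⟩]⟩,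
  ⟨[⟨0, -93, 0, -1, 1, 0, 0, 0, 0⟩], [⟨11, 3900, 2, 0, 16, 0, 6, 0, 0⟩, ⟨11, 4930, 2, 16, 4, 0, 2, 0, 0⟩], [⟨19, 880, -30, 12, 8, 0, -14, 0, 0⟩]⟩,
  ⟨[⟨0, -600, 0, -1, 1, 0, 0, 0, 0⟩], [⟨6, 1150, 2, 1, 2, 0, 12, 0, 0⟩], [⟨12, 370, -18, 7, 6, 0, -12, 0, 0⟩]⟩,
  ⟨[⟨0, -159, 0, 0, -1, 1, 0, 0, 0⟩], [⟨73, 28750, 2, 0, 0, 70, 0, 142, 0⟩, ⟨73, 27910, 2, 0, 142, 68, 0, 2, 0⟩], [⟨145, 11840, -218, 0, 74, 72, 0, -142, 0⟩]⟩,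
  ⟨[⟨0, -180, 0, -1, 1, 0, 0, 0, 0⟩, ⟨0, 200, 0, 1, -1, 0, 0, 0, 0⟩], [⟨14, 4310, 2, 0, 11, 0, 28, 0, 0⟩], [⟨28, 2270, -42, 14, 15, 0, -28, 0, 0⟩]⟩,
  ⟨[⟨0, -600, 0, 0, -1, 1, 0, 0, 0⟩], [⟨5, 610, 2, 0, 0, 2, 0, 2, 0⟩, ⟨6, 1005, -5, 0, 3, 2, 0, 0, 0⟩], [⟨7, 1390, -12, 0, 6, 2, 0, -2, 0⟩]⟩,
  ⟨[], [⟨15, 6140, 2, 0, 12, 0, 22, 0, 0⟩, ⟨15, 5760, 2, 24, 8, 0, 2, 0, 0⟩], [⟨27, 1650, -42, 16, 12, 0, -22, 0, 0⟩]⟩,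
  ⟨[⟨0, -600, 0, -1, 1, 0, 0, 0, 0⟩], [⟨12, 3030, 2, 0, 9, 0, 24, 0, 0⟩, ⟨18, 2693, -17, 6, 11, 0, 0, 0, 0⟩], [⟨24, 2340, -36, 12, 13, 0, -24, 0, 0⟩]⟩,
  ⟨[⟨0, -1200, 0, -1, 1, 0, 0, 0, 0⟩], [⟨14, 4270, 2, 0, 11, 0, 24, 0, 0⟩], [⟨26, 2070, -40, 14, 13, 0, -24, 0, 0⟩, ⟨20, 3162, -19, 7, 12, 0, 0, 0, 0⟩]⟩]

def wg169 : List Wn := [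
  ⟨[⟨0, -470, 0, -1, 1, 0, 0, 0, 0⟩, ⟨0, 530, 0, 1, -1, 0, 0, 0, 0⟩], [⟨15, 4080, 2, 0, 12, 0, 28, 0, 0⟩], [⟨29, 2780, -44, 14, 16, 0, -28, 0, 0⟩, ⟨22, 3417, -21, 7, 14, 0, 0, 0, 0⟩]⟩,
  ⟨[⟨0, -825, 0, -1, 1, 0, 0, 0, 0⟩, ⟨0, 900, 0, 1, -1, 0, 0, 0, 0⟩], [⟨3, 210, 2, 0, 0, 0, 4, 0, 0⟩], [⟨5, 880, -8, 2, 4, 0, -4, 0, 0⟩, ⟨4, 539, -3, 1, 2, 0, 0, 0, 0⟩]⟩,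
  ⟨[⟨0, 99, 0, 1, -1, 0, 0, 0, 0⟩], [⟨9, 2640, 2, 0, 6, 0, 18, 0, 0⟩, ⟨9, 3510, 2, 16, 6, 0, 2, 0, 0⟩], [⟨19, 2120, -28, 10, 10, 0, -18, 0, 0⟩]⟩,
  ⟨[⟨0, -60, 0, 0, -1, 1, 0, 0, 0⟩, ⟨0, 100, 0, 0, 1, -1, 0, 0, 0⟩], [⟨11, 5460, 2, 0, 16, 4, 0, 2, 0⟩], [⟨19, 1020, -30, 0, 12, 8, 0, -14, 0⟩]⟩,
  ⟨[⟨72, -25161, -224, 0, 76, -76, 0, -216, 0⟩, ⟨72, -25161, -224, 0, 4, -76, 0, -144, 0⟩, ⟨74, -27611, -232, 0, 78, -76, 0, -224, 0⟩, ⟨74, -27611, -232, 0, 6, -76, 0, -152, 0⟩], [⟨75, 31270, 2, 0, 0, 144, 0, 70, 0⟩, ⟨75, 31270, 2, 0, 68, 144, 0, 2, 0⟩], []⟩,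
  ⟨[⟨0, -1200, 0, 0, -1, 1, 0, 0, 0⟩], [⟨9, 1970, 2, 0, 0, 6, 0, 18, 0⟩, ⟨14, 2060, -13, 0, 5, 8, 0, 0, 0⟩], [⟨19, 2140, -28, 0, 10, 10, 0, -18, 0⟩]⟩,
  ⟨[⟨0, -1050, 0, -1, 1, 0, 0, 0, 0⟩], [⟨9, 1970, 2, 0, 6, 0, 18, 0, 0⟩, ⟨14, 2060, -13, 5, 8, 0, 0, 0, 0⟩], [⟨19, 2140, -28, 10, 10, 0, -18, 0, 0⟩]⟩,
  ⟨[⟨0, -750, 0, -1, 1, 0, 0, 0, 0⟩], [⟨22, 6480, 2, 1, 18, 0, 40, 0, 0⟩, ⟨32, 4968, -31, 12, 19, 0, 0, 0, 0⟩], [⟨42, 3430, -64, 23, 20, 0, -40, 0, 0⟩]⟩,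
  ⟨[⟨0, -1350, 0, -1, 1, 0, 0, 0, 0⟩], [⟨23, 6760, 2, 0, 20, 0, 44, 0, 0⟩], [⟨45, 3870, -68, 22, 24, 0, -44, 0, 0⟩, ⟨34, 5304, -33, 11, 22, 0, 0, 0, 0⟩]⟩,
  ⟨[⟨0, -105, 0, -1, 1, 0, 0, 0, 0⟩, ⟨0, 108, 0, 1, -1, 0, 0, 0, 0⟩], [⟨33, 11080, 2, 0, 30, 0, 62, 0, 0⟩], [⟨65, 5520, -98, 34, 32, 0, -62, 0, 0⟩]⟩,
  ⟨[⟨0, -450, 0, -1, 1, 0, 0, 0, 0⟩], [⟨17, 4270, 2, 0, 14, 0, 34, 0, 0⟩], [⟨35, 3690, -52, 18, 18, 0, -34, 0, 0⟩, ⟨26, 3944, -25, 9, 16, 0, 0, 0, 0⟩]⟩,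
  ⟨[⟨0, -300, 0, -1, 1, 0, 0, 0, 0⟩], [⟨30, 8890, 2, 1, 26, 0, 60, 0, 0⟩], [⟨60, 5130, -90, 31, 30, 0, -60, 0, 0⟩]⟩,
  ⟨[⟨0, -1350, 0, -1, 1, 0, 0, 0, 0⟩], [⟨14, 3780, 2, 1, 10, 0, 26, 0, 0⟩, ⟨20, 2910, -19, 8, 11, 0, 0, 0, 0⟩], [⟨26, 2030, -40, 15, 12, 0, -26, 0, 0⟩]⟩,
  ⟨[⟨0, -500, 0, 0, -1, 1, 0, 0, 0⟩], [⟨5, 620, 2, 0, 0, 2, 0, 2, 0⟩, ⟨6, 1007, -5, 0, 3, 2, 0, 0, 0⟩], [⟨7, 1380, -12, 0, 6, 2, 0, -2, 0⟩]⟩,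
  ⟨[⟨0, -92, 0, -1, 1, 0, 0, 0, 0⟩, ⟨0, 99, 0, 1, -1, 0, 0, 0, 0⟩], [⟨7, 2090, 2, 0, 4, 0, 10, 0, 0⟩], [⟨13, 1100, -20, 8, 6, 0, -10, 0, 0⟩, ⟨10, 1530, -9, 4, 5, 0, 0, 0, 0⟩]⟩,
  ⟨[⟨0, -450, 0, -1, 1, 0, 0, 0, 0⟩], [⟨12, 3050, 2, 0, 9, 0, 24, 0, 0⟩, ⟨18, 2704, -17, 6, 11, 0, 0, 0, 0⟩], [⟨24, 2340, -36, 12, 13, 0, -24, 0, 0⟩]⟩]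

def wg170 : List Wn := [
  ⟨[⟨0, -1050, 0, -1, 1, 0, 0, 0, 0⟩], [⟨14, 4270, 2, 0, 11, 0, 24, 0, 0⟩], [⟨26, 2070, -40, 14, 13, 0, -24, 0, 0⟩, ⟨20, 3162, -19, 7, 12, 0, 0, 0, 0⟩]⟩,
  ⟨[⟨0, -133, 0, -1, 1, 0, 0, 0, 0⟩], [⟨51, 21380, 2, 0, 48, 0, 94, 0, 0⟩, ⟨51, 20350, 2, 96, 44, 0, 2, 0, 0⟩], [⟨99, 6930, -150, 52, 48, 0, -94, 0, 0⟩]⟩,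
  ⟨[⟨0, -220, 0, -1, 1, 0, 0, 0, 0⟩, ⟨0, 245, 0, 1, -1, 0, 0, 0, 0⟩], [⟨3, 20, 2, 0, 0, 0, 2, 0, 0⟩, ⟨4, 583, -3, 2, 1, 0, 0, 0, 0⟩], [⟨5, 1140, -8, 4, 2, 0, -2, 0, 0⟩]⟩,
  ⟨[⟨0, -1350, 0, -1, 1, 0, 0, 0, 0⟩], [⟨6, 1170, 2, 1, 2, 0, 8, 0, 0⟩, ⟨8, 1134, -7, 4, 3, 0, 0, 0, 0⟩], [⟨10, 1090, -16, 7, 4, 0, -8, 0, 0⟩]⟩,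
  ⟨[], [⟨11, 3020, 2, 0, 20, 0, 10, 0, 0⟩, ⟨11, 4480, 2, 20, 8, 0, 2, 0, 0⟩], [⟨23, 2920, -34, 12, 12, 0, -22, 0, 0⟩]⟩,
  ⟨[⟨0, -126, 0, -1, 1, 0, 0, 0, 0⟩, ⟨0, 138, 0, 1, -1, 0, 0, 0, 0⟩], [⟨26, 8470, 2, 0, 23, 0, 52, 0, 0⟩], [⟨52, 4320, -78, 26, 27, 0, -52, 0, 0⟩]⟩,
  ⟨[⟨0, -245, 0, -1, 1, 0, 0, 0, 0⟩, ⟨0, 270, 0, 1, -1, 0, 0, 0, 0⟩], [⟨21, 6230, 2, 0, 18, 0, 38, 0, 0⟩], [⟨41, 3800, -62, 22, 20, 0, -38, 0, 0⟩]⟩,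
  ⟨[⟨0, -138, 0, -1, 1, 0, 0, 0, 0⟩, ⟨0, 150, 0, 1, -1, 0, 0, 0, 0⟩], [⟨14, 4310, 2, 1, 10, 0, 28, 0, 0⟩], [⟨28, 2270, -42, 15, 14, 0, -28, 0, 0⟩]⟩,
  ⟨[⟨76, -26491, -236, 0, 80, -80, 0, -228, 0⟩, ⟨76, -26491, -236, 0, 4, -80, 0, -152, 0⟩, ⟨78, -28951, -244, 0, 82, -80, 0, -236, 0⟩, ⟨78, -28951, -244, 0, 6, -80, 0, -160, 0⟩], [⟨79, 32900, 2, 0, 0, 152, 0, 74, 0⟩, ⟨79, 32900, 2, 0, 72, 152, 0, 2, 0⟩], []⟩,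
  ⟨[⟨0, -900, 0, -1, 1, 0, 0, 0, 0⟩], [⟨9, 1970, 2, 0, 6, 0, 18, 0, 0⟩, ⟨14, 2060, -13, 5, 8, 0, 0, 0, 0⟩], [⟨19, 2140, -28, 10, 10, 0, -18, 0, 0⟩]⟩,
  ⟨[⟨0, -200, 0, 0, -1, 1, 0, 0, 0⟩, ⟨0, 300, 0, 0, 1, -1, 0, 0, 0⟩], [⟨14, 4490, 2, 0, 0, 11, 0, 24, 0⟩], [⟨26, 2000, -40, 0, 14, 13, 0, -24, 0⟩, ⟨20, 3180, -19, 0, 7, 12, 0, 0, 0⟩]⟩,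
  ⟨[⟨0, -600, 0, -1, 1, 0, 0, 0, 0⟩], [⟨22, 6500, 2, 1, 18, 0, 40, 0, 0⟩, ⟨32, 4976, -31, 12, 19, 0, 0, 0, 0⟩], [⟨42, 3430, -64, 23, 20, 0, -40, 0, 0⟩]⟩,
  ⟨[⟨0, -750, 0, -1, 1, 0, 0, 0, 0⟩, ⟨0, 825, 0, 1, -1, 0, 0, 0, 0⟩], [⟨14, 4270, 2, 0, 11, 0, 24, 0, 0⟩], [⟨26, 2070, -40, 14, 13, 0, -24, 0, 0⟩, ⟨20, 3163, -19, 7, 12, 0, 0, 0, 0⟩]⟩,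
  ⟨[⟨0, -1200, 0, -1, 1, 0, 0, 0, 0⟩], [⟨23, 6760, 2, 0, 20, 0, 44, 0, 0⟩], [⟨45, 3870, -68, 22, 24, 0, -44, 0, 0⟩, ⟨34, 5304, -33, 11, 22, 0, 0, 0, 0⟩]⟩,
  ⟨[⟨0, -99, 0, -1, 1, 0, 0, 0, 0⟩, ⟨0, 101, 0, 1, -1, 0, 0, 0, 0⟩], [⟨29, 10660, 2, 0, 26, 0, 54, 0, 0⟩], [⟨57, 4020, -86, 30, 28, 0, -54, 0, 0⟩]⟩,
  ⟨[⟨0, -400, 0, 0, -1, 1, 0, 0, 0⟩, ⟨0, 500, 0, 0, 1, -1, 0, 0, 0⟩], [⟨27, 8360, 2, 0, 0, 24, 0, 50, 0⟩], [⟨53, 4390, -80, 0, 28, 26, 0, -50, 0⟩, ⟨40, 6334, -39, 0, 14, 25, 0, 0, 0⟩]⟩]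

def wg171 : List Wn := [
  ⟨[⟨0, -108, 0, -1, 1, 0, 0, 0, 0⟩, ⟨0, 114, 0, 1, -1, 0, 0, 0, 0⟩], [⟨7, 2520, 2, 0, 4, 0, 6, 0, 0⟩], [⟨11, 1420, -18, 8, 4, 0, -6, 0, 0⟩]⟩,
  ⟨[⟨0, -300, 0, -1, 1, 0, 0, 0, 0⟩], [⟨17, 4380, 2, 0, 14, 0, 34, 0, 0⟩], [⟨35, 3690, -52, 18, 18, 0, -34, 0, 0⟩, ⟨26, 3944, -25, 9, 16, 0, 0, 0, 0⟩]⟩,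
  ⟨[⟨0, -200, 0, -1, 1, 0, 0, 0, 0⟩, ⟨0, 220, 0, 1, -1, 0, 0, 0, 0⟩], [⟨39, 11680, 2, 0, 36, 0, 78, 0, 0⟩], [⟨79, 7420, -118, 40, 40, 0, -78, 0, 0⟩]⟩,
  ⟨[⟨0, -159, 0, 0, -1, 1, 0, 0, 0⟩], [⟨7, 1450, 2, 0, 0, 8, 0, 2, 0⟩, ⟨7, 2200, 2, 0, 8, 0, 0, 2, 0⟩], [⟨11, 620, -18, 0, 8, 4, 0, -6, 0⟩]⟩,
  ⟨[⟨0, -180, 0, -1, 1, 0, 0, 0, 0⟩, ⟨0, 200, 0, 1, -1, 0, 0, 0, 0⟩], [⟨6, 1280, 2, 1, 2, 0, 12, 0, 0⟩], [⟨12, 370, -18, 7, 6, 0, -12, 0, 0⟩]⟩,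
  ⟨[⟨0, -300, 0, -1, 1, 0, 0, 0, 0⟩], [⟨12, 3120, 2, 0, 9, 0, 24, 0, 0⟩, ⟨18, 2736, -17, 6, 11, 0, 0, 0, 0⟩], [⟨24, 2340, -36, 12, 13, 0, -24, 0, 0⟩]⟩,
  ⟨[⟨0, -900, 0, -1, 1, 0, 0, 0, 0⟩], [⟨14, 4270, 2, 0, 11, 0, 24, 0, 0⟩], [⟨26, 2070, -40, 14, 13, 0, -24, 0, 0⟩, ⟨20, 3162, -19, 7, 12, 0, 0, 0, 0⟩]⟩,
  ⟨[⟨0, -93, 0, -1, 1, 0, 0, 0, 0⟩], [⟨51, 21380, 2, 0, 48, 0, 94, 0, 0⟩, ⟨51, 20350, 2, 96, 44, 0, 2, 0, 0⟩], [⟨99, 6880, -150, 52, 48, 0, -94, 0, 0⟩]⟩,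
  ⟨[⟨0, -220, 0, -1, 1, 0, 0, 0, 0⟩, ⟨0, 245, 0, 1, -1, 0, 0, 0, 0⟩], [⟨3, 20, 2, 0, 0, 0, 2, 0, 0⟩], [⟨5, 1140, -8, 4, 2, 0, -2, 0, 0⟩, ⟨4, 563, -3, 2, 1, 0, 0, 0, 0⟩]⟩,
  ⟨[⟨0, -1200, 0, -1, 1, 0, 0, 0, 0⟩], [⟨6, 1170, 2, 1, 2, 0, 8, 0, 0⟩, ⟨8, 1134, -7, 4, 3, 0, 0, 0, 0⟩], [⟨10, 1090, -16, 7, 4, 0, -8, 0, 0⟩]⟩,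
  ⟨[⟨0, -84, 0, -1, 1, 0, 0, 0, 0⟩, ⟨0, 92, 0, 1, -1, 0, 0, 0, 0⟩], [⟨15, 5110, 2, 0, 12, 0, 28, 0, 0⟩], [⟨29, 2780, -44, 14, 16, 0, -28, 0, 0⟩, ⟨22, 3769, -21, 7, 14, 0, 0, 0, 0⟩]⟩,
  ⟨[], [⟨23, 9040, 2, 0, 0, 20, 0, 46, 0⟩, ⟨23, 8410, 2, 0, 44, 20, 0, 2, 0⟩], [⟨47, 4110, -70, 0, 24, 24, 0, -46, 0⟩]⟩,
  ⟨[⟨0, -93, 0, 0, -1, 1, 0, 0, 0⟩], [⟨19, 8520, 2, 0, 0, 16, 0, 30, 0⟩, ⟨19, 7500, 2, 0, 32, 12, 0, 2, 0⟩], [⟨35, 2090, -54, 0, 20, 16, 0, -30, 0⟩]⟩,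
  ⟨[⟨0, -270, 0, -1, 1, 0, 0, 0, 0⟩, ⟨0, 300, 0, 1, -1, 0, 0, 0, 0⟩], [⟨42, 13500, 2, 0, 39, 0, 84, 0, 0⟩], [⟨84, 6590, -126, 42, 43, 0, -84, 0, 0⟩]⟩,
  ⟨[⟨0, -23, 0, 0, -1, 1, 0, 0, 0⟩, ⟨0, 60, 0, 0, 1, -1, 0, 0, 0⟩], [⟨23, 8570, 2, 0, 40, 16, 0, 2, 0⟩], [⟨43, 2040, -66, 0, 24, 20, 0, -38, 0⟩]⟩,
  ⟨[⟨0, -1350, 0, -1, 1, 0, 0, 0, 0⟩], [⟨4, 720, 2, 0, 1, 0, 8, 0, 0⟩, ⟨6, 780, -5, 2, 3, 0, 0, 0, 0⟩], [⟨8, 830, -12, 4, 5, 0, -8, 0, 0⟩]⟩]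

def wg172 : List Wn := [
  ⟨[⟨0, -1350, 0, -1, 1, 0, 0, 0, 0⟩], [⟨27, 8240, 2, 0, 24, 0, 50, 0, 0⟩], [⟨53, 4410, -80, 28, 26, 0, -50, 0, 0⟩, ⟨40, 6312, -39, 14, 25, 0, 0, 0, 0⟩]⟩,
  ⟨[⟨0, -150, 0, 0, -1, 1, 0, 0, 0⟩, ⟨0, 200, 0, 0, 1, -1, 0, 0, 0⟩], [⟨25, 9040, 2, 0, 0, 22, 0, 46, 0⟩], [⟨49, 3230, -74, 0, 26, 24, 0, -46, 0⟩]⟩,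
  ⟨[⟨0, -800, 0, 0, -1, 1, 0, 0, 0⟩], [⟨9, 1970, 2, 0, 0, 6, 0, 18, 0⟩, ⟨14, 2061, -13, 0, 5, 8, 0, 0, 0⟩], [⟨19, 2140, -28, 0, 10, 10, 0, -18, 0⟩]⟩,
  ⟨[⟨0, -750, 0, -1, 1, 0, 0, 0, 0⟩], [⟨9, 1970, 2, 0, 6, 0, 18, 0, 0⟩, ⟨14, 2062, -13, 5, 8, 0, 0, 0, 0⟩], [⟨19, 2140, -28, 10, 10, 0, -18, 0, 0⟩]⟩,
  ⟨[⟨0, -245, 0, -1, 1, 0, 0, 0, 0⟩, ⟨0, 270, 0, 1, -1, 0, 0, 0, 0⟩], [⟨13, 3410, 2, 0, 10, 0, 26, 0, 0⟩, ⟨20, 3103, -19, 7, 12, 0, 0, 0, 0⟩], [⟨27, 2790, -40, 14, 14, 0, -26, 0, 0⟩]⟩,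
  ⟨[⟨0, -450, 0, -1, 1, 0, 0, 0, 0⟩], [⟨22, 6550, 2, 1, 18, 0, 40, 0, 0⟩, ⟨32, 5000, -31, 12, 19, 0, 0, 0, 0⟩], [⟨42, 3420, -64, 23, 20, 0, -40, 0, 0⟩]⟩,
  ⟨[⟨0, -10, 0, -1, 1, 0, 0, 0, 0⟩, ⟨0, 18, 0, 1, -1, 0, 0, 0, 0⟩], [⟨7, 2020, 2, 10, 2, 0, 2, 0, 0⟩], [⟨13, 830, -20, 8, 6, 0, -10, 0, 0⟩]⟩,
  ⟨[⟨0, -1050, 0, -1, 1, 0, 0, 0, 0⟩], [⟨23, 6760, 2, 0, 20, 0, 44, 0, 0⟩], [⟨45, 3870, -68, 22, 24, 0, -44, 0, 0⟩, ⟨34, 5304, -33, 11, 22, 0, 0, 0, 0⟩]⟩,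
  ⟨[⟨0, -103, 0, -1, 1, 0, 0, 0, 0⟩, ⟨0, 105, 0, 1, -1, 0, 0, 0, 0⟩], [⟨10, 3100, 2, 0, 7, 0, 18, 0, 0⟩], [⟨18, 1470, -28, 8, 11, 0, -18, 0, 0⟩, ⟨14, 2276, -13, 4, 9, 0, 0, 0, 0⟩]⟩,
  ⟨[⟨0, -27, 0, -1, 1, 0, 0, 0, 0⟩, ⟨0, 38, 0, 1, -1, 0, 0, 0, 0⟩], [⟨29, 8130, 2, 56, 26, 0, 2, 0, 0⟩], [⟨59, 5990, -88, 30, 30, 0, -58, 0, 0⟩]⟩,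
  ⟨[⟨0, -93, 0, 0, -1, 1, 0, 0, 0⟩], [⟨5, 970, 2, 0, 0, 2, 0, 10, 0⟩, ⟨5, 1830, 2, 0, 8, 2, 0, 2, 0⟩, ⟨8, 1300, -7, 0, 3, 4, 0, 0, 0⟩], [⟨11, 1600, -16, 0, 6, 6, 0, -10, 0⟩]⟩,
  ⟨[⟨0, -99, 0, -1, 1, 0, 0, 0, 0⟩, ⟨0, 101, 0, 1, -1, 0, 0, 0, 0⟩], [⟨22, 7780, 2, 0, 19, 0, 44, 0, 0⟩], [⟨44, 3360, -66, 22, 23, 0, -44, 0, 0⟩]⟩,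
  ⟨[⟨0, -165, 0, -1, 1, 0, 0, 0, 0⟩, ⟨0, 180, 0, 1, -1, 0, 0, 0, 0⟩], [⟨26, 8280, 2, 0, 23, 0, 52, 0, 0⟩], [⟨52, 4320, -78, 26, 27, 0, -52, 0, 0⟩]⟩,
  ⟨[⟨0, -1350, 0, -1, 1, 0, 0, 0, 0⟩], [⟨6, 1320, 2, 1, 2, 0, 12, 0, 0⟩], [⟨12, 1040, -18, 7, 6, 0, -12, 0, 0⟩]⟩,
  ⟨[⟨0, -399, 0, -1, 1, 0, 0, 0, 0⟩], [⟨9, 3950, 2, 0, 6, 0, 14, 0, 0⟩, ⟨9, 3110, 2, 14, 4, 0, 2, 0, 0⟩], [⟨17, 2280, -26, 10, 8, 0, -14, 0, 0⟩]⟩,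
  ⟨[⟨0, -300, 0, 0, -1, 1, 0, 0, 0⟩], [⟨5, 640, 2, 0, 0, 2, 0, 2, 0⟩, ⟨6, 1021, -5, 0, 3, 2, 0, 0, 0⟩], [⟨7, 1350, -12, 0, 6, 2, 0, -2, 0⟩]⟩]

def wg173 : List Wn := [
  ⟨[⟨0, -201, 0, -1, 1, 0, 0, 0, 0⟩], [⟨5, 2920, 2, 0, 2, 0, 6, 0, 0⟩, ⟨5, 2080, 2, 6, 0, 0, 2, 0, 0⟩], [⟨9, 1050, -14, 6, 4, 0, -6, 0, 0⟩]⟩,
  ⟨[⟨0, -101, 0, -1, 1, 0, 0, 0, 0⟩, ⟨0, 103, 0, 1, -1, 0, 0, 0, 0⟩], [⟨7, 770, 2, 0, 4, 0, 2, 0, 0⟩], [⟨9, 2010, -16, 8, 2, 0, -2, 0, 0⟩, ⟨8, 1384, -7, 4, 3, 0, 0, 0, 0⟩]⟩,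
  ⟨[⟨0, -750, 0, -1, 1, 0, 0, 0, 0⟩], [⟨14, 4270, 2, 0, 11, 0, 24, 0, 0⟩], [⟨26, 2070, -40, 14, 13, 0, -24, 0, 0⟩, ⟨20, 3162, -19, 7, 12, 0, 0, 0, 0⟩]⟩,
  ⟨[⟨0, -1050, 0, -1, 1, 0, 0, 0, 0⟩], [⟨6, 1170, 2, 1, 2, 0, 8, 0, 0⟩, ⟨8, 1135, -7, 4, 3, 0, 0, 0, 0⟩], [⟨10, 1090, -16, 7, 4, 0, -8, 0, 0⟩]⟩,
  ⟨[⟨0, -1350, 0, -1, 1, 0, 0, 0, 0⟩], [⟨19, 6490, 2, 0, 16, 0, 30, 0, 0⟩], [⟨35, 2320, -54, 20, 16, 0, -30, 0, 0⟩]⟩,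
  ⟨[⟨0, -1200, 0, -1, 1, 0, 0, 0, 0⟩], [⟨4, 720, 2, 0, 1, 0, 8, 0, 0⟩, ⟨6, 780, -5, 2, 3, 0, 0, 0, 0⟩], [⟨8, 830, -12, 4, 5, 0, -8, 0, 0⟩]⟩,
  ⟨[⟨0, -101, 0, -1, 1, 0, 0, 0, 0⟩, ⟨0, 103, 0, 1, -1, 0, 0, 0, 0⟩], [⟨5, 1500, 2, 0, 2, 0, 6, 0, 0⟩], [⟨9, 810, -14, 6, 4, 0, -6, 0, 0⟩]⟩,
  ⟨[⟨0, -600, 0, 0, -1, 1, 0, 0, 0⟩], [⟨9, 1980, 2, 0, 0, 6, 0, 18, 0⟩, ⟨14, 2065, -13, 0, 5, 8, 0, 0, 0⟩], [⟨19, 2140, -28, 0, 10, 10, 0, -18, 0⟩]⟩,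
  ⟨[⟨0, -600, 0, -1, 1, 0, 0, 0, 0⟩], [⟨9, 1980, 2, 0, 6, 0, 18, 0, 0⟩, ⟨14, 2065, -13, 5, 8, 0, 0, 0, 0⟩], [⟨19, 2140, -28, 10, 10, 0, -18, 0, 0⟩]⟩,
  ⟨[⟨0, 10, 0, 1, -1, 0, 0, 0, 0⟩], [⟨33, 10230, 2, 64, 30, 0, 2, 0, 0⟩], [⟨67, 5440, -100, 34, 34, 0, -66, 0, 0⟩]⟩,
  ⟨[⟨0, -150, 0, 0, -1, 1, 0, 0, 0⟩, ⟨0, 200, 0, 0, 1, -1, 0, 0, 0⟩], [⟨17, 4680, 2, 0, 0, 14, 0, 34, 0⟩, ⟨26, 4195, -25, 0, 9, 16, 0, 0, 0⟩], [⟨35, 3690, -52, 0, 18, 18, 0, -34, 0⟩]⟩,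
  ⟨[⟨0, -300, 0, -1, 1, 0, 0, 0, 0⟩], [⟨22, 6680, 2, 1, 18, 0, 40, 0, 0⟩, ⟨32, 5069, -31, 12, 19, 0, 0, 0, 0⟩], [⟨42, 3400, -64, 23, 20, 0, -40, 0, 0⟩]⟩,
  ⟨[⟨0, -126, 0, -1, 1, 0, 0, 0, 0⟩, ⟨0, 138, 0, 1, -1, 0, 0, 0, 0⟩], [⟨9, 2270, 2, 0, 6, 0, 14, 0, 0⟩], [⟨17, 2010, -26, 10, 8, 0, -14, 0, 0⟩]⟩,
  ⟨[⟨0, -105, 0, -1, 1, 0, 0, 0, 0⟩, ⟨0, 108, 0, 1, -1, 0, 0, 0, 0⟩], [⟨3, 10, 2, 0, 0, 0, 2, 0, 0⟩], [⟨5, 1080, -8, 4, 2, 0, -2, 0, 0⟩, ⟨4, 537, -3, 2, 1, 0, 0, 0, 0⟩]⟩,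
  ⟨[⟨0, -900, 0, -1, 1, 0, 0, 0, 0⟩], [⟨23, 6760, 2, 0, 20, 0, 44, 0, 0⟩], [⟨45, 3870, -68, 22, 24, 0, -44, 0, 0⟩, ⟨34, 5304, -33, 11, 22, 0, 0, 0, 0⟩]⟩,
  ⟨[⟨0, -100, 0, 0, -1, 1, 0, 0, 0⟩, ⟨0, 150, 0, 0, 1, -1, 0, 0, 0⟩], [⟨33, 12900, 2, 0, 0, 30, 0, 50, 0⟩], [⟨59, 3240, -92, 0, 34, 26, 0, -50, 0⟩, ⟨46, 7866, -45, 0, 17, 28, 0, 0, 0⟩]⟩]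

def wg174 : List Wn := [
  ⟨[], [⟨7, 2550, 2, 0, 4, 0, 12, 0, 0⟩, ⟨7, 1670, 2, 12, 2, 0, 2, 0, 0⟩], [⟨13, 1540, -20, 6, 8, 0, -12, 0, 0⟩, ⟨10, 1490, -9, 3, 6, 0, 0, 0, 0⟩]⟩,
  ⟨[], [⟨5, 970, 2, 0, 0, 2, 0, 10, 0⟩, ⟨5, 1830, 2, 0, 8, 2, 0, 2, 0⟩, ⟨8, 1300, -7, 0, 3, 4, 0, 0, 0⟩], [⟨11, 1600, -16, 0, 6, 6, 0, -10, 0⟩]⟩,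
  ⟨[⟨0, -159, 0, 0, -1, 1, 0, 0, 0⟩], [⟨19, 8120, 2, 0, 0, 16, 0, 32, 0⟩, ⟨19, 7040, 2, 0, 34, 12, 0, 2, 0⟩, ⟨27, 5690, -26, 0, 26, 0, 0, 0, 0⟩], [⟨35, 2440, -54, 0, 18, 18, 0, -32, 0⟩]⟩,
  ⟨[⟨0, -200, 0, 0, -1, 1, 0, 0, 0⟩], [⟨17, 4550, 2, 0, 0, 14, 0, 34, 0⟩], [⟨35, 3690, -52, 0, 18, 18, 0, -34, 0⟩, ⟨26, 3944, -25, 0, 9, 16, 0, 0, 0⟩]⟩,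
  ⟨[⟨0, -100, 0, 0, -1, 1, 0, 0, 0⟩, ⟨0, 150, 0, 0, 1, -1, 0, 0, 0⟩], [⟨41, 14770, 2, 0, 0, 38, 0, 78, 0⟩], [⟨81, 6210, -122, 0, 42, 40, 0, -78, 0⟩]⟩,
  ⟨[⟨0, -105, 0, -1, 1, 0, 0, 0, 0⟩, ⟨0, 108, 0, 1, -1, 0, 0, 0, 0⟩], [⟨26, 8650, 2, 0, 23, 0, 52, 0, 0⟩], [⟨52, 4320, -78, 26, 27, 0, -52, 0, 0⟩]⟩,
  ⟨[⟨0, -200, 0, 0, -1, 1, 0, 0, 0⟩], [⟨25, 9160, 2, 0, 0, 22, 0, 42, 0⟩, ⟨36, 6071, -35, 0, 13, 22, 0, 0, 0⟩], [⟨47, 2840, -72, 0, 26, 22, 0, -42, 0⟩]⟩,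
  ⟨[⟨0, -200, 0, 0, -1, 1, 0, 0, 0⟩], [⟨5, 690, 2, 0, 0, 2, 0, 2, 0⟩, ⟨6, 1041, -5, 0, 3, 2, 0, 0, 0⟩], [⟨7, 1310, -12, 0, 6, 2, 0, -2, 0⟩]⟩,
  ⟨[⟨0, -101, 0, -1, 1, 0, 0, 0, 0⟩, ⟨0, 103, 0, 1, -1, 0, 0, 0, 0⟩], [⟨15, 4910, 2, 0, 12, 0, 26, 0, 0⟩], [⟨29, 2420, -44, 16, 14, 0, -26, 0, 0⟩, ⟨22, 3634, -21, 8, 13, 0, 0, 0, 0⟩]⟩,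
  ⟨[⟨0, -99, 0, -1, 1, 0, 0, 0, 0⟩, ⟨0, 101, 0, 1, -1, 0, 0, 0, 0⟩], [⟨19, 5730, 2, 0, 16, 0, 36, 0, 0⟩], [⟨37, 3760, -56, 18, 20, 0, -36, 0, 0⟩, ⟨28, 4713, -27, 9, 18, 0, 0, 0, 0⟩]⟩,
  ⟨[⟨0, -1350, 0, -1, 1, 0, 0, 0, 0⟩], [⟨28, 8390, 2, 0, 25, 0, 56, 0, 0⟩, ⟨42, 6498, -41, 14, 27, 0, 0, 0, 0⟩], [⟨56, 4580, -84, 28, 29, 0, -56, 0, 0⟩]⟩,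
  ⟨[⟨0, -159, 0, -1, 1, 0, 0, 0, 0⟩], [⟨5, 2920, 2, 0, 2, 0, 6, 0, 0⟩, ⟨5, 2080, 2, 6, 0, 0, 2, 0, 0⟩], [⟨9, 1030, -14, 6, 4, 0, -6, 0, 0⟩]⟩,
  ⟨[⟨0, -600, 0, -1, 1, 0, 0, 0, 0⟩], [⟨14, 4280, 2, 0, 11, 0, 24, 0, 0⟩], [⟨26, 2070, -40, 14, 13, 0, -24, 0, 0⟩, ⟨20, 3160, -19, 7, 12, 0, 0, 0, 0⟩]⟩,
  ⟨[⟨0, -200, 0, -1, 1, 0, 0, 0, 0⟩, ⟨0, 220, 0, 1, -1, 0, 0, 0, 0⟩], [⟨10, 2930, 2, 0, 7, 0, 18, 0, 0⟩], [⟨18, 1470, -28, 8, 11, 0, -18, 0, 0⟩, ⟨14, 2190, -13, 4, 9, 0, 0, 0, 0⟩]⟩,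
  ⟨[⟨0, -500, 0, 0, -1, 1, 0, 0, 0⟩, ⟨0, 600, 0, 0, 1, -1, 0, 0, 0⟩], [⟨19, 6990, 2, 0, 0, 16, 0, 28, 0⟩], [⟨33, 1740, -52, 0, 18, 16, 0, -28, 0⟩, ⟨26, 4349, -25, 0, 9, 16, 0, 0, 0⟩]⟩,
  ⟨[⟨0, -900, 0, -1, 1, 0, 0, 0, 0⟩], [⟨6, 1170, 2, 1, 2, 0, 8, 0, 0⟩, ⟨8, 1135, -7, 4, 3, 0, 0, 0, 0⟩], [⟨10, 1090, -16, 7, 4, 0, -8, 0, 0⟩]⟩]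

def wg175 : List Wn := [
  ⟨[⟨0, -220, 0, -1, 1, 0, 0, 0, 0⟩, ⟨0, 245, 0, 1, -1, 0, 0, 0, 0⟩], [⟨33, 10400, 2, 0, 30, 0, 62, 0, 0⟩], [⟨65, 5580, -98, 34, 32, 0, -62, 0, 0⟩]⟩,
  ⟨[⟨0, -1200, 0, -1, 1, 0, 0, 0, 0⟩], [⟨19, 6490, 2, 0, 16, 0, 30, 0, 0⟩], [⟨35, 2320, -54, 20, 16, 0, -30, 0, 0⟩]⟩,
  ⟨[⟨0, -500, 0, 0, -1, 1, 0, 0, 0⟩, ⟨0, 600, 0, 0, 1, -1, 0, 0, 0⟩], [⟨11, 3330, 2, 0, 0, 8, 0, 12, 0⟩], [⟨17, 1580, -28, 0, 10, 8, 0, -12, 0⟩, ⟨14, 2445, -13, 0, 5, 8, 0, 0, 0⟩]⟩,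
  ⟨[⟨0, -1050, 0, -1, 1, 0, 0, 0, 0⟩], [⟨4, 720, 2, 0, 1, 0, 8, 0, 0⟩, ⟨6, 780, -5, 2, 3, 0, 0, 0, 0⟩], [⟨8, 830, -12, 4, 5, 0, -8, 0, 0⟩]⟩,
  ⟨[⟨0, -103, 0, -1, 1, 0, 0, 0, 0⟩, ⟨0, 105, 0, 1, -1, 0, 0, 0, 0⟩], [⟨39, 12480, 2, 0, 36, 0, 78, 0, 0⟩], [⟨79, 7420, -118, 40, 40, 0, -78, 0, 0⟩]⟩,
  ⟨[⟨0, -500, 0, 0, -1, 1, 0, 0, 0⟩], [⟨9, 1990, 2, 0, 0, 6, 0, 18, 0⟩, ⟨14, 2071, -13, 0, 5, 8, 0, 0, 0⟩], [⟨19, 2140, -28, 0, 10, 10, 0, -18, 0⟩]⟩,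
  ⟨[⟨0, -450, 0, -1, 1, 0, 0, 0, 0⟩], [⟨9, 2000, 2, 0, 6, 0, 18, 0, 0⟩, ⟨14, 2075, -13, 5, 8, 0, 0, 0, 0⟩], [⟨19, 2140, -28, 10, 10, 0, -18, 0, 0⟩]⟩,
  ⟨[⟨0, -245, 0, -1, 1, 0, 0, 0, 0⟩, ⟨0, 270, 0, 1, -1, 0, 0, 0, 0⟩], [⟨14, 4210, 2, 0, 11, 0, 28, 0, 0⟩], [⟨28, 2270, -42, 14, 15, 0, -28, 0, 0⟩]⟩,
  ⟨[⟨0, -38, 0, -1, 1, 0, 0, 0, 0⟩, ⟨0, 50, 0, 1, -1, 0, 0, 0, 0⟩], [⟨11, 3680, 2, 18, 6, 0, 2, 0, 0⟩], [⟨21, 420, -32, 12, 10, 0, -18, 0, 0⟩]⟩,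
  ⟨[⟨0, -126, 0, -1, 1, 0, 0, 0, 0⟩, ⟨0, 138, 0, 1, -1, 0, 0, 0, 0⟩], [⟨9, 2080, 2, 0, 6, 0, 14, 0, 0⟩], [⟨17, 1350, -26, 10, 8, 0, -14, 0, 0⟩]⟩,
  ⟨[⟨0, -10, 0, -1, 1, 0, 0, 0, 0⟩, ⟨0, 18, 0, 1, -1, 0, 0, 0, 0⟩], [⟨7, 2690, 2, 10, 2, 0, 2, 0, 0⟩], [⟨13, 1020, -20, 8, 6, 0, -10, 0, 0⟩]⟩,
  ⟨[⟨0, -600, 0, -1, 1, 0, 0, 0, 0⟩], [⟨11, 3600, 2, 0, 8, 0, 18, 0, 0⟩, ⟨16, 2530, -15, 6, 9, 0, 0, 0, 0⟩], [⟨21, 1450, -32, 12, 10, 0, -18, 0, 0⟩]⟩,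
  ⟨[⟨0, -1350, 0, -1, 1, 0, 0, 0, 0⟩], [⟨10, 2910, 2, 0, 7, 0, 16, 0, 0⟩], [⟨18, 1540, -28, 10, 9, 0, -16, 0, 0⟩, ⟨14, 2219, -13, 5, 8, 0, 0, 0, 0⟩]⟩,
  ⟨[], [⟨27, 8240, 2, 0, 50, 0, 24, 0, 0⟩, ⟨27, 10710, 2, 50, 22, 0, 2, 0, 0⟩, ⟨40, 7340, -39, 14, 25, 0, 0, 0, 0⟩], [⟨53, 4180, -80, 28, 26, 0, -50, 0, 0⟩]⟩,
  ⟨[⟨0, -1050, 0, -1, 1, 0, 0, 0, 0⟩], [⟨6, 1320, 2, 1, 2, 0, 12, 0, 0⟩], [⟨12, 1040, -18, 7, 6, 0, -12, 0, 0⟩]⟩,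
  ⟨[⟨0, -93, 0, 0, -1, 1, 0, 0, 0⟩], [⟨29, 12290, 2, 0, 0, 26, 0, 54, 0⟩, ⟨29, 11450, 2, 0, 54, 24, 0, 2, 0⟩], [⟨57, 4010, -86, 0, 30, 28, 0, -54, 0⟩]⟩]

def wg176 : List Wn := [
  ⟨[⟨0, -1350, 0, -1, 1, 0, 0, 0, 0⟩], [⟨15, 3840, 2, 0, 12, 0, 28, 0, 0⟩, ⟨22, 3319, -21, 8, 13, 0, 0, 0, 0⟩], [⟨29, 2780, -44, 16, 14, 0, -28, 0, 0⟩]⟩,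
  ⟨[⟨0, -201, 0, -1, 1, 0, 0, 0, 0⟩], [⟨9, 3950, 2, 0, 6, 0, 14, 0, 0⟩, ⟨9, 3110, 2, 14, 4, 0, 2, 0, 0⟩], [⟨17, 2230, -26, 10, 8, 0, -14, 0, 0⟩]⟩,
  ⟨[⟨0, -1200, 0, 0, -1, 1, 0, 0, 0⟩], [⟨5, 610, 2, 0, 0, 2, 0, 2, 0⟩], [⟨7, 1390, -12, 0, 6, 2, 0, -2, 0⟩, ⟨6, 996, -5, 0, 3, 2, 0, 0, 0⟩]⟩,
  ⟨[], [⟨7, 1450, 2, 0, 0, 8, 0, 2, 0⟩, ⟨7, 2200, 2, 0, 8, 0, 0, 2, 0⟩], [⟨11, 400, -18, 0, 8, 4, 0, -6, 0⟩]⟩,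
  ⟨[⟨0, -114, 0, -1, 1, 0, 0, 0, 0⟩, ⟨0, 126, 0, 1, -1, 0, 0, 0, 0⟩], [⟨9, 2270, 2, 0, 6, 0, 18, 0, 0⟩, ⟨14, 2209, -13, 5, 8, 0, 0, 0, 0⟩], [⟨19, 2140, -28, 10, 10, 0, -18, 0, 0⟩]⟩,
  ⟨[⟨0, -133, 0, -1, 1, 0, 0, 0, 0⟩], [⟨5, 2920, 2, 0, 2, 0, 6, 0, 0⟩, ⟨5, 2080, 2, 6, 0, 0, 2, 0, 0⟩], [⟨9, 1020, -14, 6, 4, 0, -6, 0, 0⟩]⟩,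
  ⟨[⟨0, -38, 0, -1, 1, 0, 0, 0, 0⟩, ⟨0, 50, 0, 1, -1, 0, 0, 0, 0⟩], [⟨21, 6230, 2, 38, 16, 0, 2, 0, 0⟩], [⟨41, 3690, -62, 22, 20, 0, -38, 0, 0⟩]⟩,
  ⟨[⟨0, -450, 0, -1, 1, 0, 0, 0, 0⟩], [⟨14, 4310, 2, 0, 11, 0, 24, 0, 0⟩], [⟨26, 2060, -40, 14, 13, 0, -24, 0, 0⟩, ⟨20, 3155, -19, 7, 12, 0, 0, 0, 0⟩]⟩,
  ⟨[⟨0, -114, 0, -1, 1, 0, 0, 0, 0⟩, ⟨0, 126, 0, 1, -1, 0, 0, 0, 0⟩], [⟨38, 13240, 2, 0, 35, 0, 76, 0, 0⟩], [⟨76, 5730, -114, 38, 39, 0, -76, 0, 0⟩]⟩,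
  ⟨[⟨0, -750, 0, -1, 1, 0, 0, 0, 0⟩], [⟨6, 1170, 2, 1, 2, 0, 8, 0, 0⟩, ⟨8, 1136, -7, 4, 3, 0, 0, 0, 0⟩], [⟨10, 1090, -16, 7, 4, 0, -8, 0, 0⟩]⟩,
  ⟨[⟨0, -84, 0, -1, 1, 0, 0, 0, 0⟩, ⟨0, 92, 0, 1, -1, 0, 0, 0, 0⟩], [⟨15, 5510, 2, 0, 12, 0, 28, 0, 0⟩], [⟨29, 2580, -44, 16, 14, 0, -28, 0, 0⟩]⟩,
  ⟨[⟨0, -60, 0, 0, -1, 1, 0, 0, 0⟩, ⟨0, 100, 0, 0, 1, -1, 0, 0, 0⟩], [⟨7, 2010, 2, 0, 12, 2, 0, 2, 0⟩], [⟨13, 1540, -20, 0, 6, 8, 0, -12, 0⟩, ⟨10, 1494, -9, 0, 9, 5, 0, -5, 0⟩]⟩,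
  ⟨[⟨0, -1350, 0, -1, 1, 0, 0, 0, 0⟩], [⟨7, 1270, 2, 0, 4, 0, 12, 0, 0⟩, ⟨10, 1409, -9, 4, 5, 0, 0, 0, 0⟩], [⟨13, 1540, -20, 8, 6, 0, -12, 0, 0⟩]⟩,
  ⟨[⟨0, -900, 0, -1, 1, 0, 0, 0, 0⟩], [⟨4, 720, 2, 0, 1, 0, 8, 0, 0⟩, ⟨6, 780, -5, 2, 3, 0, 0, 0, 0⟩], [⟨8, 830, -12, 4, 5, 0, -8, 0, 0⟩]⟩,
  ⟨[⟨0, -400, 0, 0, -1, 1, 0, 0, 0⟩], [⟨9, 2020, 2, 0, 0, 6, 0, 18, 0⟩, ⟨14, 2082, -13, 0, 5, 8, 0, 0, 0⟩], [⟨19, 2140, -28, 0, 10, 10, 0, -18, 0⟩]⟩,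
  ⟨[⟨0, -300, 0, -1, 1, 0, 0, 0, 0⟩], [⟨9, 2060, 2, 0, 6, 0, 18, 0, 0⟩, ⟨14, 2105, -13, 5, 8, 0, 0, 0, 0⟩], [⟨19, 2140, -28, 10, 10, 0, -18, 0, 0⟩]⟩]

def wg177 : List Wn := [
  ⟨[⟨0, -825, 0, -1, 1, 0, 0, 0, 0⟩, ⟨0, 900, 0, 1, -1, 0, 0, 0, 0⟩], [⟨11, 3010, 2, 0, 8, 0, 20, 0, 0⟩], [⟨21, 1910, -32, 10, 12, 0, -20, 0, 0⟩, ⟨16, 2454, -15, 5, 10, 0, 0, 0, 0⟩]⟩,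
  ⟨[⟨0, -38, 0, -1, 1, 0, 0, 0, 0⟩, ⟨0, 50, 0, 1, -1, 0, 0, 0, 0⟩], [⟨11, 4530, 2, 18, 6, 0, 2, 0, 0⟩], [⟨21, 1270, -32, 12, 10, 0, -18, 0, 0⟩]⟩,
  ⟨[⟨0, -126, 0, -1, 1, 0, 0, 0, 0⟩, ⟨0, 138, 0, 1, -1, 0, 0, 0, 0⟩], [⟨9, 2930, 2, 0, 6, 0, 14, 0, 0⟩], [⟨17, 2200, -26, 10, 8, 0, -14, 0, 0⟩]⟩,
  ⟨[⟨0, -600, 0, 0, -1, 1, 0, 0, 0⟩], [⟨23, 6790, 2, 0, 0, 20, 0, 44, 0⟩], [⟨45, 3870, -68, 0, 22, 24, 0, -44, 0⟩, ⟨34, 5304, -33, 0, 11, 22, 0, 0, 0⟩]⟩,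
  ⟨[⟨0, -126, 0, -1, 1, 0, 0, 0, 0⟩, ⟨0, 138, 0, 1, -1, 0, 0, 0, 0⟩], [⟨23, 7380, 2, 0, 20, 0, 46, 0, 0⟩], [⟨47, 4110, -70, 24, 24, 0, -46, 0, 0⟩]⟩,
  ⟨[⟨0, -245, 0, -1, 1, 0, 0, 0, 0⟩, ⟨0, 270, 0, 1, -1, 0, 0, 0, 0⟩], [⟨6, 1420, 2, 1, 2, 0, 12, 0, 0⟩], [⟨12, 1040, -18, 7, 6, 0, -12, 0, 0⟩]⟩,
  ⟨[⟨0, -50, 0, -1, 1, 0, 0, 0, 0⟩, ⟨0, 66, 0, 1, -1, 0, 0, 0, 0⟩], [⟨37, 12720, 2, 72, 34, 0, 2, 0, 0⟩], [⟨75, 5730, -112, 38, 38, 0, -74, 0, 0⟩]⟩,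
  ⟨[⟨0, -1200, 0, -1, 1, 0, 0, 0, 0⟩], [⟨10, 2910, 2, 0, 7, 0, 16, 0, 0⟩], [⟨18, 1540, -28, 10, 9, 0, -16, 0, 0⟩, ⟨14, 2219, -13, 5, 8, 0, 0, 0, 0⟩]⟩,
  ⟨[⟨0, -470, 0, -1, 1, 0, 0, 0, 0⟩, ⟨0, 530, 0, 1, -1, 0, 0, 0, 0⟩], [⟨11, 3620, 2, 0, 8, 0, 18, 0, 0⟩], [⟨21, 1440, -32, 12, 10, 0, -18, 0, 0⟩, ⟨16, 2516, -15, 6, 9, 0, 0, 0, 0⟩]⟩,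
  ⟨[⟨0, -600, 0, -1, 1, 0, 0, 0, 0⟩], [⟨14, 3800, 2, 1, 10, 0, 26, 0, 0⟩, ⟨20, 2920, -19, 8, 11, 0, 0, 0, 0⟩], [⟨26, 2030, -40, 15, 12, 0, -26, 0, 0⟩]⟩,
  ⟨[⟨0, -1350, 0, -1, 1, 0, 0, 0, 0⟩], [⟨31, 8990, 2, 0, 28, 0, 62, 0, 0⟩], [⟨63, 5570, -94, 32, 32, 0, -62, 0, 0⟩]⟩,
  ⟨[⟨0, -66, 0, -1, 1, 0, 0, 0, 0⟩, ⟨0, 76, 0, 1, -1, 0, 0, 0, 0⟩], [⟨9, 2210, 2, 14, 4, 0, 2, 0, 0⟩], [⟨17, 1970, -26, 10, 8, 0, -14, 0, 0⟩]⟩,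
  ⟨[⟨0, -900, 0, -1, 1, 0, 0, 0, 0⟩], [⟨6, 1330, 2, 1, 2, 0, 12, 0, 0⟩], [⟨12, 1040, -18, 7, 6, 0, -12, 0, 0⟩]⟩,
  ⟨[], [⟨29, 12290, 2, 0, 0, 26, 0, 54, 0⟩, ⟨29, 11450, 2, 0, 54, 24, 0, 2, 0⟩], [⟨57, 3940, -86, 0, 30, 28, 0, -54, 0⟩]⟩,
  ⟨[⟨0, -105, 0, -1, 1, 0, 0, 0, 0⟩, ⟨0, 108, 0, 1, -1, 0, 0, 0, 0⟩], [⟨9, 2350, 2, 0, 6, 0, 14, 0, 0⟩], [⟨17, 2000, -26, 10, 8, 0, -14, 0, 0⟩]⟩,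
  ⟨[⟨0, -159, 0, -1, 1, 0, 0, 0, 0⟩], [⟨9, 3950, 2, 0, 6, 0, 14, 0, 0⟩, ⟨9, 3110, 2, 14, 4, 0, 2, 0, 0⟩], [⟨17, 2210, -26, 10, 8, 0, -14, 0, 0⟩]⟩]

def wg178 : List Wn := [
  ⟨[⟨0, -1000, 0, 0, -1, 1, 0, 0, 0⟩], [⟨5, 610, 2, 0, 0, 2, 0, 2, 0⟩], [⟨7, 1390, -12, 0, 6, 2, 0, -2, 0⟩, ⟨6, 996, -5, 0, 3, 2, 0, 0, 0⟩]⟩,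
  ⟨[⟨0, -500, 0, 0, -1, 1, 0, 0, 0⟩, ⟨0, 600, 0, 0, 1, -1, 0, 0, 0⟩], [⟨14, 4300, 2, 0, 0, 11, 0, 24, 0⟩], [⟨26, 2060, -40, 0, 14, 13, 0, -24, 0⟩, ⟨20, 3164, -19, 0, 7, 12, 0, 0, 0⟩]⟩,
  ⟨[⟨0, -165, 0, -1, 1, 0, 0, 0, 0⟩, ⟨0, 180, 0, 1, -1, 0, 0, 0, 0⟩], [⟨9, 2000, 2, 0, 6, 0, 14, 0, 0⟩], [⟨17, 1370, -26, 10, 8, 0, -14, 0, 0⟩]⟩,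
  ⟨[⟨0, -597, 0, -1, 1, 0, 0, 0, 0⟩], [⟨59, 26560, 2, 0, 56, 0, 110, 0, 0⟩, ⟨59, 25530, 2, 112, 52, 0, 2, 0, 0⟩], [⟨115, 6340, -174, 60, 56, 0, -110, 0, 0⟩]⟩,
  ⟨[⟨0, -93, 0, -1, 1, 0, 0, 0, 0⟩], [⟨5, 2920, 2, 0, 2, 0, 6, 0, 0⟩, ⟨5, 2080, 2, 6, 0, 0, 2, 0, 0⟩], [⟨9, 990, -14, 6, 4, 0, -6, 0, 0⟩]⟩,
  ⟨[⟨0, -23, 0, 0, -1, 1, 0, 0, 0⟩, ⟨0, 60, 0, 0, 1, -1, 0, 0, 0⟩], [⟨17, 5810, 2, 0, 30, 12, 0, 2, 0⟩], [⟨33, 2170, -50, 0, 18, 16, 0, -30, 0⟩]⟩,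
  ⟨[⟨0, -300, 0, -1, 1, 0, 0, 0, 0⟩], [⟨14, 4380, 2, 0, 11, 0, 24, 0, 0⟩], [⟨26, 2030, -40, 14, 13, 0, -24, 0, 0⟩, ⟨20, 3143, -19, 7, 12, 0, 0, 0, 0⟩]⟩,
  ⟨[⟨0, -600, 0, -1, 1, 0, 0, 0, 0⟩], [⟨6, 1180, 2, 1, 2, 0, 8, 0, 0⟩, ⟨8, 1139, -7, 4, 3, 0, 0, 0, 0⟩], [⟨10, 1090, -16, 7, 4, 0, -8, 0, 0⟩]⟩,
  ⟨[⟨0, -1200, 0, -1, 1, 0, 0, 0, 0⟩], [⟨7, 1270, 2, 0, 4, 0, 12, 0, 0⟩, ⟨10, 1409, -9, 4, 5, 0, 0, 0, 0⟩], [⟨13, 1540, -20, 8, 6, 0, -12, 0, 0⟩]⟩,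
  ⟨[], [⟨11, 3630, 2, 0, 8, 0, 22, 0, 0⟩, ⟨11, 2170, 2, 8, 20, 0, 2, 0, 0⟩], [⟨23, 2070, -34, 12, 12, 0, -22, 0, 0⟩]⟩,
  ⟨[⟨0, -108, 0, -1, 1, 0, 0, 0, 0⟩, ⟨0, 114, 0, 1, -1, 0, 0, 0, 0⟩], [⟨17, 6170, 2, 0, 14, 0, 30, 0, 0⟩], [⟨33, 2240, -50, 18, 16, 0, -30, 0, 0⟩]⟩,
  ⟨[⟨0, -750, 0, -1, 1, 0, 0, 0, 0⟩], [⟨4, 720, 2, 0, 1, 0, 8, 0, 0⟩, ⟨6, 781, -5, 2, 3, 0, 0, 0, 0⟩], [⟨8, 830, -12, 4, 5, 0, -8, 0, 0⟩]⟩,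
  ⟨[⟨0, -300, 0, 0, -1, 1, 0, 0, 0⟩], [⟨9, 2060, 2, 0, 0, 6, 0, 18, 0⟩, ⟨14, 2105, -13, 0, 5, 8, 0, 0, 0⟩], [⟨19, 2140, -28, 0, 10, 10, 0, -18, 0⟩]⟩,
  ⟨[⟨0, -1350, 0, -1, 1, 0, 0, 0, 0⟩], [⟨9, 1970, 2, 0, 6, 0, 18, 0, 0⟩], [⟨19, 2140, -28, 10, 10, 0, -18, 0, 0⟩, ⟨14, 2049, -13, 5, 8, 0, 0, 0, 0⟩]⟩,
  ⟨[⟨0, -201, 0, 0, -1, 1, 0, 0, 0⟩], [⟨17, 7060, 2, 0, 0, 14, 0, 32, 0⟩, ⟨17, 6180, 2, 0, 32, 12, 0, 2, 0⟩, ⟨25, 5000, -24, 0, 24, 0, 0, 0, 0⟩], [⟨33, 2520, -50, 0, 16, 18, 0, -32, 0⟩]⟩,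
  ⟨[⟨0, -597, 0, -1, 1, 0, 0, 0, 0⟩], [⟨77, 31990, 2, 0, 74, 0, 150, 0, 0⟩, ⟨77, 31150, 2, 150, 72, 0, 2, 0, 0⟩], [⟨153, 10880, -230, 78, 76, 0, -150, 0, 0⟩]⟩]

def wg179 : List Wn := [
  ⟨[⟨0, -270, 0, -1, 1, 0, 0, 0, 0⟩, ⟨0, 300, 0, 1, -1, 0, 0, 0, 0⟩], [⟨39, 11390, 2, 0, 36, 0, 78, 0, 0⟩], [⟨79, 7420, -118, 40, 40, 0, -78, 0, 0⟩]⟩,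
  ⟨[⟨0, -50, 0, -1, 1, 0, 0, 0, 0⟩, ⟨0, 66, 0, 1, -1, 0, 0, 0, 0⟩], [⟨38, 13000, 2, 74, 35, 0, 2, 0, 0⟩], [⟨76, 5730, -114, 38, 39, 0, -76, 0, 0⟩]⟩,
  ⟨[⟨0, -150, 0, -1, 1, 0, 0, 0, 0⟩, ⟨0, 165, 0, 1, -1, 0, 0, 0, 0⟩], [⟨9, 2220, 2, 0, 6, 0, 18, 0, 0⟩, ⟨14, 2186, -13, 5, 8, 0, 0, 0, 0⟩], [⟨19, 2140, -28, 10, 10, 0, -18, 0, 0⟩]⟩,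
  ⟨[⟨0, -300, 0, -1, 1, 0, 0, 0, 0⟩, ⟨0, 335, 0, 1, -1, 0, 0, 0, 0⟩], [⟨3, 10, 2, 0, 0, 0, 2, 0, 0⟩], [⟨5, 1160, -8, 4, 2, 0, -2, 0, 0⟩, ⟨4, 576, -3, 2, 1, 0, 0, 0, 0⟩]⟩,
  ⟨[⟨0, -1050, 0, -1, 1, 0, 0, 0, 0⟩], [⟨10, 2910, 2, 0, 7, 0, 16, 0, 0⟩], [⟨18, 1540, -28, 10, 9, 0, -16, 0, 0⟩, ⟨14, 2219, -13, 5, 8, 0, 0, 0, 0⟩]⟩,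
  ⟨[⟨0, -150, 0, -1, 1, 0, 0, 0, 0⟩, ⟨0, 165, 0, 1, -1, 0, 0, 0, 0⟩], [⟨38, 12960, 2, 0, 35, 0, 76, 0, 0⟩], [⟨76, 5730, -114, 38, 39, 0, -76, 0, 0⟩]⟩,
  ⟨[⟨0, -138, 0, -1, 1, 0, 0, 0, 0⟩, ⟨0, 150, 0, 1, -1, 0, 0, 0, 0⟩], [⟨17, 6030, 2, 0, 14, 0, 30, 0, 0⟩], [⟨33, 2260, -50, 18, 16, 0, -30, 0, 0⟩]⟩,
  ⟨[⟨0, 10, 0, 1, -1, 0, 0, 0, 0⟩], [⟨10, 2860, 2, 17, 8, 0, 2, 0, 0⟩, ⟨15, 2238, -14, 14, 9, 0, -9, 0, 0⟩], [⟨20, 1610, -30, 11, 10, 0, -20, 0, 0⟩]⟩,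
  ⟨[⟨0, -450, 0, -1, 1, 0, 0, 0, 0⟩], [⟨14, 3840, 2, 1, 10, 0, 26, 0, 0⟩, ⟨20, 2938, -19, 8, 11, 0, 0, 0, 0⟩], [⟨26, 2030, -40, 15, 12, 0, -26, 0, 0⟩]⟩,
  ⟨[⟨0, -1200, 0, -1, 1, 0, 0, 0, 0⟩], [⟨31, 8990, 2, 0, 28, 0, 62, 0, 0⟩], [⟨63, 5570, -94, 32, 32, 0, -62, 0, 0⟩]⟩,
  ⟨[⟨0, -750, 0, -1, 1, 0, 0, 0, 0⟩], [⟨6, 1330, 2, 1, 2, 0, 12, 0, 0⟩], [⟨12, 1040, -18, 7, 6, 0, -12, 0, 0⟩]⟩,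
  ⟨[⟨0, -133, 0, -1, 1, 0, 0, 0, 0⟩], [⟨9, 3950, 2, 0, 6, 0, 14, 0, 0⟩, ⟨9, 3110, 2, 14, 4, 0, 2, 0, 0⟩], [⟨17, 2200, -26, 10, 8, 0, -14, 0, 0⟩]⟩,
  ⟨[⟨0, -800, 0, 0, -1, 1, 0, 0, 0⟩], [⟨5, 610, 2, 0, 0, 2, 0, 2, 0⟩], [⟨7, 1390, -12, 0, 6, 2, 0, -2, 0⟩, ⟨6, 996, -5, 0, 3, 2, 0, 0, 0⟩]⟩,
  ⟨[⟨0, -165, 0, -1, 1, 0, 0, 0, 0⟩, ⟨0, 180, 0, 1, -1, 0, 0, 0, 0⟩], [⟨9, 2850, 2, 0, 6, 0, 14, 0, 0⟩], [⟨17, 2220, -26, 10, 8, 0, -14, 0, 0⟩]⟩,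
  ⟨[⟨0, -114, 0, -1, 1, 0, 0, 0, 0⟩, ⟨0, 126, 0, 1, -1, 0, 0, 0, 0⟩], [⟨10, 3360, 2, 0, 7, 0, 20, 0, 0⟩], [⟨20, 1410, -30, 10, 11, 0, -20, 0, 0⟩]⟩,
  ⟨[⟨0, -165, 0, -1, 1, 0, 0, 0, 0⟩, ⟨0, 180, 0, 1, -1, 0, 0, 0, 0⟩], [⟨23, 7210, 2, 0, 20, 0, 46, 0, 0⟩], [⟨47, 4110, -70, 24, 24, 0, -46, 0, 0⟩]⟩]

def wg180 : List Wn := [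
  ⟨[], [⟨5, 2920, 2, 0, 2, 0, 6, 0, 0⟩, ⟨5, 2080, 2, 6, 0, 0, 2, 0, 0⟩], [⟨9, 910, -14, 6, 4, 0, -6, 0, 0⟩]⟩,
  ⟨[⟨0, -450, 0, -1, 1, 0, 0, 0, 0⟩], [⟨6, 1190, 2, 1, 2, 0, 8, 0, 0⟩, ⟨8, 1147, -7, 4, 3, 0, 0, 0, 0⟩], [⟨10, 1090, -16, 7, 4, 0, -8, 0, 0⟩]⟩,
  ⟨[⟨0, -1050, 0, -1, 1, 0, 0, 0, 0⟩], [⟨7, 1270, 2, 0, 4, 0, 12, 0, 0⟩, ⟨10, 1409, -9, 4, 5, 0, 0, 0, 0⟩], [⟨13, 1540, -20, 8, 6, 0, -12, 0, 0⟩]⟩,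
  ⟨[⟨0, -101, 0, -1, 1, 0, 0, 0, 0⟩, ⟨0, 103, 0, 1, -1, 0, 0, 0, 0⟩], [⟨13, 4400, 2, 0, 10, 0, 22, 0, 0⟩], [⟨25, 2020, -38, 14, 12, 0, -22, 0, 0⟩]⟩,
  ⟨[⟨0, -600, 0, -1, 1, 0, 0, 0, 0⟩], [⟨4, 730, 2, 0, 1, 0, 8, 0, 0⟩, ⟨6, 781, -5, 2, 3, 0, 0, 0, 0⟩], [⟨8, 830, -12, 4, 5, 0, -8, 0, 0⟩]⟩,
  ⟨[⟨0, -600, 0, 0, -1, 1, 0, 0, 0⟩], [⟨27, 8270, 2, 0, 0, 24, 0, 50, 0⟩], [⟨53, 4410, -80, 0, 28, 26, 0, -50, 0⟩, ⟨40, 6310, -39, 0, 14, 25, 0, 0, 0⟩]⟩,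
  ⟨[⟨0, -220, 0, -1, 1, 0, 0, 0, 0⟩, ⟨0, 245, 0, 1, -1, 0, 0, 0, 0⟩], [⟨26, 8100, 2, 0, 23, 0, 52, 0, 0⟩], [⟨52, 4320, -78, 26, 27, 0, -52, 0, 0⟩]⟩,
  ⟨[⟨0, -101, 0, -1, 1, 0, 0, 0, 0⟩, ⟨0, 103, 0, 1, -1, 0, 0, 0, 0⟩], [⟨6, 1440, 2, 0, 3, 0, 8, 0, 0⟩], [⟨10, 1050, -16, 6, 5, 0, -8, 0, 0⟩, ⟨8, 1237, -7, 3, 4, 0, 0, 0, 0⟩]⟩,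
  ⟨[⟨0, -200, 0, 0, -1, 1, 0, 0, 0⟩], [⟨9, 2150, 2, 0, 0, 6, 0, 18, 0⟩, ⟨14, 2150, -13, 0, 5, 8, 0, 0, 0⟩], [⟨19, 2140, -28, 0, 10, 10, 0, -18, 0⟩]⟩,
  ⟨[⟨0, -1200, 0, -1, 1, 0, 0, 0, 0⟩], [⟨9, 1970, 2, 0, 6, 0, 18, 0, 0⟩], [⟨19, 2140, -28, 10, 10, 0, -18, 0, 0⟩, ⟨14, 2049, -13, 5, 8, 0, 0, 0, 0⟩]⟩,
  ⟨[⟨0, -159, 0, 0, -1, 1, 0, 0, 0⟩], [⟨17, 7060, 2, 0, 0, 14, 0, 32, 0⟩, ⟨17, 6180, 2, 0, 32, 12, 0, 2, 0⟩, ⟨25, 5250, -24, 0, 24, 0, 0, 0, 0⟩], [⟨33, 2520, -50, 0, 16, 18, 0, -32, 0⟩]⟩,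
  ⟨[⟨0, -93, 0, 0, -1, 1, 0, 0, 0⟩], [⟨13, 2770, 2, 0, 0, 10, 0, 2, 0⟩, ⟨13, 2410, 2, 0, 12, -2, 0, 2, 0⟩], [⟨15, 2580, -28, 0, 14, 2, 0, -2, 0⟩, ⟨14, 2480, -13, 0, 7, 6, 0, 0, 0⟩]⟩,
  ⟨[⟨0, -138, 0, -1, 1, 0, 0, 0, 0⟩, ⟨0, 150, 0, 1, -1, 0, 0, 0, 0⟩], [⟨5, 810, 2, 0, 2, 0, 4, 0, 0⟩], [⟨7, 1230, -12, 4, 4, 0, -4, 0, 0⟩, ⟨6, 1010, -5, 2, 3, 0, 0, 0, 0⟩]⟩,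
  ⟨[⟨0, -150, 0, 0, -1, 1, 0, 0, 0⟩, ⟨0, 200, 0, 0, 1, -1, 0, 0, 0⟩], [⟨18, 5400, 2, 0, 1, 14, 0, 34, 0⟩, ⟨26, 4138, -25, 0, 10, 15, 0, 0, 0⟩], [⟨34, 2860, -52, 0, 19, 16, 0, -34, 0⟩]⟩,
  ⟨[⟨0, -126, 0, -1, 1, 0, 0, 0, 0⟩, ⟨0, 138, 0, 1, -1, 0, 0, 0, 0⟩], [⟨10, 3150, 2, 0, 7, 0, 16, 0, 0⟩], [⟨18, 1420, -28, 10, 9, 0, -16, 0, 0⟩, ⟨14, 2266, -13, 5, 8, 0, 0, 0, 0⟩]⟩,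
  ⟨[⟨0, -150, 0, 0, -1, 1, 0, 0, 0⟩, ⟨0, 200, 0, 0, 1, -1, 0, 0, 0⟩], [⟨31, 11360, 2, 0, 0, 28, 0, 54, 0⟩], [⟨59, 3810, -90, 0, 32, 28, 0, -54, 0⟩]⟩]

def wg181 : List Wn := [
  ⟨[⟨0, -1350, 0, -1, 1, 0, 0, 0, 0⟩], [⟨11, 3590, 2, 0, 8, 0, 18, 0, 0⟩], [⟨21, 1450, -32, 12, 10, 0, -18, 0, 0⟩, ⟨16, 2512, -15, 6, 9, 0, 0, 0, 0⟩]⟩,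
  ⟨[⟨0, -23, 0, 0, -1, 1, 0, 0, 0⟩, ⟨0, 60, 0, 0, 1, -1, 0, 0, 0⟩], [⟨13, 3770, 2, 0, 24, 10, 0, 2, 0⟩], [⟨27, 2590, -40, 0, 14, 14, 0, -26, 0⟩]⟩,
  ⟨[⟨0, -900, 0, -1, 1, 0, 0, 0, 0⟩], [⟨10, 2910, 2, 0, 7, 0, 16, 0, 0⟩], [⟨18, 1540, -28, 10, 9, 0, -16, 0, 0⟩, ⟨14, 2219, -13, 5, 8, 0, 0, 0, 0⟩]⟩,
  ⟨[⟨0, -1050, 0, -1, 1, 0, 0, 0, 0⟩], [⟨31, 8990, 2, 0, 28, 0, 62, 0, 0⟩], [⟨63, 5570, -94, 32, 32, 0, -62, 0, 0⟩]⟩,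
  ⟨[⟨0, -600, 0, -1, 1, 0, 0, 0, 0⟩], [⟨6, 1330, 2, 1, 2, 0, 12, 0, 0⟩], [⟨12, 1040, -18, 7, 6, 0, -12, 0, 0⟩]⟩,
  ⟨[⟨0, -60, 0, 0, -1, 1, 0, 0, 0⟩, ⟨0, 100, 0, 0, 1, -1, 0, 0, 0⟩], [⟨9, 3190, 2, 0, 16, 6, 0, 2, 0⟩, ⟨14, 2203, -13, 0, 13, 8, 0, -8, 0⟩], [⟨19, 2120, -28, 0, 10, 10, 0, -18, 0⟩]⟩,
  ⟨[⟨0, -93, 0, -1, 1, 0, 0, 0, 0⟩], [⟨9, 3950, 2, 0, 6, 0, 14, 0, 0⟩, ⟨9, 3110, 2, 14, 4, 0, 2, 0, 0⟩], [⟨17, 2180, -26, 10, 8, 0, -14, 0, 0⟩]⟩,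
  ⟨[⟨0, -600, 0, 0, -1, 1, 0, 0, 0⟩], [⟨5, 610, 2, 0, 0, 2, 0, 2, 0⟩], [⟨7, 1390, -12, 0, 6, 2, 0, -2, 0⟩, ⟨6, 994, -5, 0, 3, 2, 0, 0, 0⟩]⟩,
  ⟨[⟨0, -105, 0, -1, 1, 0, 0, 0, 0⟩, ⟨0, 108, 0, 1, -1, 0, 0, 0, 0⟩], [⟨23, 7570, 2, 0, 20, 0, 46, 0, 0⟩], [⟨47, 4110, -70, 24, 24, 0, -46, 0, 0⟩]⟩,
  ⟨[⟨0, -301, 0, -1, 1, 0, 0, 0, 0⟩], [⟨59, 26560, 2, 0, 56, 0, 110, 0, 0⟩, ⟨59, 25530, 2, 112, 52, 0, 2, 0, 0⟩], [⟨115, 6280, -174, 60, 56, 0, -110, 0, 0⟩]⟩,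
  ⟨[⟨0, -114, 0, -1, 1, 0, 0, 0, 0⟩, ⟨0, 126, 0, 1, -1, 0, 0, 0, 0⟩], [⟨10, 3170, 2, 0, 7, 0, 20, 0, 0⟩], [⟨20, 740, -30, 10, 11, 0, -20, 0, 0⟩]⟩,
  ⟨[⟨0, -300, 0, -1, 1, 0, 0, 0, 0⟩], [⟨6, 1240, 2, 1, 2, 0, 8, 0, 0⟩, ⟨8, 1172, -7, 4, 3, 0, 0, 0, 0⟩], [⟨10, 1070, -16, 7, 4, 0, -8, 0, 0⟩]⟩,
  ⟨[⟨0, -23, 0, 0, -1, 1, 0, 0, 0⟩, ⟨0, 60, 0, 0, 1, -1, 0, 0, 0⟩], [⟨9, 3650, 2, 0, 12, 2, 0, 2, 0⟩, ⟨12, 1764, -11, 0, 11, 4, 0, -4, 0⟩], [⟨15, 840, -24, 0, 10, 6, 0, -10, 0⟩]⟩,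
  ⟨[⟨0, -900, 0, -1, 1, 0, 0, 0, 0⟩], [⟨7, 1270, 2, 0, 4, 0, 12, 0, 0⟩, ⟨10, 1410, -9, 4, 5, 0, 0, 0, 0⟩], [⟨13, 1540, -20, 8, 6, 0, -12, 0, 0⟩]⟩,
  ⟨[], [⟨11, 3810, 2, 0, 8, 0, 22, 0, 0⟩, ⟨11, 3180, 2, 20, 8, 0, 2, 0, 0⟩], [⟨23, 2730, -34, 12, 12, 0, -22, 0, 0⟩]⟩,
  ⟨[], [⟨17, 7460, 2, 0, 14, 0, 30, 0, 0⟩, ⟨17, 6620, 2, 30, 12, 0, 2, 0, 0⟩], [⟨33, 2150, -50, 18, 16, 0, -30, 0, 0⟩]⟩]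

def wg182 : List Wn := [
  ⟨[⟨0, -450, 0, -1, 1, 0, 0, 0, 0⟩], [⟨4, 730, 2, 0, 1, 0, 8, 0, 0⟩, ⟨6, 784, -5, 2, 3, 0, 0, 0, 0⟩], [⟨8, 830, -12, 4, 5, 0, -8, 0, 0⟩]⟩,
  ⟨[⟨0, -597, 0, -1, 1, 0, 0, 0, 0⟩], [⟨15, 6200, 2, 0, 12, 0, 24, 0, 0⟩, ⟨15, 5110, 2, 26, 8, 0, 2, 0, 0⟩, ⟨21, 3730, -20, 20, 0, 0, 0, 0, 0⟩], [⟨27, 2240, -42, 14, 14, 0, -24, 0, 0⟩]⟩,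
  ⟨[⟨0, -675, 0, -1, 1, 0, 0, 0, 0⟩, ⟨0, 750, 0, 1, -1, 0, 0, 0, 0⟩], [⟨26, 8250, 2, 1, 22, 0, 48, 0, 0⟩, ⟨38, 5925, -37, 14, 23, 0, 0, 0, 0⟩], [⟨50, 3580, -76, 27, 24, 0, -48, 0, 0⟩]⟩,
  ⟨[⟨0, -1050, 0, -1, 1, 0, 0, 0, 0⟩], [⟨9, 1970, 2, 0, 6, 0, 18, 0, 0⟩], [⟨19, 2140, -28, 10, 10, 0, -18, 0, 0⟩, ⟨14, 2049, -13, 5, 8, 0, 0, 0, 0⟩]⟩,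
  ⟨[⟨0, -1350, 0, -1, 1, 0, 0, 0, 0⟩], [⟨21, 5480, 2, 1, 17, 0, 42, 0, 0⟩], [⟨41, 3810, -62, 21, 21, 0, -42, 0, 0⟩]⟩,
  ⟨[⟨0, -200, 0, 0, -1, 1, 0, 0, 0⟩], [⟨9, 2980, 2, 0, 0, 6, 0, 10, 0⟩, ⟨12, 2080, -11, 0, 5, 6, 0, 0, 0⟩], [⟨15, 1070, -24, 0, 10, 6, 0, -10, 0⟩]⟩,
  ⟨[⟨0, -103, 0, -1, 1, 0, 0, 0, 0⟩, ⟨0, 105, 0, 1, -1, 0, 0, 0, 0⟩], [⟨9, 2060, 2, 0, 6, 0, 18, 0, 0⟩, ⟨14, 2105, -13, 5, 8, 0, 0, 0, 0⟩], [⟨19, 2140, -28, 10, 10, 0, -18, 0, 0⟩]⟩,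
  ⟨[], [⟨27, 12310, 2, 0, 24, 0, 46, 0, 0⟩, ⟨27, 9350, 2, 20, 48, 0, 2, 0, 0⟩], [⟨51, 2560, -78, 28, 24, 0, -46, 0, 0⟩]⟩,
  ⟨[⟨0, -100, 0, 0, -1, 1, 0, 0, 0⟩, ⟨0, 150, 0, 0, 1, -1, 0, 0, 0⟩], [⟨11, 4000, 2, 0, 0, 8, 0, 18, 0⟩], [⟨21, 1330, -32, 0, 12, 10, 0, -18, 0⟩, ⟨16, 2443, -15, 0, 6, 9, 0, 0, 0⟩]⟩,
  ⟨[⟨0, -150, 0, -1, 1, 0, 0, 0, 0⟩, ⟨0, 165, 0, 1, -1, 0, 0, 0, 0⟩], [⟨10, 3230, 2, 0, 7, 0, 20, 0, 0⟩], [⟨20, 1410, -30, 10, 11, 0, -20, 0, 0⟩]⟩,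
  ⟨[⟨0, -1200, 0, -1, 1, 0, 0, 0, 0⟩], [⟨11, 3590, 2, 0, 8, 0, 18, 0, 0⟩], [⟨21, 1450, -32, 12, 10, 0, -18, 0, 0⟩, ⟨16, 2512, -15, 6, 9, 0, 0, 0, 0⟩]⟩,
  ⟨[⟨0, -23, 0, 0, -1, 1, 0, 0, 0⟩, ⟨0, 60, 0, 0, 1, -1, 0, 0, 0⟩], [⟨14, 4360, 2, 0, 26, 11, 0, 2, 0⟩], [⟨28, 2270, -42, 0, 14, 15, 0, -28, 0⟩]⟩,
  ⟨[⟨0, -99, 0, -1, 1, 0, 0, 0, 0⟩, ⟨0, 101, 0, 1, -1, 0, 0, 0, 0⟩], [⟨7, 2080, 2, 0, 4, 0, 10, 0, 0⟩], [⟨13, 1100, -20, 8, 6, 0, -10, 0, 0⟩, ⟨10, 1573, -9, 4, 5, 0, 0, 0, 0⟩]⟩,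
  ⟨[⟨0, -27, 0, -1, 1, 0, 0, 0, 0⟩, ⟨0, 38, 0, 1, -1, 0, 0, 0, 0⟩], [⟨27, 8380, 2, 52, 24, 0, 2, 0, 0⟩], [⟨55, 4760, -82, 28, 28, 0, -54, 0, 0⟩]⟩,
  ⟨[], [⟨11, 3720, 2, 0, 16, 0, 6, 0, 0⟩, ⟨11, 4750, 2, 16, 4, 0, 2, 0, 0⟩], [⟨19, 70, -30, 12, 8, 0, -14, 0, 0⟩]⟩,
  ⟨[⟨0, -92, 0, -1, 1, 0, 0, 0, 0⟩, ⟨0, 99, 0, 1, -1, 0, 0, 0, 0⟩], [⟨15, 4800, 2, 0, 12, 0, 28, 0, 0⟩], [⟨29, 2780, -44, 14, 16, 0, -28, 0, 0⟩, ⟨22, 3700, -21, 7, 14, 0, 0, 0, 0⟩]⟩]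

def wg183 : List Wn := [
  ⟨[⟨0, -900, 0, -1, 1, 0, 0, 0, 0⟩], [⟨31, 9000, 2, 0, 28, 0, 62, 0, 0⟩], [⟨63, 5570, -94, 32, 32, 0, -62, 0, 0⟩]⟩,
  ⟨[⟨0, -450, 0, -1, 1, 0, 0, 0, 0⟩], [⟨6, 1350, 2, 1, 2, 0, 12, 0, 0⟩], [⟨12, 1040, -18, 7, 6, 0, -12, 0, 0⟩]⟩,
  ⟨[⟨0, -1350, 0, -1, 1, 0, 0, 0, 0⟩], [⟨17, 5430, 2, 0, 14, 0, 32, 0, 0⟩], [⟨33, 2350, -50, 16, 18, 0, -32, 0, 0⟩]⟩,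
  ⟨[], [⟨9, 3950, 2, 0, 6, 0, 14, 0, 0⟩, ⟨9, 3110, 2, 14, 4, 0, 2, 0, 0⟩], [⟨17, 2100, -26, 10, 8, 0, -14, 0, 0⟩]⟩,
  ⟨[⟨0, -500, 0, 0, -1, 1, 0, 0, 0⟩], [⟨5, 620, 2, 0, 0, 2, 0, 2, 0⟩], [⟨7, 1380, -12, 0, 6, 2, 0, -2, 0⟩, ⟨6, 992, -5, 0, 3, 2, 0, 0, 0⟩]⟩,
  ⟨[⟨0, -133, 0, -1, 1, 0, 0, 0, 0⟩], [⟨7, 2250, 2, 0, 4, 0, 4, 0, 0⟩, ⟨7, 950, 2, 8, -2, 0, 2, 0, 0⟩], [⟨9, 1490, -16, 6, 4, 0, -4, 0, 0⟩, ⟨8, 1400, -7, 3, 4, 0, 0, 0, 0⟩]⟩,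
  ⟨[⟨0, -1050, 0, -1, 1, 0, 0, 0, 0⟩], [⟨11, 2710, 2, 0, 8, 0, 10, 0, 0⟩, ⟨14, 2433, -13, 6, 7, 0, 0, 0, 0⟩], [⟨17, 2140, -28, 12, 6, 0, -10, 0, 0⟩]⟩,
  ⟨[⟨0, -165, 0, -1, 1, 0, 0, 0, 0⟩, ⟨0, 180, 0, 1, -1, 0, 0, 0, 0⟩], [⟨10, 3100, 2, 0, 7, 0, 16, 0, 0⟩], [⟨18, 1440, -28, 10, 9, 0, -16, 0, 0⟩, ⟨14, 2254, -13, 5, 8, 0, 0, 0, 0⟩]⟩,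
  ⟨[⟨0, -201, 0, -1, 1, 0, 0, 0, 0⟩], [⟨59, 26560, 2, 0, 56, 0, 110, 0, 0⟩, ⟨59, 25530, 2, 112, 52, 0, 2, 0, 0⟩], [⟨115, 6230, -174, 60, 56, 0, -110, 0, 0⟩]⟩,
  ⟨[⟨0, -114, 0, -1, 1, 0, 0, 0, 0⟩, ⟨0, 126, 0, 1, -1, 0, 0, 0, 0⟩], [⟨10, 4020, 2, 0, 7, 0, 20, 0, 0⟩], [⟨20, 1590, -30, 10, 11, 0, -20, 0, 0⟩]⟩,
  ⟨[⟨0, -150, 0, 0, -1, 1, 0, 0, 0⟩, ⟨0, 200, 0, 0, 1, -1, 0, 0, 0⟩], [⟨5, 750, 2, 0, 0, 2, 0, 10, 0⟩, ⟨8, 1182, -7, 0, 3, 4, 0, 0, 0⟩], [⟨11, 1610, -16, 0, 6, 6, 0, -10, 0⟩]⟩,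
  ⟨[⟨0, -750, 0, -1, 1, 0, 0, 0, 0⟩], [⟨7, 1280, 2, 0, 4, 0, 12, 0, 0⟩, ⟨10, 1411, -9, 4, 5, 0, 0, 0, 0⟩], [⟨13, 1540, -20, 8, 6, 0, -12, 0, 0⟩]⟩,
  ⟨[⟨0, -300, 0, -1, 1, 0, 0, 0, 0⟩], [⟨4, 750, 2, 0, 1, 0, 8, 0, 0⟩, ⟨6, 792, -5, 2, 3, 0, 0, 0, 0⟩], [⟨8, 830, -12, 4, 5, 0, -8, 0, 0⟩]⟩,
  ⟨[⟨0, -400, 0, 0, -1, 1, 0, 0, 0⟩, ⟨0, 500, 0, 0, 1, -1, 0, 0, 0⟩], [⟨15, 4110, 2, 0, 0, 12, 0, 28, 0⟩], [⟨29, 2780, -44, 0, 14, 16, 0, -28, 0⟩, ⟨22, 3420, -21, 0, 7, 14, 0, 0, 0⟩]⟩,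
  ⟨[⟨0, -38, 0, -1, 1, 0, 0, 0, 0⟩, ⟨0, 50, 0, 1, -1, 0, 0, 0, 0⟩], [⟨6, 2240, 2, 10, 3, 0, 2, 0, 0⟩], [⟨12, 1220, -18, 6, 7, 0, -12, 0, 0⟩]⟩,
  ⟨[⟨0, -180, 0, -1, 1, 0, 0, 0, 0⟩, ⟨0, 200, 0, 1, -1, 0, 0, 0, 0⟩], [⟨17, 5910, 2, 0, 14, 0, 30, 0, 0⟩], [⟨33, 2280, -50, 18, 16, 0, -30, 0, 0⟩]⟩]

def wg184 : List Wn := [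
  ⟨[⟨0, -114, 0, -1, 1, 0, 0, 0, 0⟩, ⟨0, 126, 0, 1, -1, 0, 0, 0, 0⟩], [⟨7, 1700, 2, 0, 4, 0, 12, 0, 0⟩], [⟨13, 1540, -20, 6, 8, 0, -12, 0, 0⟩, ⟨10, 1598, -9, 3, 6, 0, 0, 0, 0⟩]⟩,
  ⟨[⟨0, -159, 0, 0, -1, 1, 0, 0, 0⟩], [⟨63, 27090, 2, 0, 0, 60, 0, 118, 0⟩, ⟨63, 26070, 2, 0, 120, 56, 0, 2, 0⟩], [⟨123, 7860, -186, 0, 64, 60, 0, -118, 0⟩]⟩,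
  ⟨[⟨0, -900, 0, -1, 1, 0, 0, 0, 0⟩], [⟨9, 1970, 2, 0, 6, 0, 18, 0, 0⟩], [⟨19, 2140, -28, 10, 10, 0, -18, 0, 0⟩, ⟨14, 2049, -13, 5, 8, 0, 0, 0, 0⟩]⟩,
  ⟨[⟨0, -114, 0, -1, 1, 0, 0, 0, 0⟩, ⟨0, 126, 0, 1, -1, 0, 0, 0, 0⟩], [⟨35, 11470, 2, 0, 32, 0, 70, 0, 0⟩], [⟨71, 6210, -106, 36, 36, 0, -70, 0, 0⟩]⟩,
  ⟨[⟨0, -150, 0, 0, -1, 1, 0, 0, 0⟩, ⟨0, 200, 0, 0, 1, -1, 0, 0, 0⟩], [⟨18, 5300, 2, 0, 1, 14, 0, 36, 0⟩], [⟨36, 3250, -54, 0, 19, 18, 0, -36, 0⟩]⟩,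
  ⟨[⟨0, -220, 0, -1, 1, 0, 0, 0, 0⟩, ⟨0, 245, 0, 1, -1, 0, 0, 0, 0⟩], [⟨9, 2120, 2, 0, 6, 0, 14, 0, 0⟩], [⟨17, 2060, -26, 10, 8, 0, -14, 0, 0⟩]⟩,
  ⟨[⟨0, -150, 0, 0, -1, 1, 0, 0, 0⟩, ⟨0, 200, 0, 0, 1, -1, 0, 0, 0⟩], [⟨23, 8180, 2, 0, 0, 20, 0, 42, 0⟩], [⟨45, 3090, -68, 0, 24, 22, 0, -42, 0⟩, ⟨34, 5532, -33, 0, 12, 21, 0, 0, 0⟩]⟩,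
  ⟨[⟨0, -1050, 0, -1, 1, 0, 0, 0, 0⟩], [⟨11, 3590, 2, 0, 8, 0, 18, 0, 0⟩], [⟨21, 1450, -32, 12, 10, 0, -18, 0, 0⟩, ⟨16, 2512, -15, 6, 9, 0, 0, 0, 0⟩]⟩,
  ⟨[⟨0, -600, 0, -1, 1, 0, 0, 0, 0⟩], [⟨10, 2920, 2, 0, 7, 0, 16, 0, 0⟩], [⟨18, 1530, -28, 10, 9, 0, -16, 0, 0⟩, ⟨14, 2216, -13, 5, 8, 0, 0, 0, 0⟩]⟩,
  ⟨[⟨0, 10, 0, 1, -1, 0, 0, 0, 0⟩], [⟨31, 9150, 2, 60, 28, 0, 2, 0, 0⟩], [⟨63, 5570, -94, 32, 32, 0, -62, 0, 0⟩]⟩,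
  ⟨[⟨0, -750, 0, -1, 1, 0, 0, 0, 0⟩], [⟨31, 9010, 2, 0, 28, 0, 62, 0, 0⟩], [⟨63, 5570, -94, 32, 32, 0, -62, 0, 0⟩]⟩,
  ⟨[⟨0, -300, 0, -1, 1, 0, 0, 0, 0⟩], [⟨6, 1390, 2, 1, 2, 0, 12, 0, 0⟩], [⟨12, 1040, -18, 7, 6, 0, -12, 0, 0⟩]⟩,
  ⟨[⟨0, -27, 0, -1, 1, 0, 0, 0, 0⟩, ⟨0, 38, 0, 1, -1, 0, 0, 0, 0⟩], [⟨4, 1630, 2, 6, 1, 0, 2, 0, 0⟩], [⟨8, 820, -12, 4, 5, 0, -8, 0, 0⟩]⟩,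
  ⟨[⟨0, -180, 0, -1, 1, 0, 0, 0, 0⟩, ⟨0, 200, 0, 1, -1, 0, 0, 0, 0⟩], [⟨5, 780, 2, 0, 2, 0, 4, 0, 0⟩], [⟨7, 1260, -12, 4, 4, 0, -4, 0, 0⟩, ⟨6, 1015, -5, 2, 3, 0, 0, 0, 0⟩]⟩,
  ⟨[⟨0, -900, 0, -1, 1, 0, 0, 0, 0⟩], [⟨11, 2710, 2, 0, 8, 0, 10, 0, 0⟩, ⟨14, 2433, -13, 6, 7, 0, 0, 0, 0⟩], [⟨17, 2140, -28, 12, 6, 0, -10, 0, 0⟩]⟩,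
  ⟨[⟨0, -200, 0, 0, -1, 1, 0, 0, 0⟩], [⟨6, 1340, 2, 0, 1, 2, 0, 8, 0⟩, ⟨8, 1220, -7, 0, 4, 3, 0, 0, 0⟩], [⟨10, 1050, -16, 0, 7, 4, 0, -8, 0⟩]⟩]

def wg185 : List Wn := [
  ⟨[⟨0, -200, 0, -1, 1, 0, 0, 0, 0⟩, ⟨0, 220, 0, 1, -1, 0, 0, 0, 0⟩], [⟨9, 2150, 2, 0, 6, 0, 18, 0, 0⟩, ⟨14, 2150, -13, 5, 8, 0, 0, 0, 0⟩], [⟨19, 2140, -28, 10, 10, 0, -18, 0, 0⟩]⟩,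
  ⟨[⟨0, -600, 0, -1, 1, 0, 0, 0, 0⟩], [⟨7, 1280, 2, 0, 4, 0, 12, 0, 0⟩, ⟨10, 1414, -9, 4, 5, 0, 0, 0, 0⟩], [⟨13, 1540, -20, 8, 6, 0, -12, 0, 0⟩]⟩,
  ⟨[⟨0, -420, 0, -1, 1, 0, 0, 0, 0⟩, ⟨0, 470, 0, 1, -1, 0, 0, 0, 0⟩], [⟨3, 10, 2, 0, 0, 0, 2, 0, 0⟩, ⟨4, 599, -3, 2, 1, 0, 0, 0, 0⟩], [⟨5, 1180, -8, 4, 2, 0, -2, 0, 0⟩]⟩,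
  ⟨[], [⟨11, 4480, 2, 0, 8, 0, 22, 0, 0⟩, ⟨11, 3840, 2, 20, 8, 0, 2, 0, 0⟩], [⟨23, 2920, -34, 12, 12, 0, -22, 0, 0⟩]⟩,
  ⟨[⟨0, -400, 0, 0, -1, 1, 0, 0, 0⟩], [⟨19, 6570, 2, 0, 0, 16, 0, 30, 0⟩], [⟨35, 2290, -54, 0, 20, 16, 0, -30, 0⟩]⟩,
  ⟨[⟨0, -200, 0, -1, 1, 0, 0, 0, 0⟩, ⟨0, 220, 0, 1, -1, 0, 0, 0, 0⟩], [⟨38, 12680, 2, 0, 35, 0, 76, 0, 0⟩], [⟨76, 5730, -114, 38, 39, 0, -76, 0, 0⟩]⟩,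
  ⟨[⟨0, -1350, 0, -1, 1, 0, 0, 0, 0⟩], [⟨4, 720, 2, 0, 1, 0, 8, 0, 0⟩], [⟨8, 830, -12, 4, 5, 0, -8, 0, 0⟩, ⟨6, 774, -5, 2, 3, 0, 0, 0, 0⟩]⟩,
  ⟨[⟨0, -675, 0, -1, 1, 0, 0, 0, 0⟩, ⟨0, 750, 0, 1, -1, 0, 0, 0, 0⟩], [⟨11, 3590, 2, 0, 8, 0, 18, 0, 0⟩], [⟨21, 1450, -32, 12, 10, 0, -18, 0, 0⟩, ⟨16, 2513, -15, 6, 9, 0, 0, 0, 0⟩]⟩,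
  ⟨[⟨0, -750, 0, -1, 1, 0, 0, 0, 0⟩], [⟨9, 1970, 2, 0, 6, 0, 18, 0, 0⟩], [⟨19, 2140, -28, 10, 10, 0, -18, 0, 0⟩, ⟨14, 2049, -13, 5, 8, 0, 0, 0, 0⟩]⟩,
  ⟨[], [⟨9, 2630, 2, 0, 0, 6, 0, 14, 0⟩, ⟨9, 2430, 2, 0, 14, 4, 0, 2, 0⟩], [⟨17, 1250, -26, 0, 10, 8, 0, -14, 0⟩]⟩,
  ⟨[⟨0, -220, 0, -1, 1, 0, 0, 0, 0⟩, ⟨0, 245, 0, 1, -1, 0, 0, 0, 0⟩], [⟨9, 1930, 2, 0, 6, 0, 14, 0, 0⟩], [⟨17, 1390, -26, 10, 8, 0, -14, 0, 0⟩]⟩,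
  ⟨[⟨0, -150, 0, -1, 1, 0, 0, 0, 0⟩, ⟨0, 165, 0, 1, -1, 0, 0, 0, 0⟩], [⟨10, 3900, 2, 0, 7, 0, 20, 0, 0⟩], [⟨20, 1590, -30, 10, 11, 0, -20, 0, 0⟩]⟩,
  ⟨[⟨0, -900, 0, -1, 1, 0, 0, 0, 0⟩], [⟨11, 3590, 2, 0, 8, 0, 18, 0, 0⟩], [⟨21, 1450, -32, 12, 10, 0, -18, 0, 0⟩, ⟨16, 2511, -15, 6, 9, 0, 0, 0, 0⟩]⟩,
  ⟨[⟨0, -1350, 0, -1, 1, 0, 0, 0, 0⟩], [⟨18, 4970, 2, 0, 15, 0, 36, 0, 0⟩], [⟨36, 3250, -54, 18, 19, 0, -36, 0, 0⟩]⟩,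
  ⟨[⟨0, -126, 0, -1, 1, 0, 0, 0, 0⟩, ⟨0, 138, 0, 1, -1, 0, 0, 0, 0⟩], [⟨29, 10370, 2, 0, 26, 0, 54, 0, 0⟩], [⟨57, 4040, -86, 30, 28, 0, -54, 0, 0⟩]⟩,
  ⟨[⟨0, -1350, 0, -1, 1, 0, 0, 0, 0⟩], [⟨21, 5950, 2, 0, 18, 0, 38, 0, 0⟩], [⟨41, 3850, -62, 22, 20, 0, -38, 0, 0⟩]⟩]

def wg186 : List Wn := [
  ⟨[⟨0, -600, 0, 0, -1, 1, 0, 0, 0⟩], [⟨31, 9030, 2, 0, 0, 28, 0, 62, 0⟩], [⟨63, 5570, -94, 0, 32, 32, 0, -62, 0⟩]⟩,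
  ⟨[⟨0, -600, 0, -1, 1, 0, 0, 0, 0⟩], [⟨31, 9030, 2, 0, 28, 0, 62, 0, 0⟩], [⟨63, 5570, -94, 32, 32, 0, -62, 0, 0⟩]⟩,
  ⟨[⟨0, -150, 0, -1, 1, 0, 0, 0, 0⟩, ⟨0, 165, 0, 1, -1, 0, 0, 0, 0⟩], [⟨7, 1630, 2, 0, 4, 0, 12, 0, 0⟩], [⟨13, 1540, -20, 6, 8, 0, -12, 0, 0⟩, ⟨10, 1571, -9, 3, 6, 0, 0, 0, 0⟩]⟩,
  ⟨[⟨0, -100, 0, 0, -1, 1, 0, 0, 0⟩, ⟨0, 150, 0, 0, 1, -1, 0, 0, 0⟩], [⟨23, 9220, 2, 0, 0, 20, 0, 38, 0⟩], [⟨43, 2160, -66, 0, 24, 20, 0, -38, 0⟩]⟩,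
  ⟨[⟨0, -150, 0, -1, 1, 0, 0, 0, 0⟩, ⟨0, 165, 0, 1, -1, 0, 0, 0, 0⟩], [⟨35, 11200, 2, 0, 32, 0, 70, 0, 0⟩], [⟨71, 6210, -106, 36, 36, 0, -70, 0, 0⟩]⟩,
  ⟨[⟨0, -600, 0, 0, -1, 1, 0, 0, 0⟩], [⟨39, 14560, 2, 0, 0, 36, 0, 70, 0⟩], [⟨75, 3820, -114, 0, 40, 36, 0, -70, 0⟩]⟩,
  ⟨[⟨0, -500, 0, 0, -1, 1, 0, 0, 0⟩], [⟨27, 10100, 2, 0, 0, 24, 0, 42, 0⟩, ⟨38, 6333, -37, 0, 14, 23, 0, 0, 0⟩], [⟨49, 2520, -76, 0, 28, 22, 0, -42, 0⟩]⟩,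
  ⟨[⟨0, -200, 0, -1, 1, 0, 0, 0, 0⟩, ⟨0, 220, 0, 1, -1, 0, 0, 0, 0⟩], [⟨9, 2150, 2, 0, 6, 0, 18, 0, 0⟩], [⟨19, 2140, -28, 10, 10, 0, -18, 0, 0⟩, ⟨14, 2128, -13, 5, 8, 0, 0, 0, 0⟩]⟩,
  ⟨[⟨0, -450, 0, -1, 1, 0, 0, 0, 0⟩], [⟨7, 1300, 2, 0, 4, 0, 12, 0, 0⟩, ⟨10, 1424, -9, 4, 5, 0, 0, 0, 0⟩], [⟨13, 1540, -20, 8, 6, 0, -12, 0, 0⟩]⟩,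
  ⟨[⟨0, -300, 0, 0, -1, 1, 0, 0, 0⟩], [⟨19, 6650, 2, 0, 0, 16, 0, 30, 0⟩], [⟨35, 2260, -54, 0, 20, 16, 0, -30, 0⟩]⟩,
  ⟨[⟨0, -100, 0, 0, -1, 1, 0, 0, 0⟩, ⟨0, 150, 0, 0, 1, -1, 0, 0, 0⟩], [⟨38, 13840, 2, 0, 0, 35, 0, 76, 0⟩], [⟨76, 5730, -114, 0, 38, 39, 0, -76, 0⟩]⟩,
  ⟨[⟨0, -1200, 0, -1, 1, 0, 0, 0, 0⟩], [⟨4, 720, 2, 0, 1, 0, 8, 0, 0⟩], [⟨8, 830, -12, 4, 5, 0, -8, 0, 0⟩, ⟨6, 774, -5, 2, 3, 0, 0, 0, 0⟩]⟩,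
  ⟨[⟨0, -200, 0, 0, -1, 1, 0, 0, 0⟩], [⟨27, 8740, 2, 0, 0, 24, 0, 50, 0⟩], [⟨53, 4350, -80, 0, 28, 26, 0, -50, 0⟩, ⟨40, 6280, -39, 0, 14, 25, 0, 0, 0⟩]⟩,
  ⟨[⟨0, -220, 0, -1, 1, 0, 0, 0, 0⟩, ⟨0, 245, 0, 1, -1, 0, 0, 0, 0⟩], [⟨26, 7960, 2, 1, 22, 0, 52, 0, 0⟩], [⟨52, 4320, -78, 27, 26, 0, -52, 0, 0⟩]⟩,
  ⟨[⟨0, -38, 0, -1, 1, 0, 0, 0, 0⟩, ⟨0, 50, 0, 1, -1, 0, 0, 0, 0⟩], [⟨19, 6160, 2, 34, 14, 0, 2, 0, 0⟩], [⟨37, 2760, -56, 20, 18, 0, -34, 0, 0⟩]⟩,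
  ⟨[⟨0, -100, 0, 0, -1, 1, 0, 0, 0⟩, ⟨0, 150, 0, 0, 1, -1, 0, 0, 0⟩], [⟨43, 16490, 2, 0, 0, 40, 0, 78, 0⟩], [⟨83, 5210, -126, 0, 44, 40, 0, -78, 0⟩]⟩]

def wg187 : List Wn := [
  ⟨[⟨0, -600, 0, -1, 1, 0, 0, 0, 0⟩], [⟨9, 1980, 2, 0, 6, 0, 18, 0, 0⟩], [⟨19, 2140, -28, 10, 10, 0, -18, 0, 0⟩, ⟨14, 2049, -13, 5, 8, 0, 0, 0, 0⟩]⟩,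
  ⟨[⟨0, -1350, 0, -1, 1, 0, 0, 0, 0⟩], [⟨7, 1470, 2, 0, 4, 0, 12, 0, 0⟩], [⟨13, 1540, -20, 6, 8, 0, -12, 0, 0⟩, ⟨10, 1501, -9, 3, 6, 0, 0, 0, 0⟩]⟩,
  ⟨[⟨0, -103, 0, -1, 1, 0, 0, 0, 0⟩, ⟨0, 105, 0, 1, -1, 0, 0, 0, 0⟩], [⟨10, 3290, 2, 0, 7, 0, 20, 0, 0⟩], [⟨20, 740, -30, 10, 11, 0, -20, 0, 0⟩]⟩,
  ⟨[⟨0, -220, 0, -1, 1, 0, 0, 0, 0⟩, ⟨0, 245, 0, 1, -1, 0, 0, 0, 0⟩], [⟨9, 2780, 2, 0, 6, 0, 14, 0, 0⟩], [⟨17, 2240, -26, 10, 8, 0, -14, 0, 0⟩]⟩,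
  ⟨[⟨0, -220, 0, -1, 1, 0, 0, 0, 0⟩, ⟨0, 245, 0, 1, -1, 0, 0, 0, 0⟩], [⟨23, 7030, 2, 0, 20, 0, 46, 0, 0⟩], [⟨47, 4110, -70, 24, 24, 0, -46, 0, 0⟩]⟩,
  ⟨[⟨0, -750, 0, -1, 1, 0, 0, 0, 0⟩], [⟨11, 3590, 2, 0, 8, 0, 18, 0, 0⟩], [⟨21, 1450, -32, 12, 10, 0, -18, 0, 0⟩, ⟨16, 2511, -15, 6, 9, 0, 0, 0, 0⟩]⟩,
  ⟨[⟨0, -1200, 0, -1, 1, 0, 0, 0, 0⟩], [⟨18, 4970, 2, 0, 15, 0, 36, 0, 0⟩], [⟨36, 3250, -54, 18, 19, 0, -36, 0, 0⟩]⟩,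
  ⟨[⟨0, -300, 0, -1, 1, 0, 0, 0, 0⟩], [⟨10, 2980, 2, 0, 7, 0, 16, 0, 0⟩], [⟨18, 1500, -28, 10, 9, 0, -16, 0, 0⟩, ⟨14, 2198, -13, 5, 8, 0, 0, 0, 0⟩]⟩,
  ⟨[⟨0, -1350, 0, -1, 1, 0, 0, 0, 0⟩], [⟨37, 11680, 2, 0, 34, 0, 72, 0, 0⟩], [⟨73, 5610, -110, 36, 38, 0, -72, 0, 0⟩]⟩,
  ⟨[⟨0, -1200, 0, -1, 1, 0, 0, 0, 0⟩], [⟨21, 5950, 2, 0, 18, 0, 38, 0, 0⟩], [⟨41, 3850, -62, 22, 20, 0, -38, 0, 0⟩]⟩,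
  ⟨[⟨0, -50, 0, -1, 1, 0, 0, 0, 0⟩, ⟨0, 66, 0, 1, -1, 0, 0, 0, 0⟩], [⟨35, 11240, 2, 68, 32, 0, 2, 0, 0⟩], [⟨71, 6210, -106, 36, 36, 0, -70, 0, 0⟩]⟩,
  ⟨[⟨0, -500, 0, 0, -1, 1, 0, 0, 0⟩], [⟨31, 9070, 2, 0, 0, 28, 0, 62, 0⟩], [⟨63, 5570, -94, 0, 32, 32, 0, -62, 0⟩]⟩,
  ⟨[⟨0, -450, 0, -1, 1, 0, 0, 0, 0⟩], [⟨31, 9100, 2, 0, 28, 0, 62, 0, 0⟩], [⟨63, 5570, -94, 32, 32, 0, -62, 0, 0⟩]⟩,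
  ⟨[⟨0, -1200, 0, -1, 1, 0, 0, 0, 0⟩], [⟨6, 1990, 2, 1, 2, 0, 12, 0, 0⟩], [⟨12, 1220, -18, 7, 6, 0, -12, 0, 0⟩]⟩,
  ⟨[⟨0, -900, 0, -1, 1, 0, 0, 0, 0⟩], [⟨17, 5430, 2, 0, 14, 0, 32, 0, 0⟩], [⟨33, 2350, -50, 16, 18, 0, -32, 0, 0⟩]⟩,
  ⟨[⟨0, -92, 0, -1, 1, 0, 0, 0, 0⟩, ⟨0, 99, 0, 1, -1, 0, 0, 0, 0⟩], [⟨21, 7090, 2, 0, 18, 0, 38, 0, 0⟩], [⟨41, 3730, -62, 22, 20, 0, -38, 0, 0⟩]⟩]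

def wg188 : List Wn := [
  ⟨[⟨0, -500, 0, 0, -1, 1, 0, 0, 0⟩], [⟨39, 14600, 2, 0, 0, 36, 0, 70, 0⟩], [⟨75, 3810, -114, 0, 40, 36, 0, -70, 0⟩]⟩,
  ⟨[⟨0, -400, 0, 0, -1, 1, 0, 0, 0⟩], [⟨27, 10160, 2, 0, 0, 24, 0, 42, 0⟩, ⟨38, 6361, -37, 0, 14, 23, 0, 0, 0⟩], [⟨49, 2500, -76, 0, 28, 22, 0, -42, 0⟩]⟩,
  ⟨[⟨0, -200, 0, -1, 1, 0, 0, 0, 0⟩, ⟨0, 220, 0, 1, -1, 0, 0, 0, 0⟩], [⟨10, 3160, 2, 0, 7, 0, 20, 0, 0⟩], [⟨20, 1410, -30, 10, 11, 0, -20, 0, 0⟩]⟩,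
  ⟨[⟨0, -200, 0, 0, -1, 1, 0, 0, 0⟩, ⟨0, 300, 0, 0, 1, -1, 0, 0, 0⟩], [⟨15, 5320, 2, 0, 0, 12, 0, 20, 0⟩], [⟨25, 1580, -40, 0, 14, 12, 0, -20, 0⟩, ⟨20, 3386, -19, 0, 7, 12, 0, 0, 0⟩]⟩,
  ⟨[⟨0, -300, 0, 0, -1, 1, 0, 0, 0⟩, ⟨0, 400, 0, 0, 1, -1, 0, 0, 0⟩], [⟨27, 7940, 2, 0, 0, 24, 0, 52, 0⟩], [⟨53, 4830, -80, 0, 26, 28, 0, -52, 0⟩, ⟨40, 6312, -39, 0, 13, 26, 0, 0, 0⟩]⟩,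
  ⟨[⟨0, -300, 0, -1, 1, 0, 0, 0, 0⟩], [⟨7, 1360, 2, 0, 4, 0, 12, 0, 0⟩, ⟨10, 1452, -9, 4, 5, 0, 0, 0, 0⟩], [⟨13, 1540, -20, 8, 6, 0, -12, 0, 0⟩]⟩,
  ⟨[⟨0, -200, 0, 0, -1, 1, 0, 0, 0⟩], [⟨19, 6820, 2, 0, 0, 16, 0, 30, 0⟩], [⟨35, 2210, -54, 0, 20, 16, 0, -30, 0⟩]⟩,
  ⟨[⟨0, -165, 0, -1, 1, 0, 0, 0, 0⟩, ⟨0, 180, 0, 1, -1, 0, 0, 0, 0⟩], [⟨29, 10150, 2, 0, 26, 0, 54, 0, 0⟩], [⟨57, 4060, -86, 30, 28, 0, -54, 0, 0⟩]⟩,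
  ⟨[⟨0, -108, 0, -1, 1, 0, 0, 0, 0⟩, ⟨0, 114, 0, 1, -1, 0, 0, 0, 0⟩], [⟨18, 5890, 2, 1, 14, 0, 32, 0, 0⟩, ⟨26, 4331, -25, 10, 15, 0, 0, 0, 0⟩], [⟨34, 2760, -52, 19, 16, 0, -32, 0, 0⟩]⟩,
  ⟨[⟨0, -1050, 0, -1, 1, 0, 0, 0, 0⟩], [⟨4, 720, 2, 0, 1, 0, 8, 0, 0⟩], [⟨8, 830, -12, 4, 5, 0, -8, 0, 0⟩, ⟨6, 774, -5, 2, 3, 0, 0, 0, 0⟩]⟩,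
  ⟨[⟨0, -10, 0, -1, 1, 0, 0, 0, 0⟩, ⟨0, 18, 0, 1, -1, 0, 0, 0, 0⟩], [⟨15, 4380, 2, 28, 12, 0, 2, 0, 0⟩], [⟨31, 2710, -46, 16, 16, 0, -30, 0, 0⟩]⟩,
  ⟨[⟨0, -450, 0, -1, 1, 0, 0, 0, 0⟩], [⟨9, 2000, 2, 0, 6, 0, 18, 0, 0⟩], [⟨19, 2140, -28, 10, 10, 0, -18, 0, 0⟩, ⟨14, 2049, -13, 5, 8, 0, 0, 0, 0⟩]⟩,
  ⟨[⟨0, -1350, 0, -1, 1, 0, 0, 0, 0⟩], [⟨21, 5480, 2, 0, 18, 0, 42, 0, 0⟩, ⟨32, 4914, -31, 11, 20, 0, 0, 0, 0⟩], [⟨43, 4330, -64, 22, 22, 0, -42, 0, 0⟩]⟩,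
  ⟨[⟨0, -66, 0, -1, 1, 0, 0, 0, 0⟩, ⟨0, 76, 0, 1, -1, 0, 0, 0, 0⟩], [⟨19, 5780, 2, 36, 16, 0, 2, 0, 0⟩], [⟨39, 3690, -58, 20, 20, 0, -38, 0, 0⟩]⟩,
  ⟨[⟨0, -1200, 0, -1, 1, 0, 0, 0, 0⟩], [⟨7, 1470, 2, 0, 4, 0, 12, 0, 0⟩], [⟨13, 1540, -20, 6, 8, 0, -12, 0, 0⟩, ⟨10, 1501, -9, 3, 6, 0, 0, 0, 0⟩]⟩,
  ⟨[⟨0, -103, 0, -1, 1, 0, 0, 0, 0⟩, ⟨0, 105, 0, 1, -1, 0, 0, 0, 0⟩], [⟨10, 4140, 2, 0, 7, 0, 20, 0, 0⟩], [⟨20, 1590, -30, 10, 11, 0, -20, 0, 0⟩]⟩]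

def wg189 : List Wn := [
  ⟨[⟨0, -1350, 0, -1, 1, 0, 0, 0, 0⟩], [⟨26, 8930, 2, 1, 22, 0, 44, 0, 0⟩], [⟨48, 2840, -74, 27, 22, 0, -44, 0, 0⟩]⟩,
  ⟨[⟨0, -103, 0, -1, 1, 0, 0, 0, 0⟩, ⟨0, 105, 0, 1, -1, 0, 0, 0, 0⟩], [⟨38, 13420, 2, 0, 35, 0, 76, 0, 0⟩], [⟨76, 5730, -114, 38, 39, 0, -76, 0, 0⟩]⟩,
  ⟨[⟨0, -600, 0, -1, 1, 0, 0, 0, 0⟩], [⟨11, 3600, 2, 0, 8, 0, 18, 0, 0⟩], [⟨21, 1450, -32, 12, 10, 0, -18, 0, 0⟩, ⟨16, 2509, -15, 6, 9, 0, 0, 0, 0⟩]⟩,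
  ⟨[⟨0, -1050, 0, -1, 1, 0, 0, 0, 0⟩], [⟨18, 4970, 2, 0, 15, 0, 36, 0, 0⟩], [⟨36, 3250, -54, 18, 19, 0, -36, 0, 0⟩]⟩,
  ⟨[], [⟨9, 3440, 2, 0, 6, 0, 10, 0, 0⟩, ⟨9, 3950, 2, 12, 2, 0, 2, 0, 0⟩, ⟨12, 2320, -11, 5, 6, 0, 0, 0, 0⟩], [⟨15, 800, -24, 10, 6, 0, -10, 0, 0⟩]⟩,
  ⟨[⟨0, -1050, 0, -1, 1, 0, 0, 0, 0⟩], [⟨21, 5950, 2, 0, 18, 0, 38, 0, 0⟩], [⟨41, 3850, -62, 22, 20, 0, -38, 0, 0⟩]⟩,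
  ⟨[⟨0, -400, 0, 0, -1, 1, 0, 0, 0⟩], [⟨31, 9140, 2, 0, 0, 28, 0, 62, 0⟩], [⟨63, 5570, -94, 0, 32, 32, 0, -62, 0⟩]⟩,
  ⟨[⟨0, -92, 0, -1, 1, 0, 0, 0, 0⟩, ⟨0, 99, 0, 1, -1, 0, 0, 0, 0⟩], [⟨15, 5350, 2, 0, 12, 0, 30, 0, 0⟩], [⟨31, 2710, -46, 16, 16, 0, -30, 0, 0⟩]⟩,
  ⟨[⟨0, -300, 0, -1, 1, 0, 0, 0, 0⟩], [⟨31, 9290, 2, 0, 28, 0, 62, 0, 0⟩], [⟨63, 5570, -94, 32, 32, 0, -62, 0, 0⟩]⟩,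
  ⟨[⟨0, -750, 0, -1, 1, 0, 0, 0, 0⟩], [⟨17, 5430, 2, 0, 14, 0, 32, 0, 0⟩], [⟨33, 2350, -50, 16, 18, 0, -32, 0, 0⟩]⟩,
  ⟨[], [⟨7, 2300, 2, 0, 0, 8, 0, 2, 0⟩, ⟨7, 3050, 2, 0, 8, 0, 0, 2, 0⟩], [⟨11, 1250, -18, 0, 8, 4, 0, -6, 0⟩]⟩,
  ⟨[⟨0, -400, 0, 0, -1, 1, 0, 0, 0⟩], [⟨39, 14690, 2, 0, 0, 36, 0, 70, 0⟩], [⟨75, 3790, -114, 0, 40, 36, 0, -70, 0⟩]⟩,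
  ⟨[⟨0, -126, 0, -1, 1, 0, 0, 0, 0⟩, ⟨0, 138, 0, 1, -1, 0, 0, 0, 0⟩], [⟨19, 5530, 2, 0, 16, 0, 36, 0, 0⟩], [⟨37, 3760, -56, 18, 20, 0, -36, 0, 0⟩, ⟨28, 4610, -27, 9, 18, 0, 0, 0, 0⟩]⟩,
  ⟨[⟨0, -105, 0, -1, 1, 0, 0, 0, 0⟩, ⟨0, 108, 0, 1, -1, 0, 0, 0, 0⟩], [⟨29, 10530, 2, 0, 26, 0, 54, 0, 0⟩], [⟨57, 4020, -86, 30, 28, 0, -54, 0, 0⟩]⟩,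
  ⟨[⟨0, -900, 0, -1, 1, 0, 0, 0, 0⟩], [⟨4, 720, 2, 0, 1, 0, 8, 0, 0⟩], [⟨8, 830, -12, 4, 5, 0, -8, 0, 0⟩, ⟨6, 774, -5, 2, 3, 0, 0, 0, 0⟩]⟩,
  ⟨[⟨0, -100, 0, 0, -1, 1, 0, 0, 0⟩, ⟨0, 150, 0, 0, 1, -1, 0, 0, 0⟩], [⟨13, 3950, 2, 0, 0, 10, 0, 26, 0⟩, ⟨20, 3264, -19, 0, 7, 12, 0, 0, 0⟩], [⟨27, 2590, -40, 0, 14, 14, 0, -26, 0⟩]⟩]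

def wg190 : List Wn := [
  ⟨[⟨0, -165, 0, -1, 1, 0, 0, 0, 0⟩, ⟨0, 180, 0, 1, -1, 0, 0, 0, 0⟩], [⟨21, 6000, 2, 0, 18, 0, 42, 0, 0⟩, ⟨32, 5172, -31, 11, 20, 0, 0, 0, 0⟩], [⟨43, 4330, -64, 22, 22, 0, -42, 0, 0⟩]⟩,
  ⟨[⟨0, -300, 0, -1, 1, 0, 0, 0, 0⟩], [⟨9, 2060, 2, 0, 6, 0, 18, 0, 0⟩], [⟨19, 2140, -28, 10, 10, 0, -18, 0, 0⟩, ⟨14, 2049, -13, 5, 8, 0, 0, 0, 0⟩]⟩,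
  ⟨[⟨0, -1350, 0, -1, 1, 0, 0, 0, 0⟩], [⟨38, 12000, 2, 0, 35, 0, 76, 0, 0⟩], [⟨76, 5730, -114, 38, 39, 0, -76, 0, 0⟩]⟩,
  ⟨[⟨0, -138, 0, -1, 1, 0, 0, 0, 0⟩, ⟨0, 150, 0, 1, -1, 0, 0, 0, 0⟩], [⟨5, 1420, 2, 0, 2, 0, 6, 0, 0⟩], [⟨9, 830, -14, 6, 4, 0, -6, 0, 0⟩]⟩,
  ⟨[⟨0, -1200, 0, -1, 1, 0, 0, 0, 0⟩], [⟨21, 5480, 2, 0, 18, 0, 42, 0, 0⟩, ⟨32, 4914, -31, 11, 20, 0, 0, 0, 0⟩], [⟨43, 4330, -64, 22, 22, 0, -42, 0, 0⟩]⟩,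
  ⟨[⟨0, -1050, 0, -1, 1, 0, 0, 0, 0⟩], [⟨7, 1470, 2, 0, 4, 0, 12, 0, 0⟩], [⟨13, 1540, -20, 6, 8, 0, -12, 0, 0⟩, ⟨10, 1501, -9, 3, 6, 0, 0, 0, 0⟩]⟩,
  ⟨[⟨0, -108, 0, -1, 1, 0, 0, 0, 0⟩, ⟨0, 114, 0, 1, -1, 0, 0, 0, 0⟩], [⟨15, 4930, 2, 0, 12, 0, 26, 0, 0⟩], [⟨29, 2420, -44, 16, 14, 0, -26, 0, 0⟩, ⟨22, 3644, -21, 8, 13, 0, 0, 0, 0⟩]⟩,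
  ⟨[⟨0, -1350, 0, -1, 1, 0, 0, 0, 0⟩], [⟨41, 12980, 2, 0, 38, 0, 78, 0, 0⟩], [⟨81, 6330, -122, 42, 40, 0, -78, 0, 0⟩]⟩,
  ⟨[⟨0, -220, 0, -1, 1, 0, 0, 0, 0⟩, ⟨0, 245, 0, 1, -1, 0, 0, 0, 0⟩], [⟨10, 3040, 2, 0, 7, 0, 16, 0, 0⟩], [⟨18, 1470, -28, 10, 9, 0, -16, 0, 0⟩, ⟨14, 2238, -13, 5, 8, 0, 0, 0, 0⟩]⟩,
  ⟨[⟨0, -450, 0, -1, 1, 0, 0, 0, 0⟩], [⟨11, 3620, 2, 0, 8, 0, 18, 0, 0⟩], [⟨21, 1440, -32, 12, 10, 0, -18, 0, 0⟩, ⟨16, 2505, -15, 6, 9, 0, 0, 0, 0⟩]⟩,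
  ⟨[⟨0, -108, 0, -1, 1, 0, 0, 0, 0⟩, ⟨0, 114, 0, 1, -1, 0, 0, 0, 0⟩], [⟨7, 760, 2, 0, 4, 0, 2, 0, 0⟩], [⟨9, 2020, -16, 8, 2, 0, -2, 0, 0⟩, ⟨8, 1382, -7, 4, 3, 0, 0, 0, 0⟩]⟩,
  ⟨[⟨0, -900, 0, -1, 1, 0, 0, 0, 0⟩], [⟨18, 4970, 2, 0, 15, 0, 36, 0, 0⟩], [⟨36, 3250, -54, 18, 19, 0, -36, 0, 0⟩]⟩,
  ⟨[⟨0, -900, 0, -1, 1, 0, 0, 0, 0⟩], [⟨21, 5950, 2, 0, 18, 0, 38, 0, 0⟩], [⟨41, 3850, -62, 22, 20, 0, -38, 0, 0⟩]⟩,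
  ⟨[⟨0, -126, 0, -1, 1, 0, 0, 0, 0⟩, ⟨0, 138, 0, 1, -1, 0, 0, 0, 0⟩], [⟨22, 7400, 2, 0, 19, 0, 44, 0, 0⟩], [⟨44, 3360, -66, 22, 23, 0, -44, 0, 0⟩]⟩,
  ⟨[⟨0, -300, 0, 0, -1, 1, 0, 0, 0⟩], [⟨31, 9290, 2, 0, 0, 28, 0, 62, 0⟩], [⟨63, 5570, -94, 0, 32, 32, 0, -62, 0⟩]⟩,
  ⟨[⟨0, -103, 0, -1, 1, 0, 0, 0, 0⟩, ⟨0, 105, 0, 1, -1, 0, 0, 0, 0⟩], [⟨19, 7940, 2, 0, 16, 0, 26, 0, 0⟩], [⟨33, 1150, -52, 20, 14, 0, -26, 0, 0⟩, ⟨26, 4527, -25, 10, 15, 0, 0, 0, 0⟩]⟩]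

def wg191 : List Wn := [
  ⟨[⟨0, -159, 0, -1, 1, 0, 0, 0, 0⟩], [⟨11, 4570, 2, 0, 16, 0, 6, 0, 0⟩, ⟨11, 5600, 2, 16, 4, 0, 2, 0, 0⟩], [⟨19, 1140, -30, 12, 8, 0, -14, 0, 0⟩]⟩,
  ⟨[⟨0, -245, 0, -1, 1, 0, 0, 0, 0⟩, ⟨0, 270, 0, 1, -1, 0, 0, 0, 0⟩], [⟨17, 5770, 2, 0, 14, 0, 30, 0, 0⟩], [⟨33, 2300, -50, 18, 16, 0, -30, 0, 0⟩]⟩,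
  ⟨[⟨0, -600, 0, -1, 1, 0, 0, 0, 0⟩], [⟨17, 5440, 2, 0, 14, 0, 32, 0, 0⟩], [⟨33, 2350, -50, 16, 18, 0, -32, 0, 0⟩]⟩,
  ⟨[⟨0, -300, 0, 0, -1, 1, 0, 0, 0⟩], [⟨39, 14870, 2, 0, 0, 36, 0, 70, 0⟩], [⟨75, 3760, -114, 0, 40, 36, 0, -70, 0⟩]⟩,
  ⟨[⟨0, -200, 0, -1, 1, 0, 0, 0, 0⟩, ⟨0, 220, 0, 1, -1, 0, 0, 0, 0⟩], [⟨10, 3830, 2, 0, 7, 0, 20, 0, 0⟩], [⟨20, 1590, -30, 10, 11, 0, -20, 0, 0⟩]⟩,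
  ⟨[⟨0, -99, 0, -1, 1, 0, 0, 0, 0⟩, ⟨0, 101, 0, 1, -1, 0, 0, 0, 0⟩], [⟨25, 9420, 2, 0, 22, 0, 46, 0, 0⟩], [⟨49, 3200, -74, 26, 24, 0, -46, 0, 0⟩]⟩,
  ⟨[⟨0, -400, 0, 0, -1, 1, 0, 0, 0⟩, ⟨0, 500, 0, 0, 1, -1, 0, 0, 0⟩], [⟨23, 7670, 2, 0, 0, 20, 0, 42, 0⟩], [⟨45, 3160, -68, 0, 24, 22, 0, -42, 0⟩, ⟨34, 5380, -33, 0, 12, 21, 0, 0, 0⟩]⟩,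
  ⟨[⟨0, -750, 0, -1, 1, 0, 0, 0, 0⟩], [⟨4, 720, 2, 0, 1, 0, 8, 0, 0⟩], [⟨8, 830, -12, 4, 5, 0, -8, 0, 0⟩, ⟨6, 774, -5, 2, 3, 0, 0, 0, 0⟩]⟩,
  ⟨[⟨0, -99, 0, -1, 1, 0, 0, 0, 0⟩, ⟨0, 101, 0, 1, -1, 0, 0, 0, 0⟩], [⟨17, 4770, 2, 0, 14, 0, 34, 0, 0⟩, ⟨26, 4102, -25, 9, 16, 0, 0, 0, 0⟩], [⟨35, 3490, -52, 18, 18, 0, -34, 0, 0⟩]⟩,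
  ⟨[⟨0, -1350, 0, -1, 1, 0, 0, 0, 0⟩], [⟨25, 7750, 2, 0, 22, 0, 48, 0, 0⟩], [⟨49, 3630, -74, 26, 24, 0, -48, 0, 0⟩]⟩,
  ⟨[⟨0, -92, 0, -1, 1, 0, 0, 0, 0⟩, ⟨0, 99, 0, 1, -1, 0, 0, 0, 0⟩], [⟨11, 3930, 2, 0, 8, 0, 18, 0, 0⟩], [⟨21, 1330, -32, 12, 10, 0, -18, 0, 0⟩, ⟨16, 2448, -15, 6, 9, 0, 0, 0, 0⟩]⟩,
  ⟨[⟨0, -200, 0, -1, 1, 0, 0, 0, 0⟩, ⟨0, 220, 0, 1, -1, 0, 0, 0, 0⟩], [⟨7, 1580, 2, 0, 4, 0, 12, 0, 0⟩], [⟨13, 1540, -20, 6, 8, 0, -12, 0, 0⟩, ⟨10, 1548, -9, 3, 6, 0, 0, 0, 0⟩]⟩,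
  ⟨[⟨0, -84, 0, -1, 1, 0, 0, 0, 0⟩, ⟨0, 92, 0, 1, -1, 0, 0, 0, 0⟩], [⟨13, 4700, 2, 0, 10, 0, 26, 0, 0⟩], [⟨27, 2590, -40, 14, 14, 0, -26, 0, 0⟩]⟩,
  ⟨[⟨0, -1200, 0, -1, 1, 0, 0, 0, 0⟩], [⟨38, 12000, 2, 0, 35, 0, 76, 0, 0⟩], [⟨76, 5730, -114, 38, 39, 0, -76, 0, 0⟩]⟩,
  ⟨[⟨0, -138, 0, -1, 1, 0, 0, 0, 0⟩, ⟨0, 150, 0, 1, -1, 0, 0, 0, 0⟩], [⟨5, 1230, 2, 0, 2, 0, 6, 0, 0⟩], [⟨9, 170, -14, 6, 4, 0, -6, 0, 0⟩]⟩,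
  ⟨[⟨0, -1050, 0, -1, 1, 0, 0, 0, 0⟩], [⟨21, 5480, 2, 0, 18, 0, 42, 0, 0⟩, ⟨32, 4914, -31, 11, 20, 0, 0, 0, 0⟩], [⟨43, 4330, -64, 22, 22, 0, -42, 0, 0⟩]⟩]

def wg192 : List Wn := [
  ⟨[⟨0, -900, 0, -1, 1, 0, 0, 0, 0⟩], [⟨7, 1470, 2, 0, 4, 0, 12, 0, 0⟩], [⟨13, 1540, -20, 6, 8, 0, -12, 0, 0⟩, ⟨10, 1501, -9, 3, 6, 0, 0, 0, 0⟩]⟩,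
  ⟨[⟨0, -200, 0, -1, 1, 0, 0, 0, 0⟩, ⟨0, 220, 0, 1, -1, 0, 0, 0, 0⟩], [⟨35, 10920, 2, 0, 32, 0, 70, 0, 0⟩], [⟨71, 6210, -106, 36, 36, 0, -70, 0, 0⟩]⟩,
  ⟨[⟨0, -1200, 0, -1, 1, 0, 0, 0, 0⟩], [⟨41, 12980, 2, 0, 38, 0, 78, 0, 0⟩], [⟨81, 6330, -122, 42, 40, 0, -78, 0, 0⟩]⟩,
  ⟨[⟨0, -114, 0, -1, 1, 0, 0, 0, 0⟩, ⟨0, 126, 0, 1, -1, 0, 0, 0, 0⟩], [⟨41, 14380, 2, 0, 38, 0, 78, 0, 0⟩], [⟨81, 6220, -122, 42, 40, 0, -78, 0, 0⟩]⟩,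
  ⟨[⟨0, -300, 0, -1, 1, 0, 0, 0, 0⟩], [⟨11, 3690, 2, 0, 8, 0, 18, 0, 0⟩], [⟨21, 1420, -32, 12, 10, 0, -18, 0, 0⟩, ⟨16, 2495, -15, 6, 9, 0, 0, 0, 0⟩]⟩,
  ⟨[⟨0, -750, 0, -1, 1, 0, 0, 0, 0⟩], [⟨18, 4980, 2, 0, 15, 0, 36, 0, 0⟩], [⟨36, 3250, -54, 18, 19, 0, -36, 0, 0⟩]⟩,
  ⟨[⟨0, -400, 0, 0, -1, 1, 0, 0, 0⟩, ⟨0, 500, 0, 0, 1, -1, 0, 0, 0⟩], [⟨5, 630, 2, 0, 0, 2, 0, 10, 0⟩], [⟨11, 1610, -16, 0, 6, 6, 0, -10, 0⟩, ⟨8, 1112, -7, 0, 3, 4, 0, 0, 0⟩]⟩,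
  ⟨[⟨0, -270, 0, -1, 1, 0, 0, 0, 0⟩, ⟨0, 300, 0, 1, -1, 0, 0, 0, 0⟩], [⟨9, 2080, 2, 0, 6, 0, 18, 0, 0⟩, ⟨14, 2115, -13, 5, 8, 0, 0, 0, 0⟩], [⟨19, 2140, -28, 10, 10, 0, -18, 0, 0⟩]⟩,
  ⟨[⟨0, -750, 0, -1, 1, 0, 0, 0, 0⟩], [⟨21, 5950, 2, 0, 18, 0, 38, 0, 0⟩], [⟨41, 3850, -62, 22, 20, 0, -38, 0, 0⟩]⟩,
  ⟨[⟨0, -270, 0, -1, 1, 0, 0, 0, 0⟩, ⟨0, 300, 0, 1, -1, 0, 0, 0, 0⟩], [⟨38, 12410, 2, 0, 35, 0, 76, 0, 0⟩], [⟨76, 5730, -114, 38, 39, 0, -76, 0, 0⟩]⟩,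
  ⟨[⟨0, -103, 0, -1, 1, 0, 0, 0, 0⟩, ⟨0, 105, 0, 1, -1, 0, 0, 0, 0⟩], [⟨7, 1740, 2, 0, 4, 0, 12, 0, 0⟩], [⟨13, 1540, -20, 6, 8, 0, -12, 0, 0⟩, ⟨10, 1628, -9, 3, 6, 0, 0, 0, 0⟩]⟩,
  ⟨[⟨0, -200, 0, 0, -1, 1, 0, 0, 0⟩], [⟨31, 9580, 2, 0, 0, 28, 0, 62, 0⟩], [⟨63, 5570, -94, 0, 32, 32, 0, -62, 0⟩]⟩,
  ⟨[⟨0, -900, 0, -1, 1, 0, 0, 0, 0⟩, ⟨0, 1050, 0, 1, -1, 0, 0, 0, 0⟩], [⟨11, 3590, 2, 0, 8, 0, 18, 0, 0⟩], [⟨21, 1450, -32, 12, 10, 0, -18, 0, 0⟩, ⟨16, 2512, -15, 6, 9, 0, 0, 0, 0⟩]⟩,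
  ⟨[⟨0, -750, 0, -1, 1, 0, 0, 0, 0⟩], [⟨6, 1990, 2, 1, 2, 0, 12, 0, 0⟩], [⟨12, 1220, -18, 7, 6, 0, -12, 0, 0⟩]⟩,
  ⟨[⟨0, -150, 0, 0, -1, 1, 0, 0, 0⟩, ⟨0, 200, 0, 0, 1, -1, 0, 0, 0⟩], [⟨21, 6500, 2, 0, 0, 18, 0, 38, 0⟩], [⟨41, 3760, -62, 0, 22, 20, 0, -38, 0⟩]⟩,
  ⟨[⟨0, -108, 0, -1, 1, 0, 0, 0, 0⟩, ⟨0, 114, 0, 1, -1, 0, 0, 0, 0⟩], [⟨5, 1480, 2, 0, 2, 0, 6, 0, 0⟩], [⟨9, 820, -14, 6, 4, 0, -6, 0, 0⟩]⟩]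


end Pool.Agent.MP_2339ce_nt.Q2.TB
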