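import Pool.Agent.MP_2339ce_nt.Q2.HD

/-! Project Q2: generated data. -/

set_option autoImplicit false
set_option maxRecDepth 100000

noncomputable section

namespace Pool.Agent.MP_2339ce_nt.Q2.TB

def wg193 : List Wn := [
  ⟨[⟨0, -1350, 0, -1, 1, 0, 0, 0, 0⟩], [⟨8, 1610, 2, 1, 4, 0, 16, 0, 0⟩, ⟨12, 1653, -11, 5, 6, 0, 0, 0, 0⟩], [⟨16, 1690, -24, 9, 8, 0, -16, 0, 0⟩]⟩,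
  ⟨[⟨0, -450, 0, -1, 1, 0, 0, 0, 0⟩], [⟨17, 5480, 2, 0, 14, 0, 32, 0, 0⟩], [⟨33, 2350, -50, 16, 18, 0, -32, 0, 0⟩]⟩,
  ⟨[⟨0, -93, 0, -1, 1, 0, 0, 0, 0⟩], [⟨15, 6600, 2, 0, 12, 0, 22, 0, 0⟩, ⟨15, 5590, 2, 24, 8, 0, 2, 0, 0⟩], [⟨27, 1800, -42, 16, 12, 0, -22, 0, 0⟩]⟩,
  ⟨[⟨0, -165, 0, -1, 1, 0, 0, 0, 0⟩, ⟨0, 180, 0, 1, -1, 0, 0, 0, 0⟩], [⟨10, 2980, 2, 1, 6, 0, 16, 0, 0⟩, ⟨14, 2202, -13, 6, 7, 0, 0, 0, 0⟩], [⟨18, 1410, -28, 11, 8, 0, -16, 0, 0⟩]⟩,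
  ⟨[⟨0, -200, 0, 0, -1, 1, 0, 0, 0⟩], [⟨39, 15220, 2, 0, 0, 36, 0, 70, 0⟩], [⟨75, 3700, -114, 0, 40, 36, 0, -70, 0⟩]⟩,
  ⟨[⟨0, -200, 0, 0, -1, 1, 0, 0, 0⟩, ⟨0, 300, 0, 0, 1, -1, 0, 0, 0⟩], [⟨39, 12700, 2, 0, 0, 36, 0, 76, 0⟩], [⟨77, 6240, -116, 0, 38, 40, 0, -76, 0⟩, ⟨58, 9275, -57, 0, 19, 38, 0, 0, 0⟩]⟩,
  ⟨[⟨0, -27, 0, -1, 1, 0, 0, 0, 0⟩, ⟨0, 38, 0, 1, -1, 0, 0, 0, 0⟩], [⟨25, 7830, 2, 48, 22, 0, 2, 0, 0⟩], [⟨51, 4320, -76, 26, 26, 0, -50, 0, 0⟩]⟩,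
  ⟨[⟨0, -100, 0, 0, -1, 1, 0, 0, 0⟩, ⟨0, 150, 0, 0, 1, -1, 0, 0, 0⟩], [⟨7, 1690, 2, 0, 0, 4, 0, 6, 0⟩], [⟨11, 560, -18, 0, 8, 4, 0, -6, 0⟩]⟩,
  ⟨[⟨0, -600, 0, -1, 1, 0, 0, 0, 0⟩], [⟨4, 730, 2, 0, 1, 0, 8, 0, 0⟩], [⟨8, 830, -12, 4, 5, 0, -8, 0, 0⟩, ⟨6, 774, -5, 2, 3, 0, 0, 0, 0⟩]⟩,
  ⟨[⟨0, -1200, 0, -1, 1, 0, 0, 0, 0⟩], [⟨25, 7750, 2, 0, 22, 0, 48, 0, 0⟩], [⟨49, 3630, -74, 26, 24, 0, -48, 0, 0⟩]⟩,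
  ⟨[⟨0, -165, 0, -1, 1, 0, 0, 0, 0⟩, ⟨0, 180, 0, 1, -1, 0, 0, 0, 0⟩], [⟨22, 7250, 2, 0, 19, 0, 44, 0, 0⟩], [⟨44, 3360, -66, 22, 23, 0, -44, 0, 0⟩]⟩,
  ⟨[⟨0, -200, 0, 0, -1, 1, 0, 0, 0⟩], [⟨9, 2150, 2, 0, 0, 6, 0, 18, 0⟩], [⟨19, 2140, -28, 0, 10, 10, 0, -18, 0⟩, ⟨14, 2049, -13, 0, 5, 8, 0, 0, 0⟩]⟩,
  ⟨[⟨0, -1050, 0, -1, 1, 0, 0, 0, 0⟩], [⟨38, 12000, 2, 0, 35, 0, 76, 0, 0⟩], [⟨76, 5730, -114, 38, 39, 0, -76, 0, 0⟩]⟩,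
  ⟨[⟨0, -900, 0, -1, 1, 0, 0, 0, 0⟩], [⟨21, 5480, 2, 0, 18, 0, 42, 0, 0⟩, ⟨32, 4915, -31, 11, 20, 0, 0, 0, 0⟩], [⟨43, 4330, -64, 22, 22, 0, -42, 0, 0⟩]⟩,
  ⟨[⟨0, -750, 0, -1, 1, 0, 0, 0, 0⟩], [⟨7, 1470, 2, 0, 4, 0, 12, 0, 0⟩], [⟨13, 1540, -20, 6, 8, 0, -12, 0, 0⟩, ⟨10, 1501, -9, 3, 6, 0, 0, 0, 0⟩]⟩]


end Pool.Agent.MP_2339ce_nt.Q2.TB
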