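import Pool.Agent.MP_2339ce_nt.Q2.G.W0
import Pool.Agent.MP_2339ce_nt.Q2.G.W1
import Pool.Agent.MP_2339ce_nt.Q2.G.W2
import Pool.Agent.MP_2339ce_nt.Q2.G.W3
import Pool.Agent.MP_2339ce_nt.Q2.G.W4

/-! Project Q2: generated data. -/

set_option autoImplicit false
set_option maxRecDepth 100000

noncomputable section

namespace Pool.Agent.MP_2339ce_nt.Q2.TB

def WT : List (List (List Wn)) := [
  [
  wg0, wg1, wg2, wg3, wg4, wg5, wg6, wg7, wg8, wg9, wg10, wg11, wg12, wg13, wg14, wg15],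
  [
  wg16, wg17, wg18, wg19, wg20, wg21, wg22, wg23, wg24, wg25, wg26, wg27, wg28, wg29, wg30, wg31],
  [
  wg32, wg33, wg34, wg35, wg36, wg37, wg38, wg39, wg40, wg41, wg42, wg43, wg44, wg45, wg46, wg47],
  [
  wg48, wg49, wg50, wg51, wg52, wg53, wg54, wg55, wg56, wg57, wg58, wg59, wg60, wg61, wg62, wg63],
  [
  wg64, wg65, wg66, wg67, wg68, wg69, wg70, wg71, wg72, wg73, wg74, wg75, wg76, wg77, wg78, wg79],
  [
  wg80, wg81, wg82, wg83, wg84, wg85, wg86, wg87, wg88, wg89, wg90, wg91, wg92, wg93, wg94, wg95],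
  [
  wg96, wg97, wg98, wg99, wg100, wg101, wg102, wg103, wg104, wg105, wg106, wg107, wg108, wg109,
  wg110, wg111],
  [
  wg112, wg113, wg114, wg115, wg116, wg117, wg118, wg119, wg120, wg121, wg122, wg123, wg124,
  wg125, wg126, wg127],
  [
  wg128, wg129, wg130, wg131, wg132, wg133, wg134, wg135, wg136, wg137, wg138, wg139, wg140,
  wg141, wg142, wg143],
  [
  wg144, wg145, wg146, wg147, wg148, wg149, wg150, wg151, wg152, wg153, wg154, wg155, wg156,
  wg157, wg158, wg159],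
  [
  wg160, wg161, wg162, wg163, wg164, wg165, wg166, wg167, wg168, wg169, wg170, wg171, wg172,
  wg173, wg174, wg175],
  [
  wg176, wg177, wg178, wg179, wg180, wg181, wg182, wg183, wg184, wg185, wg186, wg187, wg188,
  wg189, wg190, wg191],
  [
  wg192, wg193]]

end Pool.Agent.MP_2339ce_nt.Q2.TB
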