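import Pool.Agent.MP_2339ce_nt.Q2.TKDef
import Pool.Agent.MP_2339ce_nt.Q2.G.WT
import Pool.Agent.MP_2339ce_nt.Q2.G.ST

/-! Project Q2: generated data. -/

set_option autoImplicit false
set_option maxRecDepth 100000

noncomputable section

namespace Pool.Agent.MP_2339ce_nt.Q2.TB

theorem ks0 : swT pl0 WT u0 = true := by decide +kernel

theorem ks1 : swT pl0 WT u1 = true := by decide +kernel

theorem ks2 : swT pl0 WT u2 = true := by decide +kernel

theorem ks3 : swT pl0 WT u3 = true := by decide +kernel

theorem ks4 : swT pl0 WT u4 = true := by decide +kernel

theorem ks5 : swT pl0 WT u5 = true := by decide +kernel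

theorem ks6 : swT pl0 WT u6 = true := by decide +kernel

theorem ks7 : swT pl0 WT u7 = true := by decide +kernel

theorem ks8 : swT pl0 WT u8 = true := by decide +kernel

theorem ks9 : swT pl0 WT u9 = true := by decide +kernel

theorem ks10 : swT pl0 WT u10 = true := by decide +kernel

theorem ks11 : swT pl0 WT u11 = true := by decide +kernel

theorem ks12 : swT pl0 WT u12 = true := by decide +kernel

theorem ks13 : swT pl0 WT u13 = true := by decide +kernel

theorem ks14 : swT pl0 WT u14 = true := by decide +kernel

theorem ks15 : swT pl0 WT u15 = true := by decide +kernel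

theorem ks16 : swT pl0 WT u16 = true := by decide +kernel

theorem ks17 : swT pl0 WT u17 = true := by decide +kernel

theorem ks18 : swT pl0 WT u18 = true := by decide +kernel

theorem ks19 : swT pl0 WT u19 = true := by decide +kernel

theorem ks20 : swT pl0 WT u20 = true := by decide +kernel

theorem ks21 : swT pl0 WT u21 = true := by decide +kernel

theorem ks22 : swT pl0 WT u22 = true := by decide +kernel

theorem ks23 : swT pl0 WT u23 = true := by decide +kernel

theorem ks24 : swT pl0 WT u24 = true := by decide +kernel

theorem ks25 : swT pl0 WT u25 = true := by decide +kernel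

theorem ks26 : swT pl0 WT u26 = true := by decide +kernel

theorem ks27 : swT pl0 WT u27 = true := by decide +kernel

theorem ks28 : swT pl0 WT u28 = true := by decide +kernel

theorem ks29 : swT pl0 WT u29 = true := by decide +kernel

theorem ks30 : swT pl0 WT u30 = true := by decide +kernel


end Pool.Agent.MP_2339ce_nt.Q2.TB
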