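import Pool.Agent.MP_2339ce_nt.Q2.TKDef
import Pool.Agent.MP_2339ce_nt.Q2.G.WT
import Pool.Agent.MP_2339ce_nt.Q2.G.ST

/-! Project Q2: generated data. -/

set_option autoImplicit false
set_option maxRecDepth 100000

noncomputable section

namespace Pool.Agent.MP_2339ce_nt.Q2.TB

theorem ks31 : swT pl0 WT u31 = true := by decide +kernel

theorem ks32 : swT pl0 WT u32 = true := by decide +kernel

theorem ks33 : swT pl0 WT u33 = true := by decide +kernel

theorem ks34 : swT pl0 WT u34 = true := by decide +kernel

theorem ks35 : swT pl0 WT u35 = true := by decide +kernel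

theorem ks36 : swT pl0 WT u36 = true := by decide +kernel

theorem ks37 : swT pl0 WT u37 = true := by decide +kernel

theorem ks38 : swT pl0 WT u38 = true := by decide +kernel

theorem ks39 : swT pl0 WT u39 = true := by decide +kernel

theorem ks40 : swT pl0 WT u40 = true := by decide +kernel

theorem ks41 : swT pl0 WT u41 = true := by decide +kernel

theorem ks42 : swT pl0 WT u42 = true := by decide +kernel

theorem ks43 : swT pl0 WT u43 = true := by decide +kernel

theorem ks44 : swT pl0 WT u44 = true := by decide +kernel

theorem ks45 : swT pl0 WT u45 = true := by decide +kernel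

theorem ks46 : swT pl0 WT u46 = true := by decide +kernel

theorem ks47 : swT pl0 WT u47 = true := by decide +kernel

theorem ks48 : swT pl0 WT u48 = true := by decide +kernel

theorem ks49 : swT pl0 WT u49 = true := by decide +kernel

theorem ks50 : swT pl0 WT u50 = true := by decide +kernel

theorem ks51 : swT pl0 WT u51 = true := by decide +kernel

theorem ks52 : swT pl0 WT u52 = true := by decide +kernel

theorem ks53 : swT pl0 WT u53 = true := by decide +kernel

theorem ks54 : swT pl0 WT u54 = true := by decide +kernel

theorem ks55 : swT pl0 WT u55 = true := by decide +kernel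

theorem ks56 : swT pl0 WT u56 = true := by decide +kernel

theorem ks57 : swT pl0 WT u57 = true := by decide +kernel


end Pool.Agent.MP_2339ce_nt.Q2.TB
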