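import Pool.Agent.MP_2339ce_nt.Q2.TKDef
import Pool.Agent.MP_2339ce_nt.Q2.G.WT
import Pool.Agent.MP_2339ce_nt.Q2.G.ST

/-! Project Q2: generated data. -/

set_option autoImplicit false
set_option maxRecDepth 100000

noncomputable section

namespace Pool.Agent.MP_2339ce_nt.Q2.TB

theorem ks58 : swT pl0 WT u58 = true := by decide +kernel

theorem ks59 : swT pl0 WT u59 = true := by decide +kernel

theorem ks60 : swT pl0 WT u60 = true := by decide +kernel

theorem ks61 : swT pl0 WT u61 = true := by decide +kernel

theorem ks62 : swT pl0 WT u62 = true := by decide +kernel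

theorem ks63 : swT pl0 WT u63 = true := by decide +kernel

theorem ks64 : swT pl0 WT u64 = true := by decide +kernel

theorem ks65 : swT pl0 WT u65 = true := by decide +kernel

theorem ks66 : swT pl0 WT u66 = true := by decide +kernel

theorem ks67 : swT pl0 WT u67 = true := by decide +kernel

theorem ks68 : swT pl0 WT u68 = true := by decide +kernel

theorem ks69 : swT pl0 WT u69 = true := by decide +kernel

theorem ks70 : swT pl0 WT u70 = true := by decide +kernel

theorem ks71 : swT pl0 WT u71 = true := by decide +kernel

theorem ks72 : swT pl0 WT u72 = true := by decide +kernel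

theorem ks73 : swT pl0 WT u73 = true := by decide +kernel

theorem ks74 : swT pl0 WT u74 = true := by decide +kernel

theorem ks75 : swT pl0 WT u75 = true := by decide +kernel

theorem ks76 : swT pl0 WT u76 = true := by decide +kernel

theorem ks77 : swT pl0 WT u77 = true := by decide +kernel

theorem ks78 : swT pl0 WT u78 = true := by decide +kernel

theorem ks79 : swT pl0 WT u79 = true := by decide +kernel

theorem ks80 : swT pl0 WT u80 = true := by decide +kernel

theorem ks81 : swT pl0 WT u81 = true := by decide +kernel

theorem ks82 : swT pl0 WT u82 = true := by decide +kernel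

theorem ks83 : swT pl0 WT u83 = true := by decide +kernel


end Pool.Agent.MP_2339ce_nt.Q2.TB
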