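import Pool.Agent.MP_2339ce_nt.Q2.TKDef
import Pool.Agent.MP_2339ce_nt.Q2.G.WT
import Pool.Agent.MP_2339ce_nt.Q2.G.ST

/-! Project Q2: generated data. -/

set_option autoImplicit false
set_option maxRecDepth 100000

noncomputable section

namespace Pool.Agent.MP_2339ce_nt.Q2.TB

theorem ks84 : swT pl0 WT u84 = true := by decide +kernel

theorem ks85 : swT pl0 WT u85 = true := by decide +kernel

theorem ks86 : swT pl0 WT u86 = true := by decide +kernel

theorem ks87 : swT pl0 WT u87 = true := by decide +kernel

theorem ks88 : swT pl0 WT u88 = true := by decide +kernel

theorem ks89 : swT pl0 WT u89 = true := by decide +kernel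

theorem ks90 : swT pl0 WT u90 = true := by decide +kernel

theorem ks91 : swT pl0 WT u91 = true := by decide +kernel

theorem ks92 : swT pl0 WT u92 = true := by decide +kernel

theorem ks93 : swT pl0 WT u93 = true := by decide +kernel

theorem ks94 : swT pl0 WT u94 = true := by decide +kernel

theorem ks95 : swT pl0 WT u95 = true := by decide +kernel

theorem ks96 : swT pl0 WT u96 = true := by decide +kernel

theorem ks97 : swT pl0 WT u97 = true := by decide +kernel

theorem ks98 : swT pl0 WT u98 = true := by decide +kernel

theorem ks99 : swT pl0 WT u99 = true := by decide +kernel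

theorem ks100 : swT pl0 WT u100 = true := by decide +kernel

theorem ks101 : swT pl0 WT u101 = true := by decide +kernel

theorem ks102 : swT pl0 WT u102 = true := by decide +kernel

theorem ks103 : swT pl0 WT u103 = true := by decide +kernel

theorem ks104 : swT pl0 WT u104 = true := by decide +kernel

theorem ks105 : swT pl0 WT u105 = true := by decide +kernel

theorem ks106 : swT pl0 WT u106 = true := by decide +kernel

theorem ks107 : swT pl0 WT u107 = true := by decide +kernel

theorem ks108 : swT pl0 WT u108 = true := by decide +kernel

theorem ks109 : swT pl0 WT u109 = true := by decide +kernel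

theorem ks110 : swT pl0 WT u110 = true := by decide +kernel


end Pool.Agent.MP_2339ce_nt.Q2.TB
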