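import Pool.Agent.MP_2339ce_nt.Q2.TKOk
import Pool.Agent.MP_2339ce_nt.Q2.G.AF0
import Pool.Agent.MP_2339ce_nt.Q2.G.AF1
import Pool.Agent.MP_2339ce_nt.Q2.G.AF2
import Pool.Agent.MP_2339ce_nt.Q2.G.AF3
import Pool.Agent.MP_2339ce_nt.Q2.G.AF4
import Pool.Agent.MP_2339ce_nt.Q2.G.AF5
import Pool.Agent.MP_2339ce_nt.Q2.G.AF6
import Pool.Agent.MP_2339ce_nt.Q2.G.CT
import Pool.Agent.MP_2339ce_nt.Q2.G.WP0
import Pool.Agent.MP_2339ce_nt.Q2.G.WP1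
import Pool.Agent.MP_2339ce_nt.Q2.G.WP2
import Pool.Agent.MP_2339ce_nt.Q2.G.WP3
import Pool.Agent.MP_2339ce_nt.Q2.G.WP4
import Pool.Agent.MP_2339ce_nt.Q2.G.WP5
import Pool.Agent.MP_2339ce_nt.Q2.G.WP6
import Pool.Agent.MP_2339ce_nt.Q2.G.WP7
import Pool.Agent.MP_2339ce_nt.Q2.G.WP8
import Pool.Agent.MP_2339ce_nt.Q2.G.WP9
import Pool.Agent.MP_2339ce_nt.Q2.G.WP10
import Pool.Agent.MP_2339ce_nt.Q2.G.WP11
import Pool.Agent.MP_2339ce_nt.Q2.G.WP12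
import Pool.Agent.MP_2339ce_nt.Q2.G.S0
import Pool.Agent.MP_2339ce_nt.Q2.G.S1
import Pool.Agent.MP_2339ce_nt.Q2.G.S2
import Pool.Agent.MP_2339ce_nt.Q2.G.S3

/-! Project Q2: generated data. -/

set_option autoImplicit false
set_option maxRecDepth 100000

noncomputable section

namespace Pool.Agent.MP_2339ce_nt.Q2.TB

theorem CT_ok : AO (AO (AO CF.Ok)) CT := ⟨
  ⟨
  af0_0, af0_1, af0_2, af0_3, af0_4, af1_0, af1_1, af1_2, af1_3, af2_0, af5_0, af5_1, af5_2,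
  af5_3, ar5_0, af6_0, trivial⟩,
  ⟨
  af6_1, af6_2, af6_3, af6_4, af6_5, ar6_0, ar6_1, ar6_2, af8_0, af10_0, af10_1, af10_2, af10_3,
  af14_0, ar14_0, af21_0, trivial⟩,
  ⟨
  af24_0, af25_0, af25_1, af26_0, af27_0, af29_0, af34_0, af35_0, af36_0, af37_0, af38_0, af41_0,
  af42_0, af42_1, af43_0, af43_1, trivial⟩,
  ⟨
  af44_0, af44_1, af46_0, af51_0, af54_0, af54_1, af57_0, af57_1, af58_0, af62_0, af65_0, af66_0,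
  af68_0, af69_0, af70_0, af71_0, trivial⟩,
  ⟨
  af73_0, af74_0, af77_0, af79_0, af82_0, af83_0, af84_0, af87_0, af89_0, af90_0, af91_0, af92_0,
  af93_0, af95_0, af95_1, af96_0, trivial⟩,
  ⟨
  af97_0, af98_0, af103_0, af105_0, af106_0, af107_0, af109_0, af110_0, af112_0, af112_1,
  af113_0, af113_1, af113_2, af113_3, af113_4, af113_5, trivial⟩,
  ⟨
  af113_6, af113_7, ar113_0, ar113_1, ar113_2, ar113_3, ar113_4, ar113_5, af114_0, af115_0,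
  af116_0, af123_0, af126_0, af129_0, af130_0, af131_0, trivial⟩,
  ⟨
  af133_0, af134_0, af135_0, af136_0, af137_0, af138_0, af140_0, af141_0, af142_0, af143_0,
  af144_0, af145_0, af147_0, af150_0, af151_0, af152_0, trivial⟩,
  ⟨
  af154_0, af155_0, af157_0, af158_0, af159_0, af160_0, af163_0, af165_0, af166_0, af168_0,
  af169_0, af170_0, af173_0, af174_0, af176_0, af179_0, trivial⟩,
  ⟨
  af181_0, af182_0, af184_0, af185_0, af190_0, af191_0, af193_0, af194_0, af196_0, af199_0,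
  af201_0, af204_0, af208_0, af213_0, trivial⟩,
  trivial⟩

theorem WT_ok : AO (AO (AO Wn.Ok)) WT := ⟨
  ⟨
  tw0, tw1, tw2, tw3, tw4, tw5, tw6, tw7, tw8, tw9, tw10, tw11, tw12, tw13, tw14, tw15, trivial⟩,
  ⟨
  tw16, tw17, tw18, tw19, tw20, tw21, tw22, tw23, tw24, tw25, tw26, tw27, tw28, tw29, tw30, tw31,
  trivial⟩,
  ⟨
  tw32, tw33, tw34, tw35, tw36, tw37, tw38, tw39, tw40, tw41, tw42, tw43, tw44, tw45, tw46, tw47,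
  trivial⟩,
  ⟨
  tw48, tw49, tw50, tw51, tw52, tw53, tw54, tw55, tw56, tw57, tw58, tw59, tw60, tw61, tw62, tw63,
  trivial⟩,
  ⟨
  tw64, tw65, tw66, tw67, tw68, tw69, tw70, tw71, tw72, tw73, tw74, tw75, tw76, tw77, tw78, tw79,
  trivial⟩,
  ⟨
  tw80, tw81, tw82, tw83, tw84, tw85, tw86, tw87, tw88, tw89, tw90, tw91, tw92, tw93, tw94, tw95,
  trivial⟩,
  ⟨
  tw96, tw97, tw98, tw99, tw100, tw101, tw102, tw103, tw104, tw105, tw106, tw107, tw108, tw109,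
  tw110, tw111, trivial⟩,
  ⟨
  tw112, tw113, tw114, tw115, tw116, tw117, tw118, tw119, tw120, tw121, tw122, tw123, tw124,
  tw125, tw126, tw127, trivial⟩,
  ⟨
  tw128, tw129, tw130, tw131, tw132, tw133, tw134, tw135, tw136, tw137, tw138, tw139, tw140,
  tw141, tw142, tw143, trivial⟩,
  ⟨
  tw144, tw145, tw146, tw147, tw148, tw149, tw150, tw151, tw152, tw153, tw154, tw155, tw156,
  tw157, tw158, tw159, trivial⟩,
  ⟨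
  tw160, tw161, tw162, tw163, tw164, tw165, tw166, tw167, tw168, tw169, tw170, tw171, tw172,
  tw173, tw174, tw175, trivial⟩,
  ⟨
  tw176, tw177, tw178, tw179, tw180, tw181, tw182, tw183, tw184, tw185, tw186, tw187, tw188,
  tw189, tw190, tw191, trivial⟩,
  ⟨
  tw192, tw193, trivial⟩,
  trivial⟩

theorem ST_ok : AO (AO (AO Sw.No)) ST := ⟨
  ⟨
  swT_ok pl0_ok WT_ok ks0, swT_ok pl0_ok WT_ok ks1, swT_ok pl0_ok WT_ok ks2,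
  swT_ok pl0_ok WT_ok ks3, swT_ok pl0_ok WT_ok ks4, swT_ok pl0_ok WT_ok ks5,
  swT_ok pl0_ok WT_ok ks6, swT_ok pl0_ok WT_ok ks7, swT_ok pl0_ok WT_ok ks8,
  swT_ok pl0_ok WT_ok ks9, swT_ok pl0_ok WT_ok ks10, swT_ok pl0_ok WT_ok ks11,
  swT_ok pl0_ok WT_ok ks12, swT_ok pl0_ok WT_ok ks13, swT_ok pl0_ok WT_ok ks14,
  swT_ok pl0_ok WT_ok ks15, trivial⟩,
  ⟨
  swT_ok pl0_ok WT_ok ks16, swT_ok pl0_ok WT_ok ks17, swT_ok pl0_ok WT_ok ks18,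
  swT_ok pl0_ok WT_ok ks19, swT_ok pl0_ok WT_ok ks20, swT_ok pl0_ok WT_ok ks21,
  swT_ok pl0_ok WT_ok ks22, swT_ok pl0_ok WT_ok ks23, swT_ok pl0_ok WT_ok ks24,
  swT_ok pl0_ok WT_ok ks25, swT_ok pl0_ok WT_ok ks26, swT_ok pl0_ok WT_ok ks27,
  swT_ok pl0_ok WT_ok ks28, swT_ok pl0_ok WT_ok ks29, swT_ok pl0_ok WT_ok ks30,
  swT_ok pl0_ok WT_ok ks31, trivial⟩,
  ⟨
  swT_ok pl0_ok WT_ok ks32, swT_ok pl0_ok WT_ok ks33, swT_ok pl0_ok WT_ok ks34,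
  swT_ok pl0_ok WT_ok ks35, swT_ok pl0_ok WT_ok ks36, swT_ok pl0_ok WT_ok ks37,
  swT_ok pl0_ok WT_ok ks38, swT_ok pl0_ok WT_ok ks39, swT_ok pl0_ok WT_ok ks40,
  swT_ok pl0_ok WT_ok ks41, swT_ok pl0_ok WT_ok ks42, swT_ok pl0_ok WT_ok ks43,
  swT_ok pl0_ok WT_ok ks44, swT_ok pl0_ok WT_ok ks45, swT_ok pl0_ok WT_ok ks46,
  swT_ok pl0_ok WT_ok ks47, trivial⟩,
  ⟨
  swT_ok pl0_ok WT_ok ks48, swT_ok pl0_ok WT_ok ks49, swT_ok pl0_ok WT_ok ks50,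
  swT_ok pl0_ok WT_ok ks51, swT_ok pl0_ok WT_ok ks52, swT_ok pl0_ok WT_ok ks53,
  swT_ok pl0_ok WT_ok ks54, swT_ok pl0_ok WT_ok ks55, swT_ok pl0_ok WT_ok ks56,
  swT_ok pl0_ok WT_ok ks57, swT_ok pl0_ok WT_ok ks58, swT_ok pl0_ok WT_ok ks59,
  swT_ok pl0_ok WT_ok ks60, swT_ok pl0_ok WT_ok ks61, swT_ok pl0_ok WT_ok ks62,
  swT_ok pl0_ok WT_ok ks63, trivial⟩,
  ⟨
  swT_ok pl0_ok WT_ok ks64, swT_ok pl0_ok WT_ok ks65, swT_ok pl0_ok WT_ok ks66,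
  swT_ok pl0_ok WT_ok ks67, swT_ok pl0_ok WT_ok ks68, swT_ok pl0_ok WT_ok ks69,
  swT_ok pl0_ok WT_ok ks70, swT_ok pl0_ok WT_ok ks71, swT_ok pl0_ok WT_ok ks72,
  swT_ok pl0_ok WT_ok ks73, swT_ok pl0_ok WT_ok ks74, swT_ok pl0_ok WT_ok ks75,
  swT_ok pl0_ok WT_ok ks76, swT_ok pl0_ok WT_ok ks77, swT_ok pl0_ok WT_ok ks78,
  swT_ok pl0_ok WT_ok ks79, trivial⟩,
  ⟨
  swT_ok pl0_ok WT_ok ks80, swT_ok pl0_ok WT_ok ks81, swT_ok pl0_ok WT_ok ks82,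
  swT_ok pl0_ok WT_ok ks83, swT_ok pl0_ok WT_ok ks84, swT_ok pl0_ok WT_ok ks85,
  swT_ok pl0_ok WT_ok ks86, swT_ok pl0_ok WT_ok ks87, swT_ok pl0_ok WT_ok ks88,
  swT_ok pl0_ok WT_ok ks89, swT_ok pl0_ok WT_ok ks90, swT_ok pl0_ok WT_ok ks91,
  swT_ok pl0_ok WT_ok ks92, swT_ok pl0_ok WT_ok ks93, swT_ok pl0_ok WT_ok ks94,
  swT_ok pl0_ok WT_ok ks95, trivial⟩,
  ⟨
  swT_ok pl0_ok WT_ok ks96, swT_ok pl0_ok WT_ok ks97, swT_ok pl0_ok WT_ok ks98,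
  swT_ok pl0_ok WT_ok ks99, swT_ok pl0_ok WT_ok ks100, swT_ok pl0_ok WT_ok ks101,
  swT_ok pl0_ok WT_ok ks102, swT_ok pl0_ok WT_ok ks103, swT_ok pl0_ok WT_ok ks104,
  swT_ok pl0_ok WT_ok ks105, swT_ok pl0_ok WT_ok ks106, swT_ok pl0_ok WT_ok ks107,
  swT_ok pl0_ok WT_ok ks108, swT_ok pl0_ok WT_ok ks109, swT_ok pl0_ok WT_ok ks110, trivial⟩,
  trivial⟩


end Pool.Agent.MP_2339ce_nt.Q2.TB
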