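import Pool.Agent.MP_2339ce_nt.Q2.HD

/-! Project Q2: generated data. -/

set_option autoImplicit false
set_option maxRecDepth 100000

noncomputable section

namespace Pool.Agent.MP_2339ce_nt.Q2.TB

def wg0 : List Wn := [
  ⟨[⟨0, -59, 0, -1, 1, 0, 0, 0, 0⟩], [⟨3, 1011, 2, 0, 0, 0, 6, 6, 6⟩, ⟨3, 1011, 2, 0, 10, 0, 0, 2, 6⟩], [⟨11, 1164, -14, 4, 4, 4, -6, -6, -6⟩]⟩,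
  ⟨[⟨0, -105, 0, -1, 1, 0, 0, 0, 0⟩, ⟨0, 108, 0, 1, -1, 0, 0, 0, 0⟩], [⟨19, 5640, 2, 0, 16, 0, 36, 0, 0⟩], [⟨37, 3760, -56, 18, 20, 0, -36, 0, 0⟩, ⟨28, 4677, -27, 9, 18, 0, 0, 0, 0⟩]⟩,
  ⟨[⟨0, -1050, 0, -1, 1, 0, 0, 0, 0⟩], [⟨41, 12980, 2, 0, 38, 0, 78, 0, 0⟩], [⟨81, 6330, -122, 42, 40, 0, -78, 0, 0⟩]⟩,
  ⟨[], [⟨19, 5200, 2, 0, 0, 36, 0, 18, 0⟩, ⟨19, 7270, 2, 0, 36, 16, 0, 2, 0⟩], [⟨39, 3690, -58, 0, 20, 20, 0, -38, 0⟩]⟩,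
  ⟨[⟨0, -600, 0, -1, 1, 0, 0, 0, 0⟩], [⟨18, 4990, 2, 0, 15, 0, 36, 0, 0⟩], [⟨36, 3250, -54, 18, 19, 0, -36, 0, 0⟩]⟩,
  ⟨[⟨0, -270, 0, -1, 1, 0, 0, 0, 0⟩, ⟨0, 300, 0, 1, -1, 0, 0, 0, 0⟩], [⟨9, 2080, 2, 0, 6, 0, 18, 0, 0⟩], [⟨19, 2140, -28, 10, 10, 0, -18, 0, 0⟩, ⟨14, 2094, -13, 5, 8, 0, 0, 0, 0⟩]⟩,
  ⟨[⟨0, -600, 0, 0, -1, 1, 0, 0, 0⟩], [⟨21, 5970, 2, 0, 0, 18, 0, 38, 0⟩], [⟨41, 3850, -62, 0, 22, 20, 0, -38, 0⟩]⟩,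
  ⟨[⟨0, -23, 0, 0, -1, 1, 0, 0, 0⟩, ⟨0, 60, 0, 0, 1, -1, 0, 0, 0⟩], [⟨43, 14350, 2, 0, 84, 40, 0, 2, 0⟩], [⟨87, 7030, -130, 0, 44, 44, 0, -86, 0⟩]⟩,
  ⟨[⟨0, -600, 0, -1, 1, 0, 0, 0, 0⟩], [⟨21, 5970, 2, 0, 18, 0, 38, 0, 0⟩], [⟨41, 3850, -62, 22, 20, 0, -38, 0, 0⟩]⟩,
  ⟨[⟨0, -245, 0, -1, 1, 0, 0, 0, 0⟩, ⟨0, 270, 0, 1, -1, 0, 0, 0, 0⟩], [⟨18, 5560, 2, 0, 15, 0, 32, 0, 0⟩], [⟨34, 2840, -52, 18, 17, 0, -32, 0, 0⟩, ⟨26, 4172, -25, 9, 16, 0, 0, 0, 0⟩]⟩,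
  ⟨[⟨0, -600, 0, -1, 1, 0, 0, 0, 0⟩], [⟨6, 2000, 2, 1, 2, 0, 12, 0, 0⟩], [⟨12, 1220, -18, 7, 6, 0, -12, 0, 0⟩]⟩,
  ⟨[⟨0, -1200, 0, -1, 1, 0, 0, 0, 0⟩], [⟨8, 1610, 2, 1, 4, 0, 16, 0, 0⟩, ⟨12, 1653, -11, 5, 6, 0, 0, 0, 0⟩], [⟨16, 1690, -24, 9, 8, 0, -16, 0, 0⟩]⟩,
  ⟨[⟨0, -597, 0, -1, 1, 0, 0, 0, 0⟩], [⟨67, 28240, 2, 0, 64, 0, 126, 0, 0⟩, ⟨67, 27210, 2, 128, 60, 0, 2, 0, 0⟩], [⟨131, 9070, -198, 68, 64, 0, -126, 0, 0⟩]⟩,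
  ⟨[], [⟨15, 6600, 2, 0, 12, 0, 22, 0, 0⟩, ⟨15, 5590, 2, 24, 8, 0, 2, 0, 0⟩], [⟨27, 1650, -42, 16, 12, 0, -22, 0, 0⟩]⟩,
  ⟨[⟨0, -180, 0, -1, 1, 0, 0, 0, 0⟩, ⟨0, 200, 0, 1, -1, 0, 0, 0, 0⟩], [⟨5, 1360, 2, 0, 2, 0, 6, 0, 0⟩], [⟨9, 860, -14, 6, 4, 0, -6, 0, 0⟩]⟩,
  ⟨[⟨0, 10, 0, 1, -1, 0, 0, 0, 0⟩], [⟨29, 7770, 2, 56, 26, 0, 2, 0, 0⟩], [⟨59, 5990, -88, 30, 30, 0, -58, 0, 0⟩]⟩]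

def wg1 : List Wn := [
  ⟨[⟨0, -150, 0, 0, -1, 1, 0, 0, 0⟩, ⟨0, 200, 0, 0, 1, -1, 0, 0, 0⟩], [⟨13, 3580, 2, 0, 0, 10, 0, 26, 0⟩, ⟨20, 3191, -19, 0, 7, 12, 0, 0, 0⟩], [⟨27, 2790, -40, 0, 14, 14, 0, -26, 0⟩]⟩,
  ⟨[⟨0, -150, 0, -1, 1, 0, 0, 0, 0⟩, ⟨0, 165, 0, 1, -1, 0, 0, 0, 0⟩], [⟨41, 14060, 2, 0, 38, 0, 78, 0, 0⟩], [⟨81, 6240, -122, 42, 40, 0, -78, 0, 0⟩]⟩,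
  ⟨[⟨0, -105, 0, -1, 1, 0, 0, 0, 0⟩, ⟨0, 108, 0, 1, -1, 0, 0, 0, 0⟩], [⟨22, 7580, 2, 0, 19, 0, 44, 0, 0⟩], [⟨44, 3360, -66, 22, 23, 0, -44, 0, 0⟩]⟩,
  ⟨[⟨0, -450, 0, -1, 1, 0, 0, 0, 0⟩], [⟨4, 730, 2, 0, 1, 0, 8, 0, 0⟩], [⟨8, 830, -12, 4, 5, 0, -8, 0, 0⟩, ⟨6, 774, -5, 2, 3, 0, 0, 0, 0⟩]⟩,
  ⟨[⟨0, -900, 0, -1, 1, 0, 0, 0, 0⟩], [⟨38, 12000, 2, 0, 35, 0, 76, 0, 0⟩], [⟨76, 5730, -114, 38, 39, 0, -76, 0, 0⟩]⟩,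
  ⟨[⟨0, -600, 0, -1, 1, 0, 0, 0, 0⟩], [⟨7, 1480, 2, 0, 4, 0, 12, 0, 0⟩], [⟨13, 1540, -20, 6, 8, 0, -12, 0, 0⟩, ⟨10, 1501, -9, 3, 6, 0, 0, 0, 0⟩]⟩,
  ⟨[], [⟨43, 17150, 2, 0, 0, 40, 0, 86, 0⟩, ⟨43, 16510, 2, 0, 84, 40, 0, 2, 0⟩], [⟨87, 7030, -130, 0, 44, 44, 0, -86, 0⟩]⟩,
  ⟨[⟨0, 58, 0, 1, -1, 0, 0, 0, 0⟩], [⟨3, 723, 2, 0, 2, 0, 2, 0, 0⟩], [⟨5, 480, -8, 4, 2, 0, -4, 0, 0⟩]⟩,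
  ⟨[⟨0, -900, 0, -1, 1, 0, 0, 0, 0⟩], [⟨41, 12990, 2, 0, 38, 0, 78, 0, 0⟩], [⟨81, 6330, -122, 42, 40, 0, -78, 0, 0⟩]⟩,
  ⟨[⟨0, -99, 0, -1, 1, 0, 0, 0, 0⟩, ⟨0, 101, 0, 1, -1, 0, 0, 0, 0⟩], [⟨15, 4640, 2, 0, 12, 0, 28, 0, 0⟩], [⟨29, 2780, -44, 14, 16, 0, -28, 0, 0⟩, ⟨22, 3689, -21, 7, 14, 0, 0, 0, 0⟩]⟩,
  ⟨[⟨0, -159, 0, 0, -1, 1, 0, 0, 0⟩], [⟨35, 11520, 2, 0, 0, 64, 0, 30, 0⟩, ⟨35, 14340, 2, 0, 64, 28, 0, 2, 0⟩], [⟨67, 4780, -102, 0, 36, 32, 0, -62, 0⟩]⟩,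
  ⟨[], [⟨27, 12310, 2, 0, 24, 0, 46, 0, 0⟩, ⟨27, 11290, 2, 48, 20, 0, 2, 0, 0⟩], [⟨51, 2560, -78, 28, 24, 0, -46, 0, 0⟩]⟩,
  ⟨[⟨0, -150, 0, -1, 1, 0, 0, 0, 0⟩, ⟨0, 165, 0, 1, -1, 0, 0, 0, 0⟩], [⟨10, 3130, 2, 1, 6, 0, 20, 0, 0⟩], [⟨20, 1410, -30, 11, 10, 0, -20, 0, 0⟩]⟩,
  ⟨[⟨0, -180, 0, -1, 1, 0, 0, 0, 0⟩, ⟨0, 200, 0, 1, -1, 0, 0, 0, 0⟩], [⟨15, 4730, 2, 0, 12, 0, 26, 0, 0⟩], [⟨29, 2460, -44, 16, 14, 0, -26, 0, 0⟩, ⟨22, 3565, -21, 8, 13, 0, 0, 0, 0⟩]⟩,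
  ⟨[⟨0, -450, 0, -1, 1, 0, 0, 0, 0⟩], [⟨18, 5020, 2, 0, 15, 0, 36, 0, 0⟩], [⟨36, 3250, -54, 18, 19, 0, -36, 0, 0⟩]⟩,
  ⟨[⟨0, -500, 0, 0, -1, 1, 0, 0, 0⟩, ⟨0, 600, 0, 0, 1, -1, 0, 0, 0⟩], [⟨15, 5130, 2, 0, 0, 12, 0, 20, 0⟩], [⟨25, 1690, -40, 0, 14, 12, 0, -20, 0⟩, ⟨20, 3396, -19, 0, 7, 12, 0, 0, 0⟩]⟩]

def wg2 : List Wn := [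
  ⟨[⟨0, -500, 0, 0, -1, 1, 0, 0, 0⟩], [⟨21, 5990, 2, 0, 0, 18, 0, 38, 0⟩], [⟨41, 3840, -62, 0, 22, 20, 0, -38, 0⟩]⟩,
  ⟨[⟨0, -23, 0, 0, -1, 1, 0, 0, 0⟩, ⟨0, 60, 0, 0, 1, -1, 0, 0, 0⟩], [⟨44, 14640, 2, 0, 86, 41, 0, 2, 0⟩], [⟨88, 7030, -132, 0, 44, 45, 0, -88, 0⟩]⟩,
  ⟨[⟨0, -450, 0, -1, 1, 0, 0, 0, 0⟩], [⟨21, 6010, 2, 0, 18, 0, 38, 0, 0⟩], [⟨41, 3840, -62, 22, 20, 0, -38, 0, 0⟩]⟩,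
  ⟨[⟨0, -220, 0, -1, 1, 0, 0, 0, 0⟩, ⟨0, 245, 0, 1, -1, 0, 0, 0, 0⟩], [⟨29, 9930, 2, 0, 26, 0, 54, 0, 0⟩], [⟨57, 4080, -86, 30, 28, 0, -54, 0, 0⟩]⟩,
  ⟨[⟨0, -1350, 0, -1, 1, 0, 0, 0, 0⟩], [⟨14, 3860, 2, 1, 10, 0, 28, 0, 0⟩], [⟨28, 2270, -42, 15, 14, 0, -28, 0, 0⟩]⟩,
  ⟨[], [⟨11, 4570, 2, 0, 16, 0, 6, 0, 0⟩, ⟨11, 5600, 2, 16, 4, 0, 2, 0, 0⟩], [⟨19, 920, -30, 12, 8, 0, -14, 0, 0⟩]⟩,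
  ⟨[⟨0, -1050, 0, -1, 1, 0, 0, 0, 0⟩], [⟨8, 1610, 2, 1, 4, 0, 16, 0, 0⟩, ⟨12, 1653, -11, 5, 6, 0, 0, 0, 0⟩], [⟨16, 1690, -24, 9, 8, 0, -16, 0, 0⟩]⟩,
  ⟨[⟨0, -180, 0, -1, 1, 0, 0, 0, 0⟩, ⟨0, 200, 0, 1, -1, 0, 0, 0, 0⟩], [⟨5, 1180, 2, 0, 2, 0, 6, 0, 0⟩], [⟨9, 190, -14, 6, 4, 0, -6, 0, 0⟩]⟩,
  ⟨[⟨0, 10, 0, 1, -1, 0, 0, 0, 0⟩], [⟨30, 8930, 2, 58, 27, 0, 2, 0, 0⟩], [⟨60, 5130, -90, 30, 31, 0, -60, 0, 0⟩]⟩,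
  ⟨[⟨0, -1350, 0, -1, 1, 0, 0, 0, 0⟩], [⟨5, 610, 2, 0, 2, 0, 10, 0, 0⟩, ⟨8, 1112, -7, 3, 4, 0, 0, 0, 0⟩], [⟨11, 1610, -16, 6, 6, 0, -10, 0, 0⟩]⟩,
  ⟨[⟨0, -300, 0, -1, 1, 0, 0, 0, 0⟩], [⟨4, 750, 2, 0, 1, 0, 8, 0, 0⟩], [⟨8, 830, -12, 4, 5, 0, -8, 0, 0⟩, ⟨6, 773, -5, 2, 3, 0, 0, 0, 0⟩]⟩,
  ⟨[⟨0, -93, 0, 0, -1, 1, 0, 0, 0⟩], [⟨5, 920, 2, 0, 0, 2, 0, 2, 0⟩, ⟨5, 1470, 2, 0, 4, -2, 0, 2, 0⟩, ⟨6, 1110, -5, 0, 3, 2, 0, 0, 0⟩], [⟨7, 1210, -12, 0, 6, 2, 0, -2, 0⟩]⟩,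
  ⟨[⟨0, -1350, 0, -1, 1, 0, 0, 0, 0⟩], [⟨15, 4760, 2, 0, 12, 0, 24, 0, 0⟩], [⟨27, 2070, -42, 14, 14, 0, -24, 0, 0⟩]⟩,
  ⟨[⟨0, -750, 0, -1, 1, 0, 0, 0, 0⟩], [⟨38, 12010, 2, 0, 35, 0, 76, 0, 0⟩], [⟨76, 5730, -114, 38, 39, 0, -76, 0, 0⟩]⟩,
  ⟨[⟨0, -138, 0, -1, 1, 0, 0, 0, 0⟩, ⟨0, 150, 0, 1, -1, 0, 0, 0, 0⟩], [⟨6, 1470, 2, 0, 3, 0, 8, 0, 0⟩], [⟨10, 1080, -16, 6, 5, 0, -8, 0, 0⟩, ⟨8, 1262, -7, 3, 4, 0, 0, 0, 0⟩]⟩,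
  ⟨[⟨0, -600, 0, -1, 1, 0, 0, 0, 0⟩], [⟨21, 5510, 2, 0, 18, 0, 42, 0, 0⟩, ⟨32, 4926, -31, 11, 20, 0, 0, 0, 0⟩], [⟨43, 4330, -64, 22, 22, 0, -42, 0, 0⟩]⟩]

def wg3 : List Wn := [
  ⟨[⟨0, -450, 0, -1, 1, 0, 0, 0, 0⟩], [⟨7, 1490, 2, 0, 4, 0, 12, 0, 0⟩], [⟨13, 1540, -20, 6, 8, 0, -12, 0, 0⟩, ⟨10, 1501, -9, 3, 6, 0, 0, 0, 0⟩]⟩,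
  ⟨[⟨0, -750, 0, -1, 1, 0, 0, 0, 0⟩], [⟨41, 13000, 2, 0, 38, 0, 78, 0, 0⟩], [⟨81, 6330, -122, 42, 40, 0, -78, 0, 0⟩]⟩,
  ⟨[], [⟨51, 15490, 2, 0, 0, 100, 0, 50, 0⟩, ⟨51, 19970, 2, 0, 100, 48, 0, 2, 0⟩], [⟨103, 8610, -154, 0, 52, 52, 0, -102, 0⟩]⟩,
  ⟨[⟨0, -300, 0, -1, 1, 0, 0, 0, 0⟩], [⟨18, 5120, 2, 0, 15, 0, 36, 0, 0⟩], [⟨36, 3250, -54, 18, 19, 0, -36, 0, 0⟩]⟩,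
  ⟨[⟨0, -114, 0, -1, 1, 0, 0, 0, 0⟩, ⟨0, 126, 0, 1, -1, 0, 0, 0, 0⟩], [⟨34, 12390, 2, 0, 31, 0, 68, 0, 0⟩], [⟨68, 4550, -102, 34, 35, 0, -68, 0, 0⟩]⟩,
  ⟨[⟨0, -400, 0, 0, -1, 1, 0, 0, 0⟩], [⟨21, 6040, 2, 0, 0, 18, 0, 38, 0⟩], [⟨41, 3830, -62, 0, 22, 20, 0, -38, 0⟩]⟩,
  ⟨[⟨0, -600, 0, -1, 0, 1, 0, 0, 0⟩], [⟨5, 610, 2, 0, 0, 2, 0, 0, 2⟩, ⟨6, 1005, -5, 3, 0, 2, 0, 0, 0⟩], [⟨7, 1390, -12, 6, 0, 2, 0, 0, -2⟩]⟩,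
  ⟨[⟨0, -300, 0, -1, 1, 0, 0, 0, 0⟩], [⟨21, 6140, 2, 0, 18, 0, 38, 0, 0⟩], [⟨41, 3820, -62, 22, 20, 0, -38, 0, 0⟩]⟩,
  ⟨[⟨0, -126, 0, -1, 1, 0, 0, 0, 0⟩, ⟨0, 138, 0, 1, -1, 0, 0, 0, 0⟩], [⟨7, 2110, 2, 0, 4, 0, 10, 0, 0⟩], [⟨13, 1120, -20, 8, 6, 0, -10, 0, 0⟩, ⟨10, 1595, -9, 4, 5, 0, 0, 0, 0⟩]⟩,
  ⟨[⟨0, -100, 0, 0, -1, 1, 0, 0, 0⟩, ⟨0, 150, 0, 0, 1, -1, 0, 0, 0⟩], [⟨17, 6300, 2, 0, 0, 14, 0, 30, 0⟩], [⟨33, 2230, -50, 0, 18, 16, 0, -30, 0⟩]⟩,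
  ⟨[⟨0, -126, 0, -1, 1, 0, 0, 0, 0⟩, ⟨0, 138, 0, 1, -1, 0, 0, 0, 0⟩], [⟨22, 7310, 2, 1, 18, 0, 44, 0, 0⟩], [⟨44, 3360, -66, 23, 22, 0, -44, 0, 0⟩]⟩,
  ⟨[⟨0, -1200, 0, -1, 1, 0, 0, 0, 0⟩], [⟨14, 3860, 2, 1, 10, 0, 28, 0, 0⟩], [⟨28, 2270, -42, 15, 14, 0, -28, 0, 0⟩]⟩,
  ⟨[⟨0, -100, 0, 0, -1, 1, 0, 0, 0⟩, ⟨0, 150, 0, 0, 1, -1, 0, 0, 0⟩], [⟨9, 3140, 2, 0, 0, 6, 0, 10, 0⟩, ⟨12, 2086, -11, 0, 5, 6, 0, 0, 0⟩], [⟨15, 970, -24, 0, 10, 6, 0, -10, 0⟩]⟩,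
  ⟨[⟨0, -300, 0, -1, 1, 0, 0, 0, 0⟩], [⟨6, 2060, 2, 1, 2, 0, 12, 0, 0⟩], [⟨12, 1220, -18, 7, 6, 0, -12, 0, 0⟩]⟩,
  ⟨[⟨0, -220, 0, -1, 1, 0, 0, 0, 0⟩, ⟨0, 245, 0, 1, -1, 0, 0, 0, 0⟩], [⟨21, 5830, 2, 0, 18, 0, 42, 0, 0⟩, ⟨32, 5089, -31, 11, 20, 0, 0, 0, 0⟩], [⟨43, 4330, -64, 22, 22, 0, -42, 0, 0⟩]⟩,
  ⟨[⟨0, -200, 0, 0, -1, 1, 0, 0, 0⟩], [⟨17, 5720, 2, 0, 0, 14, 0, 32, 0⟩], [⟨33, 2350, -50, 0, 16, 18, 0, -32, 0⟩]⟩]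

def wg4 : List Wn := [
  ⟨[⟨0, -900, 0, -1, 1, 0, 0, 0, 0⟩], [⟨8, 1610, 2, 1, 4, 0, 16, 0, 0⟩, ⟨12, 1654, -11, 5, 6, 0, 0, 0, 0⟩], [⟨16, 1690, -24, 9, 8, 0, -16, 0, 0⟩]⟩,
  ⟨[⟨0, -180, 0, -1, 1, 0, 0, 0, 0⟩, ⟨0, 200, 0, 1, -1, 0, 0, 0, 0⟩], [⟨5, 2030, 2, 0, 2, 0, 6, 0, 0⟩], [⟨9, 1040, -14, 6, 4, 0, -6, 0, 0⟩]⟩,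
  ⟨[⟨0, -126, 0, -1, 1, 0, 0, 0, 0⟩, ⟨0, 138, 0, 1, -1, 0, 0, 0, 0⟩], [⟨19, 5790, 2, 0, 16, 0, 38, 0, 0⟩], [⟨39, 3690, -58, 20, 20, 0, -38, 0, 0⟩]⟩,
  ⟨[⟨0, -50, 0, -1, 1, 0, 0, 0, 0⟩, ⟨0, 66, 0, 1, -1, 0, 0, 0, 0⟩], [⟨33, 10990, 2, 64, 30, 0, 2, 0, 0⟩], [⟨67, 5440, -100, 34, 34, 0, -66, 0, 0⟩]⟩,
  ⟨[⟨0, -1200, 0, -1, 1, 0, 0, 0, 0⟩], [⟨5, 610, 2, 0, 2, 0, 10, 0, 0⟩, ⟨8, 1112, -7, 3, 4, 0, 0, 0, 0⟩], [⟨11, 1610, -16, 6, 6, 0, -10, 0, 0⟩]⟩,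
  ⟨[], [⟨5, 920, 2, 0, 0, 2, 0, 2, 0⟩, ⟨5, 1470, 2, 0, 4, -2, 0, 2, 0⟩, ⟨6, 1170, -5, 0, 3, 2, 0, 0, 0⟩], [⟨7, 1060, -12, 0, 6, 2, 0, -2, 0⟩]⟩,
  ⟨[⟨0, -114, 0, -1, 1, 0, 0, 0, 0⟩, ⟨0, 126, 0, 1, -1, 0, 0, 0, 0⟩], [⟨7, 2030, 2, 0, 4, 0, 14, 0, 0⟩], [⟨15, 1490, -22, 8, 8, 0, -14, 0, 0⟩]⟩,
  ⟨[⟨0, -23, 0, 0, -1, 1, 0, 0, 0⟩, ⟨0, 60, 0, 0, 1, -1, 0, 0, 0⟩], [⟨15, 4820, 2, 0, 26, 10, 0, 2, 0⟩], [⟨29, 2160, -44, 0, 16, 14, 0, -26, 0⟩]⟩,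
  ⟨[⟨0, -100, 0, 0, -1, 1, 0, 0, 0⟩, ⟨0, 150, 0, 0, 1, -1, 0, 0, 0⟩], [⟨5, 840, 2, 0, 0, 2, 0, 4, 0⟩], [⟨7, 1190, -12, 0, 4, 4, 0, -4, 0⟩, ⟨6, 993, -5, 0, 2, 3, 0, 0, 0⟩]⟩,
  ⟨[⟨0, -600, 0, -1, 1, 0, 0, 0, 0⟩], [⟨38, 12040, 2, 0, 35, 0, 76, 0, 0⟩], [⟨76, 5730, -114, 38, 39, 0, -76, 0, 0⟩]⟩,
  ⟨[⟨0, -450, 0, -1, 1, 0, 0, 0, 0⟩], [⟨21, 5550, 2, 0, 18, 0, 42, 0, 0⟩, ⟨32, 4949, -31, 11, 20, 0, 0, 0, 0⟩], [⟨43, 4330, -64, 22, 22, 0, -42, 0, 0⟩]⟩,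
  ⟨[⟨0, -300, 0, -1, 1, 0, 0, 0, 0⟩], [⟨7, 1530, 2, 0, 4, 0, 12, 0, 0⟩], [⟨13, 1540, -20, 6, 8, 0, -12, 0, 0⟩, ⟨10, 1501, -9, 3, 6, 0, 0, 0, 0⟩]⟩,
  ⟨[⟨0, -600, 0, 0, -1, 1, 0, 0, 0⟩], [⟨41, 13030, 2, 0, 0, 38, 0, 78, 0⟩], [⟨81, 6320, -122, 0, 42, 40, 0, -78, 0⟩]⟩,
  ⟨[⟨0, -600, 0, -1, 1, 0, 0, 0, 0⟩], [⟨41, 13030, 2, 0, 38, 0, 78, 0, 0⟩], [⟨81, 6320, -122, 42, 40, 0, -78, 0, 0⟩]⟩,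
  ⟨[⟨0, -150, 0, -1, 1, 0, 0, 0, 0⟩, ⟨0, 165, 0, 1, -1, 0, 0, 0, 0⟩], [⟨10, 3800, 2, 1, 6, 0, 20, 0, 0⟩], [⟨20, 1590, -30, 11, 10, 0, -20, 0, 0⟩]⟩,
  ⟨[], [⟨19, 7270, 2, 0, 0, 16, 0, 38, 0⟩, ⟨19, 6630, 2, 0, 36, 16, 0, 2, 0⟩], [⟨39, 3690, -58, 0, 20, 20, 0, -38, 0⟩]⟩]

def wg5 : List Wn := [
  ⟨[⟨0, -38, 0, -1, 1, 0, 0, 0, 0⟩, ⟨0, 50, 0, 1, -1, 0, 0, 0, 0⟩], [⟨17, 5740, 2, 30, 12, 0, 2, 0, 0⟩], [⟨33, 2190, -50, 18, 16, 0, -30, 0, 0⟩]⟩,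
  ⟨[⟨0, -270, 0, -1, 1, 0, 0, 0, 0⟩, ⟨0, 300, 0, 1, -1, 0, 0, 0, 0⟩], [⟨10, 3770, 2, 0, 7, 0, 20, 0, 0⟩], [⟨20, 1590, -30, 10, 11, 0, -20, 0, 0⟩]⟩,
  ⟨[⟨0, -300, 0, 0, -1, 1, 0, 0, 0⟩], [⟨21, 6140, 2, 0, 0, 18, 0, 38, 0⟩], [⟨41, 3820, -62, 0, 22, 20, 0, -38, 0⟩]⟩,
  ⟨[⟨0, -108, 0, -1, 1, 0, 0, 0, 0⟩, ⟨0, 114, 0, 1, -1, 0, 0, 0, 0⟩], [⟨13, 4340, 2, 0, 10, 0, 22, 0, 0⟩], [⟨25, 2020, -38, 14, 12, 0, -22, 0, 0⟩]⟩,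
  ⟨[⟨0, -1050, 0, -1, 1, 0, 0, 0, 0⟩], [⟨14, 3870, 2, 1, 10, 0, 28, 0, 0⟩], [⟨28, 2270, -42, 15, 14, 0, -28, 0, 0⟩]⟩,
  ⟨[⟨0, -108, 0, -1, 1, 0, 0, 0, 0⟩, ⟨0, 114, 0, 1, -1, 0, 0, 0, 0⟩], [⟨6, 1460, 2, 0, 3, 0, 8, 0, 0⟩], [⟨10, 1060, -16, 6, 5, 0, -8, 0, 0⟩, ⟨8, 1245, -7, 3, 4, 0, 0, 0, 0⟩]⟩,
  ⟨[⟨0, -750, 0, -1, 1, 0, 0, 0, 0⟩], [⟨8, 1610, 2, 1, 4, 0, 16, 0, 0⟩, ⟨12, 1655, -11, 5, 6, 0, 0, 0, 0⟩], [⟨16, 1690, -24, 9, 8, 0, -16, 0, 0⟩]⟩,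
  ⟨[⟨0, -114, 0, -1, 1, 0, 0, 0, 0⟩, ⟨0, 126, 0, 1, -1, 0, 0, 0, 0⟩], [⟨15, 5650, 2, 0, 12, 0, 18, 0, 0⟩], [⟨25, 1350, -40, 16, 10, 0, -18, 0, 0⟩, ⟨20, 3473, -19, 8, 11, 0, 0, 0, 0⟩]⟩,
  ⟨[⟨0, -270, 0, -1, 1, 0, 0, 0, 0⟩, ⟨0, 300, 0, 1, -1, 0, 0, 0, 0⟩], [⟨7, 1540, 2, 0, 4, 0, 12, 0, 0⟩], [⟨13, 1540, -20, 6, 8, 0, -12, 0, 0⟩, ⟨10, 1528, -9, 3, 6, 0, 0, 0, 0⟩]⟩,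
  ⟨[⟨0, -270, 0, -1, 1, 0, 0, 0, 0⟩, ⟨0, 300, 0, 1, -1, 0, 0, 0, 0⟩], [⟨35, 10660, 2, 0, 32, 0, 70, 0, 0⟩], [⟨71, 6210, -106, 36, 36, 0, -70, 0, 0⟩]⟩,
  ⟨[⟨0, -93, 0, 0, -1, 1, 0, 0, 0⟩], [⟨11, 5970, 2, 0, 0, 8, 0, 14, 0⟩, ⟨11, 4960, 2, 0, 16, 4, 0, 2, 0⟩], [⟨19, 1070, -30, 0, 12, 8, 0, -14, 0⟩]⟩,
  ⟨[⟨0, -92, 0, -1, 1, 0, 0, 0, 0⟩, ⟨0, 99, 0, 1, -1, 0, 0, 0, 0⟩], [⟨13, 4240, 2, 0, 10, 0, 26, 0, 0⟩, ⟨20, 2897, -19, 7, 12, 0, 0, 0, 0⟩], [⟨27, 2590, -40, 14, 14, 0, -26, 0, 0⟩]⟩,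
  ⟨[⟨0, -1050, 0, -1, 1, 0, 0, 0, 0⟩], [⟨5, 610, 2, 0, 2, 0, 10, 0, 0⟩, ⟨8, 1112, -7, 3, 4, 0, 0, 0, 0⟩], [⟨11, 1610, -16, 6, 6, 0, -10, 0, 0⟩]⟩,
  ⟨[⟨0, -1350, 0, -1, 1, 0, 0, 0, 0⟩], [⟨16, 4780, 2, 1, 12, 0, 24, 0, 0⟩, ⟨22, 3498, -21, 9, 12, 0, 0, 0, 0⟩], [⟨28, 2200, -44, 17, 12, 0, -24, 0, 0⟩]⟩,
  ⟨[⟨0, -150, 0, -1, 1, 0, 0, 0, 0⟩, ⟨0, 165, 0, 1, -1, 0, 0, 0, 0⟩], [⟨34, 12140, 2, 0, 31, 0, 68, 0, 0⟩], [⟨68, 4550, -102, 34, 35, 0, -68, 0, 0⟩]⟩,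
  ⟨[⟨0, -159, 0, 0, -1, 1, 0, 0, 0⟩], [⟨71, 30420, 2, 0, 0, 68, 0, 134, 0⟩, ⟨71, 29390, 2, 0, 136, 64, 0, 2, 0⟩], [⟨139, 8940, -210, 0, 72, 68, 0, -134, 0⟩]⟩]

def wg6 : List Wn := [
  ⟨[⟨0, -165, 0, -1, 1, 0, 0, 0, 0⟩, ⟨0, 180, 0, 1, -1, 0, 0, 0, 0⟩], [⟨7, 2070, 2, 0, 4, 0, 10, 0, 0⟩], [⟨13, 1140, -20, 8, 6, 0, -10, 0, 0⟩, ⟨10, 1592, -9, 4, 5, 0, 0, 0, 0⟩]⟩,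
  ⟨[⟨0, -114, 0, -1, 1, 0, 0, 0, 0⟩, ⟨0, 126, 0, 1, -1, 0, 0, 0, 0⟩], [⟨7, 1840, 2, 0, 4, 0, 14, 0, 0⟩], [⟨15, 830, -22, 8, 8, 0, -14, 0, 0⟩]⟩,
  ⟨[⟨0, -138, 0, -1, 1, 0, 0, 0, 0⟩, ⟨0, 150, 0, 1, -1, 0, 0, 0, 0⟩], [⟨13, 4230, 2, 0, 10, 0, 22, 0, 0⟩], [⟨25, 2040, -38, 14, 12, 0, -22, 0, 0⟩]⟩,
  ⟨[⟨0, -165, 0, -1, 1, 0, 0, 0, 0⟩, ⟨0, 180, 0, 1, -1, 0, 0, 0, 0⟩], [⟨22, 7130, 2, 1, 18, 0, 44, 0, 0⟩], [⟨44, 3360, -66, 23, 22, 0, -44, 0, 0⟩]⟩,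
  ⟨[⟨0, -400, 0, 0, -1, 1, 0, 0, 0⟩, ⟨0, 500, 0, 0, 1, -1, 0, 0, 0⟩], [⟨7, 1340, 2, 0, 0, 4, 0, 4, 0⟩], [⟨9, 1690, -16, 0, 6, 4, 0, -4, 0⟩, ⟨8, 1507, -7, 0, 3, 4, 0, 0, 0⟩]⟩,
  ⟨[⟨0, -400, 0, 0, -1, 1, 0, 0, 0⟩], [⟨21, 5580, 2, 0, 0, 18, 0, 42, 0⟩, ⟨32, 4964, -31, 0, 11, 20, 0, 0, 0⟩], [⟨43, 4330, -64, 0, 22, 22, 0, -42, 0⟩]⟩,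
  ⟨[⟨0, -450, 0, -1, 1, 0, 0, 0, 0⟩], [⟨38, 12110, 2, 0, 35, 0, 76, 0, 0⟩], [⟨76, 5730, -114, 38, 39, 0, -76, 0, 0⟩]⟩,
  ⟨[⟨0, -300, 0, -1, 1, 0, 0, 0, 0⟩], [⟨21, 5680, 2, 0, 18, 0, 42, 0, 0⟩, ⟨32, 5014, -31, 11, 20, 0, 0, 0, 0⟩], [⟨43, 4330, -64, 22, 22, 0, -42, 0, 0⟩]⟩,
  ⟨[⟨0, -825, 0, -1, 1, 0, 0, 0, 0⟩, ⟨0, 900, 0, 1, -1, 0, 0, 0, 0⟩], [⟨26, 8320, 2, 0, 23, 0, 50, 0, 0⟩], [⟨50, 3580, -76, 24, 27, 0, -50, 0, 0⟩, ⟨38, 5938, -37, 12, 25, 0, 0, 0, 0⟩]⟩,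
  ⟨[⟨0, -500, 0, 0, -1, 1, 0, 0, 0⟩], [⟨41, 13080, 2, 0, 0, 38, 0, 78, 0⟩], [⟨81, 6320, -122, 0, 42, 40, 0, -78, 0⟩]⟩,
  ⟨[⟨0, -93, 0, -1, 1, 0, 0, 0, 0⟩, ⟨0, -93, 0, 0, -1, 1, 0, 0, 0⟩], [⟨5, 1600, 2, 0, 10, 0, 2, 0, 0⟩, ⟨5, 1600, 2, 0, 0, 10, 0, 0, 2⟩], [⟨11, 800, -16, 6, 6, 0, -10, 0, 0⟩, ⟨11, 800, -16, 6, 0, 6, 0, 0, -10⟩]⟩,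
  ⟨[⟨0, -450, 0, -1, 1, 0, 0, 0, 0⟩], [⟨41, 13110, 2, 0, 38, 0, 78, 0, 0⟩], [⟨81, 6310, -122, 42, 40, 0, -78, 0, 0⟩]⟩,
  ⟨[⟨0, -114, 0, -1, 1, 0, 0, 0, 0⟩, ⟨0, 126, 0, 1, -1, 0, 0, 0, 0⟩], [⟨3, 310, 2, 0, 0, 0, 4, 0, 0⟩], [⟨5, 880, -8, 2, 4, 0, -4, 0, 0⟩, ⟨4, 583, -3, 1, 2, 0, 0, 0, 0⟩]⟩,
  ⟨[⟨0, -165, 0, -1, 1, 0, 0, 0, 0⟩, ⟨0, 180, 0, 1, -1, 0, 0, 0, 0⟩], [⟨19, 5640, 2, 0, 16, 0, 38, 0, 0⟩], [⟨39, 3690, -58, 20, 20, 0, -38, 0, 0⟩]⟩,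
  ⟨[⟨0, -1350, 0, -1, 1, 0, 0, 0, 0⟩], [⟨34, 11090, 2, 1, 30, 0, 68, 0, 0⟩], [⟨68, 4550, -102, 35, 34, 0, -68, 0, 0⟩]⟩,
  ⟨[⟨0, -200, 0, -1, 1, 0, 0, 0, 0⟩, ⟨0, 220, 0, 1, -1, 0, 0, 0, 0⟩], [⟨41, 13740, 2, 0, 38, 0, 78, 0, 0⟩], [⟨81, 6260, -122, 42, 40, 0, -78, 0, 0⟩]⟩]

def wg7 : List Wn := [
  ⟨[⟨0, -200, 0, 0, -1, 1, 0, 0, 0⟩], [⟨21, 6330, 2, 0, 0, 18, 0, 38, 0⟩], [⟨41, 3790, -62, 0, 22, 20, 0, -38, 0⟩]⟩,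
  ⟨[⟨0, -900, 0, -1, 1, 0, 0, 0, 0⟩], [⟨14, 3870, 2, 1, 10, 0, 28, 0, 0⟩], [⟨28, 2270, -42, 15, 14, 0, -28, 0, 0⟩]⟩,
  ⟨[⟨0, -150, 0, -1, 1, 0, 0, 0, 0⟩, ⟨0, 165, 0, 1, -1, 0, 0, 0, 0⟩], [⟨7, 1890, 2, 0, 4, 0, 14, 0, 0⟩], [⟨15, 1490, -22, 8, 8, 0, -14, 0, 0⟩]⟩,
  ⟨[⟨0, -220, 0, -1, 1, 0, 0, 0, 0⟩, ⟨0, 245, 0, 1, -1, 0, 0, 0, 0⟩], [⟨22, 7090, 2, 0, 19, 0, 44, 0, 0⟩], [⟨44, 3360, -66, 22, 23, 0, -44, 0, 0⟩]⟩,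
  ⟨[⟨0, -600, 0, -1, 1, 0, 0, 0, 0⟩], [⟨8, 1620, 2, 1, 4, 0, 16, 0, 0⟩, ⟨12, 1659, -11, 5, 6, 0, 0, 0, 0⟩], [⟨16, 1690, -24, 9, 8, 0, -16, 0, 0⟩]⟩,
  ⟨[⟨0, -180, 0, -1, 1, 0, 0, 0, 0⟩, ⟨0, 200, 0, 1, -1, 0, 0, 0, 0⟩], [⟨6, 1450, 2, 0, 3, 0, 8, 0, 0⟩], [⟨10, 1110, -16, 6, 5, 0, -8, 0, 0⟩, ⟨8, 1268, -7, 3, 4, 0, 0, 0, 0⟩]⟩,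
  ⟨[⟨0, -597, 0, -1, 1, 0, 0, 0, 0⟩], [⟨45, 17500, 2, 0, 42, 0, 88, 0, 0⟩, ⟨45, 16630, 2, 88, 40, 0, 2, 0, 0⟩, ⟨67, 12210, -66, 66, 0, 0, 0, 0, 0⟩], [⟨89, 7510, -134, 44, 46, 0, -88, 0, 0⟩]⟩,
  ⟨[⟨0, -150, 0, 0, -1, 1, 0, 0, 0⟩, ⟨0, 200, 0, 0, 1, -1, 0, 0, 0⟩], [⟨27, 10370, 2, 0, 0, 24, 0, 46, 0⟩], [⟨51, 2780, -78, 0, 28, 24, 0, -46, 0⟩]⟩,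
  ⟨[], [⟨11, 5970, 2, 0, 0, 8, 0, 14, 0⟩, ⟨11, 4960, 2, 0, 16, 4, 0, 2, 0⟩], [⟨19, 920, -30, 0, 12, 8, 0, -14, 0⟩]⟩,
  ⟨[⟨0, -900, 0, -1, 1, 0, 0, 0, 0⟩], [⟨5, 610, 2, 0, 2, 0, 10, 0, 0⟩, ⟨8, 1113, -7, 3, 4, 0, 0, 0, 0⟩], [⟨11, 1610, -16, 6, 6, 0, -10, 0, 0⟩]⟩,
  ⟨[⟨0, -150, 0, -1, 1, 0, 0, 0, 0⟩, ⟨0, 165, 0, 1, -1, 0, 0, 0, 0⟩], [⟨3, 280, 2, 0, 0, 0, 4, 0, 0⟩], [⟨5, 880, -8, 2, 4, 0, -4, 0, 0⟩, ⟨4, 569, -3, 1, 2, 0, 0, 0, 0⟩]⟩,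
  ⟨[⟨0, -114, 0, -1, 1, 0, 0, 0, 0⟩, ⟨0, 126, 0, 1, -1, 0, 0, 0, 0⟩], [⟨7, 2690, 2, 0, 4, 0, 14, 0, 0⟩], [⟨15, 1680, -22, 8, 8, 0, -14, 0, 0⟩]⟩,
  ⟨[⟨0, -126, 0, -1, 1, 0, 0, 0, 0⟩, ⟨0, 138, 0, 1, -1, 0, 0, 0, 0⟩], [⟨18, 5700, 2, 0, 15, 0, 34, 0, 0⟩], [⟨34, 2860, -52, 16, 19, 0, -34, 0, 0⟩, ⟨26, 4249, -25, 8, 17, 0, 0, 0, 0⟩]⟩,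
  ⟨[⟨0, -335, 0, -1, 1, 0, 0, 0, 0⟩, ⟨0, 375, 0, 1, -1, 0, 0, 0, 0⟩], [⟨18, 5460, 2, 0, 15, 0, 32, 0, 0⟩], [⟨34, 2860, -52, 18, 17, 0, -32, 0, 0⟩, ⟨26, 4137, -25, 9, 16, 0, 0, 0, 0⟩]⟩,
  ⟨[⟨0, -300, 0, 0, -1, 1, 0, 0, 0⟩], [⟨21, 5680, 2, 0, 0, 18, 0, 42, 0⟩, ⟨32, 5014, -31, 0, 11, 20, 0, 0, 0⟩], [⟨43, 4330, -64, 0, 22, 22, 0, -42, 0⟩]⟩,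
  ⟨[⟨0, -84, 0, -1, 1, 0, 0, 0, 0⟩, ⟨0, 92, 0, 1, -1, 0, 0, 0, 0⟩], [⟨14, 5420, 2, 1, 10, 0, 28, 0, 0⟩, ⟨21, 3952, -20, 8, 12, 0, 0, 0, 0⟩], [⟨28, 2470, -42, 15, 14, 0, -28, 0, 0⟩]⟩]

def wg8 : List Wn := [
  ⟨[⟨0, -300, 0, -1, 1, 0, 0, 0, 0⟩], [⟨38, 12330, 2, 0, 35, 0, 76, 0, 0⟩], [⟨76, 5730, -114, 38, 39, 0, -76, 0, 0⟩]⟩,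
  ⟨[⟨0, -1350, 0, -1, 1, 0, 0, 0, 0⟩], [⟨21, 5480, 2, 0, 18, 0, 42, 0, 0⟩], [⟨43, 4330, -64, 22, 22, 0, -42, 0, 0⟩, ⟨32, 4893, -31, 11, 20, 0, 0, 0, 0⟩]⟩,
  ⟨[⟨0, -150, 0, -1, 1, 0, 0, 0, 0⟩, ⟨0, 165, 0, 1, -1, 0, 0, 0, 0⟩], [⟨15, 5550, 2, 0, 12, 0, 18, 0, 0⟩], [⟨25, 1400, -40, 16, 10, 0, -18, 0, 0⟩, ⟨20, 3451, -19, 8, 11, 0, 0, 0, 0⟩]⟩,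
  ⟨[⟨0, -400, 0, 0, -1, 1, 0, 0, 0⟩], [⟨41, 13170, 2, 0, 0, 38, 0, 78, 0⟩], [⟨81, 6310, -122, 0, 42, 40, 0, -78, 0⟩]⟩,
  ⟨[⟨0, -245, 0, -1, 1, 0, 0, 0, 0⟩, ⟨0, 270, 0, 1, -1, 0, 0, 0, 0⟩], [⟨5, 1310, 2, 0, 2, 0, 6, 0, 0⟩], [⟨9, 880, -14, 6, 4, 0, -6, 0, 0⟩]⟩,
  ⟨[⟨0, -105, 0, -1, 1, 0, 0, 0, 0⟩, ⟨0, 108, 0, 1, -1, 0, 0, 0, 0⟩], [⟨19, 5970, 2, 0, 16, 0, 38, 0, 0⟩], [⟨39, 3690, -58, 20, 20, 0, -38, 0, 0⟩]⟩,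
  ⟨[⟨0, -300, 0, -1, 1, 0, 0, 0, 0⟩], [⟨41, 13360, 2, 0, 38, 0, 78, 0, 0⟩], [⟨81, 6290, -122, 42, 40, 0, -78, 0, 0⟩]⟩,
  ⟨[], [⟨51, 19970, 2, 0, 0, 48, 0, 102, 0⟩, ⟨51, 19340, 2, 0, 100, 48, 0, 2, 0⟩], [⟨103, 8610, -154, 0, 52, 52, 0, -102, 0⟩]⟩,
  ⟨[⟨0, -1200, 0, -1, 1, 0, 0, 0, 0⟩], [⟨34, 11090, 2, 1, 30, 0, 68, 0, 0⟩], [⟨68, 4550, -102, 35, 34, 0, -68, 0, 0⟩]⟩,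
  ⟨[], [⟨47, 19230, 2, 0, 44, 0, 90, 0, 0⟩, ⟨47, 18180, 2, 92, 40, 0, 2, 0, 0⟩], [⟨91, 6670, -138, 44, 48, 0, -90, 0, 0⟩]⟩,
  ⟨[⟨0, -84, 0, -1, 1, 0, 0, 0, 0⟩, ⟨0, 92, 0, 1, -1, 0, 0, 0, 0⟩], [⟨17, 6800, 2, 0, 14, 0, 30, 0, 0⟩], [⟨33, 2220, -50, 18, 16, 0, -30, 0, 0⟩]⟩,
  ⟨[⟨0, -450, 0, -1, 1, 0, 0, 0, 0⟩], [⟨8, 1640, 2, 1, 4, 0, 16, 0, 0⟩, ⟨12, 1669, -11, 5, 6, 0, 0, 0, 0⟩], [⟨16, 1690, -24, 9, 8, 0, -16, 0, 0⟩]⟩,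
  ⟨[⟨0, -200, 0, -1, 1, 0, 0, 0, 0⟩, ⟨0, 220, 0, 1, -1, 0, 0, 0, 0⟩], [⟨10, 2860, 2, 1, 6, 0, 20, 0, 0⟩], [⟨20, 740, -30, 11, 10, 0, -20, 0, 0⟩]⟩,
  ⟨[⟨0, -245, 0, -1, 1, 0, 0, 0, 0⟩, ⟨0, 270, 0, 1, -1, 0, 0, 0, 0⟩], [⟨15, 4610, 2, 0, 12, 0, 26, 0, 0⟩], [⟨29, 2490, -44, 16, 14, 0, -26, 0, 0⟩, ⟨22, 3523, -21, 8, 13, 0, 0, 0, 0⟩]⟩,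
  ⟨[⟨0, -750, 0, -1, 1, 0, 0, 0, 0⟩], [⟨5, 610, 2, 0, 2, 0, 10, 0, 0⟩, ⟨8, 1113, -7, 3, 4, 0, 0, 0, 0⟩], [⟨11, 1610, -16, 6, 6, 0, -10, 0, 0⟩]⟩,
  ⟨[⟨0, -114, 0, -1, 1, 0, 0, 0, 0⟩, ⟨0, 126, 0, 1, -1, 0, 0, 0, 0⟩], [⟨8, 1950, 2, 0, 5, 0, 16, 0, 0⟩, ⟨12, 1826, -11, 4, 7, 0, 0, 0, 0⟩], [⟨16, 1690, -24, 8, 9, 0, -16, 0, 0⟩]⟩]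

def wg9 : List Wn := [
  ⟨[⟨0, -138, 0, -1, 1, 0, 0, 0, 0⟩, ⟨0, 150, 0, 1, -1, 0, 0, 0, 0⟩], [⟨14, 4610, 2, 0, 11, 0, 24, 0, 0⟩], [⟨26, 1960, -40, 14, 13, 0, -24, 0, 0⟩, ⟨20, 3265, -19, 7, 12, 0, 0, 0, 0⟩]⟩,
  ⟨[⟨0, -27, 0, -1, 1, 0, 0, 0, 0⟩, ⟨0, 38, 0, 1, -1, 0, 0, 0, 0⟩], [⟨23, 7050, 2, 44, 20, 0, 2, 0, 0⟩], [⟨47, 4110, -70, 24, 24, 0, -46, 0, 0⟩]⟩,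
  ⟨[⟨0, -200, 0, 0, -1, 1, 0, 0, 0⟩], [⟨21, 5890, 2, 0, 0, 18, 0, 42, 0⟩, ⟨32, 5116, -31, 0, 11, 20, 0, 0, 0⟩], [⟨43, 4330, -64, 0, 22, 22, 0, -42, 0⟩]⟩,
  ⟨[⟨0, -138, 0, -1, 1, 0, 0, 0, 0⟩, ⟨0, 150, 0, 1, -1, 0, 0, 0, 0⟩], [⟨6, 1470, 2, 1, 2, 0, 8, 0, 0⟩, ⟨8, 1254, -7, 4, 3, 0, 0, 0, 0⟩], [⟨10, 1030, -16, 7, 4, 0, -8, 0, 0⟩]⟩,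
  ⟨[⟨0, -1200, 0, -1, 1, 0, 0, 0, 0⟩], [⟨21, 5480, 2, 0, 18, 0, 42, 0, 0⟩], [⟨43, 4330, -64, 22, 22, 0, -42, 0, 0⟩, ⟨32, 4893, -31, 11, 20, 0, 0, 0, 0⟩]⟩,
  ⟨[], [⟨25, 7190, 2, 0, 48, 0, 24, 0, 0⟩, ⟨25, 9740, 2, 48, 22, 0, 2, 0, 0⟩, ⟨38, 6810, -37, 13, 24, 0, 0, 0, 0⟩], [⟨51, 4490, -76, 26, 26, 0, -50, 0, 0⟩]⟩,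
  ⟨[⟨0, -300, 0, 0, -1, 1, 0, 0, 0⟩], [⟨41, 13360, 2, 0, 0, 38, 0, 78, 0⟩], [⟨81, 6290, -122, 0, 42, 40, 0, -78, 0⟩]⟩,
  ⟨[⟨0, -245, 0, -1, 1, 0, 0, 0, 0⟩, ⟨0, 270, 0, 1, -1, 0, 0, 0, 0⟩], [⟨5, 1130, 2, 0, 2, 0, 6, 0, 0⟩], [⟨9, 220, -14, 6, 4, 0, -6, 0, 0⟩]⟩,
  ⟨[⟨0, -1050, 0, -1, 1, 0, 0, 0, 0⟩], [⟨34, 11090, 2, 1, 30, 0, 68, 0, 0⟩], [⟨68, 4550, -102, 35, 34, 0, -68, 0, 0⟩]⟩,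
  ⟨[⟨0, -66, 0, -1, 1, 0, 0, 0, 0⟩, ⟨0, 76, 0, 1, -1, 0, 0, 0, 0⟩], [⟨17, 4960, 2, 32, 14, 0, 2, 0, 0⟩], [⟨35, 3490, -52, 18, 18, 0, -34, 0, 0⟩]⟩,
  ⟨[⟨0, -600, 0, -1, 1, 0, 0, 0, 0⟩], [⟨14, 3880, 2, 1, 10, 0, 28, 0, 0⟩], [⟨28, 2270, -42, 15, 14, 0, -28, 0, 0⟩]⟩,
  ⟨[⟨0, -180, 0, -1, 1, 0, 0, 0, 0⟩, ⟨0, 200, 0, 1, -1, 0, 0, 0, 0⟩], [⟨13, 4130, 2, 0, 10, 0, 22, 0, 0⟩], [⟨25, 2060, -38, 14, 12, 0, -22, 0, 0⟩]⟩,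
  ⟨[⟨0, -165, 0, -1, 1, 0, 0, 0, 0⟩, ⟨0, 180, 0, 1, -1, 0, 0, 0, 0⟩], [⟨18, 5590, 2, 0, 15, 0, 34, 0, 0⟩], [⟨34, 2860, -52, 16, 19, 0, -34, 0, 0⟩, ⟨26, 4195, -25, 8, 17, 0, 0, 0, 0⟩]⟩,
  ⟨[⟨0, -300, 0, -1, 1, 0, 0, 0, 0⟩], [⟨8, 1700, 2, 1, 4, 0, 16, 0, 0⟩, ⟨12, 1698, -11, 5, 6, 0, 0, 0, 0⟩], [⟨16, 1690, -24, 9, 8, 0, -16, 0, 0⟩]⟩,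
  ⟨[⟨0, -101, 0, -1, 1, 0, 0, 0, 0⟩, ⟨0, 103, 0, 1, -1, 0, 0, 0, 0⟩], [⟨15, 5560, 2, 0, 12, 0, 20, 0, 0⟩], [⟨25, 1460, -40, 14, 12, 0, -20, 0, 0⟩, ⟨20, 3499, -19, 7, 12, 0, 0, 0, 0⟩]⟩,
  ⟨[⟨0, -114, 0, -1, 1, 0, 0, 0, 0⟩, ⟨0, 126, 0, 1, -1, 0, 0, 0, 0⟩], [⟨31, 10080, 2, 0, 28, 0, 62, 0, 0⟩], [⟨63, 5570, -94, 32, 32, 0, -62, 0, 0⟩]⟩]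

def wg10 : List Wn := [
  ⟨[⟨0, -23, 0, 0, -1, 1, 0, 0, 0⟩, ⟨0, 60, 0, 0, 1, -1, 0, 0, 0⟩], [⟨41, 12830, 2, 0, 80, 38, 0, 2, 0⟩], [⟨83, 7550, -124, 0, 42, 42, 0, -82, 0⟩]⟩,
  ⟨[⟨0, -103, 0, -1, 1, 0, 0, 0, 0⟩, ⟨0, 105, 0, 1, -1, 0, 0, 0, 0⟩], [⟨41, 14510, 2, 0, 38, 0, 78, 0, 0⟩], [⟨81, 6210, -122, 42, 40, 0, -78, 0, 0⟩]⟩,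
  ⟨[⟨0, -99, 0, -1, 1, 0, 0, 0, 0⟩, ⟨0, 101, 0, 1, -1, 0, 0, 0, 0⟩], [⟨11, 3920, 2, 0, 8, 0, 18, 0, 0⟩], [⟨21, 1330, -32, 12, 10, 0, -18, 0, 0⟩, ⟨16, 2597, -15, 6, 9, 0, 0, 0, 0⟩]⟩,
  ⟨[], [⟨35, 13560, 2, 0, 32, 0, 70, 0, 0⟩, ⟨35, 12930, 2, 68, 32, 0, 2, 0, 0⟩], [⟨71, 6210, -106, 36, 36, 0, -70, 0, 0⟩]⟩,
  ⟨[⟨0, -200, 0, 0, -1, 1, 0, 0, 0⟩], [⟨27, 10510, 2, 0, 0, 24, 0, 42, 0⟩], [⟨49, 2370, -76, 0, 28, 22, 0, -42, 0⟩, ⟨38, 6194, -37, 0, 14, 23, 0, 0, 0⟩]⟩,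
  ⟨[⟨0, -600, 0, -1, 1, 0, 0, 0, 0⟩], [⟨5, 610, 2, 0, 2, 0, 10, 0, 0⟩, ⟨8, 1116, -7, 3, 4, 0, 0, 0, 0⟩], [⟨11, 1610, -16, 6, 6, 0, -10, 0, 0⟩]⟩,
  ⟨[⟨0, -150, 0, 0, -1, 1, 0, 0, 0⟩, ⟨0, 200, 0, 0, 1, -1, 0, 0, 0⟩], [⟨19, 6220, 2, 0, 0, 16, 0, 34, 0⟩], [⟨37, 3040, -56, 0, 20, 18, 0, -34, 0⟩, ⟨28, 4545, -27, 0, 10, 17, 0, 0, 0⟩]⟩,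
  ⟨[⟨0, -93, 0, 0, -1, 1, 0, 0, 0⟩], [⟨41, 16710, 2, 0, 0, 38, 0, 78, 0⟩, ⟨41, 15870, 2, 0, 78, 36, 0, 2, 0⟩], [⟨81, 6200, -122, 0, 42, 40, 0, -78, 0⟩]⟩,
  ⟨[⟨0, -105, 0, -1, 1, 0, 0, 0, 0⟩, ⟨0, 108, 0, 1, -1, 0, 0, 0, 0⟩], [⟨7, 2100, 2, 0, 4, 0, 10, 0, 0⟩], [⟨13, 1110, -20, 8, 6, 0, -10, 0, 0⟩, ⟨10, 1586, -9, 4, 5, 0, 0, 0, 0⟩]⟩,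
  ⟨[⟨0, 10, 0, 1, -1, 0, 0, 0, 0⟩], [⟨27, 8040, 2, 52, 24, 0, 2, 0, 0⟩], [⟨55, 4760, -82, 28, 28, 0, -54, 0, 0⟩]⟩,
  ⟨[⟨0, -1350, 0, -1, 1, 0, 0, 0, 0⟩], [⟨26, 8230, 2, 1, 22, 0, 48, 0, 0⟩, ⟨38, 5917, -37, 14, 23, 0, 0, 0, 0⟩], [⟨50, 3580, -76, 27, 24, 0, -48, 0, 0⟩]⟩,
  ⟨[⟨0, -103, 0, -1, 1, 0, 0, 0, 0⟩, ⟨0, 105, 0, 1, -1, 0, 0, 0, 0⟩], [⟨15, 5690, 2, 0, 12, 0, 18, 0, 0⟩], [⟨25, 1330, -40, 16, 10, 0, -18, 0, 0⟩, ⟨20, 3496, -19, 8, 11, 0, 0, 0, 0⟩]⟩,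
  ⟨[⟨0, -201, 0, -1, 1, 0, 0, 0, 0⟩], [⟨5, 970, 2, 0, 2, 0, 10, 0, 0⟩, ⟨5, 1830, 2, 8, 2, 0, 2, 0, 0⟩], [⟨11, 1600, -16, 6, 6, 0, -10, 0, 0⟩, ⟨8, 1090, -7, 3, 4, 0, 0, 0, 0⟩]⟩,
  ⟨[⟨0, -300, 0, -1, 1, 0, 0, 0, 0⟩], [⟨5, 1160, 2, 0, 2, 0, 8, 0, 0⟩], [⟨9, 930, -14, 4, 6, 0, -8, 0, 0⟩]⟩,
  ⟨[⟨0, -200, 0, 0, -1, 1, 0, 0, 0⟩], [⟨41, 13740, 2, 0, 0, 38, 0, 78, 0⟩], [⟨81, 6260, -122, 0, 42, 40, 0, -78, 0⟩]⟩,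
  ⟨[⟨0, -245, 0, -1, 1, 0, 0, 0, 0⟩, ⟨0, 270, 0, 1, -1, 0, 0, 0, 0⟩], [⟨5, 1980, 2, 0, 2, 0, 6, 0, 0⟩], [⟨9, 1070, -14, 6, 4, 0, -6, 0, 0⟩]⟩]

def wg11 : List Wn := [
  ⟨[⟨0, -900, 0, -1, 1, 0, 0, 0, 0⟩], [⟨34, 11090, 2, 1, 30, 0, 68, 0, 0⟩], [⟨68, 4550, -102, 35, 34, 0, -68, 0, 0⟩]⟩,
  ⟨[⟨0, -270, 0, -1, 1, 0, 0, 0, 0⟩, ⟨0, 300, 0, 1, -1, 0, 0, 0, 0⟩], [⟨10, 2590, 2, 1, 6, 0, 18, 0, 0⟩, ⟨14, 2036, -13, 6, 7, 0, 0, 0, 0⟩], [⟨18, 1470, -28, 11, 8, 0, -18, 0, 0⟩]⟩,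
  ⟨[⟨0, -1050, 0, -1, 1, 0, 0, 0, 0⟩], [⟨10, 2800, 2, 0, 7, 0, 18, 0, 0⟩], [⟨18, 1470, -28, 8, 11, 0, -18, 0, 0⟩, ⟨14, 2134, -13, 4, 9, 0, 0, 0, 0⟩]⟩,
  ⟨[⟨0, -200, 0, -1, 1, 0, 0, 0, 0⟩, ⟨0, 220, 0, 1, -1, 0, 0, 0, 0⟩], [⟨3, 250, 2, 0, 0, 0, 4, 0, 0⟩], [⟨5, 880, -8, 2, 4, 0, -4, 0, 0⟩, ⟨4, 557, -3, 1, 2, 0, 0, 0, 0⟩]⟩,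
  ⟨[⟨0, -114, 0, -1, 1, 0, 0, 0, 0⟩, ⟨0, 126, 0, 1, -1, 0, 0, 0, 0⟩], [⟨11, 3350, 2, 0, 8, 0, 20, 0, 0⟩], [⟨21, 1910, -32, 10, 12, 0, -20, 0, 0⟩, ⟨16, 2609, -15, 5, 10, 0, 0, 0, 0⟩]⟩,
  ⟨[⟨0, -200, 0, -1, 1, 0, 0, 0, 0⟩, ⟨0, 220, 0, 1, -1, 0, 0, 0, 0⟩], [⟨34, 11880, 2, 0, 31, 0, 68, 0, 0⟩], [⟨68, 4550, -102, 34, 35, 0, -68, 0, 0⟩]⟩,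
  ⟨[⟨0, -450, 0, -1, 1, 0, 0, 0, 0⟩], [⟨14, 3920, 2, 1, 10, 0, 28, 0, 0⟩], [⟨28, 2270, -42, 15, 14, 0, -28, 0, 0⟩]⟩,
  ⟨[⟨0, -150, 0, 0, -1, 1, 0, 0, 0⟩, ⟨0, 200, 0, 0, 1, -1, 0, 0, 0⟩], [⟨7, 2440, 2, 0, 0, 4, 0, 6, 0⟩], [⟨11, 1460, -18, 0, 8, 4, 0, -6, 0⟩]⟩,
  ⟨[⟨0, -150, 0, -1, 1, 0, 0, 0, 0⟩, ⟨0, 165, 0, 1, -1, 0, 0, 0, 0⟩], [⟨8, 1940, 2, 0, 5, 0, 16, 0, 0⟩, ⟨12, 1818, -11, 4, 7, 0, 0, 0, 0⟩], [⟨16, 1690, -24, 8, 9, 0, -16, 0, 0⟩]⟩,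
  ⟨[⟨0, -200, 0, 0, -1, 1, 0, 0, 0⟩], [⟨19, 8370, 2, 0, 0, 16, 0, 22, 0⟩], [⟨31, 390, -50, 0, 20, 12, 0, -22, 0⟩]⟩,
  ⟨[⟨0, -500, 0, 0, -1, 1, 0, 0, 0⟩], [⟨5, 620, 2, 0, 0, 2, 0, 10, 0⟩, ⟨8, 1119, -7, 0, 3, 4, 0, 0, 0⟩], [⟨11, 1610, -16, 0, 6, 6, 0, -10, 0⟩]⟩,
  ⟨[⟨0, -450, 0, -1, 1, 0, 0, 0, 0⟩], [⟨5, 630, 2, 0, 2, 0, 10, 0, 0⟩, ⟨8, 1122, -7, 3, 4, 0, 0, 0, 0⟩], [⟨11, 1610, -16, 6, 6, 0, -10, 0, 0⟩]⟩,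
  ⟨[⟨0, -126, 0, -1, 1, 0, 0, 0, 0⟩, ⟨0, 138, 0, 1, -1, 0, 0, 0, 0⟩], [⟨25, 9160, 2, 0, 22, 0, 46, 0, 0⟩], [⟨49, 3220, -74, 26, 24, 0, -46, 0, 0⟩]⟩,
  ⟨[⟨0, -1200, 0, -1, 1, 0, 0, 0, 0⟩], [⟨26, 8230, 2, 1, 22, 0, 48, 0, 0⟩, ⟨38, 5917, -37, 14, 23, 0, 0, 0, 0⟩], [⟨50, 3580, -76, 27, 24, 0, -48, 0, 0⟩]⟩,
  ⟨[⟨0, -200, 0, -1, 1, 0, 0, 0, 0⟩, ⟨0, 220, 0, 1, -1, 0, 0, 0, 0⟩], [⟨7, 1820, 2, 0, 4, 0, 14, 0, 0⟩], [⟨15, 1490, -22, 8, 8, 0, -14, 0, 0⟩]⟩,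
  ⟨[⟨0, -201, 0, -1, 1, 0, 0, 0, 0⟩], [⟨7, 3400, 2, 0, 4, 0, 6, 0, 0⟩, ⟨7, 2420, 2, 8, 0, 0, 2, 0, 0⟩], [⟨11, 1500, -18, 8, 4, 0, -6, 0, 0⟩]⟩]

def wg12 : List Wn := [
  ⟨[⟨0, -900, 0, -1, 1, 0, 0, 0, 0⟩], [⟨21, 5480, 2, 0, 18, 0, 42, 0, 0⟩], [⟨43, 4330, -64, 22, 22, 0, -42, 0, 0⟩, ⟨32, 4893, -31, 11, 20, 0, 0, 0, 0⟩]⟩,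
  ⟨[⟨0, -150, 0, -1, 1, 0, 0, 0, 0⟩, ⟨0, 165, 0, 1, -1, 0, 0, 0, 0⟩], [⟨31, 9830, 2, 0, 28, 0, 62, 0, 0⟩], [⟨63, 5570, -94, 32, 32, 0, -62, 0, 0⟩]⟩,
  ⟨[⟨0, -103, 0, -1, 1, 0, 0, 0, 0⟩, ⟨0, 105, 0, 1, -1, 0, 0, 0, 0⟩], [⟨7, 2120, 2, 0, 4, 0, 14, 0, 0⟩], [⟨15, 1490, -22, 8, 8, 0, -14, 0, 0⟩]⟩,
  ⟨[⟨0, -300, 0, -1, 1, 0, 0, 0, 0⟩], [⟨14, 4010, 2, 1, 10, 0, 28, 0, 0⟩], [⟨28, 2270, -42, 15, 14, 0, -28, 0, 0⟩]⟩,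
  ⟨[⟨0, -99, 0, -1, 1, 0, 0, 0, 0⟩, ⟨0, 101, 0, 1, -1, 0, 0, 0, 0⟩], [⟨14, 4640, 2, 0, 11, 0, 26, 0, 0⟩], [⟨26, 2030, -40, 12, 15, 0, -26, 0, 0⟩, ⟨20, 3313, -19, 6, 13, 0, 0, 0, 0⟩]⟩,
  ⟨[⟨0, -220, 0, -1, 1, 0, 0, 0, 0⟩, ⟨0, 245, 0, 1, -1, 0, 0, 0, 0⟩], [⟨7, 2020, 2, 0, 4, 0, 10, 0, 0⟩], [⟨13, 1160, -20, 8, 6, 0, -10, 0, 0⟩, ⟨10, 1579, -9, 4, 5, 0, 0, 0, 0⟩]⟩,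
  ⟨[⟨0, -180, 0, -1, 1, 0, 0, 0, 0⟩, ⟨0, 200, 0, 1, -1, 0, 0, 0, 0⟩], [⟨14, 4520, 2, 0, 11, 0, 24, 0, 0⟩], [⟨26, 1990, -40, 14, 13, 0, -24, 0, 0⟩, ⟨20, 3231, -19, 7, 12, 0, 0, 0, 0⟩]⟩,
  ⟨[⟨0, -99, 0, -1, 1, 0, 0, 0, 0⟩, ⟨0, 101, 0, 1, -1, 0, 0, 0, 0⟩], [⟨5, 980, 2, 0, 2, 0, 10, 0, 0⟩, ⟨8, 844, -7, 3, 4, 0, 0, 0, 0⟩], [⟨11, 1600, -16, 6, 6, 0, -10, 0, 0⟩]⟩,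
  ⟨[⟨0, -180, 0, -1, 1, 0, 0, 0, 0⟩, ⟨0, 200, 0, 1, -1, 0, 0, 0, 0⟩], [⟨6, 1370, 2, 1, 2, 0, 8, 0, 0⟩, ⟨8, 1210, -7, 4, 3, 0, 0, 0, 0⟩], [⟨10, 1040, -16, 7, 4, 0, -8, 0, 0⟩]⟩,
  ⟨[⟨0, -126, 0, -1, 1, 0, 0, 0, 0⟩, ⟨0, 138, 0, 1, -1, 0, 0, 0, 0⟩], [⟨6, 1380, 2, 0, 3, 0, 10, 0, 0⟩], [⟨10, 1090, -16, 4, 7, 0, -10, 0, 0⟩, ⟨8, 1226, -7, 2, 5, 0, 0, 0, 0⟩]⟩,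
  ⟨[⟨0, -597, 0, -1, 1, 0, 0, 0, 0⟩], [⟨53, 21340, 2, 0, 50, 0, 104, 0, 0⟩, ⟨53, 20470, 2, 104, 48, 0, 2, 0, 0⟩, ⟨79, 14440, -78, 78, 0, 0, 0, 0, 0⟩], [⟨105, 8070, -158, 52, 54, 0, -104, 0, 0⟩]⟩,
  ⟨[⟨0, -400, 0, 0, -1, 1, 0, 0, 0⟩], [⟨5, 630, 2, 0, 0, 2, 0, 10, 0⟩, ⟨8, 1126, -7, 0, 3, 4, 0, 0, 0⟩], [⟨11, 1610, -16, 0, 6, 6, 0, -10, 0⟩]⟩,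
  ⟨[⟨0, -159, 0, 0, -1, 1, 0, 0, 0⟩], [⟨61, 20650, 2, 0, 0, 118, 0, 58, 0⟩, ⟨61, 25660, 2, 0, 118, 56, 0, 2, 0⟩], [⟨121, 8110, -182, 0, 62, 60, 0, -118, 0⟩]⟩,
  ⟨[⟨0, -300, 0, -1, 1, 0, 0, 0, 0⟩], [⟨5, 660, 2, 0, 2, 0, 10, 0, 0⟩, ⟨8, 1139, -7, 3, 4, 0, 0, 0, 0⟩], [⟨11, 1610, -16, 6, 6, 0, -10, 0, 0⟩]⟩,
  ⟨[⟨0, -150, 0, -1, 1, 0, 0, 0, 0⟩, ⟨0, 165, 0, 1, -1, 0, 0, 0, 0⟩], [⟨3, -120, 2, 0, 0, 0, 4, 0, 0⟩, ⟨4, 380, -3, 2, 1, 0, 0, 0, 0⟩], [⟨5, 880, -8, 4, 2, 0, -4, 0, 0⟩]⟩,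
  ⟨[⟨0, -220, 0, -1, 1, 0, 0, 0, 0⟩, ⟨0, 245, 0, 1, -1, 0, 0, 0, 0⟩], [⟨19, 5490, 2, 0, 16, 0, 38, 0, 0⟩], [⟨39, 3690, -58, 20, 20, 0, -38, 0, 0⟩]⟩]

def wg13 : List Wn := [
  ⟨[⟨0, -270, 0, -1, 1, 0, 0, 0, 0⟩, ⟨0, 300, 0, 1, -1, 0, 0, 0, 0⟩], [⟨41, 13450, 2, 0, 38, 0, 78, 0, 0⟩], [⟨81, 6290, -122, 42, 40, 0, -78, 0, 0⟩]⟩,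
  ⟨[⟨0, -103, 0, -1, 1, 0, 0, 0, 0⟩, ⟨0, 105, 0, 1, -1, 0, 0, 0, 0⟩], [⟨11, 3410, 2, 0, 8, 0, 20, 0, 0⟩], [⟨21, 1910, -32, 10, 12, 0, -20, 0, 0⟩, ⟨16, 2650, -15, 5, 10, 0, 0, 0, 0⟩]⟩,
  ⟨[⟨0, -1050, 0, -1, 1, 0, 0, 0, 0⟩], [⟨26, 8230, 2, 1, 22, 0, 48, 0, 0⟩, ⟨38, 5918, -37, 14, 23, 0, 0, 0, 0⟩], [⟨50, 3580, -76, 27, 24, 0, -48, 0, 0⟩]⟩,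
  ⟨[⟨0, -150, 0, -1, 1, 0, 0, 0, 0⟩, ⟨0, 165, 0, 1, -1, 0, 0, 0, 0⟩], [⟨11, 3270, 2, 0, 8, 0, 20, 0, 0⟩], [⟨21, 1910, -32, 10, 12, 0, -20, 0, 0⟩, ⟨16, 2570, -15, 5, 10, 0, 0, 0, 0⟩]⟩,
  ⟨[⟨0, -27, 0, -1, 1, 0, 0, 0, 0⟩, ⟨0, 38, 0, 1, -1, 0, 0, 0, 0⟩], [⟨9, 1970, 2, 14, 4, 0, 2, 0, 0⟩], [⟨17, 1940, -26, 10, 8, 0, -14, 0, 0⟩]⟩,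
  ⟨[⟨0, -597, 0, 0, -1, 1, 0, 0, 0⟩], [⟨45, 18270, 2, 0, 0, 42, 0, 86, 0⟩, ⟨45, 17440, 2, 0, 86, 40, 0, 2, 0⟩], [⟨89, 6960, -134, 0, 46, 44, 0, -86, 0⟩]⟩,
  ⟨[⟨0, -126, 0, -1, 1, 0, 0, 0, 0⟩, ⟨0, 138, 0, 1, -1, 0, 0, 0, 0⟩], [⟨17, 4770, 2, 0, 14, 0, 34, 0, 0⟩, ⟨26, 4237, -25, 9, 16, 0, 0, 0, 0⟩], [⟨35, 3690, -52, 18, 18, 0, -34, 0, 0⟩]⟩,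
  ⟨[⟨0, -93, 0, 0, -1, 1, 0, 0, 0⟩], [⟨25, 10900, 2, 0, 0, 22, 0, 46, 0⟩, ⟨25, 10070, 2, 0, 46, 20, 0, 2, 0⟩], [⟨49, 3190, -74, 0, 26, 24, 0, -46, 0⟩]⟩,
  ⟨[⟨0, -50, 0, -1, 1, 0, 0, 0, 0⟩, ⟨0, 66, 0, 1, -1, 0, 0, 0, 0⟩], [⟨31, 9860, 2, 60, 28, 0, 2, 0, 0⟩], [⟨63, 5570, -94, 32, 32, 0, -62, 0, 0⟩]⟩,
  ⟨[⟨0, -133, 0, -1, 1, 0, 0, 0, 0⟩], [⟨5, 970, 2, 0, 2, 0, 10, 0, 0⟩, ⟨5, 1830, 2, 8, 2, 0, 2, 0, 0⟩], [⟨11, 1600, -16, 6, 6, 0, -10, 0, 0⟩, ⟨8, 920, -7, 3, 4, 0, 0, 0, 0⟩]⟩,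
  ⟨[⟨0, -100, 0, 0, -1, 1, 0, 0, 0⟩, ⟨0, 150, 0, 0, 1, -1, 0, 0, 0⟩], [⟨35, 12060, 2, 0, 0, 32, 0, 70, 0⟩], [⟨71, 6210, -106, 0, 36, 36, 0, -70, 0⟩]⟩,
  ⟨[], [⟨59, 24080, 2, 0, 0, 56, 0, 118, 0⟩, ⟨59, 23450, 2, 0, 116, 56, 0, 2, 0⟩], [⟨119, 8910, -178, 0, 60, 60, 0, -118, 0⟩]⟩,
  ⟨[⟨0, -600, 0, -1, 1, 0, 0, 0, 0⟩], [⟨34, 11130, 2, 1, 30, 0, 68, 0, 0⟩], [⟨68, 4550, -102, 35, 34, 0, -68, 0, 0⟩]⟩,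
  ⟨[⟨0, -270, 0, -1, 1, 0, 0, 0, 0⟩, ⟨0, 300, 0, 1, -1, 0, 0, 0, 0⟩], [⟨10, 2970, 2, 1, 6, 0, 20, 0, 0⟩], [⟨20, 1410, -30, 11, 10, 0, -20, 0, 0⟩]⟩,
  ⟨[⟨0, -300, 0, 0, -1, 1, 0, 0, 0⟩, ⟨0, 400, 0, 0, 1, -1, 0, 0, 0⟩], [⟨23, 6960, 2, 0, 0, 20, 0, 44, 0⟩], [⟨45, 3870, -68, 0, 22, 24, 0, -44, 0⟩, ⟨34, 5354, -33, 0, 11, 22, 0, 0, 0⟩]⟩,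
  ⟨[⟨0, -825, 0, -1, 1, 0, 0, 0, 0⟩, ⟨0, 900, 0, 1, -1, 0, 0, 0, 0⟩], [⟨23, 6770, 2, 0, 20, 0, 44, 0, 0⟩], [⟨45, 3870, -68, 22, 24, 0, -44, 0, 0⟩, ⟨34, 5305, -33, 11, 22, 0, 0, 0, 0⟩]⟩]

def wg14 : List Wn := [
  ⟨[⟨0, -165, 0, -1, 1, 0, 0, 0, 0⟩, ⟨0, 180, 0, 1, -1, 0, 0, 0, 0⟩], [⟨25, 8980, 2, 0, 22, 0, 46, 0, 0⟩], [⟨49, 3240, -74, 26, 24, 0, -46, 0, 0⟩]⟩,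
  ⟨[⟨0, -159, 0, 0, -1, 1, 0, 0, 0⟩], [⟨13, 4750, 2, 0, 0, 10, 0, 24, 0⟩, ⟨13, 3860, 2, 0, 24, 8, 0, 2, 0⟩, ⟨19, 3910, -18, 0, 18, 0, 0, 0, 0⟩], [⟨25, 2620, -38, 0, 12, 14, 0, -24, 0⟩]⟩,
  ⟨[], [⟨11, 4840, 2, 0, 8, 0, 14, 0, 0⟩, ⟨11, 4470, 2, 16, 4, 0, 2, 0, 0⟩], [⟨19, 730, -30, 12, 8, 0, -14, 0, 0⟩]⟩,
  ⟨[⟨0, -1350, 0, -1, 1, 0, 0, 0, 0⟩], [⟨18, 5350, 2, 0, 15, 0, 32, 0, 0⟩], [⟨34, 2890, -52, 18, 17, 0, -32, 0, 0⟩, ⟨26, 4109, -25, 9, 16, 0, 0, 0, 0⟩]⟩,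
  ⟨[⟨0, -470, 0, -1, 1, 0, 0, 0, 0⟩, ⟨0, 530, 0, 1, -1, 0, 0, 0, 0⟩], [⟨18, 5390, 2, 0, 15, 0, 32, 0, 0⟩], [⟨34, 2880, -52, 18, 17, 0, -32, 0, 0⟩, ⟨26, 4117, -25, 9, 16, 0, 0, 0, 0⟩]⟩,
  ⟨[⟨0, -103, 0, -1, 1, 0, 0, 0, 0⟩, ⟨0, 105, 0, 1, -1, 0, 0, 0, 0⟩], [⟨3, 320, 2, 0, 0, 0, 4, 0, 0⟩], [⟨5, 880, -8, 2, 4, 0, -4, 0, 0⟩, ⟨4, 594, -3, 1, 2, 0, 0, 0, 0⟩]⟩,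
  ⟨[⟨0, -300, 0, 0, -1, 1, 0, 0, 0⟩], [⟨5, 660, 2, 0, 0, 2, 0, 10, 0⟩, ⟨8, 1139, -7, 0, 3, 4, 0, 0, 0⟩], [⟨11, 1610, -16, 0, 6, 6, 0, -10, 0⟩]⟩,
  ⟨[⟨0, -92, 0, -1, 1, 0, 0, 0, 0⟩, ⟨0, 99, 0, 1, -1, 0, 0, 0, 0⟩], [⟨14, 4990, 2, 1, 10, 0, 28, 0, 0⟩, ⟨21, 3739, -20, 8, 12, 0, 0, 0, 0⟩], [⟨28, 2470, -42, 15, 14, 0, -28, 0, 0⟩]⟩,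
  ⟨[⟨0, -1350, 0, -1, 1, 0, 0, 0, 0⟩], [⟨5, 610, 2, 0, 2, 0, 10, 0, 0⟩], [⟨11, 1610, -16, 6, 6, 0, -10, 0, 0⟩, ⟨8, 1105, -7, 3, 4, 0, 0, 0, 0⟩]⟩,
  ⟨[⟨0, -103, 0, -1, 1, 0, 0, 0, 0⟩, ⟨0, 105, 0, 1, -1, 0, 0, 0, 0⟩], [⟨34, 12560, 2, 0, 31, 0, 68, 0, 0⟩], [⟨68, 4550, -102, 34, 35, 0, -68, 0, 0⟩]⟩,
  ⟨[⟨0, -900, 0, -1, 1, 0, 0, 0, 0⟩], [⟨26, 8230, 2, 1, 22, 0, 48, 0, 0⟩, ⟨38, 5919, -37, 14, 23, 0, 0, 0, 0⟩], [⟨50, 3580, -76, 27, 24, 0, -48, 0, 0⟩]⟩,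
  ⟨[⟨0, -399, 0, 0, -1, 1, 0, 0, 0⟩], [⟨45, 18270, 2, 0, 0, 42, 0, 86, 0⟩, ⟨45, 17440, 2, 0, 86, 40, 0, 2, 0⟩], [⟨89, 6950, -134, 0, 46, 44, 0, -86, 0⟩]⟩,
  ⟨[], [⟨25, 10900, 2, 0, 0, 22, 0, 46, 0⟩, ⟨25, 10070, 2, 0, 46, 20, 0, 2, 0⟩], [⟨49, 3120, -74, 0, 26, 24, 0, -46, 0⟩]⟩,
  ⟨[⟨0, -200, 0, -1, 1, 0, 0, 0, 0⟩, ⟨0, 220, 0, 1, -1, 0, 0, 0, 0⟩], [⟨7, 2480, 2, 0, 4, 0, 14, 0, 0⟩], [⟨15, 1680, -22, 8, 8, 0, -14, 0, 0⟩]⟩,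
  ⟨[⟨0, -114, 0, -1, 1, 0, 0, 0, 0⟩, ⟨0, 126, 0, 1, -1, 0, 0, 0, 0⟩], [⟨3, 680, 2, 0, 0, 0, 6, 0, 0⟩], [⟨7, 880, -10, 4, 4, 0, -6, 0, 0⟩]⟩,
  ⟨[⟨0, -126, 0, -1, 1, 0, 0, 0, 0⟩, ⟨0, 138, 0, 1, -1, 0, 0, 0, 0⟩], [⟨15, 4480, 2, 0, 12, 0, 28, 0, 0⟩], [⟨29, 2780, -44, 14, 16, 0, -28, 0, 0⟩, ⟨22, 3603, -21, 7, 14, 0, 0, 0, 0⟩]⟩]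

def wg15 : List Wn := [
  ⟨[⟨0, -105, 0, -1, 1, 0, 0, 0, 0⟩, ⟨0, 108, 0, 1, -1, 0, 0, 0, 0⟩], [⟨25, 9310, 2, 0, 22, 0, 46, 0, 0⟩], [⟨49, 3200, -74, 26, 24, 0, -46, 0, 0⟩]⟩,
  ⟨[⟨0, -23, 0, 0, -1, 1, 0, 0, 0⟩, ⟨0, 60, 0, 0, 1, -1, 0, 0, 0⟩], [⟨5, 1070, 2, 0, 4, -2, 0, 2, 0⟩, ⟨6, 1126, -5, 0, 5, 0, 0, 0, 0⟩], [⟨7, 1120, -12, 0, 6, 2, 0, -2, 0⟩]⟩,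
  ⟨[⟨0, -200, 0, 0, -1, 1, 0, 0, 0⟩], [⟨14, 4150, 2, 0, 1, 10, 0, 28, 0⟩], [⟨28, 2270, -42, 0, 15, 14, 0, -28, 0⟩]⟩,
  ⟨[⟨0, -597, 0, -1, 1, 0, 0, 0, 0⟩], [⟨75, 30880, 2, 0, 72, 0, 142, 0, 0⟩, ⟨75, 29850, 2, 144, 68, 0, 2, 0, 0⟩], [⟨147, 10840, -222, 76, 72, 0, -142, 0, 0⟩]⟩,
  ⟨[], [⟨63, 20650, 2, 0, 120, 0, 62, 0, 0⟩, ⟨63, 25390, 2, 124, 56, 0, 2, 0, 0⟩], [⟨123, 8910, -186, 60, 64, 0, -122, 0, 0⟩]⟩,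
  ⟨[⟨0, -165, 0, -1, 1, 0, 0, 0, 0⟩, ⟨0, 180, 0, 1, -1, 0, 0, 0, 0⟩], [⟨17, 4640, 2, 0, 14, 0, 34, 0, 0⟩, ⟨26, 4172, -25, 9, 16, 0, 0, 0, 0⟩], [⟨35, 3690, -52, 18, 18, 0, -34, 0, 0⟩]⟩,
  ⟨[⟨0, -38, 0, -1, 1, 0, 0, 0, 0⟩, ⟨0, 50, 0, 1, -1, 0, 0, 0, 0⟩], [⟨15, 4760, 2, 26, 10, 0, 2, 0, 0⟩], [⟨29, 2170, -44, 16, 14, 0, -26, 0, 0⟩]⟩,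
  ⟨[⟨0, -103, 0, -1, 1, 0, 0, 0, 0⟩, ⟨0, 105, 0, 1, -1, 0, 0, 0, 0⟩], [⟨11, 3040, 2, 0, 8, 0, 10, 0, 0⟩], [⟨17, 1890, -28, 12, 6, 0, -10, 0, 0⟩, ⟨14, 2455, -13, 6, 7, 0, 0, 0, 0⟩]⟩,
  ⟨[⟨0, -270, 0, -1, 1, 0, 0, 0, 0⟩, ⟨0, 300, 0, 1, -1, 0, 0, 0, 0⟩], [⟨7, 1380, 2, 0, 4, 0, 12, 0, 0⟩, ⟨10, 1462, -9, 4, 5, 0, 0, 0, 0⟩], [⟨13, 1540, -20, 8, 6, 0, -12, 0, 0⟩]⟩,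
  ⟨[⟨0, -200, 0, 0, -1, 1, 0, 0, 0⟩], [⟨5, 710, 2, 0, 0, 2, 0, 10, 0⟩, ⟨8, 1164, -7, 0, 3, 4, 0, 0, 0⟩], [⟨11, 1610, -16, 0, 6, 6, 0, -10, 0⟩]⟩,
  ⟨[⟨0, -1200, 0, -1, 1, 0, 0, 0, 0⟩], [⟨5, 610, 2, 0, 2, 0, 10, 0, 0⟩], [⟨11, 1610, -16, 6, 6, 0, -10, 0, 0⟩, ⟨8, 1105, -7, 3, 4, 0, 0, 0, 0⟩]⟩,
  ⟨[⟨0, -750, 0, -1, 1, 0, 0, 0, 0⟩], [⟨26, 8240, 2, 1, 22, 0, 48, 0, 0⟩, ⟨38, 5922, -37, 14, 23, 0, 0, 0, 0⟩], [⟨50, 3580, -76, 27, 24, 0, -48, 0, 0⟩]⟩,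
  ⟨[⟨0, 99, 0, 1, -1, 0, 0, 0, 0⟩], [⟨7, 1890, 2, 0, 4, 0, 12, 0, 0⟩, ⟨7, 1470, 2, 2, 12, 0, 2, 0, 0⟩], [⟨13, 1340, -20, 8, 6, 0, -12, 0, 0⟩]⟩,
  ⟨[⟨0, -1350, 0, -1, 1, 0, 0, 0, 0⟩], [⟨27, 7700, 2, 0, 24, 0, 52, 0, 0⟩], [⟨53, 4830, -80, 26, 28, 0, -52, 0, 0⟩, ⟨40, 6253, -39, 13, 26, 0, 0, 0, 0⟩]⟩,
  ⟨[⟨0, -126, 0, -1, 1, 0, 0, 0, 0⟩, ⟨0, 138, 0, 1, -1, 0, 0, 0, 0⟩], [⟨18, 5490, 2, 0, 15, 0, 36, 0, 0⟩], [⟨36, 3250, -54, 18, 19, 0, -36, 0, 0⟩]⟩,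
  ⟨[⟨0, -200, 0, -1, 1, 0, 0, 0, 0⟩, ⟨0, 220, 0, 1, -1, 0, 0, 0, 0⟩], [⟨8, 1890, 2, 0, 5, 0, 16, 0, 0⟩, ⟨12, 1795, -11, 4, 7, 0, 0, 0, 0⟩], [⟨16, 1690, -24, 8, 9, 0, -16, 0, 0⟩]⟩]

def wg16 : List Wn := [
  ⟨[⟨0, -245, 0, -1, 1, 0, 0, 0, 0⟩, ⟨0, 270, 0, 1, -1, 0, 0, 0, 0⟩], [⟨13, 4030, 2, 0, 10, 0, 22, 0, 0⟩], [⟨25, 2090, -38, 14, 12, 0, -22, 0, 0⟩]⟩,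
  ⟨[⟨0, -93, 0, -1, 1, 0, 0, 0, 0⟩], [⟨7, 3400, 2, 0, 4, 0, 6, 0, 0⟩, ⟨7, 2420, 2, 8, 0, 0, 2, 0, 0⟩], [⟨11, 1400, -18, 8, 4, 0, -6, 0, 0⟩]⟩,
  ⟨[⟨0, -100, 0, 0, -1, 1, 0, 0, 0⟩, ⟨0, 150, 0, 0, 1, -1, 0, 0, 0⟩], [⟨19, 7570, 2, 0, 0, 16, 0, 28, 0⟩], [⟨33, 1520, -52, 0, 18, 16, 0, -28, 0⟩, ⟨26, 4439, -25, 0, 9, 16, 0, 0, 0⟩]⟩,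
  ⟨[⟨0, -114, 0, -1, 1, 0, 0, 0, 0⟩, ⟨0, 126, 0, 1, -1, 0, 0, 0, 0⟩], [⟨11, 3020, 2, 0, 8, 0, 10, 0, 0⟩], [⟨17, 1910, -28, 12, 6, 0, -10, 0, 0⟩, ⟨14, 2442, -13, 6, 7, 0, 0, 0, 0⟩]⟩,
  ⟨[⟨0, -114, 0, -1, 1, 0, 0, 0, 0⟩, ⟨0, 126, 0, 1, -1, 0, 0, 0, 0⟩], [⟨3, 490, 2, 0, 0, 0, 6, 0, 0⟩], [⟨7, 210, -10, 4, 4, 0, -6, 0, 0⟩]⟩,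
  ⟨[⟨0, -99, 0, -1, 1, 0, 0, 0, 0⟩, ⟨0, 101, 0, 1, -1, 0, 0, 0, 0⟩], [⟨21, 6830, 2, 0, 18, 0, 38, 0, 0⟩], [⟨41, 3730, -62, 22, 20, 0, -38, 0, 0⟩]⟩,
  ⟨[⟨0, -400, 0, 0, -1, 1, 0, 0, 0⟩, ⟨0, 500, 0, 0, 1, -1, 0, 0, 0⟩], [⟨19, 5810, 2, 0, 0, 16, 0, 34, 0⟩], [⟨37, 3110, -56, 0, 20, 18, 0, -34, 0⟩, ⟨28, 4425, -27, 0, 10, 17, 0, 0, 0⟩]⟩,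
  ⟨[⟨0, -900, 0, -1, 1, 0, 0, 0, 0⟩, ⟨0, 1050, 0, 1, -1, 0, 0, 0, 0⟩], [⟨19, 5720, 2, 0, 16, 0, 34, 0, 0⟩], [⟨37, 3120, -56, 20, 18, 0, -34, 0, 0⟩, ⟨28, 4413, -27, 10, 17, 0, 0, 0, 0⟩]⟩,
  ⟨[⟨0, -103, 0, -1, 1, 0, 0, 0, 0⟩, ⟨0, 105, 0, 1, -1, 0, 0, 0, 0⟩], [⟨8, 1720, 2, 0, 5, 0, 16, 0, 0⟩, ⟨12, 1710, -11, 4, 7, 0, 0, 0, 0⟩], [⟨16, 1690, -24, 8, 9, 0, -16, 0, 0⟩]⟩,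
  ⟨[⟨0, -105, 0, -1, 1, 0, 0, 0, 0⟩, ⟨0, 108, 0, 1, -1, 0, 0, 0, 0⟩], [⟨17, 4790, 2, 0, 14, 0, 34, 0, 0⟩, ⟨26, 4249, -25, 9, 16, 0, 0, 0, 0⟩], [⟨35, 3690, -52, 18, 18, 0, -34, 0, 0⟩]⟩,
  ⟨[⟨0, -99, 0, -1, 1, 0, 0, 0, 0⟩, ⟨0, 101, 0, 1, -1, 0, 0, 0, 0⟩], [⟨13, 3540, 2, 0, 10, 0, 26, 0, 0⟩, ⟨20, 3039, -19, 7, 12, 0, 0, 0, 0⟩], [⟨27, 2590, -40, 14, 14, 0, -26, 0, 0⟩]⟩,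
  ⟨[⟨0, -108, 0, -1, 1, 0, 0, 0, 0⟩, ⟨0, 114, 0, 1, -1, 0, 0, 0, 0⟩], [⟨43, 14800, 2, 0, 40, 0, 86, 0, 0⟩], [⟨87, 7030, -130, 44, 44, 0, -86, 0, 0⟩]⟩,
  ⟨[⟨0, -165, 0, -1, 1, 0, 0, 0, 0⟩, ⟨0, 180, 0, 1, -1, 0, 0, 0, 0⟩], [⟨17, 4640, 2, 0, 14, 0, 34, 0, 0⟩], [⟨35, 3690, -52, 18, 18, 0, -34, 0, 0⟩, ⟨26, 4134, -25, 9, 16, 0, 0, 0, 0⟩]⟩,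
  ⟨[⟨0, -1050, 0, -1, 1, 0, 0, 0, 0⟩], [⟨18, 5350, 2, 0, 15, 0, 32, 0, 0⟩], [⟨34, 2890, -52, 18, 17, 0, -32, 0, 0⟩, ⟨26, 4109, -25, 9, 16, 0, 0, 0, 0⟩]⟩,
  ⟨[⟨0, -99, 0, -1, 1, 0, 0, 0, 0⟩, ⟨0, 101, 0, 1, -1, 0, 0, 0, 0⟩], [⟨6, 2510, 2, 0, 3, 0, 12, 0, 0⟩], [⟨12, 1220, -18, 6, 7, 0, -12, 0, 0⟩]⟩,
  ⟨[⟨0, -200, 0, -1, 1, 0, 0, 0, 0⟩, ⟨0, 220, 0, 1, -1, 0, 0, 0, 0⟩], [⟨31, 9580, 2, 0, 28, 0, 62, 0, 0⟩], [⟨63, 5570, -94, 32, 32, 0, -62, 0, 0⟩]⟩]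

def wg17 : List Wn := [
  ⟨[⟨0, -114, 0, -1, 1, 0, 0, 0, 0⟩, ⟨0, 126, 0, 1, -1, 0, 0, 0, 0⟩], [⟨37, 13690, 2, 0, 34, 0, 70, 0, 0⟩], [⟨73, 4870, -110, 38, 36, 0, -70, 0, 0⟩]⟩,
  ⟨[⟨0, -1050, 0, -1, 1, 0, 0, 0, 0⟩], [⟨5, 610, 2, 0, 2, 0, 10, 0, 0⟩], [⟨11, 1610, -16, 6, 6, 0, -10, 0, 0⟩, ⟨8, 1105, -7, 3, 4, 0, 0, 0, 0⟩]⟩,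
  ⟨[⟨0, -165, 0, -1, 1, 0, 0, 0, 0⟩, ⟨0, 180, 0, 1, -1, 0, 0, 0, 0⟩], [⟨15, 4370, 2, 0, 12, 0, 28, 0, 0⟩], [⟨29, 2780, -44, 14, 16, 0, -28, 0, 0⟩, ⟨22, 3552, -21, 7, 14, 0, 0, 0, 0⟩]⟩,
  ⟨[⟨0, -270, 0, -1, 1, 0, 0, 0, 0⟩, ⟨0, 300, 0, 1, -1, 0, 0, 0, 0⟩], [⟨3, 230, 2, 0, 0, 0, 4, 0, 0⟩], [⟨5, 880, -8, 2, 4, 0, -4, 0, 0⟩, ⟨4, 548, -3, 1, 2, 0, 0, 0, 0⟩]⟩,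
  ⟨[⟨0, -600, 0, -1, 1, 0, 0, 0, 0⟩], [⟨26, 8260, 2, 1, 22, 0, 48, 0, 0⟩, ⟨38, 5932, -37, 14, 23, 0, 0, 0, 0⟩], [⟨50, 3580, -76, 27, 24, 0, -48, 0, 0⟩]⟩,
  ⟨[⟨0, 99, 0, 1, -1, 0, 0, 0, 0⟩], [⟨7, 1890, 2, 0, 4, 0, 12, 0, 0⟩, ⟨7, 1290, 2, 2, 12, 0, 2, 0, 0⟩], [⟨13, 670, -20, 8, 6, 0, -12, 0, 0⟩]⟩,
  ⟨[⟨0, -1200, 0, -1, 1, 0, 0, 0, 0⟩], [⟨27, 7700, 2, 0, 24, 0, 52, 0, 0⟩], [⟨53, 4830, -80, 26, 28, 0, -52, 0, 0⟩, ⟨40, 6253, -39, 13, 26, 0, 0, 0, 0⟩]⟩,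
  ⟨[⟨0, -201, 0, 0, -1, 1, 0, 0, 0⟩], [⟨45, 18270, 2, 0, 0, 42, 0, 86, 0⟩, ⟨45, 17440, 2, 0, 86, 40, 0, 2, 0⟩], [⟨89, 6900, -134, 0, 46, 44, 0, -86, 0⟩]⟩,
  ⟨[⟨0, -270, 0, -1, 1, 0, 0, 0, 0⟩, ⟨0, 300, 0, 1, -1, 0, 0, 0, 0⟩], [⟨34, 11650, 2, 0, 31, 0, 68, 0, 0⟩], [⟨68, 4550, -102, 34, 35, 0, -68, 0, 0⟩]⟩,
  ⟨[⟨0, 10, 0, 1, -1, 0, 0, 0, 0⟩], [⟨4, 1600, 2, 6, 1, 0, 2, 0, 0⟩], [⟨8, 820, -12, 4, 5, 0, -8, 0, 0⟩]⟩,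
  ⟨[⟨0, -138, 0, -1, 1, 0, 0, 0, 0⟩, ⟨0, 150, 0, 1, -1, 0, 0, 0, 0⟩], [⟨43, 14500, 2, 0, 40, 0, 86, 0, 0⟩], [⟨87, 7030, -130, 44, 44, 0, -86, 0, 0⟩]⟩,
  ⟨[], [⟨7, 3400, 2, 0, 4, 0, 6, 0, 0⟩, ⟨7, 2420, 2, 8, 0, 0, 2, 0, 0⟩], [⟨11, 1250, -18, 8, 4, 0, -6, 0, 0⟩]⟩,
  ⟨[⟨0, -138, 0, -1, 1, 0, 0, 0, 0⟩, ⟨0, 150, 0, 1, -1, 0, 0, 0, 0⟩], [⟨5, 710, 2, 0, 2, 0, 2, 0, 0⟩], [⟨7, 1270, -12, 6, 2, 0, -2, 0, 0⟩, ⟨6, 976, -5, 3, 2, 0, 0, 0, 0⟩]⟩,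
  ⟨[⟨0, -150, 0, 0, -1, 1, 0, 0, 0⟩, ⟨0, 200, 0, 0, 1, -1, 0, 0, 0⟩], [⟨17, 5990, 2, 0, 0, 14, 0, 30, 0⟩], [⟨33, 2260, -50, 0, 18, 16, 0, -30, 0⟩]⟩,
  ⟨[⟨0, -10, 0, -1, 1, 0, 0, 0, 0⟩, ⟨0, 18, 0, 1, -1, 0, 0, 0, 0⟩], [⟨6, 1330, 2, 9, 4, 0, 2, 0, 0⟩, ⟨9, 1288, -8, 8, 5, 0, -5, 0, 0⟩], [⟨12, 1240, -18, 7, 6, 0, -12, 0, 0⟩]⟩,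
  ⟨[⟨0, -99, 0, -1, 1, 0, 0, 0, 0⟩, ⟨0, 101, 0, 1, -1, 0, 0, 0, 0⟩], [⟨14, 4740, 2, 0, 11, 0, 28, 0, 0⟩], [⟨28, 2270, -42, 14, 15, 0, -28, 0, 0⟩]⟩]

def wg18 : List Wn := [
  ⟨[⟨0, -200, 0, -1, 1, 0, 0, 0, 0⟩, ⟨0, 220, 0, 1, -1, 0, 0, 0, 0⟩], [⟨11, 3190, 2, 0, 8, 0, 20, 0, 0⟩], [⟨21, 1910, -32, 10, 12, 0, -20, 0, 0⟩, ⟨16, 2533, -15, 5, 10, 0, 0, 0, 0⟩]⟩,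
  ⟨[⟨0, -165, 0, -1, 1, 0, 0, 0, 0⟩, ⟨0, 180, 0, 1, -1, 0, 0, 0, 0⟩], [⟨18, 5370, 2, 0, 15, 0, 36, 0, 0⟩], [⟨36, 3250, -54, 18, 19, 0, -36, 0, 0⟩]⟩,
  ⟨[⟨0, -270, 0, -1, 1, 0, 0, 0, 0⟩, ⟨0, 300, 0, 1, -1, 0, 0, 0, 0⟩], [⟨7, 1760, 2, 0, 4, 0, 14, 0, 0⟩], [⟨15, 1490, -22, 8, 8, 0, -14, 0, 0⟩]⟩,
  ⟨[⟨0, -150, 0, -1, 1, 0, 0, 0, 0⟩, ⟨0, 165, 0, 1, -1, 0, 0, 0, 0⟩], [⟨11, 2950, 2, 0, 8, 0, 10, 0, 0⟩], [⟨17, 1960, -28, 12, 6, 0, -10, 0, 0⟩, ⟨14, 2435, -13, 6, 7, 0, 0, 0, 0⟩]⟩,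
  ⟨[⟨0, -597, 0, -1, 1, 0, 0, 0, 0⟩], [⟨45, 13750, 2, 0, 86, 0, 44, 0, 0⟩, ⟨45, 16630, 2, 88, 40, 0, 2, 0, 0⟩], [⟨89, 7340, -134, 44, 46, 0, -88, 0, 0⟩]⟩,
  ⟨[⟨0, -105, 0, -1, 1, 0, 0, 0, 0⟩, ⟨0, 108, 0, 1, -1, 0, 0, 0, 0⟩], [⟨15, 4580, 2, 0, 12, 0, 28, 0, 0⟩], [⟨29, 2780, -44, 14, 16, 0, -28, 0, 0⟩, ⟨22, 3659, -21, 7, 14, 0, 0, 0, 0⟩]⟩,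
  ⟨[⟨0, -597, 0, -1, 1, 0, 0, 0, 0⟩], [⟨61, 24680, 2, 0, 58, 0, 120, 0, 0⟩, ⟨61, 23810, 2, 120, 56, 0, 2, 0, 0⟩, ⟨91, 16660, -90, 90, 0, 0, 0, 0, 0⟩], [⟨121, 9150, -182, 60, 62, 0, -120, 0, 0⟩]⟩,
  ⟨[⟨0, -900, 0, -1, 1, 0, 0, 0, 0⟩], [⟨5, 610, 2, 0, 2, 0, 10, 0, 0⟩], [⟨11, 1610, -16, 6, 6, 0, -10, 0, 0⟩, ⟨8, 1105, -7, 3, 4, 0, 0, 0, 0⟩]⟩,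
  ⟨[⟨0, -500, 0, 0, -1, 1, 0, 0, 0⟩], [⟨26, 8290, 2, 0, 1, 22, 0, 48, 0⟩, ⟨38, 5948, -37, 0, 14, 23, 0, 0, 0⟩], [⟨50, 3570, -76, 0, 27, 24, 0, -48, 0⟩]⟩,
  ⟨[⟨0, -450, 0, -1, 1, 0, 0, 0, 0⟩], [⟨26, 8320, 2, 1, 22, 0, 48, 0, 0⟩, ⟨38, 5960, -37, 14, 23, 0, 0, 0, 0⟩], [⟨50, 3570, -76, 27, 24, 0, -48, 0, 0⟩]⟩,
  ⟨[⟨0, -23, 0, 0, -1, 1, 0, 0, 0⟩, ⟨0, 60, 0, 0, 1, -1, 0, 0, 0⟩], [⟨39, 11950, 2, 0, 76, 36, 0, 2, 0⟩], [⟨79, 7420, -118, 0, 40, 40, 0, -78, 0⟩]⟩,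
  ⟨[⟨0, -159, 0, 0, -1, 1, 0, 0, 0⟩], [⟨45, 18270, 2, 0, 0, 42, 0, 86, 0⟩, ⟨45, 17440, 2, 0, 86, 40, 0, 2, 0⟩], [⟨89, 6880, -134, 0, 46, 44, 0, -86, 0⟩]⟩,
  ⟨[⟨0, -245, 0, -1, 1, 0, 0, 0, 0⟩, ⟨0, 270, 0, 1, -1, 0, 0, 0, 0⟩], [⟨14, 4430, 2, 0, 11, 0, 24, 0, 0⟩], [⟨26, 2020, -40, 14, 13, 0, -24, 0, 0⟩, ⟨20, 3202, -19, 7, 12, 0, 0, 0, 0⟩]⟩,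
  ⟨[⟨0, -245, 0, -1, 1, 0, 0, 0, 0⟩, ⟨0, 270, 0, 1, -1, 0, 0, 0, 0⟩], [⟨6, 1280, 2, 1, 2, 0, 8, 0, 0⟩, ⟨8, 1177, -7, 4, 3, 0, 0, 0, 0⟩], [⟨10, 1060, -16, 7, 4, 0, -8, 0, 0⟩]⟩,
  ⟨[⟨0, 10, 0, 1, -1, 0, 0, 0, 0⟩], [⟨25, 7510, 2, 48, 22, 0, 2, 0, 0⟩], [⟨51, 4320, -76, 26, 26, 0, -50, 0, 0⟩]⟩,
  ⟨[⟨0, -92, 0, -1, 1, 0, 0, 0, 0⟩, ⟨0, 99, 0, 1, -1, 0, 0, 0, 0⟩], [⟨17, 6450, 2, 0, 14, 0, 30, 0, 0⟩], [⟨33, 2230, -50, 18, 16, 0, -30, 0, 0⟩]⟩]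

def wg19 : List Wn := [
  ⟨[⟨0, -114, 0, -1, 1, 0, 0, 0, 0⟩, ⟨0, 126, 0, 1, -1, 0, 0, 0, 0⟩], [⟨4, 660, 2, 0, 1, 0, 8, 0, 0⟩, ⟨6, 749, -5, 2, 3, 0, 0, 0, 0⟩], [⟨8, 830, -12, 4, 5, 0, -8, 0, 0⟩]⟩,
  ⟨[], [⟨67, 25660, 2, 0, 0, 64, 0, 134, 0⟩, ⟨67, 25020, 2, 0, 132, 64, 0, 2, 0⟩], [⟨135, 11740, -202, 0, 68, 68, 0, -134, 0⟩]⟩,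
  ⟨[⟨0, -150, 0, -1, 1, 0, 0, 0, 0⟩, ⟨0, 165, 0, 1, -1, 0, 0, 0, 0⟩], [⟨37, 13410, 2, 0, 34, 0, 70, 0, 0⟩], [⟨73, 4890, -110, 38, 36, 0, -70, 0, 0⟩]⟩,
  ⟨[⟨0, -159, 0, 0, -1, 1, 0, 0, 0⟩], [⟨61, 28040, 2, 0, 0, 58, 0, 110, 0⟩, ⟨61, 26820, 2, 0, 114, 52, 0, 2, 0⟩], [⟨117, 5680, -178, 0, 62, 56, 0, -110, 0⟩]⟩,
  ⟨[⟨0, -105, 0, -1, 1, 0, 0, 0, 0⟩, ⟨0, 108, 0, 1, -1, 0, 0, 0, 0⟩], [⟨18, 5660, 2, 0, 15, 0, 36, 0, 0⟩], [⟨36, 3250, -54, 18, 19, 0, -36, 0, 0⟩]⟩,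
  ⟨[⟨0, -1350, 0, -1, 1, 0, 0, 0, 0⟩], [⟨15, 4240, 2, 0, 12, 0, 30, 0, 0⟩], [⟨31, 2710, -46, 16, 16, 0, -30, 0, 0⟩]⟩,
  ⟨[⟨0, -108, 0, -1, 1, 0, 0, 0, 0⟩, ⟨0, 114, 0, 1, -1, 0, 0, 0, 0⟩], [⟨5, 720, 2, 0, 2, 0, 2, 0, 0⟩], [⟨7, 1240, -12, 6, 2, 0, -2, 0, 0⟩, ⟨6, 972, -5, 3, 2, 0, 0, 0, 0⟩]⟩,
  ⟨[], [⟨7, 2090, 2, 0, 0, 4, 0, 6, 0⟩, ⟨7, 1740, 2, 0, 8, 0, 0, 2, 0⟩], [⟨11, 400, -18, 0, 8, 4, 0, -6, 0⟩]⟩,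
  ⟨[], [⟨15, 4270, 2, 0, 0, 28, 0, 14, 0⟩, ⟨15, 6030, 2, 0, 28, 12, 0, 2, 0⟩], [⟨31, 2710, -46, 0, 16, 16, 0, -30, 0⟩]⟩,
  ⟨[], [⟨3, 210, 2, 0, 0, 0, 2, 0, 0⟩, ⟨3, 870, 2, 2, -2, 0, 2, 0, 0⟩, ⟨4, 710, -3, 2, 1, 0, 0, 0, 0⟩], [⟨5, 980, -8, 4, 2, 0, -2, 0, 0⟩]⟩,
  ⟨[⟨0, -1350, 0, -1, 1, 0, 0, 0, 0⟩], [⟨23, 8340, 2, 0, 20, 0, 38, 0, 0⟩], [⟨43, 2380, -66, 24, 20, 0, -38, 0, 0⟩]⟩,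
  ⟨[⟨0, -800, 0, 0, -1, 1, 0, 0, 0⟩], [⟨5, 610, 2, 0, 0, 2, 0, 10, 0⟩], [⟨11, 1610, -16, 0, 6, 6, 0, -10, 0⟩, ⟨8, 1105, -7, 0, 3, 4, 0, 0, 0⟩]⟩,
  ⟨[⟨0, -750, 0, -1, 1, 0, 0, 0, 0⟩], [⟨5, 610, 2, 0, 2, 0, 10, 0, 0⟩], [⟨11, 1610, -16, 6, 6, 0, -10, 0, 0⟩, ⟨8, 1105, -7, 3, 4, 0, 0, 0, 0⟩]⟩,
  ⟨[⟨0, -150, 0, -1, 1, 0, 0, 0, 0⟩, ⟨0, 165, 0, 1, -1, 0, 0, 0, 0⟩], [⟨4, 750, 2, 0, 1, 0, 8, 0, 0⟩, ⟨6, 793, -5, 2, 3, 0, 0, 0, 0⟩], [⟨8, 830, -12, 4, 5, 0, -8, 0, 0⟩]⟩,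
  ⟨[⟨0, -400, 0, 0, -1, 1, 0, 0, 0⟩], [⟨26, 8350, 2, 0, 1, 22, 0, 48, 0⟩, ⟨38, 5979, -37, 0, 14, 23, 0, 0, 0⟩], [⟨50, 3560, -76, 0, 27, 24, 0, -48, 0⟩]⟩,
  ⟨[⟨0, -300, 0, -1, 1, 0, 0, 0, 0⟩], [⟨26, 8480, 2, 1, 22, 0, 48, 0, 0⟩, ⟨38, 6041, -37, 14, 23, 0, 0, 0, 0⟩], [⟨50, 3550, -76, 27, 24, 0, -48, 0, 0⟩]⟩]

def wg20 : List Wn := [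
  ⟨[⟨0, 99, 0, 1, -1, 0, 0, 0, 0⟩], [⟨7, 1890, 2, 0, 4, 0, 12, 0, 0⟩, ⟨7, 2090, 2, 10, 4, 0, 2, 0, 0⟩], [⟨13, 1340, -20, 8, 6, 0, -12, 0, 0⟩]⟩,
  ⟨[⟨0, -750, 0, -1, 1, 0, 0, 0, 0⟩, ⟨0, 825, 0, 1, -1, 0, 0, 0, 0⟩], [⟨9, 1970, 2, 0, 6, 0, 18, 0, 0⟩], [⟨19, 2140, -28, 10, 10, 0, -18, 0, 0⟩, ⟨14, 2050, -13, 5, 8, 0, 0, 0, 0⟩]⟩,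
  ⟨[⟨0, -220, 0, -1, 1, 0, 0, 0, 0⟩, ⟨0, 245, 0, 1, -1, 0, 0, 0, 0⟩], [⟨25, 8790, 2, 0, 22, 0, 46, 0, 0⟩], [⟨49, 3260, -74, 26, 24, 0, -46, 0, 0⟩]⟩,
  ⟨[⟨0, -133, 0, 0, -1, 1, 0, 0, 0⟩], [⟨45, 18270, 2, 0, 0, 42, 0, 86, 0⟩, ⟨45, 17440, 2, 0, 86, 40, 0, 2, 0⟩], [⟨89, 6870, -134, 0, 46, 44, 0, -86, 0⟩]⟩,
  ⟨[⟨0, -200, 0, 0, -1, 1, 0, 0, 0⟩], [⟨21, 5890, 2, 0, 0, 18, 0, 42, 0⟩], [⟨43, 4330, -64, 0, 22, 22, 0, -42, 0⟩, ⟨32, 4893, -31, 0, 11, 20, 0, 0, 0⟩]⟩,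
  ⟨[⟨0, -103, 0, -1, 1, 0, 0, 0, 0⟩, ⟨0, 105, 0, 1, -1, 0, 0, 0, 0⟩], [⟨31, 10250, 2, 0, 28, 0, 62, 0, 0⟩], [⟨63, 5570, -94, 32, 32, 0, -62, 0, 0⟩]⟩,
  ⟨[⟨0, -675, 0, -1, 1, 0, 0, 0, 0⟩, ⟨0, 750, 0, 1, -1, 0, 0, 0, 0⟩], [⟨18, 5360, 2, 0, 15, 0, 32, 0, 0⟩], [⟨34, 2890, -52, 18, 17, 0, -32, 0, 0⟩, ⟨26, 4110, -25, 9, 16, 0, 0, 0, 0⟩]⟩,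
  ⟨[⟨0, 10, 0, 1, -1, 0, 0, 0, 0⟩], [⟨26, 7820, 2, 50, 23, 0, 2, 0, 0⟩], [⟨52, 4320, -78, 26, 27, 0, -52, 0, 0⟩]⟩,
  ⟨[⟨0, -60, 0, 0, -1, 1, 0, 0, 0⟩, ⟨0, 100, 0, 0, 1, -1, 0, 0, 0⟩], [⟨11, 3730, 2, 0, 20, 6, 0, 2, 0⟩], [⟨21, 1910, -32, 0, 10, 12, 0, -20, 0⟩, ⟨16, 2484, -15, 0, 15, 9, 0, -9, 0⟩]⟩,
  ⟨[⟨0, -1200, 0, -1, 1, 0, 0, 0, 0⟩], [⟨15, 4240, 2, 0, 12, 0, 30, 0, 0⟩], [⟨31, 2710, -46, 16, 16, 0, -30, 0, 0⟩]⟩,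
  ⟨[], [⟨71, 22420, 2, 0, 136, 0, 70, 0, 0⟩, ⟨71, 27770, 2, 140, 64, 0, 2, 0, 0⟩], [⟨139, 10950, -210, 68, 72, 0, -138, 0, 0⟩]⟩,
  ⟨[⟨0, -180, 0, -1, 1, 0, 0, 0, 0⟩, ⟨0, 200, 0, 1, -1, 0, 0, 0, 0⟩], [⟨43, 14170, 2, 0, 40, 0, 86, 0, 0⟩], [⟨87, 7030, -130, 44, 44, 0, -86, 0, 0⟩]⟩,
  ⟨[⟨0, -180, 0, -1, 1, 0, 0, 0, 0⟩, ⟨0, 200, 0, 1, -1, 0, 0, 0, 0⟩], [⟨5, 680, 2, 0, 2, 0, 2, 0, 0⟩], [⟨7, 1300, -12, 6, 2, 0, -2, 0, 0⟩, ⟨6, 981, -5, 3, 2, 0, 0, 0, 0⟩]⟩,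
  ⟨[⟨0, -126, 0, -1, 1, 0, 0, 0, 0⟩, ⟨0, 138, 0, 1, -1, 0, 0, 0, 0⟩], [⟨5, 720, 2, 0, 2, 0, 10, 0, 0⟩, ⟨8, 1168, -7, 3, 4, 0, 0, 0, 0⟩], [⟨11, 1610, -16, 6, 6, 0, -10, 0, 0⟩]⟩,
  ⟨[⟨0, -10, 0, -1, 1, 0, 0, 0, 0⟩, ⟨0, 18, 0, 1, -1, 0, 0, 0, 0⟩], [⟨17, 5510, 2, 30, 12, 0, 2, 0, 0⟩], [⟨33, 2160, -50, 18, 16, 0, -30, 0, 0⟩]⟩,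
  ⟨[⟨0, -600, 0, 0, -1, 1, 0, 0, 0⟩], [⟨5, 610, 2, 0, 0, 2, 0, 10, 0⟩], [⟨11, 1610, -16, 0, 6, 6, 0, -10, 0⟩, ⟨8, 1105, -7, 0, 3, 4, 0, 0, 0⟩]⟩]

def wg21 : List Wn := [
  ⟨[⟨0, -600, 0, -1, 1, 0, 0, 0, 0⟩], [⟨5, 610, 2, 0, 2, 0, 10, 0, 0⟩], [⟨11, 1610, -16, 6, 6, 0, -10, 0, 0⟩, ⟨8, 1105, -7, 3, 4, 0, 0, 0, 0⟩]⟩,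
  ⟨[⟨0, -300, 0, 0, -1, 1, 0, 0, 0⟩], [⟨26, 8480, 2, 0, 1, 22, 0, 48, 0⟩, ⟨38, 6041, -37, 0, 14, 23, 0, 0, 0⟩], [⟨50, 3550, -76, 0, 27, 24, 0, -48, 0⟩]⟩,
  ⟨[⟨0, 73, 0, 1, -1, 0, 0, 0, 0⟩], [⟨23, 9270, 2, 0, 20, 0, 42, 0, 0⟩, ⟨23, 9270, 2, 42, 18, 0, 2, 0, 0⟩], [⟨45, 2780, -68, 24, 22, 0, -42, 0, 0⟩]⟩,
  ⟨[⟨0, -114, 0, -1, 1, 0, 0, 0, 0⟩, ⟨0, 126, 0, 1, -1, 0, 0, 0, 0⟩], [⟨30, 9770, 2, 0, 27, 0, 60, 0, 0⟩], [⟨60, 5130, -90, 30, 31, 0, -60, 0, 0⟩]⟩,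
  ⟨[⟨0, -18, 0, -1, 1, 0, 0, 0, 0⟩, ⟨0, 27, 0, 1, -1, 0, 0, 0, 0⟩], [⟨35, 10710, 2, 68, 32, 0, 2, 0, 0⟩], [⟨71, 6210, -106, 36, 36, 0, -70, 0, 0⟩]⟩,
  ⟨[⟨0, -597, 0, -1, 1, 0, 0, 0, 0⟩], [⟨47, 17110, 2, 0, 88, 0, 42, 0, 0⟩, ⟨47, 20830, 2, 88, 40, 0, 2, 0, 0⟩], [⟨91, 5060, -138, 48, 44, 0, -86, 0, 0⟩]⟩,
  ⟨[⟨0, -93, 0, 0, -1, 1, 0, 0, 0⟩], [⟨45, 18270, 2, 0, 0, 42, 0, 86, 0⟩, ⟨45, 17440, 2, 0, 86, 40, 0, 2, 0⟩], [⟨89, 6840, -134, 0, 46, 44, 0, -86, 0⟩]⟩,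
  ⟨[⟨0, 10, 0, 1, -1, 0, 0, 0, 0⟩], [⟨4, 750, 2, 5, 2, 0, 2, 0, 0⟩, ⟨6, 793, -5, 5, 3, 0, -3, 0, 0⟩], [⟨8, 830, -12, 5, 4, 0, -8, 0, 0⟩]⟩,
  ⟨[⟨0, -300, 0, -1, 1, 0, 0, 0, 0⟩], [⟨5, 1820, 2, 0, 2, 0, 8, 0, 0⟩], [⟨9, 1110, -14, 4, 6, 0, -8, 0, 0⟩]⟩,
  ⟨[⟨0, -220, 0, -1, 1, 0, 0, 0, 0⟩, ⟨0, 245, 0, 1, -1, 0, 0, 0, 0⟩], [⟨17, 4500, 2, 0, 14, 0, 34, 0, 0⟩, ⟨26, 4105, -25, 9, 16, 0, 0, 0, 0⟩], [⟨35, 3690, -52, 18, 18, 0, -34, 0, 0⟩]⟩,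
  ⟨[⟨0, -126, 0, -1, 1, 0, 0, 0, 0⟩, ⟨0, 138, 0, 1, -1, 0, 0, 0, 0⟩], [⟨15, 4740, 2, 0, 12, 0, 30, 0, 0⟩], [⟨31, 2710, -46, 16, 16, 0, -30, 0, 0⟩]⟩,
  ⟨[⟨0, -50, 0, -1, 1, 0, 0, 0, 0⟩, ⟨0, 66, 0, 1, -1, 0, 0, 0, 0⟩], [⟨29, 8440, 2, 56, 26, 0, 2, 0, 0⟩], [⟨59, 5990, -88, 30, 30, 0, -58, 0, 0⟩]⟩,
  ⟨[⟨0, -1050, 0, -1, 1, 0, 0, 0, 0⟩], [⟨15, 4240, 2, 0, 12, 0, 30, 0, 0⟩], [⟨31, 2710, -46, 16, 16, 0, -30, 0, 0⟩]⟩,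
  ⟨[⟨0, -450, 0, -1, 1, 0, 0, 0, 0⟩], [⟨18, 5400, 2, 0, 15, 0, 32, 0, 0⟩], [⟨34, 2880, -52, 18, 17, 0, -32, 0, 0⟩, ⟨26, 4102, -25, 9, 16, 0, 0, 0, 0⟩]⟩,
  ⟨[⟨0, -270, 0, -1, 1, 0, 0, 0, 0⟩, ⟨0, 300, 0, 1, -1, 0, 0, 0, 0⟩], [⟨8, 1850, 2, 0, 5, 0, 16, 0, 0⟩, ⟨12, 1772, -11, 4, 7, 0, 0, 0, 0⟩], [⟨16, 1690, -24, 8, 9, 0, -16, 0, 0⟩]⟩,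
  ⟨[⟨0, -126, 0, -1, 1, 0, 0, 0, 0⟩, ⟨0, 138, 0, 1, -1, 0, 0, 0, 0⟩], [⟨5, 720, 2, 0, 2, 0, 10, 0, 0⟩], [⟨11, 1610, -16, 6, 6, 0, -10, 0, 0⟩, ⟨8, 1119, -7, 3, 4, 0, 0, 0, 0⟩]⟩]

def wg22 : List Wn := [
  ⟨[⟨0, -101, 0, -1, 1, 0, 0, 0, 0⟩, ⟨0, 103, 0, 1, -1, 0, 0, 0, 0⟩], [⟨10, 3110, 2, 0, 7, 0, 18, 0, 0⟩], [⟨18, 1470, -28, 8, 11, 0, -18, 0, 0⟩, ⟨14, 2281, -13, 4, 9, 0, 0, 0, 0⟩]⟩,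
  ⟨[⟨0, -500, 0, 0, -1, 1, 0, 0, 0⟩], [⟨5, 620, 2, 0, 0, 2, 0, 10, 0⟩], [⟨11, 1610, -16, 0, 6, 6, 0, -10, 0⟩, ⟨8, 1105, -7, 0, 3, 4, 0, 0, 0⟩]⟩,
  ⟨[⟨0, -450, 0, -1, 1, 0, 0, 0, 0⟩], [⟨5, 630, 2, 0, 2, 0, 10, 0, 0⟩], [⟨11, 1610, -16, 6, 6, 0, -10, 0, 0⟩, ⟨8, 1105, -7, 3, 4, 0, 0, 0, 0⟩]⟩,
  ⟨[⟨0, -126, 0, -1, 1, 0, 0, 0, 0⟩, ⟨0, 138, 0, 1, -1, 0, 0, 0, 0⟩], [⟨11, 3930, 2, 0, 8, 0, 18, 0, 0⟩], [⟨21, 1350, -32, 12, 10, 0, -18, 0, 0⟩, ⟨16, 2614, -15, 6, 9, 0, 0, 0, 0⟩]⟩,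
  ⟨[⟨0, -200, 0, 0, -1, 1, 0, 0, 0⟩], [⟨26, 8730, 2, 0, 1, 22, 0, 48, 0⟩, ⟨38, 6167, -37, 0, 14, 23, 0, 0, 0⟩], [⟨50, 3520, -76, 0, 27, 24, 0, -48, 0⟩]⟩,
  ⟨[⟨0, 99, 0, 1, -1, 0, 0, 0, 0⟩], [⟨7, 1890, 2, 0, 4, 0, 12, 0, 0⟩, ⟨7, 2750, 2, 10, 4, 0, 2, 0, 0⟩], [⟨13, 1520, -20, 8, 6, 0, -12, 0, 0⟩]⟩,
  ⟨[], [⟨45, 18270, 2, 0, 0, 42, 0, 86, 0⟩, ⟨45, 17440, 2, 0, 86, 40, 0, 2, 0⟩], [⟨89, 6770, -134, 0, 46, 44, 0, -86, 0⟩]⟩,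
  ⟨[⟨0, -165, 0, -1, 1, 0, 0, 0, 0⟩, ⟨0, 180, 0, 1, -1, 0, 0, 0, 0⟩], [⟨5, 730, 2, 0, 2, 0, 10, 0, 0⟩, ⟨8, 1172, -7, 3, 4, 0, 0, 0, 0⟩], [⟨11, 1610, -16, 6, 6, 0, -10, 0, 0⟩]⟩,
  ⟨[⟨0, -270, 0, -1, 1, 0, 0, 0, 0⟩, ⟨0, 300, 0, 1, -1, 0, 0, 0, 0⟩], [⟨31, 9350, 2, 0, 28, 0, 62, 0, 0⟩], [⟨63, 5570, -94, 32, 32, 0, -62, 0, 0⟩]⟩,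
  ⟨[⟨0, -23, 0, 0, -1, 1, 0, 0, 0⟩, ⟨0, 60, 0, 0, 1, -1, 0, 0, 0⟩], [⟨13, 4030, 2, 0, 22, 8, 0, 2, 0⟩], [⟨25, 1960, -38, 0, 14, 12, 0, -22, 0⟩]⟩,
  ⟨[⟨0, -600, 0, -1, 1, 0, 0, 0, 0⟩], [⟨18, 4880, 2, 1, 14, 0, 34, 0, 0⟩, ⟨26, 3874, -25, 10, 15, 0, 0, 0, 0⟩], [⟨34, 2860, -52, 19, 16, 0, -34, 0, 0⟩]⟩,
  ⟨[⟨0, -105, 0, -1, 1, 0, 0, 0, 0⟩, ⟨0, 108, 0, 1, -1, 0, 0, 0, 0⟩], [⟨11, 3950, 2, 0, 8, 0, 18, 0, 0⟩], [⟨21, 1340, -32, 12, 10, 0, -18, 0, 0⟩, ⟨16, 2619, -15, 6, 9, 0, 0, 0, 0⟩]⟩,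
  ⟨[⟨0, -1350, 0, -1, 1, 0, 0, 0, 0⟩], [⟨35, 10260, 2, 0, 32, 0, 70, 0, 0⟩], [⟨71, 6210, -106, 36, 36, 0, -70, 0, 0⟩]⟩,
  ⟨[⟨0, -200, 0, -1, 1, 0, 0, 0, 0⟩, ⟨0, 220, 0, 1, -1, 0, 0, 0, 0⟩], [⟨4, 760, 2, 0, 1, 0, 8, 0, 0⟩, ⟨6, 798, -5, 2, 3, 0, 0, 0, 0⟩], [⟨8, 830, -12, 4, 5, 0, -8, 0, 0⟩]⟩,
  ⟨[⟨0, -220, 0, -1, 1, 0, 0, 0, 0⟩, ⟨0, 245, 0, 1, -1, 0, 0, 0, 0⟩], [⟨15, 4270, 2, 0, 12, 0, 28, 0, 0⟩], [⟨29, 2780, -44, 14, 16, 0, -28, 0, 0⟩, ⟨22, 3498, -21, 7, 14, 0, 0, 0, 0⟩]⟩,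
  ⟨[⟨0, -825, 0, -1, 1, 0, 0, 0, 0⟩, ⟨0, 900, 0, 1, -1, 0, 0, 0, 0⟩], [⟨10, 2910, 2, 0, 7, 0, 16, 0, 0⟩], [⟨18, 1540, -28, 10, 9, 0, -16, 0, 0⟩, ⟨14, 2219, -13, 5, 8, 0, 0, 0, 0⟩]⟩]

def wg23 : List Wn := [
  ⟨[⟨0, -114, 0, -1, 1, 0, 0, 0, 0⟩, ⟨0, 126, 0, 1, -1, 0, 0, 0, 0⟩], [⟨11, 2780, 2, 0, 8, 0, 22, 0, 0⟩], [⟨23, 2730, -34, 12, 12, 0, -22, 0, 0⟩]⟩,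
  ⟨[⟨0, -150, 0, -1, 1, 0, 0, 0, 0⟩, ⟨0, 165, 0, 1, -1, 0, 0, 0, 0⟩], [⟨30, 9550, 2, 0, 27, 0, 60, 0, 0⟩], [⟨60, 5130, -90, 30, 31, 0, -60, 0, 0⟩]⟩,
  ⟨[⟨0, -900, 0, -1, 1, 0, 0, 0, 0⟩], [⟨15, 4250, 2, 0, 12, 0, 30, 0, 0⟩], [⟨31, 2710, -46, 16, 16, 0, -30, 0, 0⟩]⟩,
  ⟨[⟨0, -420, 0, -1, 1, 0, 0, 0, 0⟩, ⟨0, 470, 0, 1, -1, 0, 0, 0, 0⟩], [⟨7, 1930, 2, 0, 4, 0, 10, 0, 0⟩, ⟨10, 1576, -9, 4, 5, 0, 0, 0, 0⟩], [⟨13, 1210, -20, 8, 6, 0, -10, 0, 0⟩]⟩,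
  ⟨[], [⟨15, 6030, 2, 0, 0, 12, 0, 30, 0⟩, ⟨15, 5400, 2, 0, 28, 12, 0, 2, 0⟩], [⟨31, 2710, -46, 0, 16, 16, 0, -30, 0⟩]⟩,
  ⟨[⟨0, -103, 0, -1, 1, 0, 0, 0, 0⟩, ⟨0, 105, 0, 1, -1, 0, 0, 0, 0⟩], [⟨3, 710, 2, 0, 0, 0, 6, 0, 0⟩], [⟨7, 880, -10, 4, 4, 0, -6, 0, 0⟩]⟩,
  ⟨[⟨0, -300, 0, -1, 1, 0, 0, 0, 0⟩], [⟨5, 660, 2, 0, 2, 0, 10, 0, 0⟩], [⟨11, 1610, -16, 6, 6, 0, -10, 0, 0⟩, ⟨8, 1105, -7, 3, 4, 0, 0, 0, 0⟩]⟩,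
  ⟨[⟨0, -165, 0, -1, 1, 0, 0, 0, 0⟩, ⟨0, 180, 0, 1, -1, 0, 0, 0, 0⟩], [⟨15, 4620, 2, 0, 12, 0, 30, 0, 0⟩], [⟨31, 2710, -46, 16, 16, 0, -30, 0, 0⟩]⟩,
  ⟨[⟨0, -597, 0, -1, 1, 0, 0, 0, 0⟩], [⟨69, 26330, 2, 0, 66, 0, 136, 0, 0⟩, ⟨69, 25460, 2, 136, 64, 0, 2, 0, 0⟩, ⟨103, 18890, -102, 102, 0, 0, 0, 0, 0⟩], [⟨137, 11910, -206, 68, 70, 0, -136, 0, 0⟩]⟩,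
  ⟨[⟨0, -200, 0, -1, 1, 0, 0, 0, 0⟩, ⟨0, 220, 0, 1, -1, 0, 0, 0, 0⟩], [⟨37, 13120, 2, 0, 34, 0, 70, 0, 0⟩], [⟨73, 4910, -110, 38, 36, 0, -70, 0, 0⟩]⟩,
  ⟨[⟨0, -100, 0, 0, -1, 1, 0, 0, 0⟩, ⟨0, 150, 0, 0, 1, -1, 0, 0, 0⟩], [⟨37, 14040, 2, 0, 0, 34, 0, 70, 0⟩], [⟨73, 4860, -110, 0, 38, 36, 0, -70, 0⟩]⟩,
  ⟨[], [⟨7, 1700, 2, 0, 12, 0, 6, 0, 0⟩, ⟨7, 2850, 2, 12, 4, 0, 2, 0, 0⟩], [⟨15, 1490, -22, 8, 8, 0, -14, 0, 0⟩]⟩,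
  ⟨[⟨0, -301, 0, -1, 1, 0, 0, 0, 0⟩], [⟨47, 17110, 2, 0, 88, 0, 42, 0, 0⟩, ⟨47, 20830, 2, 88, 40, 0, 2, 0, 0⟩], [⟨91, 5010, -138, 48, 44, 0, -86, 0, 0⟩]⟩,
  ⟨[⟨0, -270, 0, -1, 1, 0, 0, 0, 0⟩, ⟨0, 300, 0, 1, -1, 0, 0, 0, 0⟩], [⟨11, 3120, 2, 0, 8, 0, 20, 0, 0⟩], [⟨21, 1910, -32, 10, 12, 0, -20, 0, 0⟩, ⟨16, 2499, -15, 5, 10, 0, 0, 0, 0⟩]⟩,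
  ⟨[⟨0, -245, 0, -1, 1, 0, 0, 0, 0⟩, ⟨0, 270, 0, 1, -1, 0, 0, 0, 0⟩], [⟨14, 4270, 2, 1, 10, 0, 24, 0, 0⟩, ⟨20, 3138, -19, 8, 11, 0, 0, 0, 0⟩], [⟨26, 1980, -40, 15, 12, 0, -24, 0, 0⟩]⟩,
  ⟨[⟨0, -220, 0, -1, 1, 0, 0, 0, 0⟩, ⟨0, 245, 0, 1, -1, 0, 0, 0, 0⟩], [⟨18, 5240, 2, 0, 15, 0, 36, 0, 0⟩], [⟨36, 3250, -54, 18, 19, 0, -36, 0, 0⟩]⟩]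

def wg24 : List Wn := [
  ⟨[⟨0, -165, 0, -1, 1, 0, 0, 0, 0⟩, ⟨0, 180, 0, 1, -1, 0, 0, 0, 0⟩], [⟨5, 730, 2, 0, 2, 0, 10, 0, 0⟩], [⟨11, 1610, -16, 6, 6, 0, -10, 0, 0⟩, ⟨8, 1152, -7, 3, 4, 0, 0, 0, 0⟩]⟩,
  ⟨[], [⟨5, 410, 2, 0, 6, 0, 0, 0, 0⟩, ⟨5, 1470, 2, 4, 0, 0, 2, 0, 0⟩, ⟨6, 1070, -5, 3, 2, 0, 0, 0, 0⟩], [⟨7, 1050, -12, 6, 2, 0, -4, 0, 0⟩]⟩,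
  ⟨[⟨0, -450, 0, -1, 1, 0, 0, 0, 0⟩], [⟨18, 4920, 2, 1, 14, 0, 34, 0, 0⟩, ⟨26, 3896, -25, 10, 15, 0, 0, 0, 0⟩], [⟨34, 2860, -52, 19, 16, 0, -34, 0, 0⟩]⟩,
  ⟨[⟨0, -400, 0, 0, -1, 1, 0, 0, 0⟩, ⟨0, 500, 0, 0, 1, -1, 0, 0, 0⟩], [⟨5, 740, 2, 0, 0, 2, 0, 4, 0⟩], [⟨7, 1360, -12, 0, 4, 4, 0, -4, 0⟩, ⟨6, 1041, -5, 0, 2, 3, 0, 0, 0⟩]⟩,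
  ⟨[⟨0, -1200, 0, -1, 1, 0, 0, 0, 0⟩], [⟨35, 10260, 2, 0, 32, 0, 70, 0, 0⟩], [⟨71, 6210, -106, 36, 36, 0, -70, 0, 0⟩]⟩,
  ⟨[⟨0, -200, 0, -1, 1, 0, 0, 0, 0⟩, ⟨0, 220, 0, 1, -1, 0, 0, 0, 0⟩], [⟨4, 760, 2, 0, 1, 0, 8, 0, 0⟩], [⟨8, 830, -12, 4, 5, 0, -8, 0, 0⟩, ⟨6, 786, -5, 2, 3, 0, 0, 0, 0⟩]⟩,
  ⟨[], [⟨75, 29260, 2, 0, 0, 72, 0, 150, 0⟩, ⟨75, 28620, 2, 0, 148, 72, 0, 2, 0⟩], [⟨151, 12550, -226, 0, 76, 76, 0, -150, 0⟩]⟩,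
  ⟨[⟨0, -165, 0, -1, 1, 0, 0, 0, 0⟩, ⟨0, 180, 0, 1, -1, 0, 0, 0, 0⟩], [⟨11, 3850, 2, 0, 8, 0, 18, 0, 0⟩], [⟨21, 1370, -32, 12, 10, 0, -18, 0, 0⟩, ⟨16, 2589, -15, 6, 9, 0, 0, 0, 0⟩]⟩,
  ⟨[⟨0, -600, 0, -1, 1, 0, 0, 0, 0⟩, ⟨0, 675, 0, 1, -1, 0, 0, 0, 0⟩], [⟨19, 4990, 2, 0, 16, 0, 36, 0, 0⟩], [⟨37, 3760, -56, 18, 20, 0, -36, 0, 0⟩, ⟨28, 4360, -27, 9, 18, 0, 0, 0, 0⟩]⟩,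
  ⟨[⟨0, -750, 0, -1, 1, 0, 0, 0, 0⟩], [⟨15, 4250, 2, 0, 12, 0, 30, 0, 0⟩], [⟨31, 2710, -46, 16, 16, 0, -30, 0, 0⟩]⟩,
  ⟨[⟨0, -126, 0, -1, 1, 0, 0, 0, 0⟩, ⟨0, 138, 0, 1, -1, 0, 0, 0, 0⟩], [⟨14, 4500, 2, 0, 11, 0, 26, 0, 0⟩], [⟨26, 2030, -40, 12, 15, 0, -26, 0, 0⟩, ⟨20, 3242, -19, 6, 13, 0, 0, 0, 0⟩]⟩,
  ⟨[⟨0, -103, 0, -1, 1, 0, 0, 0, 0⟩, ⟨0, 105, 0, 1, -1, 0, 0, 0, 0⟩], [⟨3, 530, 2, 0, 0, 0, 6, 0, 0⟩], [⟨7, 210, -10, 4, 4, 0, -6, 0, 0⟩]⟩,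
  ⟨[⟨0, -105, 0, -1, 1, 0, 0, 0, 0⟩, ⟨0, 108, 0, 1, -1, 0, 0, 0, 0⟩], [⟨15, 4920, 2, 0, 12, 0, 30, 0, 0⟩], [⟨31, 2710, -46, 16, 16, 0, -30, 0, 0⟩]⟩,
  ⟨[⟨0, -597, 0, -1, 1, 0, 0, 0, 0⟩], [⟨47, 16270, 2, 0, 88, 0, 44, 0, 0⟩, ⟨47, 19060, 2, 90, 40, 0, 2, 0, 0⟩], [⟨91, 5770, -138, 46, 46, 0, -88, 0, 0⟩]⟩,
  ⟨[⟨0, -165, 0, -1, 1, 0, 0, 0, 0⟩, ⟨0, 180, 0, 1, -1, 0, 0, 0, 0⟩], [⟨16, 5370, 2, 0, 13, 0, 32, 0, 0⟩, ⟨24, 3813, -23, 8, 15, 0, 0, 0, 0⟩], [⟨32, 2240, -48, 16, 17, 0, -32, 0, 0⟩]⟩,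
  ⟨[⟨0, -38, 0, -1, 1, 0, 0, 0, 0⟩, ⟨0, 50, 0, 1, -1, 0, 0, 0, 0⟩], [⟨13, 3970, 2, 22, 8, 0, 2, 0, 0⟩], [⟨25, 1970, -38, 14, 12, 0, -22, 0, 0⟩]⟩]

def wg25 : List Wn := [
  ⟨[], [⟨7, 1520, 2, 0, 12, 0, 6, 0, 0⟩, ⟨7, 2670, 2, 12, 4, 0, 2, 0, 0⟩], [⟨15, 830, -22, 8, 8, 0, -14, 0, 0⟩]⟩,
  ⟨[⟨0, -530, 0, -1, 1, 0, 0, 0, 0⟩, ⟨0, 600, 0, 1, -1, 0, 0, 0, 0⟩], [⟨41, 13060, 2, 0, 38, 0, 78, 0, 0⟩], [⟨81, 6320, -122, 42, 40, 0, -78, 0, 0⟩]⟩,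
  ⟨[⟨0, -150, 0, -1, 1, 0, 0, 0, 0⟩, ⟨0, 165, 0, 1, -1, 0, 0, 0, 0⟩], [⟨11, 2640, 2, 0, 8, 0, 22, 0, 0⟩], [⟨23, 2730, -34, 12, 12, 0, -22, 0, 0⟩]⟩,
  ⟨[⟨0, -105, 0, -1, 1, 0, 0, 0, 0⟩, ⟨0, 108, 0, 1, -1, 0, 0, 0, 0⟩], [⟨14, 4580, 2, 0, 11, 0, 26, 0, 0⟩], [⟨26, 2030, -40, 12, 15, 0, -26, 0, 0⟩, ⟨20, 3287, -19, 6, 13, 0, 0, 0, 0⟩]⟩,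
  ⟨[⟨0, 99, 0, 1, -1, 0, 0, 0, 0⟩], [⟨5, 970, 2, 0, 2, 0, 10, 0, 0⟩, ⟨5, 1830, 2, 8, 2, 0, 2, 0, 0⟩], [⟨11, 1600, -16, 6, 6, 0, -10, 0, 0⟩]⟩,
  ⟨[⟨0, -1050, 0, -1, 1, 0, 0, 0, 0⟩], [⟨35, 10260, 2, 0, 32, 0, 70, 0, 0⟩], [⟨71, 6210, -106, 36, 36, 0, -70, 0, 0⟩]⟩,
  ⟨[⟨0, -600, 0, -1, 1, 0, 0, 0, 0⟩], [⟨15, 4260, 2, 0, 12, 0, 30, 0, 0⟩], [⟨31, 2710, -46, 16, 16, 0, -30, 0, 0⟩]⟩,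
  ⟨[⟨0, -200, 0, 0, -1, 1, 0, 0, 0⟩], [⟨18, 5640, 2, 0, 0, 15, 0, 32, 0⟩], [⟨34, 2820, -52, 0, 18, 17, 0, -32, 0⟩, ⟨26, 4073, -25, 0, 9, 16, 0, 0, 0⟩]⟩,
  ⟨[], [⟨39, 18060, 2, 0, 36, 0, 70, 0, 0⟩, ⟨39, 17030, 2, 72, 32, 0, 2, 0, 0⟩], [⟨75, 3430, -114, 40, 36, 0, -70, 0, 0⟩]⟩,
  ⟨[⟨0, -27, 0, -1, 1, 0, 0, 0, 0⟩, ⟨0, 38, 0, 1, -1, 0, 0, 0, 0⟩], [⟨19, 5510, 2, 36, 16, 0, 2, 0, 0⟩], [⟨39, 3690, -58, 20, 20, 0, -38, 0, 0⟩]⟩,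
  ⟨[⟨0, -900, 0, -1, 1, 0, 0, 0, 0⟩, ⟨0, 1050, 0, 1, -1, 0, 0, 0, 0⟩], [⟨18, 5350, 2, 0, 15, 0, 32, 0, 0⟩], [⟨34, 2890, -52, 18, 17, 0, -32, 0, 0⟩, ⟨26, 4109, -25, 9, 16, 0, 0, 0, 0⟩]⟩,
  ⟨[⟨0, -126, 0, -1, 1, 0, 0, 0, 0⟩, ⟨0, 138, 0, 1, -1, 0, 0, 0, 0⟩], [⟨6, 2330, 2, 0, 3, 0, 12, 0, 0⟩], [⟨12, 1220, -18, 6, 7, 0, -12, 0, 0⟩]⟩,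
  ⟨[⟨0, -600, 0, 0, -1, 1, 0, 0, 0⟩], [⟨23, 8360, 2, 0, 0, 20, 0, 38, 0⟩], [⟨43, 2370, -66, 0, 24, 20, 0, -38, 0⟩]⟩,
  ⟨[⟨0, -200, 0, 0, -1, 1, 0, 0, 0⟩], [⟨5, 710, 2, 0, 0, 2, 0, 10, 0⟩], [⟨11, 1610, -16, 0, 6, 6, 0, -10, 0⟩, ⟨8, 1098, -7, 0, 3, 4, 0, 0, 0⟩]⟩,
  ⟨[⟨0, -1350, 0, -1, 1, 0, 0, 0, 0⟩], [⟨25, 7190, 2, 1, 21, 0, 50, 0, 0⟩], [⟨49, 4000, -74, 25, 25, 0, -50, 0, 0⟩]⟩,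
  ⟨[⟨0, -103, 0, -1, 1, 0, 0, 0, 0⟩, ⟨0, 105, 0, 1, -1, 0, 0, 0, 0⟩], [⟨11, 2720, 2, 0, 8, 0, 22, 0, 0⟩], [⟨23, 2070, -34, 12, 12, 0, -22, 0, 0⟩]⟩]

def wg26 : List Wn := [
  ⟨[], [⟨7, 2370, 2, 0, 12, 0, 6, 0, 0⟩, ⟨7, 3520, 2, 12, 4, 0, 2, 0, 0⟩], [⟨15, 1680, -22, 8, 8, 0, -14, 0, 0⟩]⟩,
  ⟨[⟨0, -150, 0, -1, 1, 0, 0, 0, 0⟩, ⟨0, 165, 0, 1, -1, 0, 0, 0, 0⟩], [⟨11, 2450, 2, 0, 8, 0, 22, 0, 0⟩], [⟨23, 2070, -34, 12, 12, 0, -22, 0, 0⟩]⟩,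
  ⟨[⟨0, -220, 0, -1, 1, 0, 0, 0, 0⟩, ⟨0, 245, 0, 1, -1, 0, 0, 0, 0⟩], [⟨18, 5190, 2, 1, 14, 0, 34, 0, 0⟩, ⟨26, 4031, -25, 10, 15, 0, 0, 0, 0⟩], [⟨34, 2860, -52, 19, 16, 0, -34, 0, 0⟩]⟩,
  ⟨[⟨0, -165, 0, -1, 1, 0, 0, 0, 0⟩, ⟨0, 180, 0, 1, -1, 0, 0, 0, 0⟩], [⟨14, 4420, 2, 0, 11, 0, 26, 0, 0⟩], [⟨26, 2030, -40, 12, 15, 0, -26, 0, 0⟩, ⟨20, 3202, -19, 6, 13, 0, 0, 0, 0⟩]⟩,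
  ⟨[⟨0, -245, 0, -1, 1, 0, 0, 0, 0⟩, ⟨0, 270, 0, 1, -1, 0, 0, 0, 0⟩], [⟨43, 13830, 2, 0, 40, 0, 86, 0, 0⟩], [⟨87, 7030, -130, 44, 44, 0, -86, 0, 0⟩]⟩,
  ⟨[⟨0, -114, 0, -1, 1, 0, 0, 0, 0⟩, ⟨0, 126, 0, 1, -1, 0, 0, 0, 0⟩], [⟨27, 8850, 2, 0, 24, 0, 54, 0, 0⟩], [⟨55, 4760, -82, 28, 28, 0, -54, 0, 0⟩]⟩,
  ⟨[⟨0, -23, 0, 0, -1, 1, 0, 0, 0⟩, ⟨0, 60, 0, 0, 1, -1, 0, 0, 0⟩], [⟨37, 12640, 2, 0, 72, 34, 0, 2, 0⟩], [⟨75, 5730, -112, 0, 38, 38, 0, -74, 0⟩]⟩,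
  ⟨[⟨0, -66, 0, -1, 1, 0, 0, 0, 0⟩, ⟨0, 76, 0, 1, -1, 0, 0, 0, 0⟩], [⟨11, 4610, 2, 18, 6, 0, 2, 0, 0⟩], [⟨21, 1290, -32, 12, 10, 0, -18, 0, 0⟩]⟩,
  ⟨[⟨0, -103, 0, -1, 1, 0, 0, 0, 0⟩, ⟨0, 105, 0, 1, -1, 0, 0, 0, 0⟩], [⟨37, 13820, 2, 0, 34, 0, 70, 0, 0⟩], [⟨73, 4860, -110, 38, 36, 0, -70, 0, 0⟩]⟩,
  ⟨[⟨0, -99, 0, -1, 1, 0, 0, 0, 0⟩, ⟨0, 101, 0, 1, -1, 0, 0, 0, 0⟩], [⟨7, 2540, 2, 0, 4, 0, 6, 0, 0⟩], [⟨11, 1410, -18, 8, 4, 0, -6, 0, 0⟩]⟩,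
  ⟨[⟨0, -900, 0, -1, 1, 0, 0, 0, 0⟩], [⟨35, 10260, 2, 0, 32, 0, 70, 0, 0⟩], [⟨71, 6210, -106, 36, 36, 0, -70, 0, 0⟩]⟩,
  ⟨[⟨0, -150, 0, 0, -1, 1, 0, 0, 0⟩, ⟨0, 200, 0, 0, 1, -1, 0, 0, 0⟩], [⟨15, 4800, 2, 0, 0, 12, 0, 26, 0⟩], [⟨29, 2450, -44, 0, 16, 14, 0, -26, 0⟩, ⟨22, 3558, -21, 0, 8, 13, 0, 0, 0⟩]⟩,
  ⟨[⟨0, -1350, 0, -1, 1, 0, 0, 0, 0⟩], [⟨21, 5680, 2, 0, 18, 0, 40, 0, 0⟩], [⟨41, 4000, -62, 20, 22, 0, -40, 0, 0⟩]⟩,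
  ⟨[⟨0, 10, 0, 1, -1, 0, 0, 0, 0⟩], [⟨23, 6760, 2, 44, 20, 0, 2, 0, 0⟩], [⟨47, 4110, -70, 24, 24, 0, -46, 0, 0⟩]⟩,
  ⟨[⟨0, -500, 0, 0, -1, 1, 0, 0, 0⟩], [⟨15, 4280, 2, 0, 0, 12, 0, 30, 0⟩], [⟨31, 2710, -46, 0, 16, 16, 0, -30, 0⟩]⟩,
  ⟨[⟨0, -93, 0, 0, -1, 1, 0, 0, 0⟩], [⟨5, 920, 2, 0, 0, 2, 0, 4, 0⟩, ⟨5, 1670, 2, 0, 4, 0, 0, 2, 0⟩, ⟨6, 1020, -5, 0, 3, 2, 0, 0, 0⟩], [⟨7, 1110, -12, 0, 6, 2, 0, -4, 0⟩]⟩]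

def wg27 : List Wn := [
  ⟨[⟨0, -450, 0, -1, 1, 0, 0, 0, 0⟩], [⟨15, 4290, 2, 0, 12, 0, 30, 0, 0⟩], [⟨31, 2710, -46, 16, 16, 0, -30, 0, 0⟩]⟩,
  ⟨[⟨0, -597, 0, -1, 1, 0, 0, 0, 0⟩], [⟨49, 19020, 2, 0, 46, 0, 94, 0, 0⟩, ⟨49, 18180, 2, 94, 44, 0, 2, 0, 0⟩], [⟨97, 8420, -146, 50, 48, 0, -94, 0, 0⟩]⟩,
  ⟨[⟨0, -825, 0, -1, 1, 0, 0, 0, 0⟩, ⟨0, 900, 0, 1, -1, 0, 0, 0, 0⟩], [⟨29, 9470, 2, 0, 26, 0, 54, 0, 0⟩], [⟨57, 4140, -86, 30, 28, 0, -54, 0, 0⟩]⟩,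
  ⟨[⟨0, -500, 0, 0, -1, 1, 0, 0, 0⟩], [⟨23, 8390, 2, 0, 0, 20, 0, 38, 0⟩], [⟨43, 2370, -66, 0, 24, 20, 0, -38, 0⟩]⟩,
  ⟨[⟨0, -103, 0, -1, 1, 0, 0, 0, 0⟩, ⟨0, 105, 0, 1, -1, 0, 0, 0, 0⟩], [⟨4, 320, 2, 0, 1, 0, 8, 0, 0⟩, ⟨6, 579, -5, 2, 3, 0, 0, 0, 0⟩], [⟨8, 830, -12, 4, 5, 0, -8, 0, 0⟩]⟩,
  ⟨[⟨0, -108, 0, -1, 1, 0, 0, 0, 0⟩, ⟨0, 114, 0, 1, -1, 0, 0, 0, 0⟩], [⟨42, 14490, 2, 0, 39, 0, 84, 0, 0⟩], [⟨84, 6590, -126, 42, 43, 0, -84, 0, 0⟩]⟩,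
  ⟨[⟨0, -399, 0, 0, -1, 1, 0, 0, 0⟩], [⟨53, 22480, 2, 0, 0, 50, 0, 102, 0⟩, ⟨53, 21650, 2, 0, 102, 48, 0, 2, 0⟩], [⟨105, 7150, -158, 0, 54, 52, 0, -102, 0⟩]⟩,
  ⟨[⟨0, -200, 0, -1, 1, 0, 0, 0, 0⟩, ⟨0, 220, 0, 1, -1, 0, 0, 0, 0⟩], [⟨30, 9330, 2, 0, 27, 0, 60, 0, 0⟩], [⟨60, 5130, -90, 30, 31, 0, -60, 0, 0⟩]⟩,
  ⟨[⟨0, -165, 0, -1, 1, 0, 0, 0, 0⟩, ⟨0, 180, 0, 1, -1, 0, 0, 0, 0⟩], [⟨6, 2250, 2, 0, 3, 0, 12, 0, 0⟩], [⟨12, 1220, -18, 6, 7, 0, -12, 0, 0⟩]⟩,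
  ⟨[⟨0, -200, 0, 0, -1, 1, 0, 0, 0⟩], [⟨18, 5240, 2, 0, 1, 14, 0, 34, 0⟩, ⟨26, 4057, -25, 0, 10, 15, 0, 0, 0⟩], [⟨34, 2860, -52, 0, 19, 16, 0, -34, 0⟩]⟩,
  ⟨[⟨0, -750, 0, -1, 1, 0, 0, 0, 0⟩], [⟨35, 10270, 2, 0, 32, 0, 70, 0, 0⟩], [⟨71, 6210, -106, 36, 36, 0, -70, 0, 0⟩]⟩,
  ⟨[⟨0, -138, 0, -1, 1, 0, 0, 0, 0⟩, ⟨0, 150, 0, 1, -1, 0, 0, 0, 0⟩], [⟨42, 14210, 2, 0, 39, 0, 84, 0, 0⟩], [⟨84, 6590, -126, 42, 43, 0, -84, 0, 0⟩]⟩,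
  ⟨[⟨0, -126, 0, -1, 1, 0, 0, 0, 0⟩, ⟨0, 138, 0, 1, -1, 0, 0, 0, 0⟩], [⟨21, 6600, 2, 0, 18, 0, 38, 0, 0⟩], [⟨41, 3750, -62, 22, 20, 0, -38, 0, 0⟩]⟩,
  ⟨[⟨0, 10, 0, 1, -1, 0, 0, 0, 0⟩], [⟨24, 7860, 2, 46, 21, 0, 2, 0, 0⟩], [⟨48, 3320, -72, 24, 25, 0, -48, 0, 0⟩]⟩,
  ⟨[⟨0, -400, 0, 0, -1, 1, 0, 0, 0⟩], [⟨15, 4320, 2, 0, 0, 12, 0, 30, 0⟩], [⟨31, 2710, -46, 0, 16, 16, 0, -30, 0⟩]⟩,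
  ⟨[], [⟨5, 920, 2, 0, 0, 2, 0, 4, 0⟩, ⟨5, 1670, 2, 0, 4, 0, 0, 2, 0⟩, ⟨6, 1070, -5, 0, 3, 2, 0, 0, 0⟩], [⟨7, 1060, -12, 0, 6, 2, 0, -4, 0⟩]⟩]

def wg28 : List Wn := [
  ⟨[⟨0, -300, 0, -1, 1, 0, 0, 0, 0⟩], [⟨15, 4390, 2, 0, 12, 0, 30, 0, 0⟩], [⟨31, 2710, -46, 16, 16, 0, -30, 0, 0⟩]⟩,
  ⟨[⟨0, -399, 0, -1, 1, 0, 0, 0, 0⟩], [⟨49, 19020, 2, 0, 46, 0, 94, 0, 0⟩, ⟨49, 18180, 2, 94, 44, 0, 2, 0, 0⟩], [⟨97, 8410, -146, 50, 48, 0, -94, 0, 0⟩]⟩,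
  ⟨[⟨0, -50, 0, -1, 1, 0, 0, 0, 0⟩, ⟨0, 66, 0, 1, -1, 0, 0, 0, 0⟩], [⟨3, 150, 2, 2, 0, 0, 2, 0, 0⟩], [⟨5, 680, -8, 4, 2, 0, -4, 0, 0⟩]⟩,
  ⟨[⟨0, -400, 0, 0, -1, 1, 0, 0, 0⟩], [⟨23, 8440, 2, 0, 0, 20, 0, 38, 0⟩], [⟨43, 2350, -66, 0, 24, 20, 0, -38, 0⟩]⟩,
  ⟨[⟨0, -150, 0, -1, 1, 0, 0, 0, 0⟩, ⟨0, 165, 0, 1, -1, 0, 0, 0, 0⟩], [⟨27, 8630, 2, 0, 24, 0, 54, 0, 0⟩], [⟨55, 4760, -82, 28, 28, 0, -54, 0, 0⟩]⟩,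
  ⟨[⟨0, -1350, 0, -1, 1, 0, 0, 0, 0⟩], [⟨11, 4430, 2, 0, 8, 0, 16, 0, 0⟩], [⟨19, 1350, -30, 10, 10, 0, -16, 0, 0⟩]⟩,
  ⟨[⟨0, -270, 0, -1, 1, 0, 0, 0, 0⟩, ⟨0, 300, 0, 1, -1, 0, 0, 0, 0⟩], [⟨4, 750, 2, 0, 1, 0, 8, 0, 0⟩, ⟨6, 793, -5, 2, 3, 0, 0, 0, 0⟩], [⟨8, 830, -12, 4, 5, 0, -8, 0, 0⟩]⟩,
  ⟨[⟨0, -597, 0, -1, 1, 0, 0, 0, 0⟩], [⟨77, 30740, 2, 0, 74, 0, 152, 0, 0⟩, ⟨77, 29870, 2, 152, 72, 0, 2, 0, 0⟩, ⟨115, 21110, -114, 114, 0, 0, 0, 0, 0⟩], [⟨153, 11900, -230, 76, 78, 0, -152, 0, 0⟩]⟩,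
  ⟨[⟨0, -100, 0, 0, -1, 1, 0, 0, 0⟩, ⟨0, 150, 0, 0, 1, -1, 0, 0, 0⟩], [⟨13, 4450, 2, 0, 0, 10, 0, 22, 0⟩], [⟨25, 2020, -38, 0, 14, 12, 0, -22, 0⟩]⟩,
  ⟨[⟨0, -10, 0, -1, 1, 0, 0, 0, 0⟩, ⟨0, 18, 0, 1, -1, 0, 0, 0, 0⟩], [⟨15, 4560, 2, 26, 10, 0, 2, 0, 0⟩], [⟨29, 2150, -44, 16, 14, 0, -26, 0, 0⟩]⟩,
  ⟨[⟨0, -1350, 0, -1, 1, 0, 0, 0, 0⟩], [⟨22, 6760, 2, 0, 19, 0, 44, 0, 0⟩], [⟨44, 3360, -66, 22, 23, 0, -44, 0, 0⟩]⟩,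
  ⟨[⟨0, -1350, 0, -1, 1, 0, 0, 0, 0⟩], [⟨25, 8380, 2, 0, 22, 0, 46, 0, 0⟩], [⟨49, 3320, -74, 26, 24, 0, -46, 0, 0⟩]⟩,
  ⟨[⟨0, -600, 0, 0, -1, 1, 0, 0, 0⟩], [⟨35, 10300, 2, 0, 0, 32, 0, 70, 0⟩], [⟨71, 6210, -106, 0, 36, 36, 0, -70, 0⟩]⟩,
  ⟨[⟨0, -600, 0, -1, 1, 0, 0, 0, 0⟩], [⟨35, 10300, 2, 0, 32, 0, 70, 0, 0⟩], [⟨71, 6210, -106, 36, 36, 0, -70, 0, 0⟩]⟩,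
  ⟨[⟨0, -200, 0, -1, 1, 0, 0, 0, 0⟩, ⟨0, 220, 0, 1, -1, 0, 0, 0, 0⟩], [⟨4, 800, 2, 1, 0, 0, 8, 0, 0⟩, ⟨6, 819, -5, 3, 2, 0, 0, 0, 0⟩], [⟨8, 830, -12, 5, 4, 0, -8, 0, 0⟩]⟩,
  ⟨[⟨0, -220, 0, -1, 1, 0, 0, 0, 0⟩, ⟨0, 245, 0, 1, -1, 0, 0, 0, 0⟩], [⟨15, 4500, 2, 0, 12, 0, 30, 0, 0⟩], [⟨31, 2710, -46, 16, 16, 0, -30, 0, 0⟩]⟩]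

def wg29 : List Wn := [
  ⟨[⟨0, -50, 0, -1, 1, 0, 0, 0, 0⟩, ⟨0, 66, 0, 1, -1, 0, 0, 0, 0⟩], [⟨8, 2810, 2, 14, 5, 0, 2, 0, 0⟩], [⟨16, 1680, -24, 8, 9, 0, -16, 0, 0⟩]⟩,
  ⟨[⟨0, -270, 0, -1, 1, 0, 0, 0, 0⟩, ⟨0, 300, 0, 1, -1, 0, 0, 0, 0⟩], [⟨37, 12850, 2, 0, 34, 0, 70, 0, 0⟩], [⟨73, 4930, -110, 38, 36, 0, -70, 0, 0⟩]⟩,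
  ⟨[⟨0, 10, 0, 1, -1, 0, 0, 0, 0⟩], [⟨9, 1860, 2, 14, 4, 0, 2, 0, 0⟩], [⟨17, 1910, -26, 10, 8, 0, -14, 0, 0⟩]⟩,
  ⟨[⟨0, -600, 0, 0, -1, 1, 0, 0, 0⟩], [⟨43, 14860, 2, 0, 0, 40, 0, 78, 0⟩], [⟨83, 5430, -126, 0, 44, 40, 0, -78, 0⟩]⟩,
  ⟨[⟨0, -300, 0, 0, -1, 1, 0, 0, 0⟩], [⟨15, 4390, 2, 0, 0, 12, 0, 30, 0⟩], [⟨31, 2710, -46, 0, 16, 16, 0, -30, 0⟩]⟩,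
  ⟨[⟨0, -301, 0, -1, 1, 0, 0, 0, 0⟩], [⟨49, 19020, 2, 0, 46, 0, 94, 0, 0⟩, ⟨49, 18180, 2, 94, 44, 0, 2, 0, 0⟩], [⟨97, 8390, -146, 50, 48, 0, -94, 0, 0⟩]⟩,
  ⟨[⟨0, -126, 0, -1, 1, 0, 0, 0, 0⟩, ⟨0, 138, 0, 1, -1, 0, 0, 0, 0⟩], [⟨13, 3640, 2, 0, 10, 0, 26, 0, 0⟩, ⟨20, 3222, -19, 7, 12, 0, 0, 0, 0⟩], [⟨27, 2790, -40, 14, 14, 0, -26, 0, 0⟩]⟩,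
  ⟨[⟨0, -50, 0, -1, 1, 0, 0, 0, 0⟩, ⟨0, 66, 0, 1, -1, 0, 0, 0, 0⟩], [⟨27, 8660, 2, 52, 24, 0, 2, 0, 0⟩], [⟨55, 4760, -82, 28, 28, 0, -54, 0, 0⟩]⟩,
  ⟨[], [⟨7, 2940, 2, 0, 0, 4, 0, 6, 0⟩, ⟨7, 2590, 2, 0, 8, 0, 0, 2, 0⟩], [⟨11, 1250, -18, 0, 8, 4, 0, -6, 0⟩]⟩,
  ⟨[⟨0, -220, 0, -1, 1, 0, 0, 0, 0⟩, ⟨0, 245, 0, 1, -1, 0, 0, 0, 0⟩], [⟨5, 700, 2, 0, 2, 0, 10, 0, 0⟩], [⟨11, 1610, -16, 6, 6, 0, -10, 0, 0⟩, ⟨8, 1142, -7, 3, 4, 0, 0, 0, 0⟩]⟩,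
  ⟨[⟨0, -270, 0, -1, 1, 0, 0, 0, 0⟩, ⟨0, 300, 0, 1, -1, 0, 0, 0, 0⟩], [⟨4, 750, 2, 0, 1, 0, 8, 0, 0⟩], [⟨8, 830, -12, 4, 5, 0, -8, 0, 0⟩, ⟨6, 784, -5, 2, 3, 0, 0, 0, 0⟩]⟩,
  ⟨[⟨0, -201, 0, 0, -1, 1, 0, 0, 0⟩], [⟨53, 22480, 2, 0, 0, 50, 0, 102, 0⟩, ⟨53, 21650, 2, 0, 102, 48, 0, 2, 0⟩], [⟨105, 7100, -158, 0, 54, 52, 0, -102, 0⟩]⟩,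
  ⟨[⟨0, -93, 0, 0, -1, 1, 0, 0, 0⟩], [⟨29, 7420, 2, 0, 0, 56, 0, 28, 0⟩, ⟨29, 10270, 2, 0, 56, 26, 0, 2, 0⟩, ⟨44, 7920, -43, 0, 15, 28, 0, 0, 0⟩], [⟨59, 6160, -88, 0, 30, 30, 0, -58, 0⟩]⟩,
  ⟨[⟨0, -220, 0, -1, 1, 0, 0, 0, 0⟩, ⟨0, 245, 0, 1, -1, 0, 0, 0, 0⟩], [⟨11, 3760, 2, 0, 8, 0, 18, 0, 0⟩], [⟨21, 1390, -32, 12, 10, 0, -18, 0, 0⟩, ⟨16, 2558, -15, 6, 9, 0, 0, 0, 0⟩]⟩,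
  ⟨[], [⟨7, 3050, 2, 0, 4, 0, 14, 0, 0⟩, ⟨7, 3050, 2, 12, 4, 0, 2, 0, 0⟩], [⟨15, 1680, -22, 8, 8, 0, -14, 0, 0⟩]⟩,
  ⟨[⟨0, -300, 0, 0, -1, 1, 0, 0, 0⟩, ⟨0, 400, 0, 0, 1, -1, 0, 0, 0⟩], [⟨19, 5140, 2, 0, 0, 16, 0, 36, 0⟩], [⟨37, 3760, -56, 0, 18, 20, 0, -36, 0⟩, ⟨28, 4395, -27, 0, 9, 18, 0, 0, 0⟩]⟩]

def wg30 : List Wn := [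
  ⟨[⟨0, -825, 0, -1, 1, 0, 0, 0, 0⟩, ⟨0, 900, 0, 1, -1, 0, 0, 0, 0⟩], [⟨19, 4970, 2, 0, 16, 0, 36, 0, 0⟩], [⟨37, 3760, -56, 18, 20, 0, -36, 0, 0⟩, ⟨28, 4355, -27, 9, 18, 0, 0, 0, 0⟩]⟩,
  ⟨[⟨0, -165, 0, -1, 1, 0, 0, 0, 0⟩, ⟨0, 180, 0, 1, -1, 0, 0, 0, 0⟩], [⟨21, 6440, 2, 0, 18, 0, 38, 0, 0⟩], [⟨41, 3770, -62, 22, 20, 0, -38, 0, 0⟩]⟩,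
  ⟨[⟨0, -105, 0, -1, 1, 0, 0, 0, 0⟩, ⟨0, 108, 0, 1, -1, 0, 0, 0, 0⟩], [⟨13, 3610, 2, 0, 10, 0, 26, 0, 0⟩, ⟨20, 3205, -19, 7, 12, 0, 0, 0, 0⟩], [⟨27, 2790, -40, 14, 14, 0, -26, 0, 0⟩]⟩,
  ⟨[⟨0, -100, 0, 0, -1, 1, 0, 0, 0⟩, ⟨0, 150, 0, 0, 1, -1, 0, 0, 0⟩], [⟨5, 750, 2, 0, 0, 2, 0, 2, 0⟩, ⟨6, 1016, -5, 0, 3, 2, 0, 0, 0⟩], [⟨7, 1230, -12, 0, 6, 2, 0, -2, 0⟩]⟩,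
  ⟨[⟨0, -1200, 0, -1, 1, 0, 0, 0, 0⟩], [⟨22, 6760, 2, 0, 19, 0, 44, 0, 0⟩], [⟨44, 3360, -66, 22, 23, 0, -44, 0, 0⟩]⟩,
  ⟨[⟨0, -1350, 0, -1, 1, 0, 0, 0, 0⟩], [⟨41, 12400, 2, 0, 38, 0, 80, 0, 0⟩], [⟨81, 6790, -122, 40, 42, 0, -80, 0, 0⟩]⟩,
  ⟨[⟨0, -1200, 0, -1, 1, 0, 0, 0, 0⟩], [⟨25, 8380, 2, 0, 22, 0, 46, 0, 0⟩], [⟨49, 3320, -74, 26, 24, 0, -46, 0, 0⟩]⟩,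
  ⟨[⟨0, -27, 0, -1, 1, 0, 0, 0, 0⟩, ⟨0, 38, 0, 1, -1, 0, 0, 0, 0⟩], [⟨7, 2080, 2, 10, 2, 0, 2, 0, 0⟩], [⟨13, 850, -20, 8, 6, 0, -10, 0, 0⟩]⟩,
  ⟨[⟨0, -114, 0, -1, 1, 0, 0, 0, 0⟩, ⟨0, 126, 0, 1, -1, 0, 0, 0, 0⟩], [⟨3, 20, 2, 0, 0, 0, 2, 0, 0⟩], [⟨5, 1090, -8, 4, 2, 0, -2, 0, 0⟩, ⟨4, 536, -3, 2, 1, 0, 0, 0, 0⟩]⟩,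
  ⟨[⟨0, -500, 0, 0, -1, 1, 0, 0, 0⟩], [⟨35, 10340, 2, 0, 0, 32, 0, 70, 0⟩], [⟨71, 6210, -106, 0, 36, 36, 0, -70, 0⟩]⟩,
  ⟨[⟨0, -450, 0, -1, 1, 0, 0, 0, 0⟩], [⟨35, 10370, 2, 0, 32, 0, 70, 0, 0⟩], [⟨71, 6210, -106, 36, 36, 0, -70, 0, 0⟩]⟩,
  ⟨[⟨0, -220, 0, -1, 1, 0, 0, 0, 0⟩, ⟨0, 245, 0, 1, -1, 0, 0, 0, 0⟩], [⟨16, 5260, 2, 0, 13, 0, 32, 0, 0⟩, ⟨24, 3758, -23, 8, 15, 0, 0, 0, 0⟩], [⟨32, 2240, -48, 16, 17, 0, -32, 0, 0⟩]⟩,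
  ⟨[⟨0, -103, 0, -1, 1, 0, 0, 0, 0⟩, ⟨0, 105, 0, 1, -1, 0, 0, 0, 0⟩], [⟨30, 9940, 2, 0, 27, 0, 60, 0, 0⟩], [⟨60, 5130, -90, 30, 31, 0, -60, 0, 0⟩]⟩,
  ⟨[⟨0, 10, 0, 1, -1, 0, 0, 0, 0⟩], [⟨9, 1670, 2, 14, 4, 0, 2, 0, 0⟩], [⟨17, 1250, -26, 10, 8, 0, -14, 0, 0⟩]⟩,
  ⟨[⟨0, -500, 0, 0, -1, 1, 0, 0, 0⟩], [⟨43, 14900, 2, 0, 0, 40, 0, 78, 0⟩], [⟨83, 5420, -126, 0, 44, 40, 0, -78, 0⟩]⟩,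
  ⟨[⟨0, -200, 0, 0, -1, 1, 0, 0, 0⟩], [⟨15, 4540, 2, 0, 0, 12, 0, 30, 0⟩], [⟨31, 2710, -46, 0, 16, 16, 0, -30, 0⟩]⟩]

def wg31 : List Wn := [
  ⟨[⟨0, -76, 0, -1, 1, 0, 0, 0, 0⟩, ⟨0, 84, 0, 1, -1, 0, 0, 0, 0⟩], [⟨7, 1710, 2, 10, 4, 0, 2, 0, 0⟩], [⟨13, 1340, -20, 8, 6, 0, -12, 0, 0⟩]⟩,
  ⟨[⟨0, -200, 0, -1, 1, 0, 0, 0, 0⟩, ⟨0, 220, 0, 1, -1, 0, 0, 0, 0⟩], [⟨11, 2360, 2, 0, 8, 0, 22, 0, 0⟩], [⟨23, 2070, -34, 12, 12, 0, -22, 0, 0⟩]⟩,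
  ⟨[⟨0, -201, 0, -1, 1, 0, 0, 0, 0⟩], [⟨49, 19020, 2, 0, 46, 0, 94, 0, 0⟩, ⟨49, 18180, 2, 94, 44, 0, 2, 0, 0⟩], [⟨97, 8360, -146, 50, 48, 0, -94, 0, 0⟩]⟩,
  ⟨[⟨0, -270, 0, -1, 1, 0, 0, 0, 0⟩, ⟨0, 300, 0, 1, -1, 0, 0, 0, 0⟩], [⟨8, 1720, 2, 1, 4, 0, 16, 0, 0⟩, ⟨12, 1708, -11, 5, 6, 0, 0, 0, 0⟩], [⟨16, 1690, -24, 9, 8, 0, -16, 0, 0⟩]⟩,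
  ⟨[⟨0, -200, 0, 0, -1, 1, 0, 0, 0⟩], [⟨23, 8750, 2, 0, 0, 20, 0, 38, 0⟩], [⟨43, 2260, -66, 0, 24, 20, 0, -38, 0⟩]⟩,
  ⟨[⟨0, -101, 0, -1, 1, 0, 0, 0, 0⟩, ⟨0, 103, 0, 1, -1, 0, 0, 0, 0⟩], [⟨9, 1970, 2, 0, 6, 0, 18, 0, 0⟩, ⟨14, 2057, -13, 5, 8, 0, 0, 0, 0⟩], [⟨19, 2140, -28, 10, 10, 0, -18, 0, 0⟩]⟩,
  ⟨[⟨0, -159, 0, 0, -1, 1, 0, 0, 0⟩], [⟨53, 22480, 2, 0, 0, 50, 0, 102, 0⟩, ⟨53, 21650, 2, 0, 102, 48, 0, 2, 0⟩], [⟨105, 7080, -158, 0, 54, 52, 0, -102, 0⟩]⟩,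
  ⟨[⟨0, -180, 0, -1, 1, 0, 0, 0, 0⟩, ⟨0, 200, 0, 1, -1, 0, 0, 0, 0⟩], [⟨42, 13910, 2, 0, 39, 0, 84, 0, 0⟩], [⟨84, 6590, -126, 42, 43, 0, -84, 0, 0⟩]⟩,
  ⟨[⟨0, -105, 0, -1, 1, 0, 0, 0, 0⟩, ⟨0, 108, 0, 1, -1, 0, 0, 0, 0⟩], [⟨21, 6730, 2, 0, 18, 0, 38, 0, 0⟩], [⟨41, 3740, -62, 22, 20, 0, -38, 0, 0⟩]⟩,
  ⟨[⟨0, -1350, 0, -1, 1, 0, 0, 0, 0⟩], [⟨25, 7190, 2, 0, 22, 0, 50, 0, 0⟩, ⟨38, 5866, -37, 13, 24, 0, 0, 0, 0⟩], [⟨51, 4520, -76, 26, 26, 0, -50, 0, 0⟩]⟩,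
  ⟨[], [⟨7, 2850, 2, 0, 4, 0, 14, 0, 0⟩, ⟨7, 1700, 2, 4, 12, 0, 2, 0, 0⟩], [⟨15, 1490, -22, 8, 8, 0, -14, 0, 0⟩]⟩,
  ⟨[⟨0, -38, 0, -1, 1, 0, 0, 0, 0⟩, ⟨0, 50, 0, 1, -1, 0, 0, 0, 0⟩], [⟨43, 14190, 2, 84, 40, 0, 2, 0, 0⟩], [⟨87, 7030, -130, 44, 44, 0, -86, 0, 0⟩]⟩,
  ⟨[⟨0, -92, 0, -1, 1, 0, 0, 0, 0⟩, ⟨0, 99, 0, 1, -1, 0, 0, 0, 0⟩], [⟨35, 12720, 2, 0, 32, 0, 70, 0, 0⟩], [⟨71, 6210, -106, 36, 36, 0, -70, 0, 0⟩]⟩,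
  ⟨[⟨0, -597, 0, -1, 1, 0, 0, 0, 0⟩], [⟨29, 11320, 2, 0, 26, 0, 56, 0, 0⟩, ⟨29, 10450, 2, 56, 24, 0, 2, 0, 0⟩, ⟨43, 7750, -42, 42, 0, 0, 0, 0, 0⟩], [⟨57, 4870, -86, 28, 30, 0, -56, 0, 0⟩]⟩,
  ⟨[], [⟨11, 2360, 2, 0, 0, 20, 0, 10, 0⟩, ⟨11, 3810, 2, 0, 20, 8, 0, 2, 0⟩], [⟨23, 2730, -34, 0, 12, 12, 0, -22, 0⟩]⟩,
  ⟨[⟨0, -1350, 0, -1, 1, 0, 0, 0, 0⟩], [⟨10, 2820, 2, 0, 7, 0, 20, 0, 0⟩], [⟨20, 740, -30, 10, 11, 0, -20, 0, 0⟩]⟩]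

def wg32 : List Wn := [
  ⟨[⟨0, -84, 0, -1, 1, 0, 0, 0, 0⟩, ⟨0, 92, 0, 1, -1, 0, 0, 0, 0⟩], [⟨13, 4760, 2, 0, 10, 0, 22, 0, 0⟩], [⟨25, 2010, -38, 14, 12, 0, -22, 0, 0⟩]⟩,
  ⟨[⟨0, -165, 0, -1, 1, 0, 0, 0, 0⟩, ⟨0, 180, 0, 1, -1, 0, 0, 0, 0⟩], [⟨13, 3540, 2, 0, 10, 0, 26, 0, 0⟩, ⟨20, 3173, -19, 7, 12, 0, 0, 0, 0⟩], [⟨27, 2790, -40, 14, 14, 0, -26, 0, 0⟩]⟩,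
  ⟨[⟨0, -1050, 0, -1, 1, 0, 0, 0, 0⟩], [⟨22, 6760, 2, 0, 19, 0, 44, 0, 0⟩], [⟨44, 3360, -66, 22, 23, 0, -44, 0, 0⟩]⟩,
  ⟨[⟨0, -105, 0, -1, 1, 0, 0, 0, 0⟩, ⟨0, 108, 0, 1, -1, 0, 0, 0, 0⟩], [⟨5, 480, 2, 0, 2, 0, 10, 0, 0⟩, ⟨8, 1051, -7, 3, 4, 0, 0, 0, 0⟩], [⟨11, 1610, -16, 6, 6, 0, -10, 0, 0⟩]⟩,
  ⟨[⟨0, -1050, 0, -1, 1, 0, 0, 0, 0⟩], [⟨25, 8380, 2, 0, 22, 0, 46, 0, 0⟩], [⟨49, 3320, -74, 26, 24, 0, -46, 0, 0⟩]⟩,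
  ⟨[⟨0, -100, 0, 0, -1, 1, 0, 0, 0⟩, ⟨0, 150, 0, 0, 1, -1, 0, 0, 0⟩], [⟨11, 3610, 2, 0, 0, 8, 0, 12, 0⟩], [⟨17, 1350, -28, 0, 10, 8, 0, -12, 0⟩, ⟨14, 2424, -13, 0, 5, 8, 0, 0, 0⟩]⟩,
  ⟨[⟨0, -400, 0, 0, -1, 1, 0, 0, 0⟩], [⟨35, 10420, 2, 0, 0, 32, 0, 70, 0⟩], [⟨71, 6210, -106, 0, 36, 36, 0, -70, 0⟩]⟩,
  ⟨[⟨0, -300, 0, -1, 1, 0, 0, 0, 0⟩], [⟨35, 10580, 2, 0, 32, 0, 70, 0, 0⟩], [⟨71, 6210, -106, 36, 36, 0, -70, 0, 0⟩]⟩,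
  ⟨[⟨0, -159, 0, 0, -1, 1, 0, 0, 0⟩], [⟨17, 5570, 2, 0, 0, 30, 0, 14, 0⟩, ⟨17, 7260, 2, 0, 30, 12, 0, 2, 0⟩], [⟨33, 2270, -50, 0, 18, 16, 0, -30, 0⟩]⟩,
  ⟨[⟨0, 10, 0, 1, -1, 0, 0, 0, 0⟩], [⟨9, 2520, 2, 14, 4, 0, 2, 0, 0⟩], [⟨17, 2100, -26, 10, 8, 0, -14, 0, 0⟩]⟩,
  ⟨[⟨0, -400, 0, 0, -1, 1, 0, 0, 0⟩], [⟨43, 15000, 2, 0, 0, 40, 0, 78, 0⟩], [⟨83, 5400, -126, 0, 44, 40, 0, -78, 0⟩]⟩,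
  ⟨[⟨0, -159, 0, -1, 1, 0, 0, 0, 0⟩], [⟨49, 19020, 2, 0, 46, 0, 94, 0, 0⟩, ⟨49, 18180, 2, 94, 44, 0, 2, 0, 0⟩], [⟨97, 8340, -146, 50, 48, 0, -94, 0, 0⟩]⟩,
  ⟨[], [⟨39, 14550, 2, 0, 0, 36, 0, 78, 0⟩, ⟨39, 13920, 2, 0, 76, 36, 0, 2, 0⟩], [⟨79, 7420, -118, 0, 40, 40, 0, -78, 0⟩]⟩,
  ⟨[⟨0, -23, 0, 0, -1, 1, 0, 0, 0⟩, ⟨0, 60, 0, 0, 1, -1, 0, 0, 0⟩], [⟨11, 3960, 2, 0, 16, 4, 0, 2, 0⟩], [⟨19, 770, -30, 0, 12, 8, 0, -14, 0⟩]⟩,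
  ⟨[⟨0, -126, 0, -1, 1, 0, 0, 0, 0⟩, ⟨0, 138, 0, 1, -1, 0, 0, 0, 0⟩], [⟨14, 4440, 2, 0, 11, 0, 28, 0, 0⟩], [⟨28, 2270, -42, 14, 15, 0, -28, 0, 0⟩]⟩,
  ⟨[⟨0, -220, 0, -1, 1, 0, 0, 0, 0⟩, ⟨0, 245, 0, 1, -1, 0, 0, 0, 0⟩], [⟨14, 4340, 2, 0, 11, 0, 26, 0, 0⟩], [⟨26, 2030, -40, 12, 15, 0, -26, 0, 0⟩, ⟨20, 3159, -19, 6, 13, 0, 0, 0, 0⟩]⟩]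

def wg33 : List Wn := [
  ⟨[⟨0, -201, 0, -1, 1, 0, 0, 0, 0⟩], [⟨7, 920, 2, 0, 8, 0, 0, 0, 0⟩, ⟨7, 2050, 2, 6, 0, 0, 2, 0, 0⟩, ⟨8, 1260, -7, 4, 3, 0, 0, 0, 0⟩], [⟨9, 1330, -16, 8, 2, 0, -4, 0, 0⟩]⟩,
  ⟨[⟨0, -150, 0, -1, 1, 0, 0, 0, 0⟩, ⟨0, 165, 0, 1, -1, 0, 0, 0, 0⟩], [⟨3, 20, 2, 0, 0, 0, 2, 0, 0⟩], [⟨5, 1110, -8, 4, 2, 0, -2, 0, 0⟩, ⟨4, 547, -3, 2, 1, 0, 0, 0, 0⟩]⟩,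
  ⟨[⟨0, -133, 0, 0, -1, 1, 0, 0, 0⟩], [⟨53, 22480, 2, 0, 0, 50, 0, 102, 0⟩, ⟨53, 21650, 2, 0, 102, 48, 0, 2, 0⟩], [⟨105, 7070, -158, 0, 54, 52, 0, -102, 0⟩]⟩,
  ⟨[⟨0, -1350, 0, -1, 1, 0, 0, 0, 0⟩], [⟨42, 13040, 2, 0, 39, 0, 84, 0, 0⟩], [⟨84, 6590, -126, 42, 43, 0, -84, 0, 0⟩]⟩,
  ⟨[⟨0, -99, 0, -1, 1, 0, 0, 0, 0⟩, ⟨0, 101, 0, 1, -1, 0, 0, 0, 0⟩], [⟨17, 6270, 2, 0, 14, 0, 30, 0, 0⟩], [⟨33, 2230, -50, 18, 16, 0, -30, 0, 0⟩]⟩,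
  ⟨[⟨0, -400, 0, 0, -1, 1, 0, 0, 0⟩, ⟨0, 500, 0, 0, 1, -1, 0, 0, 0⟩], [⟨15, 4470, 2, 0, 0, 12, 0, 26, 0⟩], [⟨29, 2520, -44, 0, 16, 14, 0, -26, 0⟩, ⟨22, 3471, -21, 0, 8, 13, 0, 0, 0⟩]⟩,
  ⟨[⟨0, -399, 0, -1, 1, 0, 0, 0, 0⟩], [⟨47, 20760, 2, 0, 44, 0, 86, 0, 0⟩, ⟨47, 20360, 2, 88, 40, 0, 2, 0, 0⟩], [⟨91, 5040, -138, 48, 44, 0, -86, 0, 0⟩]⟩,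
  ⟨[⟨0, -105, 0, -1, 1, 0, 0, 0, 0⟩, ⟨0, 108, 0, 1, -1, 0, 0, 0, 0⟩], [⟨14, 4610, 2, 0, 11, 0, 28, 0, 0⟩], [⟨28, 2270, -42, 14, 15, 0, -28, 0, 0⟩]⟩,
  ⟨[], [⟨11, 2170, 2, 0, 0, 20, 0, 10, 0⟩, ⟨11, 3630, 2, 0, 20, 8, 0, 2, 0⟩], [⟨23, 2070, -34, 0, 12, 12, 0, -22, 0⟩]⟩,
  ⟨[⟨0, -1200, 0, -1, 1, 0, 0, 0, 0⟩], [⟨10, 2820, 2, 0, 7, 0, 20, 0, 0⟩], [⟨20, 740, -30, 10, 11, 0, -20, 0, 0⟩]⟩,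
  ⟨[⟨0, -66, 0, -1, 1, 0, 0, 0, 0⟩, ⟨0, 76, 0, 1, -1, 0, 0, 0, 0⟩], [⟨6, 2320, 2, 10, 3, 0, 2, 0, 0⟩], [⟨12, 1220, -18, 6, 7, 0, -12, 0, 0⟩]⟩,
  ⟨[⟨0, -1350, 0, -1, 1, 0, 0, 0, 0⟩], [⟨6, 1370, 2, 0, 3, 0, 8, 0, 0⟩], [⟨10, 1210, -16, 6, 5, 0, -8, 0, 0⟩, ⟨8, 1286, -7, 3, 4, 0, 0, 0, 0⟩]⟩,
  ⟨[⟨0, -108, 0, -1, 1, 0, 0, 0, 0⟩, ⟨0, 114, 0, 1, -1, 0, 0, 0, 0⟩], [⟨39, 12360, 2, 0, 36, 0, 78, 0, 0⟩], [⟨79, 7420, -118, 40, 40, 0, -78, 0, 0⟩]⟩,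
  ⟨[⟨0, -900, 0, -1, 1, 0, 0, 0, 0⟩], [⟨22, 6760, 2, 0, 19, 0, 44, 0, 0⟩], [⟨44, 3360, -66, 22, 23, 0, -44, 0, 0⟩]⟩,
  ⟨[⟨0, -105, 0, -1, 1, 0, 0, 0, 0⟩, ⟨0, 108, 0, 1, -1, 0, 0, 0, 0⟩], [⟨5, 480, 2, 0, 2, 0, 10, 0, 0⟩], [⟨11, 1610, -16, 6, 6, 0, -10, 0, 0⟩, ⟨8, 939, -7, 3, 4, 0, 0, 0, 0⟩]⟩,
  ⟨[], [⟨47, 13240, 2, 0, 92, 0, 46, 0, 0⟩, ⟨47, 17420, 2, 92, 44, 0, 2, 0, 0⟩], [⟨95, 8960, -142, 48, 48, 0, -94, 0, 0⟩]⟩]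

def wg34 : List Wn := [
  ⟨[⟨0, -900, 0, -1, 1, 0, 0, 0, 0⟩], [⟨25, 8390, 2, 0, 22, 0, 46, 0, 0⟩], [⟨49, 3320, -74, 26, 24, 0, -46, 0, 0⟩]⟩,
  ⟨[⟨0, -200, 0, -1, 1, 0, 0, 0, 0⟩, ⟨0, 220, 0, 1, -1, 0, 0, 0, 0⟩], [⟨27, 8420, 2, 0, 24, 0, 54, 0, 0⟩], [⟨55, 4760, -82, 28, 28, 0, -54, 0, 0⟩]⟩,
  ⟨[⟨0, -300, 0, 0, -1, 1, 0, 0, 0⟩], [⟨35, 10580, 2, 0, 0, 32, 0, 70, 0⟩], [⟨71, 6210, -106, 0, 36, 36, 0, -70, 0⟩]⟩,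
  ⟨[⟨0, -114, 0, -1, 1, 0, 0, 0, 0⟩, ⟨0, 126, 0, 1, -1, 0, 0, 0, 0⟩], [⟨33, 10990, 2, 0, 30, 0, 62, 0, 0⟩], [⟨65, 5530, -98, 34, 32, 0, -62, 0, 0⟩]⟩,
  ⟨[⟨0, -23, 0, 0, -1, 1, 0, 0, 0⟩, ⟨0, 60, 0, 0, 1, -1, 0, 0, 0⟩], [⟨43, 15150, 2, 0, 82, 38, 0, 2, 0⟩], [⟨85, 5850, -128, 0, 44, 42, 0, -82, 0⟩]⟩,
  ⟨[⟨0, -300, 0, 0, -1, 1, 0, 0, 0⟩], [⟨43, 15190, 2, 0, 0, 40, 0, 78, 0⟩], [⟨83, 5370, -126, 0, 44, 40, 0, -78, 0⟩]⟩,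
  ⟨[⟨0, -200, 0, -1, 1, 0, 0, 0, 0⟩, ⟨0, 220, 0, 1, -1, 0, 0, 0, 0⟩], [⟨12, 3220, 2, 0, 9, 0, 24, 0, 0⟩, ⟨18, 2786, -17, 6, 11, 0, 0, 0, 0⟩], [⟨24, 2340, -36, 12, 13, 0, -24, 0, 0⟩]⟩,
  ⟨[⟨0, -270, 0, -1, 1, 0, 0, 0, 0⟩, ⟨0, 300, 0, 1, -1, 0, 0, 0, 0⟩], [⟨30, 9120, 2, 0, 27, 0, 60, 0, 0⟩], [⟨60, 5130, -90, 30, 31, 0, -60, 0, 0⟩]⟩,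
  ⟨[⟨0, -133, 0, -1, 1, 0, 0, 0, 0⟩], [⟨49, 19020, 2, 0, 46, 0, 94, 0, 0⟩, ⟨49, 18180, 2, 94, 44, 0, 2, 0, 0⟩], [⟨97, 8330, -146, 50, 48, 0, -94, 0, 0⟩]⟩,
  ⟨[⟨0, -200, 0, 0, -1, 1, 0, 0, 0⟩], [⟨31, 12270, 2, 0, 0, 28, 0, 50, 0⟩, ⟨44, 7532, -43, 0, 16, 27, 0, 0, 0⟩], [⟨57, 2590, -88, 0, 32, 26, 0, -50, 0⟩]⟩,
  ⟨[⟨0, -138, 0, -1, 1, 0, 0, 0, 0⟩, ⟨0, 150, 0, 1, -1, 0, 0, 0, 0⟩], [⟨39, 12090, 2, 0, 36, 0, 78, 0, 0⟩], [⟨79, 7420, -118, 40, 40, 0, -78, 0, 0⟩]⟩,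
  ⟨[⟨0, -150, 0, 0, -1, 1, 0, 0, 0⟩, ⟨0, 200, 0, 0, 1, -1, 0, 0, 0⟩], [⟨13, 4200, 2, 0, 0, 10, 0, 22, 0⟩], [⟨25, 2050, -38, 0, 14, 12, 0, -22, 0⟩]⟩,
  ⟨[⟨0, -103, 0, -1, 1, 0, 0, 0, 0⟩, ⟨0, 105, 0, 1, -1, 0, 0, 0, 0⟩], [⟨4, 1170, 2, 1, 0, 0, 8, 0, 0⟩], [⟨8, 830, -12, 5, 4, 0, -8, 0, 0⟩, ⟨6, 990, -5, 3, 2, 0, 0, 0, 0⟩]⟩,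
  ⟨[⟨0, -1350, 0, -1, 1, 0, 0, 0, 0⟩], [⟨29, 8590, 2, 0, 26, 0, 56, 0, 0⟩], [⟨57, 4700, -86, 30, 28, 0, -56, 0, 0⟩]⟩,
  ⟨[⟨0, -220, 0, -1, 1, 0, 0, 0, 0⟩, ⟨0, 245, 0, 1, -1, 0, 0, 0, 0⟩], [⟨6, 2210, 2, 0, 3, 0, 12, 0, 0⟩], [⟨12, 1220, -18, 6, 7, 0, -12, 0, 0⟩]⟩,
  ⟨[⟨0, -150, 0, 0, -1, 1, 0, 0, 0⟩, ⟨0, 200, 0, 0, 1, -1, 0, 0, 0⟩], [⟨19, 7380, 2, 0, 0, 16, 0, 28, 0⟩], [⟨33, 1580, -52, 0, 18, 16, 0, -28, 0⟩, ⟨26, 4406, -25, 0, 9, 16, 0, 0, 0⟩]⟩]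

def wg35 : List Wn := [
  ⟨[⟨0, -597, 0, -1, 1, 0, 0, 0, 0⟩], [⟨55, 19150, 2, 0, 104, 0, 50, 0, 0⟩, ⟨55, 23470, 2, 104, 48, 0, 2, 0, 0⟩], [⟨107, 6830, -162, 56, 52, 0, -102, 0, 0⟩]⟩,
  ⟨[⟨0, -1200, 0, -1, 1, 0, 0, 0, 0⟩], [⟨42, 13040, 2, 0, 39, 0, 84, 0, 0⟩], [⟨84, 6590, -126, 42, 43, 0, -84, 0, 0⟩]⟩,
  ⟨[⟨0, -150, 0, 0, -1, 1, 0, 0, 0⟩, ⟨0, 200, 0, 0, 1, -1, 0, 0, 0⟩], [⟨11, 3510, 2, 0, 0, 8, 0, 12, 0⟩], [⟨17, 1410, -28, 0, 10, 8, 0, -12, 0⟩, ⟨14, 2427, -13, 0, 5, 8, 0, 0, 0⟩]⟩,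
  ⟨[⟨0, -1200, 0, -1, 1, 0, 0, 0, 0⟩], [⟨6, 1370, 2, 0, 3, 0, 8, 0, 0⟩], [⟨10, 1210, -16, 6, 5, 0, -8, 0, 0⟩, ⟨8, 1286, -7, 3, 4, 0, 0, 0, 0⟩]⟩,
  ⟨[⟨0, -165, 0, -1, 1, 0, 0, 0, 0⟩, ⟨0, 180, 0, 1, -1, 0, 0, 0, 0⟩], [⟨14, 4340, 2, 0, 11, 0, 28, 0, 0⟩], [⟨28, 2270, -42, 14, 15, 0, -28, 0, 0⟩]⟩,
  ⟨[⟨0, -750, 0, -1, 1, 0, 0, 0, 0⟩], [⟨22, 6770, 2, 0, 19, 0, 44, 0, 0⟩], [⟨44, 3360, -66, 22, 23, 0, -44, 0, 0⟩]⟩,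
  ⟨[], [⟨47, 16950, 2, 0, 44, 0, 94, 0, 0⟩, ⟨47, 16950, 2, 92, 44, 0, 2, 0, 0⟩], [⟨95, 8960, -142, 48, 48, 0, -94, 0, 0⟩]⟩,
  ⟨[⟨0, -750, 0, -1, 1, 0, 0, 0, 0⟩], [⟨25, 8390, 2, 0, 22, 0, 46, 0, 0⟩], [⟨49, 3310, -74, 26, 24, 0, -46, 0, 0⟩]⟩,
  ⟨[⟨0, -200, 0, 0, -1, 1, 0, 0, 0⟩], [⟨35, 10920, 2, 0, 0, 32, 0, 70, 0⟩], [⟨71, 6210, -106, 0, 36, 36, 0, -70, 0⟩]⟩,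
  ⟨[], [⟨7, 2090, 2, 0, 0, 4, 0, 12, 0⟩, ⟨7, 1840, 2, 0, 12, 2, 0, 2, 0⟩], [⟨13, 1540, -20, 0, 6, 8, 0, -12, 0⟩, ⟨10, 1490, -9, 0, 3, 6, 0, 0, 0⟩]⟩,
  ⟨[⟨0, -200, 0, 0, -1, 1, 0, 0, 0⟩], [⟨43, 15590, 2, 0, 0, 40, 0, 78, 0⟩], [⟨83, 5310, -126, 0, 44, 40, 0, -78, 0⟩]⟩,
  ⟨[⟨0, -23, 0, 0, -1, 1, 0, 0, 0⟩, ⟨0, 60, 0, 0, 1, -1, 0, 0, 0⟩], [⟨35, 11160, 2, 0, 68, 32, 0, 2, 0⟩], [⟨71, 6210, -106, 0, 36, 36, 0, -70, 0⟩]⟩,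
  ⟨[], [⟨21, 5480, 2, 0, 40, 0, 20, 0, 0⟩, ⟨21, 7730, 2, 40, 18, 0, 2, 0, 0⟩, ⟨32, 5710, -31, 11, 20, 0, 0, 0, 0⟩], [⟨43, 4300, -64, 22, 22, 0, -42, 0, 0⟩]⟩,
  ⟨[⟨0, -93, 0, -1, 1, 0, 0, 0, 0⟩], [⟨49, 19020, 2, 0, 46, 0, 94, 0, 0⟩, ⟨49, 18180, 2, 94, 44, 0, 2, 0, 0⟩], [⟨97, 8300, -146, 50, 48, 0, -94, 0, 0⟩]⟩,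
  ⟨[⟨0, -23, 0, 0, -1, 1, 0, 0, 0⟩, ⟨0, 60, 0, 0, 1, -1, 0, 0, 0⟩], [⟨11, 4620, 2, 0, 16, 4, 0, 2, 0⟩], [⟨19, 960, -30, 0, 12, 8, 0, -14, 0⟩]⟩,
  ⟨[⟨0, -126, 0, -1, 1, 0, 0, 0, 0⟩, ⟨0, 138, 0, 1, -1, 0, 0, 0, 0⟩], [⟨14, 4350, 2, 1, 10, 0, 26, 0, 0⟩, ⟨20, 3196, -19, 8, 11, 0, 0, 0, 0⟩], [⟨26, 2030, -40, 15, 12, 0, -26, 0, 0⟩]⟩]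

def wg36 : List Wn := [
  ⟨[⟨0, -101, 0, -1, 1, 0, 0, 0, 0⟩, ⟨0, 103, 0, 1, -1, 0, 0, 0, 0⟩], [⟨10, 3320, 2, 0, 7, 0, 20, 0, 0⟩], [⟨20, 740, -30, 10, 11, 0, -20, 0, 0⟩]⟩,
  ⟨[⟨0, -270, 0, -1, 1, 0, 0, 0, 0⟩, ⟨0, 300, 0, 1, -1, 0, 0, 0, 0⟩], [⟨4, 700, 2, 1, 0, 0, 8, 0, 0⟩, ⟨6, 770, -5, 3, 2, 0, 0, 0, 0⟩], [⟨8, 830, -12, 5, 4, 0, -8, 0, 0⟩]⟩,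
  ⟨[⟨0, -150, 0, -1, 1, 0, 0, 0, 0⟩, ⟨0, 165, 0, 1, -1, 0, 0, 0, 0⟩], [⟨33, 10740, 2, 0, 30, 0, 62, 0, 0⟩], [⟨65, 5550, -98, 34, 32, 0, -62, 0, 0⟩]⟩,
  ⟨[⟨0, -1050, 0, -1, 1, 0, 0, 0, 0⟩], [⟨42, 13040, 2, 0, 39, 0, 84, 0, 0⟩], [⟨84, 6590, -126, 42, 43, 0, -84, 0, 0⟩]⟩,
  ⟨[⟨0, -900, 0, -1, 1, 0, 0, 0, 0⟩], [⟨25, 7190, 2, 0, 22, 0, 50, 0, 0⟩, ⟨38, 5868, -37, 13, 24, 0, 0, 0, 0⟩], [⟨51, 4520, -76, 26, 26, 0, -50, 0, 0⟩]⟩,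
  ⟨[], [⟨7, 2850, 2, 0, 4, 0, 14, 0, 0⟩, ⟨7, 2220, 2, 12, 4, 0, 2, 0, 0⟩], [⟨15, 1490, -22, 8, 8, 0, -14, 0, 0⟩]⟩,
  ⟨[⟨0, -1350, 0, -1, 1, 0, 0, 0, 0⟩], [⟨11, 2810, 2, 0, 8, 0, 20, 0, 0⟩, ⟨16, 2365, -15, 6, 9, 0, 0, 0, 0⟩], [⟨21, 1910, -32, 12, 10, 0, -20, 0, 0⟩]⟩,
  ⟨[⟨0, -93, 0, 0, -1, 1, 0, 0, 0⟩], [⟨13, 5470, 2, 0, 0, 10, 0, 22, 0⟩, ⟨13, 4630, 2, 0, 22, 8, 0, 2, 0⟩], [⟨25, 2010, -38, 0, 14, 12, 0, -22, 0⟩]⟩,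
  ⟨[⟨0, -201, 0, -1, 1, 0, 0, 0, 0⟩], [⟨5, 1270, 2, 0, 6, 0, 2, 0, 0⟩, ⟨5, 2050, 2, 6, 0, 0, 2, 0, 0⟩], [⟨9, 860, -14, 6, 4, 0, -6, 0, 0⟩]⟩,
  ⟨[⟨0, -600, 0, -1, 1, 0, 0, 0, 0⟩], [⟨22, 6780, 2, 0, 19, 0, 44, 0, 0⟩], [⟨44, 3360, -66, 22, 23, 0, -44, 0, 0⟩]⟩,
  ⟨[⟨0, -600, 0, 0, -1, 1, 0, 0, 0⟩], [⟨25, 8410, 2, 0, 0, 22, 0, 46, 0⟩], [⟨49, 3310, -74, 0, 26, 24, 0, -46, 0⟩]⟩,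
  ⟨[⟨0, -600, 0, -1, 1, 0, 0, 0, 0⟩], [⟨25, 8410, 2, 0, 22, 0, 46, 0, 0⟩], [⟨49, 3310, -74, 26, 24, 0, -46, 0, 0⟩]⟩,
  ⟨[⟨0, -165, 0, -1, 1, 0, 0, 0, 0⟩, ⟨0, 180, 0, 1, -1, 0, 0, 0, 0⟩], [⟨6, 1460, 2, 1, 2, 0, 12, 0, 0⟩], [⟨12, 1040, -18, 7, 6, 0, -12, 0, 0⟩]⟩,
  ⟨[⟨0, -200, 0, -1, 1, 0, 0, 0, 0⟩, ⟨0, 220, 0, 1, -1, 0, 0, 0, 0⟩], [⟨3, 20, 2, 0, 0, 0, 2, 0, 0⟩, ⟨4, 578, -3, 2, 1, 0, 0, 0, 0⟩], [⟨5, 1130, -8, 4, 2, 0, -2, 0, 0⟩]⟩,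
  ⟨[⟨0, -220, 0, -1, 1, 0, 0, 0, 0⟩, ⟨0, 245, 0, 1, -1, 0, 0, 0, 0⟩], [⟨21, 6280, 2, 0, 18, 0, 38, 0, 0⟩], [⟨41, 3790, -62, 22, 20, 0, -38, 0, 0⟩]⟩,
  ⟨[⟨0, -84, 0, -1, 1, 0, 0, 0, 0⟩, ⟨0, 92, 0, 1, -1, 0, 0, 0, 0⟩], [⟨33, 13440, 2, 0, 30, 0, 66, 0, 0⟩], [⟨67, 5440, -100, 34, 34, 0, -66, 0, 0⟩]⟩]

def wg37 : List Wn := [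
  ⟨[⟨0, -300, 0, 0, -1, 1, 0, 0, 0⟩, ⟨0, 400, 0, 0, 1, -1, 0, 0, 0⟩], [⟨7, 1970, 2, 0, 0, 4, 0, 10, 0⟩], [⟨13, 1190, -20, 0, 8, 6, 0, -10, 0⟩, ⟨10, 1558, -9, 0, 4, 5, 0, 0, 0⟩]⟩,
  ⟨[⟨0, -103, 0, -1, 1, 0, 0, 0, 0⟩, ⟨0, 105, 0, 1, -1, 0, 0, 0, 0⟩], [⟨27, 9020, 2, 0, 24, 0, 54, 0, 0⟩], [⟨55, 4760, -82, 28, 28, 0, -54, 0, 0⟩]⟩,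
  ⟨[⟨0, -825, 0, -1, 1, 0, 0, 0, 0⟩, ⟨0, 900, 0, 1, -1, 0, 0, 0, 0⟩], [⟨7, 1910, 2, 0, 4, 0, 10, 0, 0⟩], [⟨13, 1220, -20, 8, 6, 0, -10, 0, 0⟩, ⟨10, 1559, -9, 4, 5, 0, 0, 0, 0⟩]⟩,
  ⟨[⟨0, -101, 0, -1, 1, 0, 0, 0, 0⟩, ⟨0, 103, 0, 1, -1, 0, 0, 0, 0⟩], [⟨10, 4170, 2, 0, 7, 0, 20, 0, 0⟩], [⟨20, 1590, -30, 10, 11, 0, -20, 0, 0⟩]⟩,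
  ⟨[⟨0, -300, 0, 0, -1, 1, 0, 0, 0⟩, ⟨0, 400, 0, 0, 1, -1, 0, 0, 0⟩], [⟨27, 8490, 2, 0, 0, 24, 0, 50, 0⟩], [⟨53, 4380, -80, 0, 28, 26, 0, -50, 0⟩, ⟨40, 6356, -39, 0, 14, 25, 0, 0, 0⟩]⟩,
  ⟨[⟨0, -900, 0, -1, 1, 0, 0, 0, 0⟩], [⟨42, 13050, 2, 0, 39, 0, 84, 0, 0⟩], [⟨84, 6590, -126, 42, 43, 0, -84, 0, 0⟩]⟩,
  ⟨[⟨0, -1350, 0, -1, 1, 0, 0, 0, 0⟩], [⟨4, 610, 2, 1, 0, 0, 8, 0, 0⟩, ⟨6, 722, -5, 3, 2, 0, 0, 0, 0⟩], [⟨8, 830, -12, 5, 4, 0, -8, 0, 0⟩]⟩,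
  ⟨[], [⟨13, 5470, 2, 0, 0, 10, 0, 22, 0⟩, ⟨13, 4630, 2, 0, 22, 8, 0, 2, 0⟩], [⟨25, 1940, -38, 0, 14, 12, 0, -22, 0⟩]⟩,
  ⟨[⟨0, -23, 0, 0, -1, 1, 0, 0, 0⟩, ⟨0, 60, 0, 0, 1, -1, 0, 0, 0⟩], [⟨15, 4940, 2, 0, 24, 8, 0, 2, 0⟩], [⟨27, 1690, -42, 0, 16, 12, 0, -22, 0⟩]⟩,
  ⟨[⟨0, -101, 0, -1, 1, 0, 0, 0, 0⟩, ⟨0, 103, 0, 1, -1, 0, 0, 0, 0⟩], [⟨7, 1750, 2, 0, 4, 0, 12, 0, 0⟩], [⟨13, 1540, -20, 6, 8, 0, -12, 0, 0⟩, ⟨10, 1633, -9, 3, 6, 0, 0, 0, 0⟩]⟩,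
  ⟨[⟨0, -900, 0, -1, 1, 0, 0, 0, 0⟩], [⟨6, 1370, 2, 0, 3, 0, 8, 0, 0⟩], [⟨10, 1210, -16, 6, 5, 0, -8, 0, 0⟩, ⟨8, 1285, -7, 3, 4, 0, 0, 0, 0⟩]⟩,
  ⟨[⟨0, -450, 0, -1, 1, 0, 0, 0, 0⟩], [⟨22, 6830, 2, 0, 19, 0, 44, 0, 0⟩], [⟨44, 3360, -66, 22, 23, 0, -44, 0, 0⟩]⟩,
  ⟨[⟨0, -105, 0, -1, 1, 0, 0, 0, 0⟩, ⟨0, 108, 0, 1, -1, 0, 0, 0, 0⟩], [⟨6, 2450, 2, 0, 3, 0, 12, 0, 0⟩], [⟨12, 1220, -18, 6, 7, 0, -12, 0, 0⟩]⟩,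
  ⟨[], [⟨47, 17420, 2, 0, 44, 0, 94, 0, 0⟩, ⟨47, 16780, 2, 92, 44, 0, 2, 0, 0⟩], [⟨95, 8960, -142, 48, 48, 0, -94, 0, 0⟩]⟩,
  ⟨[⟨0, -500, 0, 0, -1, 1, 0, 0, 0⟩], [⟨25, 8440, 2, 0, 0, 22, 0, 46, 0⟩], [⟨49, 3310, -74, 0, 26, 24, 0, -46, 0⟩]⟩,
  ⟨[⟨0, -180, 0, -1, 1, 0, 0, 0, 0⟩, ⟨0, 200, 0, 1, -1, 0, 0, 0, 0⟩], [⟨39, 11790, 2, 0, 36, 0, 78, 0, 0⟩], [⟨79, 7420, -118, 40, 40, 0, -78, 0, 0⟩]⟩]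

def wg38 : List Wn := [
  ⟨[⟨0, -450, 0, -1, 1, 0, 0, 0, 0⟩], [⟨25, 8460, 2, 0, 22, 0, 46, 0, 0⟩], [⟨49, 3300, -74, 26, 24, 0, -46, 0, 0⟩]⟩,
  ⟨[⟨0, -1350, 0, -1, 1, 0, 0, 0, 0⟩], [⟨18, 4790, 2, 1, 14, 0, 36, 0, 0⟩], [⟨36, 3250, -54, 19, 18, 0, -36, 0, 0⟩]⟩,
  ⟨[⟨0, -10, 0, -1, 1, 0, 0, 0, 0⟩, ⟨0, 18, 0, 1, -1, 0, 0, 0, 0⟩], [⟨13, 3800, 2, 22, 8, 0, 2, 0, 0⟩], [⟨25, 1950, -38, 14, 12, 0, -22, 0, 0⟩]⟩,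
  ⟨[⟨0, -200, 0, -1, 1, 0, 0, 0, 0⟩, ⟨0, 220, 0, 1, -1, 0, 0, 0, 0⟩], [⟨3, 20, 2, 0, 0, 0, 2, 0, 0⟩], [⟨5, 1130, -8, 4, 2, 0, -2, 0, 0⟩, ⟨4, 559, -3, 2, 1, 0, 0, 0, 0⟩]⟩,
  ⟨[], [⟨7, 2550, 2, 0, 0, 4, 0, 12, 0⟩, ⟨7, 1670, 2, 0, 12, 2, 0, 2, 0⟩], [⟨13, 1540, -20, 0, 6, 8, 0, -12, 0⟩, ⟨10, 1490, -9, 0, 3, 6, 0, 0, 0⟩]⟩,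
  ⟨[⟨0, -245, 0, -1, 1, 0, 0, 0, 0⟩, ⟨0, 270, 0, 1, -1, 0, 0, 0, 0⟩], [⟨42, 13590, 2, 0, 39, 0, 84, 0, 0⟩], [⟨84, 6590, -126, 42, 43, 0, -84, 0, 0⟩]⟩,
  ⟨[⟨0, -114, 0, -1, 1, 0, 0, 0, 0⟩, ⟨0, 126, 0, 1, -1, 0, 0, 0, 0⟩], [⟨26, 8540, 2, 0, 23, 0, 52, 0, 0⟩], [⟨52, 4320, -78, 26, 27, 0, -52, 0, 0⟩]⟩,
  ⟨[⟨0, -18, 0, -1, 1, 0, 0, 0, 0⟩, ⟨0, 27, 0, 1, -1, 0, 0, 0, 0⟩], [⟨31, 9390, 2, 60, 28, 0, 2, 0, 0⟩], [⟨63, 5570, -94, 32, 32, 0, -62, 0, 0⟩]⟩,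
  ⟨[⟨0, -126, 0, -1, 1, 0, 0, 0, 0⟩, ⟨0, 138, 0, 1, -1, 0, 0, 0, 0⟩], [⟨14, 4340, 2, 1, 10, 0, 28, 0, 0⟩], [⟨28, 2270, -42, 15, 14, 0, -28, 0, 0⟩]⟩,
  ⟨[⟨0, -220, 0, -1, 1, 0, 0, 0, 0⟩, ⟨0, 245, 0, 1, -1, 0, 0, 0, 0⟩], [⟨13, 3440, 2, 0, 10, 0, 26, 0, 0⟩, ⟨20, 3121, -19, 7, 12, 0, 0, 0, 0⟩], [⟨27, 2790, -40, 14, 14, 0, -26, 0, 0⟩]⟩,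
  ⟨[⟨0, -597, 0, -1, 1, 0, 0, 0, 0⟩], [⟨55, 18260, 2, 0, 104, 0, 52, 0, 0⟩, ⟨55, 21660, 2, 106, 48, 0, 2, 0, 0⟩], [⟨107, 7580, -162, 54, 54, 0, -104, 0, 0⟩]⟩,
  ⟨[⟨0, -50, 0, -1, 1, 0, 0, 0, 0⟩, ⟨0, 66, 0, 1, -1, 0, 0, 0, 0⟩], [⟨25, 8090, 2, 48, 22, 0, 2, 0, 0⟩], [⟨51, 4320, -76, 26, 26, 0, -50, 0, 0⟩]⟩,
  ⟨[⟨0, -750, 0, -1, 1, 0, 0, 0, 0⟩], [⟨42, 13060, 2, 0, 39, 0, 84, 0, 0⟩], [⟨84, 6590, -126, 42, 43, 0, -84, 0, 0⟩]⟩,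
  ⟨[⟨0, -1200, 0, -1, 1, 0, 0, 0, 0⟩], [⟨4, 610, 2, 1, 0, 0, 8, 0, 0⟩, ⟨6, 722, -5, 3, 2, 0, 0, 0, 0⟩], [⟨8, 830, -12, 5, 4, 0, -8, 0, 0⟩]⟩,
  ⟨[⟨0, -600, 0, -1, 1, 0, 0, 0, 0⟩], [⟨25, 7220, 2, 0, 22, 0, 50, 0, 0⟩, ⟨38, 5881, -37, 13, 24, 0, 0, 0, 0⟩], [⟨51, 4520, -76, 26, 26, 0, -50, 0, 0⟩]⟩,
  ⟨[], [⟨7, 3520, 2, 0, 4, 0, 14, 0, 0⟩, ⟨7, 2880, 2, 12, 4, 0, 2, 0, 0⟩], [⟨15, 1680, -22, 8, 8, 0, -14, 0, 0⟩]⟩]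

def wg39 : List Wn := [
  ⟨[⟨0, -133, 0, -1, 1, 0, 0, 0, 0⟩], [⟨5, 1270, 2, 0, 6, 0, 2, 0, 0⟩, ⟨5, 2050, 2, 6, 0, 0, 2, 0, 0⟩], [⟨9, 830, -14, 6, 4, 0, -6, 0, 0⟩]⟩,
  ⟨[⟨0, -750, 0, -1, 1, 0, 0, 0, 0⟩], [⟨6, 1370, 2, 0, 3, 0, 8, 0, 0⟩], [⟨10, 1210, -16, 6, 5, 0, -8, 0, 0⟩, ⟨8, 1285, -7, 3, 4, 0, 0, 0, 0⟩]⟩,
  ⟨[⟨0, -300, 0, -1, 1, 0, 0, 0, 0⟩], [⟨22, 6950, 2, 0, 19, 0, 44, 0, 0⟩], [⟨44, 3360, -66, 22, 23, 0, -44, 0, 0⟩]⟩,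
  ⟨[⟨0, -400, 0, 0, -1, 1, 0, 0, 0⟩], [⟨25, 8500, 2, 0, 0, 22, 0, 46, 0⟩], [⟨49, 3300, -74, 0, 26, 24, 0, -46, 0⟩]⟩,
  ⟨[⟨0, -159, 0, 0, -1, 1, 0, 0, 0⟩], [⟨59, 21540, 2, 0, 0, 112, 0, 54, 0⟩, ⟨59, 26160, 2, 0, 112, 52, 0, 2, 0⟩], [⟨115, 6190, -174, 0, 60, 56, 0, -110, 0⟩]⟩,
  ⟨[], [⟨55, 17690, 2, 0, 108, 0, 54, 0, 0⟩, ⟨55, 22480, 2, 108, 52, 0, 2, 0, 0⟩], [⟨111, 8310, -166, 56, 56, 0, -110, 0, 0⟩]⟩,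
  ⟨[⟨0, -300, 0, -1, 1, 0, 0, 0, 0⟩], [⟨25, 8610, 2, 0, 22, 0, 46, 0, 0⟩], [⟨49, 3280, -74, 26, 24, 0, -46, 0, 0⟩]⟩,
  ⟨[⟨0, -1200, 0, -1, 1, 0, 0, 0, 0⟩], [⟨18, 4790, 2, 1, 14, 0, 36, 0, 0⟩], [⟨36, 3250, -54, 19, 18, 0, -36, 0, 0⟩]⟩,
  ⟨[⟨0, -126, 0, -1, 1, 0, 0, 0, 0⟩, ⟨0, 138, 0, 1, -1, 0, 0, 0, 0⟩], [⟨7, 2480, 2, 0, 4, 0, 6, 0, 0⟩], [⟨11, 1440, -18, 8, 4, 0, -6, 0, 0⟩]⟩,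
  ⟨[⟨0, -50, 0, -1, 1, 0, 0, 0, 0⟩, ⟨0, 66, 0, 1, -1, 0, 0, 0, 0⟩], [⟨4, 1630, 2, 6, 1, 0, 2, 0, 0⟩], [⟨8, 820, -12, 4, 5, 0, -8, 0, 0⟩]⟩,
  ⟨[], [⟨37, 15860, 2, 0, 34, 0, 70, 0, 0⟩, ⟨37, 15020, 2, 70, 32, 0, 2, 0, 0⟩], [⟨73, 4770, -110, 38, 36, 0, -70, 0, 0⟩]⟩,
  ⟨[⟨0, -92, 0, -1, 1, 0, 0, 0, 0⟩, ⟨0, 99, 0, 1, -1, 0, 0, 0, 0⟩], [⟨13, 4540, 2, 0, 10, 0, 22, 0, 0⟩], [⟨25, 2010, -38, 14, 12, 0, -22, 0, 0⟩]⟩,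
  ⟨[⟨0, -270, 0, -1, 1, 0, 0, 0, 0⟩, ⟨0, 300, 0, 1, -1, 0, 0, 0, 0⟩], [⟨27, 8210, 2, 0, 24, 0, 54, 0, 0⟩], [⟨55, 4760, -82, 28, 28, 0, -54, 0, 0⟩]⟩,
  ⟨[⟨0, -500, 0, 0, -1, 1, 0, 0, 0⟩], [⟨25, 7250, 2, 0, 0, 22, 0, 50, 0⟩, ⟨38, 5895, -37, 0, 13, 24, 0, 0, 0⟩], [⟨51, 4520, -76, 0, 26, 26, 0, -50, 0⟩]⟩,
  ⟨[⟨0, -600, 0, -1, 1, 0, 0, 0, 0⟩], [⟨42, 13090, 2, 0, 39, 0, 84, 0, 0⟩], [⟨84, 6590, -126, 42, 43, 0, -84, 0, 0⟩]⟩,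
  ⟨[⟨0, -1050, 0, -1, 1, 0, 0, 0, 0⟩], [⟨4, 610, 2, 1, 0, 0, 8, 0, 0⟩, ⟨6, 722, -5, 3, 2, 0, 0, 0, 0⟩], [⟨8, 830, -12, 5, 4, 0, -8, 0, 0⟩]⟩]

def wg40 : List Wn := [
  ⟨[⟨0, -150, 0, -1, 1, 0, 0, 0, 0⟩, ⟨0, 165, 0, 1, -1, 0, 0, 0, 0⟩], [⟨26, 8350, 2, 0, 23, 0, 52, 0, 0⟩], [⟨52, 4320, -78, 26, 27, 0, -52, 0, 0⟩]⟩,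
  ⟨[⟨0, -270, 0, -1, 1, 0, 0, 0, 0⟩, ⟨0, 300, 0, 1, -1, 0, 0, 0, 0⟩], [⟨12, 3140, 2, 0, 9, 0, 24, 0, 0⟩, ⟨18, 2748, -17, 6, 11, 0, 0, 0, 0⟩], [⟨24, 2340, -36, 12, 13, 0, -24, 0, 0⟩]⟩,
  ⟨[⟨0, -600, 0, -1, 1, 0, 0, 0, 0⟩], [⟨6, 1370, 2, 0, 3, 0, 8, 0, 0⟩], [⟨10, 1200, -16, 6, 5, 0, -8, 0, 0⟩, ⟨8, 1282, -7, 3, 4, 0, 0, 0, 0⟩]⟩,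
  ⟨[⟨0, -165, 0, -1, 1, 0, 0, 0, 0⟩, ⟨0, 180, 0, 1, -1, 0, 0, 0, 0⟩], [⟨14, 4230, 2, 1, 10, 0, 28, 0, 0⟩], [⟨28, 2270, -42, 15, 14, 0, -28, 0, 0⟩]⟩,
  ⟨[], [⟨31, 12000, 2, 0, 28, 0, 62, 0, 0⟩, ⟨31, 11360, 2, 60, 28, 0, 2, 0, 0⟩], [⟨63, 5570, -94, 32, 32, 0, -62, 0, 0⟩]⟩,
  ⟨[⟨0, -300, 0, 0, -1, 1, 0, 0, 0⟩], [⟨25, 8610, 2, 0, 0, 22, 0, 46, 0⟩], [⟨49, 3280, -74, 0, 26, 24, 0, -46, 0⟩]⟩,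
  ⟨[], [⟨55, 22010, 2, 0, 52, 0, 110, 0, 0⟩, ⟨55, 22010, 2, 108, 52, 0, 2, 0, 0⟩], [⟨111, 8310, -166, 56, 56, 0, -110, 0, 0⟩]⟩,
  ⟨[⟨0, -38, 0, -1, 1, 0, 0, 0, 0⟩, ⟨0, 50, 0, 1, -1, 0, 0, 0, 0⟩], [⟨41, 12680, 2, 80, 38, 0, 2, 0, 0⟩], [⟨83, 7550, -124, 42, 42, 0, -82, 0, 0⟩]⟩,
  ⟨[⟨0, -180, 0, -1, 1, 0, 0, 0, 0⟩, ⟨0, 200, 0, 1, -1, 0, 0, 0, 0⟩], [⟨10, 2950, 2, 0, 7, 0, 18, 0, 0⟩], [⟨18, 1470, -28, 8, 11, 0, -18, 0, 0⟩, ⟨14, 2198, -13, 4, 9, 0, 0, 0, 0⟩]⟩,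
  ⟨[⟨0, -400, 0, 0, -1, 1, 0, 0, 0⟩, ⟨0, 500, 0, 0, 1, -1, 0, 0, 0⟩], [⟨19, 7030, 2, 0, 0, 16, 0, 28, 0⟩], [⟨33, 1730, -52, 0, 18, 16, 0, -28, 0⟩, ⟨26, 4349, -25, 0, 9, 16, 0, 0, 0⟩]⟩,
  ⟨[⟨0, -200, 0, -1, 1, 0, 0, 0, 0⟩, ⟨0, 220, 0, 1, -1, 0, 0, 0, 0⟩], [⟨33, 10480, 2, 0, 30, 0, 62, 0, 0⟩], [⟨65, 5570, -98, 34, 32, 0, -62, 0, 0⟩]⟩,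
  ⟨[⟨0, -597, 0, -1, 1, 0, 0, 0, 0⟩], [⟨57, 23470, 2, 0, 54, 0, 110, 0, 0⟩, ⟨57, 22640, 2, 110, 52, 0, 2, 0, 0⟩], [⟨113, 8370, -170, 58, 56, 0, -110, 0, 0⟩]⟩,
  ⟨[⟨0, -400, 0, 0, -1, 1, 0, 0, 0⟩, ⟨0, 500, 0, 0, 1, -1, 0, 0, 0⟩], [⟨11, 3340, 2, 0, 0, 8, 0, 12, 0⟩], [⟨17, 1560, -28, 0, 10, 8, 0, -12, 0⟩, ⟨14, 2440, -13, 0, 5, 8, 0, 0, 0⟩]⟩,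
  ⟨[⟨0, -101, 0, -1, 1, 0, 0, 0, 0⟩, ⟨0, 103, 0, 1, -1, 0, 0, 0, 0⟩], [⟨39, 12580, 2, 0, 36, 0, 78, 0, 0⟩], [⟨79, 7420, -118, 40, 40, 0, -78, 0, 0⟩]⟩,
  ⟨[⟨0, -220, 0, -1, 1, 0, 0, 0, 0⟩, ⟨0, 245, 0, 1, -1, 0, 0, 0, 0⟩], [⟨14, 4250, 2, 0, 11, 0, 28, 0, 0⟩], [⟨28, 2270, -42, 14, 15, 0, -28, 0, 0⟩]⟩,
  ⟨[⟨0, -114, 0, -1, 1, 0, 0, 0, 0⟩, ⟨0, 126, 0, 1, -1, 0, 0, 0, 0⟩], [⟨9, 2310, 2, 0, 6, 0, 14, 0, 0⟩], [⟨17, 2000, -26, 10, 8, 0, -14, 0, 0⟩]⟩]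

def wg41 : List Wn := [
  ⟨[⟨0, -150, 0, 0, -1, 1, 0, 0, 0⟩, ⟨0, 200, 0, 0, 1, -1, 0, 0, 0⟩], [⟨19, 6970, 2, 0, 0, 16, 0, 30, 0⟩], [⟨35, 2160, -54, 0, 20, 16, 0, -30, 0⟩]⟩,
  ⟨[⟨0, -1350, 0, -1, 1, 0, 0, 0, 0⟩], [⟨7, 1490, 2, 0, 4, 0, 14, 0, 0⟩], [⟨15, 830, -22, 8, 8, 0, -14, 0, 0⟩]⟩,
  ⟨[⟨0, -450, 0, -1, 1, 0, 0, 0, 0⟩], [⟨42, 13170, 2, 0, 39, 0, 84, 0, 0⟩], [⟨84, 6590, -126, 42, 43, 0, -84, 0, 0⟩]⟩,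
  ⟨[⟨0, -900, 0, -1, 1, 0, 0, 0, 0⟩], [⟨4, 610, 2, 1, 0, 0, 8, 0, 0⟩, ⟨6, 722, -5, 3, 2, 0, 0, 0, 0⟩], [⟨8, 830, -12, 5, 4, 0, -8, 0, 0⟩]⟩,
  ⟨[⟨0, -450, 0, -1, 1, 0, 0, 0, 0⟩], [⟨6, 1380, 2, 0, 3, 0, 8, 0, 0⟩], [⟨10, 1190, -16, 6, 5, 0, -8, 0, 0⟩, ⟨8, 1277, -7, 3, 4, 0, 0, 0, 0⟩]⟩,
  ⟨[⟨0, -1350, 0, -1, 1, 0, 0, 0, 0⟩], [⟨38, 11800, 2, 1, 34, 0, 76, 0, 0⟩], [⟨76, 5730, -114, 39, 38, 0, -76, 0, 0⟩]⟩,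
  ⟨[⟨0, -200, 0, 0, -1, 1, 0, 0, 0⟩], [⟨25, 8850, 2, 0, 0, 22, 0, 46, 0⟩], [⟨49, 3250, -74, 0, 26, 24, 0, -46, 0⟩]⟩,
  ⟨[⟨0, -1200, 0, 0, -1, 1, 0, 0, 0⟩], [⟨13, 4210, 2, 0, 0, 10, 0, 18, 0⟩, ⟨18, 2974, -17, 0, 7, 10, 0, 0, 0⟩], [⟨23, 1730, -36, 0, 14, 10, 0, -18, 0⟩]⟩,
  ⟨[⟨0, -900, 0, -1, 1, 0, 0, 0, 0⟩], [⟨18, 4790, 2, 1, 14, 0, 36, 0, 0⟩], [⟨36, 3250, -54, 19, 18, 0, -36, 0, 0⟩]⟩,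
  ⟨[], [⟨7, 2550, 2, 0, 0, 4, 0, 12, 0⟩, ⟨7, 1670, 2, 0, 12, 2, 0, 2, 0⟩], [⟨13, 1540, -20, 0, 6, 8, 0, -12, 0⟩, ⟨10, 1400, -9, 0, 9, 5, 0, -5, 0⟩]⟩,
  ⟨[⟨0, -530, 0, -1, 1, 0, 0, 0, 0⟩, ⟨0, 600, 0, 1, -1, 0, 0, 0, 0⟩], [⟨37, 12500, 2, 0, 34, 0, 70, 0, 0⟩], [⟨73, 4970, -110, 38, 36, 0, -70, 0, 0⟩]⟩,
  ⟨[⟨0, -23, 0, 0, -1, 1, 0, 0, 0⟩, ⟨0, 60, 0, 0, 1, -1, 0, 0, 0⟩], [⟨41, 13850, 2, 0, 78, 36, 0, 2, 0⟩], [⟨81, 6150, -122, 0, 42, 40, 0, -78, 0⟩]⟩,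
  ⟨[⟨0, -750, 0, -1, 1, 0, 0, 0, 0⟩, ⟨0, 825, 0, 1, -1, 0, 0, 0, 0⟩], [⟨11, 3010, 2, 0, 8, 0, 20, 0, 0⟩], [⟨21, 1910, -32, 10, 12, 0, -20, 0, 0⟩, ⟨16, 2454, -15, 5, 10, 0, 0, 0, 0⟩]⟩,
  ⟨[⟨0, -100, 0, 0, -1, 1, 0, 0, 0⟩, ⟨0, 150, 0, 0, 1, -1, 0, 0, 0⟩], [⟨15, 5560, 2, 0, 0, 12, 0, 20, 0⟩], [⟨25, 1460, -40, 0, 14, 12, 0, -20, 0⟩, ⟨20, 3433, -19, 0, 7, 12, 0, 0, 0⟩]⟩,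
  ⟨[⟨0, -114, 0, -1, 1, 0, 0, 0, 0⟩, ⟨0, 126, 0, 1, -1, 0, 0, 0, 0⟩], [⟨9, 2120, 2, 0, 6, 0, 14, 0, 0⟩], [⟨17, 1340, -26, 10, 8, 0, -14, 0, 0⟩]⟩,
  ⟨[⟨0, -220, 0, -1, 1, 0, 0, 0, 0⟩, ⟨0, 245, 0, 1, -1, 0, 0, 0, 0⟩], [⟨6, 1440, 2, 1, 2, 0, 12, 0, 0⟩], [⟨12, 1040, -18, 7, 6, 0, -12, 0, 0⟩]⟩]

def wg42 : List Wn := [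
  ⟨[⟨0, -76, 0, -1, 1, 0, 0, 0, 0⟩, ⟨0, 84, 0, 1, -1, 0, 0, 0, 0⟩], [⟨3, -30, 2, 2, 0, 0, 2, 0, 0⟩], [⟨5, 680, -8, 4, 2, 0, -4, 0, 0⟩]⟩,
  ⟨[⟨0, -1200, 0, -1, 1, 0, 0, 0, 0⟩], [⟨7, 1490, 2, 0, 4, 0, 14, 0, 0⟩], [⟨15, 830, -22, 8, 8, 0, -14, 0, 0⟩]⟩,
  ⟨[⟨0, -270, 0, -1, 1, 0, 0, 0, 0⟩, ⟨0, 300, 0, 1, -1, 0, 0, 0, 0⟩], [⟨3, 10, 2, 0, 0, 0, 2, 0, 0⟩, ⟨4, 589, -3, 2, 1, 0, 0, 0, 0⟩], [⟨5, 1150, -8, 4, 2, 0, -2, 0, 0⟩]⟩,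
  ⟨[⟨0, -300, 0, 0, -1, 1, 0, 0, 0⟩], [⟨25, 7420, 2, 0, 0, 22, 0, 50, 0⟩, ⟨38, 5985, -37, 0, 13, 24, 0, 0, 0⟩], [⟨51, 4520, -76, 0, 26, 26, 0, -50, 0⟩]⟩,
  ⟨[⟨0, -300, 0, -1, 1, 0, 0, 0, 0⟩], [⟨42, 13410, 2, 0, 39, 0, 84, 0, 0⟩], [⟨84, 6590, -126, 42, 43, 0, -84, 0, 0⟩]⟩,
  ⟨[⟨0, -750, 0, -1, 1, 0, 0, 0, 0⟩], [⟨4, 610, 2, 1, 0, 0, 8, 0, 0⟩, ⟨6, 723, -5, 3, 2, 0, 0, 0, 0⟩], [⟨8, 830, -12, 5, 4, 0, -8, 0, 0⟩]⟩,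
  ⟨[⟨0, -1350, 0, -1, 1, 0, 0, 0, 0⟩], [⟨25, 7190, 2, 0, 22, 0, 50, 0, 0⟩], [⟨51, 4520, -76, 26, 26, 0, -50, 0, 0⟩, ⟨38, 5842, -37, 13, 24, 0, 0, 0, 0⟩]⟩,
  ⟨[⟨0, -1350, 0, -1, 1, 0, 0, 0, 0⟩], [⟨10, 3000, 2, 0, 7, 0, 20, 0, 0⟩], [⟨20, 1410, -30, 10, 11, 0, -20, 0, 0⟩]⟩,
  ⟨[⟨0, -300, 0, -1, 1, 0, 0, 0, 0⟩], [⟨6, 1400, 2, 0, 3, 0, 8, 0, 0⟩], [⟨10, 1160, -16, 6, 5, 0, -8, 0, 0⟩, ⟨8, 1261, -7, 3, 4, 0, 0, 0, 0⟩]⟩,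
  ⟨[⟨0, -1200, 0, -1, 1, 0, 0, 0, 0⟩], [⟨38, 11800, 2, 1, 34, 0, 76, 0, 0⟩], [⟨76, 5730, -114, 39, 38, 0, -76, 0, 0⟩]⟩,
  ⟨[⟨0, -103, 0, -1, 1, 0, 0, 0, 0⟩, ⟨0, 105, 0, 1, -1, 0, 0, 0, 0⟩], [⟨9, 2360, 2, 0, 6, 0, 14, 0, 0⟩], [⟨17, 2000, -26, 10, 8, 0, -14, 0, 0⟩]⟩,
  ⟨[], [⟨55, 22480, 2, 0, 52, 0, 110, 0, 0⟩, ⟨55, 21840, 2, 108, 52, 0, 2, 0, 0⟩], [⟨111, 8310, -166, 56, 56, 0, -110, 0, 0⟩]⟩,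
  ⟨[⟨0, -99, 0, -1, 1, 0, 0, 0, 0⟩, ⟨0, 101, 0, 1, -1, 0, 0, 0, 0⟩], [⟨15, 4900, 2, 0, 12, 0, 26, 0, 0⟩], [⟨29, 2420, -44, 16, 14, 0, -26, 0, 0⟩, ⟨22, 3618, -21, 8, 13, 0, 0, 0, 0⟩]⟩,
  ⟨[⟨0, -400, 0, 0, -1, 1, 0, 0, 0⟩, ⟨0, 500, 0, 0, 1, -1, 0, 0, 0⟩], [⟨14, 4320, 2, 0, 0, 11, 0, 24, 0⟩], [⟨26, 2050, -40, 0, 14, 13, 0, -24, 0⟩, ⟨20, 3166, -19, 0, 7, 12, 0, 0, 0⟩]⟩,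
  ⟨[⟨0, -150, 0, -1, 1, 0, 0, 0, 0⟩, ⟨0, 165, 0, 1, -1, 0, 0, 0, 0⟩], [⟨9, 2210, 2, 0, 6, 0, 14, 0, 0⟩], [⟨17, 2030, -26, 10, 8, 0, -14, 0, 0⟩]⟩,
  ⟨[⟨0, -750, 0, -1, 1, 0, 0, 0, 0⟩], [⟨18, 4790, 2, 1, 14, 0, 36, 0, 0⟩], [⟨36, 3250, -54, 19, 18, 0, -36, 0, 0⟩]⟩]

def wg43 : List Wn := [
  ⟨[⟨0, -99, 0, -1, 1, 0, 0, 0, 0⟩, ⟨0, 101, 0, 1, -1, 0, 0, 0, 0⟩], [⟨7, 770, 2, 0, 4, 0, 2, 0, 0⟩], [⟨9, 2010, -16, 8, 2, 0, -2, 0, 0⟩, ⟨8, 1384, -7, 4, 3, 0, 0, 0, 0⟩]⟩,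
  ⟨[⟨0, -301, 0, -1, 1, 0, 0, 0, 0⟩], [⟨57, 23470, 2, 0, 54, 0, 110, 0, 0⟩, ⟨57, 22640, 2, 110, 52, 0, 2, 0, 0⟩], [⟨113, 8340, -170, 58, 56, 0, -110, 0, 0⟩]⟩,
  ⟨[⟨0, -114, 0, -1, 1, 0, 0, 0, 0⟩, ⟨0, 126, 0, 1, -1, 0, 0, 0, 0⟩], [⟨9, 2970, 2, 0, 6, 0, 14, 0, 0⟩], [⟨17, 2190, -26, 10, 8, 0, -14, 0, 0⟩]⟩,
  ⟨[⟨0, -245, 0, -1, 1, 0, 0, 0, 0⟩, ⟨0, 270, 0, 1, -1, 0, 0, 0, 0⟩], [⟨39, 11480, 2, 0, 36, 0, 78, 0, 0⟩], [⟨79, 7420, -118, 40, 40, 0, -78, 0, 0⟩]⟩,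
  ⟨[⟨0, -114, 0, -1, 1, 0, 0, 0, 0⟩, ⟨0, 126, 0, 1, -1, 0, 0, 0, 0⟩], [⟨23, 7460, 2, 0, 20, 0, 46, 0, 0⟩], [⟨47, 4110, -70, 24, 24, 0, -46, 0, 0⟩]⟩,
  ⟨[⟨0, -23, 0, 0, -1, 1, 0, 0, 0⟩, ⟨0, 60, 0, 0, 1, -1, 0, 0, 0⟩], [⟨33, 10920, 2, 0, 64, 30, 0, 2, 0⟩], [⟨67, 5440, -100, 0, 34, 34, 0, -66, 0⟩]⟩,
  ⟨[⟨0, -150, 0, 0, -1, 1, 0, 0, 0⟩, ⟨0, 200, 0, 0, 1, -1, 0, 0, 0⟩], [⟨5, 710, 2, 0, 0, 2, 0, 2, 0⟩, ⟨6, 1013, -5, 0, 3, 2, 0, 0, 0⟩], [⟨7, 1280, -12, 0, 6, 2, 0, -2, 0⟩]⟩,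
  ⟨[⟨0, -103, 0, -1, 1, 0, 0, 0, 0⟩, ⟨0, 105, 0, 1, -1, 0, 0, 0, 0⟩], [⟨33, 11110, 2, 0, 30, 0, 62, 0, 0⟩], [⟨65, 5520, -98, 34, 32, 0, -62, 0, 0⟩]⟩,
  ⟨[⟨0, -270, 0, -1, 1, 0, 0, 0, 0⟩, ⟨0, 300, 0, 1, -1, 0, 0, 0, 0⟩], [⟨3, 10, 2, 0, 0, 0, 2, 0, 0⟩], [⟨5, 1150, -8, 4, 2, 0, -2, 0, 0⟩, ⟨4, 572, -3, 2, 1, 0, 0, 0, 0⟩]⟩,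
  ⟨[⟨0, -200, 0, 0, -1, 1, 0, 0, 0⟩], [⟨25, 7670, 2, 0, 0, 22, 0, 50, 0⟩, ⟨38, 6105, -37, 0, 13, 24, 0, 0, 0⟩], [⟨51, 4520, -76, 0, 26, 26, 0, -50, 0⟩]⟩,
  ⟨[⟨0, -600, 0, -1, 1, 0, 0, 0, 0⟩], [⟨4, 610, 2, 1, 0, 0, 8, 0, 0⟩, ⟨6, 725, -5, 3, 2, 0, 0, 0, 0⟩], [⟨8, 830, -12, 5, 4, 0, -8, 0, 0⟩]⟩,
  ⟨[⟨0, -1200, 0, -1, 1, 0, 0, 0, 0⟩], [⟨25, 7190, 2, 0, 22, 0, 50, 0, 0⟩], [⟨51, 4520, -76, 26, 26, 0, -50, 0, 0⟩, ⟨38, 5842, -37, 13, 24, 0, 0, 0, 0⟩]⟩,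
  ⟨[⟨0, 10, 0, 1, -1, 0, 0, 0, 0⟩], [⟨19, 5270, 2, 36, 16, 0, 2, 0, 0⟩], [⟨39, 3690, -58, 20, 20, 0, -38, 0, 0⟩]⟩,
  ⟨[⟨0, -1200, 0, -1, 1, 0, 0, 0, 0⟩], [⟨10, 3000, 2, 0, 7, 0, 20, 0, 0⟩], [⟨20, 1410, -30, 10, 11, 0, -20, 0, 0⟩]⟩,
  ⟨[⟨0, -18, 0, -1, 1, 0, 0, 0, 0⟩, ⟨0, 27, 0, 1, -1, 0, 0, 0, 0⟩], [⟨3, 200, 2, 2, 0, 0, 2, 0, 0⟩], [⟨5, 680, -8, 4, 2, 0, -4, 0, 0⟩]⟩,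
  ⟨[⟨0, -825, 0, -1, 1, 0, 0, 0, 0⟩, ⟨0, 900, 0, 1, -1, 0, 0, 0, 0⟩], [⟨25, 8390, 2, 0, 22, 0, 46, 0, 0⟩], [⟨49, 3320, -74, 26, 24, 0, -46, 0, 0⟩]⟩]

def wg44 : List Wn := [
  ⟨[⟨0, -103, 0, -1, 1, 0, 0, 0, 0⟩, ⟨0, 105, 0, 1, -1, 0, 0, 0, 0⟩], [⟨9, 2170, 2, 0, 6, 0, 14, 0, 0⟩], [⟨17, 1330, -26, 10, 8, 0, -14, 0, 0⟩]⟩,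
  ⟨[], [⟨63, 19580, 2, 0, 124, 0, 62, 0, 0⟩, ⟨63, 24970, 2, 124, 60, 0, 2, 0, 0⟩], [⟨127, 10230, -190, 64, 64, 0, -126, 0, 0⟩]⟩,
  ⟨[⟨0, -1350, 0, -1, 1, 0, 0, 0, 0⟩], [⟨11, 3010, 2, 0, 8, 0, 20, 0, 0⟩], [⟨21, 1910, -32, 10, 12, 0, -20, 0, 0⟩, ⟨16, 2453, -15, 5, 10, 0, 0, 0, 0⟩]⟩,
  ⟨[⟨0, -108, 0, -1, 1, 0, 0, 0, 0⟩, ⟨0, 114, 0, 1, -1, 0, 0, 0, 0⟩], [⟨9, 2220, 2, 0, 6, 0, 18, 0, 0⟩, ⟨14, 2187, -13, 5, 8, 0, 0, 0, 0⟩], [⟨19, 2140, -28, 10, 10, 0, -18, 0, 0⟩]⟩,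
  ⟨[⟨0, -800, 0, 0, -1, 1, 0, 0, 0⟩], [⟨13, 4210, 2, 0, 0, 10, 0, 18, 0⟩, ⟨18, 2975, -17, 0, 7, 10, 0, 0, 0⟩], [⟨23, 1720, -36, 0, 14, 10, 0, -18, 0⟩]⟩,
  ⟨[⟨0, -600, 0, -1, 1, 0, 0, 0, 0⟩], [⟨18, 4810, 2, 1, 14, 0, 36, 0, 0⟩], [⟨36, 3250, -54, 19, 18, 0, -36, 0, 0⟩]⟩,
  ⟨[⟨0, -93, 0, 0, -1, 1, 0, 0, 0⟩], [⟨23, 10670, 2, 0, 0, 20, 0, 38, 0⟩, ⟨23, 9650, 2, 0, 40, 16, 0, 2, 0⟩], [⟨43, 2150, -66, 0, 24, 20, 0, -38, 0⟩]⟩,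
  ⟨[⟨0, -108, 0, -1, 1, 0, 0, 0, 0⟩, ⟨0, 114, 0, 1, -1, 0, 0, 0, 0⟩], [⟨38, 13310, 2, 0, 35, 0, 76, 0, 0⟩], [⟨76, 5730, -114, 38, 39, 0, -76, 0, 0⟩]⟩,
  ⟨[⟨0, -201, 0, -1, 1, 0, 0, 0, 0⟩], [⟨57, 23470, 2, 0, 54, 0, 110, 0, 0⟩, ⟨57, 22640, 2, 110, 52, 0, 2, 0, 0⟩], [⟨113, 8310, -170, 58, 56, 0, -110, 0, 0⟩]⟩,
  ⟨[⟨0, -200, 0, -1, 1, 0, 0, 0, 0⟩, ⟨0, 220, 0, 1, -1, 0, 0, 0, 0⟩], [⟨26, 8160, 2, 0, 23, 0, 52, 0, 0⟩], [⟨52, 4320, -78, 26, 27, 0, -52, 0, 0⟩]⟩,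
  ⟨[⟨0, -1350, 0, -1, 1, 0, 0, 0, 0⟩], [⟨30, 8510, 2, 1, 26, 0, 56, 0, 0⟩, ⟨44, 6870, -43, 16, 27, 0, 0, 0, 0⟩], [⟨58, 5210, -88, 31, 28, 0, -56, 0, 0⟩]⟩,
  ⟨[⟨0, -150, 0, 0, -1, 1, 0, 0, 0⟩, ⟨0, 200, 0, 0, 1, -1, 0, 0, 0⟩], [⟨43, 14400, 2, 0, 0, 40, 0, 86, 0⟩], [⟨87, 7030, -130, 0, 44, 44, 0, -86, 0⟩]⟩,
  ⟨[⟨0, -76, 0, -1, 1, 0, 0, 0, 0⟩, ⟨0, 84, 0, 1, -1, 0, 0, 0, 0⟩], [⟨3, 630, 2, 2, 0, 0, 2, 0, 0⟩], [⟨5, 860, -8, 4, 2, 0, -4, 0, 0⟩]⟩,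
  ⟨[⟨0, -159, 0, 0, -1, 1, 0, 0, 0⟩], [⟨61, 25860, 2, 0, 0, 58, 0, 118, 0⟩, ⟨61, 25020, 2, 0, 118, 56, 0, 2, 0⟩], [⟨121, 8110, -182, 0, 62, 60, 0, -118, 0⟩]⟩,
  ⟨[⟨0, -201, 0, -1, 1, 0, 0, 0, 0⟩], [⟨7, 1010, 2, 0, 4, 0, 2, 0, 0⟩, ⟨7, 1470, 2, 6, -2, 0, 2, 0, 0⟩], [⟨9, 2100, -16, 8, 2, 0, -2, 0, 0⟩, ⟨8, 1350, -7, 4, 3, 0, 0, 0, 0⟩]⟩,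
  ⟨[⟨0, -138, 0, -1, 1, 0, 0, 0, 0⟩, ⟨0, 150, 0, 1, -1, 0, 0, 0, 0⟩], [⟨9, 2240, 2, 0, 6, 0, 18, 0, 0⟩, ⟨14, 2195, -13, 5, 8, 0, 0, 0, 0⟩], [⟨19, 2140, -28, 10, 10, 0, -18, 0, 0⟩]⟩]


end Pool.Agent.MP_2339ce_nt.Q2.TB
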