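import Pool.Agent.MP_2339ce_nt.Q2.TJTab
import Pool.Agent.MP_2339ce_nt.Q2.G.W4

/-! Project Q2: generated data. -/

set_option autoImplicit false
set_option maxRecDepth 100000

noncomputable section

namespace Pool.Agent.MP_2339ce_nt.Q2.TB

theorem tw193 : AO Wn.Ok wg193 := tabA [
  .fi 10 ⟨0, 3, 5, 4, 0, 1, 0, 0, 1, 0, 1, 0, 1350, 999, 161, -169, 1653⟩,
  .fi 24 ⟨0, 8, 8, 9, 0, 0, 0, 0, 0, 0, 442, 0, 450, 500, 548, -235, 0⟩,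
  .fj 2 120 ⟨0, 7, 6, 6, 0, 1, 1, 527, 50, 450, 500, 1000, 1000, 93, 660, 559, -180, 0, 0⟩,
  .fi 20 ⟨0, 4, 5, 4, 1, 1, 0, 0, 1, 2871, 3187, 180, 165, 999, 298, -141, 2202⟩,
  .fi 2208 ⟨1, 19, 18, 18, 2, 0, 0, 0, 0, 0, 2501, 0, 200, 500, 1522, -370, 0⟩,
  .fi 18400 ⟨1, 19, 19, 20, 0, 0, 0, 0, 2, 1249, 2501, 300, 200, 999, 1270, -624, 9275⟩,
  .fi 1456 ⟨0, 12, 13, 13, 0, 0, 0, 1, 0, 7684, 8294, 38, 27, 500, 783, -432, 0⟩,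
  .fi 112 ⟨1, 3, 2, 2, 2, 0, 0, 0, 0, 3535, 5001, 150, 100, 50, 169, -56, 0⟩,
  .fi 2 ⟨0, 1, 2, 3, 0, 0, 1, 0, 2, 0, 157, 0, 600, 999, 73, -83, 774⟩,
  .fi 208 ⟨0, 12, 13, 12, 0, 0, 0, 0, 0, 0, 3, 0, 1200, 500, 775, -363, 0⟩,
  .fi 104 ⟨0, 10, 11, 12, 0, 0, 1, 0, 0, 2871, 3187, 180, 165, 500, 725, -336, 0⟩,
  .fi 40 ⟨1, 4, 5, 5, 0, 0, 0, 0, 2, 0, 2501, 0, 200, 999, 215, -214, 2049⟩,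
  .fi 4600 ⟨0, 18, 19, 20, 0, 0, 1, 0, 0, 0, 7, 0, 1050, 500, 1200, -573, 0⟩,
  .fi 2288 ⟨0, 10, 11, 11, 0, 0, 0, 0, 1, 0, 20, 0, 900, 999, 548, -433, 4915⟩,
  .fi 16 ⟨0, 3, 3, 4, 0, 0, 0, 0, 2, 0, 56, 0, 750, 999, 147, -154, 1501⟩] (by decide +kernel) (by decide +kernel)


end Pool.Agent.MP_2339ce_nt.Q2.TB
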